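import Pool.Agent.Helper608.Chart3

open Set MeasureTheory Filter Topology
open scoped Manifold ContDiff InnerProductSpace

namespace Pool.Agent.Helper608

section AreaMeasure

variable {M : Type*} [TopologicalSpace M] [ChartedSpace (EuclideanHalfSpace 2) M]
  [IsManifold (𝓡∂ 2) ∞ M]
  {φ χ : OpenPartialHomeomorph M (EuclideanHalfSpace 2)}

/-- the transition map between two charts -/
noncomputable def trn (φ χ : OpenPartialHomeomorph M (EuclideanHalfSpace 2)) : E2 → E2 :=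
  fun y => χ.extend (𝓡∂ 2) (inv φ y)

lemma hasFDerivWithinAt_trn (hφ : φ ∈ atlas (EuclideanHalfSpace 2) M)
    (hχ : χ ∈ atlas (EuclideanHalfSpace 2) M) {z : E2} (hz : z ∈ tgt φ)
    (hzχ : inv φ z ∈ χ.source) :
    HasFDerivWithinAt (trn φ χ) (fderivWithin ℝ (trn φ χ) HP z) HP z := by
  have h1 : ContMDiffAt (𝓡∂ 2) 𝓘(ℝ, E2) ∞ (χ.extend (𝓡∂ 2)) (inv φ z) :=
    χ.contMDiffAt_extend (IsManifold.subset_maximalAtlas hχ) hzχ
  have h2 : ContMDiffWithinAt 𝓘(ℝ, E2) (𝓡∂ 2) ∞ (inv φ) (tgt φ) z := contMDiffOn_inv hφ z hz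
  have h3 : ContMDiffWithinAt 𝓘(ℝ, E2) 𝓘(ℝ, E2) ∞ (trn φ χ) (tgt φ) z :=
    ContMDiffAt.comp_contMDiffWithinAt (I' := 𝓡∂ 2) z h1 h2
  have h4 := contMDiffWithinAt_iff_contDiffWithinAt.mp h3
  exact ((h4.differentiableWithinAt (by simp)).mono_of_mem_nhdsWithin
    (tgt_mem_nhdsWithin hz)).hasFDerivWithinAt

lemma cd_trn (hφ : φ ∈ atlas (EuclideanHalfSpace 2) M)
    (hχ : χ ∈ atlas (EuclideanHalfSpace 2) M) {z : E2} (hz : z ∈ tgt φ)
    (hzχ : inv φ z ∈ χ.source) {f : M → E3} (hf : ContMDiff (𝓡∂ 2) 𝓘(ℝ, E3) 1 f) :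
    cd φ f z = (cd χ f (trn φ χ z)).comp (fderivWithin ℝ (trn φ χ) HP z) := by
  have hzHP : z ∈ HP := tgt_subset hz
  have hwt : trn φ χ z ∈ tgt χ := ext_mem hzχ
  have mT : MapsTo (trn φ χ) HP HP := by
    intro y _
    have : trn φ χ y ∈ range (𝓡∂ 2) := by
      simp only [trn, OpenPartialHomeomorph.extend_coe, Function.comp_apply]
      exact mem_range_self _
    rwa [range_I] at this
  have hev : ∀ᶠ y in 𝓝[HP] z, y ∈ tgt φ ∧ inv φ y ∈ χ.source := by
    have h1 : ∀ᶠ y in 𝓝[HP] z, y ∈ tgt φ := tgt_mem_nhdsWithin hz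
    have h2 : ∀ᶠ y in 𝓝 z, inv φ y ∈ χ.source :=
      (continuousAt_inv hz).preimage_mem_nhds (χ.open_source.mem_nhds hzχ)
    exact h1.and (h2.filter_mono nhdsWithin_le_nhds)
  have h1 : HasFDerivWithinAt (f ∘ inv χ) (cd χ f (trn φ χ z)) HP (trn φ χ z) :=
    hasFDerivWithinAt_cd hχ hf hwt
  have h2 := HasFDerivWithinAt.comp z h1 (hasFDerivWithinAt_trn hφ hχ hz hzχ) mT
  have h3 : (f ∘ inv χ) ∘ (trn φ χ) =ᶠ[𝓝[HP] z] f ∘ inv φ := by
    filter_upwards [hev] with y hy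
    simp only [Function.comp_apply, trn]
    rw [inv_ext hy.2]
  have h4 : HasFDerivWithinAt (f ∘ inv φ)
      ((cd χ f (trn φ χ z)).comp (fderivWithin ℝ (trn φ χ) HP z)) HP z :=
    h2.congr_of_eventuallyEq h3.symm (by
      simp only [Function.comp_apply, trn]; rw [inv_ext hzχ])
  exact h4.fderivWithin (uniqueDiffOn_HP z hzHP)

lemma areaDensity_eq_aux (f : M → E3) (z : E2) :
    areaDensity φ f z = ‖cross (cd φ f z e0) (cd φ f z e1)‖ := by
  unfold areaDensity chartPartial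
  rw [range_I]
  change Real.sqrt (‖cd φ f z e0‖ ^ 2 * ‖cd φ f z e1‖ ^ 2 - ⟪cd φ f z e0, cd φ f z e1⟫_ℝ ^ 2) = _
  rw [← normsq_cross, Real.sqrt_sq (norm_nonneg _)]

lemma decomp (v : E2) : v = v 0 • e0 + v 1 • e1 := by
  apply ext2 <;> simp

lemma det_two (A : E2 →L[ℝ] E2) :
    A.det = (A e0) 0 * (A e1) 1 - (A e1) 0 * (A e0) 1 := by
  have h : A.det = LinearMap.det (A : E2 →ₗ[ℝ] E2) := rfl
  rw [h, ← LinearMap.det_toMatrix (EuclideanSpace.basisFun (Fin 2) ℝ).toBasis, Matrix.det_fin_two]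
  simp only [LinearMap.toMatrix_apply]
  simp [e0, e1]

lemma cross_comp (L : E2 →L[ℝ] E3) (A : E2 →L[ℝ] E2) :
    cross (L (A e0)) (L (A e1)) = A.det • cross (L e0) (L e1) := by
  have h0 : A e0 = (A e0) 0 • e0 + (A e0) 1 • e1 := decomp _
  have h1 : A e1 = (A e1) 0 • e0 + (A e1) 1 • e1 := decomp _
  have g0 : L (A e0) = (A e0) 0 • L e0 + (A e0) 1 • L e1 := by
    conv_lhs => rw [h0]
    simp
  have g1 : L (A e1) = (A e1) 0 • L e0 + (A e1) 1 • L e1 := by
    conv_lhs => rw [h1]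
    simp
  rw [g0, g1, det_two]
  apply ext3 <;> simp <;> ring

lemma areaDensity_trn (hφ : φ ∈ atlas (EuclideanHalfSpace 2) M)
    (hχ : χ ∈ atlas (EuclideanHalfSpace 2) M) {z : E2} (hz : z ∈ tgt φ)
    (hzχ : inv φ z ∈ χ.source) {f : M → E3} (hf : ContMDiff (𝓡∂ 2) 𝓘(ℝ, E3) 1 f) :
    areaDensity φ f z =
      |(fderivWithin ℝ (trn φ χ) HP z).det| * areaDensity χ f (trn φ χ z) := by
  rw [areaDensity_eq_aux, areaDensity_eq_aux, cd_trn hφ hχ hz hzχ hf]
  simp only [ContinuousLinearMap.comp_apply]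
  rw [cross_comp, norm_smul, Real.norm_eq_abs]

lemma image_ext_eq {s : Set M} (hs : s ⊆ φ.source) :
    (φ.extend (𝓡∂ 2)) '' s = inv φ ⁻¹' s ∩ tgt φ := by
  ext z
  constructor
  · rintro ⟨m, hm, rfl⟩
    refine ⟨?_, ext_mem (hs hm)⟩
    change inv φ _ ∈ s
    rw [inv_ext (hs hm)]; exact hm
  · rintro ⟨h1, h2⟩
    exact ⟨inv φ z, h1, ext_inv h2⟩

lemma measurableSet_image_ext [MeasurableSpace M] [BorelSpace M] {s : Set M}
    (hs : MeasurableSet s) (hsφ : s ⊆ φ.source) :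
    MeasurableSet ((φ.extend (𝓡∂ 2)) '' s) := by
  rw [image_ext_eq hsφ]
  have h1 : Continuous (fun z : tgt φ => inv φ z) := continuousOn_iff_continuous_domRestrict.mp
    continuousOn_inv
  have h2 : MeasurableSet ((fun z : tgt φ => inv φ z) ⁻¹' s) := h1.measurable hs
  have h3 := measurableSet_tgt.subtype_image (s := tgt φ) h2
  convert h3 using 1
  ext z
  constructor
  · rintro ⟨h, h'⟩
    exact ⟨⟨z, h'⟩, h, rfl⟩
  · rintro ⟨⟨w, hw⟩, h, rfl⟩
    exact ⟨h, hw⟩

lemma lintegral_change [MeasurableSpace M] [BorelSpace M]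
    (hφ : φ ∈ atlas (EuclideanHalfSpace 2) M)
    (hχ : χ ∈ atlas (EuclideanHalfSpace 2) M) {f : M → E3}
    (hf : ContMDiff (𝓡∂ 2) 𝓘(ℝ, E3) 1 f) {s : Set M} (hs : MeasurableSet s)
    (h1 : s ⊆ φ.source) (h2 : s ⊆ χ.source) :
    ∫⁻ z in (χ.extend (𝓡∂ 2)) '' s, ENNReal.ofReal (areaDensity χ f z) =
      ∫⁻ z in (φ.extend (𝓡∂ 2)) '' s, ENNReal.ofReal (areaDensity φ f z) := by
  have hm := measurableSet_image_ext hs h1
  have himg : (χ.extend (𝓡∂ 2)) '' s = trn φ χ '' ((φ.extend (𝓡∂ 2)) '' s) := by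
    rw [image_image]
    apply image_congr
    intro m hm
    simp only [trn]
    rw [inv_ext (h1 hm)]
  have hinj : InjOn (trn φ χ) ((φ.extend (𝓡∂ 2)) '' s) := by
    rintro _ ⟨m, hm, rfl⟩ _ ⟨m', hm', rfl⟩ h
    simp only [trn] at h
    rw [inv_ext (h1 hm), inv_ext (h1 hm')] at h
    have h3 : m = m' := by
      have := congrArg (inv χ) h
      rwa [inv_ext (h2 hm), inv_ext (h2 hm')] at this
    rw [h3]
  have hsub : (φ.extend (𝓡∂ 2)) '' s ⊆ HP := by
    rintro _ ⟨m, hm, rfl⟩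
    exact tgt_subset (ext_mem (h1 hm))
  rw [himg, lintegral_image_eq_lintegral_abs_det_fderiv_mul volume hm
    (f' := fun z => fderivWithin ℝ (trn φ χ) HP z) ?_ hinj]
  · refine setLIntegral_congr_fun hm ?_
    rintro _ ⟨m, hm, rfl⟩
    have hz : φ.extend (𝓡∂ 2) m ∈ tgt φ := ext_mem (h1 hm)
    have hzχ : inv φ (φ.extend (𝓡∂ 2) m) ∈ χ.source := by
      rw [inv_ext (h1 hm)]; exact h2 hm
    simp only
    rw [areaDensity_trn hφ hχ hz hzχ hf, ENNReal.ofReal_mul (abs_nonneg _)]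
  · rintro _ ⟨m, hm, rfl⟩
    have hz : φ.extend (𝓡∂ 2) m ∈ tgt φ := ext_mem (h1 hm)
    have hzχ : inv φ (φ.extend (𝓡∂ 2) m) ∈ χ.source := by
      rw [inv_ext (h1 hm)]; exact h2 hm
    exact (hasFDerivWithinAt_trn hφ hχ hz hzχ).mono hsub

/-- the piece of the area measure supported in one chart -/
noncomputable def piece [MeasurableSpace M] (φ : OpenPartialHomeomorph M (EuclideanHalfSpace 2))
    (f : M → E3) : Measure M :=
  Measure.map (inv φ) (((volume : Measure E2).restrict (tgt φ)).withDensity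
    (fun z => ENNReal.ofReal (areaDensity φ f z)))

lemma piece_apply [MeasurableSpace M] [BorelSpace M]
    (f : M → E3) {s : Set M} (hs : MeasurableSet s) (hsφ : s ⊆ φ.source) :
    piece φ f s = ∫⁻ z in (φ.extend (𝓡∂ 2)) '' s, ENNReal.ofReal (areaDensity φ f z) := by
  unfold piece
  have h1 : AEMeasurable (inv φ) (((volume : Measure E2).restrict (tgt φ)).withDensity
    (fun z => ENNReal.ofReal (areaDensity φ f z))) :=
    (continuousOn_inv.aemeasurable measurableSet_tgt).mono_ac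
      (withDensity_absolutelyContinuous _ _)
  rw [Measure.map_apply_of_aemeasurable h1 hs, withDensity_apply', 
    Measure.restrict_restrict' measurableSet_tgt, image_ext_eq hsφ]

end AreaMeasure

/-- TARGET: the area measure of an immersed compact surface exists. -/
theorem exists_isAreaMeasure {M : Type*} [TopologicalSpace M] [T2Space M] [CompactSpace M]
    [ChartedSpace (EuclideanHalfSpace 2) M] [IsManifold (𝓡∂ 2) ∞ M] [MeasurableSpace M]
    [BorelSpace M] (f : M → E3) (hf : ContMDiff (𝓡∂ 2) 𝓘(ℝ, E3) ∞ f) :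
    ∃ μ : Measure M, IsAreaMeasure f μ := by
  have hf1 : ContMDiff (𝓡∂ 2) 𝓘(ℝ, E3) 1 f := hf.of_le (by exact_mod_cast le_top)
  rcases isEmpty_or_nonempty M with hM | hM
  · refine ⟨0, ?_⟩
    intro φ _ s _ _
    have : s = ∅ := Set.eq_empty_of_isEmpty s
    simp [this]
  obtain ⟨c, hc⟩ : ∃ c : ℕ → M, ⋃ k, (chartAt (EuclideanHalfSpace 2) (c k)).source = univ := by
    obtain ⟨t, ht, hcov⟩ := isCompact_univ.elim_finite_subcover
      (fun x : M => (chartAt (EuclideanHalfSpace 2) x).source)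
      (fun x => (chartAt (EuclideanHalfSpace 2) x).open_source)
      (fun x _ => mem_iUnion.mpr ⟨x, mem_chart_source _ x⟩) |> fun ⟨t, h⟩ => (⟨t, trivial, h⟩ :
        ∃ t : Finset M, True ∧ univ ⊆ ⋃ i ∈ t, (chartAt (EuclideanHalfSpace 2) i).source)
    have hne : (t : Set M).Nonempty := by
      obtain ⟨x⟩ := hM
      have := hcov (mem_univ x)
      simp only [mem_iUnion] at this
      obtain ⟨i, hi, _⟩ := this
      exact ⟨i, hi⟩
    obtain ⟨c, hc⟩ := t.finite_toSet.countable.exists_eq_range hne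
    refine ⟨c, ?_⟩
    apply eq_univ_of_univ_subset
    intro x hx
    have := hcov hx
    simp only [mem_iUnion] at this
    obtain ⟨i, hi, hxi⟩ := this
    have hi' : i ∈ range c := hc ▸ (show i ∈ (t : Set M) from hi)
    obtain ⟨k, rfl⟩ := hi'
    exact mem_iUnion.mpr ⟨k, hxi⟩
  set S : ℕ → Set M := fun k => (chartAt (EuclideanHalfSpace 2) (c k)).source with hS
  have hSm : ∀ k, MeasurableSet (S k) := fun k =>
    (chartAt (EuclideanHalfSpace 2) (c k)).open_source.measurableSet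
  have hAm : ∀ k, MeasurableSet (disjointed S k) := fun k => MeasurableSet.disjointed hSm k
  have hAS : ∀ k, disjointed S k ⊆ S k := fun k => disjointed_subset S k
  have hU : ⋃ k, disjointed S k = univ := by rw [iUnion_disjointed]; exact hc
  have hdisj := disjoint_disjointed S
  refine ⟨Measure.sum (fun k => (piece (chartAt (EuclideanHalfSpace 2) (c k)) f).restrict
    (disjointed S k)), ?_⟩
  intro φ hφ s hs hsφ
  rw [Measure.sum_apply _ hs]
  have h1 : ∀ k, ((piece (chartAt (EuclideanHalfSpace 2) (c k)) f).restrict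
      (disjointed S k)) s =
      ∫⁻ z in (φ.extend (𝓡∂ 2)) '' (s ∩ disjointed S k), ENNReal.ofReal (areaDensity φ f z) := by
    intro k
    rw [Measure.restrict_apply hs, piece_apply f (hs.inter (hAm k))
      (inter_subset_right.trans (hAS k))]
    exact lintegral_change hφ (chart_mem_atlas _ _) hf1 (hs.inter (hAm k))
      (inter_subset_left.trans hsφ) (inter_subset_right.trans (hAS k))
  simp only [h1]
  rw [← lintegral_iUnion]
  · rw [← image_iUnion, ← inter_iUnion, hU, inter_univ]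
  · intro k
    exact measurableSet_image_ext (hs.inter (hAm k)) (inter_subset_left.trans hsφ)
  · intro i j hij
    rw [Function.onFun, Set.disjoint_left]
    rintro _ ⟨m, hm, rfl⟩ ⟨m', hm', h⟩
    have : m' = m := by
      have := congrArg (inv φ) h
      rwa [inv_ext (hsφ hm'.1), inv_ext (hsφ hm.1)] at this
    rw [this] at hm'
    exact Set.disjoint_left.mp (hdisj hij) hm.2 hm'.2

end Pool.Agent.Helper608
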