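import Pool.Agent.Helper608.Chart5

open Set MeasureTheory Filter Topology
open scoped Manifold ContDiff InnerProductSpace

set_option linter.unusedSectionVars false

namespace Pool.Agent.Helper608

/-- sign of a nonzero real -/
noncomputable def sgn (x : ℝ) : ℝ := if 0 < x then 1 else -1

lemma sgn_pos {x : ℝ} (h : 0 < x) : sgn x = 1 := if_pos h
lemma sgn_neg {x : ℝ} (h : x < 0) : sgn x = -1 := if_neg (not_lt.mpr h.le)
lemma sgn_cases (x : ℝ) : sgn x = 1 ∨ sgn x = -1 := by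
  unfold sgn; split_ifs <;> simp
lemma sgn_mul {x y : ℝ} (hx : x ≠ 0) (hy : y ≠ 0) : sgn (x * y) = sgn x * sgn y := by
  rcases lt_or_gt_of_ne hx with h1 | h1 <;> rcases lt_or_gt_of_ne hy with h2 | h2
  · rw [sgn_neg h1, sgn_neg h2, sgn_pos (mul_pos_of_neg_of_neg h1 h2)]; norm_num
  · rw [sgn_neg h1, sgn_pos h2, sgn_neg (mul_neg_of_neg_of_pos h1 h2)]; norm_num
  · rw [sgn_pos h1, sgn_neg h2, sgn_neg (mul_neg_of_pos_of_neg h1 h2)]; norm_num
  · rw [sgn_pos h1, sgn_pos h2, sgn_pos (mul_pos h1 h2)]; norm_num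
lemma sgn_mul_self {x : ℝ} (hx : x ≠ 0) : sgn x * x = |x| := by
  rcases lt_or_gt_of_ne hx with h1 | h1
  · rw [sgn_neg h1, abs_of_neg h1]; ring
  · rw [sgn_pos h1, abs_of_pos h1]; ring
lemma sgn_eventually {X : Type*} [TopologicalSpace X] {u : X → ℝ} {x : X}
    (hu : ContinuousAt u x) (h0 : u x ≠ 0) : ∀ᶠ y in 𝓝 x, sgn (u y) = sgn (u x) := by
  rcases lt_or_gt_of_ne h0 with h1 | h1
  · filter_upwards [hu.eventually (gt_mem_nhds h1)] with y hy
    rw [sgn_neg hy, sgn_neg h1]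
  · filter_upwards [hu.eventually (lt_mem_nhds h1)] with y hy
    rw [sgn_pos hy, sgn_pos h1]

variable {M : Type*} [TopologicalSpace M] [ChartedSpace (EuclideanHalfSpace 2) M]
  [IsManifold (𝓡∂ 2) ∞ M]
  {φ : OpenPartialHomeomorph M (EuclideanHalfSpace 2)} {f N : M → E3} {H : ℝ}

/-- A parametrised boundary component of the surface. -/
structure BdCurve (f : M → E3) (γ : ℝ → E3) (β : ℝ → M) : Prop where
  smooth : ContDiff ℝ ∞ γ
  deriv_ne : ∀ t, deriv γ t ≠ 0
  cont : Continuous β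
  mem : ∀ t, β t ∈ (𝓡∂ 2).boundary M
  lift : ∀ t, f (β t) = γ t

/-- position of the boundary curve in a chart -/
noncomputable def pos (φ : OpenPartialHomeomorph M (EuclideanHalfSpace 2)) (β : ℝ → M) (t : ℝ) :
    ℝ := (φ.extend (𝓡∂ 2) (β t)) 1

/-- boundary part of the chart target -/
def bdset (φ : OpenPartialHomeomorph M (EuclideanHalfSpace 2)) : Set ℝ :=
  {s | eqv (0, s) ∈ tgt φ}

lemma isOpen_bdset : IsOpen (bdset φ) := by
  have h1 : bdset φ = (fun s : ℝ => eqv ((0:ℝ), s)) ⁻¹' ((𝓡∂ 2).symm ⁻¹' φ.target) := by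
    ext s
    unfold bdset tgt
    rw [φ.extend_target]
    constructor
    · intro h; exact h.1
    · intro h
      refine ⟨h, ?_⟩
      rw [range_I]
      exact le_refl (0:ℝ)
  rw [h1]
  exact (φ.open_target.preimage (𝓡∂ 2).continuous_symm).preimage
    (eqv.continuous.comp (by fun_prop))

lemma eqv_line (s : ℝ) : HasDerivAt (fun s : ℝ => eqv ((0:ℝ), s)) e1 s := by
  have h1 : HasDerivAt (fun s : ℝ => ((0:ℝ), s)) ((0:ℝ), (1:ℝ)) s :=
    (hasDerivAt_const s (0:ℝ)).prodMk (hasDerivAt_id s)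
  have h2 := (eqv : ℝ × ℝ →L[ℝ] E2).hasFDerivAt.comp_hasDerivAt s h1
  rw [← eqv_01]
  exact h2

/-- the boundary curve in a chart -/
noncomputable def cc (φ : OpenPartialHomeomorph M (EuclideanHalfSpace 2)) (f : M → E3) (s : ℝ) :
    E3 := f (inv φ (eqv (0, s)))

lemma hasDerivAt_cc (hφ : φ ∈ atlas (EuclideanHalfSpace 2) M)
    (hf : ContMDiff (𝓡∂ 2) 𝓘(ℝ, E3) 1 f) {s : ℝ} (hs : s ∈ bdset φ) :
    HasDerivAt (cc φ f) (cd φ f (eqv (0, s)) e1) s := by
  have h1 := hasFDerivWithinAt_cd hφ hf hs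
  exact h1.comp_hasDerivAt s (eqv_line s)
    (Filter.Eventually.of_forall fun y => (le_refl (0:ℝ)))

lemma contDiffAt_cc (hφ : φ ∈ atlas (EuclideanHalfSpace 2) M)
    (hf : ContMDiff (𝓡∂ 2) 𝓘(ℝ, E3) ∞ f) {s : ℝ} (hs : s ∈ bdset φ) :
    ContDiffAt ℝ ∞ (cc φ f) s := by
  have h1 : ContDiffOn ℝ ∞ (f ∘ inv φ) (tgt φ) := contDiffOn_read (n := ⊤) hφ hf
  have h2 : ContDiff ℝ ∞ (fun s : ℝ => eqv ((0:ℝ), s)) :=
    (eqv : ℝ × ℝ →L[ℝ] E2).contDiff.comp (contDiff_const.prodMk contDiff_id)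
  have h3 : ContDiffOn ℝ ∞ ((f ∘ inv φ) ∘ (fun s : ℝ => eqv ((0:ℝ), s))) (bdset φ) :=
    h1.comp h2.contDiffOn (fun s hs => hs)
  exact h3.contDiffAt (isOpen_bdset.mem_nhds hs)

section curve
variable {γ : ℝ → E3} {β : ℝ → M}

lemma BdCurve.ext_eq (C : BdCurve f γ β) (hφ : φ ∈ atlas (EuclideanHalfSpace 2) M) {t : ℝ}
    (ht : β t ∈ φ.source) : φ.extend (𝓡∂ 2) (β t) = eqv (0, pos φ β t) := by
  apply ext2
  · rw [eqv_zero']
    exact (mem_boundary_iff hφ ht).mp (C.mem t)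
  · rfl

lemma BdCurve.pos_mem (C : BdCurve f γ β) (hφ : φ ∈ atlas (EuclideanHalfSpace 2) M) {t : ℝ}
    (ht : β t ∈ φ.source) : pos φ β t ∈ bdset φ := by
  unfold bdset
  rw [mem_ofPred_eq, ← C.ext_eq hφ ht]
  exact ext_mem ht

lemma BdCurve.inv_pos (C : BdCurve f γ β) (hφ : φ ∈ atlas (EuclideanHalfSpace 2) M) {t : ℝ}
    (ht : β t ∈ φ.source) : inv φ (eqv (0, pos φ β t)) = β t := by
  rw [← C.ext_eq hφ ht]; exact inv_ext ht

lemma BdCurve.cc_pos (C : BdCurve f γ β) (hφ : φ ∈ atlas (EuclideanHalfSpace 2) M) {t : ℝ}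
    (ht : β t ∈ φ.source) : cc φ f (pos φ β t) = γ t := by
  unfold cc
  rw [C.inv_pos hφ ht, C.lift]

lemma BdCurve.ev_source (C : BdCurve f γ β) {t : ℝ} (ht : β t ∈ φ.source) :
    ∀ᶠ y in 𝓝 t, β y ∈ φ.source :=
  C.cont.continuousAt.preimage_mem_nhds (φ.open_source.mem_nhds ht)

lemma BdCurve.continuousAt_pos (C : BdCurve f γ β) {t : ℝ} (ht : β t ∈ φ.source) :
    ContinuousAt (pos φ β) t := by
  have h1 : ContinuousAt (φ.extend (𝓡∂ 2)) (β t) := φ.continuousAt_extend ht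
  have h2 : ContinuousAt (fun y => φ.extend (𝓡∂ 2) (β y)) t :=
    ContinuousAt.comp (g := φ.extend (𝓡∂ 2)) h1 C.cont.continuousAt
  exact (continuous_coord2 1).continuousAt.comp h2

/-- The chart position of the boundary curve is strictly differentiable, with nonzero derivative. -/
lemma BdCurve.pos_deriv (C : BdCurve f γ β) (h : IsCMCImmersion f N H)
    (hφ : φ ∈ atlas (EuclideanHalfSpace 2) M) {t : ℝ} (ht : β t ∈ φ.source) :
    ∃ s' : ℝ, s' ≠ 0 ∧ HasStrictDerivAt (pos φ β) s' t ∧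
      s' • cd φ f (eqv (0, pos φ β t)) e1 = deriv γ t := by
  set s0 := pos φ β t with hs0
  have hs0m : s0 ∈ bdset φ := C.pos_mem hφ ht
  set q := cd φ f (eqv (0, s0)) e1 with hq
  have hq0 : q ≠ 0 := by
    intro h0
    have h1 := (h.cd_inj hφ hs0m).1
    have h2 : cd φ f (eqv (0, s0)) e1 = cd φ f (eqv (0, s0)) 0 := by
      rw [map_zero]; exact h0
    have h3 := congrArg (fun v : E2 => v 1) (h1 h2)
    simp at h3
  have hqq : ‖q‖ ^ 2 ≠ 0 := by
    have := norm_pos_iff.mpr hq0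
    positivity
  -- strict derivative of `cc`
  have hc : HasStrictDerivAt (cc φ f) q s0 :=
    ((contDiffAt_cc hφ h.smooth_map hs0m).hasStrictDerivAt (by simp)).congr_deriv
      ((hasDerivAt_cc hφ h.f1 hs0m).deriv)
  have hu : HasStrictDerivAt (fun s => ⟪q, cc φ f s⟫_ℝ) (‖q‖ ^ 2) s0 := by
    have h1 := (innerSL ℝ q).hasStrictFDerivAt.comp_hasStrictDerivAt s0 hc
    rw [← real_inner_self_eq_norm_sq]
    exact h1
  have hγs : HasStrictDerivAt γ (deriv γ t) t :=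
    C.smooth.contDiffAt.hasStrictDerivAt (by simp)
  have hv : HasStrictDerivAt (fun s => ⟪q, γ s⟫_ℝ) ⟪q, deriv γ t⟫_ℝ t := by
    have h1 := (innerSL ℝ q).hasStrictFDerivAt.comp_hasStrictDerivAt t hγs
    exact h1
  set w := hu.localInverse _ _ _ hqq with hw
  have hwd : HasStrictDerivAt w (‖q‖ ^ 2)⁻¹ ⟪q, cc φ f s0⟫_ℝ := hu.to_localInverse hqq
  have hwl : ∀ᶠ s in 𝓝 s0, w ⟪q, cc φ f s⟫_ℝ = s :=
    HasStrictFDerivAt.eventually_left_inverse _
  have hcpos := C.continuousAt_pos ht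
  have hcc0 : cc φ f s0 = γ t := C.cc_pos hφ ht
  have hev : pos φ β =ᶠ[𝓝 t] fun y => w ⟪q, γ y⟫_ℝ := by
    filter_upwards [C.ev_source ht, hcpos.eventually hwl] with y hy1 hy2
    rw [← hy2, C.cc_pos hφ hy1]
  have hS : HasStrictDerivAt (pos φ β) ((‖q‖ ^ 2)⁻¹ * ⟪q, deriv γ t⟫_ℝ) t := by
    have h1 : HasStrictDerivAt w (‖q‖ ^ 2)⁻¹ ⟪q, γ t⟫_ℝ := by rw [← hcc0]; exact hwd
    have h2 := HasStrictDerivAt.comp (h₂ := w) t h1 hv
    exact h2.congr_of_eventuallyEq hev.symm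
  set s' := (‖q‖ ^ 2)⁻¹ * ⟪q, deriv γ t⟫_ℝ with hs'
  have hchain : s' • q = deriv γ t := by
    have h1 : HasDerivAt (cc φ f ∘ pos φ β) (s' • q) t :=
      HasDerivAt.scomp t hc.hasDerivAt hS.hasDerivAt
    have h2 : cc φ f ∘ pos φ β =ᶠ[𝓝 t] γ := by
      filter_upwards [C.ev_source ht] with y hy
      exact C.cc_pos hφ hy
    have h3 : HasDerivAt γ (s' • q) t := h1.congr_of_eventuallyEq h2.symm
    exact h3.deriv.symm
  refine ⟨s', ?_, hS, hchain⟩
  intro h0
  rw [h0, zero_smul] at hchain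
  exact C.deriv_ne t hchain.symm

/-- orientation determinant at a boundary point -/
noncomputable def tau (f N : M → E3) (γ : ℝ → E3) (β : ℝ → M) (t : ℝ) : ℝ :=
  ⟪N (β t), cross (dd f (β t) e0) (deriv γ t)⟫_ℝ

/-- comparison of the intrinsic orientation determinant with the one of a chart -/
lemma BdCurve.tau_chart (C : BdCurve f γ β) (h : IsCMCImmersion f N H)
    (hφ : φ ∈ atlas (EuclideanHalfSpace 2) M) {t : ℝ} (ht : β t ∈ φ.source) :
    ∃ a : ℝ, 0 < a ∧
      ⟪N (β t), cross (cd φ f (eqv (0, pos φ β t)) e0) (deriv γ t)⟫_ℝ = a * tau f N γ β t := by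
  obtain ⟨s', hs', -, hchain⟩ := C.pos_deriv h hφ ht
  have hz : eqv (0, pos φ β t) ∈ tgt φ := C.pos_mem hφ ht
  have hinv := C.inv_pos hφ ht
  obtain ⟨A, hA, hA2, hA3⟩ := exists_transition hφ hz
  rw [hinv] at hA2 hA3
  have hext : (extChartAt (𝓡∂ 2) (β t) (β t)) 0 = 0 :=
    (mem_boundary_iff (chart_mem_atlas _ (β t)) (mem_chart_source _ (β t))).mp (C.mem t)
  obtain ⟨hA1, hA0⟩ := hA3 hext (by simp)
  refine ⟨(A e0) 0, hA0, ?_⟩
  have hdf : ∀ v, cd φ f (eqv (0, pos φ β t)) v = dd f (β t) (A v) := hA2 f h.f1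
  unfold tau
  rw [← hchain, hdf, hdf]
  set L := dd f (β t) with hL
  have x0 : A e0 = (A e0) 0 • e0 + (A e0) 1 • e1 := e2_decomp _
  have x1 : A e1 = (A e1) 1 • e1 := by
    have := e2_decomp (A e1)
    rw [hA1, zero_smul, zero_add] at this
    exact this
  set a := (A e0) 0
  set c := (A e0) 1
  set d := (A e1) 1
  rw [x0, x1]
  simp only [map_add, map_smul]
  rw [inner3, inner3]
  simp
  ring

lemma BdCurve.tau_ne (C : BdCurve f γ β) (h : IsCMCImmersion f N H) (t : ℝ) :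
    tau f N γ β t ≠ 0 := by
  set φ := chartAt (EuclideanHalfSpace 2) (β t) with hφdef
  have hφ : φ ∈ atlas (EuclideanHalfSpace 2) M := chart_mem_atlas _ _
  have ht : β t ∈ φ.source := mem_chart_source _ _
  obtain ⟨a, ha, hat⟩ := C.tau_chart h hφ ht
  obtain ⟨s', hs', -, hchain⟩ := C.pos_deriv h hφ ht
  have hz : eqv (0, pos φ β t) ∈ tgt φ := C.pos_mem hφ ht
  intro h0
  rw [h0, mul_zero, ← hchain, cross_smul_right, inner_smul_right] at hat
  have h1 := h.sden_ne hφ hz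
  unfold sden at h1
  rw [C.inv_pos hφ ht] at h1
  rcases mul_eq_zero.mp hat with h2 | h2
  · exact hs' h2
  · exact h1 h2

/-- the orientation sign is constant along a boundary curve -/
lemma BdCurve.sgn_tau_const (C : BdCurve f γ β) (h : IsCMCImmersion f N H) (t : ℝ) :
    sgn (tau f N γ β t) = sgn (tau f N γ β 0) := by
  have hloc : IsLocallyConstant (fun t => sgn (tau f N γ β t)) := by
    rw [IsLocallyConstant.iff_eventually_eq]
    intro t
    set φ := chartAt (EuclideanHalfSpace 2) (β t) with hφdef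
    have hφ : φ ∈ atlas (EuclideanHalfSpace 2) M := chart_mem_atlas _ _
    have ht : β t ∈ φ.source := mem_chart_source _ _
    set u : ℝ → ℝ := fun y =>
      ⟪N (β y), cross (cd φ f (eqv (0, pos φ β y)) e0) (deriv γ y)⟫_ℝ with hu
    have hrel : ∀ y, β y ∈ φ.source → u y ≠ 0 ∧ sgn (u y) = sgn (tau f N γ β y) := by
      intro y hy
      obtain ⟨a, ha, hat⟩ := C.tau_chart h hφ hy
      have h1 := C.tau_ne h y
      have h2 : u y = a * tau f N γ β y := hat
      rw [h2]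
      refine ⟨mul_ne_zero ha.ne' h1, ?_⟩
      rw [sgn_mul ha.ne' h1, sgn_pos ha, one_mul]
    have hcu : ContinuousAt u t := by
      have h1 : ContinuousAt (fun y => eqv ((0:ℝ), pos φ β y)) t :=
        eqv.continuous.continuousAt.comp (continuousAt_const.prodMk (C.continuousAt_pos ht))
      have h2 : ContinuousWithinAt (cd φ f) (tgt φ) (eqv ((0:ℝ), pos φ β t)) :=
        continuousOn_cd hφ h.f1 _ (C.pos_mem hφ ht)
      have h3 : ContinuousAt (fun y => cd φ f (eqv ((0:ℝ), pos φ β y))) t := by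
        have h4 : Tendsto (fun y => eqv ((0:ℝ), pos φ β y)) (𝓝 t)
            (𝓝[tgt φ] (eqv ((0:ℝ), pos φ β t))) := by
          apply tendsto_nhdsWithin_of_tendsto_nhds_of_eventually_within _ h1
          filter_upwards [C.ev_source ht] with y hy
          exact C.pos_mem hφ hy
        exact h2.tendsto.comp h4
      have h5 : ContinuousAt (fun y => deriv γ y) t :=
        (C.smooth.continuous_deriv (by simp)).continuousAt
      have h6 : ContinuousAt (fun y => N (β y)) t :=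
        (h.smooth_normal.continuous.comp C.cont).continuousAt
      have h7 : ContinuousAt (fun y => cross (cd φ f (eqv (0, pos φ β y)) e0) (deriv γ y)) t :=
        continuous_cross.continuousAt.comp ((h3.clm_apply continuousAt_const).prodMk h5)
      exact h6.inner h7
    filter_upwards [C.ev_source ht, sgn_eventually hcu (hrel t ht).1] with y hy1 hy2
    rw [← (hrel y hy1).2, ← (hrel t ht).2, hy2]
  exact hloc.apply_eq_of_preconnectedSpace t 0

/-- sign relation in a chart -/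
lemma BdCurve.eps_sgn (C : BdCurve f γ β) (h : IsCMCImmersion f N H)
    (hφ : φ ∈ atlas (EuclideanHalfSpace 2) M) {t : ℝ} (ht : β t ∈ φ.source) {s' : ℝ}
    (hs' : s' ≠ 0) (hchain : s' • cd φ f (eqv (0, pos φ β t)) e1 = deriv γ t) :
    eps φ f N (eqv (0, pos φ β t)) * sgn s' = sgn (tau f N γ β 0) := by
  have hz : eqv (0, pos φ β t) ∈ tgt φ := C.pos_mem hφ ht
  obtain ⟨a, ha, hat⟩ := C.tau_chart h hφ ht
  have hd := h.sden_ne hφ hz
  have e1' : eps φ f N (eqv (0, pos φ β t)) = sgn (sden φ f N (eqv (0, pos φ β t))) := by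
    unfold eps
    rw [← h.abs_sden hφ hz, ← sgn_mul_self hd]
    rcases sgn_cases (sden φ f N (eqv (0, pos φ β t))) with e | e <;> rw [e]
    · field_simp
    · field_simp
  rw [e1', ← sgn_mul hd hs', ← C.sgn_tau_const h t]
  have h1 : sden φ f N (eqv (0, pos φ β t)) * s' = a * tau f N γ β t := by
    rw [← hat, ← hchain, cross_smul_right, inner_smul_right]
    unfold sden
    rw [C.inv_pos hφ ht]
    ring
  rw [h1, sgn_mul ha.ne' (C.tau_ne h t), sgn_pos ha, one_mul]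

end curve

end Pool.Agent.Helper608
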