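import Pool.Agent.Helper608.Bdry1

open Set MeasureTheory Filter Topology
open scoped Manifold ContDiff InnerProductSpace

set_option linter.unusedSectionVars false

namespace Pool.Agent.Helper608

variable {M : Type*} [TopologicalSpace M] [ChartedSpace (EuclideanHalfSpace 2) M]
  [IsManifold (𝓡∂ 2) ∞ M]
  {φ : OpenPartialHomeomorph M (EuclideanHalfSpace 2)} {f N : M → E3} {H : ℝ}
  {γ γ₁ γ₂ : ℝ → E3} {β β₁ β₂ : ℝ → M}

/-- parameters of the boundary curve lying over the chart -/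
def par (φ : OpenPartialHomeomorph M (EuclideanHalfSpace 2)) (β : ℝ → M) : Set ℝ :=
  Ico 0 1 ∩ β ⁻¹' φ.source

lemma BdCurve.measurable_par (C : BdCurve f γ β) : MeasurableSet (par φ β) :=
  measurableSet_Ico.inter (φ.open_source.preimage C.cont).measurableSet

lemma BdCurve.injOn_pos (C : BdCurve f γ β) (hφ : φ ∈ atlas (EuclideanHalfSpace 2) M)
    (hinj : InjOn γ (Ico 0 1)) : InjOn (pos φ β) (par φ β) := by
  intro t ht t' ht' heq
  have h1 := C.cc_pos hφ ht.2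
  have h2 := C.cc_pos hφ ht'.2
  rw [heq, h2] at h1
  exact (hinj ht'.1 ht.1 h1).symm

lemma BdCurve.integral_image (C : BdCurve f γ β) (h : IsCMCImmersion f N H)
    (hφ : φ ∈ atlas (EuclideanHalfSpace 2) M) (hinj : InjOn γ (Ico 0 1)) {b : M → E3}
    (hb : tsupport b ⊆ φ.source) :
    MeasurableSet (pos φ β '' par φ β) ∧
    ∫ s in pos φ β '' par φ β, bdI φ f N b (eqv (0, s)) =
      sgn (tau f N γ β 0) * ∫ t in Ico (0:ℝ) 1, ⟪b (β t), deriv γ t⟫_ℝ := by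
  have hex : ∀ t, t ∈ par φ β → ∃ s' : ℝ, s' ≠ 0 ∧ HasStrictDerivAt (pos φ β) s' t ∧
      s' • cd φ f (eqv (0, pos φ β t)) e1 = deriv γ t := fun t ht => C.pos_deriv h hφ ht.2
  choose! S' hS'0 hS'd hS'c using hex
  have hmeas := C.measurable_par (φ := φ)
  have hinjp := C.injOn_pos hφ hinj
  have hder : ∀ t ∈ par φ β, HasDerivWithinAt (pos φ β) (S' t) (par φ β) t := fun t ht =>
    (hS'd t ht).hasDerivAt.hasDerivWithinAt
  refine ⟨?_, ?_⟩
  · exact measurable_image_of_fderivWithin hmeas (fun t ht => (hder t ht).hasFDerivWithinAt) hinjp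
  · rw [integral_image_eq_integral_abs_deriv_smul hmeas hder hinjp]
    have h1 : ∫ t in par φ β, |S' t| • bdI φ f N b (eqv (0, pos φ β t)) =
        ∫ t in par φ β, sgn (tau f N γ β 0) * ⟪b (β t), deriv γ t⟫_ℝ := by
      apply setIntegral_congr_fun hmeas
      intro t ht
      have hz : eqv (0, pos φ β t) ∈ tgt φ := C.pos_mem hφ ht.2
      have h2 := C.eps_sgn h hφ ht.2 (hS'0 t ht) (hS'c t ht)
      simp only
      unfold bdI
      rw [indicator_of_mem hz, C.inv_pos hφ ht.2, ← hS'c t ht, inner_smul_right, ← h2,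
        ← sgn_mul_self (hS'0 t ht), smul_eq_mul]
      ring
    rw [h1, ← integral_const_mul]
    symm
    apply setIntegral_eq_of_subset_of_forall_sdiff_eq_zero measurableSet_Ico inter_subset_left
    intro t ht
    have h3 : β t ∉ φ.source := fun hs => ht.2 ⟨ht.1, hs⟩
    have h4 : b (β t) = 0 := image_eq_zero_of_notMem_tsupport (fun hb' => h3 (hb hb'))
    rw [h4, inner_zero_left, mul_zero]

/-- The two boundary curves of the surface. -/
structure BdPair (f : M → E3) (γ₁ γ₂ : ℝ → E3) (β₁ β₂ : ℝ → M) : Prop where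
  c₁ : BdCurve f γ₁ β₁
  c₂ : BdCurve f γ₂ β₂
  inj₁ : InjOn γ₁ (Ico 0 1)
  inj₂ : InjOn γ₂ (Ico 0 1)
  cover : ∀ m ∈ (𝓡∂ 2).boundary M, ∃ t ∈ Ico (0:ℝ) 1, β₁ t = m ∨ β₂ t = m
  disj : ∀ t t', γ₁ t ≠ γ₂ t'

lemma BdPair.bdset_eq (P : BdPair f γ₁ γ₂ β₁ β₂) (hφ : φ ∈ atlas (EuclideanHalfSpace 2) M) :
    bdset φ = pos φ β₁ '' par φ β₁ ∪ pos φ β₂ '' par φ β₂ := by
  ext s
  constructor
  · intro hs
    have hz : eqv ((0:ℝ), s) ∈ tgt φ := hs
    have hm : inv φ (eqv (0, s)) ∈ (𝓡∂ 2).boundary M := by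
      rw [mem_boundary_iff hφ (inv_mem hz), ext_inv hz]; simp
    obtain ⟨t, ht, h1 | h1⟩ := P.cover _ hm
    · left
      have h2 : β₁ t ∈ φ.source := by rw [h1]; exact inv_mem hz
      refine ⟨t, ⟨ht, h2⟩, ?_⟩
      unfold pos
      rw [h1, ext_inv hz]; simp
    · right
      have h2 : β₂ t ∈ φ.source := by rw [h1]; exact inv_mem hz
      refine ⟨t, ⟨ht, h2⟩, ?_⟩
      unfold pos
      rw [h1, ext_inv hz]; simp
  · rintro (⟨t, ht, rfl⟩ | ⟨t, ht, rfl⟩)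
    · exact P.c₁.pos_mem hφ ht.2
    · exact P.c₂.pos_mem hφ ht.2

lemma BdPair.disjoint (P : BdPair f γ₁ γ₂ β₁ β₂) (hφ : φ ∈ atlas (EuclideanHalfSpace 2) M) :
    Disjoint (pos φ β₁ '' par φ β₁) (pos φ β₂ '' par φ β₂) := by
  rw [Set.disjoint_left]
  rintro _ ⟨t, ht, rfl⟩ ⟨t', ht', heq⟩
  have h1 := P.c₁.cc_pos hφ ht.2
  have h2 := P.c₂.cc_pos hφ ht'.2
  rw [heq, h1] at h2
  exact P.disj t t' h2

variable [MeasurableSpace M] [BorelSpace M] [CompactSpace M]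

/-- Stokes' theorem for forms supported in a chart. -/
theorem BdPair.stokes_chart (P : BdPair f γ₁ γ₂ β₁ β₂) (h : IsCMCImmersion f N H)
    (hφ : φ ∈ atlas (EuclideanHalfSpace 2) M)
    {μ : Measure M} (hμ : IsAreaMeasure f μ) {b : M → E3}
    (hb : ContMDiff (𝓡∂ 2) 𝓘(ℝ, E3) 1 b) (hsupp : tsupport b ⊆ φ.source) :
    Integrable (omg f N b) μ ∧
      ∫ m, omg f N b m ∂μ =
        -sgn (tau f N γ₁ β₁ 0) * (∫ t in Ico (0:ℝ) 1, ⟪b (β₁ t), deriv γ₁ t⟫_ℝ) +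
        -sgn (tau f N γ₂ β₂ 0) * (∫ t in Ico (0:ℝ) 1, ⟪b (β₂ t), deriv γ₂ t⟫_ℝ) := by
  obtain ⟨h1, h2, h3⟩ := chart_stokes h hφ hμ hb hsupp
  refine ⟨h1, ?_⟩
  obtain ⟨m1, i1⟩ := P.c₁.integral_image h hφ P.inj₁ hsupp
  obtain ⟨m2, i2⟩ := P.c₂.integral_image h hφ P.inj₂ hsupp
  have h4 : ∫ s : ℝ, bdI φ f N b (eqv (0, s)) =
      ∫ s in bdset φ, bdI φ f N b (eqv (0, s)) := by
    symm
    apply setIntegral_eq_integral_of_forall_compl_eq_zero
    intro s hs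
    unfold bdI
    exact indicator_of_notMem (s := tgt φ) hs _
  rw [h3, h4, P.bdset_eq hφ, setIntegral_union (P.disjoint hφ) m2 h2.integrableOn h2.integrableOn,
    i1, i2]
  ring

end Pool.Agent.Helper608
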