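import Pool.Agent.Helper608.Core1

open Set MeasureTheory Filter Topology
open scoped ContDiff InnerProductSpace

namespace Pool.Agent.Helper608

/-- `C ⊆ ℝ²` is a smooth simple closed curve which is the boundary of the
nonempty bounded open convex set `D`. -/
structure IsSmoothConvexCurve (C D : Set E2) : Prop extends IsConvexCurve C D where
  exists_param : ∃ γ : ℝ → E2, ContDiff ℝ ∞ γ ∧ Function.Periodic γ 1 ∧
    (∀ t, deriv γ t ≠ 0) ∧ InjOn γ (Ico 0 1) ∧ range γ = C

section aux

lemma L1_incl (α β : ℝ) (x : E2) : L1 α β (inclP x) = α * x 0 + β * x 1 := by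
  simp [L1, pr, inclP]

lemma L2_incl (α β : ℝ) (x : E2) : L2 α β (inclP x) = -β * x 0 + α * x 1 := by
  simp [L2, pr, inclP]

/-- `inclP` as a continuous linear map -/
noncomputable def inclL : E2 →L[ℝ] E3 :=
  LinearMap.toContinuousLinearMap
    { toFun := inclP
      map_add' := by
        intro x y
        ext i
        fin_cases i <;> simp [inclP]
      map_smul' := by
        intro r x
        ext i
        fin_cases i <;> simp [inclP] }

lemma inclL_apply (x : E2) : inclL x = inclP x := rfl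

lemma deriv_incl (γ : ℝ → E2) (hγ : Differentiable ℝ γ) (t : ℝ) :
    deriv (fun t => inclP (γ t)) t = inclP (deriv γ t) := by
  have h := (inclL.hasFDerivAt (x := γ t)).comp_hasDerivAt t (hγ t).hasDerivAt
  exact h.deriv

lemma inner_vv (α β : ℝ) (x : E2) : ⟪vv α β, inclP x⟫_ℝ = -β * x 0 + α * x 1 := by
  simp [vv, inclP, PiLp.inner_apply, Fin.sum_univ_three]
  ring

lemma frontier_not_mem {D : Set E2} (hD : IsOpen D) {x : E2} (hx : x ∈ frontier D) : x ∉ D := by
  rw [hD.frontier_eq] at hx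
  exact hx.2

/-- key transversality -/
lemma det_ne_zero {D : Set E2} (hD : IsOpen D) (hc : Convex ℝ D) (γ : ℝ → E2)
    (hγ : Differentiable ℝ γ) (hr : range γ ⊆ frontier D) {q : E2} (hq : q ∈ D) (t : ℝ)
    (hd : deriv γ t ≠ 0) :
    (γ t 0 - q 0) * (deriv γ t 1) - (γ t 1 - q 1) * (deriv γ t 0) ≠ 0 := by
  have hn : γ t ∉ D := frontier_not_mem hD (hr ⟨t, rfl⟩)
  obtain ⟨f, hf⟩ := geometric_hahn_banach_open_point hc hD hn
  have hle : ∀ x ∈ closure D, f x ≤ f (γ t) := by
    intro x hx
    have hcl : IsClosed {x | f x ≤ f (γ t)} := isClosed_le f.continuous continuous_const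
    exact (closure_minimal (fun y hy => (hf y hy).le) hcl) hx
  have hmax : IsLocalMax (fun s => f (γ s)) t := by
    refine Filter.Eventually.of_forall ?_
    intro s
    exact hle _ (frontier_subset_closure (hr ⟨s, rfl⟩))
  have hder : HasDerivAt (fun s => f (γ s)) (f (deriv γ t)) t :=
    (f.hasFDerivAt (x := γ t)).comp_hasDerivAt t (hγ t).hasDerivAt
  have h0 : f (deriv γ t) = 0 := hmax.hasDerivAt_eq_zero hder
  intro hdet
  set v := deriv γ t with hv
  set u := γ t - q with hu
  have hu0 : u 0 = γ t 0 - q 0 := by simp [hu]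
  have hu1 : u 1 = γ t 1 - q 1 := by simp [hu]
  rw [← hu0, ← hu1] at hdet
  have hfu : 0 < f u := by
    rw [hu, map_sub]
    linarith [hf q hq]
  have hfu0 : f u = 0 := by
    by_cases hv0 : v 0 = 0
    · have hv1 : v 1 ≠ 0 := by
        intro h1
        apply hd
        ext i
        fin_cases i
        · simpa using hv0
        · simpa using h1
      have : u = (u 1 / v 1) • v := by
        ext i
        fin_cases i
        · simp [hv0]
          rw [hv0] at hdet
          simp at hdet
          rcases hdet with h | h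
          · exact h
          · exact absurd h hv1
        · simp
          field_simp
      rw [this, map_smul, h0, smul_zero]
    · have : u = (u 0 / v 0) • v := by
        ext i
        fin_cases i
        · simp
          field_simp
        · simp
          field_simp
          linarith
      rw [this, map_smul, h0, smul_zero]
  linarith

lemma const_sign (w : ℝ → ℝ) (hw : Continuous w) (h0 : ∀ t, w t ≠ 0) :
    (∀ t, 0 < w t) ∨ (∀ t, w t < 0) := by
  by_contra hcon
  push Not at hcon
  obtain ⟨⟨a, ha⟩, ⟨b, hb⟩⟩ := hcon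
  have := intermediate_value_univ a b hw
  obtain ⟨c, hc⟩ := this ⟨ha, hb⟩
  exact h0 c hc

/-- main analytic lemma for one curve -/
lemma curve_signs {D : Set E2} (hD : IsOpen D) (hc : Convex ℝ D) (γ : ℝ → E2)
    (hγ : ContDiff ℝ ∞ γ) (hper : Function.Periodic γ 1) (hd : ∀ t, deriv γ t ≠ 0)
    (hr : range γ ⊆ frontier D) {q : E2} (hq : q ∈ D) (α β c : ℝ) (hab : α ^ 2 + β ^ 2 = 1)
    (a b : ℝ)
    (ha : ∫ t in (0:ℝ)..1, (L1 α β (inclP (γ t)) - c) * ⟪vv α β, deriv (fun t => inclP (γ t)) t⟫_ℝ = a)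
    (hb : ∫ t in (0:ℝ)..1, (-((L1 α β (inclP (γ t)) - c) ^ 2 + (inclP (γ t) 2) ^ 2) / 2) *
      ⟪vv α β, deriv (fun t => inclP (γ t)) t⟫_ℝ = b) :
    ((∀ t, L1 α β (inclP (γ t)) - c < 0) → L1 α β (inclP q) - c < 0 → 0 < a * b) ∧
    ((∀ t, 0 < L1 α β (inclP (γ t)) - c) → 0 < L1 α β (inclP q) - c → a * b < 0) := by
  have hdiff : Differentiable ℝ γ := hγ.differentiable (by simp)
  have hdc : Continuous (deriv γ) := hγ.continuous_deriv (by simp)
  have hcont : Continuous γ := hγ.continuous
  set x : ℝ → ℝ := fun t => α * γ t 0 + β * γ t 1 - c with hx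
  set y : ℝ → ℝ := fun t => -β * γ t 0 + α * γ t 1 with hy
  set x' : ℝ → ℝ := fun t => α * deriv γ t 0 + β * deriv γ t 1 with hx'
  set y' : ℝ → ℝ := fun t => -β * deriv γ t 0 + α * deriv γ t 1 with hy'
  set p1 : ℝ := α * q 0 + β * q 1 - c with hp1
  set p2 : ℝ := -β * q 0 + α * q 1 with hp2
  have hcoord : ∀ i t, HasDerivAt (fun s => γ s i) (deriv γ t i) t := by
    intro i t
    have := ((EuclideanSpace.proj i : E2 →L[ℝ] ℝ).hasFDerivAt
      (x := γ t)).comp_hasDerivAt t (hdiff t).hasDerivAt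
    exact this
  have hxd : ∀ t, HasDerivAt x (x' t) t := fun t =>
    (((hcoord 0 t).const_mul α).add ((hcoord 1 t).const_mul β)).sub_const c
  have hyd : ∀ t, HasDerivAt y (y' t) t := fun t =>
    ((hcoord 0 t).const_mul (-β)).add ((hcoord 1 t).const_mul α)
  have hci : ∀ i, Continuous (fun t => γ t i) := fun i => by fun_prop
  have hdi : ∀ i, Continuous (fun t => deriv γ t i) := fun i => by
    exact (EuclideanSpace.proj i : E2 →L[ℝ] ℝ).continuous.comp hdc
  have hxc : Continuous x := by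
    have := hci 0; have := hci 1
    simp only [hx]; fun_prop
  have hyc : Continuous y := by
    have := hci 0; have := hci 1
    simp only [hy]; fun_prop
  have hx'c : Continuous x' := by
    have := hdi 0; have := hdi 1
    simp only [hx']; fun_prop
  have hy'c : Continuous y' := by
    have := hdi 0; have := hdi 1
    simp only [hy']; fun_prop
  have hxper : x 1 = x 0 := by
    have := hper 0
    simp only [zero_add] at this
    simp [hx, this]
  have hyper : y 1 = y 0 := by
    have := hper 0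
    simp only [zero_add] at this
    simp [hy, this]
  set w : ℝ → ℝ := fun t => (x t - p1) * y' t - (y t - p2) * x' t with hw
  have hwc : Continuous w := by simp only [hw]; fun_prop
  have hw0 : ∀ t, w t ≠ 0 := by
    intro t
    have h := det_ne_zero hD hc γ hdiff hr hq t (hd t)
    have e : w t = (α ^ 2 + β ^ 2) * ((γ t 0 - q 0) * (deriv γ t 1) - (γ t 1 - q 1) * (deriv γ t 0)) := by
      simp only [hw, hx, hy, hx', hy', hp1, hp2]
      ring
    rw [e, hab, one_mul]
    exact h
  -- identities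
  have ia : a = (1/2) * ∫ t in (0:ℝ)..1, w t := by
    have h1 : ∫ t in (0:ℝ)..1, ((1/2) * (x' t * (y t - p2) + (x t + p1) * y' t)) = 0 := by
      have hF : ∀ t ∈ Set.uIcc (0:ℝ) 1, HasDerivAt (fun t => (1/2) * ((x t + p1) * (y t - p2)))
          ((1/2) * (x' t * (y t - p2) + (x t + p1) * y' t)) t := by
        intro t _
        exact ((((hxd t).add_const p1).mul ((hyd t).sub_const p2)).const_mul (1/2))
      rw [intervalIntegral.integral_eq_sub_of_hasDerivAt hF]
      · rw [hxper, hyper]; ring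
      · apply Continuous.intervalIntegrable; fun_prop
    have h2 : a = ∫ t in (0:ℝ)..1, ((1/2) * w t + (1/2) * (x' t * (y t - p2) + (x t + p1) * y' t)) := by
      rw [← ha]
      apply intervalIntegral.integral_congr
      intro t _
      simp only
      rw [deriv_incl γ hdiff, inner_vv, L1_incl]
      simp only [hw, hx, hy, hx', hy']
      ring
    rw [h2, intervalIntegral.integral_add, h1, add_zero, intervalIntegral.integral_const_mul]
    · apply Continuous.intervalIntegrable; fun_prop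
    · apply Continuous.intervalIntegrable; fun_prop
  have ib : b = - ∫ t in (0:ℝ)..1, (x t / 3 + p1 / 6) * w t := by
    have h1 : ∫ t in (0:ℝ)..1, ((1/6) * ((2 * x t + p1) * x' t * (y t - p2) +
        (x t ^ 2 + x t * p1 + p1 ^ 2) * y' t)) = 0 := by
      have hF : ∀ t ∈ Set.uIcc (0:ℝ) 1, HasDerivAt
          (fun t => (1/6) * ((x t ^ 2 + x t * p1 + p1 ^ 2) * (y t - p2)))
          ((1/6) * ((2 * x t + p1) * x' t * (y t - p2) +
        (x t ^ 2 + x t * p1 + p1 ^ 2) * y' t)) t := by
        intro t _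
        have := (((((hxd t).pow 2).add ((hxd t).mul_const p1)).add_const (p1 ^ 2)).mul
          ((hyd t).sub_const p2)).const_mul (1/6)
        have e : (1/6) * ((2 * x t + p1) * x' t * (y t - p2) +
            (x t ^ 2 + x t * p1 + p1 ^ 2) * y' t) =
            (1/6) * ((((2:ℕ):ℝ) * x t ^ (2 - 1) * x' t + x' t * p1) * (y t - p2) +
            (x t ^ 2 + x t * p1 + p1 ^ 2) * y' t) := by
          have e2 : (2 - 1 : ℕ) = 1 := rfl
          rw [e2, pow_one]
          push_cast
          ring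
        rw [e]
        exact this
      rw [intervalIntegral.integral_eq_sub_of_hasDerivAt hF]
      · rw [hxper, hyper]; ring
      · apply Continuous.intervalIntegrable; fun_prop
    have h2 : -b = ∫ t in (0:ℝ)..1, ((x t / 3 + p1 / 6) * w t +
        (1/6) * ((2 * x t + p1) * x' t * (y t - p2) +
        (x t ^ 2 + x t * p1 + p1 ^ 2) * y' t)) := by
      rw [← hb, ← intervalIntegral.integral_neg]
      apply intervalIntegral.integral_congr
      intro t _
      simp only
      rw [deriv_incl γ hdiff, inner_vv, L1_incl]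
      have : inclP (γ t) 2 = 0 := by simp [inclP]
      rw [this]
      simp only [hw, hx, hy, hx', hy']
      ring
    rw [intervalIntegral.integral_add, h1, add_zero] at h2
    · linarith
    · apply Continuous.intervalIntegrable; fun_prop
    · apply Continuous.intervalIntegrable; fun_prop
  have key : ∀ g : ℝ → ℝ, Continuous g → (∀ t, 0 < g t) → 0 < ∫ t in (0:ℝ)..1, g t := by
    intro g hg hpos
    exact intervalIntegral.intervalIntegral_pos_of_pos (hg.intervalIntegrable _ _) hpos one_pos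
  have keyn : ∀ g : ℝ → ℝ, Continuous g → (∀ t, g t < 0) → ∫ t in (0:ℝ)..1, g t < 0 := by
    intro g hg hneg
    have := key (fun t => - g t) hg.neg (fun t => by have := hneg t; linarith)
    rw [intervalIntegral.integral_neg] at this
    linarith
  have hcomb : Continuous (fun t => (x t / 3 + p1 / 6) * w t) := by fun_prop
  constructor
  · intro hneg hq'
    have hxn : ∀ t, x t < 0 := fun t => by
      have := hneg t; rw [L1_incl] at this; exact this
    have hpn : p1 < 0 := by rw [L1_incl] at hq'; exact hq'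
    have hfac : ∀ t, x t / 3 + p1 / 6 < 0 := fun t => by have := hxn t; linarith
    rcases const_sign w hwc hw0 with hs | hs
    · have A := key w hwc hs
      have B := keyn _ hcomb (fun t => mul_neg_of_neg_of_pos (hfac t) (hs t))
      rw [ia, ib]
      apply mul_pos <;> linarith
    · have A := keyn w hwc hs
      have B := key _ hcomb (fun t => mul_pos_of_neg_of_neg (hfac t) (hs t))
      rw [ia, ib]
      apply mul_pos_of_neg_of_neg <;> linarith
  · intro hneg hq'
    have hxn : ∀ t, 0 < x t := fun t => by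
      have := hneg t; rw [L1_incl] at this; exact this
    have hpn : 0 < p1 := by rw [L1_incl] at hq'; exact hq'
    have hfac : ∀ t, 0 < x t / 3 + p1 / 6 := fun t => by have := hxn t; linarith
    rcases const_sign w hwc hw0 with hs | hs
    · have A := key w hwc hs
      have B := key _ hcomb (fun t => mul_pos (hfac t) (hs t))
      rw [ia, ib]
      apply mul_neg_of_pos_of_neg <;> linarith
    · have A := keyn w hwc hs
      have B := keyn _ hcomb (fun t => mul_neg_of_pos_of_neg (hfac t) (hs t))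
      rw [ia, ib]
      apply mul_neg_of_neg_of_pos <;> linarith

end aux

/-- TARGET. Two disjoint convex plane curves with disjoint interiors are separated by a line
`⟪u, x⟫ = c` (`u = (α, β)` unit), with a gap `δ`, and the signed areas `a_j` and moments `b_j` of the
curves satisfy `a₁ b₁ > 0 > a₂ b₂`. -/
theorem exists_bdData (C₁ C₂ D₁ D₂ : Set E2) (h₁ : IsSmoothConvexCurve C₁ D₁)
    (h₂ : IsSmoothConvexCurve C₂ D₂) (hD : Disjoint D₁ D₂) (hC : Disjoint C₁ C₂)
    (γ₁ γ₂ : ℝ → E2)
    (hγ₁ : ContDiff ℝ ∞ γ₁ ∧ Function.Periodic γ₁ 1 ∧ (∀ t, deriv γ₁ t ≠ 0) ∧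
      InjOn γ₁ (Ico 0 1) ∧ range γ₁ = C₁)
    (hγ₂ : ContDiff ℝ ∞ γ₂ ∧ Function.Periodic γ₂ 1 ∧ (∀ t, deriv γ₂ t ≠ 0) ∧
      InjOn γ₂ (Ico 0 1) ∧ range γ₂ = C₂) :
    ∃ α β c δ R a₁ a₂ b₁ b₂ : ℝ,
      (∀ Λ : ℝ, 0 ≤ Λ → BdData α β c δ R Λ (inclP '' (C₁ ∪ C₂)) (fun t => inclP (γ₁ t))
        (fun t => inclP (γ₂ t)) a₁ a₂ b₁ b₂) ∧
      L1 α β (inclP (γ₁ 0)) - c < 0 ∧ 0 < L1 α β (inclP (γ₂ 0)) - c := by
  obtain ⟨q₁, hq₁⟩ := h₁.nonempty
  obtain ⟨q₂, hq₂⟩ := h₂.nonempty
  have hcl1 : closure D₁ = D₁ ∪ C₁ := by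
    rw [← h₁.frontier_eq, closure_eq_self_union_frontier]
  have hcl2 : closure D₂ = D₂ ∪ C₂ := by
    rw [← h₂.frontier_eq, closure_eq_self_union_frontier]
  have d12 : Disjoint D₁ (closure D₂) := hD.closure_right h₁.isOpen
  have d21 : Disjoint (closure D₁) D₂ := hD.closure_left h₂.isOpen
  have hdis : Disjoint (closure D₁) (closure D₂) := by
    rw [Set.disjoint_left]
    intro x hx1 hx2
    rw [hcl1] at hx1
    rcases hx1 with hx1 | hx1
    · exact Set.disjoint_left.1 d12 hx1 hx2
    · rw [hcl2] at hx2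
      rcases hx2 with hx2 | hx2
      · exact Set.disjoint_left.1 d21 (by rw [hcl1]; exact Or.inr hx1) hx2
      · exact Set.disjoint_left.1 hC hx1 hx2
  have hK1 : IsCompact (closure D₁) := h₁.isBounded.isCompact_closure
  have hK2 : IsCompact (closure D₂) := h₂.isBounded.isCompact_closure
  obtain ⟨f, u, v, hfu, huv, hfv⟩ := geometric_hahn_banach_compact_closed
    (h₁.convex.closure) hK1 (h₂.convex.closure) isClosed_closure hdis
  set A : ℝ := f (EuclideanSpace.single 0 1) with hA
  set B : ℝ := f (EuclideanSpace.single 1 1) with hB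
  have hf : ∀ x : E2, f x = A * x 0 + B * x 1 := by
    intro x
    have : x = x 0 • EuclideanSpace.single 0 (1:ℝ) + x 1 • EuclideanSpace.single 1 (1:ℝ) := by
      ext i
      fin_cases i <;> simp
    conv_lhs => rw [this]
    rw [map_add, map_smul, map_smul]
    simp only [smul_eq_mul, ← hA, ← hB]
    ring
  have hAB : 0 < A ^ 2 + B ^ 2 := by
    by_contra hcon
    have h0 : A ^ 2 + B ^ 2 = 0 := le_antisymm (not_lt.1 hcon) (by positivity)
    have hA0 : A = 0 := by nlinarith [sq_nonneg A, sq_nonneg B]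
    have hB0 : B = 0 := by nlinarith [sq_nonneg A, sq_nonneg B]
    have e1 := hfu q₁ (subset_closure hq₁)
    have e2 := hfv q₂ (subset_closure hq₂)
    rw [hf, hA0, hB0] at e1 e2
    linarith
  set N : ℝ := Real.sqrt (A ^ 2 + B ^ 2) with hN
  have hNpos : 0 < N := Real.sqrt_pos.2 hAB
  have hN2 : N ^ 2 = A ^ 2 + B ^ 2 := Real.sq_sqrt hAB.le
  have hL : ∀ x : E2, L1 (A / N) (B / N) (inclP x) = f x / N := by
    intro x
    rw [L1_incl, hf]
    field_simp
  have hab : (A / N) ^ 2 + (B / N) ^ 2 = 1 := by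
    rw [div_pow, div_pow, ← add_div, hN2]
    exact div_self hAB.ne'
  have s1 : ∀ x ∈ closure D₁, L1 (A / N) (B / N) (inclP x) - (u + v) / (2 * N) ≤ -((v - u) / (2 * N)) := by
    intro x hx
    rw [hL]
    have := hfu x hx
    have e : f x / N - (u + v) / (2 * N) + (v - u) / (2 * N) = (f x - u) / N := by
      field_simp; ring
    have e2 : (f x - u) / N ≤ 0 := div_nonpos_of_nonpos_of_nonneg (by linarith) hNpos.le
    linarith
  have s2 : ∀ x ∈ closure D₂, (v - u) / (2 * N) ≤ L1 (A / N) (B / N) (inclP x) - (u + v) / (2 * N) := by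
    intro x hx
    rw [hL]
    have := hfv x hx
    have e : f x / N - (u + v) / (2 * N) - (v - u) / (2 * N) = (f x - v) / N := by
      field_simp; ring
    have e2 : 0 ≤ (f x - v) / N := div_nonneg (by linarith) hNpos.le
    linarith
  have hδ : 0 < (v - u) / (2 * N) := div_pos (by linarith) (by linarith)
  set α := A / N
  set β := B / N
  set c := (u + v) / (2 * N)
  set δ := (v - u) / (2 * N)
  have hC1 : C₁ ⊆ closure D₁ := by rw [hcl1]; exact subset_union_right
  have hC2 : C₂ ⊆ closure D₂ := by rw [hcl2]; exact subset_union_right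
  have hK : IsCompact (closure D₁ ∪ closure D₂) := hK1.union hK2
  have hincl : Continuous inclP := by
    exact inclL.continuous
  obtain ⟨R1, hR1⟩ := hK.exists_bound_of_continuousOn
    (f := fun x : E2 => L1 α β (inclP x) - c) (by
      apply Continuous.continuousOn
      exact ((L1 α β).continuous.comp hincl).sub continuous_const)
  obtain ⟨R2, hR2⟩ := hK.exists_bound_of_continuousOn
    (f := fun x : E2 => L2 α β (inclP x)) (by
      apply Continuous.continuousOn
      exact ((L2 α β).continuous.comp hincl))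
  have hg1 : ∀ t, γ₁ t ∈ closure D₁ := fun t => hC1 (hγ₁.2.2.2.2 ▸ ⟨t, rfl⟩)
  have hg2 : ∀ t, γ₂ t ∈ closure D₂ := fun t => hC2 (hγ₂.2.2.2.2 ▸ ⟨t, rfl⟩)
  obtain ⟨a₁, ha₁⟩ : ∃ a : ℝ, ∫ t in (0:ℝ)..1, (L1 α β (inclP (γ₁ t)) - c) *
      ⟪vv α β, deriv (fun t => inclP (γ₁ t)) t⟫_ℝ = a := ⟨_, rfl⟩
  obtain ⟨a₂, ha₂⟩ : ∃ a : ℝ, ∫ t in (0:ℝ)..1, (L1 α β (inclP (γ₂ t)) - c) *
      ⟪vv α β, deriv (fun t => inclP (γ₂ t)) t⟫_ℝ = a := ⟨_, rfl⟩
  obtain ⟨b₁, hb₁⟩ : ∃ b : ℝ, ∫ t in (0:ℝ)..1, (-((L1 α β (inclP (γ₁ t)) - c) ^ 2 +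
      (inclP (γ₁ t) 2) ^ 2) / 2) * ⟪vv α β, deriv (fun t => inclP (γ₁ t)) t⟫_ℝ = b := ⟨_, rfl⟩
  obtain ⟨b₂, hb₂⟩ : ∃ b : ℝ, ∫ t in (0:ℝ)..1, (-((L1 α β (inclP (γ₂ t)) - c) ^ 2 +
      (inclP (γ₂ t) 2) ^ 2) / 2) * ⟪vv α β, deriv (fun t => inclP (γ₂ t)) t⟫_ℝ = b := ⟨_, rfl⟩
  have S1 := curve_signs h₁.isOpen h₁.convex γ₁ hγ₁.1 hγ₁.2.1 hγ₁.2.2.1
    (by rw [hγ₁.2.2.2.2, h₁.frontier_eq]) hq₁ α β c hab _ _ ha₁ hb₁
  have S2 := curve_signs h₂.isOpen h₂.convex γ₂ hγ₂.1 hγ₂.2.1 hγ₂.2.2.1
    (by rw [hγ₂.2.2.2.2, h₂.frontier_eq]) hq₂ α β c hab _ _ ha₂ hb₂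
  refine ⟨α, β, c, δ, max R1 R2, a₁, a₂, b₁, b₂, fun Λ hΛ => ?_, ?_, ?_⟩
  rotate_left
  · have := s1 _ (hg1 0); linarith
  · have := s2 _ (hg2 0); linarith
  exact 
    { unit := hab
      hδ := hδ
      hR := by
        have := hR1 q₁ (Or.inl (subset_closure hq₁))
        exact le_trans (norm_nonneg _) (this.trans (le_max_left _ _))
      hΛ := hΛ
      x3 := by
        rintro _ ⟨x, _, rfl⟩
        simp [inclP]
      x1 := by
        rintro _ ⟨x, hx, rfl⟩
        have := hR1 x (hx.imp (fun h => hC1 h) (fun h => hC2 h))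
        rw [Real.norm_eq_abs] at this
        exact this.trans (le_max_left _ _)
      x2 := by
        rintro _ ⟨x, hx, rfl⟩
        have := hR2 x (hx.imp (fun h => hC1 h) (fun h => hC2 h))
        rw [Real.norm_eq_abs] at this
        exact this.trans (le_max_right _ _)
      gap := by
        rintro _ ⟨x, hx, rfl⟩
        rcases hx with hx | hx
        · have := s1 x (hC1 hx)
          rw [abs_of_nonpos (by linarith)]
          linarith
        · have := s2 x (hC2 hx)
          rw [abs_of_nonneg (by linarith)]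
          linarith
      ha₁ := ha₁
      ha₂ := ha₂
      hb₁ := hb₁
      hb₂ := hb₂
      sign₁ := S1.1 (fun t => by have := s1 _ (hg1 t); linarith)
        (by have := s1 _ (subset_closure hq₁); linarith)
      sign₂ := S2.2 (fun t => by have := s2 _ (hg2 t); linarith)
        (by have := s2 _ (subset_closure hq₂); linarith) }

end Pool.Agent.Helper608

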