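import Pool.Agent.Helper608.Inst
import Pool.Agent.Helper608.Plane

open Set MeasureTheory Filter Topology
open scoped Manifold ContDiff InnerProductSpace

set_option linter.unusedSectionVars false

namespace Pool.Agent.Helper608

lemma inclP_injective : Function.Injective inclP := by
  intro x y h
  ext i
  have h0 := congrArg (fun v : E3 => v 0) h
  have h1 := congrArg (fun v : E3 => v 1) h
  simp [inclP] at h0 h1
  fin_cases i
  · exact h0
  · exact h1

variable {M : Type*} [TopologicalSpace M] [ChartedSpace (EuclideanHalfSpace 2) M]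
  [IsManifold (𝓡∂ 2) ∞ M] [CompactSpace M] [T2Space M]
  {f N : M → E3} {H : ℝ}

/-- Lifting of a curve in the boundary image to the boundary of the surface. -/
lemma exists_bdCurve {C : Set E2} (h : IsCMCImmersion f N H)
    (hinj : InjOn f ((𝓡∂ 2).boundary M)) (hbd : f '' ((𝓡∂ 2).boundary M) = inclP '' C)
    {γ : ℝ → E2} (hγ : ContDiff ℝ ∞ γ) (hd : ∀ t, deriv γ t ≠ 0) (hr : ∀ t, γ t ∈ C) :
    ∃ β : ℝ → M, BdCurve f (fun t => inclP (γ t)) β := by
  have hex : ∀ t, ∃ m ∈ (𝓡∂ 2).boundary M, f m = inclP (γ t) := by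
    intro t
    have h1 : inclP (γ t) ∈ f '' ((𝓡∂ 2).boundary M) := by
      rw [hbd]; exact ⟨_, hr t, rfl⟩
    obtain ⟨m, hm, hm'⟩ := h1
    exact ⟨m, hm, hm'⟩
  choose β hβm hβf using hex
  refine ⟨β, ?_, ?_, ?_, hβm, hβf⟩
  · exact inclL.contDiff.comp hγ
  · intro t h0
    rw [deriv_incl γ (hγ.differentiable (by simp)) t] at h0
    have h1 : inclP (deriv γ t) = inclP 0 := by
      rw [h0, ← inclL_apply, map_zero]
    exact hd t (inclP_injective h1)
  · have hcl : IsClosed ((𝓡∂ 2).boundary M) :=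
      ModelWithCorners.isClosed_boundary (I := 𝓡∂ 2) (M := M) (n := ∞) (by simp)
    have : CompactSpace ((𝓡∂ 2).boundary M) := isCompact_iff_compactSpace.mp hcl.isCompact
    have hg : Topology.IsClosedEmbedding (fun b : (𝓡∂ 2).boundary M => f b) :=
      Continuous.isClosedEmbedding (h.smooth_map.continuous.comp continuous_subtype_val)
        (fun a b hab => Subtype.ext (hinj a.2 b.2 hab))
    have hc : Continuous (fun t => (⟨β t, hβm t⟩ : (𝓡∂ 2).boundary M)) := by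
      rw [hg.isInducing.continuous_iff]
      have h2 : (fun b : (𝓡∂ 2).boundary M => f b) ∘
          (fun t => (⟨β t, hβm t⟩ : (𝓡∂ 2).boundary M)) = fun t => inclP (γ t) := by
        funext t; exact hβf t
      rw [h2]
      exact inclL.continuous.comp hγ.continuous
    exact continuous_subtype_val.comp hc

/-- The set of parameters at which one boundary curve meets another is open. -/
lemma isOpen_meet {γ₁ γ₂ : ℝ → E3} {β₁ β₂ : ℝ → M} (h : IsCMCImmersion f N H)
    (hinj : InjOn f ((𝓡∂ 2).boundary M)) (C₁ : BdCurve f γ₁ β₁) (C₂ : BdCurve f γ₂ β₂) :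
    IsOpen {t | γ₂ t ∈ range γ₁} := by
  rw [isOpen_iff_mem_nhds]
  rintro t ⟨s, hs⟩
  have hb : β₁ s = β₂ t := hinj (C₁.mem s) (C₂.mem t) (by rw [C₁.lift, C₂.lift, hs])
  set φ := chartAt (EuclideanHalfSpace 2) (β₁ s) with hφd
  have hφ : φ ∈ atlas (EuclideanHalfSpace 2) M := chart_mem_atlas _ _
  have h1 : β₁ s ∈ φ.source := mem_chart_source _ _
  have h2 : β₂ t ∈ φ.source := by rw [← hb]; exact h1
  obtain ⟨s', hs'0, hs'd, -⟩ := C₁.pos_deriv h hφ h1
  have hmap := hs'd.map_nhds_eq hs'0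
  have hpe : pos φ β₁ s = pos φ β₂ t := by unfold pos; rw [hb]
  have h3 : pos φ β₁ '' {y | β₁ y ∈ φ.source} ∈ 𝓝 (pos φ β₁ s) := by
    rw [← hmap]
    exact image_mem_map (C₁.ev_source h1)
  rw [hpe] at h3
  filter_upwards [C₂.ev_source h2, (C₂.continuousAt_pos h2).eventually h3] with y hy1 hy2
  obtain ⟨x, hx1, hx2⟩ := hy2
  refine ⟨x, ?_⟩
  rw [← C₁.cc_pos hφ hx1, ← C₂.cc_pos hφ hy1, hx2]

lemma curve_frontier_false {C₁ C₂ D₁ D₂ : Set E2} (f₁ : frontier D₁ = C₁)
    (f₂ : frontier D₂ = C₂) (o₁ : IsOpen D₁) (o₂ : IsOpen D₂) (c₁ : Convex ℝ D₁)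
    (c₂ : Convex ℝ D₂) (n₁ : D₁.Nonempty) (n₂ : D₂.Nonempty)
    (b₂ : Bornology.IsBounded D₂) (hD : Disjoint D₁ D₂) (hsub : C₂ ⊆ C₁) : False := by
  obtain ⟨l, u, hl₁, hl₂⟩ := geometric_hahn_banach_open_open c₁ o₁ c₂ o₂ hD
  obtain ⟨q₁, hq₁⟩ := n₁
  obtain ⟨q₂, hq₂⟩ := n₂
  have hle : ∀ x ∈ closure D₁, l x ≤ u := by
    intro x hx
    exact (closure_minimal (fun y hy => (hl₁ y hy).le)
      (isClosed_le l.continuous continuous_const)) hx
  have hK : IsCompact (closure D₂) := b₂.isCompact_closure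
  obtain ⟨x, hx, hmax⟩ := hK.exists_isMaxOn ⟨q₂, subset_closure hq₂⟩ l.continuous.continuousOn
  have hmax' : ∀ y ∈ closure D₂, l y ≤ l x := hmax
  have hxq : u < l x := (hl₂ q₂ hq₂).trans_le (hmax' q₂ (subset_closure hq₂))
  by_cases hxD : x ∈ D₂
  · have hcont : Continuous (fun t : ℝ => x + t • (x - q₁)) := by fun_prop
    have h0 : (fun t : ℝ => x + t • (x - q₁)) 0 ∈ D₂ := by simpa using hxD
    have hev : ∀ᶠ t in 𝓝 (0:ℝ), x + t • (x - q₁) ∈ D₂ :=
      hcont.continuousAt.eventually (o₂.mem_nhds h0)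
    have hev' : ∀ᶠ t in 𝓝[>] (0:ℝ), x + t • (x - q₁) ∈ D₂ := hev.filter_mono nhdsWithin_le_nhds
    obtain ⟨t, ht1, ht2⟩ := (hev'.and self_mem_nhdsWithin).exists
    have h1 := hmax' _ (subset_closure ht1)
    have h2 : (0:ℝ) < t := ht2
    rw [map_add, map_smul, map_sub, smul_eq_mul] at h1
    have h3 : 0 < t * (l x - l q₁) := mul_pos h2 (by linarith [hl₁ q₁ hq₁])
    linarith
  · have hf : x ∈ frontier D₂ := by
      rw [o₂.frontier_eq]; exact ⟨hx, hxD⟩
    have h1 : x ∈ frontier D₁ := by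
      rw [f₁]; apply hsub; rw [← f₂]; exact hf
    exact absurd (hle x (frontier_subset_closure h1)) (not_le.mpr hxq)

end Pool.Agent.Helper608
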