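import Pool.Agent.Helper608.Bdry3

open Set MeasureTheory Filter Topology
open scoped Manifold ContDiff InnerProductSpace

set_option linter.unusedSectionVars false

namespace Pool.Agent.Helper608

/-- forget the third coordinate -/
noncomputable def dropL : E3 →L[ℝ] E2 :=
  LinearMap.toContinuousLinearMap
    { toFun := fun x => !₂[x 0, x 1]
      map_add' := by
        intro x y
        ext i
        fin_cases i <;> simp
      map_smul' := by
        intro r x
        ext i
        fin_cases i <;> simp }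

lemma dropL_apply (x : E3) : dropL x = !₂[x 0, x 1] := rfl

lemma dropL_inclP (x : E2) : dropL (inclP x) = x := by
  rw [dropL_apply]
  ext i
  fin_cases i <;> simp [inclP]

variable {M : Type*} [TopologicalSpace M] [ChartedSpace (EuclideanHalfSpace 2) M]
  [IsManifold (𝓡∂ 2) ∞ M] [CompactSpace M] [T2Space M]
  {f N : M → E3} {H : ℝ}

/-- The boundary curves are locally traced by smooth regular curves. -/
lemma local_trace {C : Set E2} (h : IsCMCImmersion f N H)
    (hinj : InjOn f ((𝓡∂ 2).boundary M)) (hbd : f '' ((𝓡∂ 2).boundary M) = inclP '' C)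
    {F : Set E2} (hFC : F ⊆ C) :
    ∀ x ∈ F, ∃ (c : ℝ → E2) (p : E2 → ℝ), ContDiffAt ℝ ∞ c (p x) ∧
      deriv c (p x) ≠ 0 ∧ ContinuousWithinAt p F x ∧ ∀ᶠ y in 𝓝[F] x, c (p y) = y := by
  classical
  have hex : ∀ y : C, ∃ m ∈ (𝓡∂ 2).boundary M, f m = inclP y := by
    intro y
    have h1 : inclP y ∈ f '' ((𝓡∂ 2).boundary M) := by
      rw [hbd]; exact ⟨_, y.2, rfl⟩
    obtain ⟨m, hm, hm'⟩ := h1
    exact ⟨m, hm, hm'⟩
  choose g hgm hgf using hex
  have hgc : Continuous g := by
    have hcl : IsClosed ((𝓡∂ 2).boundary M) :=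
      ModelWithCorners.isClosed_boundary (I := 𝓡∂ 2) (M := M) (n := ∞) (by simp)
    have : CompactSpace ((𝓡∂ 2).boundary M) := isCompact_iff_compactSpace.mp hcl.isCompact
    have hg : Topology.IsClosedEmbedding (fun b : (𝓡∂ 2).boundary M => f b) :=
      Continuous.isClosedEmbedding (h.smooth_map.continuous.comp continuous_subtype_val)
        (fun a b hab => Subtype.ext (hinj a.2 b.2 hab))
    have hc : Continuous (fun t => (⟨g t, hgm t⟩ : (𝓡∂ 2).boundary M)) := by
      rw [hg.isInducing.continuous_iff]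
      have h2 : (fun b : (𝓡∂ 2).boundary M => f b) ∘
          (fun t => (⟨g t, hgm t⟩ : (𝓡∂ 2).boundary M)) = fun t : C => inclP t := by
        funext t; exact hgf t
      rw [h2]
      exact inclL.continuous.comp continuous_subtype_val
    exact continuous_subtype_val.comp hc
  intro x hx
  have hxC : x ∈ C := hFC hx
  set φ := chartAt (EuclideanHalfSpace 2) (g ⟨x, hxC⟩) with hφd
  have hφ : φ ∈ atlas (EuclideanHalfSpace 2) M := chart_mem_atlas _ _
  have h1 : g ⟨x, hxC⟩ ∈ φ.source := mem_chart_source _ _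
  -- position
  set p : E2 → ℝ := fun y => if hy : y ∈ C then (φ.extend (𝓡∂ 2) (g ⟨y, hy⟩)) 1 else 0 with hp
  have hpC : ∀ y (hy : y ∈ C), p y = (φ.extend (𝓡∂ 2) (g ⟨y, hy⟩)) 1 := fun y hy => dif_pos hy
  have hext : ∀ y (hy : y ∈ C), g ⟨y, hy⟩ ∈ φ.source →
      φ.extend (𝓡∂ 2) (g ⟨y, hy⟩) = eqv (0, p y) := by
    intro y hy hs
    apply ext2
    · rw [eqv_zero']
      exact (mem_boundary_iff hφ hs).mp (hgm ⟨y, hy⟩)
    · rw [hpC y hy]; rfl
  have hbs : p x ∈ bdset φ := by
    unfold bdset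
    rw [mem_ofPred_eq, ← hext x hxC h1]
    exact ext_mem h1
  have hcc : ∀ y (hy : y ∈ C), g ⟨y, hy⟩ ∈ φ.source → cc φ f (p y) = inclP y := by
    intro y hy hs
    unfold cc
    rw [← hext y hy hs, inv_ext hs, hgf]
  have hcd := hasDerivAt_cc hφ h.f1 hbs
  refine ⟨fun s => dropL (cc φ f s), p, ?_, ?_, ?_, ?_⟩
  · exact dropL.contDiff.contDiffAt.comp _ (contDiffAt_cc hφ h.smooth_map hbs)
  · have hd : HasDerivAt (fun s => dropL (cc φ f s)) (dropL (cd φ f (eqv (0, p x)) e1)) (p x) :=
      dropL.hasFDerivAt.comp_hasDerivAt _ hcd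
    rw [hd.deriv]
    intro h0
    -- the third coordinate vanishes as well
    have hz : cd φ f (eqv (0, p x)) e1 2 = 0 := by
      have h2 : HasDerivAt (fun s => (cc φ f s) 2) (cd φ f (eqv (0, p x)) e1 2) (p x) :=
        (pr 2).hasFDerivAt.comp_hasDerivAt _ hcd
      have h3 : (fun s => (cc φ f s) 2) =ᶠ[𝓝 (p x)] fun _ => (0:ℝ) := by
        filter_upwards [isOpen_bdset.mem_nhds hbs] with s hs
        have hz : eqv ((0:ℝ), s) ∈ tgt φ := hs
        have hm : inv φ (eqv (0, s)) ∈ (𝓡∂ 2).boundary M := by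
          rw [mem_boundary_iff hφ (inv_mem hz), ext_inv hz]; simp
        have h4 : cc φ f s ∈ inclP '' C := by
          rw [← hbd]; exact ⟨_, hm, rfl⟩
        obtain ⟨y, -, hy⟩ := h4
        rw [← hy]; simp [inclP]
      exact h2.unique ((hasDerivAt_const (p x) (0:ℝ)).congr_of_eventuallyEq h3)
    have h5 : cd φ f (eqv (0, p x)) e1 = 0 := by
      rw [dropL_apply] at h0
      have a0 := congrArg (fun v : E2 => v 0) h0
      have a1 := congrArg (fun v : E2 => v 1) h0
      simp at a0 a1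
      ext i
      fin_cases i
      · exact a0
      · exact a1
      · exact hz
    have h6 := (h.cd_inj hφ hbs).1
    have h7 : cd φ f (eqv (0, p x)) e1 = cd φ f (eqv (0, p x)) 0 := by
      rw [map_zero]; exact h5
    have h8 := congrArg (fun v : E2 => v 1) (h6 h7)
    simp at h8
  · -- continuity of `p` within `C`
    have h2 : ContinuousAt (fun y : C => (φ.extend (𝓡∂ 2) (g y)) 1) ⟨x, hxC⟩ := by
      have h3 : ContinuousAt (φ.extend (𝓡∂ 2)) (g ⟨x, hxC⟩) := φ.continuousAt_extend h1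
      exact (continuous_coord2 1).continuousAt.comp
        (ContinuousAt.comp (g := φ.extend (𝓡∂ 2)) h3 hgc.continuousAt)
    have h3 : ContinuousWithinAt p C x := by
      rw [continuousWithinAt_iff_continuousAt_domRestrict p hxC]
      have : C.domRestrict p = fun y : C => (φ.extend (𝓡∂ 2) (g y)) 1 := by
        funext y
        rw [Set.domRestrict_apply, hpC y y.2]
      rw [this]
      exact h2
    exact h3.mono hFC
  · have h2 : ∀ᶠ y : C in 𝓝 ⟨x, hxC⟩, g y ∈ φ.source :=
      hgc.continuousAt.preimage_mem_nhds (φ.open_source.mem_nhds h1)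
    have h3 : ∀ᶠ y in 𝓝[C] x, ∃ hy : y ∈ C, g ⟨y, hy⟩ ∈ φ.source := by
      rw [nhdsWithin_eq_map_subtype_coe hxC, eventually_map]
      filter_upwards [h2] with y hy
      exact ⟨y.2, hy⟩
    have h4 : ∀ᶠ y in 𝓝[F] x, ∃ hy : y ∈ C, g ⟨y, hy⟩ ∈ φ.source :=
      h3.filter_mono (nhdsWithin_mono _ hFC)
    filter_upwards [h4] with y hy
    obtain ⟨hyC, hys⟩ := hy
    rw [hcc y hyC hys, dropL_inclP]

end Pool.Agent.Helper608
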