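import Pool.Agent.Helper608.Defs

open Set MeasureTheory
open scoped Manifold ContDiff InnerProductSpace

namespace Pool.Agent.Helper608

/-- cross product in coordinates -/
def cross (a b : E3) : E3 :=
  !₂[a 1 * b 2 - a 2 * b 1, a 2 * b 0 - a 0 * b 2, a 0 * b 1 - a 1 * b 0]

@[simp] lemma cross_zero_coord (a b : E3) : cross a b 0 = a 1 * b 2 - a 2 * b 1 := rfl
@[simp] lemma cross_one_coord (a b : E3) : cross a b 1 = a 2 * b 0 - a 0 * b 2 := rfl
@[simp] lemma cross_two_coord (a b : E3) : cross a b 2 = a 0 * b 1 - a 1 * b 0 := rfl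

lemma inner3 (a b : E3) : ⟪a, b⟫_ℝ = a 0 * b 0 + a 1 * b 1 + a 2 * b 2 := by
  simp [PiLp.inner_apply, Fin.sum_univ_three, mul_comm]

lemma normsq3 (a : E3) : ‖a‖ ^ 2 = a 0 ^ 2 + a 1 ^ 2 + a 2 ^ 2 := by
  rw [← real_inner_self_eq_norm_sq, inner3]; ring

lemma ext3 {a b : E3} (h0 : a 0 = b 0) (h1 : a 1 = b 1) (h2 : a 2 = b 2) : a = b := by
  ext i; fin_cases i <;> assumption

lemma cross_add_left (a b c : E3) : cross (a + b) c = cross a c + cross b c := by
  apply ext3 <;> simp <;> ring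
lemma cross_add_right (a b c : E3) : cross a (b + c) = cross a b + cross a c := by
  apply ext3 <;> simp <;> ring
lemma cross_smul_left (r : ℝ) (a b : E3) : cross (r • a) b = r • cross a b := by
  apply ext3 <;> simp <;> ring
lemma cross_smul_right (r : ℝ) (a b : E3) : cross a (r • b) = r • cross a b := by
  apply ext3 <;> simp <;> ring
lemma cross_self (a : E3) : cross a a = 0 := by
  apply ext3 <;> simp <;> ring
lemma cross_neg_left (a b : E3) : cross (-a) b = - cross a b := by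
  apply ext3 <;> simp <;> ring
lemma inner_cross_self_left (a b : E3) : ⟪a, cross a b⟫_ℝ = 0 := by
  rw [inner3]; simp; ring
lemma inner_cross_self_right (a b : E3) : ⟪b, cross a b⟫_ℝ = 0 := by
  rw [inner3]; simp; ring

/-- Lagrange identity -/
lemma normsq_cross (a b : E3) : ‖cross a b‖ ^ 2 = ‖a‖ ^ 2 * ‖b‖ ^ 2 - ⟪a, b⟫_ℝ ^ 2 := by
  rw [normsq3, normsq3, normsq3, inner3]; simp; ring

end Pool.Agent.Helper608
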