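import Pool.Agent.Helper608.Half
import Pool.Agent.Helper608.Cross

open Set MeasureTheory Filter Topology
open scoped Manifold ContDiff InnerProductSpace

set_option linter.unusedSectionVars false

namespace Pool.Agent.Helper608

variable {M : Type*} [TopologicalSpace M] [ChartedSpace (EuclideanHalfSpace 2) M]
  [IsManifold (𝓡∂ 2) ∞ M]
  {F : Type*} [NormedAddCommGroup F] [NormedSpace ℝ F]
  {φ : OpenPartialHomeomorph M (EuclideanHalfSpace 2)}

/-- the inverse of the chart `φ`, as a map from the plane -/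
noncomputable def inv (φ : OpenPartialHomeomorph M (EuclideanHalfSpace 2)) : E2 → M :=
  (φ.extend (𝓡∂ 2)).symm

/-- target of the extended chart -/
def tgt (φ : OpenPartialHomeomorph M (EuclideanHalfSpace 2)) : Set E2 :=
  (φ.extend (𝓡∂ 2)).target

/-- derivative of a map read in the chart `φ` -/
noncomputable def cd (φ : OpenPartialHomeomorph M (EuclideanHalfSpace 2)) (a : M → F) (z : E2) :
    E2 →L[ℝ] F :=
  fderivWithin ℝ (a ∘ inv φ) HP z

lemma tgt_subset : tgt φ ⊆ HP := by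
  rw [← range_I]; exact φ.extend_target_subset_range

lemma inv_mem {z : E2} (hz : z ∈ tgt φ) : inv φ z ∈ φ.source := by
  have := (φ.extend (𝓡∂ 2)).map_target hz
  rwa [φ.extend_source] at this

lemma ext_inv {z : E2} (hz : z ∈ tgt φ) : φ.extend (𝓡∂ 2) (inv φ z) = z :=
  (φ.extend (𝓡∂ 2)).right_inv hz

lemma inv_ext {m : M} (hm : m ∈ φ.source) : inv φ (φ.extend (𝓡∂ 2) m) = m :=
  φ.extend_left_inv hm

lemma ext_mem {m : M} (hm : m ∈ φ.source) : φ.extend (𝓡∂ 2) m ∈ tgt φ :=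
  (φ.extend (𝓡∂ 2)).map_source (by rwa [φ.extend_source])

lemma tgt_mem_nhdsWithin {z : E2} (hz : z ∈ tgt φ) : tgt φ ∈ 𝓝[HP] z := by
  have := φ.extend_target_mem_nhdsWithin (I := 𝓡∂ 2) (inv_mem hz)
  rw [ext_inv hz, range_I] at this
  exact this

lemma nhdsWithin_tgt {z : E2} (hz : z ∈ tgt φ) : 𝓝[tgt φ] z = 𝓝[HP] z :=
  le_antisymm (nhdsWithin_mono _ tgt_subset) (nhdsWithin_le_of_mem (tgt_mem_nhdsWithin hz))

lemma HP_mem_nhds {z : E2} (hz : 0 < z 0) : HP ∈ 𝓝 z := by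
  have : {z : E2 | 0 < z 0} ∈ 𝓝 z := (isOpen_lt continuous_const (continuous_coord2 0)).mem_nhds hz
  exact mem_of_superset this fun w hw => (le_of_lt hw : (0:ℝ) ≤ w 0)

lemma tgt_mem_nhds {z : E2} (hz : z ∈ tgt φ) (h0 : 0 < z 0) : tgt φ ∈ 𝓝 z := by
  have := tgt_mem_nhdsWithin hz
  rwa [nhdsWithin_eq_nhds.mpr (HP_mem_nhds h0)] at this

lemma uniqueDiffOn_HP : UniqueDiffOn ℝ HP := by
  rw [← range_I]; exact (𝓡∂ 2).uniqueDiffOn

lemma uniqueDiffOn_tgt : UniqueDiffOn ℝ (tgt φ) := by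
  intro z hz
  exact (uniqueDiffOn_HP z (tgt_subset hz)).mono_nhds (nhdsWithin_tgt hz).ge

lemma continuousAt_inv {z : E2} (hz : z ∈ tgt φ) : ContinuousAt (inv φ) z :=
  φ.continuousAt_extend_symm' hz

lemma continuousOn_inv : ContinuousOn (inv φ) (tgt φ) := φ.continuousOn_extend_symm

lemma continuousOn_ext : ContinuousOn (φ.extend (𝓡∂ 2)) φ.source := by
  have := φ.continuousOn_extend (I := 𝓡∂ 2)
  rwa [φ.extend_source] at this

lemma measurableSet_tgt : MeasurableSet (tgt φ) := by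
  unfold tgt
  rw [φ.extend_target]
  refine MeasurableSet.inter ?_ ?_
  · exact (φ.open_target.preimage (𝓡∂ 2).continuous_symm).measurableSet
  · rw [range_I]; exact measurableSet_HP

lemma contMDiffOn_inv (hφ : φ ∈ atlas (EuclideanHalfSpace 2) M) :
    ContMDiffOn 𝓘(ℝ, E2) (𝓡∂ 2) ∞ (inv φ) (tgt φ) := by
  have := contMDiffOn_extend_symm (I := 𝓡∂ 2) (n := ∞) (IsManifold.subset_maximalAtlas hφ)
  rw [← φ.extend_target'] at this
  exact this

lemma contDiffOn_read (hφ : φ ∈ atlas (EuclideanHalfSpace 2) M) {a : M → F} {n : ℕ∞}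
    (ha : ContMDiff (𝓡∂ 2) 𝓘(ℝ, F) n a) : ContDiffOn ℝ n (a ∘ inv φ) (tgt φ) := by
  rw [← contMDiffOn_iff_contDiffOn]
  exact ha.comp_contMDiffOn ((contMDiffOn_inv hφ).of_le (by exact_mod_cast le_top))

lemma differentiableWithinAt_read (hφ : φ ∈ atlas (EuclideanHalfSpace 2) M) {a : M → F}
    (ha : ContMDiff (𝓡∂ 2) 𝓘(ℝ, F) 1 a) {z : E2} (hz : z ∈ tgt φ) :
    DifferentiableWithinAt ℝ (a ∘ inv φ) HP z := by
  have h1 : ContDiffOn ℝ 1 (a ∘ inv φ) (tgt φ) := contDiffOn_read (n := 1) hφ ha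
  have := (h1.differentiableOn (by norm_num)) z hz
  exact this.mono_of_mem_nhdsWithin (tgt_mem_nhdsWithin hz)

lemma hasFDerivWithinAt_cd (hφ : φ ∈ atlas (EuclideanHalfSpace 2) M) {a : M → F}
    (ha : ContMDiff (𝓡∂ 2) 𝓘(ℝ, F) 1 a) {z : E2} (hz : z ∈ tgt φ) :
    HasFDerivWithinAt (a ∘ inv φ) (cd φ a z) HP z :=
  (differentiableWithinAt_read hφ ha hz).hasFDerivWithinAt

lemma cd_eq_tgt {a : M → F} {z : E2} (hz : z ∈ tgt φ) :
    cd φ a z = fderivWithin ℝ (a ∘ inv φ) (tgt φ) z := by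
  unfold cd
  exact fderivWithin_congr_set' z (by
    have := (nhdsWithin_tgt hz)
    exact (nhdsWithin_eq_iff_eventuallyEq.1 this.symm).filter_mono nhdsWithin_le_nhds)

lemma continuousOn_cd (hφ : φ ∈ atlas (EuclideanHalfSpace 2) M) {a : M → F}
    (ha : ContMDiff (𝓡∂ 2) 𝓘(ℝ, F) 1 a) : ContinuousOn (cd φ a) (tgt φ) := by
  have h1 : ContDiffOn ℝ 1 (a ∘ inv φ) (tgt φ) := contDiffOn_read (n := 1) hφ ha
  have h2 := h1.continuousOn_fderivWithin uniqueDiffOn_tgt (by norm_num)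
  exact h2.congr fun z hz => cd_eq_tgt hz

/-- interior points: ordinary derivatives -/
lemma cd_eq_fderiv {a : M → F} {z : E2} (h0 : 0 < z 0) :
    cd φ a z = fderiv ℝ (a ∘ inv φ) z := by
  unfold cd
  exact fderivWithin_of_mem_nhds (HP_mem_nhds h0)

lemma hasFDerivAt_read (hφ : φ ∈ atlas (EuclideanHalfSpace 2) M) {a : M → F}
    (ha : ContMDiff (𝓡∂ 2) 𝓘(ℝ, F) 1 a) {z : E2} (hz : z ∈ tgt φ) (h0 : 0 < z 0) :
    HasFDerivAt (a ∘ inv φ) (cd φ a z) z :=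
  (hasFDerivWithinAt_cd hφ ha hz).hasFDerivAt (HP_mem_nhds h0)

lemma two_le_inf : (2 : WithTop ℕ∞) ≤ ∞ :=
  show ((2 : ℕ∞) : WithTop ℕ∞) ≤ ((⊤ : ℕ∞) : WithTop ℕ∞) from WithTop.coe_le_coe.mpr le_top

lemma hasFDerivAt_cd (hφ : φ ∈ atlas (EuclideanHalfSpace 2) M) {a : M → F}
    (ha : ContMDiff (𝓡∂ 2) 𝓘(ℝ, F) ∞ a) {z : E2} (hz : z ∈ tgt φ) (h0 : 0 < z 0) :
    ∃ B : E2 →L[ℝ] E2 →L[ℝ] F, HasFDerivAt (cd φ a) B z ∧ ∀ v w, B v w = B w v := by
  have h1 : ContDiffOn ℝ ∞ (a ∘ inv φ) (tgt φ) := contDiffOn_read (n := ⊤) hφ ha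
  have h2 : ContDiffAt ℝ ∞ (a ∘ inv φ) z := h1.contDiffAt (tgt_mem_nhds hz h0)
  have h3 : cd φ a =ᶠ[𝓝 z] fderiv ℝ (a ∘ inv φ) := by
    have : {z : E2 | 0 < z 0} ∈ 𝓝 z :=
      (isOpen_lt continuous_const (continuous_coord2 0)).mem_nhds h0
    filter_upwards [this] with w hw
    exact cd_eq_fderiv hw
  have h4 : DifferentiableAt ℝ (fderiv ℝ (a ∘ inv φ)) z :=
    (h2.fderiv_right (m := 1) (by norm_num; exact two_le_inf)).differentiableAt (by norm_num)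
  refine ⟨fderiv ℝ (fderiv ℝ (a ∘ inv φ)) z, h4.hasFDerivAt.congr_of_eventuallyEq h3, ?_⟩
  have h5 : IsSymmSndFDerivAt ℝ (a ∘ inv φ) z := h2.isSymmSndFDerivAt (by simp; exact two_le_inf)
  intro v w
  exact h5 v w

end Pool.Agent.Helper608
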