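import Pool.Agent.Helper608.Chart1

open Set MeasureTheory Filter Topology
open scoped Manifold ContDiff InnerProductSpace

set_option linter.unusedSectionVars false

namespace Pool.Agent.Helper608

variable {M : Type*} [TopologicalSpace M] [ChartedSpace (EuclideanHalfSpace 2) M]
  [IsManifold (𝓡∂ 2) ∞ M]
  {φ : OpenPartialHomeomorph M (EuclideanHalfSpace 2)}

lemma dmap_eq {a : M → E3} (ha : ContMDiff (𝓡∂ 2) 𝓘(ℝ, E3) 1 a) (m : M) :
    (dmap a m : E2 →L[ℝ] E3) =
      cd (chartAt (EuclideanHalfSpace 2) m) a (extChartAt (𝓡∂ 2) m m) := by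
  have h1 : MDifferentiableAt (𝓡∂ 2) 𝓘(ℝ, E3) a m := (ha m).mdifferentiableAt (by norm_num)
  unfold dmap mfderiv
  rw [if_pos h1, range_I]
  rfl

/-- The derivative of a map read in a chart, in terms of its intrinsic differential. -/
lemma exists_transition (hφ : φ ∈ atlas (EuclideanHalfSpace 2) M) {z : E2} (hz : z ∈ tgt φ) :
    ∃ A : E2 →L[ℝ] E2, Function.Injective A ∧
      (∀ a : M → E3, ContMDiff (𝓡∂ 2) 𝓘(ℝ, E3) 1 a →
        ∀ v : E2, cd φ a z v = dmap a (inv φ z) (A v)) ∧
      ((extChartAt (𝓡∂ 2) (inv φ z) (inv φ z)) 0 = 0 → z 0 = 0 → (A e1) 0 = 0 ∧ 0 < (A e0) 0) := by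
  set m := inv φ z with hm
  have hmφ : m ∈ φ.source := inv_mem hz
  set χ := chartAt (EuclideanHalfSpace 2) m with hχ
  have hχa : χ ∈ atlas (EuclideanHalfSpace 2) M := chart_mem_atlas _ m
  have hmχ : m ∈ χ.source := mem_chart_source _ m
  set w := extChartAt (𝓡∂ 2) m m with hw
  have hw' : w = χ.extend (𝓡∂ 2) m := rfl
  have hwt : w ∈ tgt χ := ext_mem hmχ
  have hinvw : inv χ w = m := inv_ext hmχ
  set T : E2 → E2 := fun y => χ.extend (𝓡∂ 2) (inv φ y) with hT
  set T' : E2 → E2 := fun y => φ.extend (𝓡∂ 2) (inv χ y) with hT'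
  have hTz : T z = w := rfl
  have hT'w : T' w = z := by
    simp only [hT']; rw [hinvw, hm]; exact ext_inv hz
  -- differentiability of the two transition maps
  have dT : DifferentiableWithinAt ℝ T HP z := by
    have h1 : ContMDiffAt (𝓡∂ 2) 𝓘(ℝ, E2) ∞ (χ.extend (𝓡∂ 2)) m :=
      χ.contMDiffAt_extend (IsManifold.subset_maximalAtlas hχa) hmχ
    have h2 : ContMDiffWithinAt 𝓘(ℝ, E2) (𝓡∂ 2) ∞ (inv φ) (tgt φ) z := contMDiffOn_inv hφ z hz
    have h3 : ContMDiffWithinAt 𝓘(ℝ, E2) 𝓘(ℝ, E2) ∞ T (tgt φ) z :=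
      ContMDiffAt.comp_contMDiffWithinAt (I' := 𝓡∂ 2) z h1 h2
    have h4 := contMDiffWithinAt_iff_contDiffWithinAt.mp h3
    exact (h4.differentiableWithinAt (by simp)).mono_of_mem_nhdsWithin
      (tgt_mem_nhdsWithin hz)
  have dT' : DifferentiableWithinAt ℝ T' HP w := by
    have h1 : ContMDiffAt (𝓡∂ 2) 𝓘(ℝ, E2) ∞ (φ.extend (𝓡∂ 2)) (inv χ w) := by
      rw [hinvw]
      exact φ.contMDiffAt_extend (IsManifold.subset_maximalAtlas hφ) hmφ
    have h2 : ContMDiffWithinAt 𝓘(ℝ, E2) (𝓡∂ 2) ∞ (inv χ) (tgt χ) w := contMDiffOn_inv hχa w hwt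
    have h3 : ContMDiffWithinAt 𝓘(ℝ, E2) 𝓘(ℝ, E2) ∞ T' (tgt χ) w :=
      ContMDiffAt.comp_contMDiffWithinAt (I' := 𝓡∂ 2) w h1 h2
    have h4 := contMDiffWithinAt_iff_contDiffWithinAt.mp h3
    exact (h4.differentiableWithinAt (by simp)).mono_of_mem_nhdsWithin
      (tgt_mem_nhdsWithin hwt)
  have mT : MapsTo T HP HP := by
    intro y _
    have : T y ∈ range (𝓡∂ 2) := by
      simp only [hT, OpenPartialHomeomorph.extend_coe, Function.comp_apply]
      exact mem_range_self _
    rwa [range_I] at this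
  -- eventually the base point stays in the source of `χ`
  have hev : ∀ᶠ y in 𝓝[HP] z, y ∈ tgt φ ∧ inv φ y ∈ χ.source := by
    have h1 : ∀ᶠ y in 𝓝[HP] z, y ∈ tgt φ := tgt_mem_nhdsWithin hz
    have h2 : ∀ᶠ y in 𝓝 z, inv φ y ∈ χ.source :=
      (continuousAt_inv hz).preimage_mem_nhds (χ.open_source.mem_nhds hmχ)
    exact h1.and (h2.filter_mono nhdsWithin_le_nhds)
  have hzHP : z ∈ HP := tgt_subset hz
  set A := fderivWithin ℝ T HP z with hA
  have hTA : HasFDerivWithinAt T A HP z := dT.hasFDerivWithinAt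
  refine ⟨A, ?_, ?_, ?_⟩
  · -- injectivity
    have h1 : HasFDerivWithinAt (T' ∘ T) ((fderivWithin ℝ T' HP w).comp A) HP z :=
      HasFDerivWithinAt.comp z (by rw [hTz]; exact dT'.hasFDerivWithinAt) hTA mT
    have h2 : T' ∘ T =ᶠ[𝓝[HP] z] id := by
      filter_upwards [hev] with y hy
      simp only [Function.comp_apply, hT, hT', id]
      rw [inv_ext hy.2, ext_inv hy.1]
    have h3 : HasFDerivWithinAt (T' ∘ T) (ContinuousLinearMap.id ℝ E2) HP z :=
      (hasFDerivWithinAt_id z HP).congr_of_eventuallyEq h2 (by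
        simp only [Function.comp_apply, id]; rw [hTz, hT'w])
    have h4 := (uniqueDiffOn_HP z hzHP).eq h1 h3
    intro v v' hvv
    have h5 := congrArg (fun L : E2 →L[ℝ] E2 => L v) h4
    have h6 := congrArg (fun L : E2 →L[ℝ] E2 => L v') h4
    simp only [ContinuousLinearMap.comp_apply, ContinuousLinearMap.id_apply] at h5 h6
    rw [← h5, ← h6, hvv]
  · intro a ha v
    have h1 : HasFDerivWithinAt (a ∘ inv χ) (cd χ a w) HP w := hasFDerivWithinAt_cd hχa ha hwt
    have h2 : HasFDerivWithinAt ((a ∘ inv χ) ∘ T) ((cd χ a w).comp A) HP z :=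
      HasFDerivWithinAt.comp z (by rw [hTz]; exact h1) hTA mT
    have h3 : (a ∘ inv χ) ∘ T =ᶠ[𝓝[HP] z] a ∘ inv φ := by
      filter_upwards [hev] with y hy
      simp only [Function.comp_apply, hT]
      rw [inv_ext hy.2]
    have h4 : HasFDerivWithinAt (a ∘ inv φ) ((cd χ a w).comp A) HP z :=
      h2.congr_of_eventuallyEq h3.symm (by
        simp only [Function.comp_apply, hT]; rw [inv_ext hmχ])
    have h5 := h4.fderivWithin (uniqueDiffOn_HP z hzHP)
    have h6 : cd φ a z = (cd χ a w).comp A := h5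
    rw [h6]
    have h7 := dmap_eq ha m
    rw [ContinuousLinearMap.comp_apply]
    exact (congrArg (fun L : E2 →L[ℝ] E3 => L (A v)) h7).symm
  · intro hw0 hz0
    have hpos : ∀ y : E2, 0 ≤ (T y) 0 := by
      intro y
      have : T y ∈ range (𝓡∂ 2) := by
        simp only [hT, OpenPartialHomeomorph.extend_coe, Function.comp_apply]
        exact mem_range_self _
      rwa [range_I] at this
    have hT0 : (T z) 0 = 0 := by rw [hTz]; exact hw0
    -- derivative along lines
    have hline : ∀ v : E2, ∀ s : Set ℝ, MapsTo (fun t : ℝ => z + t • v) s HP →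
        HasDerivWithinAt (fun t : ℝ => (T (z + t • v)) 0) ((A v) 0) s 0 := by
      intro v s hs
      have h1 : HasDerivWithinAt (fun t : ℝ => z + t • v) v s 0 := by
        have := ((hasDerivAt_id (0:ℝ)).smul_const v).const_add z
        simpa using this.hasDerivWithinAt
      have h2 : HasFDerivWithinAt T A HP ((fun t : ℝ => z + t • v) 0) := by
        simpa using hTA
      have h3 : HasDerivWithinAt (T ∘ (fun t : ℝ => z + t • v)) (A v) s 0 :=
        h2.comp_hasDerivWithinAt (0:ℝ) h1 hs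
      have h4 := ((EuclideanSpace.proj (0 : Fin 2) : E2 →L[ℝ] ℝ).hasFDerivAt
        (x := (T ∘ (fun t : ℝ => z + t • v)) 0)).comp_hasDerivWithinAt (0:ℝ) h3
      exact h4
    have hA1 : (A e1) 0 = 0 := by
      have h1 := hline e1 univ (by
        intro t _
        change 0 ≤ (z + t • e1) 0
        simp [hz0])
      rw [hasDerivWithinAt_univ] at h1
      have hmin : IsLocalMin (fun t : ℝ => (T (z + t • e1)) 0) 0 := by
        apply Filter.Eventually.of_forall
        intro t
        simp only [zero_smul, add_zero]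
        rw [hT0]; exact hpos _
      exact hmin.hasDerivAt_eq_zero h1
    have hA0 : 0 ≤ (A e0) 0 := by
      have h1 := hline e0 (Ici 0) (by
        intro t ht
        change 0 ≤ (z + t • e0) 0
        simp [hz0]
        exact ht)
      have h2 : Tendsto (slope (fun t : ℝ => (T (z + t • e0)) 0) 0) (𝓝[>] 0) (𝓝 ((A e0) 0)) := by
        have := hasDerivWithinAt_iff_tendsto_slope.mp h1
        have e : Ici (0:ℝ) \ {0} = Ioi 0 := by
          ext t; simp [lt_iff_le_and_ne, eq_comm]
        rwa [e] at this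
      refine ge_of_tendsto h2 ?_
      filter_upwards [self_mem_nhdsWithin] with t ht
      rw [slope_def_field]
      simp only [zero_smul, add_zero, sub_zero]
      rw [hT0, sub_zero]
      exact div_nonneg (hpos _) (le_of_lt ht)
    refine ⟨hA1, lt_of_le_of_ne hA0 ?_⟩
    intro h0
    -- then `A` is not injective
    have hinj : Function.Injective A := by
      have h1 : HasFDerivWithinAt (T' ∘ T) ((fderivWithin ℝ T' HP w).comp A) HP z :=
        HasFDerivWithinAt.comp z (by rw [hTz]; exact dT'.hasFDerivWithinAt) hTA mT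
      have h2 : T' ∘ T =ᶠ[𝓝[HP] z] id := by
        filter_upwards [hev] with y hy
        simp only [Function.comp_apply, hT, hT', id]
        rw [inv_ext hy.2, ext_inv hy.1]
      have h3 : HasFDerivWithinAt (T' ∘ T) (ContinuousLinearMap.id ℝ E2) HP z :=
        (hasFDerivWithinAt_id z HP).congr_of_eventuallyEq h2 (by
          simp only [Function.comp_apply, id]; rw [hTz, hT'w])
      have h4 := (uniqueDiffOn_HP z hzHP).eq h1 h3
      intro v v' hvv
      have h5 := congrArg (fun L : E2 →L[ℝ] E2 => L v) h4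
      have h6 := congrArg (fun L : E2 →L[ℝ] E2 => L v') h4
      simp only [ContinuousLinearMap.comp_apply, ContinuousLinearMap.id_apply] at h5 h6
      rw [← h5, ← h6, hvv]
    have h1 : A ((A e1) 1 • e0 - (A e0) 1 • e1) = A 0 := by
      rw [map_sub, map_smul, map_smul, map_zero]
      apply ext2
      · simp [hA1, ← h0]
      · simp; ring
    have h2 := hinj h1
    have h3 : (A e1) 1 = 0 := by
      have := congrArg (fun v : E2 => v 0) h2
      simpa using this
    have h4 : A e1 = A 0 := by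
      rw [map_zero]; apply ext2 <;> simp [hA1, h3]
    have h5 := congrArg (fun v : E2 => v 1) (hinj h4)
    simp at h5

lemma mem_boundary_iff (hφ : φ ∈ atlas (EuclideanHalfSpace 2) M) {m : M} (hm : m ∈ φ.source) :
    m ∈ (𝓡∂ 2).boundary M ↔ (φ.extend (𝓡∂ 2) m) 0 = 0 := by
  have h1 := ModelWithCorners.isInteriorPoint_iff_of_mem_atlas (I := 𝓡∂ 2) (n := ∞) (by simp)
    hφ hm
  have h2 : φ.extend (𝓡∂ 2) m ∈ interior (φ.extend (𝓡∂ 2)).target ↔
      0 < (φ.extend (𝓡∂ 2) m) 0 := by
    constructor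
    · intro h
      have := φ.interior_extend_target_subset_interior_range h
      rw [interior_range_modelWithCornersEuclideanHalfSpace] at this
      exact this
    · intro h
      refine φ.mem_interior_extend_target (φ.map_source hm) ?_
      rw [interior_range_modelWithCornersEuclideanHalfSpace]
      exact h
  have h3 : 0 ≤ (φ.extend (𝓡∂ 2) m) 0 := tgt_subset (ext_mem hm)
  have h4 : m ∈ (𝓡∂ 2).boundary M ↔ ¬ (𝓡∂ 2).IsInteriorPoint m := by
    rw [← ModelWithCorners.isBoundaryPoint_iff_not_isInteriorPoint]; rfl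
  rw [h4, h1, h2]
  constructor
  · intro h; exact le_antisymm (not_lt.mp h) h3
  · intro h; rw [h]; exact lt_irrefl _

end Pool.Agent.Helper608
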