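import Pool.Agent.Helper608.Chart2

open Set MeasureTheory Filter Topology
open scoped Manifold ContDiff InnerProductSpace

set_option linter.unusedSectionVars false

namespace Pool.Agent.Helper608

variable {M : Type*} [TopologicalSpace M] [ChartedSpace (EuclideanHalfSpace 2) M]
  [IsManifold (𝓡∂ 2) ∞ M]
  {φ : OpenPartialHomeomorph M (EuclideanHalfSpace 2)}

lemma chartPartial_zero (f : M → E3) (z : E2) : chartPartial φ f 0 z = cd φ f z e0 := by
  unfold chartPartial cd
  rw [range_I]; rfl

lemma chartPartial_one (f : M → E3) (z : E2) : chartPartial φ f 1 z = cd φ f z e1 := by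
  unfold chartPartial cd
  rw [range_I]; rfl

lemma areaDensity_eq (f : M → E3) (z : E2) :
    areaDensity φ f z = ‖cross (cd φ f z e0) (cd φ f z e1)‖ := by
  unfold areaDensity
  rw [chartPartial_zero, chartPartial_one, ← normsq_cross, Real.sqrt_sq (norm_nonneg _)]

lemma areaDensity_nonneg (f : M → E3) (z : E2) : 0 ≤ areaDensity φ f z := Real.sqrt_nonneg _

lemma continuous_cross : Continuous (fun p : E3 × E3 => cross p.1 p.2) := by
  unfold cross
  refine (PiLp.continuous_toLp 2 _).comp ?_
  refine continuous_pi ?_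
  intro i
  fin_cases i <;> simp <;> fun_prop

lemma continuousOn_areaDensity (hφ : φ ∈ atlas (EuclideanHalfSpace 2) M) {f : M → E3}
    (hf : ContMDiff (𝓡∂ 2) 𝓘(ℝ, E3) 1 f) : ContinuousOn (areaDensity φ f) (tgt φ) := by
  have h1 := continuousOn_cd hφ hf
  have h2 : ContinuousOn (fun z => cross (cd φ f z e0) (cd φ f z e1)) (tgt φ) :=
    continuous_cross.comp_continuousOn
      ((h1.clm_apply continuousOn_const).prodMk (h1.clm_apply continuousOn_const))
  exact h2.norm.congr fun z _ => areaDensity_eq f z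

variable [MeasurableSpace M] [BorelSpace M]

/-- area measure in a chart -/
noncomputable def cm (φ : OpenPartialHomeomorph M (EuclideanHalfSpace 2)) (f : M → E3) :
    Measure E2 :=
  (volume.restrict (tgt φ)).withDensity (fun z => ENNReal.ofReal (areaDensity φ f z))

lemma aemeasurable_inv (f : M → E3) : AEMeasurable (inv φ) (cm φ f) := by
  have h1 : AEMeasurable (inv φ) (volume.restrict (tgt φ)) :=
    (continuousOn_inv (φ := φ)).aemeasurable measurableSet_tgt
  exact h1.mono_ac (withDensity_absolutelyContinuous _ _)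

lemma restrict_source (hφ : φ ∈ atlas (EuclideanHalfSpace 2) M) {f : M → E3} {μ : Measure M}
    (hμ : IsAreaMeasure f μ) : μ.restrict φ.source = Measure.map (inv φ) (cm φ f) := by
  ext s hs
  rw [Measure.restrict_apply hs, Measure.map_apply_of_aemeasurable (aemeasurable_inv f) hs]
  unfold cm
  rw [withDensity_apply', Measure.restrict_restrict' measurableSet_tgt,
    hμ φ hφ _ (hs.inter φ.open_source.measurableSet) inter_subset_right]
  have : (φ.extend (𝓡∂ 2)) '' (s ∩ φ.source) = inv φ ⁻¹' s ∩ tgt φ := by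
    ext z
    constructor
    · rintro ⟨m, ⟨hm1, hm2⟩, rfl⟩
      refine ⟨?_, ext_mem hm2⟩
      rw [mem_preimage, inv_ext hm2]; exact hm1
    · rintro ⟨h1, h2⟩
      exact ⟨inv φ z, ⟨h1, inv_mem h2⟩, ext_inv h2⟩
  rw [this]

/-- integrals over a chart domain -/
lemma integral_source (hφ : φ ∈ atlas (EuclideanHalfSpace 2) M) {f : M → E3}
    (hf : ContMDiff (𝓡∂ 2) 𝓘(ℝ, E3) 1 f) {μ : Measure M}
    (hμ : IsAreaMeasure f μ) {G : M → ℝ} (hG : ContinuousOn G φ.source) :
    (IntegrableOn G φ.source μ ↔
      IntegrableOn (fun z => areaDensity φ f z * G (inv φ z)) (tgt φ)) ∧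
    ∫ m in φ.source, G m ∂μ = ∫ z in tgt φ, areaDensity φ f z * G (inv φ z) := by
  have hGm : AEStronglyMeasurable G (Measure.map (inv φ) (cm φ f)) := by
    rw [← restrict_source hφ hμ]
    exact hG.aestronglyMeasurable φ.open_source.measurableSet
  have hJ : AEMeasurable (fun z => ENNReal.ofReal (areaDensity φ f z))
      (volume.restrict (tgt φ)) :=
    ((continuousOn_areaDensity hφ hf).aemeasurable measurableSet_tgt).ennreal_ofReal
  have hJt : ∀ᵐ z ∂(volume.restrict (tgt φ)), ENNReal.ofReal (areaDensity φ f z) < ⊤ :=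
    Filter.Eventually.of_forall fun z => ENNReal.ofReal_lt_top
  constructor
  · unfold IntegrableOn
    rw [restrict_source hφ hμ, integrable_map_measure hGm (aemeasurable_inv f)]
    unfold cm
    rw [integrable_withDensity_iff_integrable_smul₀' hJ hJt]
    simp only [ENNReal.toReal_ofReal (areaDensity_nonneg _ _), smul_eq_mul, Function.comp_apply]
  · rw [restrict_source hφ hμ, integral_map (aemeasurable_inv f) hGm]
    unfold cm
    rw [integral_withDensity_eq_integral_toReal_smul₀ hJ hJt]
    simp only [ENNReal.toReal_ofReal (areaDensity_nonneg _ _), smul_eq_mul]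

/-- compact subsets of a chart domain have finite area -/
lemma measure_lt_top_of_compact (hφ : φ ∈ atlas (EuclideanHalfSpace 2) M) {f : M → E3}
    (hf : ContMDiff (𝓡∂ 2) 𝓘(ℝ, E3) 1 f) {μ : Measure M} (hμ : IsAreaMeasure f μ)
    {K : Set M} (hK : IsCompact K) (hKm : MeasurableSet K) (hKs : K ⊆ φ.source) : μ K < ⊤ := by
  rw [hμ φ hφ K hKm hKs]
  have hc : IsCompact ((φ.extend (𝓡∂ 2)) '' K) :=
    hK.image_of_continuousOn (continuousOn_ext.mono hKs)
  have hsub : (φ.extend (𝓡∂ 2)) '' K ⊆ tgt φ := by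
    rintro _ ⟨m, hm, rfl⟩; exact ext_mem (hKs hm)
  have h1 : IntegrableOn (areaDensity φ f) ((φ.extend (𝓡∂ 2)) '' K) :=
    ((continuousOn_areaDensity hφ hf).mono hsub).integrableOn_compact hc
  have h2 := h1.hasFiniteIntegral
  rw [hasFiniteIntegral_iff_enorm] at h2
  refine lt_of_le_of_lt ?_ h2
  apply lintegral_mono
  intro z
  change ENNReal.ofReal (areaDensity φ f z) ≤ ‖areaDensity φ f z‖ₑ
  rw [← ofReal_norm]
  exact ENNReal.ofReal_le_ofReal (le_abs_self _)

end Pool.Agent.Helper608
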