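import Pool.Agent.Helper608.Defs

open Set MeasureTheory Filter Topology
open scoped ContDiff InnerProductSpace

namespace Pool.Agent.Helper608

theorem gram_expand (L : E2 →L[ℝ] E3) (v : E2) :
    ‖L v‖ ^ 2 = v 0 ^ 2 * ‖L (EuclideanSpace.single 0 1)‖ ^ 2
      + 2 * v 0 * v 1 * ⟪L (EuclideanSpace.single 0 1), L (EuclideanSpace.single 1 1)⟫_ℝ
      + v 1 ^ 2 * ‖L (EuclideanSpace.single 1 1)‖ ^ 2 := by
  have hv : v = v 0 • (EuclideanSpace.single 0 1 : E2) + v 1 • EuclideanSpace.single 1 1 := by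
    ext i
    fin_cases i <;> simp
  conv_lhs => rw [hv]
  rw [map_add, map_smul, map_smul, norm_add_sq_real, norm_smul, norm_smul, inner_smul_left,
    inner_smul_right]
  simp only [Real.norm_eq_abs, mul_pow, sq_abs, conj_trivial]
  ring

theorem gram_pos (L : E2 →L[ℝ] E3) (hL : Function.Injective L) :
    0 < ‖L (EuclideanSpace.single 0 1)‖ ∧
    0 < ‖L (EuclideanSpace.single 0 1)‖ ^ 2 * ‖L (EuclideanSpace.single 1 1)‖ ^ 2 -
      ⟪L (EuclideanSpace.single 0 1), L (EuclideanSpace.single 1 1)⟫_ℝ ^ 2 := by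
  have hp : 0 < ‖L (EuclideanSpace.single 0 1)‖ := by
    rw [norm_pos_iff]
    intro h
    have := hL (h.trans (map_zero L).symm)
    have h0 := congrArg (fun v : E2 => v 0) this
    simp at h0
  refine ⟨hp, ?_⟩
  set p := L (EuclideanSpace.single 0 1) with hpdef
  set q := L (EuclideanSpace.single 1 1) with hqdef
  set w : E2 := (-⟪p, q⟫_ℝ) • (EuclideanSpace.single 0 1 : E2) + (‖p‖ ^ 2) • EuclideanSpace.single 1 1
    with hw
  have hw0 : w 0 = -⟪p, q⟫_ℝ := by simp [hw]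
  have hw1 : w 1 = ‖p‖ ^ 2 := by simp [hw]
  have hwne : w ≠ 0 := by
    intro h
    have h1 := congrArg (fun v : E2 => v 1) h
    simp only [hw1] at h1
    have h2 : ‖p‖ ^ 2 = 0 := by simpa using h1
    have h3 : 0 < ‖p‖ ^ 2 := by positivity
    exact h3.ne' h2
  have hLw : 0 < ‖L w‖ ^ 2 := by
    have : L w ≠ 0 := fun h => hwne (hL (h.trans (map_zero L).symm))
    positivity
  rw [gram_expand, hw0, hw1, ← hpdef, ← hqdef] at hLw
  have hfac : (-⟪p, q⟫_ℝ) ^ 2 * ‖p‖ ^ 2 + 2 * (-⟪p, q⟫_ℝ) * ‖p‖ ^ 2 * ⟪p, q⟫_ℝ +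
      (‖p‖ ^ 2) ^ 2 * ‖q‖ ^ 2 = ‖p‖ ^ 2 * (‖p‖ ^ 2 * ‖q‖ ^ 2 - ⟪p, q⟫_ℝ ^ 2) := by ring
  rw [hfac] at hLw
  exact pos_of_mul_pos_right hLw (by positivity)

/-- TARGET. Lower area density of an immersed surface patch at a point: if `g : ℝ² → ℝ³` is
differentiable at `z₀` with injective derivative `L`, and the density `J` is continuous at `z₀` (within
the neighbourhood `U`) with `J z₀` the Gram area element of `L`, then the area of
`U ∩ g⁻¹ (ball (g z₀) s)` is at least `s²/4` for all small `s > 0`. -/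
theorem density_lower (g : E2 → E3) (L : E2 →L[ℝ] E3) (z₀ : E2) (U : Set E2) (hU : U ∈ 𝓝 z₀)
    (hg : HasFDerivAt g L z₀) (hL : Function.Injective L) (J : E2 → ℝ)
    (hJc : ContinuousAt J z₀)
    (hJ : J z₀ = Real.sqrt (‖L (EuclideanSpace.single 0 1)‖ ^ 2 *
      ‖L (EuclideanSpace.single 1 1)‖ ^ 2 -
      ⟪L (EuclideanSpace.single 0 1), L (EuclideanSpace.single 1 1)⟫_ℝ ^ 2)) :
    ∀ᶠ s in 𝓝[>] (0:ℝ), ENNReal.ofReal (s ^ 2 / 4) ≤
      ∫⁻ z in U ∩ g ⁻¹' Metric.ball (g z₀) s, ENNReal.ofReal (J z) := by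
  obtain ⟨hp, hG⟩ := gram_pos L hL
  have hexp := gram_expand L
  set p := L (EuclideanSpace.single 0 1) with hpdef
  set q := L (EuclideanSpace.single 1 1) with hqdef
  set G := ‖p‖ ^ 2 * ‖q‖ ^ 2 - ⟪p, q⟫_ℝ ^ 2 with hGdef
  have hJpos : 0 < J z₀ := by rw [hJ]; exact Real.sqrt_pos.2 hG
  have hJsq : J z₀ ^ 2 = G := by rw [hJ]; exact Real.sq_sqrt hG.le
  -- the linear map
  set a : ℝ := ‖p‖ with ha
  set b : ℝ := ⟪p, q⟫_ℝ / ‖p‖ with hb
  set d : ℝ := J z₀ / ‖p‖ with hd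
  let M : E2 →ₗ[ℝ] E2 := Matrix.toEuclideanLin !![a, b; 0, d]
  have hdet : LinearMap.det M = J z₀ := by
    change LinearMap.det (Matrix.toEuclideanLin !![a, b; 0, d]) = _
    rw [Matrix.toEuclideanLin_eq_toLin_orthonormal, LinearMap.det_toLin, Matrix.det_fin_two_of, hd]
    have : a ≠ 0 := hp.ne'
    rw [← ha]
    field_simp
    ring
  have hMnorm : ∀ v, ‖M v‖ = ‖L v‖ := by
    intro v
    have h1 : ‖M v‖ ^ 2 = ‖L v‖ ^ 2 := by
      have hM0 : M v 0 = a * v 0 + b * v 1 := by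
        change (Matrix.toEuclideanLin !![a, b; 0, d] v) 0 = _
        rw [Matrix.toLpLin_apply]
        simp [Matrix.mulVec, dotProduct, Fin.sum_univ_two]
      have hM1 : M v 1 = d * v 1 := by
        change (Matrix.toEuclideanLin !![a, b; 0, d] v) 1 = _
        rw [Matrix.toLpLin_apply]
        simp [Matrix.mulVec, dotProduct, Fin.sum_univ_two]
      rw [hexp, EuclideanSpace.real_norm_sq_eq, Fin.sum_univ_two, hM0, hM1]
      have h2 : J z₀ ^ 2 = a ^ 2 * ‖q‖ ^ 2 - ⟪p, q⟫_ℝ ^ 2 := hJsq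
      have hane : a ≠ 0 := hp.ne'
      have hba : b * a = ⟪p, q⟫_ℝ := by rw [hb, ← ha]; field_simp
      have hda : d * a = J z₀ := by rw [hd, ← ha]; field_simp
      have h4 : b ^ 2 + d ^ 2 = ‖q‖ ^ 2 := by
        have : a ^ 2 * (b ^ 2 + d ^ 2) = a ^ 2 * ‖q‖ ^ 2 := by
          have e1 : a ^ 2 * (b ^ 2 + d ^ 2) = (b * a) ^ 2 + (d * a) ^ 2 := by ring
          rw [e1, hba, hda, h2]; ring
        exact mul_left_cancel₀ (pow_ne_zero 2 hane) this
      rw [← hba, ← h4]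
      ring
    have h3 : ‖M v‖ = ‖L v‖ := by
      have := congrArg Real.sqrt h1
      rwa [Real.sqrt_sq (norm_nonneg _), Real.sqrt_sq (norm_nonneg _)] at this
    exact h3
  obtain ⟨K, hK, hanti⟩ := L.toLinearMap.exists_antilipschitzWith (LinearMap.ker_eq_bot.2 hL)
  have hKb : ∀ v, ‖v‖ ≤ K * ‖L v‖ := by
    intro v
    have := hanti.le_mul_dist v 0
    simpa using this
  have hKpos : (0:ℝ) < K := hK
  -- a good ball
  have hsmall : ∀ᶠ z in 𝓝 z₀, z ∈ U ∧ J z₀ / 2 ≤ J z ∧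
      ‖g z - g z₀ - L (z - z₀)‖ ≤ (1 / (2 * K)) * ‖z - z₀‖ := by
    have e1 : ∀ᶠ z in 𝓝 z₀, z ∈ U := hU
    have e2 : ∀ᶠ z in 𝓝 z₀, J z₀ / 2 ≤ J z :=
      (hJc.eventually (lt_mem_nhds (by linarith : J z₀ / 2 < J z₀))).mono (fun z hz => le_of_lt hz)
    have e3 : ∀ᶠ z in 𝓝 z₀, ‖g z - g z₀ - L (z - z₀)‖ ≤ (1 / (2 * K)) * ‖z - z₀‖ :=
      hg.isLittleO.def (by positivity)
    exact e1.and (e2.and e3)
  obtain ⟨δ, hδ, hball⟩ := Metric.eventually_nhds_iff.1 hsmall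
  have hs : ∀ᶠ s in 𝓝[>] (0:ℝ), s < 2 * δ / K :=
    (gt_mem_nhds (by positivity)).filter_mono nhdsWithin_le_nhds
  filter_upwards [hs, self_mem_nhdsWithin] with s hs hs0
  have hs0 : 0 < s := hs0
  set E : Set E2 := {z | ‖L (z - z₀)‖ < s / 2} with hE
  have hsub : E ⊆ U ∩ g ⁻¹' Metric.ball (g z₀) s ∧ ∀ z ∈ E, J z₀ / 2 ≤ J z := by
    have : ∀ z ∈ E, z ∈ U ∧ J z₀ / 2 ≤ J z ∧ dist (g z) (g z₀) < s := by
      intro z hz
      have hz' : ‖L (z - z₀)‖ < s / 2 := hz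
      have h1 : ‖z - z₀‖ ≤ K * ‖L (z - z₀)‖ := hKb _
      have h2 : ‖z - z₀‖ < δ := by
        have : K * ‖L (z - z₀)‖ < K * (s / 2) := by gcongr
        have h3 : K * (s / 2) < δ := by
          rw [lt_div_iff₀ hKpos] at hs
          linarith
        linarith
      obtain ⟨hzU, hzJ, hzg⟩ := hball (by rw [dist_eq_norm]; exact h2)
      refine ⟨hzU, hzJ, ?_⟩
      rw [dist_eq_norm]
      have h4 : ‖g z - g z₀‖ ≤ ‖g z - g z₀ - L (z - z₀)‖ + ‖L (z - z₀)‖ := by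
        have := norm_add_le (g z - g z₀ - L (z - z₀)) (L (z - z₀))
        simpa using this
      have h5 : (1 / (2 * (K:ℝ))) * ‖z - z₀‖ ≤ ‖L (z - z₀)‖ / 2 := by
        calc (1 / (2 * (K:ℝ))) * ‖z - z₀‖ ≤ (1 / (2 * (K:ℝ))) * (K * ‖L (z - z₀)‖) := by gcongr
          _ = ‖L (z - z₀)‖ / 2 := by field_simp
      linarith
    exact ⟨fun z hz => ⟨(this z hz).1, (this z hz).2.2⟩, fun z hz => (this z hz).2.1⟩
  have hEm : MeasurableSet E := by
    apply IsOpen.measurableSet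
    exact isOpen_lt (by fun_prop) continuous_const
  have hvol : volume E = ENNReal.ofReal (Real.pi * (s / 2) ^ 2 / J z₀) := by
    have h1 : E = (fun z => z - z₀) ⁻¹' (M ⁻¹' Metric.ball 0 (s / 2)) := by
      ext z
      simp only [hE, Set.mem_ofPred_eq, Set.mem_preimage, mem_ball_zero_iff, hMnorm]
    have h2 : (fun z : E2 => z - z₀) = fun z => z + (-z₀) := by
      funext z; rw [sub_eq_add_neg]
    rw [h1, h2, measure_preimage_add_right, Measure.addHaar_preimage_linearMap _ (by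
      rw [hdet]; exact hJpos.ne'), hdet, EuclideanSpace.volume_ball_fin_two, abs_inv,
      abs_of_pos hJpos]
    rw [← ENNReal.ofReal_pow (by positivity), ← ENNReal.ofReal_mul (by positivity),
      ← ENNReal.ofReal_mul (by positivity)]
    congr 1
    ring
  calc ENNReal.ofReal (s ^ 2 / 4) ≤ ENNReal.ofReal (J z₀ / 2) * volume E := by
        rw [hvol, ← ENNReal.ofReal_mul (by positivity)]
        apply ENNReal.ofReal_le_ofReal
        have h2 : J z₀ / 2 * (Real.pi * (s / 2) ^ 2 / J z₀) = Real.pi * s ^ 2 / 8 := by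
          field_simp
          ring
        rw [h2]
        have := Real.pi_gt_three
        nlinarith [sq_nonneg s]
    _ = ∫⁻ z in E, ENNReal.ofReal (J z₀ / 2) := by rw [setLIntegral_const]
    _ ≤ ∫⁻ z in E, ENNReal.ofReal (J z) :=
        setLIntegral_mono' hEm fun z hz => ENNReal.ofReal_le_ofReal (hsub.2 z hz)
    _ ≤ ∫⁻ z in U ∩ g ⁻¹' Metric.ball (g z₀) s, ENNReal.ofReal (J z) :=
        lintegral_mono_set hsub.1

end Pool.Agent.Helper608
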