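import Pool.Agent.Helper608.Chart3
import Pool.Agent.Helper608.Dens

open Set MeasureTheory Filter Topology
open scoped Manifold ContDiff InnerProductSpace

set_option linter.unusedSectionVars false

namespace Pool.Agent.Helper608

/-- a unit vector orthogonal to `p` and `q` -/
lemma inner_cross_sq {n p q : E3} (hn : ‖n‖ = 1) (hp : ⟪n, p⟫_ℝ = 0) (hq : ⟪n, q⟫_ℝ = 0) :
    ⟪n, cross p q⟫_ℝ ^ 2 = ‖cross p q‖ ^ 2 := by
  have h1 : cross (cross p q) n = 0 := by
    rw [inner3] at hp hq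
    apply ext3
    · simp; linear_combination (q 0) * hp - (p 0) * hq
    · simp; linear_combination (q 1) * hp - (p 1) * hq
    · simp; linear_combination (q 2) * hp - (p 2) * hq
  have h2 := normsq_cross (cross p q) n
  rw [h1, norm_zero, hn, real_inner_comm] at h2
  linarith

lemma inner_cross_ne_zero {L : E2 →L[ℝ] E3} (hL : Function.Injective L) {n : E3} (hn : ‖n‖ = 1)
    (hnL : ∀ v, ⟪n, L v⟫_ℝ = 0) : ⟪n, cross (L e0) (L e1)⟫_ℝ ≠ 0 := by
  intro h0
  have h1 := inner_cross_sq hn (hnL e0) (hnL e1)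
  rw [h0, normsq_cross] at h1
  have h2 := (gram_pos L hL).2
  have : ‖L e0‖ ^ 2 * ‖L e1‖ ^ 2 - ⟪L e0, L e1⟫_ℝ ^ 2 = 0 := by linarith
  exact absurd this h2.ne'

lemma cross_neg_right (a b : E3) : cross a (-b) = - cross a b := by
  apply ext3 <;> simp <;> ring

lemma e2_decomp (v : E2) : v = v 0 • e0 + v 1 • e1 := by
  apply ext2 <;> simp

variable {M : Type*} [TopologicalSpace M] [ChartedSpace (EuclideanHalfSpace 2) M]
  [IsManifold (𝓡∂ 2) ∞ M]
  {φ : OpenPartialHomeomorph M (EuclideanHalfSpace 2)}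

/-- the differential, as a map from the plane -/
noncomputable def dd (a : M → E3) (m : M) : E2 →L[ℝ] E3 := dmap a m

/-- The function `da ∧ df / dA` -/
noncomputable def omg (f N a : M → E3) (m : M) : ℝ :=
  (⟪dd a m e0, dd f m e1⟫_ℝ - ⟪dd a m e1, dd f m e0⟫_ℝ) /
    ⟪N m, cross (dd f m e0) (dd f m e1)⟫_ℝ

lemma one_le_inf : (1 : WithTop ℕ∞) ≤ ∞ :=
  show ((1 : ℕ∞) : WithTop ℕ∞) ≤ ((⊤ : ℕ∞) : WithTop ℕ∞) from WithTop.coe_le_coe.mpr le_top

section imm
variable {f N : M → E3} {H : ℝ}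

lemma IsCMCImmersion.f1 (h : IsCMCImmersion f N H) : ContMDiff (𝓡∂ 2) 𝓘(ℝ, E3) 1 f :=
  h.smooth_map.of_le one_le_inf
lemma IsCMCImmersion.N1 (h : IsCMCImmersion f N H) : ContMDiff (𝓡∂ 2) 𝓘(ℝ, E3) 1 N :=
  h.smooth_normal.of_le one_le_inf

lemma IsCMCImmersion.dd_inj (h : IsCMCImmersion f N H) (m : M) : Function.Injective (dd f m) :=
  h.immersion m

lemma IsCMCImmersion.den_ne (h : IsCMCImmersion f N H) (m : M) :
    ⟪N m, cross (dd f m e0) (dd f m e1)⟫_ℝ ≠ 0 :=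
  inner_cross_ne_zero (h.dd_inj m) (h.norm_normal m) (h.inner_normal m)

lemma IsCMCImmersion.cd_inj (h : IsCMCImmersion f N H)
    (hφ : φ ∈ atlas (EuclideanHalfSpace 2) M) {z : E2} (hz : z ∈ tgt φ) :
    Function.Injective (cd φ f z) ∧ ∀ v, ⟪N (inv φ z), cd φ f z v⟫_ℝ = 0 := by
  obtain ⟨A, hA, hA2, -⟩ := exists_transition hφ hz
  constructor
  · intro v w hvw
    rw [hA2 f h.f1, hA2 f h.f1] at hvw
    exact hA (h.immersion _ hvw)
  · intro v
    rw [hA2 f h.f1]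
    exact h.inner_normal _ _

/-- signed area density in a chart -/
noncomputable def sden (φ : OpenPartialHomeomorph M (EuclideanHalfSpace 2)) (f N : M → E3)
    (z : E2) : ℝ := ⟪N (inv φ z), cross (cd φ f z e0) (cd φ f z e1)⟫_ℝ

lemma IsCMCImmersion.sden_ne (h : IsCMCImmersion f N H)
    (hφ : φ ∈ atlas (EuclideanHalfSpace 2) M) {z : E2} (hz : z ∈ tgt φ) : sden φ f N z ≠ 0 :=
  inner_cross_ne_zero (h.cd_inj hφ hz).1 (h.norm_normal _) (h.cd_inj hφ hz).2

lemma IsCMCImmersion.abs_sden (h : IsCMCImmersion f N H)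
    (hφ : φ ∈ atlas (EuclideanHalfSpace 2) M) {z : E2} (hz : z ∈ tgt φ) :
    |sden φ f N z| = areaDensity φ f z := by
  rw [areaDensity_eq, ← sq_eq_sq₀ (abs_nonneg _) (norm_nonneg _), sq_abs]
  exact inner_cross_sq (h.norm_normal _) ((h.cd_inj hφ hz).2 _) ((h.cd_inj hφ hz).2 _)

lemma IsCMCImmersion.area_pos (h : IsCMCImmersion f N H)
    (hφ : φ ∈ atlas (EuclideanHalfSpace 2) M) {z : E2} (hz : z ∈ tgt φ) :
    0 < areaDensity φ f z := by
  rw [← h.abs_sden hφ hz]; exact abs_pos.mpr (h.sden_ne hφ hz)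

/-- orientation sign of the chart -/
noncomputable def eps (φ : OpenPartialHomeomorph M (EuclideanHalfSpace 2)) (f N : M → E3)
    (z : E2) : ℝ := sden φ f N z / areaDensity φ f z

lemma IsCMCImmersion.eps_cases (h : IsCMCImmersion f N H)
    (hφ : φ ∈ atlas (EuclideanHalfSpace 2) M) {z : E2} (hz : z ∈ tgt φ) :
    eps φ f N z = 1 ∨ eps φ f N z = -1 := by
  unfold eps
  rw [← h.abs_sden hφ hz]
  have h0 := h.sden_ne hφ hz
  rcases lt_or_gt_of_ne h0 with h1 | h1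
  · right; rw [abs_of_neg h1]; field_simp
  · left; rw [abs_of_pos h1]; field_simp

/-- chart form of `omg` -/
lemma IsCMCImmersion.omg_chart (h : IsCMCImmersion f N H)
    (hφ : φ ∈ atlas (EuclideanHalfSpace 2) M) {b : M → E3}
    (hb : ContMDiff (𝓡∂ 2) 𝓘(ℝ, E3) 1 b) {z : E2} (hz : z ∈ tgt φ) :
    omg f N b (inv φ z) * sden φ f N z =
      ⟪cd φ b z e0, cd φ f z e1⟫_ℝ - ⟪cd φ b z e1, cd φ f z e0⟫_ℝ := by
  obtain ⟨A, hA, hA2, -⟩ := exists_transition hφ hz
  have hdf : ∀ v, cd φ f z v = dd f (inv φ z) (A v) := hA2 f h.f1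
  have hdb : ∀ v, cd φ b z v = dd b (inv φ z) (A v) := hA2 b hb
  unfold sden omg
  rw [hdf, hdf, hdb, hdb]
  have hden := h.den_ne (inv φ z)
  set L := dd f (inv φ z) with hL
  set B := dd b (inv φ z) with hB
  set n := N (inv φ z) with hn
  have x0 : A e0 = (A e0) 0 • e0 + (A e0) 1 • e1 := e2_decomp _
  have x1 : A e1 = (A e1) 0 • e0 + (A e1) 1 • e1 := e2_decomp _
  set a := (A e0) 0
  set c := (A e0) 1
  set b' := (A e1) 0
  set d := (A e1) 1
  rw [x0, x1]
  simp only [map_add, map_smul]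
  have hc : ⟪n, cross (a • L e0 + c • L e1) (b' • L e0 + d • L e1)⟫_ℝ =
      (a * d - c * b') * ⟪n, cross (L e0) (L e1)⟫_ℝ := by
    rw [inner3, inner3]; simp; ring
  rw [hc]
  have hnum : ⟪a • B e0 + c • B e1, b' • L e0 + d • L e1⟫_ℝ -
      ⟪b' • B e0 + d • B e1, a • L e0 + c • L e1⟫_ℝ =
      (a * d - c * b') * (⟪B e0, L e1⟫_ℝ - ⟪B e1, L e0⟫_ℝ) := by
    simp only [inner_add_left, inner_add_right, inner_smul_left, inner_smul_right]
    simp
    ring
  rw [hnum]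
  field_simp

end imm

/-- derivative vanishes off the support -/
lemma cd_zero {b : M → E3} {z : E2} (hz : z ∈ tgt φ) (hzb : inv φ z ∉ tsupport b) :
    cd φ b z = 0 := by
  have h1 : ∀ᶠ y in 𝓝 z, b (inv φ y) = 0 := by
    have h2 : (tsupport b)ᶜ ∈ 𝓝 (inv φ z) := (isClosed_tsupport b).isOpen_compl.mem_nhds hzb
    filter_upwards [(continuousAt_inv hz).preimage_mem_nhds h2] with y hy
    exact image_eq_zero_of_notMem_tsupport hy
  unfold cd
  have h3 : (b ∘ inv φ) =ᶠ[𝓝[HP] z] fun _ => (0 : E3) := by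
    filter_upwards [h1.filter_mono nhdsWithin_le_nhds] with y hy
    exact hy
  rw [h3.fderivWithin_eq (by
    simp only [Function.comp_apply]
    exact image_eq_zero_of_notMem_tsupport hzb)]
  simp

lemma dd_zero {b : M → E3} (hb : ContMDiff (𝓡∂ 2) 𝓘(ℝ, E3) 1 b) {m : M}
    (hm : m ∉ tsupport b) : dd b m = 0 := by
  have h1 : dd b m = cd (chartAt (EuclideanHalfSpace 2) m) b (extChartAt (𝓡∂ 2) m m) :=
    dmap_eq hb m
  rw [h1]
  have hmχ : m ∈ (chartAt (EuclideanHalfSpace 2) m).source := mem_chart_source _ m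
  have h2 : extChartAt (𝓡∂ 2) m m = (chartAt (EuclideanHalfSpace 2) m).extend (𝓡∂ 2) m := rfl
  rw [h2]
  apply cd_zero (ext_mem hmχ)
  rwa [inv_ext hmχ]

lemma omg_zero {f N b : M → E3} (hb : ContMDiff (𝓡∂ 2) 𝓘(ℝ, E3) 1 b) {m : M}
    (hm : m ∉ tsupport b) : omg f N b m = 0 := by
  unfold omg
  rw [dd_zero hb hm]; simp

/-- extension by zero of a function supported in a compact subset of the target -/
lemma continuousOn_indicator_tgt {g : E2 → ℝ} (hg : ContinuousOn g (tgt φ)) {K : Set E2}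
    (hK : IsCompact K) (hg0 : ∀ z ∈ tgt φ, z ∉ K → g z = 0) (hKt : K ⊆ tgt φ) :
    ContinuousOn ((tgt φ).indicator g) HP := by
  intro z hz
  by_cases hzt : z ∈ tgt φ
  · have h1 : ContinuousWithinAt g HP z := by
      have := hg z hzt
      unfold ContinuousWithinAt at this ⊢
      rwa [nhdsWithin_tgt hzt] at this
    refine h1.congr_of_eventuallyEq ?_ (indicator_of_mem hzt g)
    filter_upwards [tgt_mem_nhdsWithin hzt] with y hy
    exact indicator_of_mem hy g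
  · have hzK : z ∉ K := fun h => hzt (hKt h)
    have h1 : Kᶜ ∈ 𝓝 z := hK.isClosed.isOpen_compl.mem_nhds hzK
    refine (continuousWithinAt_const (b := (0:ℝ))).congr_of_eventuallyEq ?_
      (indicator_of_notMem hzt g)
    filter_upwards [mem_nhdsWithin_of_mem_nhds h1] with y hy
    by_cases hyt : y ∈ tgt φ
    · rw [indicator_of_mem hyt, hg0 y hyt hy]
    · exact indicator_of_notMem hyt g

end Pool.Agent.Helper608
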