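import Pool.Agent.Helper608.Chart4

open Set MeasureTheory Filter Topology
open scoped Manifold ContDiff InnerProductSpace

set_option linter.unusedSectionVars false

namespace Pool.Agent.Helper608

variable {M : Type*} [TopologicalSpace M] [ChartedSpace (EuclideanHalfSpace 2) M]
  [IsManifold (𝓡∂ 2) ∞ M]
  {φ : OpenPartialHomeomorph M (EuclideanHalfSpace 2)} {f N : M → E3} {H : ℝ}

lemma IsCMCImmersion.continuousOn_sden (h : IsCMCImmersion f N H)
    (hφ : φ ∈ atlas (EuclideanHalfSpace 2) M) : ContinuousOn (sden φ f N) (tgt φ) := by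
  have h1 := continuousOn_cd hφ h.f1
  have h2 : ContinuousOn (fun z => cross (cd φ f z e0) (cd φ f z e1)) (tgt φ) :=
    continuous_cross.comp_continuousOn
      ((h1.clm_apply continuousOn_const).prodMk (h1.clm_apply continuousOn_const))
  have h3 : ContinuousOn (fun z => N (inv φ z)) (tgt φ) :=
    h.smooth_normal.continuous.comp_continuousOn continuousOn_inv
  exact h3.inner h2

lemma IsCMCImmersion.continuousOn_eps (h : IsCMCImmersion f N H)
    (hφ : φ ∈ atlas (EuclideanHalfSpace 2) M) : ContinuousOn (eps φ f N) (tgt φ) :=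
  (h.continuousOn_sden hφ).div (continuousOn_areaDensity hφ h.f1)
    (fun _ hz => (h.area_pos hφ hz).ne')

/-- the orientation sign is locally constant -/
lemma IsCMCImmersion.eps_eventually (h : IsCMCImmersion f N H)
    (hφ : φ ∈ atlas (EuclideanHalfSpace 2) M) {z : E2} (hz : z ∈ tgt φ) :
    ∀ᶠ y in 𝓝[HP] z, eps φ f N y = eps φ f N z := by
  have h1 : ContinuousWithinAt (eps φ f N) HP z := by
    have := h.continuousOn_eps hφ z hz
    unfold ContinuousWithinAt at this ⊢
    rwa [nhdsWithin_tgt hz] at this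
  have h2 : ∀ᶠ y in 𝓝[HP] z, |eps φ f N y - eps φ f N z| < 1 := by
    have := h1.sub (continuousWithinAt_const (b := eps φ f N z))
    have h3 := this.abs
    have h4 : |eps φ f N z - eps φ f N z| < 1 := by simp
    exact h3.eventually (gt_mem_nhds h4)
  filter_upwards [h2, tgt_mem_nhdsWithin hz] with y hy hyt
  rcases h.eps_cases hφ hyt with e | e <;> rcases h.eps_cases hφ hz with e' | e' <;>
    rw [e, e'] at hy ⊢ <;> norm_num at hy

/-- boundary integrand of Stokes' theorem in the chart -/
noncomputable def bdI (φ : OpenPartialHomeomorph M (EuclideanHalfSpace 2)) (f N b : M → E3) :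
    E2 → ℝ :=
  (tgt φ).indicator (fun z => eps φ f N z * ⟪b (inv φ z), cd φ f z e1⟫_ℝ)

variable [MeasurableSpace M] [BorelSpace M] [CompactSpace M]

theorem chart_stokes (h : IsCMCImmersion f N H) (hφ : φ ∈ atlas (EuclideanHalfSpace 2) M)
    {μ : Measure M} (hμ : IsAreaMeasure f μ) {b : M → E3}
    (hb : ContMDiff (𝓡∂ 2) 𝓘(ℝ, E3) 1 b) (hsupp : tsupport b ⊆ φ.source) :
    Integrable (omg f N b) μ ∧ Integrable (fun s : ℝ => bdI φ f N b (eqv (0, s))) ∧
      ∫ m, omg f N b m ∂μ = - ∫ s : ℝ, bdI φ f N b (eqv (0, s)) := by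
  set K := (φ.extend (𝓡∂ 2)) '' (tsupport b) with hKdef
  have hKc : IsCompact K :=
    (isClosed_tsupport b).isCompact.image_of_continuousOn (continuousOn_ext.mono hsupp)
  have hKt : K ⊆ tgt φ := by
    rintro _ ⟨m, hm, rfl⟩; exact ext_mem (hsupp hm)
  have hoff : ∀ z ∈ tgt φ, z ∉ K → inv φ z ∉ tsupport b := by
    intro z hz hzK hzb
    exact hzK ⟨inv φ z, hzb, ext_inv hz⟩
  have hb0 : ∀ z ∈ tgt φ, z ∉ K → b (inv φ z) = 0 := fun z hz hzK =>
    image_eq_zero_of_notMem_tsupport (hoff z hz hzK)
  have hcd0 : ∀ z ∈ tgt φ, z ∉ K → cd φ b z = 0 := fun z hz hzK => cd_zero hz (hoff z hz hzK)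
  -- the functions of the plane
  set gP : E2 → ℝ := fun z => eps φ f N z * ⟪b (inv φ z), cd φ f z e1⟫_ℝ with hgP
  set gQ : E2 → ℝ := fun z => -(eps φ f N z * ⟪b (inv φ z), cd φ f z e0⟫_ℝ) with hgQ
  set gD : E2 → ℝ := fun z => eps φ f N z *
    (⟪cd φ b z e0, cd φ f z e1⟫_ℝ - ⟪cd φ b z e1, cd φ f z e0⟫_ℝ) with hgD
  have cf := continuousOn_cd hφ h.f1
  have cb := continuousOn_cd hφ hb
  have ce := h.continuousOn_eps hφ
  have cbi : ContinuousOn (fun z => b (inv φ z)) (tgt φ) :=
    hb.continuous.comp_continuousOn continuousOn_inv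
  have cgP : ContinuousOn gP (tgt φ) := ce.mul (cbi.inner (cf.clm_apply continuousOn_const))
  have cgQ : ContinuousOn gQ (tgt φ) := (ce.mul (cbi.inner (cf.clm_apply continuousOn_const))).neg
  have cgD : ContinuousOn gD (tgt φ) :=
    ce.mul (((cb.clm_apply continuousOn_const).inner (cf.clm_apply continuousOn_const)).sub
      ((cb.clm_apply continuousOn_const).inner (cf.clm_apply continuousOn_const)))
  have gP0 : ∀ z ∈ tgt φ, z ∉ K → gP z = 0 := fun z hz hzK => by
    simp only [hgP]; rw [hb0 z hz hzK]; simp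
  have gQ0 : ∀ z ∈ tgt φ, z ∉ K → gQ z = 0 := fun z hz hzK => by
    simp only [hgQ]; rw [hb0 z hz hzK]; simp
  have gD0 : ∀ z ∈ tgt φ, z ∉ K → gD z = 0 := fun z hz hzK => by
    simp only [hgD]; rw [hcd0 z hz hzK]; simp
  have ind0 : ∀ {g : E2 → ℝ}, (∀ z ∈ tgt φ, z ∉ K → g z = 0) →
      ∀ z, z ∉ K → (tgt φ).indicator g z = 0 := by
    intro g hg z hz
    by_cases hzt : z ∈ tgt φ
    · rw [indicator_of_mem hzt]; exact hg z hzt hz
    · exact indicator_of_notMem hzt g
  have key := halfplane_stokes ((tgt φ).indicator gP) ((tgt φ).indicator gQ)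
    ((tgt φ).indicator gD) K hKc
    (continuousOn_indicator_tgt cgP hKc gP0 hKt) (continuousOn_indicator_tgt cgQ hKc gQ0 hKt)
    (continuousOn_indicator_tgt cgD hKc gD0 hKt)
    (fun z _ hz => ind0 gP0 z hz) (fun z _ hz => ind0 gQ0 z hz) (fun z _ hz => ind0 gD0 z hz)
    (by
      intro z hz0
      by_cases hzt : z ∈ tgt φ
      · -- inside the target
        obtain ⟨B, hB, hBsymm⟩ := hasFDerivAt_cd hφ h.smooth_map hzt hz0
        have hbz : HasFDerivAt (b ∘ inv φ) (cd φ b z) z := hasFDerivAt_read hφ hb hzt hz0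
        have hnt : tgt φ ∈ 𝓝 z := tgt_mem_nhds hzt hz0
        have hev : ∀ᶠ y in 𝓝 z, eps φ f N y = eps φ f N z := by
          have := h.eps_eventually hφ hzt
          rwa [nhdsWithin_eq_nhds.mpr (HP_mem_nhds hz0)] at this
        have hcdi : ∀ v : E2, HasFDerivAt (fun y => cd φ f y v) (B.flip v) z := by
          intro v
          have h1 := hB.clm_apply (hasFDerivAt_const v z)
          refine h1.congr_fderiv ?_
          ext w
          simp
        have hin : ∀ v : E2, HasFDerivAt (fun y => ⟪b (inv φ y), cd φ f y v⟫_ℝ)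
            ((fderivInnerCLM ℝ (b (inv φ z), cd φ f z v)).comp ((cd φ b z).prod (B.flip v))) z :=
          fun v => hbz.inner ℝ (hcdi v)
        have hP' : HasFDerivAt ((tgt φ).indicator gP) (eps φ f N z •
            ((fderivInnerCLM ℝ (b (inv φ z), cd φ f z e1)).comp
              ((cd φ b z).prod (B.flip e1)))) z := by
          refine ((hin e1).const_mul (eps φ f N z)).congr_of_eventuallyEq ?_
          filter_upwards [hev, hnt] with y hy hyt
          rw [indicator_of_mem hyt]
          simp only [hgP]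
          rw [hy]
        have hQ' : HasFDerivAt ((tgt φ).indicator gQ) (-(eps φ f N z •
            ((fderivInnerCLM ℝ (b (inv φ z), cd φ f z e0)).comp
              ((cd φ b z).prod (B.flip e0))))) z := by
          refine ((hin e0).const_mul (eps φ f N z)).neg.congr_of_eventuallyEq ?_
          filter_upwards [hev, hnt] with y hy hyt
          rw [indicator_of_mem hyt]
          simp only [hgQ]
          rw [hy]
          rfl
        refine ⟨_, _, hP', hQ', ?_⟩
        rw [indicator_of_mem hzt]
        simp only [hgD]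
        have hs := hBsymm e0 e1
        simp only [smul_apply, neg_apply, ContinuousLinearMap.comp_apply,
          ContinuousLinearMap.flip_apply, fderivInnerCLM_apply, ContinuousLinearMap.prod_apply,
          smul_eq_mul]
        rw [hs]
        ring
      · have hzK : z ∉ K := fun hk => hzt (hKt hk)
        have hnK : Kᶜ ∈ 𝓝 z := hKc.isClosed.isOpen_compl.mem_nhds hzK
        refine ⟨0, 0, ?_, ?_, ?_⟩
        · refine (hasFDerivAt_const (0:ℝ) z).congr_of_eventuallyEq ?_
          filter_upwards [hnK] with y hy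
          exact ind0 gP0 y hy
        · refine (hasFDerivAt_const (0:ℝ) z).congr_of_eventuallyEq ?_
          filter_upwards [hnK] with y hy
          exact ind0 gQ0 y hy
        · rw [ind0 gD0 z hzK]; simp)
  obtain ⟨hDint, hPint, hStokes⟩ := key
  -- relate `gD` to `omg`
  have hgDomg : ∀ z ∈ tgt φ, gD z = areaDensity φ f z * omg f N b (inv φ z) := by
    intro z hz
    simp only [hgD]
    rw [← h.omg_chart hφ hb hz]
    unfold eps
    have h1 := h.abs_sden hφ hz
    have h2 : sden φ f N z * sden φ f N z = areaDensity φ f z * areaDensity φ f z := by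
      rw [← h1]; exact (abs_mul_abs_self _).symm
    have h3 := (h.area_pos hφ hz).ne'
    field_simp
    linear_combination (omg f N b (inv φ z)) * h2
  have homgc : ContinuousOn (omg f N b) φ.source := by
    have h1 : ContinuousOn (fun z => (⟪cd φ b z e0, cd φ f z e1⟫_ℝ - ⟪cd φ b z e1, cd φ f z e0⟫_ℝ)
        / sden φ f N z) (tgt φ) :=
      (((cb.clm_apply continuousOn_const).inner (cf.clm_apply continuousOn_const)).sub
      ((cb.clm_apply continuousOn_const).inner (cf.clm_apply continuousOn_const))).div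
      (h.continuousOn_sden hφ) (fun z hz => h.sden_ne hφ hz)
    have h2 : ContinuousOn (fun m => (fun z => (⟪cd φ b z e0, cd φ f z e1⟫_ℝ -
        ⟪cd φ b z e1, cd φ f z e0⟫_ℝ) / sden φ f N z) (φ.extend (𝓡∂ 2) m)) φ.source :=
      h1.comp continuousOn_ext (fun m hm => ext_mem hm)
    refine h2.congr ?_
    intro m hm
    have h3 := h.omg_chart hφ hb (ext_mem hm)
    rw [inv_ext hm] at h3
    simp only
    rw [← h3, mul_div_assoc, div_self (h.sden_ne hφ (ext_mem hm)), mul_one]
  obtain ⟨hi1, hi2⟩ := integral_source hφ h.f1 hμ homgc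
  have hoff' : ∀ m, m ∉ φ.source → omg f N b m = 0 := fun m hm =>
    omg_zero hb (fun hmb => hm (hsupp hmb))
  have hgDi : IntegrableOn (fun z => areaDensity φ f z * omg f N b (inv φ z)) (tgt φ) := by
    have h1 : IntegrableOn ((tgt φ).indicator gD) (tgt φ) := hDint.mono_set tgt_subset
    refine h1.congr_fun ?_ measurableSet_tgt
    intro z hz
    rw [indicator_of_mem hz]
    exact hgDomg z hz
  have hint : Integrable (omg f N b) μ := by
    have h1 : IntegrableOn (omg f N b) φ.source μ := hi1.mpr hgDi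
    rw [← integrableOn_univ]
    apply h1.of_forall_sdiff_eq_zero MeasurableSet.univ
    intro m hm
    exact hoff' m hm.2
  refine ⟨hint, hPint, ?_⟩
  rw [← setIntegral_eq_integral_of_forall_compl_eq_zero (s := φ.source) hoff', hi2]
  have h1 : ∫ z in tgt φ, areaDensity φ f z * omg f N b (inv φ z) = ∫ z in tgt φ, gD z :=
    setIntegral_congr_fun measurableSet_tgt (fun z hz => (hgDomg z hz).symm)
  have h2 : ∫ z in HP, (tgt φ).indicator gD z = ∫ z in tgt φ, gD z := by
    rw [setIntegral_indicator measurableSet_tgt, inter_eq_self_of_subset_right tgt_subset]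
  rw [h1, ← h2, hStokes]
  rfl

end Pool.Agent.Helper608
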