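import Pool.Agent.Helper608.MonoArea

open Set MeasureTheory Filter Topology
open scoped Manifold ContDiff InnerProductSpace

set_option linter.unusedSectionVars false

namespace Pool.Agent.Helper608

section frame
variable (α β : ℝ)

noncomputable def pr (i : Fin 3) : E3 →L[ℝ] ℝ := EuclideanSpace.proj i
@[simp] lemma pr_apply (i : Fin 3) (x : E3) : pr i x = x i := rfl

noncomputable def L1 : E3 →L[ℝ] ℝ := α • pr 0 + β • pr 1
noncomputable def L2 : E3 →L[ℝ] ℝ := (-β) • pr 0 + α • pr 1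
noncomputable def L3 : E3 →L[ℝ] ℝ := pr 2
noncomputable def uu : E3 := !₂[α, β, 0]
noncomputable def vv : E3 := !₂[-β, α, 0]
noncomputable def kk : E3 := !₂[0, 0, 1]

@[simp] lemma L1_apply (x : E3) : L1 α β x = α * x 0 + β * x 1 := by simp [L1]
@[simp] lemma L2_apply (x : E3) : L2 α β x = -β * x 0 + α * x 1 := by simp [L2]
@[simp] lemma L3_apply (x : E3) : L3 x = x 2 := rfl
@[simp] lemma uu0 : uu α β 0 = α := rfl
@[simp] lemma uu1 : uu α β 1 = β := rfl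
@[simp] lemma uu2 : uu α β 2 = 0 := rfl
@[simp] lemma vv0 : vv α β 0 = -β := rfl
@[simp] lemma vv1 : vv α β 1 = α := rfl
@[simp] lemma vv2 : vv α β 2 = 0 := rfl
@[simp] lemma kk0 : kk 0 = 0 := rfl
@[simp] lemma kk1 : kk 1 = 0 := rfl
@[simp] lemma kk2 : kk 2 = 1 := rfl

variable {α β}
lemma norm_uu (h : α ^ 2 + β ^ 2 = 1) : ‖uu α β‖ = 1 := by
  have : ‖uu α β‖ ^ 2 = 1 := by rw [normsq3]; simp [h]
  nlinarith [norm_nonneg (uu α β)]
lemma norm_vv (h : α ^ 2 + β ^ 2 = 1) : ‖vv α β‖ = 1 := by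
  have : ‖vv α β‖ ^ 2 = 1 := by rw [normsq3]; simp; linarith
  nlinarith [norm_nonneg (vv α β)]
lemma norm_kk : ‖kk‖ = 1 := by
  have : ‖kk‖ ^ 2 = 1 := by rw [normsq3]; simp
  nlinarith [norm_nonneg kk]

lemma abs_L1_le (h : α ^ 2 + β ^ 2 = 1) (x : E3) : |L1 α β x| ≤ ‖x‖ := by
  apply abs_le_of_sq_le_sq _ (norm_nonneg _)
  rw [normsq3, L1_apply]
  nlinarith [sq_nonneg (α * x 1 - β * x 0), sq_nonneg (x 2)]
lemma abs_L2_le (h : α ^ 2 + β ^ 2 = 1) (x : E3) : |L2 α β x| ≤ ‖x‖ := by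
  apply abs_le_of_sq_le_sq _ (norm_nonneg _)
  rw [normsq3, L2_apply]
  nlinarith [sq_nonneg (α * x 0 + β * x 1), sq_nonneg (x 2)]

end frame

variable {M : Type*} [TopologicalSpace M] [CompactSpace M] [MeasurableSpace M] [BorelSpace M]
  {μ : Measure M} [IsFiniteMeasure μ] {f N : M → E3} {H : ℝ} {bd : Set M} {Γ : Set E3} {Λ : ℝ}
  {γ₁ γ₂ : ℝ → E3} {σ₁ σ₂ : ℝ}

lemma int_add {a b : M → ℝ} (ha : Continuous a) (hb : Continuous b) :
    ∫ m, (a m + b m) ∂μ = ∫ m, a m ∂μ + ∫ m, b m ∂μ :=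
  integral_add (integrable_of_cont ha) (integrable_of_cont hb)

omit [CompactSpace M] [MeasurableSpace M] [BorelSpace M] in
lemma cadd {a b : M → ℝ} (ha : Continuous a) (hb : Continuous b) :
    Continuous (fun m => a m + b m) := ha.add hb

omit [CompactSpace M] [MeasurableSpace M] [BorelSpace M] in
lemma cmulc {a : M → ℝ} (r : ℝ) (ha : Continuous a) :
    Continuous (fun m => r * a m) := continuous_const.mul ha

lemma int_sub {a b : M → ℝ} (ha : Continuous a) (hb : Continuous b) :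
    ∫ m, (a m - b m) ∂μ = ∫ m, a m ∂μ - ∫ m, b m ∂μ :=
  integral_sub (integrable_of_cont ha) (integrable_of_cont hb)

omit [CompactSpace M] [MeasurableSpace M] [BorelSpace M] [TopologicalSpace M] in
lemma fvInt_of_hasFDerivAt {F : E3 → ℝ} {L : E3 →L[ℝ] ℝ} {m : M} (h : HasFDerivAt F L (f m))
    (e : E3) : fvInt f N H F e m =
      L e - ⟪N m, e⟫_ℝ * L (N m) + 2 * H * F (f m) * ⟪N m, e⟫_ℝ := by
  unfold fvInt; rw [h.fderiv]

/-- Basic geometric data of the boundary curves, in the adapted frame. -/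
structure BdData (α β c δ R Λ : ℝ) (Γ : Set E3) (γ₁ γ₂ : ℝ → E3) (a₁ a₂ b₁ b₂ : ℝ) : Prop where
  unit : α ^ 2 + β ^ 2 = 1
  hδ : 0 < δ
  hR : 0 ≤ R
  hΛ : 0 ≤ Λ
  x3 : ∀ x ∈ Γ, x 2 = 0
  x1 : ∀ x ∈ Γ, |L1 α β x - c| ≤ R
  x2 : ∀ x ∈ Γ, |L2 α β x| ≤ R
  gap : ∀ x ∈ Γ, δ ≤ |L1 α β x - c|
  ha₁ : ∫ t in (0:ℝ)..1, (L1 α β (γ₁ t) - c) * ⟪vv α β, deriv γ₁ t⟫_ℝ = a₁
  ha₂ : ∫ t in (0:ℝ)..1, (L1 α β (γ₂ t) - c) * ⟪vv α β, deriv γ₂ t⟫_ℝ = a₂
  hb₁ : ∫ t in (0:ℝ)..1, (-((L1 α β (γ₁ t) - c) ^ 2 + (γ₁ t 2) ^ 2) / 2) *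
    ⟪vv α β, deriv γ₁ t⟫_ℝ = b₁
  hb₂ : ∫ t in (0:ℝ)..1, (-((L1 α β (γ₂ t) - c) ^ 2 + (γ₂ t 2) ^ 2) / 2) *
    ⟪vv α β, deriv γ₂ t⟫_ℝ = b₂
  sign₁ : 0 < a₁ * b₁
  sign₂ : a₂ * b₂ < 0

section
variable {α β c δ R : ℝ} {a₁ a₂ b₁ b₂ : ℝ}

/-- `∫ N₃` -/
lemma st_area (S : FluxSys μ f N H bd Γ Λ γ₁ γ₂ σ₁ σ₂)
    (G : BdData α β c δ R Λ Γ γ₁ γ₂ a₁ a₂ b₁ b₂) :
    ∫ m, N m 2 ∂μ = σ₁ * a₁ + σ₂ * a₂ := by
  have hF : ∀ x, HasFDerivAt (fun x : E3 => L1 α β x - c) (L1 α β) x := fun x =>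
    (L1 α β).hasFDerivAt.sub_const c
  have hC : ContDiff ℝ 1 (fun x : E3 => L1 α β x - c) :=
    (L1 α β).contDiff.sub contDiff_const
  have h := S.st _ hC (vv α β)
  rw [G.ha₁, G.ha₂] at h
  rw [← h]
  congr 1
  ext m
  rw [(hF (f m)).fderiv]
  simp
  linear_combination (-(N m 2)) * G.unit

/-- `∫ (x₃ N₁ - x₁ N₃)` -/
lemma st_moment (S : FluxSys μ f N H bd Γ Λ γ₁ γ₂ σ₁ σ₂)
    (G : BdData α β c δ R Λ Γ γ₁ γ₂ a₁ a₂ b₁ b₂) :
    ∫ m, (f m 2 * L1 α β (N m) - (L1 α β (f m) - c) * N m 2) ∂μ = σ₁ * b₁ + σ₂ * b₂ := by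
  have hF : ∀ x, HasFDerivAt (fun x : E3 => -((L1 α β x - c) ^ 2 + (x 2) ^ 2) / 2)
      (-((L1 α β x - c) • L1 α β + (x 2) • L3)) x := by
    intro x
    have h1 : HasFDerivAt (fun x : E3 => L1 α β x - c) (L1 α β) x :=
      (L1 α β).hasFDerivAt.sub_const c
    have h2 : HasFDerivAt (fun x : E3 => x 2) L3 x := hasFDerivAt_coord 2 x
    have h3 := ((h1.pow 2).add (h2.pow 2)).neg.mul_const (1/2 : ℝ)
    have e : (fun x : E3 => -((L1 α β x - c) ^ 2 + (x 2) ^ 2) / 2) =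
      fun x => (-((fun x : E3 => L1 α β x - c) ^ 2 + (fun x : E3 => x 2) ^ 2)) x * (1/2) := by
      ext x; simp; ring
    rw [e]
    refine h3.congr_fderiv ?_
    ext w
    simp
    ring
  have hC : ContDiff ℝ 1 (fun x : E3 => -((L1 α β x - c) ^ 2 + (x 2) ^ 2) / 2) := by
    have h1 : ContDiff ℝ 1 (fun x : E3 => L1 α β x - c) :=
      (L1 α β).contDiff.sub contDiff_const
    have h2 : ContDiff ℝ 1 (fun x : E3 => x 2) := L3.contDiff
    exact ((h1.pow 2).add (h2.pow 2)).neg.div_const 2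
  have h := S.st _ hC (vv α β)
  rw [G.hb₁, G.hb₂] at h
  rw [← h]
  congr 1
  ext m
  rw [(hF (f m)).fderiv]
  simp
  linear_combination ((α * f m 0 + β * f m 1 - c) * (N m 2)) * G.unit

lemma st_n1 (S : FluxSys μ f N H bd Γ Λ γ₁ γ₂ σ₁ σ₂)
    (G : BdData α β c δ R Λ Γ γ₁ γ₂ a₁ a₂ b₁ b₂)
    (hγ₁ : ∀ t, γ₁ t ∈ Γ) (hγ₂ : ∀ t, γ₂ t ∈ Γ) :
    ∫ m, L1 α β (N m) ∂μ = 0 := by
  have hF : ∀ x, HasFDerivAt (fun x : E3 => x 2) L3 x := hasFDerivAt_coord 2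
  have hC : ContDiff ℝ 1 (fun x : E3 => x 2) := L3.contDiff
  have h := S.st _ hC (vv α β)
  simp only [G.x3 _ (hγ₁ _), G.x3 _ (hγ₂ _)] at h
  simp only [zero_mul, intervalIntegral.integral_zero, mul_zero, add_zero] at h
  rw [← neg_eq_zero, ← integral_neg, ← h]
  congr 1
  ext m
  rw [(hF (f m)).fderiv]
  simp
  ring

lemma st_x1 (S : FluxSys μ f N H bd Γ Λ γ₁ γ₂ σ₁ σ₂)
    (G : BdData α β c δ R Λ Γ γ₁ γ₂ a₁ a₂ b₁ b₂)
    (hγ₁ : ∀ t, γ₁ t ∈ Γ) (hγ₂ : ∀ t, γ₂ t ∈ Γ) :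
    ∫ m, (L1 α β (f m) - c) * L1 α β (N m) ∂μ = ∫ m, f m 2 * N m 2 ∂μ := by
  have hf := S.cont_f
  have hN := S.cont_N
  have hfi : ∀ i, Continuous fun m => f m i := fun i => (pr i).continuous.comp hf
  have hNi : ∀ i, Continuous fun m => N m i := fun i => (pr i).continuous.comp hN
  have hF : ∀ x, HasFDerivAt (fun x : E3 => -((L1 α β x - c) * x 2))
      (-((L1 α β x - c) • L3 + (x 2) • L1 α β)) x := fun x =>
    ((L1 α β).hasFDerivAt.sub_const c |>.mul (hasFDerivAt_coord 2 x)).neg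
  have hC : ContDiff ℝ 1 (fun x : E3 => -((L1 α β x - c) * x 2)) :=
    (((L1 α β).contDiff.sub contDiff_const).mul L3.contDiff).neg
  have h := S.st _ hC (vv α β)
  simp only [G.x3 _ (hγ₁ _), G.x3 _ (hγ₂ _)] at h
  simp only [zero_mul, mul_zero, neg_zero, intervalIntegral.integral_zero, add_zero] at h
  have c1 : Continuous fun m => (L1 α β (f m) - c) * L1 α β (N m) :=
    (((L1 α β).continuous.comp hf).sub continuous_const).mul ((L1 α β).continuous.comp hN)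
  have c2 : Continuous fun m => f m 2 * N m 2 := (hfi 2).mul (hNi 2)
  rw [← sub_eq_zero, ← int_sub c1 c2, ← h]
  congr 1
  ext m
  rw [(hF (f m)).fderiv]
  simp
  linear_combination (f m 2 * N m 2) * G.unit

lemma st_x2 (S : FluxSys μ f N H bd Γ Λ γ₁ γ₂ σ₁ σ₂)
    (G : BdData α β c δ R Λ Γ γ₁ γ₂ a₁ a₂ b₁ b₂)
    (hγ₁ : ∀ t, γ₁ t ∈ Γ) (hγ₂ : ∀ t, γ₂ t ∈ Γ) :
    ∫ m, L2 α β (f m) * L2 α β (N m) ∂μ = ∫ m, f m 2 * N m 2 ∂μ := by
  have hf := S.cont_f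
  have hN := S.cont_N
  have hfi : ∀ i, Continuous fun m => f m i := fun i => (pr i).continuous.comp hf
  have hNi : ∀ i, Continuous fun m => N m i := fun i => (pr i).continuous.comp hN
  have hF : ∀ x, HasFDerivAt (fun x : E3 => L2 α β x * x 2)
      (L2 α β x • L3 + (x 2) • L2 α β) x := fun x =>
    (L2 α β).hasFDerivAt.mul (hasFDerivAt_coord 2 x)
  have hC : ContDiff ℝ 1 (fun x : E3 => L2 α β x * x 2) :=
    (L2 α β).contDiff.mul L3.contDiff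
  have h := S.st _ hC (uu α β)
  simp only [G.x3 _ (hγ₁ _), G.x3 _ (hγ₂ _)] at h
  simp only [zero_mul, mul_zero, intervalIntegral.integral_zero, add_zero] at h
  have c1 : Continuous fun m => L2 α β (f m) * L2 α β (N m) :=
    ((L2 α β).continuous.comp hf).mul ((L2 α β).continuous.comp hN)
  have c2 : Continuous fun m => f m 2 * N m 2 := (hfi 2).mul (hNi 2)
  rw [← sub_eq_zero, ← int_sub c1 c2, ← h]
  congr 1
  ext m
  rw [(hF (f m)).fderiv]
  simp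
  linear_combination (f m 2 * N m 2) * G.unit

/-- the algebraic volume in terms of the height alone -/
lemma st_volume (S : FluxSys μ f N H bd Γ Λ γ₁ γ₂ σ₁ σ₂)
    (G : BdData α β c δ R Λ Γ γ₁ γ₂ a₁ a₂ b₁ b₂)
    (hγ₁ : ∀ t, γ₁ t ∈ Γ) (hγ₂ : ∀ t, γ₂ t ∈ Γ) :
    ∫ m, ⟪f m, N m⟫_ℝ ∂μ = 3 * ∫ m, f m 2 * N m 2 ∂μ := by
  have hf := S.cont_f
  have hN := S.cont_N
  have hfi : ∀ i, Continuous fun m => f m i := fun i => (pr i).continuous.comp hf
  have hNi : ∀ i, Continuous fun m => N m i := fun i => (pr i).continuous.comp hN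
  have c1 : Continuous fun m => (L1 α β (f m) - c) * L1 α β (N m) :=
    (((L1 α β).continuous.comp hf).sub continuous_const).mul ((L1 α β).continuous.comp hN)
  have c2 : Continuous fun m => L2 α β (f m) * L2 α β (N m) :=
    ((L2 α β).continuous.comp hf).mul ((L2 α β).continuous.comp hN)
  have c3 : Continuous fun m => f m 2 * N m 2 := (hfi 2).mul (hNi 2)
  have c4 : Continuous fun m => c * L1 α β (N m) :=
    continuous_const.mul ((L1 α β).continuous.comp hN)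
  have e : (fun m => ⟪f m, N m⟫_ℝ) = fun m => (((L1 α β (f m) - c) * L1 α β (N m) +
      L2 α β (f m) * L2 α β (N m)) + f m 2 * N m 2) + c * L1 α β (N m) := by
    ext m
    rw [inner3]
    simp
    linear_combination (-(f m 0 * N m 0 + f m 1 * N m 1)) * G.unit
  rw [e, int_add (cadd (cadd c1 c2) c3) c4, int_add (cadd c1 c2) c3, int_add c1 c2,
    integral_const_mul, st_n1 S G hγ₁ hγ₂, st_x1 S G hγ₁ hγ₂, st_x2 S G hγ₁ hγ₂]
  ring

/-- flux formula for vertical translations -/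
lemma fv_area (S : FluxSys μ f N H bd Γ Λ γ₁ γ₂ σ₁ σ₂) :
    |2 * H * ∫ m, N m 2 ∂μ| ≤ Λ := by
  have h := S.fv (fun _ => (1:ℝ)) contDiff_const kk 1 (by
    intro x _; rw [norm_kk]; simp)
  have h1 : Λ * 1 = Λ := mul_one Λ
  rw [h1] at h
  refine le_trans (le_of_eq ?_) h
  congr 1
  rw [← integral_const_mul]
  congr 1
  ext m
  rw [inner3]
  simp

/-- flux formula for a rotation -/
lemma fv_moment (S : FluxSys μ f N H bd Γ Λ γ₁ γ₂ σ₁ σ₂)
    (G : BdData α β c δ R Λ Γ γ₁ γ₂ a₁ a₂ b₁ b₂) :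
    |2 * H * ∫ m, (f m 2 * L1 α β (N m) - (L1 α β (f m) - c) * N m 2) ∂μ| ≤ Λ * R := by
  have hf := S.cont_f
  have hN := S.cont_N
  have hC1 : ContDiff ℝ 1 (fun x : E3 => x 2) := L3.contDiff
  have hC2 : ContDiff ℝ 1 (fun x : E3 => -(L1 α β x - c)) :=
    ((L1 α β).contDiff.sub contDiff_const).neg
  have h1 : ∫ m, fvInt f N H (fun x : E3 => x 2) (uu α β) m ∂μ = 0 :=
    S.fv_zero hC1 _ G.x3
  have h2 := S.fv (fun x : E3 => -(L1 α β x - c)) hC2 kk R (by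
    intro x hx; rw [norm_kk, abs_neg, mul_one]; exact G.x1 x hx)
  refine le_trans (le_of_eq ?_) h2
  have e : ∫ m, fvInt f N H (fun x : E3 => -(L1 α β x - c)) kk m ∂μ =
    2 * H * ∫ m, (f m 2 * L1 α β (N m) - (L1 α β (f m) - c) * N m 2) ∂μ := by
    have : ∫ m, fvInt f N H (fun x : E3 => -(L1 α β x - c)) kk m ∂μ =
        ∫ m, fvInt f N H (fun x : E3 => x 2) (uu α β) m ∂μ +
        ∫ m, fvInt f N H (fun x : E3 => -(L1 α β x - c)) kk m ∂μ := by rw [h1, zero_add]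
    rw [this, ← int_add (continuous_fvInt hf hN hC1 _)
      (continuous_fvInt hf hN hC2 _), ← integral_const_mul]
    congr 1
    ext m
    have d1 : HasFDerivAt (fun x : E3 => x 2) L3 (f m) := hasFDerivAt_coord 2 _
    have d2 : HasFDerivAt (fun x : E3 => -(L1 α β x - c)) (-(L1 α β)) (f m) :=
      ((L1 α β).hasFDerivAt.sub_const c).neg
    rw [fvInt_of_hasFDerivAt d1, fvInt_of_hasFDerivAt d2, inner3, inner3]
    simp
    ring
  rw [← e]
  rfl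

/-- the tilt identity -/
lemma fv_tilt (S : FluxSys μ f N H bd Γ Λ γ₁ γ₂ σ₁ σ₂)
    (G : BdData α β c δ R Λ Γ γ₁ γ₂ a₁ a₂ b₁ b₂) :
    ∫ m, (1 - (N m 2) ^ 2) ∂μ = -(2 * H * ∫ m, f m 2 * N m 2 ∂μ) := by
  have hf := S.cont_f
  have hN := S.cont_N
  have hfi : ∀ i, Continuous fun m => f m i := fun i => (pr i).continuous.comp hf
  have hNi : ∀ i, Continuous fun m => N m i := fun i => (pr i).continuous.comp hN
  have hC1 : ContDiff ℝ 1 (fun x : E3 => x 2) := L3.contDiff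
  have h1 : ∫ m, fvInt f N H (fun x : E3 => x 2) kk m ∂μ = 0 :=
    S.fv_zero hC1 _ G.x3
  have e : (fun m => fvInt f N H (fun x : E3 => x 2) kk m) =
      fun m => (1 - (N m 2) ^ 2) + 2 * H * (f m 2 * N m 2) := by
    ext m
    have d1 : HasFDerivAt (fun x : E3 => x 2) L3 (f m) := hasFDerivAt_coord 2 _
    rw [fvInt_of_hasFDerivAt d1, inner3]
    simp
    ring
  have c1 : Continuous fun m => 1 - (N m 2) ^ 2 := continuous_const.sub ((hNi 2).pow 2)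
  have c2 : Continuous fun m => 2 * H * (f m 2 * N m 2) :=
    continuous_const.mul ((hfi 2).mul (hNi 2))
  rw [e, int_add c1 c2, integral_const_mul] at h1
  linarith

/-- the area formula -/
lemma fv_total (S : FluxSys μ f N H bd Γ Λ γ₁ γ₂ σ₁ σ₂)
    (G : BdData α β c δ R Λ Γ γ₁ γ₂ a₁ a₂ b₁ b₂)
    (hγ₁ : ∀ t, γ₁ t ∈ Γ) (hγ₂ : ∀ t, γ₂ t ∈ Γ) :
    |2 * μ.real univ + 6 * H * ∫ m, f m 2 * N m 2 ∂μ| ≤ 2 * (Λ * R) := by
  have hf := S.cont_f
  have hN := S.cont_N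
  have hfi : ∀ i, Continuous fun m => f m i := fun i => (pr i).continuous.comp hf
  have hNi : ∀ i, Continuous fun m => N m i := fun i => (pr i).continuous.comp hN
  have hC1 : ContDiff ℝ 1 (fun x : E3 => L1 α β x - c) :=
    (L1 α β).contDiff.sub contDiff_const
  have hC2 : ContDiff ℝ 1 (fun x : E3 => L2 α β x) := (L2 α β).contDiff
  have hC3 : ContDiff ℝ 1 (fun x : E3 => x 2) := L3.contDiff
  have h1 := S.fv (fun x : E3 => L1 α β x - c) hC1 (uu α β) R (by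
    intro x hx; rw [norm_uu G.unit, mul_one]; exact G.x1 x hx)
  have h2 := S.fv (fun x : E3 => L2 α β x) hC2 (vv α β) R (by
    intro x hx; rw [norm_vv G.unit, mul_one]; exact G.x2 x hx)
  have h3 : ∫ m, fvInt f N H (fun x : E3 => x 2) kk m ∂μ = 0 :=
    S.fv_zero hC3 _ G.x3
  change |∫ m, fvInt f N H (fun x : E3 => L1 α β x - c) (uu α β) m ∂μ| ≤ _ at h1
  change |∫ m, fvInt f N H (fun x : E3 => L2 α β x) (vv α β) m ∂μ| ≤ _ at h2
  have c1 : Continuous fun m => (L1 α β (f m) - c) * L1 α β (N m) :=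
    (((L1 α β).continuous.comp hf).sub continuous_const).mul ((L1 α β).continuous.comp hN)
  have c2 : Continuous fun m => L2 α β (f m) * L2 α β (N m) :=
    ((L2 α β).continuous.comp hf).mul ((L2 α β).continuous.comp hN)
  have c3 : Continuous fun m => f m 2 * N m 2 := (hfi 2).mul (hNi 2)
  have e : ∫ m, fvInt f N H (fun x : E3 => L1 α β x - c) (uu α β) m ∂μ +
      ∫ m, fvInt f N H (fun x : E3 => L2 α β x) (vv α β) m ∂μ +
      ∫ m, fvInt f N H (fun x : E3 => x 2) kk m ∂μ =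
      2 * μ.real univ + 6 * H * ∫ m, f m 2 * N m 2 ∂μ := by
    rw [← int_add (continuous_fvInt hf hN hC1 _) (continuous_fvInt hf hN hC2 _),
      ← int_add (cadd (continuous_fvInt hf hN hC1 _) (continuous_fvInt hf hN hC2 _))
        (continuous_fvInt hf hN hC3 _)]
    have e1 : (fun m => fvInt f N H (fun x : E3 => L1 α β x - c) (uu α β) m +
        fvInt f N H (fun x : E3 => L2 α β x) (vv α β) m +
        fvInt f N H (fun x : E3 => x 2) kk m) =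
        fun m => 2 + (2 * H) * (((L1 α β (f m) - c) * L1 α β (N m) +
          L2 α β (f m) * L2 α β (N m)) + f m 2 * N m 2) := by
      ext m
      have d1 : HasFDerivAt (fun x : E3 => L1 α β x - c) (L1 α β) (f m) :=
        (L1 α β).hasFDerivAt.sub_const c
      have d2 : HasFDerivAt (fun x : E3 => L2 α β x) (L2 α β) (f m) := (L2 α β).hasFDerivAt
      have d3 : HasFDerivAt (fun x : E3 => x 2) L3 (f m) := hasFDerivAt_coord 2 _
      have hNsq : N m 0 ^ 2 + N m 1 ^ 2 + N m 2 ^ 2 = 1 := by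
        rw [← normsq3, S.norm_N m]; norm_num
      rw [fvInt_of_hasFDerivAt d1, fvInt_of_hasFDerivAt d2, fvInt_of_hasFDerivAt d3,
        inner3, inner3, inner3]
      simp
      linear_combination (2 - N m 0 ^ 2 - N m 1 ^ 2) * G.unit - hNsq
    rw [e1, int_add continuous_const (cmulc _ (cadd (cadd c1 c2) c3)),
      integral_const_mul, int_add (cadd c1 c2) c3, int_add c1 c2, st_x1 S G hγ₁ hγ₂,
      st_x2 S G hγ₁ hγ₂, integral_const]
    simp
    ring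
  rw [← e, h3, add_zero]
  refine (abs_add_le _ _).trans ?_
  linarith

end

end Pool.Agent.Helper608
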