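import Pool.Agent.Helper608.Core1

open Set MeasureTheory Filter Topology
open scoped Manifold ContDiff InnerProductSpace

set_option linter.unusedSectionVars false

namespace Pool.Agent.Helper608

/-- cut-off in the separating direction -/
noncomputable def chi (δ y : ℝ) : ℝ := pps (1 - y ^ 2 / δ ^ 2)
noncomputable def dchi (δ y : ℝ) : ℝ := 2 * max 0 (1 - y ^ 2 / δ ^ 2) * (-(2 * y / δ ^ 2))

lemma hasDerivAt_chi (δ y : ℝ) : HasDerivAt (chi δ) (dchi δ y) y := by
  have h1 : HasDerivAt (fun y : ℝ => 1 - y ^ 2 / δ ^ 2) (-(2 * y / δ ^ 2)) y := by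
    have := ((hasDerivAt_pow 2 y).div_const (δ ^ 2)).const_sub 1
    simpa using this
  exact HasDerivAt.comp (h₂ := pps) y (hasDerivAt_pps _) h1

lemma continuous_dchi (δ : ℝ) : Continuous (dchi δ) := by
  unfold dchi; fun_prop

lemma chi_nonneg (δ y : ℝ) : 0 ≤ chi δ y := pps_nonneg _

lemma chi_le_one {δ : ℝ} (y : ℝ) : chi δ y ≤ 1 := by
  unfold chi
  rcases le_total 0 (1 - y ^ 2 / δ ^ 2) with h | h
  · rw [pps_of_nonneg h]
    have : 0 ≤ y ^ 2 / δ ^ 2 := by positivity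
    nlinarith
  · rw [pps_of_nonpos h]; norm_num

lemma chi_zero {δ y : ℝ} (hδ : 0 < δ) (h : δ ≤ |y|) : chi δ y = 0 := by
  unfold chi
  apply pps_of_nonpos
  rw [sub_nonpos, le_div_iff₀ (by positivity), one_mul, ← sq_abs y]
  nlinarith [abs_nonneg y]

lemma chi_half {δ y : ℝ} (hδ : 0 < δ) (h : |y| ≤ δ / 2) : 1 / 2 ≤ chi δ y := by
  unfold chi
  have h1 : y ^ 2 / δ ^ 2 ≤ 1 / 4 := by
    rw [div_le_div_iff₀ (by positivity) (by norm_num), ← sq_abs y]
    nlinarith [abs_nonneg y]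
  rw [pps_of_nonneg (by linarith)]
  nlinarith

lemma abs_dchi_le {δ : ℝ} (hδ : 0 < δ) (y : ℝ) : |dchi δ y| ≤ 4 / δ := by
  unfold dchi
  rcases le_total δ |y| with h | h
  · have : 1 - y ^ 2 / δ ^ 2 ≤ 0 := by
      rw [sub_nonpos, le_div_iff₀ (by positivity), one_mul, ← sq_abs y]
      nlinarith [abs_nonneg y]
    rw [max_eq_left this]
    simp
    positivity
  · have h1 : 0 ≤ 1 - y ^ 2 / δ ^ 2 := by
      rw [sub_nonneg, div_le_iff₀ (by positivity), one_mul, ← sq_abs y]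
      nlinarith [abs_nonneg y]
    have h2 : 1 - y ^ 2 / δ ^ 2 ≤ 1 := by
      have : 0 ≤ y ^ 2 / δ ^ 2 := by positivity
      linarith
    rw [max_eq_right h1, abs_mul, abs_mul, abs_neg, abs_div, abs_mul, abs_of_nonneg h1]
    have e : |δ ^ 2| = δ ^ 2 := abs_of_pos (by positivity)
    rw [e]
    have e2 : |(2:ℝ)| = 2 := abs_of_pos (by norm_num)
    rw [e2]
    have h3 : 2 * |y| / δ ^ 2 ≤ 2 / δ := by
      rw [div_le_div_iff₀ (by positivity) hδ]; nlinarith
    have h4 : 0 ≤ 2 * |y| / δ ^ 2 := by positivity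
    calc 2 * (1 - y ^ 2 / δ ^ 2) * (2 * |y| / δ ^ 2) ≤ 2 * 1 * (2 / δ) := by
          apply mul_le_mul _ h3 h4 (by norm_num)
          linarith
      _ = 4 / δ := by ring

/-- bounded one-sided profile -/
noncomputable def hh (t : ℝ) : ℝ := pps t / (1 + pps t)
noncomputable def dhh (t : ℝ) : ℝ := 2 * max 0 t / (1 + pps t) ^ 2

lemma one_add_pps_pos (t : ℝ) : 0 < 1 + pps t := by linarith [pps_nonneg t]

lemma hasDerivAt_hh (t : ℝ) : HasDerivAt hh (dhh t) t := by
  have h1 := (hasDerivAt_pps t).div ((hasDerivAt_pps t).const_add 1) (one_add_pps_pos t).ne'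
  refine HasDerivAt.congr_deriv (f := hh) h1 ?_
  unfold dhh
  congr 1
  ring

lemma continuous_pps : Continuous pps := contDiff_pps.continuous

lemma continuous_dhh : Continuous dhh := by
  unfold dhh
  apply Continuous.div
  · fun_prop
  · exact (continuous_const.add continuous_pps).pow 2
  · intro t; exact (pow_pos (one_add_pps_pos t) 2).ne'

lemma hh_nonneg (t : ℝ) : 0 ≤ hh t := div_nonneg (pps_nonneg t) (one_add_pps_pos t).le
lemma hh_le_one (t : ℝ) : hh t ≤ 1 := by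
  unfold hh; rw [div_le_one (one_add_pps_pos t)]; linarith
lemma hh_zero {t : ℝ} (h : t ≤ 0) : hh t = 0 := by simp [hh, pps_of_nonpos h]
lemma dhh_nonneg (t : ℝ) : 0 ≤ dhh t := by
  unfold dhh; have := le_max_left 0 t; positivity
lemma dhh_le_one (t : ℝ) : dhh t ≤ 1 := by
  unfold dhh
  rw [div_le_one (pow_pos (one_add_pps_pos t) 2)]
  rcases le_total 0 t with h | h
  · rw [max_eq_right h, pps_of_nonneg h]
    nlinarith [sq_nonneg (t - 1), sq_nonneg t, sq_nonneg (t ^ 2)]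
  · rw [max_eq_left h, pps_of_nonpos h]; norm_num
lemma dhh_lower {t : ℝ} (h1 : 1 / 2 ≤ t) (h2 : t ≤ 3 / 2) : 1 / 11 ≤ dhh t := by
  unfold dhh
  rw [max_eq_right (by linarith), pps_of_nonneg (by linarith),
    div_le_div_iff₀ (by norm_num) (by positivity)]
  have : t ^ 2 ≤ 9 / 4 := by nlinarith
  nlinarith [sq_nonneg t]

noncomputable def gg (R y : ℝ) : ℝ := hh (y - R) - hh (-y - R)
noncomputable def dgg (R y : ℝ) : ℝ := dhh (y - R) + dhh (-y - R)

lemma hasDerivAt_gg (R y : ℝ) : HasDerivAt (gg R) (dgg R y) y := by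
  have h1 : HasDerivAt (fun y : ℝ => hh (y - R)) (dhh (y - R) * 1) y :=
    HasDerivAt.comp (h₂ := hh) y (hasDerivAt_hh _) ((hasDerivAt_id y).sub_const R)
  have h2 : HasDerivAt (fun y : ℝ => hh (-y - R)) (dhh (-y - R) * (-1)) y :=
    HasDerivAt.comp (h₂ := hh) y (hasDerivAt_hh _) ((hasDerivAt_neg y).sub_const R)
  refine HasDerivAt.congr_deriv (f := gg R) (h1.sub h2) ?_
  unfold dgg; ring

lemma continuous_dgg (R : ℝ) : Continuous (dgg R) := by
  unfold dgg
  exact (continuous_dhh.comp (by fun_prop)).add (continuous_dhh.comp (by fun_prop))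

lemma abs_gg_le (R y : ℝ) : |gg R y| ≤ 1 := by
  unfold gg
  rw [abs_le]
  constructor <;> linarith [hh_nonneg (y - R), hh_nonneg (-y - R), hh_le_one (y - R),
    hh_le_one (-y - R)]
lemma gg_zero {R y : ℝ} (h : |y| ≤ R) : gg R y = 0 := by
  have := abs_le.mp h
  unfold gg
  rw [hh_zero (by linarith), hh_zero (by linarith)]; simp
lemma dgg_nonneg (R y : ℝ) : 0 ≤ dgg R y := add_nonneg (dhh_nonneg _) (dhh_nonneg _)
lemma dgg_le_two (R y : ℝ) : dgg R y ≤ 2 := by
  unfold dgg; linarith [dhh_le_one (y - R), dhh_le_one (-y - R)]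
lemma dgg_lower {R y : ℝ} (h1 : R + 1 / 2 ≤ |y|) (h2 : |y| ≤ R + 3 / 2) : 1 / 11 ≤ dgg R y := by
  unfold dgg
  rcases le_total 0 y with h | h
  · rw [abs_of_nonneg h] at h1 h2
    have := dhh_lower (t := y - R) (by linarith) (by linarith)
    linarith [dhh_nonneg (-y - R)]
  · rw [abs_of_nonpos h] at h1 h2
    have := dhh_lower (t := -y - R) (by linarith) (by linarith)
    linarith [dhh_nonneg (y - R)]

variable {M : Type*} [TopologicalSpace M] [CompactSpace M] [MeasurableSpace M] [BorelSpace M]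
  {μ : Measure M} [IsFiniteMeasure μ] {f N : M → E3} {H : ℝ} {bd : Set M} {Γ : Set E3} {Λ : ℝ}
  {γ₁ γ₂ : ℝ → E3} {σ₁ σ₂ : ℝ} {α β c δ R : ℝ} {a₁ a₂ b₁ b₂ : ℝ}

/-- test field `G₁(x₁) G₂(x₂) e₂` -/
lemma fv_test (S : FluxSys μ f N H bd Γ Λ γ₁ γ₂ σ₁ σ₂)
    (G : BdData α β c δ R Λ Γ γ₁ γ₂ a₁ a₂ b₁ b₂)
    {G1 G2 G1' G2' : ℝ → ℝ} (h1 : ∀ y, HasDerivAt G1 (G1' y) y)
    (h2 : ∀ y, HasDerivAt G2 (G2' y) y) (c1 : Continuous G1') (c2 : Continuous G2')
    (h0 : ∀ x ∈ Γ, G1 (L1 α β x - c) * G2 (L2 α β x) = 0) :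
    ∫ m, G1 (L1 α β (f m) - c) * G2' (L2 α β (f m)) ∂μ =
      ∫ m, (L2 α β (N m) * (G1' (L1 α β (f m) - c) * G2 (L2 α β (f m)) * L1 α β (N m)
        + G1 (L1 α β (f m) - c) * G2' (L2 α β (f m)) * L2 α β (N m))
        - 2 * H * (G1 (L1 α β (f m) - c) * G2 (L2 α β (f m))) * L2 α β (N m)) ∂μ := by
  have hf := S.cont_f
  have hN := S.cont_N
  have cG1 : ContDiff ℝ 1 G1 := by
    rw [contDiff_one_iff_deriv]
    refine ⟨fun y => (h1 y).differentiableAt, ?_⟩
    rw [show deriv G1 = G1' from funext fun y => (h1 y).deriv]; exact c1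
  have cG2 : ContDiff ℝ 1 G2 := by
    rw [contDiff_one_iff_deriv]
    refine ⟨fun y => (h2 y).differentiableAt, ?_⟩
    rw [show deriv G2 = G2' from funext fun y => (h2 y).deriv]; exact c2
  have hC : ContDiff ℝ 1 (fun x : E3 => G1 (L1 α β x - c) * G2 (L2 α β x)) :=
    (cG1.comp ((L1 α β).contDiff.sub contDiff_const)).mul (cG2.comp (L2 α β).contDiff)
  have hF : ∀ x, HasFDerivAt (fun x : E3 => G1 (L1 α β x - c) * G2 (L2 α β x))
      (G1 (L1 α β x - c) • (G2' (L2 α β x) • L2 α β)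
        + G2 (L2 α β x) • (G1' (L1 α β x - c) • L1 α β)) x := fun x =>
    (HasDerivAt.comp_hasFDerivAt (h₂ := G1) x (h1 _) ((L1 α β).hasFDerivAt.sub_const c)).mul
      (HasDerivAt.comp_hasFDerivAt (h₂ := G2) x (h2 _) (L2 α β).hasFDerivAt)
  have hz := S.fv_zero hC (vv α β) h0
  have k1 : Continuous fun m => L1 α β (f m) - c :=
    ((L1 α β).continuous.comp hf).sub continuous_const
  have k2 : Continuous fun m => L2 α β (f m) := (L2 α β).continuous.comp hf
  have k3 : Continuous fun m => L1 α β (N m) := (L1 α β).continuous.comp hN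
  have k4 : Continuous fun m => L2 α β (N m) := (L2 α β).continuous.comp hN
  have g1 : Continuous fun m => G1 (L1 α β (f m) - c) := cG1.continuous.comp k1
  have g2 : Continuous fun m => G2 (L2 α β (f m)) := cG2.continuous.comp k2
  have g1' : Continuous fun m => G1' (L1 α β (f m) - c) := c1.comp k1
  have g2' : Continuous fun m => G2' (L2 α β (f m)) := c2.comp k2
  have cA : Continuous fun m => G1 (L1 α β (f m) - c) * G2' (L2 α β (f m)) := g1.mul g2'
  have cB : Continuous fun m => (L2 α β (N m) * (G1' (L1 α β (f m) - c) * G2 (L2 α β (f m)) *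
      L1 α β (N m) + G1 (L1 α β (f m) - c) * G2' (L2 α β (f m)) * L2 α β (N m))
        - 2 * H * (G1 (L1 α β (f m) - c) * G2 (L2 α β (f m))) * L2 α β (N m)) :=
    (k4.mul (((g1'.mul g2).mul k3).add ((g1.mul g2').mul k4))).sub
      ((continuous_const.mul (g1.mul g2)).mul k4)
  rw [← sub_eq_zero, ← int_sub cA cB, ← hz]
  congr 1
  ext m
  rw [fvInt_of_hasFDerivAt (hF (f m)), inner3]
  simp
  linear_combination (-(G1 (α * f m 0 + β * f m 1 - c) * G2' (-(β * f m 0) + α * f m 1))) * G.unit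

end Pool.Agent.Helper608
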