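import Pool.Agent.Helper608.Core2

open Set MeasureTheory Filter Topology
open scoped Manifold ContDiff InnerProductSpace

set_option linter.unusedSectionVars false

namespace Pool.Agent.Helper608

section
variable {M : Type*} [TopologicalSpace M] [CompactSpace M] [MeasurableSpace M] [BorelSpace M]
  {μ : Measure M} [IsFiniteMeasure μ] {f N : M → E3} {H : ℝ} {bd : Set M} {Γ : Set E3} {Λ : ℝ}
  {γ₁ γ₂ : ℝ → E3} {σ₁ σ₂ : ℝ} {α β c δ R : ℝ} {a₁ a₂ b₁ b₂ : ℝ}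

/-- bound on the mean curvature -/
noncomputable def CHb (Λ R a₁ a₂ b₁ b₂ : ℝ) : ℝ :=
  Λ / (2 * (|a₁| + |a₂|)) + Λ * R / (2 * (|b₁| + |b₂|))

lemma CHb_nonneg (G : BdData α β c δ R Λ Γ γ₁ γ₂ a₁ a₂ b₁ b₂) : 0 ≤ CHb Λ R a₁ a₂ b₁ b₂ := by
  have := G.hΛ
  have := G.hR
  unfold CHb
  positivity

lemma abs_add_same {x y : ℝ} (h : 0 < x * y) : |x + y| = |x| + |y| := by
  rcases lt_trichotomy x 0 with hx | hx | hx
  · have hy : y < 0 := by by_contra hy; push Not at hy; nlinarith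
    rw [abs_of_neg hx, abs_of_neg hy, abs_of_neg (by linarith)]; ring
  · subst hx; simp at h
  · have hy : 0 < y := by by_contra hy; push Not at hy; nlinarith
    rw [abs_of_pos hx, abs_of_pos hy, abs_of_pos (by linarith)]

lemma curvature_bound (S : FluxSys μ f N H bd Γ Λ γ₁ γ₂ σ₁ σ₂)
    (G : BdData α β c δ R Λ Γ γ₁ γ₂ a₁ a₂ b₁ b₂) : |H| ≤ CHb Λ R a₁ a₂ b₁ b₂ := by
  have hΛ := G.hΛ
  have hR := G.hR
  have s1 : |σ₁| = 1 := by rcases S.sg₁ with h | h <;> simp [h]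
  have s2 : |σ₂| = 1 := by rcases S.sg₂ with h | h <;> simp [h]
  have q1 : σ₁ * σ₁ = 1 := by rcases S.sg₁ with h | h <;> simp [h]
  have q2 : σ₂ * σ₂ = 1 := by rcases S.sg₂ with h | h <;> simp [h]
  have ha1 : a₁ ≠ 0 := by rintro rfl; have := G.sign₁; simp at this
  have ha2 : a₂ ≠ 0 := by rintro rfl; have := G.sign₂; simp at this
  have hb1 : b₁ ≠ 0 := by rintro rfl; have := G.sign₁; simp at this
  have hb2 : b₂ ≠ 0 := by rintro rfl; have := G.sign₂; simp at this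
  have pa : 0 < |a₁| + |a₂| := by positivity
  have pb : 0 < |b₁| + |b₂| := by positivity
  have e1 : 0 ≤ Λ / (2 * (|a₁| + |a₂|)) := by positivity
  have e2 : 0 ≤ Λ * R / (2 * (|b₁| + |b₂|)) := by positivity
  have A := fv_area S
  rw [st_area S G, abs_mul, abs_mul] at A
  have B := fv_moment S G
  rw [st_moment S G, abs_mul, abs_mul] at B
  have e22 : |(2:ℝ)| = 2 := abs_of_pos (by norm_num)
  rw [e22] at A B
  unfold CHb
  rcases lt_or_ge 0 ((σ₁ * a₁) * (σ₂ * a₂)) with h | h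
  · rw [abs_add_same h, abs_mul, abs_mul, s1, s2, one_mul, one_mul] at A
    have : |H| ≤ Λ / (2 * (|a₁| + |a₂|)) := by
      rw [le_div_iff₀ (by positivity)]; linarith
    linarith
  · have hb : 0 < (σ₁ * b₁) * (σ₂ * b₂) := by
      have hne : (σ₁ * a₁) * (σ₂ * a₂) ≠ 0 := by
        have : σ₁ ≠ 0 := by intro h0; rw [h0] at q1; simp at q1
        have : σ₂ ≠ 0 := by intro h0; rw [h0] at q2; simp at q2
        positivity
      have hlt : (σ₁ * a₁) * (σ₂ * a₂) < 0 := lt_of_le_of_ne h hne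
      have hprod : ((σ₁ * a₁) * (σ₂ * a₂)) * ((σ₁ * b₁) * (σ₂ * b₂)) = (a₁ * b₁) * (a₂ * b₂) := by
        linear_combination (a₁ * a₂ * b₁ * b₂) * (q2 + (σ₂ * σ₂) * (q1))
      have hneg : (a₁ * b₁) * (a₂ * b₂) < 0 := mul_neg_of_pos_of_neg G.sign₁ G.sign₂
      by_contra hcon
      push Not at hcon
      nlinarith [mul_nonneg_of_nonpos_of_nonpos hlt.le hcon]
    rw [abs_add_same hb, abs_mul, abs_mul, s1, s2, one_mul, one_mul] at B
    have : |H| ≤ Λ * R / (2 * (|b₁| + |b₂|)) := by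
      rw [le_div_iff₀ (by positivity)]; linarith
    linarith

/-- estimate for a test field, from smallness of the tilt -/
lemma test_bound (S : FluxSys μ f N H bd Γ Λ γ₁ γ₂ σ₁ σ₂)
    (G : BdData α β c δ R Λ Γ γ₁ γ₂ a₁ a₂ b₁ b₂)
    {G1 G2 G1' G2' : ℝ → ℝ} (h1 : ∀ y, HasDerivAt G1 (G1' y) y)
    (h2 : ∀ y, HasDerivAt G2 (G2' y) y) (c1 : Continuous G1') (c2 : Continuous G2')
    (h0 : ∀ x ∈ Γ, G1 (L1 α β x - c) * G2 (L2 α β x) = 0)
    {B0 B1 B2 CH A0 τ : ℝ} (hB0 : 0 ≤ B0) (hB1 : 0 ≤ B1) (hB2 : 0 ≤ B2)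
    (b0 : ∀ m, |G1 (L1 α β (f m) - c) * G2 (L2 α β (f m))| ≤ B0)
    (b1 : ∀ m, |G1' (L1 α β (f m) - c) * G2 (L2 α β (f m))| ≤ B1)
    (b2 : ∀ m, |G1 (L1 α β (f m) - c) * G2' (L2 α β (f m))| ≤ B2)
    (hH : |H| ≤ CH) (hA : μ.real univ ≤ A0) (hτ : 0 < τ) (hτ1 : τ ≤ 1)
    (htilt : ∫ m, (1 - (N m 2) ^ 2) ∂μ ≤ 2 * CH * τ ^ 2) :
    ∫ m, G1 (L1 α β (f m) - c) * G2' (L2 α β (f m)) ∂μ ≤
      τ * ((B1 + 2 * B2) * CH + CH * B0 * (A0 + 2 * CH)) := by
  have hf := S.cont_f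
  have hN := S.cont_N
  have hCH : 0 ≤ CH := (abs_nonneg H).trans hH
  have hNi : ∀ i, Continuous fun m => N m i := fun i => (pr i).continuous.comp hN
  rw [fv_test S G h1 h2 c1 c2 h0]
  -- pointwise bound
  have hpt : ∀ m, (L2 α β (N m) * (G1' (L1 α β (f m) - c) * G2 (L2 α β (f m)) *
      L1 α β (N m) + G1 (L1 α β (f m) - c) * G2' (L2 α β (f m)) * L2 α β (N m))
        - 2 * H * (G1 (L1 α β (f m) - c) * G2 (L2 α β (f m))) * L2 α β (N m)) ≤
      (B1 / 2 + B2 + CH * B0 / τ) * (1 - (N m 2) ^ 2) + CH * B0 * τ := by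
    intro m
    have hNsq : N m 0 ^ 2 + N m 1 ^ 2 + N m 2 ^ 2 = 1 := by
      rw [← normsq3, S.norm_N m]; norm_num
    set n1 := L1 α β (N m) with hn1
    set n2 := L2 α β (N m) with hn2
    have hsq : n1 ^ 2 + n2 ^ 2 = 1 - (N m 2) ^ 2 := by
      rw [hn1, hn2, L1_apply, L2_apply]
      linear_combination (N m 0 ^ 2 + N m 1 ^ 2) * G.unit + hNsq
    rw [← hsq]
    set x := G1' (L1 α β (f m) - c) * G2 (L2 α β (f m)) with hx
    set y := G1 (L1 α β (f m) - c) * G2' (L2 α β (f m)) with hy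
    set z := G1 (L1 α β (f m) - c) * G2 (L2 α β (f m)) with hz
    have t1 : n2 * (x * n1) ≤ B1 / 2 * (n1 ^ 2 + n2 ^ 2) := by
      have h3 : |n2 * (x * n1)| ≤ B1 * (|n1| * |n2|) := by
        rw [abs_mul, abs_mul]
        calc |n2| * (|x| * |n1|) = |x| * (|n1| * |n2|) := by ring
          _ ≤ B1 * (|n1| * |n2|) := mul_le_mul_of_nonneg_right (b1 m) (by positivity)
      have h4 : |n1| * |n2| ≤ (n1 ^ 2 + n2 ^ 2) / 2 := by
        nlinarith [sq_nonneg (|n1| - |n2|), sq_abs n1, sq_abs n2]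
      calc n2 * (x * n1) ≤ |n2 * (x * n1)| := le_abs_self _
        _ ≤ B1 * (|n1| * |n2|) := h3
        _ ≤ B1 * ((n1 ^ 2 + n2 ^ 2) / 2) := mul_le_mul_of_nonneg_left h4 hB1
        _ = _ := by ring
    have t2 : n2 * (y * n2) ≤ B2 * (n1 ^ 2 + n2 ^ 2) := by
      have h3 : y ≤ B2 := (le_abs_self _).trans (b2 m)
      nlinarith [sq_nonneg n1, sq_nonneg n2, mul_le_mul_of_nonneg_right h3 (sq_nonneg n2),
        mul_nonneg hB2 (sq_nonneg n1)]
    have t3 : -(2 * H * z * n2) ≤ CH * B0 / τ * (n1 ^ 2 + n2 ^ 2) + CH * B0 * τ := by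
      have h3 : |2 * H * z * n2| ≤ 2 * (CH * B0) * |n2| := by
        rw [abs_mul, abs_mul, abs_mul, abs_of_pos (show (0:ℝ) < 2 by norm_num)]
        have : |H| * |z| ≤ CH * B0 := mul_le_mul hH (b0 m) (abs_nonneg _) hCH
        nlinarith [abs_nonneg n2]
      have h4 : 2 * |n2| ≤ (n1 ^ 2 + n2 ^ 2) / τ + τ := by
        have : 2 * |n2| * τ ≤ n2 ^ 2 + τ ^ 2 := by
          nlinarith [sq_nonneg (|n2| - τ), sq_abs n2]
        have h5 : 2 * |n2| ≤ (n2 ^ 2 + τ ^ 2) / τ := by rw [le_div_iff₀ hτ]; exact this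
        have h6 : (n2 ^ 2 + τ ^ 2) / τ = n2 ^ 2 / τ + τ := by field_simp
        have h7 : n2 ^ 2 / τ ≤ (n1 ^ 2 + n2 ^ 2) / τ := by
          apply div_le_div_of_nonneg_right _ hτ.le
          nlinarith [sq_nonneg n1]
        linarith
      calc -(2 * H * z * n2) ≤ |2 * H * z * n2| := neg_le_abs _
        _ ≤ 2 * (CH * B0) * |n2| := h3
        _ = (CH * B0) * (2 * |n2|) := by ring
        _ ≤ (CH * B0) * ((n1 ^ 2 + n2 ^ 2) / τ + τ) :=
            mul_le_mul_of_nonneg_left h4 (mul_nonneg hCH hB0)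
        _ = _ := by ring
    calc n2 * (x * n1 + y * n2) - 2 * H * z * n2
        = n2 * (x * n1) + n2 * (y * n2) + -(2 * H * z * n2) := by ring
      _ ≤ B1 / 2 * (n1 ^ 2 + n2 ^ 2) + B2 * (n1 ^ 2 + n2 ^ 2)
          + (CH * B0 / τ * (n1 ^ 2 + n2 ^ 2) + CH * B0 * τ) := by linarith
      _ = _ := by ring
  have cG1 : Continuous G1 := continuous_iff_continuousAt.mpr fun y => (h1 y).continuousAt
  have cG2 : Continuous G2 := continuous_iff_continuousAt.mpr fun y => (h2 y).continuousAt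
  have k1 : Continuous fun m => L1 α β (f m) - c :=
    ((L1 α β).continuous.comp hf).sub continuous_const
  have k2 : Continuous fun m => L2 α β (f m) := (L2 α β).continuous.comp hf
  have k3 : Continuous fun m => L1 α β (N m) := (L1 α β).continuous.comp hN
  have k4 : Continuous fun m => L2 α β (N m) := (L2 α β).continuous.comp hN
  have g1 : Continuous fun m => G1 (L1 α β (f m) - c) := cG1.comp k1
  have g2 : Continuous fun m => G2 (L2 α β (f m)) := cG2.comp k2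
  have g1' : Continuous fun m => G1' (L1 α β (f m) - c) := c1.comp k1
  have g2' : Continuous fun m => G2' (L2 α β (f m)) := c2.comp k2
  have cB : Continuous fun m => (L2 α β (N m) * (G1' (L1 α β (f m) - c) * G2 (L2 α β (f m)) *
      L1 α β (N m) + G1 (L1 α β (f m) - c) * G2' (L2 α β (f m)) * L2 α β (N m))
        - 2 * H * (G1 (L1 α β (f m) - c) * G2 (L2 α β (f m))) * L2 α β (N m)) :=
    (k4.mul (((g1'.mul g2).mul k3).add ((g1.mul g2').mul k4))).sub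
      ((continuous_const.mul (g1.mul g2)).mul k4)
  have cT : Continuous fun m => 1 - (N m 2) ^ 2 := continuous_const.sub ((hNi 2).pow 2)
  have cR : Continuous fun m => (B1 / 2 + B2 + CH * B0 / τ) * (1 - (N m 2) ^ 2) + CH * B0 * τ :=
    (continuous_const.mul cT).add continuous_const
  have hle := integral_mono (integrable_of_cont (μ := μ) cB) (integrable_of_cont cR) hpt
  refine hle.trans ?_
  rw [int_add (cmulc _ cT) continuous_const, integral_const_mul, integral_const]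
  simp only [smul_eq_mul]
  have hcoef : 0 ≤ B1 / 2 + B2 + CH * B0 / τ := by positivity
  have s1 : (B1 / 2 + B2 + CH * B0 / τ) * ∫ m, (1 - (N m 2) ^ 2) ∂μ ≤
      (B1 / 2 + B2 + CH * B0 / τ) * (2 * CH * τ ^ 2) := mul_le_mul_of_nonneg_left htilt hcoef
  have s2 : μ.real univ * (CH * B0 * τ) ≤ A0 * (CH * B0 * τ) :=
    mul_le_mul_of_nonneg_right hA (by positivity)
  have s3 : (B1 / 2 + B2 + CH * B0 / τ) * (2 * CH * τ ^ 2) =
      (B1 + 2 * B2) * CH * τ ^ 2 + 2 * CH * (CH * B0) * τ := by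
    field_simp
  have s4 : (B1 + 2 * B2) * CH * τ ^ 2 ≤ (B1 + 2 * B2) * CH * τ := by
    apply mul_le_mul_of_nonneg_left _ (by positivity)
    nlinarith
  nlinarith

/-- lower bound for the integral of a nonnegative function that is large on a ball -/
lemma ball_lower (S : FluxSys μ f N H bd Γ Λ γ₁ γ₂ σ₁ σ₂) {m₀ : M} (hm₀ : m₀ ∉ bd)
    {ρ CH κ : ℝ} (hρ : 0 < ρ) (hH : |H| ≤ CH) (hCρ : 4 * CH * ρ ≤ 1)
    (hball : ∀ x ∈ Γ, ρ ≤ dist x (f m₀)) {g : M → ℝ} (hg : Continuous g) (hg0 : ∀ m, 0 ≤ g m)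
    (hκ : 0 ≤ κ) (hgκ : ∀ m, dist (f m) (f m₀) < ρ → κ ≤ g m) :
    κ * (ρ ^ 2 / 128) ≤ ∫ m, g m ∂μ := by
  have h1 : ρ ^ 2 / 128 ≤ μ.real (f ⁻¹' Metric.ball (f m₀) ρ) :=
    S.mono_area hm₀ hρ (by nlinarith) hball
  have hmeas : MeasurableSet (f ⁻¹' Metric.ball (f m₀) ρ) :=
    (Metric.isOpen_ball.preimage S.cont_f).measurableSet
  have h2 : ∫ m, (f ⁻¹' Metric.ball (f m₀) ρ).indicator (fun _ => κ) m ∂μ ≤ ∫ m, g m ∂μ := by
    apply integral_mono ((integrable_const κ).indicator hmeas) (integrable_of_cont hg)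
    intro m
    by_cases hm : m ∈ f ⁻¹' Metric.ball (f m₀) ρ
    · rw [indicator_of_mem hm]; exact hgκ m hm
    · rw [indicator_of_notMem hm]; exact hg0 m
  rw [integral_indicator_const _ hmeas] at h2
  simp only [smul_eq_mul] at h2
  nlinarith

end

end Pool.Agent.Helper608
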