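import Pool.Agent.Helper608.Core3

open Set MeasureTheory Filter Topology
open scoped Manifold ContDiff InnerProductSpace

set_option linter.unusedSectionVars false

namespace Pool.Agent.Helper608

universe u

/-- Intermediate values along a connected image. -/
lemma image_ivt {M : Type*} {f : M → E3} {k : E3 → ℝ} (hk : Continuous k)
    (hconn : IsPreconnected (range f)) {m₁ m₂ : M} {r : ℝ} (h₁ : k (f m₁) ≤ r)
    (h₂ : r ≤ k (f m₂)) : r ∈ range (fun m => k (f m)) := by
  obtain ⟨_, ⟨m, rfl⟩, hm⟩ := hconn.intermediate_value (mem_range_self m₁) (mem_range_self m₂)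
    hk.continuousOn ⟨h₁, h₂⟩
  exact ⟨m, hm⟩

/-- Main estimate: the abstract form of the theorem. -/
theorem core_thm {α β c δ R Λ : ℝ} {Γ : Set E3} {γ₁ γ₂ : ℝ → E3} {a₁ a₂ b₁ b₂ : ℝ}
    (G : BdData α β c δ R Λ Γ γ₁ γ₂ a₁ a₂ b₁ b₂) (hγ₁ : ∀ t, γ₁ t ∈ Γ) (hγ₂ : ∀ t, γ₂ t ∈ Γ)
    (hs₁ : L1 α β (γ₁ 0) - c < 0) (hs₂ : 0 < L1 α β (γ₂ 0) - c) :
    ∃ V₀ : ℝ, 0 < V₀ ∧ ∀ (M : Type u) [TopologicalSpace M] [CompactSpace M] [MeasurableSpace M]
      [BorelSpace M] (μ : Measure M) [IsFiniteMeasure μ] (f N : M → E3) (H : ℝ) (bd : Set M)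
      (σ₁ σ₂ : ℝ), FluxSys μ f N H bd Γ Λ γ₁ γ₂ σ₁ σ₂ →
      (1 / 3 : ℝ) * |∫ m, ⟪f m, N m⟫_ℝ ∂μ| < V₀ → ¬ IsPreconnected (range f) := by
  have hδ := G.hδ
  have hR := G.hR
  have hΛ := G.hΛ
  set CH := CHb Λ R a₁ a₂ b₁ b₂ with hCH
  have hCH0 : 0 ≤ CH := CHb_nonneg G
  set A0 := Λ * R + 3 * CH with hA0
  have hA00 : 0 ≤ A0 := by positivity
  set ρ₁ := min (1 / 2 : ℝ) (1 / (4 * CH + 1)) with hρ₁
  set ρ₂ := min (δ / 2 : ℝ) (1 / (4 * CH + 1)) with hρ₂
  have p1 : 0 < ρ₁ := by apply lt_min <;> positivity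
  have p2 : 0 < ρ₂ := by apply lt_min <;> positivity
  have q1 : 4 * CH * ρ₁ ≤ 1 := by
    have : ρ₁ ≤ 1 / (4 * CH + 1) := min_le_right _ _
    rw [le_div_iff₀ (by positivity)] at this
    nlinarith
  have q2 : 4 * CH * ρ₂ ≤ 1 := by
    have : ρ₂ ≤ 1 / (4 * CH + 1) := min_le_right _ _
    rw [le_div_iff₀ (by positivity)] at this
    nlinarith
  have r1 : ρ₁ ≤ 1 / 2 := min_le_left _ _
  have r2 : ρ₂ ≤ δ / 2 := min_le_left _ _
  set κ := min ((1 / 11) * (ρ₁ ^ 2 / 128)) ((1 / 2) * (ρ₂ ^ 2 / 128)) with hκ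
  have hκ0 : 0 < κ := by apply lt_min <;> positivity
  set K1 := (0 + 2 * 2) * CH + CH * 1 * (A0 + 2 * CH) with hK1
  set K2 := ((4 / δ) * (R + 1) + 2 * 1) * CH + CH * (R + 1) * (A0 + 2 * CH) with hK2
  have hK10 : 0 ≤ K1 := by positivity
  have hK20 : 0 ≤ K2 := by positivity
  set τ := min 1 (κ / (K1 + K2 + 1)) with hτ
  have hτ0 : 0 < τ := by apply lt_min <;> positivity
  have hτ1 : τ ≤ 1 := min_le_left _ _
  have hτκ : τ * (K1 + K2 + 1) ≤ κ := by
    have : τ ≤ κ / (K1 + K2 + 1) := min_le_right _ _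
    rwa [le_div_iff₀ (by positivity)] at this
  have hτK1 : τ * K1 < κ := by nlinarith
  have hτK2 : τ * K2 < κ := by nlinarith
  refine ⟨τ ^ 2, by positivity, ?_⟩
  intro M _ _ _ _ μ _ f N H bd σ₁ σ₂ S hV hconn
  have hf := S.cont_f
  have hN := S.cont_N
  have hH : |H| ≤ CH := curvature_bound S G
  -- volume
  have hvol : |∫ m, f m 2 * N m 2 ∂μ| < τ ^ 2 := by
    rw [st_volume S G hγ₁ hγ₂, abs_mul, abs_of_pos (show (0:ℝ) < 3 by norm_num)] at hV
    linarith
  have hHV : |H * ∫ m, f m 2 * N m 2 ∂μ| ≤ CH * τ ^ 2 := by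
    rw [abs_mul]
    exact mul_le_mul hH hvol.le (abs_nonneg _) hCH0
  have htilt : ∫ m, (1 - (N m 2) ^ 2) ∂μ ≤ 2 * CH * τ ^ 2 := by
    rw [fv_tilt S G]
    have := neg_le_abs (H * ∫ m, f m 2 * N m 2 ∂μ)
    nlinarith
  have hA : μ.real univ ≤ A0 := by
    have h1 := (le_abs_self _).trans (fv_total S G hγ₁ hγ₂)
    have h2 := neg_le_abs (H * ∫ m, f m 2 * N m 2 ∂μ)
    have h3 : τ ^ 2 ≤ 1 := by nlinarith
    have h4 : CH * τ ^ 2 ≤ CH := by nlinarith
    nlinarith
  -- the two boundary points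
  have hb1 : γ₁ 0 ∈ f '' bd := by rw [S.image_bd]; exact hγ₁ 0
  have hb2 : γ₂ 0 ∈ f '' bd := by rw [S.image_bd]; exact hγ₂ 0
  obtain ⟨m1, hm1, hfm1⟩ := hb1
  obtain ⟨m2, hm2, hfm2⟩ := hb2
  have k1 : Continuous fun m => L1 α β (f m) - c :=
    ((L1 α β).continuous.comp hf).sub continuous_const
  have k2 : Continuous fun m => L2 α β (f m) := (L2 α β).continuous.comp hf
  have bdΓ : ∀ m ∈ bd, f m ∈ Γ := fun m hm => by rw [← S.image_bd]; exact ⟨m, hm, rfl⟩
  -- Step 1: the second coordinate is bounded by `R + 1`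
  have step1 : ∀ m, |L2 α β (f m)| < R + 1 := by
    by_contra hcon
    push Not at hcon
    obtain ⟨m3, hm3⟩ := hcon
    have hIVT : (R + 1) ∈ range (fun m => |L2 α β (f m)|) := by
      exact image_ivt (k := fun x => |L2 α β x|) (L2 α β).continuous.abs hconn (m₁ := m1)
        (m₂ := m3) (by have := G.x2 _ (bdΓ m1 hm1); linarith) hm3
    obtain ⟨m0, hm0⟩ := hIVT
    simp only at hm0
    have hm0bd : m0 ∉ bd := fun h => by
      have := G.x2 _ (bdΓ m0 h); linarith
    have hball : ∀ x ∈ Γ, ρ₁ ≤ dist x (f m0) := by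
      intro x hx
      have h1 := G.x2 x hx
      have h2 : |L2 α β (x - f m0)| ≤ dist x (f m0) := by
        rw [dist_eq_norm]; exact abs_L2_le G.unit _
      rw [map_sub] at h2
      have h3 := abs_sub_abs_le_abs_sub (L2 α β (f m0)) (L2 α β x)
      rw [abs_sub_comm] at h3
      linarith
    have hlow := ball_lower S hm0bd p1 hH q1 hball
      (g := fun m => 1 * dgg R (L2 α β (f m)))
      (continuous_const.mul ((continuous_dgg R).comp k2))
      (fun m => by rw [one_mul]; exact dgg_nonneg _ _) (κ := 1 / 11) (by norm_num) (by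
        intro m hm
        have h2 : |L2 α β (f m - f m0)| ≤ dist (f m) (f m0) := by
          rw [dist_eq_norm]; exact abs_L2_le G.unit _
        rw [map_sub] at h2
        have h3 := abs_sub_abs_le_abs_sub (L2 α β (f m0)) (L2 α β (f m))
        have h4 := abs_sub_abs_le_abs_sub (L2 α β (f m)) (L2 α β (f m0))
        rw [abs_sub_comm] at h3
        rw [one_mul]
        apply dgg_lower <;> linarith)
    have hup := test_bound S G (G1 := fun _ => 1) (G1' := fun _ => 0) (G2 := gg R)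
      (G2' := dgg R) (fun y => hasDerivAt_const y 1) (hasDerivAt_gg R) continuous_const
      (continuous_dgg R) (fun x hx => by rw [gg_zero (G.x2 x hx)]; simp)
      (B0 := 1) (B1 := 0) (B2 := 2) (by norm_num) (by norm_num) (by norm_num)
      (fun m => by rw [one_mul]; exact abs_gg_le _ _) (fun m => by simp)
      (fun m => by rw [one_mul, abs_of_nonneg (dgg_nonneg _ _)]; exact dgg_le_two _ _)
      hH hA hτ0 hτ1 htilt
    have : κ ≤ (1 / 11) * (ρ₁ ^ 2 / 128) := min_le_left _ _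
    linarith
  -- Step 2: the slab
  have hIVT : (0:ℝ) ∈ range (fun m => L1 α β (f m) - c) := by
    exact image_ivt (k := fun x => L1 α β x - c) ((L1 α β).continuous.sub continuous_const)
      hconn (m₁ := m1) (m₂ := m2) (by rw [hfm1]; exact hs₁.le) (by rw [hfm2]; exact hs₂.le)
  obtain ⟨m0, hm0⟩ := hIVT
  simp only at hm0
  have hm0bd : m0 ∉ bd := fun h => by
    have := G.gap _ (bdΓ m0 h)
    rw [hm0, abs_zero] at this; linarith
  have hball : ∀ x ∈ Γ, ρ₂ ≤ dist x (f m0) := by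
    intro x hx
    have h1 := G.gap x hx
    have h2 : |L1 α β (x - f m0)| ≤ dist x (f m0) := by
      rw [dist_eq_norm]; exact abs_L1_le G.unit _
    rw [map_sub] at h2
    have h3 : L1 α β x - L1 α β (f m0) = L1 α β x - c := by linarith
    rw [h3] at h2
    linarith
  have hlow := ball_lower S hm0bd p2 hH q2 hball
    (g := fun m => chi δ (L1 α β (f m) - c) * (fun _ => (1:ℝ)) (L2 α β (f m)))
    (by
      have : Continuous (chi δ) :=
        continuous_iff_continuousAt.mpr fun y => (hasDerivAt_chi δ y).continuousAt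
      exact (this.comp k1).mul continuous_const)
    (fun m => by rw [mul_one]; exact chi_nonneg _ _) (κ := 1 / 2) (by norm_num) (by
      intro m hm
      have h2 : |L1 α β (f m - f m0)| ≤ dist (f m) (f m0) := by
        rw [dist_eq_norm]; exact abs_L1_le G.unit _
      rw [map_sub] at h2
      have h3 : L1 α β (f m) - L1 α β (f m0) = L1 α β (f m) - c := by linarith
      rw [h3] at h2
      rw [mul_one]
      exact chi_half hδ (by linarith))
  have hup := test_bound S G (G1 := chi δ) (G1' := dchi δ) (G2 := fun y => y)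
    (G2' := fun _ => 1) (hasDerivAt_chi δ) (fun y => hasDerivAt_id y) (continuous_dchi δ)
    continuous_const (fun x hx => by rw [chi_zero hδ (G.gap x hx)]; simp)
    (B0 := R + 1) (B1 := (4 / δ) * (R + 1)) (B2 := 1) (by positivity) (by positivity)
    (by norm_num)
    (fun m => by
      rw [abs_mul, abs_of_nonneg (chi_nonneg _ _)]
      have := chi_le_one (δ := δ) (L1 α β (f m) - c)
      have h1 := (step1 m).le
      nlinarith [abs_nonneg (L2 α β (f m)), chi_nonneg δ (L1 α β (f m) - c)])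
    (fun m => by
      rw [abs_mul]
      exact mul_le_mul (abs_dchi_le hδ _) (step1 m).le (abs_nonneg _) (by positivity))
    (fun m => by
      rw [mul_one, abs_of_nonneg (chi_nonneg _ _)]; exact chi_le_one _)
    hH hA hτ0 hτ1 htilt
  have : κ ≤ (1 / 2) * (ρ₂ ^ 2 / 128) := min_le_right _ _
  linarith

end Pool.Agent.Helper608
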