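import Mathlib

/-! A convex domain whose centroid is not the centroid of its boundary curve. -/

open Set Metric MeasureTheory Filter Topology
open scoped ComplexConjugate Real

namespace Pool.Agent.Helper608.Egg

/-- The polynomial map. -/
noncomputable def Ph (z : ℂ) : ℂ := z + z ^ 2 / 10 + z ^ 3 / 300

theorem hasStrictDerivAt_Ph (z : ℂ) : HasStrictDerivAt Ph ((1 + z / 10) ^ 2) z := by
  have h1 := hasStrictDerivAt_id z
  have h2 := (hasStrictDerivAt_pow 2 z).div_const 10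
  have h3 := (hasStrictDerivAt_pow 3 z).div_const 300
  have h := (h1.add h2).add h3
  refine HasStrictDerivAt.congr_deriv (f := Ph) h ?_
  norm_num
  ring

theorem hasDerivAt_Ph (z : ℂ) : HasDerivAt Ph ((1 + z / 10) ^ 2) z :=
  (hasStrictDerivAt_Ph z).hasDerivAt

theorem continuous_Ph : Continuous Ph := by
  unfold Ph
  fun_prop

theorem Ph_sub (z w : ℂ) :
    Ph z - Ph w = (z - w) * (1 + ((z + w) / 10 + (z ^ 2 + z * w + w ^ 2) / 300)) := by
  unfold Ph
  ring

theorem Ph_inj : InjOn Ph (closedBall 0 1) := by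
  intro z hz w hw h
  have hz' : ‖z‖ ≤ 1 := by simpa using hz
  have hw' : ‖w‖ ≤ 1 := by simpa using hw
  have h1 : (z - w) * (1 + ((z + w) / 10 + (z ^ 2 + z * w + w ^ 2) / 300)) = 0 := by
    rw [← Ph_sub, h, sub_self]
  rcases mul_eq_zero.1 h1 with h2 | h2
  · exact sub_eq_zero.1 h2
  · exfalso
    have h3 : ‖(z + w) / 10 + (z ^ 2 + z * w + w ^ 2) / 300‖ ≤ 21 / 100 := by
      have e1 : ‖(z + w) / 10‖ ≤ 2 / 10 := by
        rw [norm_div]
        have : ‖(10 : ℂ)‖ = 10 := by norm_num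
        rw [this]
        have := norm_add_le z w
        linarith
      have e2 : ‖(z ^ 2 + z * w + w ^ 2) / 300‖ ≤ 3 / 300 := by
        rw [norm_div]
        have : ‖(300 : ℂ)‖ = 300 := by norm_num
        rw [this]
        have t1 := norm_add_le (z ^ 2 + z * w) (w ^ 2)
        have t2 := norm_add_le (z ^ 2) (z * w)
        rw [norm_pow] at t1 t2
        rw [norm_mul] at t2
        have t3 : ‖z‖ ^ 2 ≤ 1 := pow_le_one₀ (norm_nonneg _) hz'
        have t4 : ‖w‖ ^ 2 ≤ 1 := pow_le_one₀ (norm_nonneg _) hw'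
        have t5 : ‖z‖ * ‖w‖ ≤ 1 := mul_le_one₀ hz' (norm_nonneg _) hw'
        have t6 : ‖z ^ 2 + z * w + w ^ 2‖ ≤ 3 := by linarith
        linarith
      have := norm_add_le ((z + w) / 10) ((z ^ 2 + z * w + w ^ 2) / 300)
      linarith
    have h4 : (z + w) / 10 + (z ^ 2 + z * w + w ^ 2) / 300 = -1 := by
      linear_combination h2
    rw [h4, norm_neg, norm_one] at h3
    norm_num at h3

/-- The domain in the complex plane. -/
def Dc : Set ℂ := Ph '' ball 0 1

theorem deriv_ne {z : ℂ} (hz : ‖z‖ ≤ 1) : (1 + z / 10) ^ 2 ≠ 0 := by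
  apply pow_ne_zero
  intro h
  have h1 : z = -10 := by linear_combination 10 * h
  rw [h1] at hz
  norm_num at hz

theorem isOpen_Dc : IsOpen Dc := by
  rw [isOpen_iff_mem_nhds]
  rintro _ ⟨z, hz, rfl⟩
  have hz' : ‖z‖ ≤ 1 := by
    have : ‖z‖ < 1 := by simpa using hz
    exact this.le
  rw [← (hasStrictDerivAt_Ph z).map_nhds_eq (deriv_ne hz')]
  exact image_mem_map (isOpen_ball.mem_nhds hz)

theorem closure_Dc : closure Dc = Ph '' closedBall 0 1 := by
  apply Subset.antisymm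
  · apply closure_minimal (image_mono ball_subset_closedBall)
    exact ((isCompact_closedBall (0 : ℂ) 1).image continuous_Ph).isClosed
  · rw [← closure_ball (0 : ℂ) one_ne_zero]
    exact image_closure_subset_closure_image continuous_Ph

theorem frontier_Dc : frontier Dc = Ph '' sphere 0 1 := by
  rw [isOpen_Dc.frontier_eq, closure_Dc, Dc, ← closedBall_sdiff_ball]
  exact (Ph_inj.image_sdiff_subset ball_subset_closedBall).symm

theorem isBounded_Dc : Bornology.IsBounded Dc :=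
  ((isCompact_closedBall (0 : ℂ) 1).image continuous_Ph).isBounded.subset
    (image_mono ball_subset_closedBall)

theorem nonempty_Dc : Dc.Nonempty := ⟨Ph 0, 0, by simp, rfl⟩

/-- The outer normal at `Ph ζ`. -/
noncomputable def nn (ζ : ℂ) : ℂ := ζ * (1 + ζ / 10) ^ 2

theorem support_le {ζ z : ℂ} (hζ : ‖ζ‖ = 1) (hz : ‖z‖ ≤ 1) :
    ((Ph z - Ph ζ) * conj (nn ζ)).re ≤ 0 := by
  set d := z - ζ with hd
  set b := 1 + ζ / 10 with hb
  set Q := b / 10 + d / 300 with hQ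
  have e1 : Ph z - Ph ζ = d * b ^ 2 + d ^ 2 * Q := by
    rw [hQ, hb, hd]
    unfold Ph
    ring
  have hbn : b * conj b = (‖b‖ ^ 2 : ℝ) := by
    rw [Complex.mul_conj, Complex.normSq_eq_norm_sq]
  have e2 : (Ph z - Ph ζ) * conj (nn ζ) =
      ((‖b‖ ^ 4 : ℝ) : ℂ) * (d * conj ζ) + d ^ 2 * (Q * conj (nn ζ)) := by
    have h1 : ((‖b‖ ^ 4 : ℝ) : ℂ) = (b * conj b) ^ 2 := by
      rw [hbn]
      push_cast
      ring
    rw [e1, h1, nn, map_mul, map_pow]
    ring
  have hre : (d * conj ζ).re ≤ -(‖d‖ ^ 2 / 2) := by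
    have h1 : ‖d‖ ^ 2 = ‖z‖ ^ 2 + ‖ζ‖ ^ 2 - 2 * (z * conj ζ).re := by
      rw [hd, ← Complex.normSq_eq_norm_sq, ← Complex.normSq_eq_norm_sq,
        ← Complex.normSq_eq_norm_sq, Complex.normSq_sub]
    have h2 : (d * conj ζ).re = (z * conj ζ).re - 1 := by
      rw [hd, sub_mul, Complex.sub_re, Complex.mul_conj, Complex.normSq_eq_norm_sq, hζ]
      simp
    have h3 : ‖z‖ ^ 2 ≤ 1 := pow_le_one₀ (norm_nonneg _) hz
    rw [hζ] at h1
    rw [h2]
    linarith
  have hb1 : 9 / 10 ≤ ‖b‖ := by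
    have h1 := norm_sub_norm_le (1 : ℂ) (-(ζ / 10))
    rw [sub_neg_eq_add, norm_neg, norm_div, hζ, norm_one] at h1
    have : ‖(10 : ℂ)‖ = 10 := by norm_num
    rw [this] at h1
    linarith
  have hb2 : ‖b‖ ≤ 11 / 10 := by
    have h1 := norm_add_le (1 : ℂ) (ζ / 10)
    rw [norm_div, hζ, norm_one] at h1
    have : ‖(10 : ℂ)‖ = 10 := by norm_num
    rw [this] at h1
    linarith
  have hd2 : ‖d‖ ≤ 2 := by
    have h1 := norm_sub_le z ζ
    rw [hζ] at h1
    linarith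
  have hQn : ‖Q‖ ≤ 1 / 8 := by
    have h1 := norm_add_le (b / 10) (d / 300)
    rw [norm_div, norm_div] at h1
    have t1 : ‖(10 : ℂ)‖ = 10 := by norm_num
    have t2 : ‖(300 : ℂ)‖ = 300 := by norm_num
    rw [t1, t2] at h1
    rw [hQ]
    linarith
  have hnn : ‖nn ζ‖ ≤ 121 / 100 := by
    rw [nn, norm_mul, hζ, one_mul, norm_pow]
    nlinarith [norm_nonneg b]
  have h5 : (d ^ 2 * (Q * conj (nn ζ))).re ≤ ‖d‖ ^ 2 * (1 / 8 * (121 / 100)) := by
    refine (Complex.re_le_norm _).trans ?_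
    rw [norm_mul, norm_mul, norm_pow, Complex.norm_conj]
    apply mul_le_mul_of_nonneg_left _ (sq_nonneg _)
    exact mul_le_mul hQn hnn (norm_nonneg _) (by norm_num)
  have h6 : (((‖b‖ ^ 4 : ℝ) : ℂ) * (d * conj ζ)).re ≤ (9 / 10) ^ 4 * -(‖d‖ ^ 2 / 2) := by
    rw [Complex.re_ofReal_mul]
    have h7 : (9 / 10 : ℝ) ^ 4 ≤ ‖b‖ ^ 4 := pow_le_pow_left₀ (by norm_num) hb1 4
    have h8 : (d * conj ζ).re ≤ 0 := hre.trans (by
      have := sq_nonneg ‖d‖
      linarith)
    calc ‖b‖ ^ 4 * (d * conj ζ).re ≤ (9 / 10) ^ 4 * (d * conj ζ).re :=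
          mul_le_mul_of_nonpos_right h7 h8
      _ ≤ _ := mul_le_mul_of_nonneg_left hre (by norm_num)
  rw [e2, Complex.add_re]
  have := sq_nonneg ‖d‖
  nlinarith

theorem convex_Dc : Convex ℝ Dc := by
  set K : Set ℂ := ⋂ ζ ∈ sphere (0 : ℂ) 1, {w | ((w - Ph ζ) * conj (nn ζ)).re ≤ 0} with hK
  have hKc : Convex ℝ K := by
    apply convex_iInter₂
    intro ζ _
    intro x hx y hy s t hs ht hst
    have hx' : ((x - Ph ζ) * conj (nn ζ)).re ≤ 0 := hx
    have hy' : ((y - Ph ζ) * conj (nn ζ)).re ≤ 0 := hy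
    show ((s • x + t • y - Ph ζ) * conj (nn ζ)).re ≤ 0
    have e : (s • x + t • y - Ph ζ) * conj (nn ζ) =
        (s : ℂ) * ((x - Ph ζ) * conj (nn ζ)) + (t : ℂ) * ((y - Ph ζ) * conj (nn ζ)) := by
      have h1 : (s : ℂ) + t = 1 := by exact_mod_cast hst
      rw [Complex.real_smul, Complex.real_smul]
      linear_combination (-Ph ζ * conj (nn ζ)) * (-h1)
    rw [e, Complex.add_re, Complex.re_ofReal_mul, Complex.re_ofReal_mul]
    nlinarith [mul_nonneg hs (neg_nonneg.2 hx'), mul_nonneg ht (neg_nonneg.2 hy')]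
  have hDK : Dc ⊆ K := by
    rintro _ ⟨z, hz, rfl⟩
    simp only [hK, mem_iInter]
    intro ζ hζ
    have hz' : ‖z‖ ≤ 1 := by
      have : ‖z‖ < 1 := by simpa using hz
      exact this.le
    exact support_le (by simpa using hζ) hz'
  have hDi : Dc ⊆ interior K := interior_maximal hDK isOpen_Dc
  have hfr : ∀ w ∈ frontier Dc, w ∉ interior K := by
    intro w hw hwi
    rw [frontier_Dc] at hw
    obtain ⟨ζ, hζ, rfl⟩ := hw
    have hζ1 : ‖ζ‖ = 1 := by simpa using hζ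
    have hn : nn ζ ≠ 0 := by
      rw [nn]
      apply mul_ne_zero _ (deriv_ne hζ1.le)
      intro h0
      rw [h0] at hζ1
      simp at hζ1
    have hc : Continuous (fun s : ℝ => Ph ζ + (s : ℂ) * nn ζ) := by fun_prop
    have hev : ∀ᶠ s : ℝ in 𝓝 (0 : ℝ), Ph ζ + (s : ℂ) * nn ζ ∈ interior K := by
      apply hc.continuousAt.eventually
      apply isOpen_interior.mem_nhds
      simpa using hwi
    have hev' : ∀ᶠ s : ℝ in 𝓝[>] (0 : ℝ), Ph ζ + (s : ℂ) * nn ζ ∈ interior K :=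
      hev.filter_mono nhdsWithin_le_nhds
    obtain ⟨s, hs1, hs2⟩ := (hev'.and self_mem_nhdsWithin).exists
    have hs1' := interior_subset hs1
    simp only [hK, mem_iInter] at hs1'
    have h1 : ((Ph ζ + (s : ℂ) * nn ζ - Ph ζ) * conj (nn ζ)).re ≤ 0 := hs1' ζ hζ
    have h2 : (Ph ζ + (s : ℂ) * nn ζ - Ph ζ) * conj (nn ζ) =
        (s : ℂ) * ((Complex.normSq (nn ζ) : ℝ) : ℂ) := by
      rw [← Complex.mul_conj]
      ring
    rw [h2, Complex.re_ofReal_mul, Complex.ofReal_re] at h1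
    have h3 : 0 < Complex.normSq (nn ζ) := Complex.normSq_pos.2 hn
    have h4 : (0 : ℝ) < s := hs2
    have := mul_pos h4 h3
    linarith
  have hsub : interior K ⊆ Dc := by
    intro x hx
    by_contra hxD
    obtain ⟨y, hy⟩ := nonempty_Dc
    have h1 : IsPreconnected (interior K) := hKc.interior.isPreconnected
    have hout : ∀ w ∈ interior K, w ∉ Dc → w ∈ (closure Dc)ᶜ := by
      intro w hw hwD hwc
      apply hfr w _ hw
      rw [isOpen_Dc.frontier_eq]
      exact ⟨hwc, hwD⟩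
    obtain ⟨w, -, hw1, hw2⟩ := h1 Dc (closure Dc)ᶜ isOpen_Dc isClosed_closure.isOpen_compl
      (fun w hw => by
        by_cases hwD : w ∈ Dc
        · exact Or.inl hwD
        · exact Or.inr (hout w hw hwD)) ⟨y, hDi hy, hy⟩ ⟨x, hx, hout x hx hxD⟩
    exact hw2 (subset_closure hw1)
  rw [Subset.antisymm hDi hsub]
  exact hKc.interior

end Pool.Agent.Helper608.Egg
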