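import Mathlib
import Pool.Agent.Helper608.CurveA

/-! The area of the domain. -/

open Set Metric MeasureTheory Filter Topology
open scoped ComplexConjugate Real

namespace Pool.Agent.Helper608.Egg

theorem integral_ball_polar (G : ℂ → ℝ) :
    ∫ z in ball (0 : ℂ) 1, G z =
      ∫ p in Ioo (0 : ℝ) 1 ×ˢ Ioo (-π) π, p.1 * G (p.1 * (Real.cos p.2 + Real.sin p.2 * Complex.I)) := by
  rw [← integral_indicator measurableSet_ball, ← Complex.integral_comp_polarCoord_symm]
  have ht : polarCoord.target = Ioi (0 : ℝ) ×ˢ Ioo (-π) π := rfl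
  rw [ht]
  have hsub : Ioo (0 : ℝ) 1 ×ˢ Ioo (-π) π ⊆ Ioi (0 : ℝ) ×ˢ Ioo (-π) π :=
    prod_mono (fun x hx => hx.1) subset_rfl
  have h0 := setIntegral_eq_of_subset_of_forall_sdiff_eq_zero (μ := volume)
    (f := fun p : ℝ × ℝ => p.1 • (ball (0 : ℂ) 1).indicator G (Complex.polarCoord.symm p))
    (measurableSet_Ioi.prod measurableSet_Ioo) hsub ?_
  · rw [h0]
    apply setIntegral_congr_fun (measurableSet_Ioo.prod measurableSet_Ioo)
    rintro ⟨r, θ⟩ ⟨hr, hθ⟩
    have hr0 : (0 : ℝ) < r := hr.1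
    have hr1 : r < 1 := hr.2
    have hmem : Complex.polarCoord.symm (r, θ) ∈ ball (0 : ℂ) 1 := by
      rw [mem_ball_zero_iff, Complex.norm_polarCoord_symm, abs_of_pos hr0]
      exact hr1
    simp only [indicator_of_mem hmem, smul_eq_mul]
    rw [Complex.polarCoord_symm_apply]
  · rintro ⟨r, θ⟩ ⟨⟨hr, hθ⟩, hn⟩
    have hr0 : (0 : ℝ) < r := hr
    have hr1 : 1 ≤ r := by
      by_contra hcon
      push Not at hcon
      exact hn ⟨⟨hr0, hcon⟩, hθ⟩
    have hmem : Complex.polarCoord.symm (r, θ) ∉ ball (0 : ℂ) 1 := by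
      rw [mem_ball_zero_iff, Complex.norm_polarCoord_symm, abs_of_pos hr0]
      exact not_lt.2 hr1
    show r • (ball (0 : ℂ) 1).indicator G (Complex.polarCoord.symm (r, θ)) = 0
    rw [indicator_of_notMem hmem, smul_zero]

theorem int_cos : ∫ θ in Ioo (-π) π, Real.cos θ = 0 := by
  rw [← integral_Ioc_eq_integral_Ioo, ← intervalIntegral.integral_of_le (by linarith [Real.pi_pos])]
  simp

theorem int_cos_sq : ∫ θ in Ioo (-π) π, Real.cos θ ^ 2 = π := by
  rw [← integral_Ioc_eq_integral_Ioo, ← intervalIntegral.integral_of_le (by linarith [Real.pi_pos]),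
    integral_cos_sq]
  simp

theorem int_one : ∫ _ in Ioo (-π) π, (1 : ℝ) = 2 * π := by
  rw [← integral_Ioc_eq_integral_Ioo, ← intervalIntegral.integral_of_le (by linarith [Real.pi_pos])]
  simp
  ring

theorem integral_ball : ∫ z in ball (0 : ℂ) 1, Complex.normSq (1 + z / 10) ^ 2 =
    π * (30601 / 30000) := by
  rw [integral_ball_polar]
  have h1 : ∀ p : ℝ × ℝ, p.1 * Complex.normSq (1 + (p.1 * (Real.cos p.2 + Real.sin p.2 * Complex.I) : ℂ) / 10) ^ 2
      = p.1 * (1 + p.1 ^ 2 / 100) ^ 2 * 1 + (2 / 5 * p.1 ^ 2 * (1 + p.1 ^ 2 / 100)) * Real.cos p.2 +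
        (p.1 ^ 3 / 25) * Real.cos p.2 ^ 2 := by
    intro p
    have h2 : Complex.normSq (1 + (p.1 * (Real.cos p.2 + Real.sin p.2 * Complex.I) : ℂ) / 10) =
        1 + p.1 * Real.cos p.2 / 5 + p.1 ^ 2 / 100 := by
      have h3 : (1 + (p.1 * (Real.cos p.2 + Real.sin p.2 * Complex.I) : ℂ) / 10) =
          ((1 + p.1 * Real.cos p.2 / 10 : ℝ) : ℂ) + ((p.1 * Real.sin p.2 / 10 : ℝ) : ℂ) * Complex.I := by
        push_cast
        ring
      rw [h3, Complex.normSq_add_mul_I]
      have := Real.sin_sq_add_cos_sq p.2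
      linear_combination (p.1 ^ 2 / 100) * this
    rw [h2]
    ring
  simp only [h1]
  have hint : ∀ g : ℝ × ℝ → ℝ, Continuous g → IntegrableOn g (Ioo (0 : ℝ) 1 ×ˢ Ioo (-π) π) := by
    intro g hg
    have h2 : IntegrableOn g (Icc (0 : ℝ) 1 ×ˢ Icc (-π) π) :=
      hg.continuousOn.integrableOn_compact (isCompact_Icc.prod isCompact_Icc)
    exact h2.mono_set (prod_mono Ioo_subset_Icc_self Ioo_subset_Icc_self)
  have i1 := hint (fun p => p.1 * (1 + p.1 ^ 2 / 100) ^ 2 * 1) (by fun_prop)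
  have i2 := hint (fun p => (2 / 5 * p.1 ^ 2 * (1 + p.1 ^ 2 / 100)) * Real.cos p.2) (by fun_prop)
  have i3 := hint (fun p => (p.1 ^ 3 / 25) * Real.cos p.2 ^ 2) (by fun_prop)
  have i12 := hint (fun p => p.1 * (1 + p.1 ^ 2 / 100) ^ 2 * 1 +
    (2 / 5 * p.1 ^ 2 * (1 + p.1 ^ 2 / 100)) * Real.cos p.2) (by fun_prop)
  rw [integral_add i12 i3, integral_add i1 i2]
  rw [Measure.volume_eq_prod]
  rw [setIntegral_prod_mul (fun r : ℝ => r * (1 + r ^ 2 / 100) ^ 2) (fun _ => (1 : ℝ)),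
    setIntegral_prod_mul (fun r : ℝ => 2 / 5 * r ^ 2 * (1 + r ^ 2 / 100)) (fun θ => Real.cos θ),
    setIntegral_prod_mul (fun r : ℝ => r ^ 3 / 25) (fun θ => Real.cos θ ^ 2)]
  rw [int_one, int_cos, int_cos_sq, mul_zero, add_zero]
  have j1 : ∫ r in Ioo (0 : ℝ) 1, r * (1 + r ^ 2 / 100) ^ 2 = 1 / 2 + 1 / 200 + 1 / 60000 := by
    rw [← integral_Ioc_eq_integral_Ioo, ← intervalIntegral.integral_of_le zero_le_one]
    have : ∀ r : ℝ, r * (1 + r ^ 2 / 100) ^ 2 = r + r ^ 3 / 50 + r ^ 5 / 10000 := by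
      intro r
      ring
    simp only [this]
    rw [intervalIntegral.integral_add, intervalIntegral.integral_add]
    · simp only [intervalIntegral.integral_div, integral_pow, integral_id]
      norm_num
    all_goals exact Continuous.intervalIntegrable (by fun_prop) _ _
  have j2 : ∫ r in Ioo (0 : ℝ) 1, r ^ 3 / 25 = 1 / 100 := by
    rw [← integral_Ioc_eq_integral_Ioo, ← intervalIntegral.integral_of_le zero_le_one]
    simp only [intervalIntegral.integral_div, integral_pow]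
    norm_num
  rw [j1, j2]
  ring

theorem det_mul (c : ℂ) :
    (((ContinuousLinearMap.toSpanSingleton ℂ c : ℂ →L[ℂ] ℂ).restrictScalars ℝ)).det =
      Complex.normSq c := by
  simp [ContinuousLinearMap.det, LinearMap.det_restrictScalars, Algebra.norm_complex_eq]

theorem volume_Dc : (volume Dc).toReal = π * (30601 / 30000) := by
  have h1 := integral_image_eq_integral_abs_det_fderiv_smul (volume : Measure ℂ)
    (s := ball (0 : ℂ) 1) (f := Ph)
    (f' := fun z => (ContinuousLinearMap.toSpanSingleton ℂ ((1 + z / 10) ^ 2) :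
      ℂ →L[ℂ] ℂ).restrictScalars ℝ)
    measurableSet_ball
    (fun z _ => ((hasDerivAt_Ph z).hasFDerivAt.restrictScalars ℝ).hasFDerivWithinAt)
    (Ph_inj.mono ball_subset_closedBall) (fun _ => (1 : ℝ))
  rw [setIntegral_const, smul_eq_mul, mul_one] at h1
  have h2 : volume.real (Ph '' ball 0 1) = (volume Dc).toReal := rfl
  rw [← h2, h1, ← integral_ball]
  apply setIntegral_congr_fun measurableSet_ball
  intro z _
  simp only [det_mul, smul_eq_mul, mul_one]
  rw [abs_of_nonneg (Complex.normSq_nonneg _), map_pow]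

end Pool.Agent.Helper608.Egg
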