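import Mathlib
import Pool.Agent.Helper608.CurveB

/-! The boundary curve of the domain and its integrals. -/

open Set Metric MeasureTheory Filter Topology
open scoped ComplexConjugate Real ContDiff

namespace Pool.Agent.Helper608.Egg

/-- The identification of the complex plane with `ℝ²`. -/
noncomputable def J : ℂ ≃ₗᵢ[ℝ] EuclideanSpace ℝ (Fin 2) := Complex.orthonormalBasisOneI.repr

theorem J_zero (z : ℂ) : J z 0 = z.re := rfl

theorem J_one (z : ℂ) : J z 1 = z.im := rfl

theorem re_real (a b : ℝ) : ((a : ℂ) + (b : ℂ) * Complex.I).re = a := by simp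

theorem im_real (a b : ℝ) : ((a : ℂ) + (b : ℂ) * Complex.I).im = b := by simp

/-- The unit circle. -/
noncomputable def zt (t : ℝ) : ℂ := Complex.exp (2 * π * t * Complex.I)

theorem norm_zt (t : ℝ) : ‖zt t‖ = 1 := by
  have : (2 * π * t * Complex.I : ℂ) = ((2 * π * t : ℝ) : ℂ) * Complex.I := by push_cast; ring
  rw [zt, this, Complex.norm_exp_ofReal_mul_I]

theorem hasDerivAt_zt (t : ℝ) : HasDerivAt zt (2 * π * Complex.I * zt t) t := by
  have h1 : HasDerivAt (fun s : ℝ => (2 * π * (s : ℂ) * Complex.I : ℂ)) (2 * π * Complex.I) t := by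
    have h0 : HasDerivAt (fun s : ℝ => (s : ℂ)) 1 t := Complex.ofRealCLM.hasDerivAt
    have := (h0.const_mul (2 * π : ℂ)).mul_const Complex.I
    simpa using this
  have h2 := h1.cexp
  refine h2.congr_deriv ?_
  rw [zt]
  ring

theorem zt_re (t : ℝ) : (zt t).re = Real.cos (2 * π * t) := by
  have : (2 * π * t * Complex.I : ℂ) = ((2 * π * t : ℝ) : ℂ) * Complex.I := by push_cast; ring
  rw [zt, this, Complex.exp_ofReal_mul_I_re]

theorem zt_im (t : ℝ) : (zt t).im = Real.sin (2 * π * t) := by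
  have : (2 * π * t * Complex.I : ℂ) = ((2 * π * t : ℝ) : ℂ) * Complex.I := by push_cast; ring
  rw [zt, this, Complex.exp_ofReal_mul_I_im]

/-- The boundary curve. -/
noncomputable def gam (t : ℝ) : EuclideanSpace ℝ (Fin 2) := J (Ph (zt t))

theorem contDiff_zt : ContDiff ℝ ∞ zt := by
  unfold zt
  apply ContDiff.cexp
  exact (contDiff_const.mul Complex.ofRealCLM.contDiff).mul contDiff_const

theorem contDiff_gam : ContDiff ℝ ∞ gam := by
  have h1 : ContDiff ℝ ∞ (fun t => Ph (zt t)) := by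
    unfold Ph
    have h := contDiff_zt
    exact (h.add ((h.pow 2).div_const _)).add ((h.pow 3).div_const _)
  exact J.toContinuousLinearEquiv.contDiff.comp h1

/-- The velocity in the complex plane. -/
noncomputable def vel (t : ℝ) : ℂ := (1 + zt t / 10) ^ 2 * (2 * π * Complex.I * zt t)

theorem hasDerivAt_gam (t : ℝ) : HasDerivAt gam (J (vel t)) t := by
  have h1 : HasDerivAt (fun t => Ph (zt t)) (vel t) t :=
    (hasDerivAt_Ph (zt t)).comp t (hasDerivAt_zt t)
  exact (J.toContinuousLinearEquiv : ℂ →L[ℝ] EuclideanSpace ℝ (Fin 2)).hasFDerivAt.comp_hasDerivAt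
    t h1

theorem deriv_gam (t : ℝ) : deriv gam t = J (vel t) := (hasDerivAt_gam t).deriv

theorem sq_norm_b (t : ℝ) : ‖(1 + zt t / 10) ^ 2‖ = 101 / 100 + 1 / 5 * Real.cos (2 * π * t) := by
  rw [norm_pow, ← Complex.normSq_eq_norm_sq]
  have h3 : 1 + zt t / 10 = ((1 + Real.cos (2 * π * t) / 10 : ℝ) : ℂ) +
      ((Real.sin (2 * π * t) / 10 : ℝ) : ℂ) * Complex.I := by
    conv_lhs => rw [← Complex.re_add_im (zt t), zt_re, zt_im]
    push_cast
    ring
  rw [h3, Complex.normSq_add_mul_I]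
  have := Real.sin_sq_add_cos_sq (2 * π * t)
  linear_combination (1 / 100) * this

theorem norm_deriv_gam (t : ℝ) :
    ‖deriv gam t‖ = 2 * π * (101 / 100 + 1 / 5 * Real.cos (2 * π * t)) := by
  rw [deriv_gam, LinearIsometryEquiv.norm_map, vel, norm_mul, sq_norm_b, norm_mul, norm_zt]
  have : ‖(2 * π * Complex.I : ℂ)‖ = 2 * π := by
    rw [norm_mul, norm_mul, Complex.norm_I, Complex.norm_real, Real.norm_eq_abs,
      abs_of_pos Real.pi_pos]
    simp
  rw [this]
  ring

theorem deriv_gam_ne (t : ℝ) : deriv gam t ≠ 0 := by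
  rw [← norm_pos_iff, norm_deriv_gam]
  have h1 := Real.neg_one_le_cos (2 * π * t)
  have h2 := Real.pi_pos
  have : 0 < 101 / 100 + 1 / 5 * Real.cos (2 * π * t) := by linarith
  positivity

theorem zt_periodic : Function.Periodic zt 1 := by
  intro t
  rw [zt, zt]
  have : (2 * π * ((t + 1 : ℝ) : ℂ) * Complex.I : ℂ) = 2 * π * t * Complex.I + 2 * π * Complex.I := by
    push_cast
    ring
  rw [this, Complex.exp_periodic]

theorem gam_periodic : Function.Periodic gam 1 := by
  intro t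
  rw [gam, gam, zt_periodic t]

theorem zt_inj : InjOn zt (Ico 0 1) := by
  intro s hs t ht h
  rw [zt, zt, Complex.exp_eq_exp_iff_exists_int] at h
  obtain ⟨n, hn⟩ := h
  have h1 : (2 * π * Complex.I : ℂ) ≠ 0 := by
    have : (π : ℂ) ≠ 0 := by exact_mod_cast Real.pi_ne_zero
    simp [this]
  have h2 : (s : ℂ) = t + n := by
    apply mul_left_cancel₀ h1
    linear_combination hn
  have h3 : s = t + n := by exact_mod_cast h2
  have h4 : (n : ℝ) < 1 := by linarith [hs.2, ht.1]
  have h5 : (-1 : ℝ) < n := by linarith [hs.1, ht.2]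
  have h6 : n < 1 := by exact_mod_cast h4
  have h7 : -1 < n := by exact_mod_cast h5
  have h8 : n = 0 := by omega
  rw [h3, h8]
  simp

theorem gam_inj : InjOn gam (Ico 0 1) := by
  intro s hs t ht h
  have h1 : Ph (zt s) = Ph (zt t) := J.injective h
  apply zt_inj hs ht
  exact Ph_inj (by simp [norm_zt]) (by simp [norm_zt]) h1

theorem range_zt : range zt = sphere (0 : ℂ) 1 := by
  ext z
  constructor
  · rintro ⟨t, rfl⟩
    simp [norm_zt]
  · intro hz
    have hz1 : ‖z‖ = 1 := by simpa using hz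
    refine ⟨Complex.arg z / (2 * π), ?_⟩
    rw [zt]
    have h1 : (2 * π * ((Complex.arg z / (2 * π) : ℝ) : ℂ) * Complex.I : ℂ) =
        Complex.arg z * Complex.I := by
      have : (π : ℂ) ≠ 0 := by exact_mod_cast Real.pi_ne_zero
      push_cast
      field_simp
    rw [h1]
    have := Complex.norm_mul_exp_arg_mul_I z
    rw [hz1] at this
    simpa using this

/-- The domain in `ℝ²`. -/
def Dom : Set (EuclideanSpace ℝ (Fin 2)) := J '' Dc

theorem range_gam : range gam = J '' (Ph '' sphere 0 1) := by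
  rw [← range_zt, ← range_comp, ← range_comp]
  rfl

theorem isOpen_Dom : IsOpen Dom := J.toHomeomorph.isOpenMap _ isOpen_Dc

theorem convex_Dom : Convex ℝ Dom := convex_Dc.linear_image J.toLinearEquiv.toLinearMap

theorem isBounded_Dom : Bornology.IsBounded Dom := J.lipschitz.isBounded_image isBounded_Dc

theorem nonempty_Dom : Dom.Nonempty := nonempty_Dc.image _

theorem frontier_Dom : frontier Dom = range gam := by
  rw [range_gam, ← frontier_Dc]
  exact (J.toHomeomorph.image_frontier Dc).symm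

theorem volume_Dom : (volume Dom).toReal = π * (30601 / 30000) := by
  rw [← volume_Dc]
  congr 1
  have h : Dom = J.symm ⁻¹' Dc := by
    rw [Dom]
    exact J.toEquiv.image_eq_preimage_symm _
  rw [h]
  exact J.symm.measurePreserving.measure_preimage isOpen_Dc.measurableSet.nullMeasurableSet

/-! ### The integrals -/

theorem gam_zero (t : ℝ) : gam t 0 = -1 / 10 + 99 / 100 * Real.cos (2 * π * t) +
    1 / 5 * Real.cos (2 * π * t) ^ 2 + 1 / 75 * Real.cos (2 * π * t) ^ 3 := by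
  rw [gam, J_zero, Ph]
  set c := Real.cos (2 * π * t) with hc
  set s := Real.sin (2 * π * t) with hs
  have hz : zt t = (c : ℂ) + (s : ℂ) * Complex.I := by
    rw [← Complex.re_add_im (zt t), zt_re, zt_im]
  have hcs : s ^ 2 + c ^ 2 = 1 := Real.sin_sq_add_cos_sq (2 * π * t)
  have h1 : zt t + zt t ^ 2 / 10 + zt t ^ 3 / 300 =
      ((c + (c ^ 2 - s ^ 2) / 10 + (c ^ 3 - 3 * c * s ^ 2) / 300 : ℝ) : ℂ) +
      ((s + 2 * c * s / 10 + (3 * c ^ 2 * s - s ^ 3) / 300 : ℝ) : ℂ) * Complex.I := by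
    rw [hz]
    have hI := Complex.I_sq
    push_cast
    linear_combination ((s : ℂ) ^ 2 / 10 + 3 * c * (s : ℂ) ^ 2 / 300 +
      (s : ℂ) ^ 3 * Complex.I / 300) * hI
  rw [h1, re_real]
  linear_combination (-1 / 10 - c / 100) * hcs

theorem deriv_gam_one (t : ℝ) : deriv gam t 1 = 2 * π * (-1 / 5 + 97 / 100 * Real.cos (2 * π * t) +
    2 / 5 * Real.cos (2 * π * t) ^ 2 + 1 / 25 * Real.cos (2 * π * t) ^ 3) := by
  rw [deriv_gam, J_one, vel]
  set c := Real.cos (2 * π * t) with hc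
  set s := Real.sin (2 * π * t) with hs
  have hz : zt t = (c : ℂ) + (s : ℂ) * Complex.I := by
    rw [← Complex.re_add_im (zt t), zt_re, zt_im]
  have hcs : s ^ 2 + c ^ 2 = 1 := Real.sin_sq_add_cos_sq (2 * π * t)
  have h1 : (1 + zt t / 10) ^ 2 * (2 * π * Complex.I * zt t) =
      ((-(2 * π * (s + 2 * c * s / 5 + (3 * c ^ 2 * s - s ^ 3) / 100)) : ℝ) : ℂ) +
      ((2 * π * (c + (c ^ 2 - s ^ 2) / 5 + (c ^ 3 - 3 * c * s ^ 2) / 100) : ℝ) : ℂ) *
        Complex.I := by
    rw [hz]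
    have hI := Complex.I_sq
    push_cast
    linear_combination (2 * π * ((s : ℂ) + 2 * c * s / 5 + s ^ 2 * Complex.I / 5 +
      3 * c ^ 2 * s / 100 + 3 * c * s ^ 2 * Complex.I / 100 + s ^ 3 * Complex.I ^ 2 / 100 -
        s ^ 3 / 100)) * hI
  rw [h1, im_real]
  linear_combination (2 * π * (-1 / 5 - 3 * c / 100)) * hcs

/-- Moments of the cosine. -/
noncomputable def mo (n : ℕ) : ℝ := (2 * π)⁻¹ * ∫ θ in (0 : ℝ)..(2 * π), Real.cos θ ^ n

theorem mo_eq (n : ℕ) : ∫ t in Ico (0 : ℝ) 1, Real.cos (2 * π * t) ^ n = mo n := by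
  rw [integral_Ico_eq_integral_Ioo, ← integral_Ioc_eq_integral_Ioo,
    ← intervalIntegral.integral_of_le zero_le_one,
    intervalIntegral.integral_comp_mul_left (fun θ => Real.cos θ ^ n)
      (by positivity : (2 * π : ℝ) ≠ 0)]
  rw [mo, mul_zero, mul_one, smul_eq_mul]

theorem mo_zero : mo 0 = 1 := by
  rw [mo]
  have := Real.pi_pos
  simp
  field_simp

theorem mo_one : mo 1 = 0 := by
  rw [mo]
  simp

theorem mo_add_two (n : ℕ) : mo (n + 2) = (n + 1) / (n + 2) * mo n := by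
  rw [mo, mo, integral_cos_pow]
  simp
  ring

theorem mo_two : mo 2 = 1 / 2 := by
  rw [show (2 : ℕ) = 0 + 2 from rfl, mo_add_two, mo_zero]
  norm_num

theorem mo_three : mo 3 = 0 := by
  rw [show (3 : ℕ) = 1 + 2 from rfl, mo_add_two, mo_one]
  norm_num

theorem mo_four : mo 4 = 3 / 8 := by
  rw [show (4 : ℕ) = 2 + 2 from rfl, mo_add_two, mo_two]
  norm_num

theorem mo_five : mo 5 = 0 := by
  rw [show (5 : ℕ) = 3 + 2 from rfl, mo_add_two, mo_three]
  norm_num

theorem mo_six : mo 6 = 5 / 16 := by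
  rw [show (6 : ℕ) = 4 + 2 from rfl, mo_add_two, mo_four]
  norm_num

theorem mo_seven : mo 7 = 0 := by
  rw [show (7 : ℕ) = 5 + 2 from rfl, mo_add_two, mo_five]
  norm_num

theorem mo_eight : mo 8 = 35 / 128 := by
  rw [show (8 : ℕ) = 6 + 2 from rfl, mo_add_two, mo_six]
  norm_num

theorem mo_nine : mo 9 = 0 := by
  rw [show (9 : ℕ) = 7 + 2 from rfl, mo_add_two, mo_seven]
  norm_num

theorem int_poly {n : ℕ} (p : Fin n → ℝ) :
    ∫ t in Ico (0 : ℝ) 1, ∑ i : Fin n, p i * Real.cos (2 * π * t) ^ (i : ℕ) =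
      ∑ i : Fin n, p i * mo i := by
  rw [integral_finsetSum]
  · refine Finset.sum_congr rfl (fun i _ => ?_)
    rw [integral_const_mul, mo_eq]
  · intro i _
    have hc : Continuous (fun t : ℝ => p i * Real.cos (2 * π * t) ^ (i : ℕ)) := by fun_prop
    exact (hc.integrableOn_Icc).mono_set Ico_subset_Icc_self

theorem int_L : ∫ t in Ico (0 : ℝ) 1, ‖deriv gam t‖ = 2 * π * (101 / 100) := by
  have h := int_poly (n := 2) ![2 * π * (101 / 100), 2 * π * (1 / 5)]
  simp only [norm_deriv_gam]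
  simp only [Fin.sum_univ_succ, Fin.sum_univ_zero, Matrix.cons_val_zero,
    Matrix.cons_val_succ, Fin.val_zero, Fin.val_succ, mo_zero, mo_one, zero_add] at h
  rw [show 2 * π * (101 / 100) = 2 * π * (101 / 100) * 1 + (2 * π * (1 / 5) * 0 + 0) by ring, ← h]
  congr 1
  ext t
  ring

theorem int_X : ∫ t in Ico (0 : ℝ) 1, gam t 0 * ‖deriv gam t‖ = 2 * π * (1 / 10) := by
  have h := int_poly (n := 5) ![2 * π * (-101 / 1000), 2 * π * (9799 / 10000), 2 * π * (2 / 5),
    2 * π * (401 / 7500), 2 * π * (1 / 375)]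
  simp only [norm_deriv_gam, gam_zero]
  simp only [Fin.sum_univ_succ, Fin.sum_univ_zero, Matrix.cons_val_zero,
    Matrix.cons_val_succ, Fin.val_zero, Fin.val_succ, mo_zero, mo_one, mo_two, mo_three, mo_four,
    zero_add, Nat.reduceAdd] at h
  have h2 : 2 * π * (1 / 10) = 2 * π * (-101 / 1000) * 1 + (2 * π * (9799 / 10000) * 0 +
    (2 * π * (2 / 5) * (1 / 2) + (2 * π * (401 / 7500) * 0 +
      (2 * π * (1 / 375) * (3 / 8) + 0)))) := by ring
  rw [h2, ← h]
  congr 1
  ext t
  ring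

theorem int_A : ∫ t in Ico (0 : ℝ) 1, gam t 0 * deriv gam t 1 = 2 * π * (30601 / 60000) := by
  have h := int_poly (n := 7) ![2 * π * (1 / 50), 2 * π * (-59 / 200), 2 * π * (8803 / 10000),
    2 * π * (7 / 12), 2 * π * (497 / 3750), 2 * π * (1 / 75), 2 * π * (1 / 1875)]
  simp only [deriv_gam_one, gam_zero]
  simp only [Fin.sum_univ_succ, Fin.sum_univ_zero, Matrix.cons_val_zero,
    Matrix.cons_val_succ, Fin.val_zero, Fin.val_succ, mo_zero, mo_one, mo_two, mo_three, mo_four,
    mo_five, mo_six, zero_add, Nat.reduceAdd] at h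
  have h2 : 2 * π * (30601 / 60000) = 2 * π * (1 / 50) * 1 + (2 * π * (-59 / 200) * 0 +
    (2 * π * (8803 / 10000) * (1 / 2) + (2 * π * (7 / 12) * 0 +
      (2 * π * (497 / 3750) * (3 / 8) + (2 * π * (1 / 75) * 0 +
        (2 * π * (1 / 1875) * (5 / 16) + 0)))))) := by ring
  rw [h2, ← h]
  congr 1
  ext t
  ring

theorem int_B : ∫ t in Ico (0 : ℝ) 1, gam t 0 ^ 2 / 2 * deriv gam t 1 = 2 * π * (101 / 2000) := by
  have h := int_poly (n := 10) ![2 * π * (-1 / 1000), 2 * π * (493 / 20000),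
    2 * π * (-4701 / 25000), 2 * π * (2263291 / 6000000), 2 * π * (13807 / 37500),
    2 * π * (193709 / 1500000), 2 * π * (667 / 28125), 2 * π * (2791 / 1125000),
    2 * π * (4 / 28125), 2 * π * (1 / 281250)]
  simp only [deriv_gam_one, gam_zero]
  simp only [Fin.sum_univ_succ, Fin.sum_univ_zero, Matrix.cons_val_zero,
    Matrix.cons_val_succ, Fin.val_zero, Fin.val_succ, mo_zero, mo_one, mo_two, mo_three, mo_four,
    mo_five, mo_six, mo_seven, mo_eight, mo_nine, zero_add, Nat.reduceAdd] at h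
  have h2 : 2 * π * (101 / 2000) = 2 * π * (-1 / 1000) * 1 + (2 * π * (493 / 20000) * 0 +
    (2 * π * (-4701 / 25000) * (1 / 2) + (2 * π * (2263291 / 6000000) * 0 +
      (2 * π * (13807 / 37500) * (3 / 8) + (2 * π * (193709 / 1500000) * 0 +
        (2 * π * (667 / 28125) * (5 / 16) + (2 * π * (2791 / 1125000) * 0 +
          (2 * π * (4 / 28125) * (35 / 128) + (2 * π * (1 / 281250) * 0 + 0))))))))) := by ring
  rw [h2, ← h]
  congr 1
  ext t
  ring

end Pool.Agent.Helper608.Egg
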