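import Pool.Agent.Helper608.FluxTwo
import Pool.Agent.Helper608.CurveC

/-! No surface of extremal constant mean curvature. -/

open Set MeasureTheory Filter Topology
open scoped Manifold ContDiff InnerProductSpace

set_option linter.unusedSectionVars false

namespace Pool.Agent.Helper608

lemma norm_inclP (x : E2) : ‖inclP x‖ = ‖x‖ := by
  rw [← sq_eq_sq₀ (norm_nonneg _) (norm_nonneg _), normsq3, EuclideanSpace.norm_sq_eq]
  simp [inclP, Fin.sum_univ_two]

/-- The centroid identity for a plane boundary curve. -/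
theorem centroid_planar {γ : ℝ → E2} (hs : ContDiff ℝ ∞ γ) (hp : Function.Periodic γ 1)
    (hd : ∀ t, deriv γ t ≠ 0) (hi : InjOn γ (Ico 0 1))
    {M : Type*} [TopologicalSpace M] [T2Space M] [CompactSpace M]
    [ChartedSpace (EuclideanHalfSpace 2) M] [IsManifold (𝓡∂ 2) ∞ M]
    {f N : M → E3} {H : ℝ} (h : IsCMCImmersion f N H)
    (hinj : InjOn f ((𝓡∂ 2).boundary M))
    (hbd : f '' ((𝓡∂ 2).boundary M) = inclP '' (range γ))
    (hL : |2 * H * ∫ t in Ico (0:ℝ) 1, γ t 0 * deriv γ t 1| = ∫ t in Ico (0:ℝ) 1, ‖deriv γ t‖) :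
    (∫ t in Ico (0:ℝ) 1, γ t 0 ^ 2 / 2 * deriv γ t 1) * (∫ t in Ico (0:ℝ) 1, ‖deriv γ t‖) =
    (∫ t in Ico (0:ℝ) 1, γ t 0 * deriv γ t 1) * ∫ t in Ico (0:ℝ) 1, γ t 0 * ‖deriv γ t‖ := by
  borelize M
  obtain ⟨μ, hμ⟩ := exists_isAreaMeasure f h.smooth_map
  obtain ⟨β, B⟩ := exists_bdCurve h hinj hbd hs hd (fun t => ⟨t, rfl⟩)
  have P : BdOne f (fun t => inclP (γ t)) β := by
    refine ⟨B, fun t ht t' ht' he => hi ht ht' (inclP_injective he), ?_⟩
    intro m hm
    have h3 : f m ∈ inclP '' (range γ) := by rw [← hbd]; exact ⟨m, hm, rfl⟩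
    obtain ⟨x, ⟨s, rfl⟩, hxf⟩ := h3
    obtain ⟨t, ht, hte⟩ := hp.exists_mem_Ico₀ one_pos s
    refine ⟨t, ht, ?_⟩
    apply hinj (B.mem t) hm
    rw [B.lift, ← hte, hxf]
  have hdiff : Differentiable ℝ γ := hs.differentiable (by simp)
  have e1 : ∀ t, deriv (fun t => inclP (γ t)) t = inclP (deriv γ t) := deriv_incl γ hdiff
  have e2 : ∀ t, ‖deriv (fun t => inclP (γ t)) t‖ = ‖deriv γ t‖ := fun t => by
    rw [e1, norm_inclP]
  have e3 : ∀ t, deriv (fun t => inclP (γ t)) t 1 = deriv γ t 1 := fun t => by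
    rw [e1]
    simp [inclP]
  have e4 : ∀ t, inclP (γ t) 0 = γ t 0 := fun t => by simp [inclP]
  have key := P.centroid h hμ (fun t => by simp [inclP])
  simp only [e2, e3, e4] at key
  exact key hL

theorem egg_main
    {M : Type*} [TopologicalSpace M] [T2Space M] [CompactSpace M]
    [ChartedSpace (EuclideanHalfSpace 2) M] [IsManifold (𝓡∂ 2) ∞ M]
    {f N : M → E3} {H : ℝ} (h : IsCMCImmersion f N H)
    (hinj : InjOn f ((𝓡∂ 2).boundary M))
    (hbd : f '' ((𝓡∂ 2).boundary M) = inclP '' (range Egg.gam)) :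
    |H| ≠ (∫ t in Ico (0:ℝ) 1, ‖deriv Egg.gam t‖) / (2 * (volume Egg.Dom).toReal) := by
  intro hH
  have hpi := Real.pi_pos
  rw [Egg.int_L, Egg.volume_Dom] at hH
  have h1 := centroid_planar Egg.contDiff_gam Egg.gam_periodic Egg.deriv_gam_ne Egg.gam_inj h
    hinj hbd (by
      rw [Egg.int_A, Egg.int_L, abs_mul, abs_mul, hH, abs_of_pos (by norm_num : (0:ℝ) < 2),
        abs_of_pos (by positivity : (0:ℝ) < 2 * Real.pi * (30601 / 60000))]
      field_simp
      norm_num)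
  rw [Egg.int_A, Egg.int_L, Egg.int_B, Egg.int_X] at h1
  have h2 : Real.pi ^ 2 = 0 := by
    linear_combination (-1 / (4 * (101 * 101 / 200000 - 30601 / 600000) * -1)) * h1
  have h3 : 0 < Real.pi ^ 2 := by positivity
  linarith

end Pool.Agent.Helper608
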