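import Mathlib

open Set MeasureTheory
open scoped Manifold ContDiff InnerProductSpace

namespace Pool.Agent.Helper608

/-- The Euclidean plane. -/
abbrev E2 := EuclideanSpace ℝ (Fin 2)

/-- Euclidean three-space. -/
abbrev E3 := EuclideanSpace ℝ (Fin 3)

/-- The plane `P = {x₃ = 0}` of three-space, parametrised by `ℝ²`. -/
def inclP (x : E2) : E3 := !₂[x 0, x 1, 0]

/-- `C ⊆ ℝ²` is a simple closed convex curve with interior `D`: the set `D` is open, convex,
bounded and nonempty, and `C` is its topological boundary. -/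
structure IsConvexCurve (C D : Set E2) : Prop where
  isOpen : IsOpen D
  convex : Convex ℝ D
  isBounded : Bornology.IsBounded D
  nonempty : D.Nonempty
  frontier_eq : frontier D = C

section Surface

variable {M : Type*} [TopologicalSpace M] [ChartedSpace (EuclideanHalfSpace 2) M]

/-- The differential at `p` of a map `f` from the surface with boundary `M` to `ℝ³`. -/
noncomputable def dmap (f : M → E3) (p : M) : TangentSpace (𝓡∂ 2) p →L[ℝ] E3 :=
  mfderiv (𝓡∂ 2) 𝓘(ℝ, E3) f p

/-- `f : M → ℝ³` is a smooth immersion of the surface with boundary `M`, with smooth unit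
normal field `N`, whose mean curvature (with respect to `N`) is the constant `H`. The mean
curvature at `p` is `-1/2` times the trace of the derivative of `N`, computed in a basis of
`T_p M` orthonormal for the induced metric. -/
structure IsCMCImmersion (f N : M → E3) (H : ℝ) : Prop where
  smooth_map : ContMDiff (𝓡∂ 2) 𝓘(ℝ, E3) ∞ f
  immersion : ∀ p : M, Function.Injective (dmap f p)
  smooth_normal : ContMDiff (𝓡∂ 2) 𝓘(ℝ, E3) ∞ N
  norm_normal : ∀ p : M, ‖N p‖ = 1
  inner_normal : ∀ (p : M) (v : TangentSpace (𝓡∂ 2) p), ⟪N p, dmap f p v⟫_ℝ = 0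
  mean_curvature : ∀ (p : M) (v w : TangentSpace (𝓡∂ 2) p),
    ‖dmap f p v‖ = 1 → ‖dmap f p w‖ = 1 → ⟪dmap f p v, dmap f p w⟫_ℝ = 0 →
    -(⟪dmap N p v, dmap f p v⟫_ℝ + ⟪dmap N p w, dmap f p w⟫_ℝ) / 2 = H

/-- The partial derivative `∂ᵢ (f ∘ φ⁻¹)` of the map `f` read in the chart `φ` (one-sided at
the boundary of the half plane). -/
noncomputable def chartPartial (φ : OpenPartialHomeomorph M (EuclideanHalfSpace 2))
    (f : M → E3) (i : Fin 2) (z : E2) : E3 :=
  fderivWithin ℝ (f ∘ (φ.extend (𝓡∂ 2)).symm) (range (𝓡∂ 2)) z (EuclideanSpace.single i 1)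

/-- The area element `√(|∂₀g|²|∂₁g|² - ⟨∂₀g, ∂₁g⟩²)` of `f` in the chart `φ`, `g = f ∘ φ⁻¹`. -/
noncomputable def areaDensity (φ : OpenPartialHomeomorph M (EuclideanHalfSpace 2))
    (f : M → E3) (z : E2) : ℝ :=
  Real.sqrt (‖chartPartial φ f 0 z‖ ^ 2 * ‖chartPartial φ f 1 z‖ ^ 2 -
    ⟪chartPartial φ f 0 z, chartPartial φ f 1 z⟫_ℝ ^ 2)

/-- `μ` is the area measure of the metric induced on `M` by `f`: in every chart of the
atlas it has the density `areaDensity` with respect to Lebesgue measure. -/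
def IsAreaMeasure [MeasurableSpace M] (f : M → E3) (μ : Measure M) : Prop :=
  ∀ φ ∈ atlas (EuclideanHalfSpace 2) M, ∀ s : Set M, MeasurableSet s → s ⊆ φ.source →
    μ s = ∫⁻ z in (φ.extend (𝓡∂ 2)) '' s, ENNReal.ofReal (areaDensity φ f z)

end Surface

end Pool.Agent.Helper608
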