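import Pool.Agent.Helper608.Polar1

open Set Filter Topology
open scoped ContDiff InnerProductSpace

namespace Pool.Agent.Helper608

lemma no_shadow {D : Set E2} (hO : IsOpen D) (hc : Convex ℝ D) {x y z : E2} {a : ℝ}
    (hx : x ∈ frontier D) (hy : y ∈ frontier D) (hz : z ∈ D) (ha0 : a ≠ 0) (ha1 : -1 < a)
    (h : y - x = a • (x - z)) : False := by
  have hz' : z ∈ interior D := by rwa [hO.interior_eq]
  have hxc : x ∈ closure D := hx.1
  have hyc : y ∈ closure D := hy.1
  rcases lt_or_gt_of_ne ha0 with hneg | hpos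
  · -- y between
    have : y ∈ openSegment ℝ z x := by
      refine ⟨-a, 1 + a, by linarith, by linarith, by ring, ?_⟩
      have : y = x + a • (x - z) := by rw [← h]; abel
      rw [this]
      module
    exact hy.2 (hc.openSegment_interior_closure_subset_interior hz' hxc this)
  · have : x ∈ openSegment ℝ z y := by
      refine ⟨a / (1 + a), 1 / (1 + a), by positivity, by positivity, by rw [← add_div, add_comm, div_self (by positivity)], ?_⟩
      have : y = x + a • (x - z) := by rw [← h]; abel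
      rw [this]
      have h1 : (1 + a) ≠ 0 := by positivity
      have : (1 + a) • ((a / (1 + a)) • z + (1 / (1 + a)) • (x + a • (x - z))) = (1 + a) • x := by
        rw [smul_add, smul_smul, smul_smul, mul_div_cancel₀ _ h1, mul_div_cancel₀ _ h1]
        module
      exact smul_right_injective _ h1 this
    exact hx.2 (hc.openSegment_interior_closure_subset_interior hz' hyc this)

lemma transversal {D : Set E2} (hO : IsOpen D) (hc : Convex ℝ D) {q : E2} (hq : q ∈ D)
    {γ c : ℝ → E2} {P : ℝ → ℝ} {t0 : ℝ} (hγ : ∀ t, γ t ∈ frontier D)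
    (hγ0 : ∀ᶠ t in 𝓝[≠] t0, γ t ≠ γ t0)
    (hP : ContinuousAt P t0) (hcP : ∀ᶠ t in 𝓝 t0, c (P t) = γ t)
    (hd : DifferentiableAt ℝ c (P t0)) (k : ℝ) (hk : k ≠ 0)
    (hv : deriv c (P t0) = k • (γ t0 - q)) : False := by
  have hc0 : c (P t0) = γ t0 := hcP.self_of_nhds
  have hslope : Tendsto (slope c (P t0)) (𝓝[≠] (P t0)) (𝓝 (deriv c (P t0))) :=
    hasDerivAt_iff_tendsto_slope.mp hd.hasDerivAt
  have hne : ∀ᶠ t in 𝓝[≠] t0, P t ≠ P t0 := by
    filter_upwards [hγ0, hcP.filter_mono nhdsWithin_le_nhds] with t h1 h2 h3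
    apply h1
    rw [← h2, h3, hc0]
  have hPt : Tendsto P (𝓝[≠] t0) (𝓝[≠] (P t0)) :=
    tendsto_nhdsWithin_iff.mpr ⟨hP.tendsto.mono_left nhdsWithin_le_nhds, hne⟩
  have h1 : Tendsto (fun t => γ t0 - k⁻¹ • slope c (P t0) (P t)) (𝓝[≠] t0) (𝓝 q) := by
    have h2 := (hslope.comp hPt).const_smul (k⁻¹)
    have h3 := h2.const_sub (γ t0)
    rw [hv, smul_smul, inv_mul_cancel₀ hk, one_smul, sub_sub_cancel] at h3
    exact h3
  have h2 : ∀ᶠ t in 𝓝[≠] t0, γ t0 - k⁻¹ • slope c (P t0) (P t) ∈ D :=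
    h1.eventually (hO.mem_nhds hq)
  have h3 : ∀ᶠ t in 𝓝[≠] t0, -1 < k * (P t - P t0) := by
    have h4 : Tendsto (fun t => k * (P t - P t0)) (𝓝[≠] t0) (𝓝 (k * (P t0 - P t0))) :=
      ((hP.tendsto.mono_left nhdsWithin_le_nhds).sub_const _).const_mul _
    rw [sub_self, mul_zero] at h4
    exact h4.eventually (lt_mem_nhds (by norm_num))
  obtain ⟨t, ht1, ht2, ht3, ht4⟩ :=
    (h2.and (h3.and (hne.and (hcP.filter_mono nhdsWithin_le_nhds)))).exists
  refine no_shadow hO hc (hγ t0) (hγ t) ht1 (a := k * (P t - P t0))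
    (mul_ne_zero hk (sub_ne_zero.mpr ht3)) ht2 ?_
  rw [sub_sub_cancel, smul_smul, slope_def_module, ht4, hc0, smul_smul]
  have : k * (P t - P t0) * k⁻¹ * (P t - P t0)⁻¹ = 1 := by
    have := sub_ne_zero.mpr ht3
    field_simp
  rw [this, one_smul]

/-- If the boundary of a convex set is locally traced by smooth regular curves, its polar
parametrisation is smooth and regular. -/
theorem polar_smooth {D : Set E2} (hO : IsOpen D) (hc : Convex ℝ D)
    (hb : Bornology.IsBounded D) {q : E2} (hq : q ∈ D) {ρ : ℝ → ℝ} (hρc : Continuous ρ)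
    (hρ : ∀ t, 0 < ρ t) (hr : range (fun t => q + ρ t • ecirc t) = frontier D)
    (hloc : ∀ x ∈ frontier D, ∃ (c : ℝ → E2) (p : E2 → ℝ), ContDiffAt ℝ ∞ c (p x) ∧
      deriv c (p x) ≠ 0 ∧ ContinuousWithinAt p (frontier D) x ∧
      ∀ᶠ y in 𝓝[frontier D] x, c (p y) = y) :
    ContDiff ℝ ∞ (fun t => q + ρ t • ecirc t) ∧
      ∀ t, deriv (fun t => q + ρ t • ecirc t) t ≠ 0 := by
  set γ : ℝ → E2 := fun t => q + ρ t • ecirc t with hγdef
  have hee : Continuous ecirc := by
    unfold ecirc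
    refine (PiLp.continuous_toLp 2 _).comp (continuous_pi fun i => ?_)
    fin_cases i
    · simp only [Fin.zero_eta, Matrix.cons_val_zero]; fun_prop
    · simp only [Fin.mk_one, Matrix.cons_val_one]; fun_prop
  have hγc : Continuous γ := continuous_const.add (hρc.smul hee)
  have hγf : ∀ t, γ t ∈ frontier D := fun t => hr ▸ mem_range_self t
  suffices H : ∀ t0, ContDiffAt ℝ ∞ γ t0 ∧ deriv γ t0 ≠ 0 from
    ⟨contDiff_iff_contDiffAt.mpr fun t => (H t).1, fun t => (H t).2⟩
  intro t0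
  obtain ⟨c, p, hcs, hcd, hpc, hcp⟩ := hloc (γ t0) (hγf t0)
  -- functionals
  let A : E2 →L[ℝ] ℝ := Real.cos (2 * Real.pi * t0) • (EuclideanSpace.proj (1 : Fin 2))
    - Real.sin (2 * Real.pi * t0) • (EuclideanSpace.proj (0 : Fin 2))
  let B : E2 →L[ℝ] ℝ := Real.cos (2 * Real.pi * t0) • (EuclideanSpace.proj (0 : Fin 2))
    + Real.sin (2 * Real.pi * t0) • (EuclideanSpace.proj (1 : Fin 2))
  have hA : ∀ t, A (γ t - q) = ρ t * Real.sin (2 * Real.pi * (t - t0)) := by
    intro t
    have : γ t - q = ρ t • ecirc t := by simp [hγdef]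
    rw [this, map_smul]
    have h2 : 2 * Real.pi * (t - t0) = 2 * Real.pi * t - 2 * Real.pi * t0 := by ring
    rw [h2, Real.sin_sub]
    simp [A, ecirc]
    left
    ring
  have hB : ∀ t, B (γ t - q) = ρ t * Real.cos (2 * Real.pi * (t - t0)) := by
    intro t
    have : γ t - q = ρ t • ecirc t := by simp [hγdef]
    rw [this, map_smul]
    have h2 : 2 * Real.pi * (t - t0) = 2 * Real.pi * t - 2 * Real.pi * t0 := by ring
    rw [h2, Real.cos_sub]
    simp [B, ecirc]
    left
    ring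
  have hA0 : A (γ t0 - q) = 0 := by rw [hA]; simp
  have hB0 : B (γ t0 - q) = ρ t0 := by rw [hB]; simp
  -- decomposition of any vector
  have hAB : ∀ v : E2, A v = 0 → v = (B v / ρ t0) • (γ t0 - q) := by
    intro v hv
    have : γ t0 - q = ρ t0 • ecirc t0 := by simp [hγdef]
    rw [this, smul_smul, div_mul_cancel₀ _ (hρ t0).ne']
    have hcs2 := Real.sin_sq_add_cos_sq (2 * Real.pi * t0)
    have hv' : Real.cos (2 * Real.pi * t0) * v 1 - Real.sin (2 * Real.pi * t0) * v 0 = 0 := by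
      simpa [A] using hv
    have hBv : B v = Real.cos (2 * Real.pi * t0) * v 0 + Real.sin (2 * Real.pi * t0) * v 1 := by
      simp [B]
    rw [hBv]
    ext i
    fin_cases i
    · simp [ecirc]
      linear_combination (-(v 0)) * hcs2 - Real.sin (2 * Real.pi * t0) * hv'
    · simp [ecirc]
      linear_combination (-(v 1)) * hcs2 + Real.cos (2 * Real.pi * t0) * hv'
  have hcos : ∀ᶠ t in 𝓝 t0, 0 < Real.cos (2 * Real.pi * (t - t0)) := by
    have : Tendsto (fun t => Real.cos (2 * Real.pi * (t - t0))) (𝓝 t0)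
        (𝓝 (Real.cos (2 * Real.pi * (t0 - t0)))) :=
      (Real.continuous_cos.comp (by fun_prop)).continuousAt
    rw [sub_self, mul_zero, Real.cos_zero] at this
    exact this.eventually (lt_mem_nhds zero_lt_one)
  -- P
  set P : ℝ → ℝ := fun t => p (γ t) with hPdef
  have hγw : Tendsto γ (𝓝 t0) (𝓝[frontier D] (γ t0)) :=
    tendsto_nhdsWithin_iff.mpr ⟨hγc.continuousAt, Eventually.of_forall hγf⟩
  have hPc : ContinuousAt P t0 := hpc.tendsto.comp hγw
  have hcP : ∀ᶠ t in 𝓝 t0, c (P t) = γ t := hγw.eventually hcp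
  have hc0 : c (P t0) = γ t0 := hcP.self_of_nhds
  have hcd1 : DifferentiableAt ℝ c (P t0) := hcs.differentiableAt (by simp)
  have hγne : ∀ᶠ t in 𝓝[≠] t0, γ t ≠ γ t0 := by
    have hs : ∀ᶠ t in 𝓝[≠] t0, |t - t0| < 1 / 4 := by
      apply Filter.Eventually.filter_mono nhdsWithin_le_nhds
      have : Tendsto (fun t => |t - t0|) (𝓝 t0) (𝓝 |t0 - t0|) :=
        (continuous_abs.comp (by fun_prop)).continuousAt
      rw [sub_self, abs_zero] at this
      exact this.eventually (gt_mem_nhds (by norm_num))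
    filter_upwards [hs, self_mem_nhdsWithin] with t h1 h2 h3
    have h4 : ρ t * Real.sin (2 * Real.pi * (t - t0)) = 0 := by rw [← hA, h3, hA0]
    have h5 : Real.sin (2 * Real.pi * (t - t0)) = 0 := by
      rcases mul_eq_zero.mp h4 with h | h
      · exact absurd h (hρ t).ne'
      · exact h
    have hpi := Real.pi_pos
    rw [abs_lt] at h1
    have h6 := (Real.sin_eq_zero_iff_of_lt_of_lt (x := 2 * Real.pi * (t - t0))
      (by nlinarith) (by nlinarith)).mp h5
    have h7 : t - t0 = 0 := by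
      rcases mul_eq_zero.mp h6 with h | h
      · exact absurd h (by positivity)
      · exact h
    exact h2 (by simpa using sub_eq_zero.mp h7)
  have hAv : A (deriv c (P t0)) ≠ 0 := by
    intro h0
    have h1 := hAB _ h0
    refine transversal hO hc hq hγf hγne hPc hcP hcd1 (B (deriv c (P t0)) / ρ t0) ?_ h1
    intro h2
    rw [h2, zero_smul] at h1
    exact hcd h1
  -- the function u
  let u : ℝ → ℝ := fun s => A (c s - q) / B (c s - q)
  have hAs : ContDiffAt ℝ ∞ (fun s => A (c s - q)) (P t0) :=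
    A.contDiff.contDiffAt.comp _ (hcs.sub contDiffAt_const)
  have hBs : ContDiffAt ℝ ∞ (fun s => B (c s - q)) (P t0) :=
    B.contDiff.contDiffAt.comp _ (hcs.sub contDiffAt_const)
  have hBne : B (c (P t0) - q) ≠ 0 := by rw [hc0, hB0]; exact (hρ t0).ne'
  have hu : ContDiffAt ℝ ∞ u (P t0) := hAs.div hBs hBne
  have hAd : HasDerivAt (fun s => A (c s - q)) (A (deriv c (P t0))) (P t0) := by
    have := A.hasFDerivAt.comp_hasDerivAt (P t0) (hcd1.hasDerivAt.sub_const q)
    exact this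
  have hBd : HasDerivAt (fun s => B (c s - q)) (B (deriv c (P t0))) (P t0) := by
    have := B.hasFDerivAt.comp_hasDerivAt (P t0) (hcd1.hasDerivAt.sub_const q)
    exact this
  have hud : HasDerivAt u (A (deriv c (P t0)) / ρ t0) (P t0) := by
    have h1 := hAd.div hBd hBne
    have h2 : (A (deriv c (P t0)) * B (c (P t0) - q) - A (c (P t0) - q) * B (deriv c (P t0))) /
        B (c (P t0) - q) ^ 2 = A (deriv c (P t0)) / ρ t0 := by
      rw [hc0, hA0, hB0]
      have := (hρ t0).ne'
      field_simp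
      ring
    rw [h2] at h1
    exact h1
  have hud0 : A (deriv c (P t0)) / ρ t0 ≠ 0 := div_ne_zero hAv (hρ t0).ne'
  have hu0 : u (P t0) = 0 := by simp only [u]; rw [hc0, hA0, zero_div]
  have huP : ∀ᶠ t in 𝓝 t0, u (P t) = Real.tan (2 * Real.pi * (t - t0)) := by
    filter_upwards [hcP] with t ht
    simp only [u]
    rw [ht, hA, hB, Real.tan_eq_sin_div_cos, mul_div_mul_left _ _ (hρ t).ne']
  have htan : ContDiffAt ℝ ∞ (fun t => Real.tan (2 * Real.pi * (t - t0))) t0 := by
    have h1 : ContDiffAt ℝ ∞ Real.tan (2 * Real.pi * (t0 - t0)) :=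
      Real.contDiffAt_tan.mpr (by simp)
    have h2 : ContDiffAt ℝ ∞ (fun t : ℝ => 2 * Real.pi * (t - t0)) t0 := by fun_prop
    exact ContDiffAt.comp (g := Real.tan) t0 h1 h2
  have htd : HasDerivAt (fun t => Real.tan (2 * Real.pi * (t - t0))) (2 * Real.pi) t0 := by
    have h1 := Real.hasDerivAt_tan (x := 2 * Real.pi * (t0 - t0)) (by simp)
    have h2 : HasDerivAt (fun t : ℝ => 2 * Real.pi * (t - t0)) (2 * Real.pi * 1) t0 :=
      ((hasDerivAt_id t0).sub_const t0).const_mul _
    have h3 := h1.comp t0 h2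
    have h4 : 1 / Real.cos (2 * Real.pi * (t0 - t0)) ^ 2 * (2 * Real.pi * 1) = 2 * Real.pi := by
      rw [sub_self, mul_zero, Real.cos_zero]; ring
    rw [h4] at h3
    exact h3
  have hγev : γ =ᶠ[𝓝 t0] fun t => c (P t) := hcP.mono fun t ht => ht.symm
  have hsm : ContDiffAt ℝ ∞ γ t0 := by
    have hf' : HasFDerivAt u ((ContinuousLinearEquiv.unitsEquivAut ℝ (Units.mk0 _ hud0) :
        ℝ ≃L[ℝ] ℝ) : ℝ →L[ℝ] ℝ) (P t0) := by
      refine hud.hasFDerivAt.congr_fderiv ?_
      ext
      simp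
    have hinf : (∞ : WithTop ℕ∞) ≠ 0 := by simp
    let g := hu.localInverse hf' hinf
    have hg : ContDiffAt ℝ ∞ g (u (P t0)) := hu.to_localInverse hf' hinf
    have hgu : ∀ᶠ s in 𝓝 (P t0), g (u s) = s := (hu.hasStrictFDerivAt' hf' hinf).eventually_left_inverse
    have h1 : ∀ᶠ t in 𝓝 t0, P t = g (Real.tan (2 * Real.pi * (t - t0))) := by
      filter_upwards [hPc.eventually hgu, huP] with t h1 h2
      rw [← h2, h1]
    have h2 : ContDiffAt ℝ ∞ (fun t => g (Real.tan (2 * Real.pi * (t - t0)))) t0 := by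
      refine ContDiffAt.comp (g := g) t0 ?_ htan
      have : Real.tan (2 * Real.pi * (t0 - t0)) = u (P t0) := huP.self_of_nhds.symm
      rw [this]
      exact hg
    have h3 : ContDiffAt ℝ ∞ P t0 := h2.congr_of_eventuallyEq h1
    have h4 : ContDiffAt ℝ ∞ (fun t => c (P t)) t0 := ContDiffAt.comp (g := c) t0 hcs h3
    exact h4.congr_of_eventuallyEq hγev
  refine ⟨hsm, ?_⟩
  · intro h0
    have hd : DifferentiableAt ℝ γ t0 := hsm.differentiableAt (by simp)
    have hγd : HasDerivAt γ 0 t0 := by rw [← h0]; exact hd.hasDerivAt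
    have h1 : HasDerivAt (fun t => A (γ t - q)) 0 t0 := by
      have := A.hasFDerivAt.comp_hasDerivAt t0 (hγd.sub_const q)
      rw [map_zero] at this
      exact this
    have h2 : HasDerivAt (fun t => B (γ t - q)) 0 t0 := by
      have := B.hasFDerivAt.comp_hasDerivAt t0 (hγd.sub_const q)
      rw [map_zero] at this
      exact this
    have h3 := h1.div h2 (by rw [hB0]; exact (hρ t0).ne')
    rw [zero_mul, mul_zero, sub_zero, zero_div] at h3
    have h4 : (fun t => Real.tan (2 * Real.pi * (t - t0))) =ᶠ[𝓝 t0]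
        ((fun t => A (γ t - q)) / fun t => B (γ t - q)) := by
      filter_upwards with t
      rw [Pi.div_apply, hA, hB, Real.tan_eq_sin_div_cos, mul_div_mul_left _ _ (hρ t).ne']
    have h5 := h3.congr_of_eventuallyEq h4
    have h6 := htd.unique h5
    have := Real.pi_pos
    linarith

end Pool.Agent.Helper608
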