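import Pool.Agent.Helper608.Bdry4
import Pool.Agent.Helper608.Polar2

open Set MeasureTheory Filter Topology
open scoped Manifold ContDiff InnerProductSpace

set_option linter.unusedSectionVars false

namespace Pool.Agent.Helper608

universe u

/-- If a surface with boundary `C₁ ∪ C₂` exists, the two curves are disjoint. -/
lemma disjoint_of_surface {C₁ C₂ D₁ D₂ : Set E2} (h₁ : IsConvexCurve C₁ D₁)
    (h₂ : IsConvexCurve C₂ D₂) (hD : Disjoint D₁ D₂)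
    {M : Type*} [TopologicalSpace M] [ChartedSpace (EuclideanHalfSpace 2) M]
    [IsManifold (𝓡∂ 2) ∞ M] [CompactSpace M] [T2Space M]
    {f N : M → E3} {H : ℝ} (h : IsCMCImmersion f N H)
    (hinj : InjOn f ((𝓡∂ 2).boundary M))
    {γ₁ γ₂ : ℝ → E2} {β₁ β₂ : ℝ → M} (hr₁ : range γ₁ = C₁) (hr₂ : range γ₂ = C₂)
    (hc₂ : Continuous γ₂)
    (B₁ : BdCurve f (fun t => inclP (γ₁ t)) β₁) (B₂ : BdCurve f (fun t => inclP (γ₂ t)) β₂) :
    Disjoint C₁ C₂ := by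
  by_contra hne
  rw [Set.not_disjoint_iff] at hne
  obtain ⟨x, hx₁, hx₂⟩ := hne
  have hset : {t | (fun t => inclP (γ₂ t)) t ∈ range (fun t => inclP (γ₁ t))} = γ₂ ⁻¹' C₁ := by
    ext t
    constructor
    · rintro ⟨s, hs⟩
      have := inclP_injective hs
      rw [mem_preimage, ← hr₁, ← this]
      exact ⟨s, rfl⟩
    · intro ht
      rw [mem_preimage, ← hr₁] at ht
      obtain ⟨s, hs⟩ := ht
      exact ⟨s, by simp only; rw [hs]⟩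
  have ho : IsOpen (γ₂ ⁻¹' C₁) := by
    rw [← hset]; exact isOpen_meet h hinj B₁ B₂
  have hcl : IsClosed (γ₂ ⁻¹' C₁) := by
    rw [← h₁.frontier_eq]; exact isClosed_frontier.preimage hc₂
  have huniv : γ₂ ⁻¹' C₁ = univ := by
    apply IsClopen.eq_univ ⟨hcl, ho⟩
    rw [← hr₂] at hx₂
    obtain ⟨t, rfl⟩ := hx₂
    exact ⟨t, hx₁⟩
  have hsub : C₂ ⊆ C₁ := by
    rw [← hr₂]
    rintro _ ⟨t, rfl⟩
    have : t ∈ γ₂ ⁻¹' C₁ := by rw [huniv]; trivial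
    exact this
  exact curve_frontier_false h₁.frontier_eq h₂.frontier_eq h₁.isOpen h₂.isOpen h₁.convex
    h₂.convex h₁.nonempty h₂.nonempty h₂.isBounded hD hsub

lemma exists_mem_Ico_of_range {C : Set E2} {γ : ℝ → E2} (hper : Function.Periodic γ 1)
    (hr : range γ = C) {x : E2} (hx : x ∈ C) : ∃ t ∈ Ico (0:ℝ) 1, γ t = x := by
  rw [← hr] at hx
  obtain ⟨s, rfl⟩ := hx
  obtain ⟨t, ht, he⟩ := hper.exists_mem_Ico₀ one_pos s
  exact ⟨t, ht, he.symm⟩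

theorem smooth_thm (C₁ C₂ D₁ D₂ : Set E2) (h₁ : IsSmoothConvexCurve C₁ D₁) (h₂ : IsSmoothConvexCurve C₂ D₂)
    (hD : Disjoint D₁ D₂) :
    ∃ V₀ : ℝ, 0 < V₀ ∧
      ∀ (M : Type u) [TopologicalSpace M] [T2Space M] [CompactSpace M]
        [ChartedSpace (EuclideanHalfSpace 2) M] [IsManifold (𝓡∂ 2) ∞ M]
        [MeasurableSpace M] [BorelSpace M] (μ : Measure M) (f N : M → E3) (H : ℝ),
        IsCMCImmersion f N H → IsAreaMeasure f μ →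
        InjOn f ((𝓡∂ 2).boundary M) →
        f '' ((𝓡∂ 2).boundary M) = inclP '' (C₁ ∪ C₂) →
        (1 / 3 : ℝ) * |∫ p, ⟪f p, N p⟫_ℝ ∂μ| < V₀ →
        ¬ ConnectedSpace M ∧ ¬ IsConnected (range f) := by
  obtain ⟨γ₁, hs₁, hp₁, hd₁, hi₁, hr₁⟩ := h₁.exists_param
  obtain ⟨γ₂, hs₂, hp₂, hd₂, hi₂, hr₂⟩ := h₂.exists_param
  have hm₁ : ∀ t, γ₁ t ∈ C₁ ∪ C₂ := fun t => Or.inl (hr₁ ▸ ⟨t, rfl⟩)
  have hm₂ : ∀ t, γ₂ t ∈ C₁ ∪ C₂ := fun t => Or.inr (hr₂ ▸ ⟨t, rfl⟩)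
  by_cases hC : Disjoint C₁ C₂
  · obtain ⟨α, β, c, δ, R, a₁, a₂, b₁, b₂, hG, hg₁, hg₂⟩ :=
      exists_bdData C₁ C₂ D₁ D₂ h₁ h₂ hD hC γ₁ γ₂ ⟨hs₁, hp₁, hd₁, hi₁, hr₁⟩
        ⟨hs₂, hp₂, hd₂, hi₂, hr₂⟩
    have hΛ : 0 ≤ (∫ t in Ico (0:ℝ) 1, ‖deriv (fun t => inclP (γ₁ t)) t‖) +
        ∫ t in Ico (0:ℝ) 1, ‖deriv (fun t => inclP (γ₂ t)) t‖ :=
      add_nonneg (integral_nonneg fun t => norm_nonneg _) (integral_nonneg fun t => norm_nonneg _)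
    obtain ⟨V₀, hV₀, hmain⟩ := core_thm.{u} (hG _ hΛ) (fun t => ⟨_, hm₁ t, rfl⟩)
      (fun t => ⟨_, hm₂ t, rfl⟩) hg₁ hg₂
    refine ⟨V₀, hV₀, ?_⟩
    intro M _ _ _ _ _ _ _ μ f N H h hμ hinj hbd hV
    have := h.isFiniteMeasure hμ
    obtain ⟨β₁, B₁⟩ := exists_bdCurve h hinj hbd hs₁ hd₁ hm₁
    obtain ⟨β₂, B₂⟩ := exists_bdCurve h hinj hbd hs₂ hd₂ hm₂
    have P : BdPair f (fun t => inclP (γ₁ t)) (fun t => inclP (γ₂ t)) β₁ β₂ := by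
      refine ⟨B₁, B₂, fun t ht t' ht' he => hi₁ ht ht' (inclP_injective he),
        fun t ht t' ht' he => hi₂ ht ht' (inclP_injective he), ?_, ?_⟩
      · intro m hm
        have h3 : f m ∈ inclP '' (C₁ ∪ C₂) := by rw [← hbd]; exact ⟨m, hm, rfl⟩
        obtain ⟨x, hx, hxf⟩ := h3
        rcases hx with hx | hx
        · obtain ⟨t, ht, hte⟩ := exists_mem_Ico_of_range hp₁ hr₁ hx
          refine ⟨t, ht, Or.inl ?_⟩
          apply hinj (B₁.mem t) hm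
          rw [B₁.lift, hte, hxf]
        · obtain ⟨t, ht, hte⟩ := exists_mem_Ico_of_range hp₂ hr₂ hx
          refine ⟨t, ht, Or.inr ?_⟩
          apply hinj (B₂.mem t) hm
          rw [B₂.lift, hte, hxf]
      · intro t t' he
        have h3 := inclP_injective he
        exact Set.disjoint_left.mp hC (hr₁ ▸ ⟨t, rfl⟩ : γ₁ t ∈ C₁)
          (by rw [h3]; exact hr₂ ▸ ⟨t', rfl⟩)
    have S := P.fluxSys h hμ
    rw [hbd] at S
    have hr := hmain M μ f N H _ _ _ S hV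
    exact ⟨fun hconn => hr (isPreconnected_range h.smooth_map.continuous),
      fun hconn => hr hconn.isPreconnected⟩
  · refine ⟨1, one_pos, ?_⟩
    intro M _ _ _ _ _ _ _ μ f N H h hμ hinj hbd hV
    exfalso
    obtain ⟨β₁, B₁⟩ := exists_bdCurve h hinj hbd hs₁ hd₁ hm₁
    obtain ⟨β₂, B₂⟩ := exists_bdCurve h hinj hbd hs₂ hd₂ hm₂
    exact hC (disjoint_of_surface h₁.toIsConvexCurve h₂.toIsConvexCurve hD h hinj hr₁ hr₂ hs₂.continuous B₁ B₂)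

/-- The boundary curves of a smooth surface are smooth. -/
lemma smooth_of_surface {C C₁ D₁ : Set E2} (h₁ : IsConvexCurve C₁ D₁) (hC : C₁ ⊆ C)
    {M : Type*} [TopologicalSpace M] [ChartedSpace (EuclideanHalfSpace 2) M]
    [IsManifold (𝓡∂ 2) ∞ M] [CompactSpace M] [T2Space M]
    {f N : M → E3} {H : ℝ} (h : IsCMCImmersion f N H)
    (hinj : InjOn f ((𝓡∂ 2).boundary M)) (hbd : f '' ((𝓡∂ 2).boundary M) = inclP '' C) :
    IsSmoothConvexCurve C₁ D₁ := by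
  refine ⟨h₁, ?_⟩
  obtain ⟨q, hq⟩ := h₁.nonempty
  obtain ⟨ρ, hρc, hρ, hper, hr⟩ := exists_polar h₁.isOpen h₁.convex h₁.isBounded hq
  have hloc := local_trace h hinj hbd (F := frontier D₁) (by rw [h₁.frontier_eq]; exact hC)
  obtain ⟨hs, hd⟩ := polar_smooth h₁.isOpen h₁.convex h₁.isBounded hq hρc hρ hr hloc
  refine ⟨_, hs, ?_, hd, polar_injOn hρ q, by rw [hr, h₁.frontier_eq]⟩
  intro t
  simp only
  rw [hper t, ecirc_periodic t]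

theorem main_thm (C₁ C₂ D₁ D₂ : Set E2) (h₁ : IsConvexCurve C₁ D₁) (h₂ : IsConvexCurve C₂ D₂)
    (hD : Disjoint D₁ D₂) :
    ∃ V₀ : ℝ, 0 < V₀ ∧
      ∀ (M : Type u) [TopologicalSpace M] [T2Space M] [CompactSpace M]
        [ChartedSpace (EuclideanHalfSpace 2) M] [IsManifold (𝓡∂ 2) ∞ M]
        [MeasurableSpace M] [BorelSpace M] (μ : Measure M) (f N : M → E3) (H : ℝ),
        IsCMCImmersion f N H → IsAreaMeasure f μ →
        InjOn f ((𝓡∂ 2).boundary M) →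
        f '' ((𝓡∂ 2).boundary M) = inclP '' (C₁ ∪ C₂) →
        (1 / 3 : ℝ) * |∫ p, ⟪f p, N p⟫_ℝ ∂μ| < V₀ →
        ¬ ConnectedSpace M ∧ ¬ IsConnected (range f) := by
  by_cases hs : IsSmoothConvexCurve C₁ D₁ ∧ IsSmoothConvexCurve C₂ D₂
  · exact smooth_thm C₁ C₂ D₁ D₂ hs.1 hs.2 hD
  · refine ⟨1, one_pos, ?_⟩
    intro M _ _ _ _ _ _ _ μ f N H h hμ hinj hbd hV
    exact absurd ⟨smooth_of_surface h₁ subset_union_left h hinj hbd,
      smooth_of_surface h₂ subset_union_right h hinj hbd⟩ hs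

end Pool.Agent.Helper608
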