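import Pool.Agent.Helper608.Bdry4
import Pool.Agent.Helper608.AreaEx

/-! Surfaces with one boundary curve: Stokes' theorem, flux and torque formulas. -/

open Set MeasureTheory Filter Topology
open scoped Manifold ContDiff InnerProductSpace

set_option linter.unusedSectionVars false

namespace Pool.Agent.Helper608

variable {M : Type*} [TopologicalSpace M] [ChartedSpace (EuclideanHalfSpace 2) M]
  [IsManifold (𝓡∂ 2) ∞ M]
  {φ : OpenPartialHomeomorph M (EuclideanHalfSpace 2)} {f N : M → E3} {H : ℝ}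
  {γ : ℝ → E3} {β : ℝ → M}

/-- The boundary curve of the surface. -/
structure BdOne (f : M → E3) (γ : ℝ → E3) (β : ℝ → M) : Prop where
  c : BdCurve f γ β
  inj : InjOn γ (Ico 0 1)
  cover : ∀ m ∈ (𝓡∂ 2).boundary M, ∃ t ∈ Ico (0:ℝ) 1, β t = m

lemma BdOne.bdset_eq (P : BdOne f γ β) (hφ : φ ∈ atlas (EuclideanHalfSpace 2) M) :
    bdset φ = pos φ β '' par φ β := by
  ext s
  constructor
  · intro hs
    have hz : eqv ((0:ℝ), s) ∈ tgt φ := hs
    have hm : inv φ (eqv (0, s)) ∈ (𝓡∂ 2).boundary M := by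
      rw [mem_boundary_iff hφ (inv_mem hz), ext_inv hz]; simp
    obtain ⟨t, ht, h1⟩ := P.cover _ hm
    have h2 : β t ∈ φ.source := by rw [h1]; exact inv_mem hz
    refine ⟨t, ⟨ht, h2⟩, ?_⟩
    unfold pos
    rw [h1, ext_inv hz]; simp
  · rintro ⟨t, ht, rfl⟩
    exact P.c.pos_mem hφ ht.2

variable [MeasurableSpace M] [BorelSpace M] [CompactSpace M]

/-- Stokes' theorem for forms supported in a chart. -/
theorem BdOne.stokes_chart (P : BdOne f γ β) (h : IsCMCImmersion f N H)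
    (hφ : φ ∈ atlas (EuclideanHalfSpace 2) M)
    {μ : Measure M} (hμ : IsAreaMeasure f μ) {b : M → E3}
    (hb : ContMDiff (𝓡∂ 2) 𝓘(ℝ, E3) 1 b) (hsupp : tsupport b ⊆ φ.source) :
    Integrable (omg f N b) μ ∧
      ∫ m, omg f N b m ∂μ =
        -sgn (tau f N γ β 0) * (∫ t in Ico (0:ℝ) 1, ⟪b (β t), deriv γ t⟫_ℝ) := by
  obtain ⟨h1, h2, h3⟩ := chart_stokes h hφ hμ hb hsupp
  refine ⟨h1, ?_⟩
  obtain ⟨m1, i1⟩ := P.c.integral_image h hφ P.inj hsupp
  have h4 : ∫ s : ℝ, bdI φ f N b (eqv (0, s)) =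
      ∫ s in bdset φ, bdI φ f N b (eqv (0, s)) := by
    symm
    apply setIntegral_eq_integral_of_forall_compl_eq_zero
    intro s hs
    unfold bdI
    exact indicator_of_notMem (s := tgt φ) hs _
  rw [h3, h4, P.bdset_eq hφ, i1]
  ring

variable [T2Space M]

/-- Stokes' theorem on the surface. -/
theorem BdOne.stokes (P : BdOne f γ β) (h : IsCMCImmersion f N H)
    {μ : Measure M} (hμ : IsAreaMeasure f μ) {a : M → E3}
    (ha : ContMDiff (𝓡∂ 2) 𝓘(ℝ, E3) 1 a) :
    Integrable (omg f N a) μ ∧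
      ∫ m, omg f N a m ∂μ =
        -sgn (tau f N γ β 0) * (∫ t in Ico (0:ℝ) 1, ⟪a (β t), deriv γ t⟫_ℝ) := by
  classical
  obtain ⟨s, hs⟩ := CompactSpace.elim_nhds_subcover
    (fun x : M => (chartAt (EuclideanHalfSpace 2) x).source)
    (fun x => (chartAt (EuclideanHalfSpace 2) x).open_source.mem_nhds (mem_chart_source _ x))
  obtain ⟨ρ, hρ⟩ := SmoothPartitionOfUnity.exists_isSubordinate (𝓡∂ 2) (M := M)
    (isClosed_univ) (fun i : s => (chartAt (EuclideanHalfSpace 2) (i : M)).source)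
    (fun i => (chartAt (EuclideanHalfSpace 2) (i : M)).open_source)
    (by
      intro x _
      have : x ∈ (⋃ x ∈ s, (chartAt (EuclideanHalfSpace 2) x).source) := by
        rw [hs]; trivial
      simp only [mem_iUnion] at this ⊢
      obtain ⟨y, hy, hxy⟩ := this
      exact ⟨⟨y, hy⟩, hxy⟩)
  set b : s → M → E3 := fun i m => ρ i m • a m with hb
  have hρ1 : ∀ i, ContMDiff (𝓡∂ 2) 𝓘(ℝ, ℝ) 1 (ρ i) := fun i =>
    (ρ i).contMDiff.of_le one_le_inf
  have hb1 : ∀ i, ContMDiff (𝓡∂ 2) 𝓘(ℝ, E3) 1 (b i) := fun i => (hρ1 i).smul ha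
  have hbs : ∀ i : s, tsupport (b i) ⊆ (chartAt (EuclideanHalfSpace 2) (i : M)).source := fun i =>
    (tsupport_smul_subset_left _ _).trans (hρ i)
  have hsum1 : ∀ m, ∑ i, ρ i m = 1 := by
    intro m
    rw [← finsum_eq_sum_of_fintype]
    exact ρ.sum_eq_one (mem_univ m)
  have hab : ∀ m, a m = ∑ i, b i m := by
    intro m
    simp only [hb]
    rw [← Finset.sum_smul, hsum1, one_smul]
  have hch : ∀ i : s, _ := fun i =>
    P.stokes_chart h (chart_mem_atlas (EuclideanHalfSpace 2) (i : M)) hμ (hb1 i) (hbs i)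
  have hom : omg f N a = fun m => ∑ i, omg f N (b i) m := by
    ext m
    exact omg_sum Finset.univ hb1 ha hab m
  have hi : ∀ i ∈ (Finset.univ : Finset s), Integrable (omg f N (b i)) μ := fun i _ => (hch i).1
  constructor
  · rw [hom]
    exact integrable_finsetSum _ hi
  · rw [hom, integral_finsetSum _ hi]
    rw [Finset.sum_congr rfl (fun i _ => (hch i).2), ← Finset.mul_sum]
    have hbd : ∑ i, (∫ t in Ico (0:ℝ) 1, ⟪b i (β t), deriv γ t⟫_ℝ) =
          ∫ t in Ico (0:ℝ) 1, ⟪a (β t), deriv γ t⟫_ℝ := by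
      rw [← integral_finsetSum]
      · congr 1
        ext t
        rw [hab (β t), sum_inner]
      · intro i _
        have hc : Continuous (fun t => ⟪b i (β t), deriv γ t⟫_ℝ) :=
          ((hb1 i).continuous.comp P.c.cont).inner (P.c.smooth.continuous_deriv (by simp))
        exact (hc.integrableOn_Icc).mono_set Ico_subset_Icc_self
    rw [hbd]

/-- The third unit vector. -/
noncomputable def ez3 : E3 := EuclideanSpace.single 2 1
/-- The second unit vector. -/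
noncomputable def ey3 : E3 := EuclideanSpace.single 1 1
/-- The first unit vector. -/
noncomputable def ex3 : E3 := EuclideanSpace.single 0 1

/-- The boundary integrand of the flux. -/
noncomputable def wf (N : M → E3) (γ : ℝ → E3) (β : ℝ → M) (t : ℝ) : ℝ :=
  ⟪cross ez3 (N (β t)), deriv γ t⟫_ℝ

theorem BdOne.fv (P : BdOne f γ β) (h : IsCMCImmersion f N H)
    {μ : Measure M} (hμ : IsAreaMeasure f μ) {F : E3 → ℝ} (hF : ContDiff ℝ 1 F) (e : E3) :
    Integrable (fvInt f N H F e) μ ∧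
    ∫ m, fvInt f N H F e m ∂μ = sgn (tau f N γ β 0) *
      ∫ t in Ico (0:ℝ) 1, F (γ t) * ⟪cross e (N (β t)), deriv γ t⟫_ℝ := by
  have hc : ContMDiff (𝓡∂ 2) 𝓘(ℝ, E3) 1 (fun m => cross e (N m)) :=
    ((crossL e).contDiff.contMDiff (n := 1)).comp h.N1
  have ha : ContMDiff (𝓡∂ 2) 𝓘(ℝ, E3) 1 (fun m => F (f m) • cross e (N m)) :=
    (hF.contMDiff.comp h.f1).smul hc
  obtain ⟨h0, h1⟩ := P.stokes h hμ ha
  have h2 : fvInt f N H F e = fun m => -omg f N (fun m => F (f m) • cross e (N m)) m := by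
    ext m
    rw [omg_fv h hF, neg_neg]
  rw [h2]
  refine ⟨h0.neg, ?_⟩
  rw [integral_neg, h1]
  have h3 : ∀ t, ⟪F (f (β t)) • cross e (N (β t)), deriv γ t⟫_ℝ =
      F (γ t) * ⟪cross e (N (β t)), deriv γ t⟫_ℝ := by
    intro t
    rw [P.c.lift, real_inner_smul_left]
  simp only [h3]
  ring

theorem BdOne.st (P : BdOne f γ β) (h : IsCMCImmersion f N H)
    {μ : Measure M} (hμ : IsAreaMeasure f μ) {F : E3 → ℝ} (hF : ContDiff ℝ 1 F) (e : E3) :
    ∫ m, fderiv ℝ F (f m) (cross e (N m)) ∂μ =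
      -sgn (tau f N γ β 0) * (∫ t in Ico (0:ℝ) 1, F (γ t) * ⟪e, deriv γ t⟫_ℝ) := by
  have ha : ContMDiff (𝓡∂ 2) 𝓘(ℝ, E3) 1 (fun m => F (f m) • e) :=
    (hF.contMDiff.comp h.f1).smul contMDiff_const
  have h1 := (P.stokes h hμ ha).2
  have h2 : ∫ m, fderiv ℝ F (f m) (cross e (N m)) ∂μ =
      ∫ m, omg f N (fun m => F (f m) • e) m ∂μ := by
    congr 1
    ext m
    rw [omg_st h hF]
  rw [h2, h1]
  have h3 : ∀ t, ⟪F (f (β t)) • e, deriv γ t⟫_ℝ = F (γ t) * ⟪e, deriv γ t⟫_ℝ := by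
    intro t
    rw [P.c.lift, real_inner_smul_left]
  simp only [h3]

end Pool.Agent.Helper608
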