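import Pool.Agent.Helper608.CurveD

/-! The centroid identity for the other coordinate. -/

open Set MeasureTheory Filter Topology
open scoped Manifold ContDiff InnerProductSpace

set_option linter.unusedSectionVars false

namespace Pool.Agent.Helper608

section
variable {M : Type*} {f N : M → E3} {H : ℝ}

lemma fvInt_yz (m : M) : fvInt f N H (fun p => p 1) ez3 m =
    -(N m 2 * N m 1) + 2 * H * f m 1 * N m 2 := by
  rw [fvInt_of_hasFDerivAt (hasFDerivAt_pr 1 (f m)), ez3, inner_single3, pr_apply', pr_apply']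
  simp

lemma fvInt_zy (m : M) : fvInt f N H (fun p => p 2) ey3 m =
    -(N m 1 * N m 2) + 2 * H * f m 2 * N m 1 := by
  rw [fvInt_of_hasFDerivAt (hasFDerivAt_pr 2 (f m)), ey3, inner_single3, pr_apply', pr_apply']
  simp

end

lemma cross_ex (x : E3) : cross ex3 x = !₂[0, -x 2, x 1] := by
  apply ext3 <;> simp [ex3]

/-- the quadratic potential -/
noncomputable def qg (p : E3) : ℝ := -((p 1 ^ 2 + p 2 ^ 2) / 2)

lemma hasFDerivAt_qg (x : E3) :
    HasFDerivAt qg (-((x 1) • pr 1 + (x 2) • pr 2)) x := by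
  have h0 := hasFDerivAt_pr 1 x
  have h2 := hasFDerivAt_pr 2 x
  have h := (((h0.pow 2).add (h2.pow 2)).mul_const ((1:ℝ) / 2)).neg
  have e : qg = fun y : E3 =>
      -(((fun p : E3 => p 1) ^ 2 + (fun p : E3 => p 2) ^ 2) y * (1 / 2)) := by
    funext y
    simp [qg]
    ring
  rw [e]
  refine h.congr_fderiv ?_
  ext v
  simp
  ring

lemma contDiff_qg : ContDiff ℝ 1 qg := by
  have h0 := contDiff_pr 1
  have h2 := contDiff_pr 2
  unfold qg
  exact (((h0.pow 2).add (h2.pow 2)).div_const 2).neg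

variable {M : Type*} [TopologicalSpace M] [ChartedSpace (EuclideanHalfSpace 2) M]
  [IsManifold (𝓡∂ 2) ∞ M]
  {φ : OpenPartialHomeomorph M (EuclideanHalfSpace 2)} {f N : M → E3} {H : ℝ}
  {γ : ℝ → E3} {β : ℝ → M}
  [MeasurableSpace M] [BorelSpace M] [CompactSpace M] [T2Space M]

/-- Torque balance. -/
theorem BdOne.torque' (P : BdOne f γ β) (h : IsCMCImmersion f N H)
    {μ : Measure M} (hμ : IsAreaMeasure f μ) (hz : ∀ t, γ t 2 = 0) :
    ∫ t in Ico (0:ℝ) 1, γ t 1 * ⟪cross ez3 (N (β t)), deriv γ t⟫_ℝ =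
      -(2 * H * ∫ t in Ico (0:ℝ) 1, -(γ t 1 ^ 2 / 2) * deriv γ t 0) := by
  obtain ⟨i1, h1⟩ := P.fv h hμ (contDiff_pr 1) ez3
  obtain ⟨i2, h2⟩ := P.fv h hμ (contDiff_pr 2) ey3
  have h3 := P.st h hμ contDiff_qg ex3
  have e1 : ∀ m, fderiv ℝ qg (f m) (cross ex3 (N m)) = f m 1 * N m 2 - f m 2 * N m 1 := by
    intro m
    rw [(hasFDerivAt_qg (f m)).fderiv, cross_ex]
    simp [pr_apply']
    ring
  have e2 : ∀ t, qg (γ t) * ⟪ex3, deriv γ t⟫_ℝ = -(γ t 1 ^ 2 / 2) * deriv γ t 0 := by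
    intro t
    rw [show ⟪ex3, deriv γ t⟫_ℝ = deriv γ t 0 from inner_single3' 0 _, qg, hz]
    ring
  simp only [e1, e2] at h3
  have h4 : ∫ m, (fvInt f N H (fun p => p 1) ez3 m - fvInt f N H (fun p => p 2) ey3 m) ∂μ =
      2 * H * ∫ m, (f m 1 * N m 2 - f m 2 * N m 1) ∂μ := by
    rw [← integral_const_mul]
    congr 1
    ext m
    rw [fvInt_yz, fvInt_zy]
    ring
  rw [integral_sub i1 i2, h1, h2, h3] at h4
  simp only [hz, zero_mul, integral_zero, mul_zero, sub_zero] at h4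
  rcases sgn_cases (tau f N γ β 0) with e | e
  · rw [e] at h4
    linarith
  · rw [e] at h4
    linarith

/-- The centroid identity in the extremal case, abstract form. -/
theorem BdOne.centroid_abs (P : BdOne f γ β) (h : IsCMCImmersion f N H)
    {μ : Measure M} (hμ : IsAreaMeasure f μ)
    (hL : |2 * H * ∫ t in Ico (0:ℝ) 1, γ t 0 * deriv γ t 1| = ∫ t in Ico (0:ℝ) 1, ‖deriv γ t‖)
    {u : ℝ → ℝ} (hu : Continuous u) {B : ℝ}
    (h2 : ∫ t in Ico (0:ℝ) 1, u t * ⟪cross ez3 (N (β t)), deriv γ t⟫_ℝ = -(2 * H * B)) :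
    B * (∫ t in Ico (0:ℝ) 1, ‖deriv γ t‖) =
    (∫ t in Ico (0:ℝ) 1, γ t 0 * deriv γ t 1) * ∫ t in Ico (0:ℝ) 1, u t * ‖deriv γ t‖ := by
  have h1 := P.flux h hμ
  set A := ∫ t in Ico (0:ℝ) 1, γ t 0 * deriv γ t 1 with hA
  set L := ∫ t in Ico (0:ℝ) 1, ‖deriv γ t‖ with hLdef
  set w : ℝ → ℝ := fun t => ⟪cross ez3 (N (β t)), deriv γ t⟫_ℝ with hw
  have hwabs : ∀ t, |w t| ≤ ‖deriv γ t‖ := fun t => abs_wf_le h t
  have hdc : Continuous (deriv γ) := P.c.smooth.continuous_deriv (by simp)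
  have hwc : Continuous w := by
    have hc : Continuous (fun t => cross ez3 (N (β t))) :=
      (crossL ez3).continuous.comp (h.smooth_normal.continuous.comp P.c.cont)
    exact hc.inner hdc
  obtain ⟨s, hs, hsL⟩ : ∃ s : ℝ, (s = 1 ∨ s = -1) ∧ 2 * H * A = s * L := by
    rcases abs_eq (integral_nonneg (fun t => norm_nonneg _)) |>.1 hL with e | e
    · exact ⟨1, Or.inl rfl, by rw [one_mul]; exact e⟩
    · exact ⟨-1, Or.inr rfl, by rw [neg_one_mul]; exact e⟩
  have hs2 : s * s = 1 := by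
    rcases hs with rfl | rfl <;> norm_num
  have hint : ∀ g : ℝ → ℝ, Continuous g → IntegrableOn g (Ico (0:ℝ) 1) := fun g hg =>
    (hg.integrableOn_Icc).mono_set Ico_subset_Icc_self
  have hgc : Continuous (fun t => ‖deriv γ t‖ + s * w t) := hdc.norm.add (continuous_const.mul hwc)
  have hg0 : ∀ t, 0 ≤ ‖deriv γ t‖ + s * w t := by
    intro t
    have := hwabs t
    rw [abs_le] at this
    rcases hs with rfl | rfl <;> linarith [this.1, this.2]
  have hgi : ∫ t in Ico (0:ℝ) 1, (‖deriv γ t‖ + s * w t) = 0 := by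
    have i1 : IntegrableOn (fun t => ‖deriv γ t‖) (Ico (0:ℝ) 1) := hint _ hdc.norm
    have i2 : IntegrableOn (fun t => s * w t) (Ico (0:ℝ) 1) := hint _ (continuous_const.mul hwc)
    rw [integral_add i1 i2, integral_const_mul]
    have h1' : ∫ t in Ico (0:ℝ) 1, w t = -(2 * H * A) := h1
    rw [h1', hsL, ← hLdef]
    linear_combination (-L) * hs2
  have hae := (integral_eq_zero_iff_of_nonneg (fun t => hg0 t) (hint _ hgc)).1 hgi
  have hxi : ∫ t in Ico (0:ℝ) 1, u t * (‖deriv γ t‖ + s * w t) = 0 := by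
    apply integral_eq_zero_of_ae
    filter_upwards [hae] with t ht
    have ht' : ‖deriv γ t‖ + s * w t = 0 := ht
    simp only [Pi.zero_apply]
    rw [ht', mul_zero]
  have hxi2 : ∫ t in Ico (0:ℝ) 1, u t * (‖deriv γ t‖ + s * w t) =
      (∫ t in Ico (0:ℝ) 1, u t * ‖deriv γ t‖) + s * ∫ t in Ico (0:ℝ) 1, u t * w t := by
    have i1 : IntegrableOn (fun t => u t * ‖deriv γ t‖) (Ico (0:ℝ) 1) :=
      hint _ (hu.mul hdc.norm)
    have i2 : IntegrableOn (fun t => s * (u t * w t)) (Ico (0:ℝ) 1) :=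
      hint _ (continuous_const.mul (hu.mul hwc))
    rw [← integral_const_mul, ← integral_add i1 i2]
    congr 1
    ext t
    ring
  have h2' : ∫ t in Ico (0:ℝ) 1, u t * w t = -(2 * H * B) := h2
  rw [hxi2, h2'] at hxi
  set X := ∫ t in Ico (0:ℝ) 1, u t * ‖deriv γ t‖ with hX
  linear_combination (-A) * hxi - s * B * hsL - B * L * hs2

/-- The centroid identity for a plane boundary curve, second coordinate. -/
theorem centroid_planar' {γ : ℝ → E2} (hs : ContDiff ℝ ∞ γ) (hp : Function.Periodic γ 1)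
    (hd : ∀ t, deriv γ t ≠ 0) (hi : InjOn γ (Ico 0 1))
    {M : Type*} [TopologicalSpace M] [T2Space M] [CompactSpace M]
    [ChartedSpace (EuclideanHalfSpace 2) M] [IsManifold (𝓡∂ 2) ∞ M]
    {f N : M → E3} {H : ℝ} (h : IsCMCImmersion f N H)
    (hinj : InjOn f ((𝓡∂ 2).boundary M))
    (hbd : f '' ((𝓡∂ 2).boundary M) = inclP '' (range γ))
    (hL : |2 * H * ∫ t in Ico (0:ℝ) 1, γ t 0 * deriv γ t 1| = ∫ t in Ico (0:ℝ) 1, ‖deriv γ t‖) :
    (∫ t in Ico (0:ℝ) 1, -(γ t 1 ^ 2 / 2) * deriv γ t 0) * (∫ t in Ico (0:ℝ) 1, ‖deriv γ t‖) =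
    (∫ t in Ico (0:ℝ) 1, γ t 0 * deriv γ t 1) * ∫ t in Ico (0:ℝ) 1, γ t 1 * ‖deriv γ t‖ := by
  borelize M
  obtain ⟨μ, hμ⟩ := exists_isAreaMeasure f h.smooth_map
  obtain ⟨β, B⟩ := exists_bdCurve h hinj hbd hs hd (fun t => ⟨t, rfl⟩)
  have P : BdOne f (fun t => inclP (γ t)) β := by
    refine ⟨B, fun t ht t' ht' he => hi ht ht' (inclP_injective he), ?_⟩
    intro m hm
    have h3 : f m ∈ inclP '' (range γ) := by rw [← hbd]; exact ⟨m, hm, rfl⟩
    obtain ⟨x, ⟨s, rfl⟩, hxf⟩ := h3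
    obtain ⟨t, ht, hte⟩ := hp.exists_mem_Ico₀ one_pos s
    refine ⟨t, ht, ?_⟩
    apply hinj (B.mem t) hm
    rw [B.lift, ← hte, hxf]
  have hdiff : Differentiable ℝ γ := hs.differentiable (by simp)
  have e1 : ∀ t, deriv (fun t => inclP (γ t)) t = inclP (deriv γ t) := deriv_incl γ hdiff
  have e2 : ∀ t, ‖deriv (fun t => inclP (γ t)) t‖ = ‖deriv γ t‖ := fun t => by
    rw [e1, norm_inclP]
  have e3 : ∀ t, deriv (fun t => inclP (γ t)) t 1 = deriv γ t 1 := fun t => by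
    rw [e1]
    simp [inclP]
  have e3' : ∀ t, deriv (fun t => inclP (γ t)) t 0 = deriv γ t 0 := fun t => by
    rw [e1]
    simp [inclP]
  have e4 : ∀ t, inclP (γ t) 0 = γ t 0 := fun t => by simp [inclP]
  have e4' : ∀ t, inclP (γ t) 1 = γ t 1 := fun t => by simp [inclP]
  have hz : ∀ t, inclP (γ t) 2 = 0 := fun t => by simp [inclP]
  have hc : Continuous (fun t => inclP (γ t) 1) := (pr 1).continuous.comp P.c.smooth.continuous
  have key := P.centroid_abs h hμ (by simp only [e2, e3, e4]; exact hL) hc (P.torque' h hμ hz)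
  simp only [e2, e3, e3', e4, e4'] at key
  exact key

end Pool.Agent.Helper608
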