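import Pool.Agent.Helper608.FluxOne

/-! Flux and torque balance, and the centroid identity in the extremal case. -/

open Set MeasureTheory Filter Topology
open scoped Manifold ContDiff InnerProductSpace

set_option linter.unusedSectionVars false

namespace Pool.Agent.Helper608

lemma hasFDerivAt_pr (i : Fin 3) (x : E3) : HasFDerivAt (fun p : E3 => p i) (pr i) x :=
  (pr i).hasFDerivAt

lemma contDiff_pr (i : Fin 3) : ContDiff ℝ 1 (fun p : E3 => p i) := (pr i).contDiff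

lemma pr_apply' (i : Fin 3) (x : E3) : pr i x = x i := rfl

lemma inner_single3 (i : Fin 3) (x : E3) : ⟪x, EuclideanSpace.single i (1 : ℝ)⟫_ℝ = x i := by
  rw [EuclideanSpace.inner_single_right]
  simp

lemma inner_single3' (i : Fin 3) (x : E3) : ⟪(EuclideanSpace.single i (1 : ℝ) : E3), x⟫_ℝ = x i := by
  rw [EuclideanSpace.inner_single_left]
  simp

section
variable {M : Type*} {f N : M → E3} {H : ℝ}

lemma fvInt_one (m : M) : fvInt f N H (fun _ => 1) ez3 m = 2 * H * N m 2 := by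
  rw [fvInt_of_hasFDerivAt (hasFDerivAt_const (1 : ℝ) (f m)), ez3, inner_single3]
  simp

lemma fvInt_xz (m : M) : fvInt f N H (fun p => p 0) ez3 m =
    -(N m 2 * N m 0) + 2 * H * f m 0 * N m 2 := by
  rw [fvInt_of_hasFDerivAt (hasFDerivAt_pr 0 (f m)), ez3, inner_single3, pr_apply', pr_apply']
  simp

lemma fvInt_zx (m : M) : fvInt f N H (fun p => p 2) ex3 m =
    -(N m 0 * N m 2) + 2 * H * f m 2 * N m 0 := by
  rw [fvInt_of_hasFDerivAt (hasFDerivAt_pr 2 (f m)), ex3, inner_single3, pr_apply', pr_apply']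
  simp

end

lemma cross_ey (x : E3) : cross ey3 x = !₂[x 2, 0, -x 0] := by
  apply ext3 <;> simp [ey3]

/-- the quadratic potential -/
noncomputable def qf (p : E3) : ℝ := (p 0 ^ 2 + p 2 ^ 2) / 2

lemma hasFDerivAt_qf (x : E3) :
    HasFDerivAt qf ((x 0) • pr 0 + (x 2) • pr 2) x := by
  have h0 := hasFDerivAt_pr 0 x
  have h2 := hasFDerivAt_pr 2 x
  have h := ((h0.pow 2).add (h2.pow 2)).mul_const ((1:ℝ) / 2)
  have e : qf = fun y : E3 => ((fun p : E3 => p 0) ^ 2 + (fun p : E3 => p 2) ^ 2) y * (1 / 2) := by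
    funext y
    simp [qf]
    ring
  rw [e]
  refine h.congr_fderiv ?_
  ext v
  simp
  ring

lemma contDiff_qf : ContDiff ℝ 1 qf := by
  have h0 := contDiff_pr 0
  have h2 := contDiff_pr 2
  unfold qf
  exact ((h0.pow 2).add (h2.pow 2)).div_const 2

variable {M : Type*} [TopologicalSpace M] [ChartedSpace (EuclideanHalfSpace 2) M]
  [IsManifold (𝓡∂ 2) ∞ M]
  {φ : OpenPartialHomeomorph M (EuclideanHalfSpace 2)} {f N : M → E3} {H : ℝ}
  {γ : ℝ → E3} {β : ℝ → M}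
  [MeasurableSpace M] [BorelSpace M] [CompactSpace M] [T2Space M]

/-- Flux balance. -/
theorem BdOne.flux (P : BdOne f γ β) (h : IsCMCImmersion f N H)
    {μ : Measure M} (hμ : IsAreaMeasure f μ) :
    ∫ t in Ico (0:ℝ) 1, ⟪cross ez3 (N (β t)), deriv γ t⟫_ℝ =
      -(2 * H * ∫ t in Ico (0:ℝ) 1, γ t 0 * deriv γ t 1) := by
  have h1 := (P.fv h hμ (F := fun _ => 1) contDiff_const ez3).2
  have h2 := P.st h hμ (contDiff_pr 0) ey3
  simp only [fvInt_one, one_mul] at h1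
  rw [integral_const_mul] at h1
  have e1 : ∀ m, fderiv ℝ (fun p : E3 => p 0) (f m) (cross ey3 (N m)) = N m 2 := by
    intro m
    rw [(hasFDerivAt_pr 0 (f m)).fderiv, cross_ey, pr_apply']
    simp
  have e2 : ∀ t, ⟪ey3, deriv γ t⟫_ℝ = deriv γ t 1 := fun t => inner_single3' 1 _
  simp only [e1, e2] at h2
  rw [h2] at h1
  rcases sgn_cases (tau f N γ β 0) with e | e
  · rw [e] at h1
    linarith
  · rw [e] at h1
    linarith

/-- Torque balance. -/
theorem BdOne.torque (P : BdOne f γ β) (h : IsCMCImmersion f N H)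
    {μ : Measure M} (hμ : IsAreaMeasure f μ) (hz : ∀ t, γ t 2 = 0) :
    ∫ t in Ico (0:ℝ) 1, γ t 0 * ⟪cross ez3 (N (β t)), deriv γ t⟫_ℝ =
      -(2 * H * ∫ t in Ico (0:ℝ) 1, γ t 0 ^ 2 / 2 * deriv γ t 1) := by
  obtain ⟨i1, h1⟩ := P.fv h hμ (contDiff_pr 0) ez3
  obtain ⟨i2, h2⟩ := P.fv h hμ (contDiff_pr 2) ex3
  have h3 := P.st h hμ contDiff_qf ey3
  have e1 : ∀ m, fderiv ℝ qf (f m) (cross ey3 (N m)) = f m 0 * N m 2 - f m 2 * N m 0 := by
    intro m
    rw [(hasFDerivAt_qf (f m)).fderiv, cross_ey]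
    simp [pr_apply']
    ring
  have e2 : ∀ t, qf (γ t) * ⟪ey3, deriv γ t⟫_ℝ = γ t 0 ^ 2 / 2 * deriv γ t 1 := by
    intro t
    rw [show ⟪ey3, deriv γ t⟫_ℝ = deriv γ t 1 from inner_single3' 1 _, qf, hz]
    ring
  simp only [e1, e2] at h3
  have h4 : ∫ m, (fvInt f N H (fun p => p 0) ez3 m - fvInt f N H (fun p => p 2) ex3 m) ∂μ =
      2 * H * ∫ m, (f m 0 * N m 2 - f m 2 * N m 0) ∂μ := by
    rw [← integral_const_mul]
    congr 1
    ext m
    rw [fvInt_xz, fvInt_zx]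
    ring
  rw [integral_sub i1 i2, h1, h2, h3] at h4
  simp only [hz, zero_mul, integral_zero, mul_zero, sub_zero] at h4
  rcases sgn_cases (tau f N γ β 0) with e | e
  · rw [e] at h4
    linarith
  · rw [e] at h4
    linarith

lemma abs_wf_le (h : IsCMCImmersion f N H) (t : ℝ) :
    |⟪cross ez3 (N (β t)), deriv γ t⟫_ℝ| ≤ ‖deriv γ t‖ := by
  refine (abs_real_inner_le_norm _ _).trans ?_
  have h1 := norm_cross_le ez3 (N (β t))
  rw [h.norm_normal, mul_one] at h1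
  have h2 : ‖ez3‖ = 1 := by simp [ez3]
  rw [h2] at h1
  calc ‖cross ez3 (N (β t))‖ * ‖deriv γ t‖ ≤ 1 * ‖deriv γ t‖ :=
        mul_le_mul_of_nonneg_right h1 (norm_nonneg _)
    _ = _ := one_mul _

/-- The centroid identity in the extremal case. -/
theorem BdOne.centroid (P : BdOne f γ β) (h : IsCMCImmersion f N H)
    {μ : Measure M} (hμ : IsAreaMeasure f μ) (hz : ∀ t, γ t 2 = 0)
    (hL : |2 * H * ∫ t in Ico (0:ℝ) 1, γ t 0 * deriv γ t 1| = ∫ t in Ico (0:ℝ) 1, ‖deriv γ t‖) :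
    (∫ t in Ico (0:ℝ) 1, γ t 0 ^ 2 / 2 * deriv γ t 1) * (∫ t in Ico (0:ℝ) 1, ‖deriv γ t‖) =
    (∫ t in Ico (0:ℝ) 1, γ t 0 * deriv γ t 1) * ∫ t in Ico (0:ℝ) 1, γ t 0 * ‖deriv γ t‖ := by
  have h1 := P.flux h hμ
  have h2 := P.torque h hμ hz
  set A := ∫ t in Ico (0:ℝ) 1, γ t 0 * deriv γ t 1 with hA
  set B := ∫ t in Ico (0:ℝ) 1, γ t 0 ^ 2 / 2 * deriv γ t 1 with hB
  set L := ∫ t in Ico (0:ℝ) 1, ‖deriv γ t‖ with hLdef
  set w : ℝ → ℝ := fun t => ⟪cross ez3 (N (β t)), deriv γ t⟫_ℝ with hw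
  have hwabs : ∀ t, |w t| ≤ ‖deriv γ t‖ := fun t => abs_wf_le h t
  have hdc : Continuous (deriv γ) := P.c.smooth.continuous_deriv (by simp)
  have hwc : Continuous w := by
    have hc : Continuous (fun t => cross ez3 (N (β t))) :=
      (crossL ez3).continuous.comp (h.smooth_normal.continuous.comp P.c.cont)
    exact hc.inner hdc
  have hγc : Continuous (fun t => γ t 0) :=
    (pr 0).continuous.comp P.c.smooth.continuous
  obtain ⟨s, hs, hsL⟩ : ∃ s : ℝ, (s = 1 ∨ s = -1) ∧ 2 * H * A = s * L := by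
    rcases abs_eq (integral_nonneg (fun t => norm_nonneg _)) |>.1 hL with e | e
    · exact ⟨1, Or.inl rfl, by rw [one_mul]; exact e⟩
    · exact ⟨-1, Or.inr rfl, by rw [neg_one_mul]; exact e⟩
  have hs2 : s * s = 1 := by
    rcases hs with rfl | rfl <;> norm_num
  have hint : ∀ g : ℝ → ℝ, Continuous g → IntegrableOn g (Ico (0:ℝ) 1) := fun g hg =>
    (hg.integrableOn_Icc).mono_set Ico_subset_Icc_self
  have hgc : Continuous (fun t => ‖deriv γ t‖ + s * w t) := hdc.norm.add (continuous_const.mul hwc)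
  have hg0 : ∀ t, 0 ≤ ‖deriv γ t‖ + s * w t := by
    intro t
    have := hwabs t
    rw [abs_le] at this
    rcases hs with rfl | rfl <;> linarith [this.1, this.2]
  have hgi : ∫ t in Ico (0:ℝ) 1, (‖deriv γ t‖ + s * w t) = 0 := by
    have i1 : IntegrableOn (fun t => ‖deriv γ t‖) (Ico (0:ℝ) 1) := hint _ hdc.norm
    have i2 : IntegrableOn (fun t => s * w t) (Ico (0:ℝ) 1) := hint _ (continuous_const.mul hwc)
    rw [integral_add i1 i2, integral_const_mul]
    have h1' : ∫ t in Ico (0:ℝ) 1, w t = -(2 * H * A) := h1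
    rw [h1', hsL, ← hLdef]
    linear_combination (-L) * hs2
  have hae := (integral_eq_zero_iff_of_nonneg (fun t => hg0 t) (hint _ hgc)).1 hgi
  have hxi : ∫ t in Ico (0:ℝ) 1, γ t 0 * (‖deriv γ t‖ + s * w t) = 0 := by
    apply integral_eq_zero_of_ae
    filter_upwards [hae] with t ht
    have ht' : ‖deriv γ t‖ + s * w t = 0 := ht
    simp only [Pi.zero_apply]
    rw [ht', mul_zero]
  have hxi2 : ∫ t in Ico (0:ℝ) 1, γ t 0 * (‖deriv γ t‖ + s * w t) =
      (∫ t in Ico (0:ℝ) 1, γ t 0 * ‖deriv γ t‖) + s * ∫ t in Ico (0:ℝ) 1, γ t 0 * w t := by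
    have i1 : IntegrableOn (fun t => γ t 0 * ‖deriv γ t‖) (Ico (0:ℝ) 1) :=
      hint _ (hγc.mul hdc.norm)
    have i2 : IntegrableOn (fun t => s * (γ t 0 * w t)) (Ico (0:ℝ) 1) :=
      hint _ (continuous_const.mul (hγc.mul hwc))
    rw [← integral_const_mul, ← integral_add i1 i2]
    congr 1
    ext t
    ring
  have h2' : ∫ t in Ico (0:ℝ) 1, γ t 0 * w t = -(2 * H * B) := h2
  rw [hxi2, h2'] at hxi
  set X := ∫ t in Ico (0:ℝ) 1, γ t 0 * ‖deriv γ t‖ with hX
  -- `X = s * 2 H B`, `2 H A = s L`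
  linear_combination (-A) * hxi - s * B * hsL - B * L * hs2

end Pool.Agent.Helper608
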