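import Mathlib

/-! Mean curvature flow of immersed `n`-spheres in hyperbolic space `ℍ^{n+1}` (hyperboloid model). -/

open Set Metric MeasureTheory
open scoped ContDiff

namespace Pool.Agent.Helper608.HypMCF

/-- The Euclidean space `ℝ^{n+1}`. -/
abbrev E (n : ℕ) := EuclideanSpace ℝ (Fin (n + 1))

/-- The unit sphere `S^n ⊂ ℝ^{n+1}`. -/
abbrev S (n : ℕ) := sphere (0 : E n) 1

/-- Minkowski space `ℝ^{1,n+1}`: a point is a pair (time coordinate, space coordinates). -/
abbrev V (n : ℕ) := ℝ × E n

/-- The Minkowski product `⟨x, y⟩ - s t` of `(s, x)` and `(t, y)`. -/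
noncomputable def mink {n : ℕ} (p q : V n) : ℝ := inner ℝ p.2 q.2 - p.1 * q.1

/-- Hyperbolic space `ℍ^{n+1}` of constant curvature `-1`: the upper sheet of the hyperboloid
`⟨p, p⟩ = -1` in Minkowski space, with the metric induced by the Minkowski product. -/
def Hyp (n : ℕ) : Set (V n) := {p | mink p p = -1 ∧ 0 < p.1}

/-- The point `(1, 0, …, 0)` of `S^n`. -/
noncomputable def pole (n : ℕ) : S n := ⟨EuclideanSpace.single 0 1, by simp⟩

open Classical in
/-- The radial projection `x ↦ x / ‖x‖` of `ℝ^{n+1} ∖ {0}` onto `S^n` (with an arbitrary value at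
`0`, never used). -/
noncomputable def proj {n : ℕ} (x : E n) : S n :=
  if h : x = 0 then pole n else ⟨‖x‖⁻¹ • x, by simp [norm_smul, h]⟩

/-- A map of `S^n` is smooth if its degree `0` homogeneous extension `x ↦ F (x / ‖x‖)` is smooth
on `ℝ^{n+1} ∖ {0}`. -/
def IsSmooth {n : ℕ} (F : S n → V n) : Prop :=
  ContDiffOn ℝ ∞ (fun y : E n => F (proj y)) {0}ᶜ

/-- The derivative at `x` in direction `u` of (the degree `0` homogeneous extension of) `F`.
For `x ∈ S^n` and `u ⟂ x` this is the differential of `F` at `x` applied to the tangent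
vector `u` of `S^n`. -/
noncomputable def D {n : ℕ} (F : S n → V n) (x u : E n) : V n :=
  fderiv ℝ (fun y : E n => F (proj y)) x u

/-- The second derivative of (the degree `0` homogeneous extension of) `F` at `x` in the
directions `u`, `v`. For `x ∈ S^n` and `u ⟂ x` the vector `D2 F x u u` is the acceleration at `x`
of the image under `F` of the geodesic of `S^n` with initial velocity `u`. -/
noncomputable def D2 {n : ℕ} (F : S n → V n) (x u v : E n) : V n :=
  fderiv ℝ (fun y : E n => D F y v) x u

/-- `F` is an immersion. -/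
def IsImmersion {n : ℕ} (F : S n → V n) : Prop :=
  ∀ (x : S n) (u : E n), inner ℝ (x : E n) u = 0 → D F x u = 0 → u = 0

/-- `e` is an orthonormal basis of `T_x S^n` for the metric induced by `F` (the pull back of the
Minkowski product). -/
def IsFrame {n : ℕ} (F : S n → V n) (x : S n) (e : Fin n → E n) : Prop :=
  (∀ i, inner ℝ (x : E n) (e i) = 0) ∧
    ∀ i j, mink (D F x (e i)) (D F x (e j)) = if i = j then 1 else 0

/-- The component of `y` normal to the hypersurface inside the tangent space of `ℍ^{n+1}` at
`F x`, for a map `F` into `ℍ^{n+1}` and a frame `e` of `F` at `x`. -/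
noncomputable def nor {n : ℕ} (F : S n → V n) (x : S n) (e : Fin n → E n) (y : V n) : V n :=
  y + mink y (F x) • F x - ∑ j, mink y (D F x (e j)) • D F x (e j)

/-- The second fundamental form `A(u, v)` (vector valued) of `F` in `ℍ^{n+1}`. -/
noncomputable def sff {n : ℕ} (F : S n → V n) (x : S n) (e : Fin n → E n) (u v : E n) : V n :=
  nor F x e (D2 F x u v)

/-- The mean curvature vector `H`, the trace of `A`. -/
noncomputable def meanCurv {n : ℕ} (F : S n → V n) (x : S n) (e : Fin n → E n) : V n :=
  ∑ i, sff F x e (e i) (e i)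

/-- The `(i, j)` entry of the traceless second fundamental form `A - (1/n) g ⊗ H` in the
frame `e`. -/
noncomputable def traceless {n : ℕ} (F : S n → V n) (x : S n) (e : Fin n → E n)
    (i j : Fin n) : V n :=
  sff F x e (e i) (e j) - (if i = j then (n : ℝ)⁻¹ else 0) • meanCurv F x e

/-- The pointwise norm of the traceless second fundamental form. -/
noncomputable def tracelessNorm {n : ℕ} (F : S n → V n) (x : S n) (e : Fin n → E n) : ℝ :=
  √(∑ i, ∑ j, mink (traceless F x e i j) (traceless F x e i j))

/-- `b` is an orthonormal basis of `T_x S^n` for the round metric. -/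
def IsONB {n : ℕ} (x : S n) (b : Fin n → E n) : Prop :=
  (∀ i, inner ℝ (x : E n) (b i) = 0) ∧ Orthonormal ℝ b

/-- The density at `x` of the volume measure of the metric induced by `F` with respect to the
volume measure of the round sphere, computed with a basis `b` of `T_x S^n` which is
orthonormal for the round metric. -/
noncomputable def volDensity {n : ℕ} (F : S n → V n) (x : S n) (b : Fin n → E n) : ℝ :=
  √(Matrix.det (Matrix.of fun i j => mink (D F x (b i)) (D F x (b j))))

/-- The integral over `M = S^n` of `|Å|^n` with respect to the volume measure of the metric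
induced by `F`; `volume.toSphere` is the volume measure of the round unit sphere. Here `e x` is
any frame of `F` at `x` and `b x` any orthonormal basis of `T_x S^n`. -/
noncomputable def energy {n : ℕ} (F : S n → V n) (e b : S n → Fin n → E n) : ENNReal :=
  ∫⁻ x : S n, ENNReal.ofReal (tracelessNorm F x (e x) ^ n * volDensity F x (b x))
    ∂(volume : Measure (E n)).toSphere

/-- `F` is a smooth mean curvature flow `S^n × [0, T) → ℍ^{n+1}` with initial value `F₀`:
a smooth family of immersions into `ℍ^{n+1}` with `∂F/∂t = H` and `F(·, 0) = F₀`. -/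
structure IsMCF {n : ℕ} (F₀ : S n → V n) (T : ℝ) (F : ℝ → S n → V n) : Prop where
  pos : 0 < T
  smooth : ContDiffOn ℝ ∞ (fun q : ℝ × E n => F q.1 (proj q.2)) (Ico 0 T ×ˢ {0}ᶜ)
  init : F 0 = F₀
  mem : ∀ t ∈ Ico 0 T, ∀ x, F t x ∈ Hyp n
  imm : ∀ t ∈ Ico 0 T, IsImmersion (F t)
  flow : ∀ t ∈ Ico 0 T, ∀ x e, IsFrame (F t) x e →
    HasDerivWithinAt (fun s => F s x) (meanCurv (F t) x e) (Ico 0 T) t

/-- The hypersurfaces `M_t = F(S^n, t)` shrink to a single point as `t → T`. -/
def ShrinksToPoint {n : ℕ} (T : ℝ) (F : ℝ → S n → V n) : Prop :=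
  ∃ o ∈ Hyp n, ∀ ε > 0, ∃ δ > 0, ∀ t ∈ Ico 0 T, T - δ < t → ∀ x, ‖F t x - o‖ < ε

end Pool.Agent.Helper608.HypMCF
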