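import Mathlib
import Pool.Agent.Helper608.Brouwer
import Pool.Agent.Helper608.HDefs

/-! The inclusion of the sphere into the punctured Euclidean space is not null-homotopic. -/

open Set Metric

namespace Pool.Agent.Helper608.HypMCF

/-- Homotopy of maps of the sphere into the punctured Euclidean space. -/
def Hom {n : ℕ} (f g : S n → E n) : Prop :=
  ∃ F G : C(S n, {y : E n // y ≠ 0}), (∀ x, (F x : E n) = f x) ∧ (∀ x, (G x : E n) = g x) ∧
    F.Homotopic G

theorem Hom.trans {n : ℕ} {f g h : S n → E n} (h1 : Hom f g) (h2 : Hom g h) : Hom f h := by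
  obtain ⟨F, G, hF, hG, hFG⟩ := h1
  obtain ⟨G', K, hG', hK, hGK⟩ := h2
  have : G = G' := by
    ext1 x
    apply Subtype.ext
    rw [hG, hG']
  subst this
  exact ⟨F, K, hF, hK, hFG.trans hGK⟩

theorem Hom.symm {n : ℕ} {f g : S n → E n} (h1 : Hom f g) : Hom g f := by
  obtain ⟨F, G, hF, hG, hFG⟩ := h1
  exact ⟨G, F, hG, hF, hFG.symm⟩

theorem Hom.of {n : ℕ} {a b : ℝ} (hab : a ≤ b) (H : ℝ → S n → E n)
    (hc : ContinuousOn (fun q : ℝ × S n => H q.1 q.2) (Icc a b ×ˢ univ))
    (h0 : ∀ t ∈ Icc a b, ∀ x, H t x ≠ 0) : Hom (H a) (H b) := by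
  have key : ∀ s : unitInterval, a + s * (b - a) ∈ Icc a b := by
    intro s
    have h1 := s.2.1
    have h2 := s.2.2
    constructor <;> nlinarith
  have hcont : Continuous (fun q : unitInterval × S n => H (a + q.1 * (b - a)) q.2) := by
    have h1 : Continuous (fun q : unitInterval × S n => ((a + q.1 * (b - a), q.2) : ℝ × S n)) := by
      fun_prop
    exact hc.comp_continuous h1 (fun q => ⟨key q.1, mem_univ _⟩)
  have hcont2 : Continuous (fun q : unitInterval × S n =>
      (⟨H (a + q.1 * (b - a)) q.2, h0 _ (key q.1) _⟩ : {y : E n // y ≠ 0})) :=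
    hcont.subtype_mk _
  refine ⟨⟨fun x => ⟨H (a + (0 : unitInterval) * (b - a)) x, h0 _ (key 0) x⟩,
      hcont2.comp (Continuous.prodMk_right 0)⟩,
    ⟨fun x => ⟨H (a + (1 : unitInterval) * (b - a)) x, h0 _ (key 1) x⟩,
      hcont2.comp (Continuous.prodMk_right 1)⟩, fun x => ?_, fun x => ?_, ?_⟩
  · simp
  · simp
  · exact ⟨{ toFun := fun q => ⟨H (a + q.1 * (b - a)) q.2, h0 _ (key q.1) _⟩
             continuous_toFun := hcont2
             map_zero_left := fun x => rfl
             map_one_left := fun x => rfl }⟩

theorem proj_coe {n : ℕ} (x : S n) : proj (x : E n) = x := by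
  have hx : ‖(x : E n)‖ = 1 := by simp
  have h0 : (x : E n) ≠ 0 := by
    intro h
    rw [h] at hx
    simp at hx
  apply Subtype.ext
  simp [proj, h0, hx]

theorem coe_proj {n : ℕ} {x : E n} (hx : x ≠ 0) : (proj x : E n) = ‖x‖⁻¹ • x := by
  simp [proj, hx]

theorem continuousOn_proj {n : ℕ} : ContinuousOn (proj : E n → S n) {0}ᶜ := by
  have h1 : ContinuousOn (fun x : E n => ‖x‖⁻¹ • x) {0}ᶜ := by
    have h2 : ContinuousOn (fun x : E n => ‖x‖⁻¹) {0}ᶜ :=
      continuousOn_id.norm.inv₀ (fun x hx => by simpa using hx)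
    exact h2.smul continuousOn_id
  rw [Topology.IsInducing.subtypeVal.continuousOn_iff]
  refine h1.congr (fun x hx => ?_)
  exact coe_proj hx

/-- The inclusion of the sphere is not homotopic to a constant in the punctured space. -/
theorem not_hom_const {n : ℕ} (c : E n) : ¬ Hom (fun x : S n => (x : E n)) (fun _ => c) := by
  rintro ⟨F, G, hF, hG, ⟨H⟩⟩
  -- the map
  set τ : E n → unitInterval := fun x => Set.projIcc 0 1 zero_le_one (2 * (1 - ‖x‖)) with hτ
  have hτc : Continuous τ := by
    apply continuous_projIcc.comp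
    fun_prop
  set f : E n → E n := fun x => max 1 ‖x‖ • (H (τ x, proj x) : E n) with hf
  have hcf : Continuous f := by
    rw [continuous_iff_continuousAt]
    intro x
    by_cases hx : x = 0
    · subst hx
      have h1 : f =ᶠ[nhds 0] fun _ => c := by
        filter_upwards [ball_mem_nhds (0 : E n) (by norm_num : (0:ℝ) < 1 / 2)] with y hy
        have hy' : ‖y‖ < 1 / 2 := by simpa using hy
        have hτ1 : τ y = 1 := by
          rw [hτ]
          exact Set.projIcc_of_right_le _ (by linarith)
        have : H (τ y, proj y) = G (proj y) := by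
          rw [hτ1]
          exact H.map_one_left _
        simp only [hf]
        rw [this, hG, max_eq_left (by linarith), one_smul]
      exact continuousAt_const.congr h1.symm
    · have hp : ContinuousAt (proj : E n → S n) x :=
        continuousOn_proj.continuousAt (isOpen_compl_singleton.mem_nhds hx)
      have h2 : ContinuousAt (fun x => (H (τ x, proj x) : E n)) x := by
        have h3 : ContinuousAt (fun x => (τ x, proj x)) x := hτc.continuousAt.prodMk hp
        have h4 : Continuous (fun q : unitInterval × S n => (H q : E n)) :=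
          continuous_subtype_val.comp H.continuous
        exact h4.continuousAt.comp h3
      have h5 : ContinuousAt (fun x : E n => max 1 ‖x‖) x :=
        (continuous_const.max continuous_norm).continuousAt
      exact h5.smul h2
  obtain ⟨x, hx⟩ := Brouwer.exists_zero (n + 1) f hcf 1 one_pos (fun x hx => by
    have hx0 : x ≠ 0 := by
      intro h
      rw [h] at hx
      simp at hx
      linarith
    have hτ0 : τ x = 0 := by
      rw [hτ]
      exact Set.projIcc_of_le_left _ (by linarith)
    have : H (τ x, proj x) = F (proj x) := by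
      rw [hτ0]
      exact H.map_zero_left _
    simp only [hf]
    rw [this, hF, max_eq_right hx]
    simp only
    rw [coe_proj hx0, smul_smul, mul_inv_cancel₀ (norm_ne_zero_iff.2 hx0),
      one_smul])
  have h1 : max 1 ‖x‖ ≠ 0 := by positivity
  have h2 := (smul_eq_zero.1 hx).resolve_left h1
  exact (H (τ x, proj x)).2 h2

end Pool.Agent.Helper608.HypMCF
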