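import Mathlib
import Pool.Agent.Helper608.HTop

/-! Algebra and calculus with the Minkowski product. -/

open Set Metric
open scoped ContDiff

namespace Pool.Agent.Helper608.HypMCF

variable {n : ℕ}

theorem mink_comm (p q : V n) : mink p q = mink q p := by
  simp only [mink, real_inner_comm, mul_comm]

/-- The Minkowski product as a bilinear map. -/
noncomputable def minkL (n : ℕ) : V n →ₗ[ℝ] V n →ₗ[ℝ] ℝ :=
  LinearMap.mk₂ ℝ mink
    (fun p q r => by simp only [mink, Prod.fst_add, Prod.snd_add, inner_add_left]; ring)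
    (fun c p q => by simp only [mink, Prod.smul_fst, Prod.smul_snd, inner_smul_left, smul_eq_mul,
      RCLike.conj_to_real]; ring)
    (fun p q r => by simp only [mink, Prod.fst_add, Prod.snd_add, inner_add_right]; ring)
    (fun c p q => by simp only [mink, Prod.smul_fst, Prod.smul_snd, inner_smul_right, smul_eq_mul];
                     ring)

theorem minkL_apply (p q : V n) : minkL n p q = mink p q := rfl

theorem mink_add_left (p q r : V n) : mink (p + q) r = mink p r + mink q r := by
  simp only [← minkL_apply, map_add, LinearMap.add_apply]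

theorem mink_add_right (p q r : V n) : mink p (q + r) = mink p q + mink p r := by
  simp only [← minkL_apply, map_add]

theorem mink_sub_left (p q r : V n) : mink (p - q) r = mink p r - mink q r := by
  simp only [← minkL_apply, map_sub, LinearMap.sub_apply]

theorem mink_sub_right (p q r : V n) : mink p (q - r) = mink p q - mink p r := by
  simp only [← minkL_apply, map_sub]

theorem mink_neg_left (p q : V n) : mink (-p) q = - mink p q := by
  simp only [← minkL_apply, map_neg, LinearMap.neg_apply]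

theorem mink_neg_right (p q : V n) : mink p (-q) = - mink p q := by
  simp only [← minkL_apply, map_neg]

theorem mink_smul_left (c : ℝ) (p q : V n) : mink (c • p) q = c * mink p q := by
  simp only [← minkL_apply, map_smul, LinearMap.smul_apply, smul_eq_mul]

theorem mink_smul_right (c : ℝ) (p q : V n) : mink p (c • q) = c * mink p q := by
  simp only [← minkL_apply, map_smul, smul_eq_mul]

theorem mink_zero_left (q : V n) : mink (0 : V n) q = 0 := by
  simp only [← minkL_apply, map_zero, LinearMap.zero_apply]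

theorem mink_zero_right (q : V n) : mink q (0 : V n) = 0 := by
  simp only [← minkL_apply, map_zero]

theorem mink_sum_left {ι : Type*} (s : Finset ι) (p : ι → V n) (q : V n) :
    mink (∑ i ∈ s, p i) q = ∑ i ∈ s, mink (p i) q := by
  simp only [← minkL_apply, map_sum, LinearMap.sum_apply]

theorem mink_sum_right {ι : Type*} (s : Finset ι) (p : ι → V n) (q : V n) :
    mink q (∑ i ∈ s, p i) = ∑ i ∈ s, mink q (p i) := by
  simp only [← minkL_apply, map_sum]

theorem continuous_mink : Continuous (fun q : V n × V n => mink q.1 q.2) := by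
  unfold mink
  fun_prop

theorem hasDerivAt_mink {c d : ℝ → V n} {c' d' : V n} {t : ℝ} (hc : HasDerivAt c c' t)
    (hd : HasDerivAt d d' t) :
    HasDerivAt (fun s => mink (c s) (d s)) (mink c' (d t) + mink (c t) d') t := by
  have h1 : HasDerivAt (fun s => (c s).1) c'.1 t :=
    (ContinuousLinearMap.fst ℝ ℝ (E n)).hasFDerivAt.comp_hasDerivAt t hc
  have h2 : HasDerivAt (fun s => (c s).2) c'.2 t :=
    (ContinuousLinearMap.snd ℝ ℝ (E n)).hasFDerivAt.comp_hasDerivAt t hc
  have h3 : HasDerivAt (fun s => (d s).1) d'.1 t :=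
    (ContinuousLinearMap.fst ℝ ℝ (E n)).hasFDerivAt.comp_hasDerivAt t hd
  have h4 : HasDerivAt (fun s => (d s).2) d'.2 t :=
    (ContinuousLinearMap.snd ℝ ℝ (E n)).hasFDerivAt.comp_hasDerivAt t hd
  have h5 := (h2.inner ℝ h4).sub (h1.mul h3)
  refine h5.congr_deriv ?_
  simp only [mink]
  ring

/-! ### Positivity -/

theorem Hyp.norm_sq {p : V n} (hp : p ∈ Hyp n) : ‖p.2‖ ^ 2 = p.1 ^ 2 - 1 := by
  have := hp.1
  rw [mink, real_inner_self_eq_norm_sq] at this
  linarith [sq p.1]

theorem spacelike {p v : V n} (hp : p ∈ Hyp n) (hv : mink v p = 0) :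
    ‖v.2‖ ^ 2 ≤ mink v v * p.1 ^ 2 := by
  have h1 : inner ℝ v.2 p.2 = v.1 * p.1 := by
    rw [mink] at hv
    linarith
  have h2 : (inner ℝ v.2 p.2) ^ 2 ≤ ‖v.2‖ ^ 2 * ‖p.2‖ ^ 2 := by
    have := abs_real_inner_le_norm v.2 p.2
    rw [← mul_pow, ← sq_abs (inner ℝ v.2 p.2)]
    exact pow_le_pow_left₀ (abs_nonneg _) this 2
  rw [h1, Hyp.norm_sq hp] at h2
  rw [mink, real_inner_self_eq_norm_sq]
  nlinarith

theorem spacelike_nonneg {p v : V n} (hp : p ∈ Hyp n) (hv : mink v p = 0) : 0 ≤ mink v v := by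
  have h1 := spacelike hp hv
  have h2 : 0 < p.1 ^ 2 := pow_pos hp.2 2
  have h3 : 0 ≤ mink v v * p.1 ^ 2 := (sq_nonneg _).trans h1
  exact nonneg_of_mul_nonneg_left h3 h2

theorem spacelike_zero {p v : V n} (hp : p ∈ Hyp n) (hv : mink v p = 0) (h0 : mink v v = 0) :
    v = 0 := by
  have h1 := spacelike hp hv
  rw [h0, zero_mul] at h1
  have h2 : v.2 = 0 := by
    have : ‖v.2‖ = 0 := by nlinarith [norm_nonneg v.2]
    exact norm_eq_zero.1 this
  have h3 : v.1 = 0 := by
    rw [mink, h2] at h0
    simp at h0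
    exact h0
  exact Prod.ext h3 h2

theorem Hyp.one_le {p : V n} (hp : p ∈ Hyp n) : 1 ≤ p.1 := by
  have h1 := Hyp.norm_sq hp
  have h2 := hp.2
  nlinarith [sq_nonneg ‖p.2‖]

theorem Hyp.ext {p q : V n} (hp : p ∈ Hyp n) (hq : q ∈ Hyp n) (h : p.2 = q.2) : p = q := by
  refine Prod.ext ?_ h
  have h1 := Hyp.norm_sq hp
  have h2 := Hyp.norm_sq hq
  rw [h] at h1
  have h3 : p.1 ^ 2 = q.1 ^ 2 := by linarith
  exact (pow_left_inj₀ hp.2.le hq.2.le two_ne_zero).1 h3

/-- Bessel's inequality in the tangent space. -/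
theorem bessel {p : V n} {d : Fin n → V n} (hp : p ∈ Hyp n) (hd : ∀ i, mink (d i) p = 0)
    (ho : ∀ i j, mink (d i) (d j) = if i = j then 1 else 0) (y : V n) :
    ∑ i, mink y (d i) ^ 2 ≤ mink y y + mink y p ^ 2 := by
  set Y : V n := y + mink y p • p - ∑ j, mink y (d j) • d j with hY
  have h1 : mink Y p = 0 := by
    rw [hY, mink_sub_left, mink_add_left, mink_smul_left, mink_sum_left, hp.1]
    simp only [mink_smul_left, hd]
    simp
  have hYd : ∀ i, mink Y (d i) = 0 := by
    intro i
    rw [hY, mink_sub_left, mink_add_left, mink_smul_left, mink_sum_left, mink_comm p, hd]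
    simp only [mink_smul_left, ho]
    simp
  have h2 : mink Y Y = mink y y + mink y p ^ 2 - ∑ i, mink y (d i) ^ 2 := by
    have e1 : mink Y Y = mink y Y := by
      have : mink (y + mink y p • p - ∑ j, mink y (d j) • d j) Y = mink y Y := by
        rw [mink_sub_left, mink_add_left, mink_smul_left, mink_sum_left, mink_comm p, h1]
        simp only [mink_smul_left, mink_comm (d _) Y, hYd]
        simp
      rwa [← hY] at this
    rw [e1, hY, mink_sub_right, mink_add_right, mink_smul_right, mink_sum_right]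
    simp only [mink_smul_right, sq]
  have h3 := spacelike_nonneg hp h1
  rw [h2] at h3
  linarith

/-! ### Calculus of maps of the sphere -/

theorem line_ne_zero (x : S n) {u : E n} (hu : inner ℝ (x : E n) u = 0) (s : ℝ) :
    (x : E n) + s • u ≠ 0 := by
  intro h
  have h1 : inner ℝ (x : E n) ((x : E n) + s • u) = 1 := by
    rw [inner_add_right, inner_smul_right, hu, real_inner_self_eq_norm_sq]
    simp
  rw [h] at h1
  simp at h1

theorem coe_ne_zero (x : S n) : (x : E n) ≠ 0 := by
  intro h
  have : ‖(x : E n)‖ = 1 := by simp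
  rw [h] at this
  simp at this

theorem isOpen_ne : IsOpen ({0}ᶜ : Set (E n)) := isOpen_compl_singleton

theorem IsSmooth.hasFDerivAt {F : S n → V n} (hF : IsSmooth F) {y : E n} (hy : y ≠ 0) :
    HasFDerivAt (fun y : E n => F (proj y)) (fderiv ℝ (fun y : E n => F (proj y)) y) y := by
  have h1 : ContDiffAt ℝ ∞ (fun y : E n => F (proj y)) y := hF.contDiffAt (isOpen_ne.mem_nhds hy)
  exact (h1.differentiableAt (by simp)).hasFDerivAt

theorem hasDerivAt_line (x u : E n) (s : ℝ) : HasDerivAt (fun s : ℝ => x + s • u) u s := by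
  have h := ((hasDerivAt_id s).smul_const u).const_add x
  simpa using h

theorem IsSmooth.hasDerivAt {F : S n → V n} (hF : IsSmooth F) {y : E n} (u : E n) (s : ℝ)
    (hy : y + s • u ≠ 0) :
    HasDerivAt (fun s : ℝ => F (proj (y + s • u))) (D F (y + s • u) u) s := by
  exact (hF.hasFDerivAt hy).comp_hasDerivAt s (hasDerivAt_line y u s)

theorem IsSmooth.contDiffOn_D {F : S n → V n} (hF : IsSmooth F) (u : E n) :
    ContDiffOn ℝ ∞ (fun y : E n => D F y u) {0}ᶜ := by
  have h1 : ContDiffOn ℝ ∞ (fderiv ℝ (fun y : E n => F (proj y))) {0}ᶜ :=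
    hF.fderiv_of_isOpen isOpen_ne (by simp)
  exact h1.clm_apply contDiffOn_const

theorem IsSmooth.hasDerivAt_D {F : S n → V n} (hF : IsSmooth F) {y : E n} (u v : E n) (s : ℝ)
    (hy : y + s • u ≠ 0) :
    HasDerivAt (fun s : ℝ => D F (y + s • u) v) (D2 F (y + s • u) u v) s := by
  have h1 : ContDiffAt ℝ ∞ (fun y : E n => D F y v) (y + s • u) :=
    (hF.contDiffOn_D v).contDiffAt (isOpen_ne.mem_nhds hy)
  have h2 := (h1.differentiableAt (by simp)).hasFDerivAt
  exact h2.comp_hasDerivAt s (hasDerivAt_line y u s)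

theorem D_add (F : S n → V n) (x u v : E n) : D F x (u + v) = D F x u + D F x v := by
  simp only [D, map_add]

theorem D_smul (F : S n → V n) (x : E n) (c : ℝ) (u : E n) : D F x (c • u) = c • D F x u := by
  simp only [D, map_smul]

theorem D2_add_left (F : S n → V n) (x u v w : E n) :
    D2 F x (u + v) w = D2 F x u w + D2 F x v w := by
  simp only [D2, map_add]

theorem D2_symm {F : S n → V n} (hF : IsSmooth F) {x : E n} (hx : x ≠ 0) (u v : E n) :
    D2 F x u v = D2 F x v u := by
  have h1 : ContDiffAt ℝ ∞ (fun y : E n => F (proj y)) x := hF.contDiffAt (isOpen_ne.mem_nhds hx)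
  have h2 : IsSymmSndFDerivAt ℝ (fun y : E n => F (proj y)) x :=
    h1.isSymmSndFDerivAt (by simp only [minSmoothness_of_isRCLikeNormedField]; exact WithTop.coe_le_coe.2 (le_top (a := (2 : ℕ∞))))
  have h3 : DifferentiableAt ℝ (fderiv ℝ (fun y : E n => F (proj y))) x := by
    have h4 : ContDiffOn ℝ ∞ (fderiv ℝ (fun y : E n => F (proj y))) {0}ᶜ :=
      hF.fderiv_of_isOpen isOpen_ne (by simp)
    exact (h4.contDiffAt (isOpen_ne.mem_nhds hx)).differentiableAt (by simp)
  have key : ∀ u v : E n, D2 F x u v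
      = fderiv ℝ (fderiv ℝ (fun y : E n => F (proj y))) x u v := by
    intro u v
    have h5 : HasFDerivAt (fun y : E n => fderiv ℝ (fun y : E n => F (proj y)) y v)
        ((fderiv ℝ (fderiv ℝ (fun y : E n => F (proj y))) x).flip v) x := by
      have := h3.hasFDerivAt.clm_apply (hasFDerivAt_const v x)
      refine this.congr_fderiv ?_
      ext w <;> simp
    simp only [D2, D]
    rw [h5.fderiv]
    rfl
  rw [key, key]
  exact h2 u v

theorem tangent {F : S n → V n} (hF : IsSmooth F) (hH : ∀ x, F x ∈ Hyp n) {y : E n} (hy : y ≠ 0)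
    (u : E n) : mink (D F y u) (F (proj y)) = 0 := by
  have h0 : y + (0 : ℝ) • u ≠ 0 := by simpa using hy
  have h1 := hF.hasDerivAt (y := y) u 0 h0
  have h2 := hasDerivAt_mink h1 h1
  have h3 : (fun s : ℝ => mink (F (proj (y + s • u))) (F (proj (y + s • u)))) = fun _ => -1 := by
    funext s
    exact (hH _).1
  rw [h3] at h2
  have h4 := h2.unique (hasDerivAt_const _ _)
  simp only [zero_smul, add_zero] at h4
  rw [mink_comm (F (proj y))] at h4
  linarith

theorem tangent2 {F : S n → V n} (hF : IsSmooth F) (hH : ∀ x, F x ∈ Hyp n) {y : E n} (hy : y ≠ 0)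
    (u v : E n) : mink (D2 F y u v) (F (proj y)) = - mink (D F y v) (D F y u) := by
  have h0 : y + (0 : ℝ) • u ≠ 0 := by simpa using hy
  have h1 := hF.hasDerivAt (y := y) u 0 h0
  have h1' := hF.hasDerivAt_D (y := y) u v 0 h0
  have h2 := hasDerivAt_mink h1' h1
  have h3 : (fun s : ℝ => mink (D F (y + s • u) v) (F (proj (y + s • u)))) =ᶠ[nhds 0]
      fun _ => (0 : ℝ) := by
    have h5 : ContinuousAt (fun s : ℝ => y + s • u) 0 := by fun_prop
    have h6 : ∀ᶠ s in nhds (0 : ℝ), y + s • u ∈ ({0}ᶜ : Set (E n)) :=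
      h5 (isOpen_ne.mem_nhds h0)
    filter_upwards [h6] with s hs
    exact tangent hF hH hs v
  have h4 := h2.unique ((hasDerivAt_const (0 : ℝ) (0 : ℝ)).congr_of_eventuallyEq h3)
  simp only [zero_smul, add_zero] at h4
  linarith

end Pool.Agent.Helper608.HypMCF
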