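import Mathlib
import Pool.Agent.Helper608.HDefs

/-! A maximum principle on a compact space. -/

open Set Metric

namespace Pool.Agent.Helper608.HypMCF

theorem max_principle {K : Type*} [TopologicalSpace K] [CompactSpace K] {T M : ℝ}
    (ψ ψ' : ℝ → K → ℝ)
    (hc : ContinuousOn (fun q : ℝ × K => ψ q.1 q.2) (Ico 0 T ×ˢ univ))
    (hd : ∀ t ∈ Ico 0 T, ∀ x, HasDerivWithinAt (fun s => ψ s x) (ψ' t x) (Ico 0 T) t)
    (h0 : ∀ x, ψ 0 x ≤ M)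
    (hm : ∀ t ∈ Ico 0 T, ∀ x, (∀ y, ψ t y ≤ ψ t x) → M < ψ t x → ψ' t x ≤ 0) :
    ∀ t ∈ Ico 0 T, ∀ x, ψ t x ≤ M := by
  intro t₁ ht₁ x₁
  by_contra hcon
  push Not at hcon
  obtain ⟨ε, hε, hε2⟩ : ∃ ε > 0, M < ψ t₁ x₁ - ε * t₁ := by
    refine ⟨(ψ t₁ x₁ - M) / (2 * (t₁ + 1)), ?_, ?_⟩
    · have := ht₁.1
      apply div_pos (by linarith) (by linarith)
    · have h1 := ht₁.1
      have h2 : (ψ t₁ x₁ - M) / (2 * (t₁ + 1)) * t₁ < ψ t₁ x₁ - M := by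
        rw [div_mul_eq_mul_div, div_lt_iff₀ (by linarith)]
        nlinarith
      linarith
  have hsub : Icc 0 t₁ ×ˢ (univ : Set K) ⊆ Ico 0 T ×ˢ univ :=
    prod_mono (fun s hs => ⟨hs.1, hs.2.trans_lt ht₁.2⟩) subset_rfl
  have hcomp : IsCompact (Icc 0 t₁ ×ˢ (univ : Set K)) := isCompact_Icc.prod isCompact_univ
  obtain ⟨⟨t₂, x₂⟩, hq, hmax⟩ := hcomp.exists_isMaxOn (f := fun q : ℝ × K => ψ q.1 q.2 - ε * q.1)
    ⟨(t₁, x₁), ⟨⟨ht₁.1, le_rfl⟩, mem_univ _⟩⟩ ((hc.mono hsub).sub (by fun_prop))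
  have ht₂ : t₂ ∈ Icc 0 t₁ := hq.1
  have hval : M < ψ t₂ x₂ - ε * t₂ :=
    hε2.trans_le (hmax (show (t₁, x₁) ∈ _ from ⟨⟨ht₁.1, le_rfl⟩, mem_univ _⟩))
  have ht₂' : 0 < t₂ := by
    rcases ht₂.1.lt_or_eq with h | h
    · exact h
    · exfalso
      rw [← h] at hval
      have := h0 x₂
      linarith
  have ht₂T : t₂ ∈ Ico 0 T := ⟨ht₂.1, ht₂.2.trans_lt ht₁.2⟩
  have hsp : ∀ y, ψ t₂ y ≤ ψ t₂ x₂ := by
    intro y
    have := hmax (show (t₂, y) ∈ _ from ⟨ht₂, mem_univ _⟩)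
    simp only [mem_ofPred_eq] at this
    linarith
  have hder := hm t₂ ht₂T x₂ hsp (by nlinarith)
  have hD : HasDerivAt (fun s => ψ s x₂ - ε * s) (ψ' t₂ x₂ - ε) t₂ := by
    have h1 : HasDerivAt (fun s => ψ s x₂) (ψ' t₂ x₂) t₂ :=
      (hd t₂ ht₂T x₂).hasDerivAt (Ico_mem_nhds ht₂' ht₂T.2)
    have h2 : HasDerivAt (fun s => ψ s x₂ - ε * s) (ψ' t₂ x₂ - ε * 1) t₂ :=
      h1.sub ((hasDerivAt_id t₂).const_mul ε)
    rwa [mul_one] at h2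
  -- contradiction with slope
  have hneg : ψ' t₂ x₂ - ε < 0 := by linarith
  have hlt : ∀ᶠ s in nhdsWithin t₂ (Iio t₂), ψ t₂ x₂ - ε * t₂ < ψ s x₂ - ε * s := by
    have h1 := hD.hasDerivWithinAt (s := Iio t₂)
    rw [hasDerivWithinAt_iff_tendsto_slope' (by simp)] at h1
    have h2 := h1.eventually (gt_mem_nhds hneg)
    filter_upwards [h2, self_mem_nhdsWithin] with s hs hs2
    have hs2' : s < t₂ := hs2
    rw [slope_def_field, div_neg_iff] at hs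
    rcases hs with hs | hs
    · linarith [hs.1]
    · linarith [hs.2]
  have hev : ∀ᶠ s in nhdsWithin t₂ (Iio t₂), s ∈ Ioo 0 t₂ := Ioo_mem_nhdsLT ht₂'
  obtain ⟨s, hs1, hs2⟩ := (hlt.and hev).exists
  have := hmax (show (s, x₂) ∈ _ from ⟨⟨hs2.1.le, hs2.2.le.trans ht₂.2⟩, mem_univ _⟩)
  simp only [mem_ofPred_eq] at this
  linarith

end Pool.Agent.Helper608.HypMCF
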