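import Mathlib
import Pool.Agent.Helper608.HAlg
import Pool.Agent.Helper608.HMax

/-! Barrier inequalities for mean curvature flow in hyperbolic space. -/

open Set Metric
open scoped ContDiff

namespace Pool.Agent.Helper608.HypMCF

variable {n : ℕ}

theorem second_test {g g' : ℝ → ℝ} {a : ℝ} (h1 : ∀ s, HasDerivAt g (g' s) s)
    (h2 : HasDerivAt g' a 0) (hmax : ∀ s, g s ≤ g 0) : g' 0 = 0 ∧ a ≤ 0 := by
  have h3 : IsLocalMax g 0 := Filter.Eventually.of_forall hmax
  have h4 : g' 0 = 0 := h3.hasDerivAt_eq_zero (h1 0)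
  refine ⟨h4, ?_⟩
  by_contra ha
  push Not at ha
  have hd : deriv g = g' := funext fun s => (h1 s).deriv
  have h5 : IsLocalMin g 0 := by
    apply isLocalMin_of_deriv_deriv_pos
    · rw [hd, h2.deriv]
      exact ha
    · rw [hd, h4]
    · exact (h1 0).continuousAt
  have h6 : ∀ᶠ s in nhds (0 : ℝ), g s = g 0 := by
    filter_upwards [h5] with s hs
    exact le_antisymm (hmax s) hs
  have h7 : ∀ᶠ s in nhds (0 : ℝ), g' s = 0 := by
    filter_upwards [h6.eventually_nhds] with s hs
    have h8 : HasDerivAt g 0 s := (hasDerivAt_const s (g 0)).congr_of_eventuallyEq hs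
    exact (h1 s).unique h8
  have h9 : HasDerivAt g' 0 0 := (hasDerivAt_const (0 : ℝ) (0 : ℝ)).congr_of_eventuallyEq h7
  have := h2.unique h9
  linarith

theorem frame_orth {F : S n → V n} (hF : IsSmooth F) (hH : ∀ x, F x ∈ Hyp n) (x : S n)
    (u : E n) : mink (D F x u) (F x) = 0 := by
  have := tangent hF hH (coe_ne_zero x) u
  rwa [proj_coe] at this

theorem frame_two {F : S n → V n} (hF : IsSmooth F) (hH : ∀ x, F x ∈ Hyp n) (x : S n)
    (u v : E n) : mink (D2 F x u v) (F x) = - mink (D F x v) (D F x u) := by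
  have := tangent2 hF hH (coe_ne_zero x) u v
  rwa [proj_coe] at this

/-- Evaluating a linear functional which is critical at the point on the mean curvature. -/
theorem meanCurv_apply {F : S n → V n} (hF : IsSmooth F) (hH : ∀ x, F x ∈ Hyp n) {x : S n}
    {e : Fin n → E n} (he : IsFrame F x e) (L : V n →ₗ[ℝ] ℝ) (hL : ∀ i, L (D F x (e i)) = 0) :
    L (meanCurv F x e) = ∑ i, L (D2 F x (e i) (e i)) - n * L (F x) := by
  simp only [meanCurv, sff, nor, map_sum, map_sub, map_add, map_smul, hL, frame_two hF hH, he.2]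
  simp [Finset.sum_add_distrib]
  ring

theorem test_linear {F : S n → V n} (hF : IsSmooth F) {x : S n} (v : V n)
    (hx : ∀ y, mink (F y) v ≤ mink (F x) v) {u : E n} (hu : inner ℝ (x : E n) u = 0) :
    mink (D F x u) v = 0 ∧ mink (D2 F x u u) v ≤ 0 := by
  have h1 : ∀ s : ℝ, HasDerivAt (fun s : ℝ => mink (F (proj ((x : E n) + s • u))) v)
      (mink (D F ((x : E n) + s • u) u) v) s := by
    intro s
    have := hasDerivAt_mink (hF.hasDerivAt u s (line_ne_zero x hu s)) (hasDerivAt_const s v)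
    simpa [mink_zero_right] using this
  have h2 : HasDerivAt (fun s : ℝ => mink (D F ((x : E n) + s • u) u) v)
      (mink (D2 F x u u) v) 0 := by
    have := hasDerivAt_mink (hF.hasDerivAt_D u u 0 (line_ne_zero x hu 0))
      (hasDerivAt_const (0 : ℝ) v)
    simpa [mink_zero_right] using this
  have h3 := second_test h1 h2 (fun s => by
    simp only [zero_smul, add_zero, proj_coe]
    exact hx _)
  simpa using h3

/-- The first barrier inequality. -/
theorem barrierA {F : S n → V n} (hF : IsSmooth F) (hH : ∀ x, F x ∈ Hyp n) {x : S n}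
    {e : Fin n → E n} (he : IsFrame F x e) (v : V n)
    (hx : ∀ y, mink (F y) v ≤ mink (F x) v) :
    mink (meanCurv F x e) v ≤ - (n * mink (F x) v) := by
  have h1 := meanCurv_apply hF hH he ((minkL n).flip v)
    (fun i => by
      rw [LinearMap.flip_apply, minkL_apply]
      exact (test_linear hF v hx (he.1 i)).1)
  simp only [LinearMap.flip_apply, minkL_apply] at h1
  rw [h1]
  have h2 : ∑ i, mink (D2 F x (e i) (e i)) v ≤ 0 :=
    Finset.sum_nonpos (fun i _ => (test_linear hF v hx (he.1 i)).2)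
  linarith

/-- The quadratic form `x₀² - b z²`, as a bilinear form. -/
noncomputable def quad (b : ℝ) (p q : V n) : ℝ := p.1 * q.1 - b * (p.2 0 * q.2 0)

theorem hasDerivAt_quad (b : ℝ) {c d : ℝ → V n} {c' d' : V n} {t : ℝ} (hc : HasDerivAt c c' t)
    (hd : HasDerivAt d d' t) :
    HasDerivAt (fun s => quad b (c s) (d s)) (quad b c' (d t) + quad b (c t) d') t := by
  have h1 : HasDerivAt (fun s => (c s).1) c'.1 t :=
    (ContinuousLinearMap.fst ℝ ℝ (E n)).hasFDerivAt.comp_hasDerivAt t hc
  have h2 : HasDerivAt (fun s => (c s).2 0) (c'.2 0) t :=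
    ((EuclideanSpace.proj (𝕜 := ℝ) (0 : Fin (n + 1))).comp
      (ContinuousLinearMap.snd ℝ ℝ (E n))).hasFDerivAt.comp_hasDerivAt t hc
  have h3 : HasDerivAt (fun s => (d s).1) d'.1 t :=
    (ContinuousLinearMap.fst ℝ ℝ (E n)).hasFDerivAt.comp_hasDerivAt t hd
  have h4 : HasDerivAt (fun s => (d s).2 0) (d'.2 0) t :=
    ((EuclideanSpace.proj (𝕜 := ℝ) (0 : Fin (n + 1))).comp
      (ContinuousLinearMap.snd ℝ ℝ (E n))).hasFDerivAt.comp_hasDerivAt t hd
  have h5 := (h1.mul h3).sub ((h2.mul h4).const_mul b)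
  refine h5.congr_deriv ?_
  simp only [quad]
  ring

theorem test_quad (b : ℝ) {F : S n → V n} (hF : IsSmooth F) {x : S n}
    (hx : ∀ y, quad b (F y) (F y) ≤ quad b (F x) (F x)) {u : E n}
    (hu : inner ℝ (x : E n) u = 0) :
    quad b (F x) (D F x u) = 0 ∧
      quad b (F x) (D2 F x u u) + quad b (D F x u) (D F x u) ≤ 0 := by
  have h1 : ∀ s : ℝ, HasDerivAt
      (fun s : ℝ => quad b (F (proj ((x : E n) + s • u))) (F (proj ((x : E n) + s • u))))
      (2 * quad b (F (proj ((x : E n) + s • u))) (D F ((x : E n) + s • u) u)) s := by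
    intro s
    have h := hF.hasDerivAt u s (line_ne_zero x hu s)
    have := hasDerivAt_quad b h h
    refine this.congr_deriv ?_
    simp only [quad]
    ring
  have h2 : HasDerivAt
      (fun s : ℝ => 2 * quad b (F (proj ((x : E n) + s • u))) (D F ((x : E n) + s • u) u))
      (2 * (quad b (D F x u) (D F x u) + quad b (F x) (D2 F x u u))) 0 := by
    have h := hF.hasDerivAt u 0 (line_ne_zero x hu 0)
    have h' := hF.hasDerivAt_D u u 0 (line_ne_zero x hu 0)
    have := (hasDerivAt_quad b h h').const_mul 2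
    simpa [proj_coe] using this
  have h3 := second_test h1 h2 (fun s => by
    simp only [zero_smul, add_zero, proj_coe]
    exact hx _)
  simp only [zero_smul, add_zero, proj_coe] at h3
  constructor
  · linarith [h3.1]
  · linarith [h3.2]

/-- `quad b p` as a linear map. -/
noncomputable def quadL (b : ℝ) (p : V n) : V n →ₗ[ℝ] ℝ where
  toFun q := quad b p q
  map_add' q r := by simp only [quad, Prod.fst_add, Prod.snd_add, PiLp.add_apply]; ring
  map_smul' c q := by
    simp only [quad, Prod.smul_fst, Prod.smul_snd, PiLp.smul_apply, smul_eq_mul, RingHom.id_apply]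
    ring

theorem quadL_apply (b : ℝ) (p q : V n) : quadL b p q = quad b p q := rfl

/-- The unit vector in the direction of the `z`-axis. -/
noncomputable def ez (n : ℕ) : V n := (0, EuclideanSpace.single 0 1)

theorem mink_ez (p : V n) : mink (ez n) p = p.2 0 := by
  simp [mink, ez, EuclideanSpace.inner_single_left]

theorem mink_ez_ez : mink (ez n) (ez n) = 1 := by
  rw [mink_ez]
  simp [ez]

/-- The second barrier inequality. -/
theorem barrierB {b : ℝ} (hb : 0 ≤ b) {F : S n → V n} (hF : IsSmooth F)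
    (hH : ∀ x, F x ∈ Hyp n) {x : S n}
    {e : Fin n → E n} (he : IsFrame F x e)
    (hx : ∀ y, quad b (F y) (F y) ≤ quad b (F x) (F x)) (hpos : 0 < quad b (F x) (F x)) :
    quad b (F x) (meanCurv F x e) ≤ - ((n - b) * quad b (F x) (F x)) := by
  have ht : ∀ i, quad b (F x) (D F x (e i)) = 0 ∧
      quad b (F x) (D2 F x (e i) (e i)) + quad b (D F x (e i)) (D F x (e i)) ≤ 0 :=
    fun i => test_quad b hF hx (he.1 i)
  have h1 := meanCurv_apply hF hH he (quadL b (F x)) (fun i => (ht i).1)
  simp only [quadL_apply] at h1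
  rw [h1]
  have h2 : ∑ i, quad b (F x) (D2 F x (e i) (e i)) ≤
      - ∑ i, quad b (D F x (e i)) (D F x (e i)) := by
    rw [← Finset.sum_neg_distrib]
    exact Finset.sum_le_sum (fun i _ => by linarith [(ht i).2])
  have hx0 : 0 < (F x).1 := (hH x).2
  have h3 : ∀ i, - quad b (D F x (e i)) (D F x (e i)) =
      b * quad b (F x) (F x) / (F x).1 ^ 2 * (mink (ez n) (D F x (e i))) ^ 2 := by
    intro i
    have h4 := (ht i).1
    rw [mink_ez]
    simp only [quad] at h4 ⊢
    have h5 : (D F x (e i)).1 = b * ((F x).2 0 * (D F x (e i)).2 0) / (F x).1 := by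
      rw [eq_div_iff hx0.ne']
      linarith
    rw [h5]
    field_simp
    ring
  have h4 : ∑ i, (mink (ez n) (D F x (e i))) ^ 2 ≤ (F x).1 ^ 2 := by
    have h5 := bessel (hH x) (fun i => frame_orth hF hH x (e i)) he.2 (ez n)
    rw [mink_ez_ez, mink_ez] at h5
    have h6 := Hyp.norm_sq (hH x)
    have h7 : (F x).2 0 ^ 2 ≤ ‖(F x).2‖ ^ 2 := by
      rw [EuclideanSpace.norm_sq_eq]
      have := Finset.single_le_sum (f := fun i => ‖(F x).2 i‖ ^ 2) (fun i _ => sq_nonneg _)
        (Finset.mem_univ (0 : Fin (n + 1)))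
      simpa using this
    linarith
  have h5 : - ∑ i, quad b (D F x (e i)) (D F x (e i)) ≤ b * quad b (F x) (F x) := by
    rw [← Finset.sum_neg_distrib, Finset.sum_congr rfl (fun i _ => h3 i), ← Finset.mul_sum]
    have h6 : 0 ≤ b * quad b (F x) (F x) / (F x).1 ^ 2 := by positivity
    calc _ ≤ b * quad b (F x) (F x) / (F x).1 ^ 2 * (F x).1 ^ 2 :=
          mul_le_mul_of_nonneg_left h4 h6
      _ = _ := by field_simp
  linarith

end Pool.Agent.Helper608.HypMCF
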