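import Mathlib
import Pool.Agent.Helper608.HGeo

/-! Existence of frames; the normal projection. -/

open Set Metric
open scoped ContDiff

namespace Pool.Agent.Helper608.HypMCF

variable {n : ℕ}

/-- The induced metric as a bilinear form. -/
noncomputable def gform (F : S n → V n) (x : S n) : LinearMap.BilinForm ℝ (E n) :=
  LinearMap.mk₂ ℝ (fun u v => mink (D F x u) (D F x v))
    (fun u v w => by rw [D_add, mink_add_left])
    (fun c u v => by rw [D_smul, mink_smul_left, smul_eq_mul])
    (fun u v w => by rw [D_add, mink_add_right])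
    (fun c u v => by rw [D_smul, mink_smul_right, smul_eq_mul])

theorem gform_apply (F : S n → V n) (x : S n) (u v : E n) :
    gform F x u v = mink (D F x u) (D F x v) := rfl

theorem exists_frame {F : S n → V n} (hF : IsSmooth F) (hH : ∀ x, F x ∈ Hyp n)
    (hi : IsImmersion F) (x : S n) : ∃ e, IsFrame F x e := by
  let W := (Submodule.span ℝ {(x : E n)})ᗮ
  have hW : Module.finrank ℝ W = n := by
    have : Fact (Module.finrank ℝ (E n) = n + 1) := ⟨by simp⟩
    exact Submodule.finrank_orthogonal_span_singleton (coe_ne_zero x)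
  let B : LinearMap.BilinForm ℝ W := (gform F x).restrict W
  have hB : ∀ u v : W, B u v = mink (D F x u) (D F x v) := fun u v => rfl
  have hsymm : LinearMap.IsSymm B := ⟨fun u v => by
    rw [hB, hB, mink_comm]
    rfl⟩
  obtain ⟨v, hv⟩ := LinearMap.BilinForm.exists_orthogonal_basis hsymm
  have hperp : ∀ w : W, inner ℝ (x : E n) (w : E n) = 0 := fun w =>
    Submodule.mem_orthogonal_singleton_iff_inner_right.1 w.2
  have hpos : ∀ i, 0 < B (v i) (v i) := by
    intro i
    have h1 := spacelike_nonneg (hH x) (frame_orth hF hH x (v i : E n))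
    rcases h1.lt_or_eq with h | h
    · exact h
    · exfalso
      have h2 := spacelike_zero (hH x) (frame_orth hF hH x (v i : E n)) h.symm
      have h3 := hi x _ (hperp _) h2
      exact v.ne_zero i (Subtype.ext h3)
  have hvo : ∀ i j, i ≠ j → B (v i) (v j) = 0 := fun i j hij => hv hij
  refine ⟨fun i => (√(B (v (Fin.cast hW.symm i)) (v (Fin.cast hW.symm i))))⁻¹ •
    (v (Fin.cast hW.symm i) : E n), fun i => ?_, fun i j => ?_⟩
  · rw [inner_smul_right, hperp, mul_zero]
  · rw [D_smul, D_smul, mink_smul_left, mink_smul_right, ← hB]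
    split_ifs with hij
    · subst hij
      have h1 := hpos (Fin.cast hW.symm i)
      have h2 : √(B (v (Fin.cast hW.symm i)) (v (Fin.cast hW.symm i))) ≠ 0 :=
        (Real.sqrt_pos.2 h1).ne'
      field_simp
      rw [Real.sq_sqrt h1.le]
    · rw [hvo (Fin.cast hW.symm i) (Fin.cast hW.symm j)
        (fun h => hij (Fin.cast_injective hW.symm h))]
      simp

/-- The normal projection for a hypersurface. -/
theorem nor_eq {F : S n → V n} (hF : IsSmooth F) (hH : ∀ x, F x ∈ Hyp n) {x : S n}
    {e : Fin n → E n} (he : IsFrame F x e) {ν : V n} (h1 : mink ν ν = 1) (h2 : mink ν (F x) = 0)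
    (h3 : ∀ i, mink ν (D F x (e i)) = 0) (y : V n) :
    nor F x e y = mink y ν • ν := by
  let Φ : V n →ₗ[ℝ] (Fin n → ℝ) × ℝ × ℝ :=
    LinearMap.prod (LinearMap.pi fun i => (minkL n).flip (D F x (e i)))
      (LinearMap.prod ((minkL n).flip (F x)) ((minkL n).flip ν))
  have hΦ : ∀ y, Φ y = (fun i => mink y (D F x (e i)), mink y (F x), mink y ν) := fun y => rfl
  have hd : ∀ i, mink (D F x (e i)) (F x) = 0 := fun i => frame_orth hF hH x (e i)
  have hsurj : Function.Surjective Φ := by
    rintro ⟨a, b, c⟩
    refine ⟨∑ i, a i • D F x (e i) - b • F x + c • ν, ?_⟩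
    rw [hΦ]
    ext1
    · funext i
      simp only [mink_add_left, mink_sub_left, mink_sum_left, mink_smul_left, he.2,
        mink_comm (F x), hd, h3]
      simp
    · ext1
      · simp only [mink_add_left, mink_sub_left, mink_sum_left, mink_smul_left, hd, h2, (hH x).1]
        simp
      · simp only [mink_add_left, mink_sub_left, mink_sum_left, mink_smul_left,
          mink_comm (D F x (e _)) ν, h3, mink_comm (F x) ν, h2, h1]
        simp
  have hinj : Function.Injective Φ := by
    rw [LinearMap.injective_iff_surjective_of_finrank_eq_finrank]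
    · exact hsurj
    · simp
      ring
  have hz : nor F x e y - mink y ν • ν = 0 := by
    apply hinj
    rw [map_zero, hΦ]
    ext1
    · funext i
      simp only [nor, mink_add_left, mink_sub_left, mink_sum_left, mink_smul_left, he.2,
        mink_comm (F x), hd, h3]
      simp
    · ext1
      · simp only [nor, mink_add_left, mink_sub_left, mink_sum_left, mink_smul_left, hd, h2,
          (hH x).1]
        simp
      · simp only [nor, mink_add_left, mink_sub_left, mink_sum_left, mink_smul_left,
          mink_comm (D F x (e _)) ν, h3, mink_comm (F x) ν, h2, h1]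
        simp
  exact sub_eq_zero.1 hz

end Pool.Agent.Helper608.HypMCF
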