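import Mathlib
import Pool.Agent.Helper608.HFrame

/-! Barrier estimates along mean curvature flow in hyperbolic space. -/

open Set Metric
open scoped ContDiff

namespace Pool.Agent.Helper608.HypMCF

variable {n : ℕ}

theorem IsMCF.isSmooth {F₀ : S n → V n} {T : ℝ} {F : ℝ → S n → V n} (h : IsMCF F₀ T F) {t : ℝ}
    (ht : t ∈ Ico 0 T) : IsSmooth (F t) := by
  have h1 : ContDiffOn ℝ ∞ (fun y : E n => ((t, y) : ℝ × E n)) {0}ᶜ :=
    contDiffOn_const.prodMk contDiffOn_id
  exact h.smooth.comp h1 (fun y hy => ⟨ht, hy⟩)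

theorem IsMCF.continuousOn {F₀ : S n → V n} {T : ℝ} {F : ℝ → S n → V n} (h : IsMCF F₀ T F) :
    ContinuousOn (fun q : ℝ × S n => F q.1 q.2) (Ico 0 T ×ˢ univ) := by
  have h1 : ContinuousOn (fun q : ℝ × S n => ((q.1, (q.2 : E n)) : ℝ × E n)) (Ico 0 T ×ˢ univ) := by
    fun_prop
  have h2 := h.smooth.continuousOn.comp h1 (fun q hq => ⟨hq.1, coe_ne_zero q.2⟩)
  refine h2.congr (fun q hq => ?_)
  simp only [Function.comp, proj_coe]

theorem IsMCF.exists_frame {F₀ : S n → V n} {T : ℝ} {F : ℝ → S n → V n} (h : IsMCF F₀ T F) {t : ℝ}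
    (ht : t ∈ Ico 0 T) (x : S n) : ∃ e, IsFrame (F t) x e :=
  HypMCF.exists_frame (h.isSmooth ht) (h.mem t ht) (h.imm t ht) x

theorem flow_barrierA {F₀ : S n → V n} {T : ℝ} {F : ℝ → S n → V n} (h : IsMCF F₀ T F)
    (v : V n) {m : ℝ} (h0 : ∀ x, m ≤ - mink (F₀ x) v) :
    ∀ t ∈ Ico 0 T, ∀ x, m * Real.exp (-(n * t)) ≤ - mink (F t x) v := by
  classical
  have hf : ∀ t, ∀ x : S n, ∃ e, t ∈ Ico 0 T → IsFrame (F t) x e := by
    intro t x
    by_cases ht : t ∈ Ico 0 T
    · obtain ⟨e, he⟩ := h.exists_frame ht x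
      exact ⟨e, fun _ => he⟩
    · exact ⟨fun _ => 0, fun h => absurd h ht⟩
  choose e he using hf
  have key := max_principle (T := T) (M := -m)
    (fun t x => Real.exp (n * t) * mink (F t x) v)
    (fun t x => Real.exp (n * t) * (n * mink (F t x) v + mink (meanCurv (F t) x (e t x)) v))
    ?_ ?_ ?_ ?_
  · intro t ht x
    have h1 := key t ht x
    have h2 : 0 < Real.exp (n * t) := Real.exp_pos _
    rw [Real.exp_neg, ← div_eq_mul_inv, div_le_iff₀ h2]
    linarith
  · have h1 := h.continuousOn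
    have h2 : ContinuousOn (fun q : ℝ × S n => mink (F q.1 q.2) v) (Ico 0 T ×ˢ univ) :=
      continuous_mink.comp_continuousOn (h1.prodMk continuousOn_const)
    exact ContinuousOn.mul (by fun_prop) h2
  · intro t ht x
    have h1 := h.flow t ht x _ (he t x ht)
    have h2 : HasDerivWithinAt (fun s => mink (F s x) v) (mink (meanCurv (F t) x (e t x)) v)
        (Ico 0 T) t := by
      have h3 : HasDerivWithinAt (fun s => (F s x).1) (meanCurv (F t) x (e t x)).1 (Ico 0 T) t :=
        (ContinuousLinearMap.fst ℝ ℝ (E n)).hasFDerivAt.comp_hasDerivWithinAt t h1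
      have h4 : HasDerivWithinAt (fun s => (F s x).2) (meanCurv (F t) x (e t x)).2 (Ico 0 T) t :=
        (ContinuousLinearMap.snd ℝ ℝ (E n)).hasFDerivAt.comp_hasDerivWithinAt t h1
      have h5 := (h4.inner ℝ (hasDerivWithinAt_const t (Ico 0 T) v.2)).sub (h3.mul_const v.1)
      refine h5.congr_deriv ?_
      simp only [mink, inner_zero_right, zero_add]
    have h6 : HasDerivAt (fun s : ℝ => Real.exp (n * s)) (Real.exp (n * t) * n) t := by
      have := ((hasDerivAt_id t).const_mul (n : ℝ)).exp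
      simpa using this
    have h7 := h6.hasDerivWithinAt (s := Ico 0 T) |>.mul h2
    refine h7.congr_deriv ?_
    ring
  · intro x
    rw [h.init]
    simp only [mul_zero, Real.exp_zero, one_mul]
    linarith [h0 x]
  · intro t ht x hx _
    have h2 : 0 < Real.exp (n * t) := Real.exp_pos _
    have h1 := barrierA (h.isSmooth ht) (h.mem t ht) (he t x ht) v
      (fun y => le_of_mul_le_mul_left (hx y) h2)
    exact mul_nonpos_of_nonneg_of_nonpos h2.le (by linarith)

theorem flow_barrierB {b : ℝ} (hb : 0 ≤ b) {F₀ : S n → V n} {T : ℝ} {F : ℝ → S n → V n}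
    (h : IsMCF F₀ T F) {M : ℝ} (hM : 0 ≤ M) (h0 : ∀ x, quad b (F₀ x) (F₀ x) ≤ M) :
    ∀ t ∈ Ico 0 T, ∀ x, quad b (F t x) (F t x) ≤ M * Real.exp (-(2 * (n - b) * t)) := by
  classical
  have hf : ∀ t, ∀ x : S n, ∃ e, t ∈ Ico 0 T → IsFrame (F t) x e := by
    intro t x
    by_cases ht : t ∈ Ico 0 T
    · obtain ⟨e, he⟩ := h.exists_frame ht x
      exact ⟨e, fun _ => he⟩
    · exact ⟨fun _ => 0, fun h => absurd h ht⟩
  choose e he using hf
  have key := max_principle (T := T) (M := M)
    (fun t x => Real.exp (2 * (n - b) * t) * quad b (F t x) (F t x))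
    (fun t x => Real.exp (2 * (n - b) * t) * (2 * (n - b) * quad b (F t x) (F t x) +
      2 * quad b (F t x) (meanCurv (F t) x (e t x))))
    ?_ ?_ ?_ ?_
  · intro t ht x
    have h1 := key t ht x
    have h2 : 0 < Real.exp (2 * (n - b) * t) := Real.exp_pos _
    rw [Real.exp_neg, ← div_eq_mul_inv, le_div_iff₀ h2]
    linarith
  · have h1 := h.continuousOn
    have h3 : Continuous (fun p : V n => quad b p p) := by
      unfold quad
      fun_prop
    have h2 : ContinuousOn (fun q : ℝ × S n => quad b (F q.1 q.2) (F q.1 q.2))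
        (Ico 0 T ×ˢ univ) := h3.comp_continuousOn h1
    exact ContinuousOn.mul (by fun_prop) h2
  · intro t ht x
    have h1 := h.flow t ht x _ (he t x ht)
    have h2 : HasDerivWithinAt (fun s => quad b (F s x) (F s x))
        (2 * quad b (F t x) (meanCurv (F t) x (e t x))) (Ico 0 T) t := by
      have h3 : HasDerivWithinAt (fun s => (F s x).1) (meanCurv (F t) x (e t x)).1 (Ico 0 T) t :=
        (ContinuousLinearMap.fst ℝ ℝ (E n)).hasFDerivAt.comp_hasDerivWithinAt t h1
      have h4 : HasDerivWithinAt (fun s => (F s x).2 0) ((meanCurv (F t) x (e t x)).2 0)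
          (Ico 0 T) t :=
        ((EuclideanSpace.proj (𝕜 := ℝ) (0 : Fin (n + 1))).comp
          (ContinuousLinearMap.snd ℝ ℝ (E n))).hasFDerivAt.comp_hasDerivWithinAt t h1
      have h5 := (h3.mul h3).sub ((h4.mul h4).const_mul b)
      refine h5.congr_deriv ?_
      simp only [quad]
      ring
    have h6 : HasDerivAt (fun s : ℝ => Real.exp (2 * (n - b) * s))
        (Real.exp (2 * (n - b) * t) * (2 * (n - b))) t := by
      have := ((hasDerivAt_id t).const_mul (2 * ((n : ℝ) - b))).exp
      simpa using this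
    have h7 := h6.hasDerivWithinAt (s := Ico 0 T) |>.mul h2
    refine h7.congr_deriv ?_
    ring
  · intro x
    rw [h.init]
    simp only [mul_zero, Real.exp_zero, one_mul]
    exact h0 x
  · intro t ht x hx hlt
    have h2 : 0 < Real.exp (2 * (n - b) * t) := Real.exp_pos _
    have h3 : 0 < quad b (F t x) (F t x) := by
      by_contra hcon
      push Not at hcon
      have := mul_nonpos_of_nonneg_of_nonpos h2.le hcon
      linarith
    have h1 := barrierB hb (h.isSmooth ht) (h.mem t ht) (he t x ht)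
      (fun y => le_of_mul_le_mul_left (hx y) h2) h3
    exact mul_nonpos_of_nonneg_of_nonpos h2.le (by linarith)

end Pool.Agent.Helper608.HypMCF
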