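import Mathlib
import Pool.Agent.Helper608.HFlow

/-! The topological part of the argument, for an abstract initial surface. -/

open Set Metric
open scoped ContDiff

namespace Pool.Agent.Helper608.HypMCF

variable {n : ℕ}

theorem hom_flow {F₀ : S n → V n} {T : ℝ} {F : ℝ → S n → V n} (h : IsMCF F₀ T F) {v : V n}
    (hv : v ∈ Hyp n) {t : ℝ} (ht : t ∈ Ico 0 T)
    (hm : ∀ s ∈ Icc 0 t, ∀ x, 1 < - mink (F s x) v) :
    Hom (fun x => (F₀ x).2 - v.2) (fun x => (F t x).2 - v.2) := by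
  have h1 := Hom.of ht.1 (fun s x => (F s x).2 - v.2) ?_ ?_
  · rw [h.init] at h1
    exact h1
  · have h2 : ContinuousOn (fun q : ℝ × S n => F q.1 q.2) (Icc 0 t ×ˢ univ) :=
      h.continuousOn.mono (prod_mono (fun s hs => ⟨hs.1, hs.2.trans_lt ht.2⟩) subset_rfl)
    exact h2.snd.sub continuousOn_const
  · intro s hs x hcon
    have h3 : (F s x).2 = v.2 := sub_eq_zero.1 hcon
    have h4 := Hyp.ext (h.mem s ⟨hs.1, hs.2.trans_lt ht.2⟩ x) hv h3
    have h5 := hm s hs x
    rw [h4, hv.1] at h5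
    linarith

theorem shrink_contra {F₀ : S n → V n} {T : ℝ} {F : ℝ → S n → V n} (h : IsMCF F₀ T F) {v : V n}
    (hv : v ∈ Hyp n) {K : ℝ} (hK : 1 < K)
    (hm : ∀ s ∈ Ico 0 T, ∀ x, K ≤ - mink (F s x) v)
    (hh : Hom (fun x : S n => (x : E n)) (fun x => (F₀ x).2 - v.2)) :
    ¬ ShrinksToPoint T F := by
  rintro ⟨o, ho, hlim⟩
  have h1 : K ≤ - mink o v := by
    by_contra hcon
    push Not at hcon
    have hc : Continuous (fun p : V n => - mink p v) :=
      (continuous_mink.comp (continuous_id.prodMk continuous_const)).neg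
    have hev : ∀ᶠ p in nhds o, - mink p v < K := hc.continuousAt.eventually_lt_const hcon
    obtain ⟨ε, hε, hε2⟩ := Metric.eventually_nhds_iff.1 hev
    obtain ⟨δ, hδ, hδ2⟩ := hlim ε hε
    have hT := h.pos
    have hs : max 0 (T - δ / 2) ∈ Ico 0 T := ⟨le_max_left _ _, max_lt hT (by linarith)⟩
    have hs2 : T - δ < max 0 (T - δ / 2) := lt_of_lt_of_le (by linarith) (le_max_right _ _)
    have h2 := hδ2 _ hs hs2 (pole n)
    have h3 := hε2 (y := F (max 0 (T - δ / 2)) (pole n)) (by rwa [dist_eq_norm])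
    have h4 := hm _ hs (pole n)
    linarith
  have h2 : o.2 ≠ v.2 := by
    intro hcon
    have := Hyp.ext ho hv hcon
    rw [this, hv.1] at h1
    linarith
  have h3 : 0 < ‖o.2 - v.2‖ := norm_pos_iff.2 (sub_ne_zero.2 h2)
  obtain ⟨δ, hδ, hδ2⟩ := hlim _ h3
  have hT := h.pos
  have hs : max 0 (T - δ / 2) ∈ Ico 0 T := ⟨le_max_left _ _, max_lt hT (by linarith)⟩
  have hs2 : T - δ < max 0 (T - δ / 2) := lt_of_lt_of_le (by linarith) (le_max_right _ _)
  set t := max 0 (T - δ / 2) with htdef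
  have h4 := hδ2 t hs hs2
  have h5 : Hom (fun x => (F₀ x).2 - v.2) (fun x => (F t x).2 - v.2) :=
    hom_flow h hv hs (fun s hs' x => hK.trans_le (hm s ⟨hs'.1, hs'.2.trans_lt hs.2⟩ x))
  have h6 : Hom (fun x => (F t x).2 - v.2) (fun _ => o.2 - v.2) := by
    have h7 := Hom.of (n := n) zero_le_one
      (fun s x => (o.2 - v.2) + (1 - s) • ((F t x).2 - o.2)) ?_ ?_
    · have e1 : (fun x : S n => (o.2 - v.2) + (1 - (0 : ℝ)) • ((F t x).2 - o.2)) =
          fun x => (F t x).2 - v.2 := by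
        funext x
        rw [sub_zero, one_smul]
        abel
      have e2 : (fun x : S n => (o.2 - v.2) + (1 - (1 : ℝ)) • ((F t x).2 - o.2)) =
          fun x => o.2 - v.2 := by
        funext x
        rw [sub_self, zero_smul, add_zero]
      rw [e1, e2] at h7
      exact h7
    · have h8 : Continuous (fun x : S n => (F t x).2) := by
        have h9 := h.continuousOn.comp_continuous (f := fun x : S n => (t, x))
          (by fun_prop) (fun x => ⟨hs, mem_univ _⟩)
        exact h9.snd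
      apply Continuous.continuousOn
      exact continuous_const.add ((continuous_const.sub continuous_fst).smul
        ((h8.comp continuous_snd).sub continuous_const))
    · intro s hs' x hcon
      have h8 : ‖(1 - s) • ((F t x).2 - o.2)‖ < ‖o.2 - v.2‖ := by
        rw [norm_smul]
        have h9 : ‖(F t x).2 - o.2‖ ≤ ‖F t x - o‖ := by
          have := norm_snd_le (F t x - o)
          simpa using this
        have h10 : ‖(1 : ℝ) - s‖ ≤ 1 := by
          rw [Real.norm_eq_abs, abs_le]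
          constructor <;> linarith [hs'.1, hs'.2]
        calc ‖(1 : ℝ) - s‖ * ‖(F t x).2 - o.2‖ ≤ 1 * ‖F t x - o‖ := by
              apply mul_le_mul h10 h9 (norm_nonneg _) zero_le_one
          _ < _ := by
              rw [one_mul]
              exact h4 x
      have h9 : o.2 - v.2 = - ((1 - s) • ((F t x).2 - o.2)) := eq_neg_of_add_eq_zero_left hcon
      rw [h9, norm_neg] at h8
      exact lt_irrefl _ h8
  exact not_hom_const _ (hh.trans (h5.trans h6))

/-- If all the points of the image lie on the other side of `{z = 0}` than `v`, the map is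
null-homotopic in the complement of `v`. -/
theorem hom_side {G : S n → V n} (hG : Continuous G) {v : V n} {c : ℝ} (hc : c ≠ 0)
    (hside : ∀ x, 0 < c * ((G x).2 0 - v.2 0)) :
    Hom (fun x => (G x).2 - v.2) (fun _ => c • EuclideanSpace.single (0 : Fin (n + 1)) (1 : ℝ)) := by
  have h7 := Hom.of (n := n) zero_le_one
    (fun s x => (1 - s) • ((G x).2 - v.2) +
      s • (c • EuclideanSpace.single (0 : Fin (n + 1)) (1 : ℝ))) ?_ ?_
  · simp only [sub_zero, one_smul, zero_smul, add_zero, sub_self, zero_add] at h7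
    exact h7
  · have h8 : Continuous (fun x : S n => (G x).2) := hG.snd
    apply Continuous.continuousOn
    fun_prop
  · intro s hs x hcon
    have h1 := congrArg (fun y : E n => y 0) hcon
    simp only [PiLp.add_apply, PiLp.smul_apply, PiLp.sub_apply, PiLp.single_apply,
      PiLp.zero_apply, if_true, smul_eq_mul, mul_one] at h1
    have h2 := hside x
    have h3 : c * ((1 - s) * ((G x).2 0 - v.2 0) + s * c) = 0 := by rw [h1, mul_zero]
    have h4 : 0 < c ^ 2 := by positivity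
    rcases hs.1.lt_or_eq with h | h
    · nlinarith [mul_nonneg (sub_nonneg.2 hs.2) h2.le, mul_pos h h4]
    · rw [← h] at h3
      nlinarith

theorem sphere_connected (hn : 1 ≤ n) : PreconnectedSpace (S n) := by
  have h1 : 1 < Module.rank ℝ (E n) := by
    rw [← Module.finrank_eq_rank]
    simp
    exact_mod_cast hn
  exact isPreconnected_iff_preconnectedSpace.1 (isPreconnected_sphere h1 0 1)

theorem time_contra (hn : 1 ≤ n) {F₀ : S n → V n} {T : ℝ} {F : ℝ → S n → V n}
    (h : IsMCF F₀ T F) {v₁ v₂ : V n}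
    (hv₁ : v₁ ∈ Hyp n) (hv₂ : v₂ ∈ Hyp n) (hz₁ : 0 < v₁.2 0) (hz₂ : v₂.2 0 < 0) {b : ℝ} {t : ℝ}
    (ht : t ∈ Ico 0 T)
    (hm₁ : ∀ s ∈ Icc 0 t, ∀ x, 1 < - mink (F s x) v₁)
    (hm₂ : ∀ s ∈ Icc 0 t, ∀ x, 1 < - mink (F s x) v₂)
    (hq : ∀ x, quad b (F t x) (F t x) < 1)
    (hh₁ : Hom (fun x : S n => (x : E n)) (fun x => (F₀ x).2 - v₁.2))
    (hh₂ : Hom (fun x : S n => (x : E n)) (fun x => (F₀ x).2 - v₂.2)) : False := by
  have hG : Continuous (F t) := h.continuousOn.comp_continuous (f := fun x : S n => (t, x))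
      (by fun_prop) (fun x => ⟨ht, mem_univ _⟩)
  have hne : ∀ x, (F t x).2 0 ≠ 0 := by
    intro x hcon
    have h1 := hq x
    have h2 := Hyp.one_le (h.mem t ht x)
    simp only [quad, hcon] at h1
    nlinarith
  have hc : Continuous (fun x : S n => (F t x).2 0) := by
    have := hG.snd
    fun_prop
  have := sphere_connected hn
  have hsign : (∀ x, 0 < (F t x).2 0) ∨ (∀ x, (F t x).2 0 < 0) := by
    by_contra hcon
    push Not at hcon
    obtain ⟨⟨x, hx⟩, ⟨y, hy⟩⟩ := hcon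
    have h1 : (0 : ℝ) ∈ range (fun x : S n => (F t x).2 0) :=
      mem_range_of_exists_le_of_exists_ge hc ⟨x, hx⟩ ⟨y, hy⟩
    obtain ⟨w, hw⟩ := h1
    exact hne w hw
  rcases hsign with hs | hs
  · exact not_hom_const _ (hh₂.trans ((hom_flow h hv₂ ht hm₂).trans
      (hom_side hG (v := v₂) one_ne_zero (fun x => by linarith [hs x]))))
  · exact not_hom_const _ (hh₁.trans ((hom_flow h hv₁ ht hm₁).trans
      (hom_side hG (v := v₁) (c := -1) (by norm_num) (fun x => by linarith [hs x]))))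

theorem abstract_main (hn : 1 ≤ n) {F₀ : S n → V n} {v₁ v₂ : V n}
    (hv₁ : v₁ ∈ Hyp n) (hv₂ : v₂ ∈ Hyp n) (hz₁ : 0 < v₁.2 0) (hz₂ : v₂.2 0 < 0)
    {b m M τ : ℝ} (hb : 0 ≤ b) (hm : 0 ≤ m) (hM : 0 ≤ M) (hτ : 0 ≤ τ)
    (hm₁ : ∀ x, m ≤ - mink (F₀ x) v₁) (hm₂ : ∀ x, m ≤ - mink (F₀ x) v₂)
    (hq : ∀ x, quad b (F₀ x) (F₀ x) ≤ M)
    (hh₁ : Hom (fun x : S n => (x : E n)) (fun x => (F₀ x).2 - v₁.2))
    (hh₂ : Hom (fun x : S n => (x : E n)) (fun x => (F₀ x).2 - v₂.2))
    (hτ1 : 1 < m * Real.exp (-(n * τ))) (hτ2 : M * Real.exp (-(2 * (n - b) * τ)) < 1)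
    {T : ℝ} {F : ℝ → S n → V n} (h : IsMCF F₀ T F) :
    T ≤ τ ∧ ¬ ShrinksToPoint T F := by
  have hA₁ := flow_barrierA h v₁ hm₁
  have hA₂ := flow_barrierA h v₂ hm₂
  have hB := flow_barrierB hb h hM hq
  have hmono : ∀ s ≤ τ, m * Real.exp (-(n * τ)) ≤ m * Real.exp (-(n * s)) := by
    intro s hs
    apply mul_le_mul_of_nonneg_left _ hm
    apply Real.exp_le_exp.2
    have : (n : ℝ) * s ≤ n * τ := mul_le_mul_of_nonneg_left hs (Nat.cast_nonneg _)
    linarith
  have hT : T ≤ τ := by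
    by_contra hcon
    push Not at hcon
    have ht : τ ∈ Ico 0 T := ⟨hτ, hcon⟩
    refine time_contra hn h hv₁ hv₂ hz₁ hz₂ ht (b := b) ?_ ?_ ?_ hh₁ hh₂
    · intro s hs x
      exact hτ1.trans_le ((hmono s hs.2).trans (hA₁ s ⟨hs.1, hs.2.trans_lt hcon⟩ x))
    · intro s hs x
      exact hτ1.trans_le ((hmono s hs.2).trans (hA₂ s ⟨hs.1, hs.2.trans_lt hcon⟩ x))
    · intro x
      exact (hB τ ht x).trans_lt hτ2
  refine ⟨hT, ?_⟩
  refine shrink_contra h hv₁ hτ1 (fun s hs x => ?_) hh₁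
  exact (hmono s (hs.2.le.trans hT)).trans (hA₁ s hs x)

end Pool.Agent.Helper608.HypMCF
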