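import Mathlib
import Pool.Agent.Helper608.HAbs

/-! The initial surface: first and second derivatives. -/

open Set Metric
open scoped ContDiff

namespace Pool.Agent.Helper608.HypMCF

variable {n : ℕ}

/-- Parameters of the initial surface. -/
structure Par where
  A : ℝ
  B : ℝ
  ε : ℝ
  hB : 0 ≤ B
  hAB : B < A
  hε : 0 < ε
  hσ : ε * A ≤ 1 / 2

namespace Par

variable (P : Par)

/-- The function `σ = ε (A - B q)`. -/
noncomputable def sg (q : ℝ) : ℝ := P.ε * (P.A - P.B * q)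

/-- The radius `r = - log σ`. -/
noncomputable def rr (q : ℝ) : ℝ := - Real.log (P.sg q)

/-- `α = cosh r`. -/
noncomputable def al (q : ℝ) : ℝ := Real.cosh (P.rr q)

/-- `β = sinh r`. -/
noncomputable def be (q : ℝ) : ℝ := Real.sinh (P.rr q)

/-- `p = r'`. -/
noncomputable def pp (q : ℝ) : ℝ := P.B / (P.A - P.B * q)

/-- The initial surface. -/
noncomputable def F0 (θ : S n) : V n :=
  (P.al ((θ : E n) 0 ^ 2), P.be ((θ : E n) 0 ^ 2) • (θ : E n))

theorem den_pos {q : ℝ} (hq : q ≤ 1) : 0 < P.A - P.B * q := by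
  have h1 : P.B * q ≤ P.B * 1 := mul_le_mul_of_nonneg_left hq P.hB
  linarith [P.hAB]

theorem sg_pos {q : ℝ} (hq : q ≤ 1) : 0 < P.sg q := mul_pos P.hε (P.den_pos hq)

theorem sg_le {q : ℝ} (hq : 0 ≤ q) : P.sg q ≤ 1 / 2 := by
  have h1 : P.ε * (P.A - P.B * q) ≤ P.ε * P.A := by
    apply mul_le_mul_of_nonneg_left _ P.hε.le
    have := mul_nonneg P.hB hq
    linarith
  exact h1.trans P.hσ

theorem al_eq {q : ℝ} (hq : q ≤ 1) : P.al q = ((P.sg q)⁻¹ + P.sg q) / 2 := by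
  have h := P.sg_pos hq
  rw [al, rr, Real.cosh_eq, neg_neg, Real.exp_neg, Real.exp_log h]

theorem be_eq {q : ℝ} (hq : q ≤ 1) : P.be q = ((P.sg q)⁻¹ - P.sg q) / 2 := by
  have h := P.sg_pos hq
  rw [be, rr, Real.sinh_eq, neg_neg, Real.exp_neg, Real.exp_log h]

theorem al_pos (q : ℝ) : 0 < P.al q := Real.cosh_pos _

theorem al_sq (q : ℝ) : P.al q ^ 2 = P.be q ^ 2 + 1 := Real.cosh_sq _

/-- `β ≥ 3 / (8 σ)`. -/
theorem be_lower {q : ℝ} (h0 : 0 ≤ q) (hq : q ≤ 1) : 3 / (8 * P.sg q) ≤ P.be q := by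
  have h1 := P.sg_pos hq
  have h2 := P.sg_le h0
  rw [P.be_eq hq, inv_eq_one_div, div_le_iff₀ (by positivity)]
  have h3 : (1 / P.sg q - P.sg q) / 2 * (8 * P.sg q) = 4 - 4 * P.sg q ^ 2 := by
    field_simp
    ring
  rw [h3]
  nlinarith

theorem be_pos {q : ℝ} (h0 : 0 ≤ q) (hq : q ≤ 1) : 0 < P.be q := by
  have h1 := P.sg_pos hq
  exact lt_of_lt_of_le (by positivity) (P.be_lower h0 hq)

theorem coord_sq_le (x : S n) : (x : E n) 0 ^ 2 ≤ 1 := by
  have h1 : ‖(x : E n)‖ = 1 := by simp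
  have h2 := EuclideanSpace.norm_sq_eq (x : E n)
  rw [h1] at h2
  have := Finset.single_le_sum (f := fun i => ‖(x : E n) i‖ ^ 2) (fun i _ => sq_nonneg _)
    (Finset.mem_univ (0 : Fin (n + 1)))
  rw [← h2] at this
  simpa using this

theorem F0_mem (x : S n) : P.F0 x ∈ Hyp n := by
  have h1 : ‖(x : E n)‖ = 1 := by simp
  refine ⟨?_, P.al_pos _⟩
  rw [mink, F0]
  simp only [real_inner_self_eq_norm_sq, norm_smul, h1, mul_one, Real.norm_eq_abs, sq_abs]
  have := P.al_sq ((x : E n) 0 ^ 2)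
  linarith [sq (P.al ((x : E n) 0 ^ 2))]

theorem F0_smooth : IsSmooth (n := n) P.F0 := by
  have h1 : ContDiffOn ℝ ∞ (fun y : E n => ‖y‖⁻¹) {0}ᶜ := by
    intro y hy
    have hy' : y ≠ 0 := hy
    exact ((contDiffAt_norm ℝ hy').inv (norm_ne_zero_iff.2 hy')).contDiffWithinAt
  have h2 : ContDiffOn ℝ ∞ (fun y : E n => ‖y‖⁻¹ • y) {0}ᶜ := h1.smul contDiffOn_id
  have h3 : ContDiffOn ℝ ∞ (fun y : E n => (‖y‖⁻¹ • y) 0 ^ 2) {0}ᶜ := by
    have h4 : ContDiffOn ℝ ∞ (fun y : E n => (‖y‖⁻¹ • y) 0) {0}ᶜ :=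
      (EuclideanSpace.proj (𝕜 := ℝ) (0 : Fin (n + 1))).contDiff.comp_contDiffOn h2
    exact h4.pow 2
  have hle : ∀ y ∈ ({0}ᶜ : Set (E n)), (‖y‖⁻¹ • y) 0 ^ 2 ≤ 1 := by
    intro y hy
    have := coord_sq_le (proj y)
    rwa [coe_proj (by simpa using hy)] at this
  have h5 : ContDiffOn ℝ ∞ (fun y : E n => P.rr ((‖y‖⁻¹ • y) 0 ^ 2)) {0}ᶜ := by
    unfold rr sg
    apply ContDiffOn.neg
    apply ContDiffOn.log
    · exact contDiffOn_const.mul (contDiffOn_const.sub (contDiffOn_const.mul h3))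
    · intro y hy
      exact (P.sg_pos (hle y hy)).ne'
  have h6 : ContDiffOn ℝ ∞ (fun y : E n => P.al ((‖y‖⁻¹ • y) 0 ^ 2)) {0}ᶜ := by
    unfold al
    exact h5.cosh
  have h7 : ContDiffOn ℝ ∞ (fun y : E n => P.be ((‖y‖⁻¹ • y) 0 ^ 2)) {0}ᶜ := by
    unfold be
    exact h5.sinh
  have h8 := h6.prodMk (h7.smul h2)
  refine h8.congr (fun y hy => ?_)
  simp only [F0, coe_proj (by simpa using hy : y ≠ 0)]
  rfl

/-! ### Derivatives along lines -/

theorem hasDerivAt_rr {q : ℝ} (hq : q ≤ 1) : HasDerivAt P.rr (P.pp q) q := by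
  have h1 : HasDerivAt (fun q => P.ε * (P.A - P.B * q)) (P.ε * (- P.B)) q := by
    have := ((hasDerivAt_id q).const_mul P.B).const_sub P.A |>.const_mul P.ε
    simpa using this
  have h2 := (h1.log (P.sg_pos hq).ne').neg
  refine h2.congr_deriv ?_
  have h3 := P.den_pos hq
  have h4 := P.hε
  rw [pp]
  field_simp

end Par

/-- The factor `1 / √(1 + m s²)`. -/
noncomputable def hh (m s : ℝ) : ℝ := (√(1 + m * s ^ 2))⁻¹

theorem hh_zero (m : ℝ) : hh m 0 = 1 := by simp [hh]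

theorem hasDerivAt_hh {m : ℝ} (hm : 0 ≤ m) (s : ℝ) :
    HasDerivAt (hh m) (-(m * s) * hh m s ^ 3) s := by
  have h0 : 0 < 1 + m * s ^ 2 := by positivity
  have h1 : HasDerivAt (fun s : ℝ => 1 + m * s ^ 2) (m * (2 * s)) s := by
    have := ((hasDerivAt_pow 2 s).const_mul m).const_add 1
    simpa using this
  have h2 := (h1.sqrt h0.ne').inv (Real.sqrt_pos.2 h0).ne'
  refine h2.congr_deriv ?_
  have h3 : 0 < √(1 + m * s ^ 2) := Real.sqrt_pos.2 h0
  rw [hh]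
  field_simp

theorem hasDerivAt_hh' {m : ℝ} (hm : 0 ≤ m) :
    HasDerivAt (fun s => -(m * s) * hh m s ^ 3) (-m) 0 := by
  have h1 : HasDerivAt (fun s : ℝ => -(m * s)) (-m) 0 := by
    have : HasDerivAt (fun s : ℝ => -(m * s)) (-(m * 1)) 0 :=
      ((hasDerivAt_id (0 : ℝ)).const_mul m).neg
    rwa [mul_one] at this
  have h2 := h1.mul ((hasDerivAt_hh hm 0).pow 3)
  refine h2.congr_deriv ?_
  simp [hh_zero]

theorem norm_line (x : S n) {u : E n} (hu : inner ℝ (x : E n) u = 0) (s : ℝ) :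
    ‖(x : E n) + s • u‖⁻¹ = hh (‖u‖ ^ 2) s := by
  have h1 : ‖(x : E n) + s • u‖ ^ 2 = 1 + ‖u‖ ^ 2 * s ^ 2 := by
    rw [norm_add_sq_real, inner_smul_right, hu, norm_smul, mul_pow, Real.norm_eq_abs, sq_abs]
    simp
    ring
  rw [hh, ← h1, Real.sqrt_sq (norm_nonneg _)]

/-- The great circle through `x` with initial velocity `u`, up to reparametrization. -/
noncomputable def gc (x : S n) (u : E n) (s : ℝ) : E n := hh (‖u‖ ^ 2) s • ((x : E n) + s • u)

/-- Its velocity. -/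
noncomputable def gc' (x : S n) (u : E n) (s : ℝ) : E n :=
  (-(‖u‖ ^ 2 * s) * hh (‖u‖ ^ 2) s ^ 3) • ((x : E n) + s • u) + hh (‖u‖ ^ 2) s • u

theorem coe_proj_line (x : S n) {u : E n} (hu : inner ℝ (x : E n) u = 0) (s : ℝ) :
    (proj ((x : E n) + s • u) : E n) = gc x u s := by
  rw [coe_proj (line_ne_zero x hu s), norm_line x hu, gc]

theorem gc_zero (x : S n) (u : E n) : gc x u 0 = x := by simp [gc, hh_zero]

theorem gc'_zero (x : S n) (u : E n) : gc' x u 0 = u := by simp [gc', hh_zero]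

theorem hasDerivAt_gc (x : S n) (u : E n) (s : ℝ) : HasDerivAt (gc x u) (gc' x u s) s := by
  have h1 := (hasDerivAt_hh (sq_nonneg ‖u‖) s).smul (hasDerivAt_line (x : E n) u s)
  refine h1.congr_deriv ?_
  rw [gc', add_comm]

theorem hasDerivAt_gc' (x : S n) (u : E n) :
    HasDerivAt (gc' x u) (-(‖u‖ ^ 2) • (x : E n)) 0 := by
  have h1 := (hasDerivAt_hh' (sq_nonneg ‖u‖)).smul (hasDerivAt_line (x : E n) u 0)
  have h2 := (hasDerivAt_hh (sq_nonneg ‖u‖) 0).smul_const u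
  refine (h1.add h2).congr_deriv ?_
  simp

theorem gc_coord_sq_le (x : S n) {u : E n} (hu : inner ℝ (x : E n) u = 0) (s : ℝ) :
    gc x u s 0 ^ 2 ≤ 1 := by
  rw [← coe_proj_line x hu]
  exact Par.coord_sq_le _

theorem hasDerivAt_coord {c : ℝ → E n} {c' : E n} {s : ℝ} (h : HasDerivAt c c' s) :
    HasDerivAt (fun s => c s 0) (c' 0) s :=
  (EuclideanSpace.proj (𝕜 := ℝ) (0 : Fin (n + 1))).hasFDerivAt.comp_hasDerivAt s h

namespace Par

variable (P : Par)

/-- The derivative of the radius along `gc`. -/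
noncomputable def rho' (x : S n) (u : E n) (s : ℝ) : ℝ :=
  P.pp (gc x u s 0 ^ 2) * (2 * gc x u s 0 * gc' x u s 0)

theorem hasDerivAt_rho (x : S n) {u : E n} (hu : inner ℝ (x : E n) u = 0) (s : ℝ) :
    HasDerivAt (fun s => P.rr (gc x u s 0 ^ 2)) (P.rho' x u s) s := by
  have h1 := (hasDerivAt_coord (hasDerivAt_gc x u s)).pow 2
  have h2 := (P.hasDerivAt_rr (gc_coord_sq_le x hu s)).comp s h1
  refine h2.congr_deriv ?_
  rw [rho']
  ring

theorem hasDerivAt_pp {q : ℝ} (hq : q ≤ 1) : HasDerivAt P.pp (P.pp q ^ 2) q := by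
  have h1 : HasDerivAt (fun q => P.A - P.B * q) (- P.B) q := by
    have := ((hasDerivAt_id q).const_mul P.B).const_sub P.A
    simpa using this
  have h2 := (hasDerivAt_const q P.B).div h1 (P.den_pos hq).ne'
  refine h2.congr_deriv ?_
  have h3 := P.den_pos hq
  rw [pp]
  field_simp
  ring

/-- The derivative of `r` at `x` in the direction `u`. -/
noncomputable def r1 (x : S n) (u : E n) : ℝ :=
  P.pp ((x : E n) 0 ^ 2) * (2 * (x : E n) 0 * u 0)

/-- The second derivative of `r` at `x` in the direction `u`. -/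
noncomputable def r2 (x : S n) (u : E n) : ℝ :=
  P.r1 x u ^ 2 + 2 * P.pp ((x : E n) 0 ^ 2) * (u 0 ^ 2 - ‖u‖ ^ 2 * (x : E n) 0 ^ 2)

theorem rho'_zero (x : S n) (u : E n) : P.rho' x u 0 = P.r1 x u := by
  rw [rho', gc_zero, gc'_zero, r1]

theorem hasDerivAt_rho' (x : S n) {u : E n} (hu : inner ℝ (x : E n) u = 0) :
    HasDerivAt (P.rho' x u) (P.r2 x u) 0 := by
  have h0 := hasDerivAt_coord (hasDerivAt_gc x u 0)
  have h1 := h0.pow 2
  have h2 := (P.hasDerivAt_pp (gc_coord_sq_le x hu 0)).comp 0 h1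
  have h3 := hasDerivAt_coord (hasDerivAt_gc' x u)
  have h4 := h2.mul ((h0.const_mul 2).mul h3)
  refine h4.congr_deriv ?_
  simp only [gc_zero, gc'_zero, Function.comp, PiLp.smul_apply, smul_eq_mul, Pi.mul_apply,
    Pi.pow_apply]
  rw [r2, r1]
  norm_num
  ring

/-- The velocity of the image curve. -/
noncomputable def cur' (x : S n) (u : E n) (s : ℝ) : V n :=
  (P.be (gc x u s 0 ^ 2) * P.rho' x u s,
    (P.al (gc x u s 0 ^ 2) * P.rho' x u s) • gc x u s + P.be (gc x u s 0 ^ 2) • gc' x u s)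

theorem hasDerivAt_al (x : S n) {u : E n} (hu : inner ℝ (x : E n) u = 0) (s : ℝ) :
    HasDerivAt (fun s => P.al (gc x u s 0 ^ 2)) (P.be (gc x u s 0 ^ 2) * P.rho' x u s) s :=
  (P.hasDerivAt_rho x hu s).cosh

theorem hasDerivAt_be (x : S n) {u : E n} (hu : inner ℝ (x : E n) u = 0) (s : ℝ) :
    HasDerivAt (fun s => P.be (gc x u s 0 ^ 2)) (P.al (gc x u s 0 ^ 2) * P.rho' x u s) s :=
  (P.hasDerivAt_rho x hu s).sinh

theorem D_line (x : S n) {u : E n} (hu : inner ℝ (x : E n) u = 0) (s : ℝ) :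
    D P.F0 ((x : E n) + s • u) u = P.cur' x u s := by
  have h1 := (P.F0_smooth (n := n)).hasDerivAt u s (line_ne_zero x hu s)
  have h2 : (fun s : ℝ => P.F0 (proj ((x : E n) + s • u))) =
      fun s => (P.al (gc x u s 0 ^ 2), P.be (gc x u s 0 ^ 2) • gc x u s) := by
    funext s
    simp only [F0, coe_proj_line x hu]
  rw [h2] at h1
  have h3 := (P.hasDerivAt_al x hu s).prodMk ((P.hasDerivAt_be x hu s).smul (hasDerivAt_gc x u s))
  have h4 := h1.unique h3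
  rw [h4, cur']
  exact Prod.ext rfl (add_comm _ _)

theorem D_F0 (x : S n) {u : E n} (hu : inner ℝ (x : E n) u = 0) :
    D P.F0 (x : E n) u = (P.be ((x : E n) 0 ^ 2) * P.r1 x u,
      (P.al ((x : E n) 0 ^ 2) * P.r1 x u) • (x : E n) + P.be ((x : E n) 0 ^ 2) • u) := by
  have := P.D_line x hu 0
  rw [zero_smul, add_zero, cur', gc_zero, gc'_zero, rho'_zero] at this
  exact this

theorem D2_F0 (x : S n) {u : E n} (hu : inner ℝ (x : E n) u = 0) :
    D2 P.F0 (x : E n) u u =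
      (P.al ((x : E n) 0 ^ 2) * P.r1 x u ^ 2 + P.be ((x : E n) 0 ^ 2) * P.r2 x u,
      (P.be ((x : E n) 0 ^ 2) * P.r1 x u ^ 2 + P.al ((x : E n) 0 ^ 2) * P.r2 x u
        - ‖u‖ ^ 2 * P.be ((x : E n) 0 ^ 2)) • (x : E n) +
        (2 * P.al ((x : E n) 0 ^ 2) * P.r1 x u) • u) := by
  have h1 := (P.F0_smooth (n := n)).hasDerivAt_D u u 0 (line_ne_zero x hu 0)
  have h2 : (fun s : ℝ => D P.F0 ((x : E n) + s • u) u) = P.cur' x u := by
    funext s
    exact P.D_line x hu s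
  rw [h2] at h1
  have ha := P.hasDerivAt_al x hu 0
  have hb := P.hasDerivAt_be x hu 0
  have hr := P.hasDerivAt_rho' x hu
  have h3 := (hb.mul hr).prodMk (((ha.mul hr).smul (hasDerivAt_gc x u 0)).add
    (hb.smul (hasDerivAt_gc' x u)))
  have h4 := h1.unique h3
  rw [zero_smul, add_zero] at h4
  rw [h4]
  simp only [Pi.mul_apply, gc_zero, gc'_zero, rho'_zero]
  refine Prod.ext ?_ ?_
  · simp only
    ring
  · simp only
    module

end Par

end Pool.Agent.Helper608.HypMCF
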