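import Pool.Agent.Helper608.Defs

open Set MeasureTheory Filter Topology
open scoped Manifold ContDiff InnerProductSpace

namespace Pool.Agent.Helper608

/-- identification of `ℝ × ℝ` with the Euclidean plane -/
noncomputable def eqv : (ℝ × ℝ) ≃L[ℝ] E2 :=
  (ContinuousLinearEquiv.finTwoArrow ℝ ℝ).symm.trans (EuclideanSpace.equiv (Fin 2) ℝ).symm

@[simp] lemma eqv_zero' (p : ℝ × ℝ) : eqv p 0 = p.1 := rfl
@[simp] lemma eqv_one' (p : ℝ × ℝ) : eqv p 1 = p.2 := rfl

lemma ext2 {a b : E2} (h0 : a 0 = b 0) (h1 : a 1 = b 1) : a = b := by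
  ext i; fin_cases i <;> assumption

lemma mp_eqv : MeasurePreserving (eqv : ℝ × ℝ → E2) volume volume :=
  (PiLp.volume_preserving_toLp (Fin 2)).comp ((volume_preserving_finTwoArrow ℝ).symm _)

/-- the first and second basis vectors -/
noncomputable def e0 : E2 := EuclideanSpace.single 0 1
noncomputable def e1 : E2 := EuclideanSpace.single 1 1

@[simp] lemma e0_zero : e0 0 = 1 := by simp [e0]
@[simp] lemma e0_one : e0 1 = 0 := by simp [e0]
@[simp] lemma e1_zero : e1 0 = 0 := by simp [e1]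
@[simp] lemma e1_one : e1 1 = 1 := by simp [e1]

lemma eqv_10 : eqv (1, 0) = e0 := ext2 (by simp) (by simp)
lemma eqv_01 : eqv (0, 1) = e1 := ext2 (by simp) (by simp)

/-- the closed half plane -/
def HP : Set E2 := {z | 0 ≤ z 0}

lemma range_I : range (𝓡∂ 2) = HP := by
  rw [range_modelWithCornersEuclideanHalfSpace]; rfl

lemma continuous_coord2 (i : Fin 2) : Continuous (fun z : E2 => z i) :=
  (EuclideanSpace.proj i : E2 →L[ℝ] ℝ).continuous

lemma isClosed_HP : IsClosed HP := isClosed_le continuous_const (continuous_coord2 0)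

lemma measurableSet_HP : MeasurableSet HP := isClosed_HP.measurableSet

lemma abs_coord_le_norm (z : E2) (i : Fin 2) : |z i| ≤ ‖z‖ := by
  have := EuclideanSpace.norm_eq z
  have h : ‖z i‖ ≤ ‖z‖ := PiLp.norm_apply_le z i
  simpa using h

theorem halfplane_stokes (P Q D : E2 → ℝ) (K : Set E2) (hK : IsCompact K)
    (hP : ContinuousOn P HP) (hQ : ContinuousOn Q HP) (hDc : ContinuousOn D HP)
    (hP0 : ∀ z ∈ HP, z ∉ K → P z = 0) (hQ0 : ∀ z ∈ HP, z ∉ K → Q z = 0)
    (hD0 : ∀ z ∈ HP, z ∉ K → D z = 0)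
    (hder : ∀ z : E2, 0 < z 0 → ∃ P' Q' : E2 →L[ℝ] ℝ, HasFDerivAt P P' z ∧ HasFDerivAt Q Q' z ∧
      P' e0 + Q' e1 = D z) :
    IntegrableOn D HP ∧ Integrable (fun s : ℝ => P (eqv (0, s))) ∧
      ∫ z in HP, D z = - ∫ s : ℝ, P (eqv (0, s)) := by
  classical
  obtain ⟨R, hR0, hKR⟩ := hK.isBounded.subset_ball_lt 0 0
  -- points of large coordinate are not in `K`
  have hout : ∀ z : E2, R ≤ |z 0| ∨ R ≤ |z 1| → z ∉ K := by
    intro z hz hzK
    have := hKR hzK
    rw [mem_ball_zero_iff] at this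
    rcases hz with h | h
    · linarith [abs_coord_le_norm z 0]
    · linarith [abs_coord_le_norm z 1]
  set f : ℝ × ℝ → ℝ := fun x => P (eqv x) with hf
  set g : ℝ × ℝ → ℝ := fun x => Q (eqv x) with hg
  choose! P' Q' hPQ using hder
  set f' : ℝ × ℝ → (ℝ × ℝ →L[ℝ] ℝ) := fun x =>
    if 0 < x.1 then (P' (eqv x)).comp (eqv : ℝ × ℝ →L[ℝ] E2) else
      D (eqv x) • ContinuousLinearMap.fst ℝ ℝ ℝ with hf'
  set g' : ℝ × ℝ → (ℝ × ℝ →L[ℝ] ℝ) := fun x =>
    if 0 < x.1 then (Q' (eqv x)).comp (eqv : ℝ × ℝ →L[ℝ] E2) else 0 with hg'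
  have hsum : ∀ x : ℝ × ℝ, f' x (1, 0) + g' x (0, 1) = D (eqv x) := by
    intro x
    simp only [hf', hg']
    split_ifs with h
    · have := (hPQ (eqv x) h).2.2
      rw [← this]
      simp [eqv_10, eqv_01]
    · simp
  have hmaps : ∀ x ∈ Icc (0:ℝ) R ×ˢ Icc (-R) R, eqv x ∈ HP := by
    intro x hx
    exact hx.1.1
  have hcomp : ∀ {F : E2 → ℝ}, ContinuousOn F HP →
      ContinuousOn (fun x => F (eqv x)) (Icc (0:ℝ) R ×ˢ Icc (-R) R) := by
    intro F hF
    exact hF.comp eqv.continuous.continuousOn hmaps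
  have hu1 : uIcc (0:ℝ) R = Icc 0 R := uIcc_of_le hR0.le
  have hu2 : uIcc (-R) R = Icc (-R) R := uIcc_of_le (by linarith)
  have hDint : IntegrableOn (fun x => D (eqv x)) (Icc (0:ℝ) R ×ˢ Icc (-R) R) :=
    (hcomp hDc).integrableOn_compact (isCompact_Icc.prod isCompact_Icc)
  have key := integral2_divergence_prod_of_hasFDerivAt_off_countable f g f' g' 0 (-R) R R ∅
    countable_empty (by rw [hu1, hu2]; exact hcomp hP) (by rw [hu1, hu2]; exact hcomp hQ)
    (by
      intro x hx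
      rw [min_eq_left hR0.le] at hx
      have h0 : 0 < x.1 := hx.1.1.1
      simp only [hf', if_pos h0]
      exact (hPQ (eqv x) h0).1.comp x (eqv : ℝ × ℝ →L[ℝ] E2).hasFDerivAt)
    (by
      intro x hx
      rw [min_eq_left hR0.le] at hx
      have h0 : 0 < x.1 := hx.1.1.1
      simp only [hg', if_pos h0]
      exact (hPQ (eqv x) h0).2.1.comp x (eqv : ℝ × ℝ →L[ℝ] E2).hasFDerivAt)
    (by
      rw [hu1, hu2]
      simp only [hsum]
      exact hDint)
  simp only [hsum] at key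
  -- vanishing of three sides
  have z1 : ∫ x in (0:ℝ)..R, g (x, R) = 0 := by
    rw [intervalIntegral.integral_of_le hR0.le]
    apply setIntegral_eq_zero_of_forall_eq_zero
    intro x hx
    apply hQ0
    · exact hx.1.le
    · apply hout; right; simp [le_abs_self]
  have z2 : ∫ x in (0:ℝ)..R, g (x, -R) = 0 := by
    rw [intervalIntegral.integral_of_le hR0.le]
    apply setIntegral_eq_zero_of_forall_eq_zero
    intro x hx
    apply hQ0
    · exact hx.1.le
    · apply hout; right; simp [le_abs_self]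
  have z3 : ∫ y in (-R)..R, f (R, y) = 0 := by
    rw [intervalIntegral.integral_of_le (by linarith)]
    apply setIntegral_eq_zero_of_forall_eq_zero
    intro x hx
    apply hP0
    · exact hR0.le
    · apply hout; left; simp [le_abs_self]
  rw [z1, z2, z3] at key
  -- the boundary side
  have hPb0 : ∀ s : ℝ, s ∉ Icc (-R) R → P (eqv (0, s)) = 0 := by
    intro s hs
    apply hP0
    · exact le_refl (0:ℝ)
    · apply hout; right
      simp only [eqv_one']
      by_contra hcon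
      push Not at hcon
      have := abs_le.mp hcon.le
      exact hs ⟨this.1, this.2⟩
  have hPbc : Continuous (fun s : ℝ => P (eqv (0, s))) := by
    rw [← continuousOn_univ]
    exact hP.comp (eqv.continuous.comp (by fun_prop)).continuousOn (fun s _ => le_refl (0:ℝ))
  have hPbint : Integrable (fun s : ℝ => P (eqv (0, s))) := by
    apply hPbc.integrable_of_hasCompactSupport
    exact HasCompactSupport.intro isCompact_Icc hPb0
  have hPb : ∫ y in (-R)..R, f (0, y) = ∫ s : ℝ, P (eqv (0, s)) := by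
    rw [intervalIntegral.integral_of_le (by linarith), ← integral_Icc_eq_integral_Ioc,
      ← integral_indicator measurableSet_Icc]
    congr 1
    ext s
    by_cases hs : s ∈ Icc (-R) R
    · rw [indicator_of_mem hs]
    · rw [indicator_of_notMem hs, hPb0 s hs]
  -- the interior
  have hpre : (eqv : ℝ × ℝ → E2) ⁻¹' HP = {x | 0 ≤ x.1} := rfl
  have hDzero : ∀ x : ℝ × ℝ, 0 ≤ x.1 → x ∉ Icc (0:ℝ) R ×ˢ Icc (-R) R → D (eqv x) = 0 := by
    intro x hx hx'
    apply hD0
    · exact hx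
    · apply hout
      by_contra hcon
      push Not at hcon
      have h1 := abs_le.mp hcon.1.le
      have h2 := abs_le.mp hcon.2.le
      exact hx' ⟨⟨hx, h1.2⟩, ⟨h2.1, h2.2⟩⟩
  have hme : MeasurableEmbedding (eqv : ℝ × ℝ → E2) :=
    (eqv.toHomeomorph).measurableEmbedding
  have hsub : Icc (0:ℝ) R ×ˢ Icc (-R) R ⊆ (eqv : ℝ × ℝ → E2) ⁻¹' HP := fun x hx => hx.1.1
  have hmeas : MeasurableSet ((eqv : ℝ × ℝ → E2) ⁻¹' HP) :=
    measurableSet_HP.preimage eqv.continuous.measurable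
  have hIntOn : IntegrableOn (fun x => D (eqv x)) ((eqv : ℝ × ℝ → E2) ⁻¹' HP) := by
    apply hDint.of_forall_sdiff_eq_zero hmeas
    intro x hx
    exact hDzero x hx.1 hx.2
  have hD1 : IntegrableOn D HP := by
    rw [← mp_eqv.integrableOn_comp_preimage hme]
    exact hIntOn
  refine ⟨hD1, hPbint, ?_⟩
  have hD2 : ∫ z in HP, D z = ∫ x in (eqv : ℝ × ℝ → E2) ⁻¹' HP, D (eqv x) :=
    (mp_eqv.setIntegral_preimage_emb hme D HP).symm
  have hD3 : ∫ x in (eqv : ℝ × ℝ → E2) ⁻¹' HP, D (eqv x) =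
      ∫ x in Icc (0:ℝ) R ×ˢ Icc (-R) R, D (eqv x) :=
    (setIntegral_eq_of_subset_of_forall_sdiff_eq_zero hmeas hsub
      (fun x hx => hDzero x hx.1 hx.2)).trans rfl
  have hD4 : ∫ x in Icc (0:ℝ) R ×ˢ Icc (-R) R, D (eqv x) =
      ∫ x in (0:ℝ)..R, ∫ y in (-R)..R, D (eqv (x, y)) := by
    rw [Measure.volume_eq_prod, setIntegral_prod _ hDint,
      intervalIntegral.integral_of_le hR0.le, integral_Icc_eq_integral_Ioc]
    congr 1
    ext x
    rw [intervalIntegral.integral_of_le (by linarith), integral_Icc_eq_integral_Ioc]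
  rw [hD2, hD3, hD4, key, hPb]
  ring

end Pool.Agent.Helper608
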