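import Pool.Agent.Helper608.Stokes
import Pool.Agent.Helper608.Core4

open Set MeasureTheory Filter Topology
open scoped Manifold ContDiff InnerProductSpace

set_option linter.unusedSectionVars false

namespace Pool.Agent.Helper608

/-- cross product with a fixed vector as a continuous linear map -/
noncomputable def crossL (e : E3) : E3 →L[ℝ] E3 :=
  LinearMap.toContinuousLinearMap
    { toFun := fun x => cross e x
      map_add' := fun x y => cross_add_right e x y
      map_smul' := fun r x => cross_smul_right r e x }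

@[simp] lemma crossL_apply (e x : E3) : crossL e x = cross e x := rfl

lemma norm_cross_le (a b : E3) : ‖cross a b‖ ≤ ‖a‖ * ‖b‖ := by
  rw [← sq_le_sq₀ (norm_nonneg _) (by positivity), normsq_cross]
  nlinarith [sq_nonneg (⟪a, b⟫_ℝ)]

variable {M : Type*} [TopologicalSpace M] [ChartedSpace (EuclideanHalfSpace 2) M]
  [IsManifold (𝓡∂ 2) ∞ M]
  {f N : M → E3} {H : ℝ} {γ₁ γ₂ : ℝ → E3} {β₁ β₂ : ℝ → M}

/-- the unit normal has tangential derivative -/
lemma IsCMCImmersion.inner_dd_normal (h : IsCMCImmersion f N H) (m : M) (v : E2) :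
    ⟪N m, dd N m v⟫_ℝ = 0 := by
  have h1 := hasFDerivWithinAt_dd h.N1 m
  have h2 := h1.inner ℝ h1
  have hzHP : (chartAt (EuclideanHalfSpace 2) m).extend (𝓡∂ 2) m ∈ HP :=
    tgt_subset (ext_mem (mem_chart_source _ m))
  have h3 : HasFDerivWithinAt (fun z => ⟪(N ∘ inv (chartAt (EuclideanHalfSpace 2) m)) z,
      (N ∘ inv (chartAt (EuclideanHalfSpace 2) m)) z⟫_ℝ) (0 : E2 →L[ℝ] ℝ) HP
      ((chartAt (EuclideanHalfSpace 2) m).extend (𝓡∂ 2) m) := by
    have : (fun z => ⟪(N ∘ inv (chartAt (EuclideanHalfSpace 2) m)) z,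
      (N ∘ inv (chartAt (EuclideanHalfSpace 2) m)) z⟫_ℝ) = fun _ => (1:ℝ) := by
      ext z
      rw [real_inner_self_eq_norm_sq]
      simp [h.norm_normal]
    rw [this]
    exact hasFDerivWithinAt_const _ _ _
  have h4 := (uniqueDiffOn_HP _ hzHP).eq h2 h3
  have h5 := congrArg (fun L : E2 →L[ℝ] ℝ => L v) h4
  simp only [ContinuousLinearMap.comp_apply, fderivInnerCLM_apply,
    ContinuousLinearMap.prod_apply, Function.comp_apply, inv_ext_self] at h5
  rw [real_inner_comm] at h5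
  have h6 : (0 : E2 →L[ℝ] ℝ) v = 0 := rfl
  rw [h6] at h5
  have h7 := real_inner_comm (N m) (dd N m v)
  linarith

/-- derivative of `F ∘ f • e` -/
lemma dd_smul_const (h : IsCMCImmersion f N H) {F : E3 → ℝ} (hF : ContDiff ℝ 1 F) (e : E3)
    (m : M) (v : E2) :
    dd (fun m => F (f m) • e) m v = fderiv ℝ F (f m) (dd f m v) • e := by
  have ha : ContMDiff (𝓡∂ 2) 𝓘(ℝ, E3) 1 (fun m => F (f m) • e) :=
    (hF.contMDiff.comp h.f1).smul contMDiff_const
  have h1 := hasFDerivWithinAt_dd h.f1 m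
  have hFd : HasFDerivAt F (fderiv ℝ F (f m))
      ((f ∘ inv (chartAt (EuclideanHalfSpace 2) m))
        ((chartAt (EuclideanHalfSpace 2) m).extend (𝓡∂ 2) m)) := by
    simp only [Function.comp_apply, inv_ext_self]
    exact (hF.differentiable (by norm_num) _).hasFDerivAt
  have h2 := hFd.comp_hasFDerivWithinAt _ h1
  have h3 := h2.smul_const e
  rw [dd_of_hasFDerivWithinAt ha h3]
  simp

/-- derivative of `F ∘ f • e × N` -/
lemma dd_smul_cross (h : IsCMCImmersion f N H) {F : E3 → ℝ} (hF : ContDiff ℝ 1 F) (e : E3)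
    (m : M) (v : E2) :
    dd (fun m => F (f m) • cross e (N m)) m v =
      fderiv ℝ F (f m) (dd f m v) • cross e (N m) + F (f m) • cross e (dd N m v) := by
  have hc : ContMDiff (𝓡∂ 2) 𝓘(ℝ, E3) 1 (fun m => cross e (N m)) :=
    ((crossL e).contDiff.contMDiff (n := 1)).comp h.N1
  have ha : ContMDiff (𝓡∂ 2) 𝓘(ℝ, E3) 1 (fun m => F (f m) • cross e (N m)) :=
    (hF.contMDiff.comp h.f1).smul hc
  have h1 := hasFDerivWithinAt_dd h.f1 m
  have h1' := hasFDerivWithinAt_dd h.N1 m
  have hFd : HasFDerivAt F (fderiv ℝ F (f m))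
      ((f ∘ inv (chartAt (EuclideanHalfSpace 2) m))
        ((chartAt (EuclideanHalfSpace 2) m).extend (𝓡∂ 2) m)) := by
    simp only [Function.comp_apply, inv_ext_self]
    exact (hF.differentiable (by norm_num) _).hasFDerivAt
  have h2 := hFd.comp_hasFDerivWithinAt _ h1
  have h2' := ((crossL e).hasFDerivAt (x := (N ∘ inv (chartAt (EuclideanHalfSpace 2) m))
        ((chartAt (EuclideanHalfSpace 2) m).extend (𝓡∂ 2) m))).comp_hasFDerivWithinAt _ h1'
  have h3 := h2.smul h2'
  rw [dd_of_hasFDerivWithinAt ha h3]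
  simp only [add_apply, smul_apply,
    ContinuousLinearMap.smulRight_apply, ContinuousLinearMap.comp_apply, Function.comp_apply,
    inv_ext_self, crossL_apply]
  rw [add_comm]

lemma omg_st (h : IsCMCImmersion f N H) {F : E3 → ℝ} (hF : ContDiff ℝ 1 F) (e : E3) (m : M) :
    omg f N (fun m => F (f m) • e) m = fderiv ℝ F (f m) (cross e (N m)) := by
  unfold omg
  rw [dd_smul_const h hF, dd_smul_const h hF]
  exact (omega_st (dd f m) (h.dd_inj m) (N m) (h.norm_normal m) (h.inner_normal m)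
    (fderiv ℝ F (f m)) e).2

lemma omg_fv (h : IsCMCImmersion f N H) {F : E3 → ℝ} (hF : ContDiff ℝ 1 F) (e : E3) (m : M) :
    omg f N (fun m => F (f m) • cross e (N m)) m = - fvInt f N H F e m := by
  unfold omg
  rw [dd_smul_cross h hF, dd_smul_cross h hF]
  exact omega_fv (dd f m) (dd N m) (h.dd_inj m) (N m) (h.norm_normal m) (h.inner_normal m)
    (h.inner_dd_normal m) H (h.mean_curvature m) (fderiv ℝ F (f m)) (F (f m)) e

variable [MeasurableSpace M] [BorelSpace M] [CompactSpace M] [T2Space M]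

lemma IsCMCImmersion.isFiniteMeasure (h : IsCMCImmersion f N H) {μ : Measure M}
    (hμ : IsAreaMeasure f μ) : IsFiniteMeasure μ := by
  have : IsLocallyFiniteMeasure μ := by
    constructor
    intro x
    obtain ⟨K, hKx, hKs, hK⟩ := local_compact_nhds
      ((chartAt (EuclideanHalfSpace 2) x).open_source.mem_nhds (mem_chart_source _ x))
    exact ⟨K, hKx, measure_lt_top_of_compact (chart_mem_atlas _ x) h.f1 hμ hK
      hK.measurableSet hKs⟩
  infer_instance

/-- lower density bound at interior points -/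
lemma IsCMCImmersion.dens (h : IsCMCImmersion f N H) {μ : Measure M}
    (hμ : IsAreaMeasure f μ) {m : M} (hm : m ∉ (𝓡∂ 2).boundary M) :
    ∀ᶠ s in 𝓝[>] (0:ℝ), s ^ 2 / 4 ≤ μ.real (f ⁻¹' Metric.ball (f m) s) := by
  have := h.isFiniteMeasure hμ
  set φ := chartAt (EuclideanHalfSpace 2) m with hφdef
  have hφ : φ ∈ atlas (EuclideanHalfSpace 2) M := chart_mem_atlas _ _
  have hmφ : m ∈ φ.source := mem_chart_source _ _
  set z := φ.extend (𝓡∂ 2) m with hz
  have hzt : z ∈ tgt φ := ext_mem hmφ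
  have hinv : inv φ z = m := inv_ext hmφ
  have hz0 : 0 < z 0 := by
    have h1 : 0 ≤ z 0 := tgt_subset hzt
    have h2 : z 0 ≠ 0 := fun h0 => hm ((mem_boundary_iff hφ hmφ).mpr h0)
    exact lt_of_le_of_ne h1 (Ne.symm h2)
  have hJc : ContinuousAt (areaDensity φ f) z :=
    (continuousOn_areaDensity hφ h.f1).continuousAt (tgt_mem_nhds hzt hz0)
  have hJ : areaDensity φ f z = Real.sqrt (‖cd φ f z (EuclideanSpace.single 0 1)‖ ^ 2 *
      ‖cd φ f z (EuclideanSpace.single 1 1)‖ ^ 2 -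
      ⟪cd φ f z (EuclideanSpace.single 0 1), cd φ f z (EuclideanSpace.single 1 1)⟫_ℝ ^ 2) := by
    unfold areaDensity
    rw [chartPartial_zero, chartPartial_one]
    rfl
  have key := density_lower (f ∘ inv φ) (cd φ f z) z (tgt φ) (tgt_mem_nhds hzt hz0)
    (hasFDerivAt_read hφ h.f1 hzt hz0) (h.cd_inj hφ hzt).1 (areaDensity φ f) hJc hJ
  filter_upwards [key] with s hs
  have h1 : (f ∘ inv φ) z = f m := by simp only [Function.comp_apply]; rw [hinv]
  rw [h1] at hs
  have hms : MeasurableSet (φ.source ∩ f ⁻¹' Metric.ball (f m) s) :=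
    φ.open_source.measurableSet.inter
      (Metric.isOpen_ball.preimage h.smooth_map.continuous).measurableSet
  have h2 : (φ.extend (𝓡∂ 2)) '' (φ.source ∩ f ⁻¹' Metric.ball (f m) s) =
      tgt φ ∩ (f ∘ inv φ) ⁻¹' Metric.ball (f m) s := by
    ext y
    constructor
    · rintro ⟨x, ⟨hx1, hx2⟩, rfl⟩
      refine ⟨ext_mem hx1, ?_⟩
      simp only [mem_preimage, Function.comp_apply]
      rw [inv_ext hx1]; exact hx2
    · rintro ⟨h3, h4⟩
      exact ⟨inv φ y, ⟨inv_mem h3, h4⟩, ext_inv h3⟩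
  have h3 := hμ φ hφ _ hms inter_subset_left
  rw [h2] at h3
  rw [← h3] at hs
  have h4 : ENNReal.ofReal (s ^ 2 / 4) ≤ μ (f ⁻¹' Metric.ball (f m) s) :=
    hs.trans (measure_mono inter_subset_right)
  have h5 := ENNReal.toReal_mono (measure_ne_top μ _) h4
  rwa [ENNReal.toReal_ofReal (by positivity)] at h5

/-- The integral identities hold for an immersed surface of constant mean curvature. -/
theorem BdPair.fluxSys (P : BdPair f γ₁ γ₂ β₁ β₂) (h : IsCMCImmersion f N H)
    {μ : Measure M} (hμ : IsAreaMeasure f μ) :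
    FluxSys μ f N H ((𝓡∂ 2).boundary M) (f '' ((𝓡∂ 2).boundary M))
      ((∫ t in Ico (0:ℝ) 1, ‖deriv γ₁ t‖) + ∫ t in Ico (0:ℝ) 1, ‖deriv γ₂ t‖)
      γ₁ γ₂ (-sgn (tau f N γ₁ β₁ 0)) (-sgn (tau f N γ₂ β₂ 0)) := by
  have hIco : ∀ g : ℝ → ℝ, ∫ t in (0:ℝ)..1, g t = ∫ t in Ico (0:ℝ) 1, g t := by
    intro g
    rw [intervalIntegral.integral_of_le zero_le_one, integral_Ico_eq_integral_Ioo,
      integral_Ioc_eq_integral_Ioo]
  refine ⟨h.smooth_map.continuous, h.smooth_normal.continuous, h.norm_normal, rfl, ?_, ?_,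
    ?_, ?_, fun m hm => h.dens hμ hm⟩
  · rcases sgn_cases (tau f N γ₁ β₁ 0) with e | e <;> simp [e]
  · rcases sgn_cases (tau f N γ₂ β₂ 0) with e | e <;> simp [e]
  · intro F hF e B hB
    have hc : ContMDiff (𝓡∂ 2) 𝓘(ℝ, E3) 1 (fun m => cross e (N m)) :=
      ((crossL e).contDiff.contMDiff (n := 1)).comp h.N1
    have ha : ContMDiff (𝓡∂ 2) 𝓘(ℝ, E3) 1 (fun m => F (f m) • cross e (N m)) :=
      (hF.contMDiff.comp h.f1).smul hc
    have h1 := (P.stokes h hμ ha).2
    have h2 : ∫ m, (fderiv ℝ F (f m) e - ⟪N m, e⟫_ℝ * fderiv ℝ F (f m) (N m)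
        + 2 * H * F (f m) * ⟪N m, e⟫_ℝ) ∂μ =
        - ∫ m, omg f N (fun m => F (f m) • cross e (N m)) m ∂μ := by
      rw [← integral_neg]
      congr 1
      ext m
      rw [omg_fv h hF]
      simp [fvInt]
    rw [h2, h1, abs_neg]
    have hbound : ∀ (γ : ℝ → E3) (β : ℝ → M), BdCurve f γ β →
        |∫ t in Ico (0:ℝ) 1, ⟪F (f (β t)) • cross e (N (β t)), deriv γ t⟫_ℝ| ≤
          B * ∫ t in Ico (0:ℝ) 1, ‖deriv γ t‖ := by
      intro γ β C
      have hdc : Continuous (deriv γ) := C.smooth.continuous_deriv (by simp)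
      rw [← integral_const_mul, ← Real.norm_eq_abs]
      refine (norm_integral_le_integral_norm _).trans ?_
      apply integral_mono_of_nonneg
      · exact Filter.Eventually.of_forall fun t => norm_nonneg _
      · exact ((continuous_const.mul hdc.norm).integrableOn_Icc).mono_set Ico_subset_Icc_self
      · refine Filter.Eventually.of_forall fun t => ?_
        simp only
        have hB' := hB (f (β t)) ⟨β t, C.mem t, rfl⟩
        rw [inner_smul_left, norm_mul]
        simp only [conj_trivial, Real.norm_eq_abs]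
        have h3 : |⟪cross e (N (β t)), deriv γ t⟫_ℝ| ≤ ‖e‖ * ‖deriv γ t‖ := by
          refine (abs_real_inner_le_norm _ _).trans ?_
          apply mul_le_mul_of_nonneg_right _ (norm_nonneg _)
          have := norm_cross_le e (N (β t))
          rwa [h.norm_normal, mul_one] at this
        calc |F (f (β t))| * |⟪cross e (N (β t)), deriv γ t⟫_ℝ|
            ≤ |F (f (β t))| * (‖e‖ * ‖deriv γ t‖) :=
              mul_le_mul_of_nonneg_left h3 (abs_nonneg _)
          _ = (|F (f (β t))| * ‖e‖) * ‖deriv γ t‖ := by ring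
          _ ≤ B * ‖deriv γ t‖ := mul_le_mul_of_nonneg_right hB' (norm_nonneg _)
    have b1 := hbound γ₁ β₁ P.c₁
    have b2 := hbound γ₂ β₂ P.c₂
    have s1 : |(-sgn (tau f N γ₁ β₁ 0))| = 1 := by
      rcases sgn_cases (tau f N γ₁ β₁ 0) with e | e <;> simp [e]
    have s2 : |(-sgn (tau f N γ₂ β₂ 0))| = 1 := by
      rcases sgn_cases (tau f N γ₂ β₂ 0) with e | e <;> simp [e]
    refine (abs_add_le _ _).trans ?_
    rw [abs_mul, abs_mul, s1, s2, one_mul, one_mul]
    linarith
  · intro F hF e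
    have ha : ContMDiff (𝓡∂ 2) 𝓘(ℝ, E3) 1 (fun m => F (f m) • e) :=
      (hF.contMDiff.comp h.f1).smul contMDiff_const
    have h1 := (P.stokes h hμ ha).2
    have h2 : ∫ m, fderiv ℝ F (f m) (cross e (N m)) ∂μ =
        ∫ m, omg f N (fun m => F (f m) • e) m ∂μ := by
      congr 1
      ext m
      rw [omg_st h hF]
    rw [h2, h1, hIco, hIco]
    congr 2
    · congr 1
      ext t
      rw [P.c₁.lift, inner_smul_left]
      simp
    · congr 1
      ext t
      rw [P.c₂.lift, inner_smul_left]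
      simp

end Pool.Agent.Helper608
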