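import Mathlib

/-! Algebra of an orthonormal frame `(γ, τ, n = τ × γ)` of `ℝ³`. -/

namespace Pool.Agent.Helper608.SphMCF

/-- The relations between a unit vector `(r, x, y)` and a unit vector `(a, b, c)` orthogonal to
it. -/
structure Fr (r x y a b c : ℝ) : Prop where
  h1 : r ^ 2 + x ^ 2 + y ^ 2 = 1
  h2 : a ^ 2 + b ^ 2 + c ^ 2 = 1
  h3 : r * a + x * b + y * c = 0

/-- The components of the normal. -/
def cr (x y b c : ℝ) : ℝ := b * y - c * x

variable {r x y a b c : ℝ}

theorem Fr.rr (h : Fr r x y a b c) : r ^ 2 + a ^ 2 + (cr x y b c) ^ 2 = 1 := by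
  unfold cr
  linear_combination (1 - a ^ 2) * h.h1 + (x ^ 2 + y ^ 2) * h.h2 + (r * a - x * b - y * c) * h.h3

theorem Fr.rot (h : Fr r x y a b c) : Fr x y r b c a :=
  ⟨by linear_combination h.h1, by linear_combination h.h2, by linear_combination h.h3⟩

theorem Fr.rx (h : Fr r x y a b c) : r * x + a * b + cr x y b c * cr y r c a = 0 := by
  unfold cr
  linear_combination -a * b * h.h1 - r * x * h.h2 + (b * r + a * x) * h.h3

theorem Fr.ry (h : Fr r x y a b c) : r * y + a * c + cr x y b c * cr r x a b = 0 := by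
  have := h.rot.rot.rx
  linear_combination this

theorem Fr.xy (h : Fr r x y a b c) : x * y + b * c + cr y r c a * cr r x a b = 0 := by
  have := h.rot.rx
  linear_combination this

theorem Fr.xx (h : Fr r x y a b c) : x ^ 2 + b ^ 2 + (cr y r c a) ^ 2 = 1 := h.rot.rr

theorem Fr.yy (h : Fr r x y a b c) : y ^ 2 + c ^ 2 + (cr r x a b) ^ 2 = 1 := h.rot.rot.rr

theorem cr_orth : a * cr x y b c + b * cr y r c a + c * cr r x a b = 0 := by
  unfold cr
  ring

theorem cr_orth' : r * cr x y b c + x * cr y r c a + y * cr r x a b = 0 := by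
  unfold cr
  ring

theorem Fr.nn (h : Fr r x y a b c) :
    (cr x y b c) ^ 2 + (cr y r c a) ^ 2 + (cr r x a b) ^ 2 = 1 := by
  have h1 := h.rr
  have h2 := h.xx
  have h3 := h.yy
  have h4 := h.h1
  have h5 := h.h2
  linarith

/-- Expansion of the first component of a vector. -/
theorem Fr.expand (h : Fr r x y a b c) (z1 z2 z3 : ℝ) :
    z1 = (z1 * r + z2 * x + z3 * y) * r + (z1 * a + z2 * b + z3 * c) * a +
      (z1 * cr x y b c + z2 * cr y r c a + z3 * cr r x a b) * cr x y b c := by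
  have h1 := h.rr
  have h2 := h.rx
  have h3 := h.ry
  linear_combination -z1 * h1 - z2 * h2 - z3 * h3

/-- `(n × γ) = - τ`. -/
theorem Fr.n_cross_g (h : Fr r x y a b c) : cr y r c a * y - cr r x a b * x = -a := by
  unfold cr
  linear_combination r * h.h3 - a * h.h1

/-- `(τ × n) = - γ`. -/
theorem Fr.t_cross_n (h : Fr r x y a b c) : b * cr r x a b - c * cr y r c a = -r := by
  unfold cr
  linear_combination a * h.h3 - r * h.h2

theorem Fr.abs_a (h : Fr r x y a b c) : |a| ≤ 1 := by
  rw [← sq_le_one_iff_abs_le_one]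
  nlinarith [h.h2, sq_nonneg b, sq_nonneg c]

theorem Fr.abs_r (h : Fr r x y a b c) : |r| ≤ 1 := by
  rw [← sq_le_one_iff_abs_le_one]
  nlinarith [h.h1, sq_nonneg x, sq_nonneg y]

theorem Fr.abs_n (h : Fr r x y a b c) : |cr x y b c| ≤ 1 := by
  rw [← sq_le_one_iff_abs_le_one]
  nlinarith [h.nn, sq_nonneg (cr y r c a), sq_nonneg (cr r x a b)]

end Pool.Agent.Helper608.SphMCF
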