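import Mathlib

/-! Mean curvature flow of immersed spheres in the unit sphere `S³ ⊂ ℝ⁴`. -/

open Set Metric
open scoped ContDiff

namespace Pool.Agent.Helper608.SphMCF

/-- The Euclidean space `ℝ³`. -/
abbrev E := EuclideanSpace ℝ (Fin 3)

/-- The unit sphere `S² ⊂ ℝ³`. -/
abbrev S := sphere (0 : E) 1

/-- The Euclidean space `ℝ⁴`. -/
abbrev V := EuclideanSpace ℝ (Fin 4)

/-- The point `(1, 0, 0)` of `S²`. -/
noncomputable def pole : S := ⟨EuclideanSpace.single 0 1, by simp⟩

open Classical in
/-- The radial projection `x ↦ x / ‖x‖` of `ℝ³ ∖ {0}` onto `S²` (with an arbitrary value at `0`,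
never used). -/
noncomputable def proj (x : E) : S :=
  if h : x = 0 then pole else ⟨‖x‖⁻¹ • x, by simp [norm_smul, h]⟩

/-- A map `S² → ℝ⁴` is smooth if its degree `0` homogeneous extension `x ↦ F (x / ‖x‖)` is smooth
on `ℝ³ ∖ {0}`. -/
def IsSmooth (F : S → V) : Prop := ContDiffOn ℝ ∞ (fun y : E => F (proj y)) {0}ᶜ

/-- The derivative at `x` in direction `u` of (the degree `0` homogeneous extension of) `F`.
For `x ∈ S²` and `u ⟂ x` this is the differential of `F` at `x` applied to the tangent vector `u`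
of `S²`. -/
noncomputable def D (F : S → V) (x u : E) : V := fderiv ℝ (fun y : E => F (proj y)) x u

/-- The second derivative of (the degree `0` homogeneous extension of) `F` at `x` in the
directions `u`, `v`. For `x ∈ S²` and `u ⟂ x` the vector `D2 F x u u` is the acceleration at `x` of
the image under `F` of the geodesic of `S²` with initial velocity `u`. -/
noncomputable def D2 (F : S → V) (x u v : E) : V := fderiv ℝ (fun y : E => D F y v) x u

/-- `F` is an immersion. -/
def IsImmersion (F : S → V) : Prop :=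
  ∀ (x : S) (u : E), inner ℝ (x : E) u = 0 → D F x u = 0 → u = 0

/-- `e` is an orthonormal basis of `T_x S²` for the metric induced by `F`. -/
def IsFrame (F : S → V) (x : S) (e : Fin 2 → E) : Prop :=
  (∀ i, inner ℝ (x : E) (e i) = 0) ∧ Orthonormal ℝ (fun i => D F x (e i))

/-- For a map `F` into the unit sphere `S³` and a frame `e` of `F` at `x`: the component of `y`
which is tangent to `S³` at `F x` and normal to the surface. -/
noncomputable def nor (F : S → V) (x : S) (e : Fin 2 → E) (y : V) : V :=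
  y - inner ℝ y (F x) • F x - ∑ j, inner ℝ y (D F x (e j)) • D F x (e j)

/-- The (vector valued) second fundamental form `A(u, v)` of `F` in `S³`. -/
noncomputable def sff (F : S → V) (x : S) (e : Fin 2 → E) (u v : E) : V := nor F x e (D2 F x u v)

/-- The mean curvature vector `H`, the trace of the second fundamental form. -/
noncomputable def meanCurv (F : S → V) (x : S) (e : Fin 2 → E) : V :=
  ∑ i, sff F x e (e i) (e i)

/-- The Gauss curvature of the metric induced by `F`, given by the Gauss equation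
`K = 1 + ⟨A(e₀, e₀), A(e₁, e₁)⟩ - |A(e₀, e₁)|²` in the unit sphere `S³`. -/
noncomputable def gaussCurv (F : S → V) (x : S) (e : Fin 2 → E) : ℝ :=
  1 + inner ℝ (sff F x e (e 0) (e 0)) (sff F x e (e 1) (e 1)) - ‖sff F x e (e 0) (e 1)‖ ^ 2

/-- The squared norm `|A|²` of the second fundamental form. -/
noncomputable def normSqA (F : S → V) (x : S) (e : Fin 2 → E) : ℝ :=
  ∑ i, ∑ j, ‖sff F x e (e i) (e j)‖ ^ 2

/-- The time interval `[0, T)`, where `T = ∞` is allowed. -/
def Time (T : EReal) : Set ℝ := {t | 0 ≤ t ∧ (t : EReal) < T}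

/-- `F` is a smooth mean curvature flow `S² × [0, T) → S³` with initial value `F₀`: a smooth
family of immersions into the unit sphere `S³` with `∂F/∂t = H` and `F(·, 0) = F₀`. -/
structure IsMCF (F₀ : S → V) (T : EReal) (F : ℝ → S → V) : Prop where
  pos : 0 < T
  smooth : ContDiffOn ℝ ∞ (fun q : ℝ × E => F q.1 (proj q.2)) (Time T ×ˢ {0}ᶜ)
  init : F 0 = F₀
  mem : ∀ t ∈ Time T, ∀ x, ‖F t x‖ = 1
  imm : ∀ t ∈ Time T, IsImmersion (F t)
  flow : ∀ t ∈ Time T, ∀ x e, IsFrame (F t) x e →
    HasDerivWithinAt (fun s => F s x) (meanCurv (F t) x e) (Time T) t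

/-- `T < ∞` and the surfaces `M_t = F(S², t)` shrink to a single point as `t → T`. -/
def ShrinksToPoint (T : EReal) (F : ℝ → S → V) : Prop :=
  T < ⊤ ∧ ∃ o : V, ∀ ε > 0, ∃ δ : ℝ, 0 < δ ∧
    ∀ t ∈ Time T, T < ((t + δ : ℝ) : EReal) → ∀ x, ‖F t x - o‖ < ε

end Pool.Agent.Helper608.SphMCF
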