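import Mathlib
import Pool.Agent.Helper608.KDefs
import Pool.Agent.Helper608.HGeo

/-! Calculus of maps of the sphere to `ℝ⁴`. -/

open Set Metric
open scoped ContDiff

namespace Pool.Agent.Helper608.SphMCF

theorem coe_ne_zero (x : S) : (x : E) ≠ 0 := HypMCF.coe_ne_zero (n := 2) x

theorem isOpen_ne : IsOpen ({0}ᶜ : Set E) := isOpen_compl_singleton

theorem proj_coe (x : S) : proj (x : E) = x := by
  have hx : ‖(x : E)‖ = 1 := by simp
  apply Subtype.ext
  simp [proj, coe_ne_zero x, hx]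

theorem coe_proj {x : E} (hx : x ≠ 0) : (proj x : E) = ‖x‖⁻¹ • x := by
  simp [proj, hx]

theorem proj_smul {x : E} (hx : x ≠ 0) {c : ℝ} (hc : 0 < c) : proj (c • x) = proj x := by
  apply Subtype.ext
  rw [coe_proj (smul_ne_zero hc.ne' hx), coe_proj hx, norm_smul, Real.norm_of_nonneg hc.le,
    smul_smul, mul_inv, mul_comm c⁻¹, mul_assoc, inv_mul_cancel₀ hc.ne', mul_one]

theorem line_ne_zero (x : S) {u : E} (hu : inner ℝ (x : E) u = 0) (s : ℝ) :
    (x : E) + s • u ≠ 0 := HypMCF.line_ne_zero (n := 2) x hu s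

theorem IsSmooth.hasFDerivAt {F : S → V} (hF : IsSmooth F) {y : E} (hy : y ≠ 0) :
    HasFDerivAt (fun y : E => F (proj y)) (fderiv ℝ (fun y : E => F (proj y)) y) y := by
  have h1 : ContDiffAt ℝ ∞ (fun y : E => F (proj y)) y := hF.contDiffAt (isOpen_ne.mem_nhds hy)
  exact (h1.differentiableAt (by simp)).hasFDerivAt

theorem IsSmooth.hasDerivAt {F : S → V} (hF : IsSmooth F) {y : E} (u : E) (s : ℝ)
    (hy : y + s • u ≠ 0) :
    HasDerivAt (fun s : ℝ => F (proj (y + s • u))) (D F (y + s • u) u) s := by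
  have h := (hF.hasFDerivAt hy).comp_hasDerivAt s (HypMCF.hasDerivAt_line (n := 2) y u s)
  exact h

theorem IsSmooth.contDiffOn_fderiv {F : S → V} (hF : IsSmooth F) :
    ContDiffOn ℝ ∞ (fderiv ℝ (fun y : E => F (proj y))) {0}ᶜ :=
  hF.fderiv_of_isOpen isOpen_ne (by simp)

theorem IsSmooth.contDiffOn_D {F : S → V} (hF : IsSmooth F) (u : E) :
    ContDiffOn ℝ ∞ (fun y : E => D F y u) {0}ᶜ :=
  hF.contDiffOn_fderiv.clm_apply contDiffOn_const

theorem IsSmooth.hasDerivAt_D {F : S → V} (hF : IsSmooth F) {y : E} (u v : E) (s : ℝ)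
    (hy : y + s • u ≠ 0) :
    HasDerivAt (fun s : ℝ => D F (y + s • u) v) (D2 F (y + s • u) u v) s := by
  have h1 : ContDiffAt ℝ ∞ (fun y : E => D F y v) (y + s • u) :=
    (hF.contDiffOn_D v).contDiffAt (isOpen_ne.mem_nhds hy)
  have h2 := (h1.differentiableAt (by simp)).hasFDerivAt
  exact h2.comp_hasDerivAt s (HypMCF.hasDerivAt_line (n := 2) y u s)

theorem D_add (F : S → V) (x u v : E) : D F x (u + v) = D F x u + D F x v := by
  simp only [D, map_add]

theorem D_smul (F : S → V) (x : E) (c : ℝ) (u : E) : D F x (c • u) = c • D F x u := by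
  simp only [D, map_smul]

theorem D_neg (F : S → V) (x u : E) : D F x (-u) = -D F x u := by
  simp only [D, map_neg]

theorem D_zero (F : S → V) (x : E) : D F x 0 = 0 := by
  simp only [D, map_zero]

/-- `D2` in terms of the second derivative. -/
theorem IsSmooth.D2_eq {F : S → V} (hF : IsSmooth F) {y : E} (hy : y ≠ 0) (u v : E) :
    D2 F y u v = fderiv ℝ (fderiv ℝ (fun y : E => F (proj y))) y u v := by
  have h1 : DifferentiableAt ℝ (fderiv ℝ (fun y : E => F (proj y))) y :=
    (hF.contDiffOn_fderiv.contDiffAt (isOpen_ne.mem_nhds hy)).differentiableAt (by simp)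
  have h2 : HasFDerivAt (fun y : E => D F y v)
      ((ContinuousLinearMap.apply ℝ V v).comp
        (fderiv ℝ (fderiv ℝ (fun y : E => F (proj y))) y)) y :=
    (ContinuousLinearMap.apply ℝ V v).hasFDerivAt.comp y h1.hasFDerivAt
  rw [D2, h2.fderiv]
  rfl

theorem IsSmooth.D2_symm {F : S → V} (hF : IsSmooth F) {y : E} (hy : y ≠ 0) (u v : E) :
    D2 F y u v = D2 F y v u := by
  rw [hF.D2_eq hy, hF.D2_eq hy]
  have h1 : ContDiffAt ℝ ∞ (fun y : E => F (proj y)) y := hF.contDiffAt (isOpen_ne.mem_nhds hy)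
  exact (h1.isSymmSndFDerivAt (by
    rw [minSmoothness_of_isRCLikeNormedField]
    exact WithTop.coe_le_coe.2 (le_top (a := (2 : ℕ∞))))) u v

theorem IsSmooth.D2_smul_left {F : S → V} (c : ℝ) {y : E} (u v : E) :
    D2 F y (c • u) v = c • D2 F y u v := by
  simp only [D2, map_smul]

theorem IsSmooth.D2_smul_right {F : S → V} (hF : IsSmooth F) (c : ℝ) {y : E} (hy : y ≠ 0)
    (u v : E) : D2 F y u (c • v) = c • D2 F y u v := by
  rw [hF.D2_eq hy, hF.D2_eq hy, map_smul]

theorem IsSmooth.D2_add_right {F : S → V} (hF : IsSmooth F) {y : E} (hy : y ≠ 0)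
    (u v w : E) : D2 F y u (v + w) = D2 F y u v + D2 F y u w := by
  rw [hF.D2_eq hy, hF.D2_eq hy, hF.D2_eq hy, map_add]

theorem IsSmooth.D2_add_left {F : S → V} {y : E}
    (u v w : E) : D2 F y (u + v) w = D2 F y u w + D2 F y v w := by
  simp only [D2, map_add]

/-- The first derivative along a curve. -/
theorem IsSmooth.hasDerivAt_curve {F : S → V} (hF : IsSmooth F) {c : ℝ → E} {c' : E} {s : ℝ}
    (hc : HasDerivAt c c' s) (h0 : c s ≠ 0) :
    HasDerivAt (fun s => F (proj (c s))) (D F (c s) c') s :=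
  (hF.hasFDerivAt h0).comp_hasDerivAt s hc

/-- The second derivative along a curve. -/
theorem IsSmooth.hasDerivAt_curve2 {F : S → V} (hF : IsSmooth F) {c c1 : ℝ → E} {c' c1' : E}
    {s : ℝ} (hc : HasDerivAt c c' s) (hc1 : HasDerivAt c1 c1' s) (h0 : c s ≠ 0) :
    HasDerivAt (fun s => D F (c s) (c1 s)) (D2 F (c s) c' (c1 s) + D F (c s) c1') s := by
  have h1 : DifferentiableAt ℝ (fderiv ℝ (fun y : E => F (proj y))) (c s) :=
    (hF.contDiffOn_fderiv.contDiffAt (isOpen_ne.mem_nhds h0)).differentiableAt (by simp)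
  have h2 := h1.hasFDerivAt.comp_hasDerivAt s hc
  have h3 := h2.clm_apply hc1
  refine h3.congr_deriv ?_
  rw [hF.D2_eq h0]
  rfl

/-- The radial derivative vanishes. -/
theorem IsSmooth.D_self {F : S → V} (hF : IsSmooth F) {y : E} (hy : y ≠ 0) : D F y y = 0 := by
  have hc : HasDerivAt (fun s : ℝ => (1 + s) • y) y 0 := by
    have := ((hasDerivAt_id (0 : ℝ)).const_add 1).smul_const y
    simpa using this
  have h1 := hF.hasDerivAt_curve (c := fun s : ℝ => (1 + s) • y) hc (by simpa using hy)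
  have h2 : HasDerivAt (fun s : ℝ => F (proj ((1 + s) • y))) 0 0 := by
    have h3 : HasDerivAt (fun _ : ℝ => F (proj y)) 0 0 := hasDerivAt_const _ _
    refine h3.congr_of_eventuallyEq ?_
    filter_upwards [Ioi_mem_nhds (show (-1 : ℝ) < 0 by norm_num)] with s hs
    have hs' : (-1 : ℝ) < s := hs
    rw [proj_smul hy (by linarith)]
  have h4 := h1.unique h2
  simpa using h4

/-- The induced metric as a bilinear form. -/
noncomputable def gform (F : S → V) (x : S) : LinearMap.BilinForm ℝ E :=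
  LinearMap.mk₂ ℝ (fun u v => inner ℝ (D F x u) (D F x v))
    (fun u v w => by rw [D_add, inner_add_left])
    (fun c u v => by rw [D_smul, real_inner_smul_left, smul_eq_mul])
    (fun u v w => by rw [D_add, inner_add_right])
    (fun c u v => by rw [D_smul, real_inner_smul_right, smul_eq_mul])

theorem exists_frame {F : S → V} (hi : IsImmersion F) (x : S) : ∃ e, IsFrame F x e := by
  let W := (Submodule.span ℝ {(x : E)})ᗮ
  have hW : Module.finrank ℝ W = 2 := by
    have : Fact (Module.finrank ℝ E = 2 + 1) := ⟨by simp⟩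
    exact Submodule.finrank_orthogonal_span_singleton (coe_ne_zero x)
  let B : LinearMap.BilinForm ℝ W := (gform F x).restrict W
  have hB : ∀ u v : W, B u v = inner ℝ (D F x u) (D F x v) := fun u v => rfl
  have hsymm : LinearMap.IsSymm B := ⟨fun u v => by
    rw [hB, hB, real_inner_comm]
    rfl⟩
  obtain ⟨v, hv⟩ := LinearMap.BilinForm.exists_orthogonal_basis hsymm
  have hperp : ∀ w : W, inner ℝ (x : E) (w : E) = 0 := fun w =>
    Submodule.mem_orthogonal_singleton_iff_inner_right.1 w.2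
  have hpos : ∀ i, 0 < B (v i) (v i) := by
    intro i
    rw [hB, real_inner_self_eq_norm_sq]
    have : D F x (v i : E) ≠ 0 := by
      intro h
      have h3 := hi x _ (hperp _) h
      exact v.ne_zero i (Subtype.ext h3)
    positivity
  have hvo : ∀ i j, i ≠ j → B (v i) (v j) = 0 := fun i j hij => hv hij
  refine ⟨fun i => (√(B (v (Fin.cast hW.symm i)) (v (Fin.cast hW.symm i))))⁻¹ •
    (v (Fin.cast hW.symm i) : E), fun i => ?_, ?_⟩
  · rw [inner_smul_right, hperp, mul_zero]
  · rw [orthonormal_iff_ite]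
    intro i j
    rw [D_smul, D_smul, real_inner_smul_left, real_inner_smul_right, ← hB]
    split_ifs with hij
    · subst hij
      have h1 := hpos (Fin.cast hW.symm i)
      have h2 : √(B (v (Fin.cast hW.symm i)) (v (Fin.cast hW.symm i))) ≠ 0 :=
        (Real.sqrt_pos.2 h1).ne'
      field_simp
      rw [Real.sq_sqrt h1.le]
    · rw [hvo (Fin.cast hW.symm i) (Fin.cast hW.symm j)
        (fun h => hij (Fin.cast_injective hW.symm h))]
      simp

theorem hasDerivAt_coord {c : ℝ → V} {c' : V} {s : ℝ} (h : HasDerivAt c c' s) (i : Fin 4) :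
    HasDerivAt (fun s => c s i) (c' i) s :=
  (EuclideanSpace.proj (𝕜 := ℝ) i).hasFDerivAt.comp_hasDerivAt s h

theorem hasDerivAt_coordE {c : ℝ → E} {c' : E} {s : ℝ} (h : HasDerivAt c c' s) (i : Fin 3) :
    HasDerivAt (fun s => c s i) (c' i) s :=
  (EuclideanSpace.proj (𝕜 := ℝ) i).hasFDerivAt.comp_hasDerivAt s h

theorem hasDerivWithinAt_coord {c : ℝ → V} {c' : V} {s : ℝ} {A : Set ℝ}
    (h : HasDerivWithinAt c c' A s) (i : Fin 4) :
    HasDerivWithinAt (fun s => c s i) (c' i) A s :=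
  (EuclideanSpace.proj (𝕜 := ℝ) i).hasFDerivAt.comp_hasDerivWithinAt s h

theorem inner_four (x y : V) :
    inner ℝ x y = x 0 * y 0 + x 1 * y 1 + x 2 * y 2 + x 3 * y 3 := by
  rw [PiLp.inner_apply, Fin.sum_univ_four]
  simp
  ring

theorem inner_three (x y : E) : inner ℝ x y = x 0 * y 0 + x 1 * y 1 + x 2 * y 2 := by
  rw [PiLp.inner_apply, Fin.sum_univ_three]
  simp
  ring

end Pool.Agent.Helper608.SphMCF
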