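import Mathlib
import Pool.Agent.Helper608.KCalc

/-! Symmetries of the mean curvature flow. -/

open Set Metric
open scoped ContDiff

namespace Pool.Agent.Helper608.SphMCF

/-- The action of a linear isometry on the sphere. -/
noncomputable def act (a : E ≃ₗᵢ[ℝ] E) (x : S) : S := ⟨a x, by simp⟩

theorem act_coe (a : E ≃ₗᵢ[ℝ] E) (x : S) : (act a x : E) = a x := rfl

theorem proj_act (a : E ≃ₗᵢ[ℝ] E) {y : E} (hy : y ≠ 0) : proj (a y) = act a (proj y) := by
  have hy' : a y ≠ 0 := by simpa using hy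
  apply Subtype.ext
  rw [act_coe, coe_proj hy', coe_proj hy, map_smul, a.norm_map]

/-- The transformed map. -/
noncomputable def conj (a : E ≃ₗᵢ[ℝ] E) (b : V ≃ₗᵢ[ℝ] V) (F : S → V) : S → V :=
  fun x => b (F (act a x))

variable {a : E ≃ₗᵢ[ℝ] E} {b : V ≃ₗᵢ[ℝ] V} {F : S → V}

theorem conj_smooth (hF : IsSmooth F) : IsSmooth (conj a b F) := by
  have h1 : ContDiffOn ℝ ∞ (fun y : E => F (proj (a y))) {0}ᶜ := by
    have := hF.comp (s := {0}ᶜ) (t := {0}ᶜ) (f := fun y : E => a y) a.contDiff.contDiffOn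
      (fun y hy => by
        have hy' : y ≠ 0 := hy
        show a y ≠ 0
        simpa using hy')
    exact this
  have h2 : ContDiffOn ℝ ∞ (fun y : E => b (F (proj (a y)))) {0}ᶜ := b.contDiff.comp_contDiffOn h1
  exact h2.congr (fun y hy => by rw [conj, proj_act a hy])

theorem D_conj (hF : IsSmooth F) {y : E} (hy : y ≠ 0) (u : E) :
    D (conj a b F) y u = b (D F (a y) (a u)) := by
  have hy' : a y ≠ 0 := by simpa using hy
  have h1 := hF.hasFDerivAt hy'
  have h2 : HasFDerivAt (fun y : E => F (proj (a y)))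
      ((fderiv ℝ (fun y : E => F (proj y)) (a y)).comp (a.toContinuousLinearEquiv : E →L[ℝ] E)) y :=
    h1.comp y (a.toContinuousLinearEquiv : E →L[ℝ] E).hasFDerivAt
  have h3 : HasFDerivAt (fun y : E => b (F (proj (a y))))
      ((b.toContinuousLinearEquiv : V →L[ℝ] V).comp
        ((fderiv ℝ (fun y : E => F (proj y)) (a y)).comp
          (a.toContinuousLinearEquiv : E →L[ℝ] E))) y :=
    (b.toContinuousLinearEquiv : V →L[ℝ] V).hasFDerivAt.comp y h2
  have h4 : (fun y : E => conj a b F (proj y)) =ᶠ[nhds y] fun y : E => b (F (proj (a y))) := by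
    filter_upwards [isOpen_ne.mem_nhds hy] with z hz
    rw [conj, proj_act a hz]
  rw [D, h4.fderiv_eq, h3.fderiv]
  rfl

theorem D2_conj (hF : IsSmooth F) {y : E} (hy : y ≠ 0) (u v : E) :
    D2 (conj a b F) y u v = b (D2 F (a y) (a u) (a v)) := by
  have hy' : a y ≠ 0 := by simpa using hy
  have h0 : ContDiffAt ℝ ∞ (fun y : E => D F y (a v)) (a y) :=
    (hF.contDiffOn_D (a v)).contDiffAt (isOpen_ne.mem_nhds hy')
  have h1 := (h0.differentiableAt (by simp)).hasFDerivAt
  have h2 : HasFDerivAt (fun y : E => D F (a y) (a v))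
      ((fderiv ℝ (fun y : E => D F y (a v)) (a y)).comp
        (a.toContinuousLinearEquiv : E →L[ℝ] E)) y :=
    h1.comp y (a.toContinuousLinearEquiv : E →L[ℝ] E).hasFDerivAt
  have h3 : HasFDerivAt (fun y : E => b (D F (a y) (a v)))
      ((b.toContinuousLinearEquiv : V →L[ℝ] V).comp
        ((fderiv ℝ (fun y : E => D F y (a v)) (a y)).comp
          (a.toContinuousLinearEquiv : E →L[ℝ] E))) y :=
    (b.toContinuousLinearEquiv : V →L[ℝ] V).hasFDerivAt.comp y h2
  have h4 : (fun y : E => D (conj a b F) y v) =ᶠ[nhds y] fun y : E => b (D F (a y) (a v)) := by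
    filter_upwards [isOpen_ne.mem_nhds hy] with z hz
    rw [D_conj hF hz]
  rw [D2, h4.fderiv_eq, h3.fderiv]
  rfl

theorem conj_frame (hF : IsSmooth F) {x : S} {e : Fin 2 → E} :
    IsFrame (conj a b F) x e ↔ IsFrame F (act a x) (fun i => a (e i)) := by
  have h0 : (fun i => D (conj a b F) x (e i)) = fun i => b (D F (act a x) (a (e i))) := by
    funext i
    rw [D_conj hF (coe_ne_zero x), act_coe]
  have h1 : ∀ i, inner ℝ (x : E) (e i) = inner ℝ ((act a x : S) : E) (a (e i)) := by
    intro i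
    rw [act_coe, a.inner_map_map]
  unfold IsFrame
  rw [h0]
  constructor
  · rintro ⟨h2, h3⟩
    refine ⟨fun i => by rw [← h1]; exact h2 i, ?_⟩
    rw [orthonormal_iff_ite] at h3 ⊢
    intro i j
    rw [← h3 i j, b.inner_map_map]
  · rintro ⟨h2, h3⟩
    refine ⟨fun i => by rw [h1]; exact h2 i, ?_⟩
    rw [orthonormal_iff_ite] at h3 ⊢
    intro i j
    rw [← h3 i j, b.inner_map_map]

theorem nor_conj (hF : IsSmooth F) (x : S) (e : Fin 2 → E) (y : V) :
    nor (conj a b F) x e (b y) = b (nor F (act a x) (fun i => a (e i)) y) := by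
  simp only [nor, D_conj hF (coe_ne_zero x), map_sub, map_sum, map_smul, conj, act_coe,
    b.inner_map_map]

theorem sff_conj (hF : IsSmooth F) (x : S) (e : Fin 2 → E) (u v : E) :
    sff (conj a b F) x e u v = b (sff F (act a x) (fun i => a (e i)) (a u) (a v)) := by
  rw [sff, D2_conj hF (coe_ne_zero x), nor_conj hF, sff, act_coe]

theorem meanCurv_conj (hF : IsSmooth F) (x : S) (e : Fin 2 → E) :
    meanCurv (conj a b F) x e = b (meanCurv F (act a x) (fun i => a (e i))) := by
  simp only [meanCurv, sff_conj hF, map_sum]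

theorem gaussCurv_conj (hF : IsSmooth F) (x : S) (e : Fin 2 → E) :
    gaussCurv (conj a b F) x e = gaussCurv F (act a x) (fun i => a (e i)) := by
  simp only [gaussCurv, sff_conj hF, b.inner_map_map, b.norm_map]

theorem conj_imm (hF : IsSmooth F) (hi : IsImmersion F) : IsImmersion (conj a b F) := by
  intro x u hu h
  rw [D_conj hF (coe_ne_zero x)] at h
  have h1 : D F (act a x) (a u) = 0 := by
    have h2 : b (D F (a x) (a u)) = b 0 := by rw [h, map_zero]
    exact b.injective h2
  have h3 := hi (act a x) (a u) (by rw [act_coe, a.inner_map_map]; exact hu) h1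
  have h4 : a u = a 0 := by rw [h3, map_zero]
  exact a.injective h4

theorem IsMCF.isSmooth {F₀ : S → V} {T : EReal} {F : ℝ → S → V} (h : IsMCF F₀ T F) {t : ℝ}
    (ht : t ∈ Time T) : IsSmooth (F t) := by
  have h1 : ContDiffOn ℝ ∞ (fun y : E => ((t, y) : ℝ × E)) {0}ᶜ :=
    contDiffOn_const.prodMk contDiffOn_id
  exact h.smooth.comp h1 (fun y hy => ⟨ht, hy⟩)

theorem IsMCF.conj {F₀ : S → V} {T : EReal} {F : ℝ → S → V} (h : IsMCF F₀ T F)
    (a : E ≃ₗᵢ[ℝ] E) (b : V ≃ₗᵢ[ℝ] V) :
    IsMCF (conj a b F₀) T (fun t => SphMCF.conj a b (F t)) where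
  pos := h.pos
  smooth := by
    have h1 : ContDiffOn ℝ ∞ (fun q : ℝ × E => F q.1 (proj (a q.2))) (Time T ×ˢ {0}ᶜ) := by
      have h0 : ContDiffOn ℝ ∞ (fun q : ℝ × E => ((q.1, a q.2) : ℝ × E)) (Time T ×ˢ {0}ᶜ) :=
        contDiffOn_fst.prodMk (a.contDiff.comp_contDiffOn contDiffOn_snd)
      exact h.smooth.comp h0 (fun q hq => ⟨hq.1, by
        have hy' : q.2 ≠ 0 := hq.2
        show a q.2 ≠ 0
        simpa using hy'⟩)
    have h2 : ContDiffOn ℝ ∞ (fun q : ℝ × E => b (F q.1 (proj (a q.2)))) (Time T ×ˢ {0}ᶜ) :=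
      b.contDiff.comp_contDiffOn h1
    exact h2.congr (fun q hq => by rw [SphMCF.conj, proj_act a hq.2])
  init := by rw [h.init]
  mem := fun t ht x => by rw [SphMCF.conj, b.norm_map, h.mem t ht]
  imm := fun t ht => conj_imm (h.isSmooth ht) (h.imm t ht)
  flow := by
    intro t ht x e he
    have h1 := h.flow t ht (act a x) _ ((conj_frame (h.isSmooth ht)).1 he)
    rw [meanCurv_conj (h.isSmooth ht)]
    exact (b.toContinuousLinearEquiv : V →L[ℝ] V).hasFDerivAt.comp_hasDerivWithinAt t h1

/-! ### The rotations and the reflection -/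

/-- The rotation by the angle `φ` in the first two coordinates of `ℝ³`, as a linear map. -/
noncomputable def rotELin (φ : ℝ) : E →ₗ[ℝ] E where
  toFun x := !₂[Real.cos φ * x 0 - Real.sin φ * x 1, Real.sin φ * x 0 + Real.cos φ * x 1, x 2]
  map_add' x y := by
    ext i
    fin_cases i <;> simp <;> ring
  map_smul' c x := by
    ext i
    fin_cases i <;> simp <;> ring

/-- The rotation by the angle `φ` in the first two coordinates of `ℝ³`. -/
noncomputable def rotE (φ : ℝ) : E ≃ₗᵢ[ℝ] E where
  toLinearEquiv := LinearEquiv.ofLinearMap (rotELin φ) (rotELin (-φ))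
    (by
      ext1 x
      ext i
      have := Real.sin_sq_add_cos_sq φ
      fin_cases i <;> simp [rotELin]
      · linear_combination (x 0) * this
      · linear_combination (x 1) * this)
    (by
      ext1 x
      ext i
      have := Real.sin_sq_add_cos_sq φ
      fin_cases i <;> simp [rotELin]
      · linear_combination (x 0) * this
      · linear_combination (x 1) * this)
  norm_map' x := by
    have h : ‖(rotELin φ x : E)‖ ^ 2 = ‖x‖ ^ 2 := by
      rw [← real_inner_self_eq_norm_sq, ← real_inner_self_eq_norm_sq, inner_three, inner_three]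
      have := Real.sin_sq_add_cos_sq φ
      simp [rotELin]
      linear_combination (x 0 * x 0 + x 1 * x 1) * this
    exact (sq_eq_sq₀ (norm_nonneg _) (norm_nonneg _)).1 h

theorem rotE_apply (φ : ℝ) (x : E) :
    rotE φ x = !₂[Real.cos φ * x 0 - Real.sin φ * x 1, Real.sin φ * x 0 + Real.cos φ * x 1, x 2] :=
  rfl

/-- The rotation by the angle `φ` in the first two coordinates of `ℝ⁴`, as a linear map. -/
noncomputable def rotVLin (φ : ℝ) : V →ₗ[ℝ] V where
  toFun x := !₂[Real.cos φ * x 0 - Real.sin φ * x 1, Real.sin φ * x 0 + Real.cos φ * x 1, x 2, x 3]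
  map_add' x y := by
    ext i
    fin_cases i <;> simp <;> ring
  map_smul' c x := by
    ext i
    fin_cases i <;> simp <;> ring

/-- The rotation by the angle `φ` in the first two coordinates of `ℝ⁴`. -/
noncomputable def rotV (φ : ℝ) : V ≃ₗᵢ[ℝ] V where
  toLinearEquiv := LinearEquiv.ofLinearMap (rotVLin φ) (rotVLin (-φ))
    (by
      ext1 x
      ext i
      have := Real.sin_sq_add_cos_sq φ
      fin_cases i <;> simp [rotVLin]
      · linear_combination (x 0) * this
      · linear_combination (x 1) * this)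
    (by
      ext1 x
      ext i
      have := Real.sin_sq_add_cos_sq φ
      fin_cases i <;> simp [rotVLin]
      · linear_combination (x 0) * this
      · linear_combination (x 1) * this)
  norm_map' x := by
    have h : ‖(rotVLin φ x : V)‖ ^ 2 = ‖x‖ ^ 2 := by
      rw [← real_inner_self_eq_norm_sq, ← real_inner_self_eq_norm_sq, inner_four, inner_four]
      have := Real.sin_sq_add_cos_sq φ
      simp [rotVLin]
      linear_combination (x 0 * x 0 + x 1 * x 1) * this
    exact (sq_eq_sq₀ (norm_nonneg _) (norm_nonneg _)).1 h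

theorem rotV_apply (φ : ℝ) (x : V) :
    rotV φ x =
      !₂[Real.cos φ * x 0 - Real.sin φ * x 1, Real.sin φ * x 0 + Real.cos φ * x 1, x 2, x 3] :=
  rfl

/-- The reflection `x₁ ↦ -x₁` of `ℝ³`, as a linear map. -/
noncomputable def refELin : E →ₗ[ℝ] E where
  toFun x := !₂[x 0, - x 1, x 2]
  map_add' x y := by
    ext i
    fin_cases i <;> simp
    ring
  map_smul' c x := by
    ext i
    fin_cases i <;> simp

/-- The reflection `x₁ ↦ -x₁` of `ℝ³`. -/
noncomputable def refE : E ≃ₗᵢ[ℝ] E where
  toLinearEquiv := LinearEquiv.ofLinearMap refELin refELin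
    (by
      ext1 x
      ext i
      fin_cases i <;> simp [refELin])
    (by
      ext1 x
      ext i
      fin_cases i <;> simp [refELin])
  norm_map' x := by
    have h : ‖(refELin x : E)‖ ^ 2 = ‖x‖ ^ 2 := by
      rw [← real_inner_self_eq_norm_sq, ← real_inner_self_eq_norm_sq, inner_three, inner_three]
      simp [refELin]
    exact (sq_eq_sq₀ (norm_nonneg _) (norm_nonneg _)).1 h

theorem refE_apply (x : E) : refE x = !₂[x 0, - x 1, x 2] := rfl

/-- The reflection `x₁ ↦ -x₁` of `ℝ⁴`, as a linear map. -/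
noncomputable def refVLin : V →ₗ[ℝ] V where
  toFun x := !₂[x 0, - x 1, x 2, x 3]
  map_add' x y := by
    ext i
    fin_cases i <;> simp
    ring
  map_smul' c x := by
    ext i
    fin_cases i <;> simp

/-- The reflection `x₁ ↦ -x₁` of `ℝ⁴`. -/
noncomputable def refV : V ≃ₗᵢ[ℝ] V where
  toLinearEquiv := LinearEquiv.ofLinearMap refVLin refVLin
    (by
      ext1 x
      ext i
      fin_cases i <;> simp [refVLin])
    (by
      ext1 x
      ext i
      fin_cases i <;> simp [refVLin])
  norm_map' x := by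
    have h : ‖(refVLin x : V)‖ ^ 2 = ‖x‖ ^ 2 := by
      rw [← real_inner_self_eq_norm_sq, ← real_inner_self_eq_norm_sq, inner_four, inner_four]
      simp [refVLin]
    exact (sq_eq_sq₀ (norm_nonneg _) (norm_nonneg _)).1 h

theorem refV_apply (x : V) : refV x = !₂[x 0, - x 1, x 2, x 3] := rfl

/-- `F` is equivariant for the rotations and the reflection. -/
structure Sym (F : S → V) : Prop where
  rot : ∀ φ x, F (act (rotE φ) x) = rotV φ (F x)
  ref : ∀ x, F (act refE x) = refV (F x)

end Pool.Agent.Helper608.SphMCF
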