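import Mathlib
import Pool.Agent.Helper608.KSym

/-! The profile curve of a rotationally symmetric map. -/

open Set Metric
open scoped ContDiff

namespace Pool.Agent.Helper608.SphMCF

/-- The meridian. -/
noncomputable def mer (θ : ℝ) : E := !₂[Real.sin θ, 0, Real.cos θ]

/-- Its velocity. -/
noncomputable def tau (θ : ℝ) : E := !₂[Real.cos θ, 0, -Real.sin θ]

/-- The unit vector tangent to the parallels along the meridian. -/
noncomputable def eta1 : E := !₂[0, 1, 0]

/-- The first unit vector. -/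
noncomputable def eta0 : E := !₂[1, 0, 0]

theorem mer_norm (θ : ℝ) : ‖mer θ‖ = 1 := by
  have h : ‖mer θ‖ ^ 2 = 1 := by
    rw [← real_inner_self_eq_norm_sq, inner_three]
    simp [mer]
    nlinarith [Real.sin_sq_add_cos_sq θ]
  nlinarith [norm_nonneg (mer θ)]

theorem mer_ne (θ : ℝ) : mer θ ≠ 0 := by
  intro h
  have := mer_norm θ
  rw [h, norm_zero] at this
  norm_num at this

/-- The meridian as a curve in the sphere. -/
noncomputable def merS (θ : ℝ) : S := ⟨mer θ, by simp [mer_norm]⟩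

theorem merS_coe (θ : ℝ) : (merS θ : E) = mer θ := rfl

theorem proj_mer (θ : ℝ) : proj (mer θ) = merS θ := proj_coe (merS θ)

theorem hasDerivAt_three {f0 f1 f2 : ℝ → ℝ} {g0 g1 g2 s : ℝ} (h0 : HasDerivAt f0 g0 s)
    (h1 : HasDerivAt f1 g1 s) (h2 : HasDerivAt f2 g2 s) :
    HasDerivAt (fun s => (!₂[f0 s, f1 s, f2 s] : E)) !₂[g0, g1, g2] s := by
  rw [hasDerivAt_iff_hasFDerivAt, ← hasFDerivWithinAt_univ, hasFDerivWithinAt_euclidean]
  intro i
  have key : ∀ (f : ℝ → ℝ) (g : ℝ), HasDerivAt f g s → (g = (!₂[g0, g1, g2] : E) i) →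
      HasFDerivWithinAt f ((EuclideanSpace.proj i : E →L[ℝ] ℝ).comp
        (ContinuousLinearMap.toSpanSingleton ℝ (!₂[g0, g1, g2] : E))) univ s := by
    intro f g hf hg
    have h := hf.hasFDerivAt.hasFDerivWithinAt (s := univ)
    refine h.congr_fderiv ?_
    ext
    simp [hg]
  fin_cases i
  · exact key f0 g0 h0 (by simp)
  · exact key f1 g1 h1 (by simp)
  · exact key f2 g2 h2 (by simp)

theorem hasDerivAt_mer (θ : ℝ) : HasDerivAt mer (tau θ) θ :=
  hasDerivAt_three (Real.hasDerivAt_sin θ) (hasDerivAt_const θ 0) (Real.hasDerivAt_cos θ)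

theorem hasDerivAt_tau (θ : ℝ) : HasDerivAt tau (-mer θ) θ := by
  have h := hasDerivAt_three (Real.hasDerivAt_cos θ) (hasDerivAt_const θ 0)
    (Real.hasDerivAt_sin θ).neg
  refine h.congr_deriv ?_
  ext i
  fin_cases i <;> simp [mer]

theorem contDiff_mer : ContDiff ℝ ∞ mer := by
  rw [contDiff_euclidean]
  intro i
  fin_cases i
  · exact Real.contDiff_sin
  · exact contDiff_const
  · exact Real.contDiff_cos

theorem inner_mer_tau (θ : ℝ) : inner ℝ (mer θ) (tau θ) = 0 := by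
  rw [inner_three]
  simp [mer, tau]
  ring

theorem inner_mer_eta (θ : ℝ) : inner ℝ (mer θ) eta1 = 0 := by
  rw [inner_three]
  simp [mer, eta1]

variable {F : S → V}

/-- The first derivative of the profile curve. -/
theorem hasDerivAt_prof (hF : IsSmooth F) (θ : ℝ) :
    HasDerivAt (fun θ => F (merS θ)) (D F (mer θ) (tau θ)) θ := by
  have h := hF.hasDerivAt_curve (hasDerivAt_mer θ) (mer_ne θ)
  refine h.congr_of_eventuallyEq (Filter.Eventually.of_forall (fun s => ?_))
  simp only [proj_mer]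

/-- The second derivative of the profile curve. -/
theorem hasDerivAt_prof2 (hF : IsSmooth F) (θ : ℝ) :
    HasDerivAt (fun θ => D F (mer θ) (tau θ)) (D2 F (mer θ) (tau θ) (tau θ)) θ := by
  have h := hF.hasDerivAt_curve2 (hasDerivAt_mer θ) (hasDerivAt_tau θ) (mer_ne θ)
  refine h.congr_deriv ?_
  rw [D_neg, hF.D_self (mer_ne θ), neg_zero, add_zero]

theorem Sym.mer_one (h : Sym F) (θ : ℝ) : F (merS θ) 1 = 0 := by
  have h1 := h.ref (merS θ)
  have h2 : act refE (merS θ) = merS θ := by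
    apply Subtype.ext
    rw [act_coe, refE_apply, merS_coe]
    ext i
    fin_cases i <;> simp [mer]
  rw [h2, refV_apply] at h1
  have h3 := congrArg (fun v : V => v 1) h1
  simp at h3
  linarith

/-- At the poles the map lies on the axis. -/
theorem Sym.mer_zero (h : Sym F) {θ : ℝ} (hθ : Real.sin θ = 0) : F (merS θ) 0 = 0 := by
  have h1 := h.rot Real.pi (merS θ)
  have h2 : act (rotE Real.pi) (merS θ) = merS θ := by
    apply Subtype.ext
    rw [act_coe, rotE_apply, merS_coe]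
    ext i
    fin_cases i <;> simp [mer, hθ]
  rw [h2, rotV_apply] at h1
  have h3 := congrArg (fun v : V => v 0) h1
  simp at h3
  linarith

theorem rot_mer (φ θ : ℝ) : rotE φ (mer θ) =
    !₂[Real.cos φ * Real.sin θ, Real.sin φ * Real.sin θ, Real.cos θ] := by
  rw [rotE_apply]
  ext i
  fin_cases i <;> simp [mer]

/-- The rotated meridian point as a curve. -/
theorem hasDerivAt_rot (θ φ : ℝ) : HasDerivAt (fun φ => rotE φ (mer θ))
    !₂[-Real.sin φ * Real.sin θ, Real.cos φ * Real.sin θ, 0] φ := by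
  have h := hasDerivAt_three ((Real.hasDerivAt_cos φ).mul_const (Real.sin θ))
    ((Real.hasDerivAt_sin φ).mul_const (Real.sin θ)) (hasDerivAt_const φ (Real.cos θ))
  simp only [rot_mer]
  exact h

theorem hasDerivAt_rot2 (θ φ : ℝ) :
    HasDerivAt (fun φ => (!₂[-Real.sin φ * Real.sin θ, Real.cos φ * Real.sin θ, 0] : E))
    !₂[-Real.cos φ * Real.sin θ, -Real.sin φ * Real.sin θ, 0] φ :=
  hasDerivAt_three ((Real.hasDerivAt_sin φ).neg.mul_const (Real.sin θ))
    ((Real.hasDerivAt_cos φ).mul_const (Real.sin θ)) (hasDerivAt_const φ 0)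

theorem hasDerivAt_four {f0 f1 f2 f3 : ℝ → ℝ} {g0 g1 g2 g3 s : ℝ} (h0 : HasDerivAt f0 g0 s)
    (h1 : HasDerivAt f1 g1 s) (h2 : HasDerivAt f2 g2 s) (h3 : HasDerivAt f3 g3 s) :
    HasDerivAt (fun s => (!₂[f0 s, f1 s, f2 s, f3 s] : V)) !₂[g0, g1, g2, g3] s := by
  rw [hasDerivAt_iff_hasFDerivAt, ← hasFDerivWithinAt_univ, hasFDerivWithinAt_euclidean]
  intro i
  have key : ∀ (f : ℝ → ℝ) (g : ℝ), HasDerivAt f g s → (g = (!₂[g0, g1, g2, g3] : V) i) →
      HasFDerivWithinAt f ((EuclideanSpace.proj i : V →L[ℝ] ℝ).comp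
        (ContinuousLinearMap.toSpanSingleton ℝ (!₂[g0, g1, g2, g3] : V))) univ s := by
    intro f g hf hg
    have h := hf.hasFDerivAt.hasFDerivWithinAt (s := univ)
    refine h.congr_fderiv ?_
    ext
    simp [hg]
  fin_cases i
  · exact key f0 g0 h0 (by simp)
  · exact key f1 g1 h1 (by simp)
  · exact key f2 g2 h2 (by simp)
  · exact key f3 g3 h3 (by simp)

theorem Sym.curve_eq (h : Sym F) (θ φ : ℝ) : F (proj (rotE φ (mer θ))) =
    !₂[Real.cos φ * F (merS θ) 0, Real.sin φ * F (merS θ) 0, F (merS θ) 2, F (merS θ) 3] := by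
  rw [proj_act _ (mer_ne θ), proj_mer, h.rot, rotV_apply, h.mer_one]
  ext i
  fin_cases i <;> simp

/-- The first derivative in the direction of the parallels. -/
theorem Sym.D_rot (h : Sym F) (hF : IsSmooth F) (θ φ : ℝ) :
    D F (rotE φ (mer θ)) !₂[-Real.sin φ * Real.sin θ, Real.cos φ * Real.sin θ, 0] =
      !₂[-Real.sin φ * F (merS θ) 0, Real.cos φ * F (merS θ) 0, 0, 0] := by
  have h1 := hF.hasDerivAt_curve (hasDerivAt_rot θ φ) (by simpa using mer_ne θ)
  have h2 := hasDerivAt_four ((Real.hasDerivAt_cos φ).mul_const (F (merS θ) 0))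
    ((Real.hasDerivAt_sin φ).mul_const (F (merS θ) 0)) (hasDerivAt_const φ (F (merS θ) 2))
    (hasDerivAt_const φ (F (merS θ) 3))
  simp only [h.curve_eq] at h1
  exact h1.unique h2

theorem Sym.D_eta (h : Sym F) (hF : IsSmooth F) (θ : ℝ) :
    Real.sin θ • D F (mer θ) eta1 = !₂[0, F (merS θ) 0, 0, 0] := by
  have h1 := h.D_rot hF θ 0
  have h2 : rotE 0 (mer θ) = mer θ := by
    rw [rot_mer]
    ext i
    fin_cases i <;> simp [mer]
  rw [h2] at h1
  have h3 : (!₂[-Real.sin 0 * Real.sin θ, Real.cos 0 * Real.sin θ, 0] : E) =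
      Real.sin θ • eta1 := by
    ext i
    fin_cases i <;> simp [eta1]
  rw [h3, D_smul] at h1
  rw [h1]
  ext i
  fin_cases i <;> simp

/-- The second derivative in the direction of the parallels. -/
theorem Sym.D2_eta (h : Sym F) (hF : IsSmooth F) (θ : ℝ) :
    Real.sin θ ^ 2 • D2 F (mer θ) eta1 eta1 =
      !₂[-F (merS θ) 0, 0, 0, 0] + (Real.sin θ * Real.cos θ) • D F (mer θ) (tau θ) := by
  have h1 := hF.hasDerivAt_curve2 (hasDerivAt_rot θ 0) (hasDerivAt_rot2 θ 0)
    (by simpa using mer_ne θ)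
  simp only [h.D_rot hF] at h1
  have h2 := hasDerivAt_four ((Real.hasDerivAt_sin (0 : ℝ)).neg.mul_const (F (merS θ) 0))
    ((Real.hasDerivAt_cos (0 : ℝ)).mul_const (F (merS θ) 0)) (hasDerivAt_const (0 : ℝ) (0 : ℝ))
    (hasDerivAt_const (0 : ℝ) (0 : ℝ))
  have h3 := h1.unique h2
  have h4 : rotE 0 (mer θ) = mer θ := by
    rw [rot_mer]
    ext i
    fin_cases i <;> simp [mer]
  have h5 : (!₂[-Real.sin 0 * Real.sin θ, Real.cos 0 * Real.sin θ, 0] : E) =
      Real.sin θ • eta1 := by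
    ext i
    fin_cases i <;> simp [eta1]
  have h6 : (!₂[-Real.cos 0 * Real.sin θ, -Real.sin 0 * Real.sin θ, 0] : E) =
      (-(Real.sin θ ^ 2)) • mer θ + (-(Real.sin θ * Real.cos θ)) • tau θ := by
    have := Real.sin_sq_add_cos_sq θ
    ext i
    fin_cases i <;> simp [mer, tau]
    · linear_combination (Real.sin θ) * this
    · ring
  rw [h4, h5, h6, D_add, D_smul, D_smul, hF.D_self (mer_ne θ), smul_zero, zero_add,
    IsSmooth.D2_smul_left, hF.D2_smul_right _ (mer_ne θ), smul_smul] at h3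
  rw [sq, ← sub_eq_iff_eq_add.2 h3.symm]
  have h7 : (!₂[-Real.cos 0 * F (merS θ) 0, -Real.sin 0 * F (merS θ) 0, 0, 0] : V) =
      !₂[-F (merS θ) 0, 0, 0, 0] := by
    ext i
    fin_cases i <;> simp
  rw [h7, neg_smul, sub_neg_eq_add]

/-- The mixed second derivative. -/
theorem Sym.D2_mixed (h : Sym F) (hF : IsSmooth F) (θ : ℝ) :
    Real.sin θ • D2 F (mer θ) (tau θ) eta1 + Real.cos θ • D F (mer θ) eta1 =
      !₂[0, D F (mer θ) (tau θ) 0, 0, 0] := by
  have h0 : HasDerivAt (fun θ : ℝ => Real.sin θ • eta1) (Real.cos θ • eta1) θ :=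
    (Real.hasDerivAt_sin θ).smul_const eta1
  have h1 := hF.hasDerivAt_curve2 (hasDerivAt_mer θ) h0 (mer_ne θ)
  simp only [D_smul, h.D_eta hF] at h1
  have h2 := hasDerivAt_four (hasDerivAt_const θ (0 : ℝ))
    (hasDerivAt_coord (hasDerivAt_prof hF θ) 0) (hasDerivAt_const θ (0 : ℝ))
    (hasDerivAt_const θ (0 : ℝ))
  have h3 := h1.unique h2
  rwa [hF.D2_smul_right _ (mer_ne θ)] at h3

end Pool.Agent.Helper608.SphMCF
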