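import Mathlib
import Pool.Agent.Helper608.KMer
import Pool.Agent.Helper608.KAlg

/-! The geometry of a rotationally symmetric surface along a meridian. -/

open Set Metric
open scoped ContDiff

namespace Pool.Agent.Helper608.SphMCF

/-- The data of the profile curve at a point. -/
structure At (F : S → V) (θ r x y a b c v z1 z2 z3 : ℝ) : Prop where
  g : F (merS θ) = !₂[r, 0, x, y]
  d1 : D F (mer θ) (tau θ) = !₂[v * a, 0, v * b, v * c]
  d2 : D2 F (mer θ) (tau θ) (tau θ) = !₂[z1, 0, z2, z3]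
  fr : Fr r x y a b c
  hv : 0 < v
  hr : 0 < r
  hs : 0 < Real.sin θ

/-- The standard frame along the meridian. -/
noncomputable def stdFrame (θ r v : ℝ) : Fin 2 → E := ![v⁻¹ • tau θ, (Real.sin θ / r) • eta1]

variable {F : S → V} {θ r x y a b c v z1 z2 z3 : ℝ}

theorem At.D0 (h : At F θ r x y a b c v z1 z2 z3) :
    D F (mer θ) (stdFrame θ r v 0) = !₂[a, 0, b, c] := by
  have hv := h.hv.ne'
  show D F (mer θ) (v⁻¹ • tau θ) = _
  rw [D_smul, h.d1]
  ext i
  fin_cases i <;> simp <;> field_simp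

theorem At.D1 (h : At F θ r x y a b c v z1 z2 z3) (hS : Sym F) (hF : IsSmooth F) :
    D F (mer θ) (stdFrame θ r v 1) = !₂[0, 1, 0, 0] := by
  have hr := h.hr.ne'
  show D F (mer θ) ((Real.sin θ / r) • eta1) = _
  have h1 := hS.D_eta hF θ
  rw [h.g] at h1
  rw [D_smul, div_eq_inv_mul, mul_smul, h1]
  ext i
  fin_cases i <;> simp [hr]

theorem At.frame (h : At F θ r x y a b c v z1 z2 z3) (hS : Sym F) (hF : IsSmooth F) :
    IsFrame F (merS θ) (stdFrame θ r v) := by
  constructor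
  · intro i
    rw [merS_coe]
    fin_cases i
    · show inner ℝ (mer θ) (v⁻¹ • tau θ) = 0
      rw [real_inner_smul_right, inner_mer_tau, mul_zero]
    · show inner ℝ (mer θ) ((Real.sin θ / r) • eta1) = 0
      rw [real_inner_smul_right, inner_mer_eta, mul_zero]
  · rw [orthonormal_iff_ite]
    intro i j
    have h0 := h.D0
    have h1 := h.D1 hS hF
    have h2 := h.fr.h2
    rw [merS_coe]
    fin_cases i <;> fin_cases j
    · simp only [Fin.zero_eta, h0]
      rw [inner_four]
      simp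
      linarith
    · simp only [Fin.zero_eta, Fin.mk_one, h0, h1]
      rw [inner_four]
      simp
    · simp only [Fin.zero_eta, Fin.mk_one, h0, h1]
      rw [inner_four]
      simp
    · simp only [Fin.mk_one, h1]
      rw [inner_four]
      simp

/-- The normal component in the standard frame. -/
theorem At.nor_eq (h : At F θ r x y a b c v z1 z2 z3) (hS : Sym F) (hF : IsSmooth F)
    (w0 w1 w2 w3 : ℝ) :
    nor F (merS θ) (stdFrame θ r v) !₂[w0, w1, w2, w3] =
      (w0 * cr x y b c + w2 * cr y r c a + w3 * cr r x a b) •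
        !₂[cr x y b c, 0, cr y r c a, cr r x a b] := by
  have e1 := h.fr.expand w0 w2 w3
  have e2 := h.fr.rot.expand w2 w3 w0
  have e3 := h.fr.rot.rot.expand w3 w0 w2
  rw [nor, Fin.sum_univ_two, merS_coe, h.D0, h.D1 hS hF, h.g, inner_four, inner_four, inner_four]
  ext i
  fin_cases i
  · simp
    linear_combination e1
  · simp
  · simp
    linear_combination e2
  · simp
    linear_combination e3

theorem At.nor_smul (h : At F θ r x y a b c v z1 z2 z3) (hS : Sym F) (hF : IsSmooth F)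
    (s w0 w1 w2 w3 : ℝ) :
    nor F (merS θ) (stdFrame θ r v) (s • !₂[w0, w1, w2, w3]) =
      (s * (w0 * cr x y b c + w2 * cr y r c a + w3 * cr r x a b)) •
        !₂[cr x y b c, 0, cr y r c a, cr r x a b] := by
  have e : (s • !₂[w0, w1, w2, w3] : V) = !₂[s * w0, s * w1, s * w2, s * w3] := by
    ext i
    fin_cases i <;> simp
  rw [e, h.nor_eq hS hF]
  congr 1
  ring

theorem At.sff00 (h : At F θ r x y a b c v z1 z2 z3) (hS : Sym F) (hF : IsSmooth F) :
    sff F (merS θ) (stdFrame θ r v) (stdFrame θ r v 0) (stdFrame θ r v 0) =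
      ((z1 * cr x y b c + z2 * cr y r c a + z3 * cr r x a b) / v ^ 2) •
        !₂[cr x y b c, 0, cr y r c a, cr r x a b] := by
  have hv := h.hv.ne'
  have h1 : D2 F (merS θ) (stdFrame θ r v 0) (stdFrame θ r v 0) =
      (v⁻¹ * v⁻¹) • !₂[z1, 0, z2, z3] := by
    show D2 F (mer θ) (v⁻¹ • tau θ) (v⁻¹ • tau θ) = _
    rw [IsSmooth.D2_smul_left, hF.D2_smul_right _ (mer_ne θ), h.d2, smul_smul]
  rw [sff, h1, h.nor_smul hS hF]
  congr 1
  field_simp

theorem At.sff11 (h : At F θ r x y a b c v z1 z2 z3) (hS : Sym F) (hF : IsSmooth F) :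
    sff F (merS θ) (stdFrame θ r v) (stdFrame θ r v 1) (stdFrame θ r v 1) =
      (-(cr x y b c / r)) • !₂[cr x y b c, 0, cr y r c a, cr r x a b] := by
  have hr := h.hr.ne'
  have h0 := hS.D2_eta hF θ
  rw [h.g, h.d1] at h0
  have h1 : D2 F (merS θ) (stdFrame θ r v 1) (stdFrame θ r v 1) =
      (r⁻¹ * r⁻¹) • !₂[-r + Real.sin θ * Real.cos θ * (v * a), 0,
        Real.sin θ * Real.cos θ * (v * b), Real.sin θ * Real.cos θ * (v * c)] := by
    show D2 F (mer θ) ((Real.sin θ / r) • eta1) ((Real.sin θ / r) • eta1) = _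
    rw [IsSmooth.D2_smul_left, hF.D2_smul_right _ (mer_ne θ), smul_smul]
    have : Real.sin θ / r * (Real.sin θ / r) = r⁻¹ * r⁻¹ * Real.sin θ ^ 2 := by
      field_simp
    rw [this, mul_smul, h0]
    congr 1
    ext i
    fin_cases i <;> simp
  rw [sff, h1, h.nor_smul hS hF]
  congr 1
  have := @cr_orth r x y a b c
  field_simp
  linear_combination (Real.sin θ * Real.cos θ * v) * this

theorem At.sff01 (h : At F θ r x y a b c v z1 z2 z3) (hS : Sym F) (hF : IsSmooth F) :
    sff F (merS θ) (stdFrame θ r v) (stdFrame θ r v 0) (stdFrame θ r v 1) = 0 := by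
  have hr := h.hr.ne'
  have hs := h.hs.ne'
  have h0 := hS.D2_mixed hF θ
  have h3 := hS.D_eta hF θ
  rw [h.g] at h3
  have h4 : D F (mer θ) eta1 = (Real.sin θ)⁻¹ • !₂[0, r, 0, 0] := by
    have : (!₂[0, r, 0, 0] : V) = Real.sin θ • D F (mer θ) eta1 := by
      rw [h3]
      ext i
      fin_cases i <;> simp
    rw [this, smul_smul, inv_mul_cancel₀ hs, one_smul]
  have h5 : ∃ w : ℝ, D2 F (mer θ) (tau θ) eta1 = !₂[0, w, 0, 0] := by
    refine ⟨(Real.sin θ)⁻¹ * (v * a - Real.cos θ * ((Real.sin θ)⁻¹ * r)), ?_⟩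
    rw [h4, h.d1] at h0
    have h6 : Real.sin θ • D2 F (mer θ) (tau θ) eta1 =
        !₂[0, v * a - Real.cos θ * ((Real.sin θ)⁻¹ * r), 0, 0] := by
      rw [← eq_sub_iff_add_eq] at h0
      rw [h0]
      ext i
      fin_cases i <;> simp
    have h7 : D2 F (mer θ) (tau θ) eta1 = (Real.sin θ)⁻¹ •
        (Real.sin θ • D2 F (mer θ) (tau θ) eta1) := by
      rw [smul_smul, inv_mul_cancel₀ hs, one_smul]
    rw [h7, h6]
    ext i
    fin_cases i <;> simp
  obtain ⟨w, hw⟩ := h5
  have h1 : D2 F (merS θ) (stdFrame θ r v 0) (stdFrame θ r v 1) =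
      (v⁻¹ * (Real.sin θ / r)) • !₂[0, w, 0, 0] := by
    show D2 F (mer θ) (v⁻¹ • tau θ) ((Real.sin θ / r) • eta1) = _
    rw [IsSmooth.D2_smul_left, hF.D2_smul_right _ (mer_ne θ), hw, smul_smul]
  rw [sff, h1, h.nor_smul hS hF]
  simp

theorem At.meanCurv_eq (h : At F θ r x y a b c v z1 z2 z3) (hS : Sym F) (hF : IsSmooth F) :
    meanCurv F (merS θ) (stdFrame θ r v) =
      ((z1 * cr x y b c + z2 * cr y r c a + z3 * cr r x a b) / v ^ 2 - cr x y b c / r) •
        !₂[cr x y b c, 0, cr y r c a, cr r x a b] := by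
  rw [meanCurv, Fin.sum_univ_two, h.sff00 hS hF, h.sff11 hS hF, ← add_smul, sub_eq_add_neg]

theorem At.gaussCurv_eq (h : At F θ r x y a b c v z1 z2 z3) (hS : Sym F) (hF : IsSmooth F) :
    gaussCurv F (merS θ) (stdFrame θ r v) =
      1 - (z1 * cr x y b c + z2 * cr y r c a + z3 * cr r x a b) * cr x y b c / (v ^ 2 * r) := by
  have hn := h.fr.nn
  have hv := h.hv.ne'
  have hr := h.hr.ne'
  rw [gaussCurv, h.sff00 hS hF, h.sff11 hS hF, h.sff01 hS hF, real_inner_smul_left,
    real_inner_smul_right, inner_four]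
  simp
  field_simp
  linear_combination (-(z1 * cr x y b c + z2 * cr y r c a + z3 * cr r x a b) * cr x y b c) * hn

end Pool.Agent.Helper608.SphMCF
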