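import Mathlib

/-! Smooth functions of `(t, θ)` on `[0, T) × ℝ` and their partial derivatives. -/

open Set Filter Topology
open scoped ContDiff

namespace Pool.Agent.Helper608.SphMCF

/-- The domain `[0, T) × ℝ`. -/
def Dom (T : ℝ) : Set (ℝ × ℝ) := Ico 0 T ×ˢ univ

/-- The open domain `(0, T) × ℝ`. -/
def Dop (T : ℝ) : Set (ℝ × ℝ) := Ioo 0 T ×ˢ univ

theorem Dop_sub (T : ℝ) : Dop T ⊆ Dom T := prod_mono Ioo_subset_Ico_self subset_rfl

theorem isOpen_Dop (T : ℝ) : IsOpen (Dop T) := isOpen_Ioo.prod isOpen_univ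

theorem uniqueDiffOn_Dom (T : ℝ) : UniqueDiffOn ℝ (Dom T) :=
  (uniqueDiffOn_Ico 0 T).prod uniqueDiffOn_univ

/-- The derivative in the second variable. -/
noncomputable def dth (f : ℝ × ℝ → ℝ) (q : ℝ × ℝ) : ℝ := deriv (fun s => f (q.1, s)) q.2

/-- The derivative in the first variable. -/
noncomputable def dti (f : ℝ × ℝ → ℝ) (q : ℝ × ℝ) : ℝ := deriv (fun s => f (s, q.2)) q.1

/-- Smooth functions on the domain. -/
def Sm (T : ℝ) (f : ℝ × ℝ → ℝ) : Prop := ContDiffOn ℝ ∞ f (Dom T)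

/-- Smooth functions on the open domain. -/
def SmO (T : ℝ) (f : ℝ × ℝ → ℝ) : Prop := ContDiffOn ℝ ∞ f (Dop T)

variable {T : ℝ} {f g : ℝ × ℝ → ℝ}

theorem Sm.smO (hf : Sm T f) : SmO T f := ContDiffOn.mono hf (Dop_sub T)

theorem hasDerivAt_snd (q : ℝ × ℝ) : HasDerivAt (fun s : ℝ => ((q.1, s) : ℝ × ℝ)) (0, 1) q.2 :=
  (hasDerivAt_const q.2 q.1).prodMk (hasDerivAt_id q.2)

theorem hasDerivAt_fst (q : ℝ × ℝ) : HasDerivAt (fun s : ℝ => ((s, q.2) : ℝ × ℝ)) (1, 0) q.1 :=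
  (hasDerivAt_id q.1).prodMk (hasDerivAt_const q.1 q.2)

theorem Sm.hasDerivAt_aux (hf : Sm T f) {q : ℝ × ℝ} (hq : q ∈ Dom T) :
    HasDerivAt (fun s => f (q.1, s)) (fderivWithin ℝ f (Dom T) q (0, 1)) q.2 := by
  have h1 : HasFDerivWithinAt f (fderivWithin ℝ f (Dom T) q) (Dom T) q :=
    ((hf.differentiableOn (by simp)) q hq).hasFDerivWithinAt
  have h2 := h1.comp_hasDerivWithinAt (t := Dom T) (s := univ) q.2
    (f := fun s : ℝ => ((q.1, s) : ℝ × ℝ)) (hasDerivAt_snd q).hasDerivWithinAt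
    (fun s _ => ⟨hq.1, mem_univ _⟩)
  rwa [hasDerivWithinAt_univ] at h2

theorem Sm.hasDerivAt (hf : Sm T f) {q : ℝ × ℝ} (hq : q ∈ Dom T) :
    HasDerivAt (fun s => f (q.1, s)) (dth f q) q.2 := by
  have h := hf.hasDerivAt_aux hq
  rw [dth, h.deriv]
  exact h

theorem Sm.dth (hf : Sm T f) : Sm T (dth f) := by
  have h1 : ContDiffOn ℝ ∞ (fderivWithin ℝ f (Dom T)) (Dom T) :=
    hf.fderivWithin (uniqueDiffOn_Dom T) (by simp)
  have h2 : ContDiffOn ℝ ∞ (fun q => fderivWithin ℝ f (Dom T) q (0, 1)) (Dom T) :=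
    h1.clm_apply contDiffOn_const
  exact h2.congr (fun q hq => (hf.hasDerivAt_aux hq).deriv)

theorem SmO.contDiffAt (hf : SmO T f) {q : ℝ × ℝ} (hq : q ∈ Dop T) : ContDiffAt ℝ ∞ f q :=
  ContDiffOn.contDiffAt hf ((isOpen_Dop T).mem_nhds hq)

theorem SmO.hasFDerivAt (hf : SmO T f) {q : ℝ × ℝ} (hq : q ∈ Dop T) :
    HasFDerivAt f (fderiv ℝ f q) q :=
  ((hf.contDiffAt hq).differentiableAt (by simp)).hasFDerivAt

theorem SmO.dth_eq (hf : SmO T f) {q : ℝ × ℝ} (hq : q ∈ Dop T) :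
    HasDerivAt (fun s => f (q.1, s)) (fderiv ℝ f q (0, 1)) q.2 :=
  (hf.hasFDerivAt hq).comp_hasDerivAt q.2 (hasDerivAt_snd q)

theorem SmO.dti_eq (hf : SmO T f) {q : ℝ × ℝ} (hq : q ∈ Dop T) :
    HasDerivAt (fun s => f (s, q.2)) (fderiv ℝ f q (1, 0)) q.1 :=
  (hf.hasFDerivAt hq).comp_hasDerivAt q.1 (hasDerivAt_fst q)

theorem SmO.hasDerivAt_th (hf : SmO T f) {q : ℝ × ℝ} (hq : q ∈ Dop T) :
    HasDerivAt (fun s => f (q.1, s)) (dth f q) q.2 := by
  have h := hf.dth_eq hq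
  rw [SphMCF.dth, h.deriv]
  exact h

theorem SmO.hasDerivAt_ti (hf : SmO T f) {q : ℝ × ℝ} (hq : q ∈ Dop T) :
    HasDerivAt (fun s => f (s, q.2)) (dti f q) q.1 := by
  have h := hf.dti_eq hq
  rw [dti, h.deriv]
  exact h

theorem SmO.fderiv_smooth (hf : SmO T f) : ContDiffOn ℝ ∞ (fderiv ℝ f) (Dop T) :=
  ContDiffOn.fderiv_of_isOpen hf (isOpen_Dop T) (by simp)

theorem SmO.dth (hf : SmO T f) : SmO T (dth f) := by
  have h2 : ContDiffOn ℝ ∞ (fun q => fderiv ℝ f q (0, 1)) (Dop T) :=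
    hf.fderiv_smooth.clm_apply contDiffOn_const
  exact h2.congr (fun q hq => (hf.dth_eq hq).deriv)

theorem SmO.dti (hf : SmO T f) : SmO T (dti f) := by
  have h2 : ContDiffOn ℝ ∞ (fun q => fderiv ℝ f q (1, 0)) (Dop T) :=
    hf.fderiv_smooth.clm_apply contDiffOn_const
  exact h2.congr (fun q hq => (hf.dti_eq hq).deriv)

theorem hasDerivAt_unique_congr {u w : ℝ → ℝ} {u' : ℝ} {s : ℝ} (h : HasDerivAt u u' s)
    (he : w =ᶠ[𝓝 s] u) : deriv w s = u' := by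
  rw [he.deriv_eq, h.deriv]

/-- The mixed partial derivatives commute. -/
theorem SmO.comm (hf : SmO T f) {q : ℝ × ℝ} (hq : q ∈ Dop T) :
    SphMCF.dti (SphMCF.dth f) q = SphMCF.dth (SphMCF.dti f) q := by
  have h1 : HasFDerivAt (fderiv ℝ f) (fderiv ℝ (fderiv ℝ f) q) q :=
    ((hf.fderiv_smooth.contDiffAt ((isOpen_Dop T).mem_nhds hq)).differentiableAt
      (by simp)).hasFDerivAt
  have hs : IsSymmSndFDerivAt ℝ f q := (hf.contDiffAt hq).isSymmSndFDerivAt (by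
    rw [minSmoothness_of_isRCLikeNormedField]
    exact WithTop.coe_le_coe.2 (le_top (a := (2 : ℕ∞))))
  -- time derivative of `dth f`
  have h2 : HasDerivAt (fun s => fderiv ℝ f (s, q.2) (0, 1))
      (fderiv ℝ (fderiv ℝ f) q (1, 0) (0, 1)) q.1 := by
    have h3 := h1.comp_hasDerivAt q.1 (hasDerivAt_fst q)
    have h4 := h3.clm_apply (hasDerivAt_const q.1 ((0, 1) : ℝ × ℝ))
    simpa using h4
  have h5 : HasDerivAt (fun s => fderiv ℝ f (q.1, s) (1, 0))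
      (fderiv ℝ (fderiv ℝ f) q (0, 1) (1, 0)) q.2 := by
    have h3 := h1.comp_hasDerivAt q.2 (hasDerivAt_snd q)
    have h4 := h3.clm_apply (hasDerivAt_const q.2 ((1, 0) : ℝ × ℝ))
    simpa using h4
  have e1 : SphMCF.dti (SphMCF.dth f) q = fderiv ℝ (fderiv ℝ f) q (1, 0) (0, 1) := by
    refine hasDerivAt_unique_congr h2 ?_
    filter_upwards [isOpen_Ioo.mem_nhds hq.1] with s hs
    exact (hf.dth_eq (q := (s, q.2)) ⟨hs, mem_univ _⟩).deriv
  have e2 : SphMCF.dth (SphMCF.dti f) q = fderiv ℝ (fderiv ℝ f) q (0, 1) (1, 0) := by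
    refine hasDerivAt_unique_congr h5 ?_
    exact Eventually.of_forall (fun s => (hf.dti_eq (q := (q.1, s)) ⟨hq.1, mem_univ _⟩).deriv)
  rw [e1, e2]
  exact hs (1, 0) (0, 1)

/-! ### Parametric integrals -/

theorem integral_continuousOn (hf : ContinuousOn f (Dom T)) :
    ContinuousOn (fun t => ∫ θ in (0 : ℝ)..Real.pi, f (t, θ)) (Ico 0 T) := by
  rw [continuousOn_iff_continuous_domRestrict]
  have h1 : Continuous (Function.uncurry (fun (t : Ico 0 T) (θ : ℝ) => f (t, θ))) := by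
    have h2 : Continuous (fun p : (Ico 0 T : Set ℝ) × ℝ => (((p.1 : ℝ), p.2) : ℝ × ℝ)) := by
      fun_prop
    exact hf.comp_continuous h2 (fun p => ⟨p.1.2, mem_univ _⟩)
  exact intervalIntegral.continuous_parametric_intervalIntegral_of_continuous' h1 0 Real.pi

theorem SmO.hasDerivAt_integral (hf : SmO T f) {t : ℝ} (ht : t ∈ Ioo 0 T) :
    HasDerivAt (fun t => ∫ θ in (0 : ℝ)..Real.pi, f (t, θ))
      (∫ θ in (0 : ℝ)..Real.pi, SphMCF.dti f (t, θ)) t := by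
  obtain ⟨δ, hδ, hsub⟩ : ∃ δ > 0, Icc (t - δ) (t + δ) ⊆ Ioo 0 T := by
    refine ⟨min t (T - t) / 2, ?_, ?_⟩
    · have := ht.1
      have := ht.2
      have : 0 < min t (T - t) := lt_min ht.1 (by linarith)
      linarith
    · intro s hs
      have h1 : 0 < min t (T - t) := lt_min ht.1 (by linarith [ht.2])
      have h2 : min t (T - t) ≤ t := min_le_left _ _
      have h3 : min t (T - t) ≤ T - t := min_le_right _ _
      exact ⟨by linarith [hs.1], by linarith [hs.2]⟩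
  have hcd : ContinuousOn (SphMCF.dti f) (Dop T) := ContDiffOn.continuousOn hf.dti
  have hcf : ContinuousOn f (Dop T) := ContDiffOn.continuousOn hf
  obtain ⟨C, hC⟩ : ∃ C, ∀ p ∈ Icc (t - δ) (t + δ) ×ˢ Icc 0 Real.pi, ‖SphMCF.dti f p‖ ≤ C :=
    (isCompact_Icc.prod isCompact_Icc).exists_bound_of_continuousOn
      (hcd.mono (prod_mono hsub (subset_univ _)))
  have hslice : ∀ s ∈ Ioo 0 T, Continuous (fun θ => f (s, θ)) := by
    intro s hs
    exact hcf.comp_continuous (by fun_prop) (fun θ => ⟨hs, mem_univ _⟩)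
  have hslice' : ∀ s ∈ Ioo 0 T, Continuous (fun θ => SphMCF.dti f (s, θ)) := by
    intro s hs
    exact hcd.comp_continuous (by fun_prop) (fun θ => ⟨hs, mem_univ _⟩)
  refine (intervalIntegral.hasDerivAt_integral_of_dominated_loc_of_deriv_le
    (F := fun s θ => f (s, θ)) (F' := fun s θ => SphMCF.dti f (s, θ)) (bound := fun _ => C)
    (s := Ioo (t - δ) (t + δ)) (Ioo_mem_nhds (by linarith) (by linarith)) ?_ ?_ ?_ ?_ ?_ ?_).2
  · filter_upwards [Ioo_mem_nhds ht.1 ht.2] with s hs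
    exact (hslice s hs).aestronglyMeasurable
  · exact (hslice t ht).intervalIntegrable _ _
  · exact (hslice' t ht).aestronglyMeasurable
  · refine Eventually.of_forall (fun θ hθ s hs => ?_)
    rw [uIoc_of_le Real.pi_pos.le] at hθ
    exact hC (s, θ) ⟨Ioo_subset_Icc_self hs, hθ.1.le, hθ.2⟩
  · exact intervalIntegrable_const
  · refine Eventually.of_forall (fun θ hθ s hs => ?_)
    exact hf.hasDerivAt_ti (q := (s, θ)) ⟨hsub (Ioo_subset_Icc_self hs), mem_univ _⟩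

end Pool.Agent.Helper608.SphMCF
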