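import Mathlib
import Pool.Agent.Helper608.KAlg
import Pool.Agent.Helper608.KPart

/-! The structure equations of an evolving profile curve. -/

open Set Filter Topology
open scoped ContDiff

namespace Pool.Agent.Helper608.SphMCF

/-- A smooth family of immersed curves in the unit sphere of `ℝ³`. -/
structure Prof (T : ℝ) where
  r : ℝ × ℝ → ℝ
  x : ℝ × ℝ → ℝ
  y : ℝ × ℝ → ℝ
  hr : Sm T r
  hx : Sm T x
  hy : Sm T y
  sph : ∀ q ∈ Dom T, r q ^ 2 + x q ^ 2 + y q ^ 2 = 1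
  imm : ∀ q ∈ Dom T, 0 < dth r q ^ 2 + dth x q ^ 2 + dth y q ^ 2

namespace Prof

variable {T : ℝ} (P : Prof T)

/-- Speed. -/
noncomputable def v (q : ℝ × ℝ) : ℝ := √(dth P.r q ^ 2 + dth P.x q ^ 2 + dth P.y q ^ 2)
/-- Unit tangent. -/
noncomputable def a (q : ℝ × ℝ) : ℝ := dth P.r q / P.v q
/-- Unit tangent. -/
noncomputable def b (q : ℝ × ℝ) : ℝ := dth P.x q / P.v q
/-- Unit tangent. -/
noncomputable def c (q : ℝ × ℝ) : ℝ := dth P.y q / P.v q
/-- Unit normal. -/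
noncomputable def n1 (q : ℝ × ℝ) : ℝ := cr (P.x q) (P.y q) (P.b q) (P.c q)
/-- Unit normal. -/
noncomputable def n2 (q : ℝ × ℝ) : ℝ := cr (P.y q) (P.r q) (P.c q) (P.a q)
/-- Unit normal. -/
noncomputable def n3 (q : ℝ × ℝ) : ℝ := cr (P.r q) (P.x q) (P.a q) (P.b q)
/-- Curvature times speed. -/
noncomputable def k (q : ℝ × ℝ) : ℝ :=
  dth P.a q * P.n1 q + dth P.b q * P.n2 q + dth P.c q * P.n3 q
/-- Normal velocity. -/
noncomputable def h (q : ℝ × ℝ) : ℝ :=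
  dti P.r q * P.n1 q + dti P.x q * P.n2 q + dti P.y q * P.n3 q

variable {P}

theorem v_pos {q : ℝ × ℝ} (hq : q ∈ Dom T) : 0 < P.v q := Real.sqrt_pos.2 (P.imm q hq)

theorem v_sq {q : ℝ × ℝ} (hq : q ∈ Dom T) :
    P.v q ^ 2 = dth P.r q ^ 2 + dth P.x q ^ 2 + dth P.y q ^ 2 := Real.sq_sqrt (P.imm q hq).le

theorem sm_v : Sm T P.v :=
  (((P.hr.dth.pow 2).add (P.hx.dth.pow 2)).add (P.hy.dth.pow 2)).sqrt
    (fun q hq => (P.imm q hq).ne')

theorem sm_a : Sm T P.a := P.hr.dth.div sm_v (fun _ hq => (v_pos hq).ne')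
theorem sm_b : Sm T P.b := P.hx.dth.div sm_v (fun _ hq => (v_pos hq).ne')
theorem sm_c : Sm T P.c := P.hy.dth.div sm_v (fun _ hq => (v_pos hq).ne')

theorem sm_n1 : Sm T P.n1 := (sm_b.mul P.hy).sub (sm_c.mul P.hx)
theorem sm_n2 : Sm T P.n2 := (sm_c.mul P.hr).sub (sm_a.mul P.hy)
theorem sm_n3 : Sm T P.n3 := (sm_a.mul P.hx).sub (sm_b.mul P.hr)

theorem sm_k : Sm T P.k :=
  ((sm_a.dth.mul sm_n1).add (sm_b.dth.mul sm_n2)).add (sm_c.dth.mul sm_n3)

theorem smO_h : SmO T P.h :=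
  ((P.hr.smO.dti.mul sm_n1.smO).add (P.hx.smO.dti.mul sm_n2.smO)).add
    (P.hy.smO.dti.mul sm_n3.smO)

theorem dr_eq {q : ℝ × ℝ} (hq : q ∈ Dom T) : dth P.r q = P.v q * P.a q := by
  rw [a, mul_div_cancel₀ _ (v_pos hq).ne']
theorem dx_eq {q : ℝ × ℝ} (hq : q ∈ Dom T) : dth P.x q = P.v q * P.b q := by
  rw [b, mul_div_cancel₀ _ (v_pos hq).ne']
theorem dy_eq {q : ℝ × ℝ} (hq : q ∈ Dom T) : dth P.y q = P.v q * P.c q := by
  rw [c, mul_div_cancel₀ _ (v_pos hq).ne']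

theorem mem_slice {q : ℝ × ℝ} (hq : q ∈ Dom T) (s : ℝ) : (q.1, s) ∈ Dom T := ⟨hq.1, mem_univ _⟩

/-- The derivative of a function which is constant along a slice vanishes. -/
theorem deriv_const_zero {u : ℝ → ℝ} {u' s C : ℝ} (hu : HasDerivAt u u' s) (hc : ∀ s, u s = C) :
    u' = 0 := by
  have h1 : u = fun _ => C := funext hc
  rw [h1] at hu
  exact hu.unique (hasDerivAt_const s C)

theorem abc_sq {q : ℝ × ℝ} (hq : q ∈ Dom T) : P.a q ^ 2 + P.b q ^ 2 + P.c q ^ 2 = 1 := by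
  have h1 := v_sq (P := P) hq
  rw [dr_eq hq, dx_eq hq, dy_eq hq] at h1
  have h2 := v_pos (P := P) hq
  have h3 : P.v q ^ 2 * (P.a q ^ 2 + P.b q ^ 2 + P.c q ^ 2 - 1) = 0 := by linear_combination -h1
  have h4 : P.a q ^ 2 + P.b q ^ 2 + P.c q ^ 2 - 1 = 0 :=
    (mul_eq_zero.1 h3).resolve_left (by positivity)
  linarith

theorem g_t {q : ℝ × ℝ} (hq : q ∈ Dom T) : P.r q * P.a q + P.x q * P.b q + P.y q * P.c q = 0 := by
  have h1 := (((P.hr.hasDerivAt hq).fun_pow 2).add ((P.hx.hasDerivAt hq).fun_pow 2)).add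
    ((P.hy.hasDerivAt hq).fun_pow 2)
  have h2 := deriv_const_zero h1 (C := 1) (fun s => P.sph (q.1, s) (mem_slice hq s))
  have e21 : (2 : ℕ) - 1 = 1 := rfl
  rw [e21, dr_eq hq, dx_eq hq, dy_eq hq] at h2
  push_cast at h2
  have h3 := v_pos (P := P) hq
  have h4 : P.v q * (P.r q * P.a q + P.x q * P.b q + P.y q * P.c q) = 0 := by
    linear_combination h2 / 2
  exact (mul_eq_zero.1 h4).resolve_left h3.ne'

theorem fr {q : ℝ × ℝ} (hq : q ∈ Dom T) : Fr (P.r q) (P.x q) (P.y q) (P.a q) (P.b q) (P.c q) :=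
  ⟨P.sph q hq, abc_sq hq, g_t hq⟩

theorem th_orth {q : ℝ × ℝ} (hq : q ∈ Dom T) :
    P.a q * dth P.a q + P.b q * dth P.b q + P.c q * dth P.c q = 0 := by
  have h1 := (((sm_a (P := P)).hasDerivAt hq).fun_pow 2).add
    (((sm_b (P := P)).hasDerivAt hq).fun_pow 2) |>.add (((sm_c (P := P)).hasDerivAt hq).fun_pow 2)
  have h2 := deriv_const_zero h1 (C := 1) (fun s => abc_sq (mem_slice hq s))
  have e21 : (2 : ℕ) - 1 = 1 := rfl
  rw [e21] at h2
  push_cast at h2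
  linear_combination h2 / 2

theorem th_g {q : ℝ × ℝ} (hq : q ∈ Dom T) :
    P.r q * dth P.a q + P.x q * dth P.b q + P.y q * dth P.c q = - P.v q := by
  have h1 := (((P.hr.hasDerivAt hq).mul ((sm_a (P := P)).hasDerivAt hq)).add
    ((P.hx.hasDerivAt hq).mul ((sm_b (P := P)).hasDerivAt hq))).add
    ((P.hy.hasDerivAt hq).mul ((sm_c (P := P)).hasDerivAt hq))
  have h2 := deriv_const_zero h1 (C := 0) (fun s => g_t (mem_slice hq s))
  rw [dr_eq hq, dx_eq hq, dy_eq hq] at h2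
  linear_combination h2 - P.v q * abc_sq hq

theorem da_eq {q : ℝ × ℝ} (hq : q ∈ Dom T) : dth P.a q = -P.v q * P.r q + P.k q * P.n1 q := by
  have h1 := (fr (P := P) hq).expand (dth P.a q) (dth P.b q) (dth P.c q)
  have h2 := th_orth (P := P) hq
  have h3 := th_g (P := P) hq
  rw [k, n1, n2, n3]
  linear_combination h1 + P.a q * h2 + P.r q * h3

theorem db_eq {q : ℝ × ℝ} (hq : q ∈ Dom T) : dth P.b q = -P.v q * P.x q + P.k q * P.n2 q := by
  have h1 := (fr (P := P) hq).rot.expand (dth P.b q) (dth P.c q) (dth P.a q)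
  have h2 := th_orth (P := P) hq
  have h3 := th_g (P := P) hq
  rw [k, n1, n2, n3]
  linear_combination h1 + P.b q * h2 + P.x q * h3

theorem dc_eq {q : ℝ × ℝ} (hq : q ∈ Dom T) : dth P.c q = -P.v q * P.y q + P.k q * P.n3 q := by
  have h1 := (fr (P := P) hq).rot.rot.expand (dth P.c q) (dth P.a q) (dth P.b q)
  have h2 := th_orth (P := P) hq
  have h3 := th_g (P := P) hq
  rw [k, n1, n2, n3]
  linear_combination h1 + P.c q * h2 + P.y q * h3

theorem dn1_eq {q : ℝ × ℝ} (hq : q ∈ Dom T) : dth P.n1 q = -P.k q * P.a q := by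
  have h1 := (((sm_b (P := P)).hasDerivAt hq).mul (P.hy.hasDerivAt hq)).sub
    (((sm_c (P := P)).hasDerivAt hq).mul (P.hx.hasDerivAt hq))
  have h2 : dth P.n1 q = _ := h1.deriv
  have h3 := (fr (P := P) hq).n_cross_g
  rw [h2, dx_eq hq, dy_eq hq, db_eq hq, dc_eq hq]
  simp only [Prod.mk.eta]
  rw [← n2, ← n3] at h3
  linear_combination P.k q * h3

theorem dn3_eq {q : ℝ × ℝ} (hq : q ∈ Dom T) : dth P.n3 q = -P.k q * P.c q := by
  have h1 := (((sm_a (P := P)).hasDerivAt hq).mul (P.hx.hasDerivAt hq)).sub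
    (((sm_b (P := P)).hasDerivAt hq).mul (P.hr.hasDerivAt hq))
  have h2 : dth P.n3 q = _ := h1.deriv
  have h3 := (fr (P := P) hq).rot.rot.n_cross_g
  rw [h2, dx_eq hq, dr_eq hq, db_eq hq, da_eq hq]
  simp only [Prod.mk.eta]
  rw [← n2, ← n1] at h3
  linear_combination P.k q * h3

/-- The open strip. -/
def _root_.Pool.Agent.Helper608.SphMCF.Str (T : ℝ) : Set (ℝ × ℝ) := Ioo 0 T ×ˢ Ioo 0 Real.pi

theorem str_sub {q : ℝ × ℝ} (hq : q ∈ Str T) : q ∈ Dop T := ⟨hq.1, mem_univ _⟩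
theorem str_dom {q : ℝ × ℝ} (hq : q ∈ Str T) : q ∈ Dom T := Dop_sub T (str_sub hq)

/-- The evolution by mean curvature of a profile curve. -/
structure IsFlow (P : Prof T) : Prop where
  rpos : ∀ q ∈ Dom T, 0 < q.2 → q.2 < Real.pi → 0 < P.r q
  r0 : ∀ t ∈ Ico 0 T, P.r (t, 0) = 0
  rpi : ∀ t ∈ Ico 0 T, P.r (t, Real.pi) = 0
  e1 : ∀ q ∈ Str T, dti P.r q = P.h q * P.n1 q
  e2 : ∀ q ∈ Str T, dti P.x q = P.h q * P.n2 q
  e3 : ∀ q ∈ Str T, dti P.y q = P.h q * P.n3 q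
  ek : ∀ q ∈ Str T, P.r q * P.k q = P.v q * (P.h q * P.r q + P.n1 q)

theorem hasDerivAt_prod {f g : ℝ × ℝ → ℝ} (hf : SmO T f) (hg : SmO T g) {q : ℝ × ℝ}
    (hq : q ∈ Dop T) : HasDerivAt (fun s => f (q.1, s) * g (q.1, s))
      (dth f q * g q + f q * dth g q) q.2 :=
  (hf.hasDerivAt_th hq).mul (hg.hasDerivAt_th hq)

/-- Congruence for `dth` on the strip. -/
theorem dth_congr {f g : ℝ × ℝ → ℝ} (h : ∀ q ∈ Str T, f q = g q) {q : ℝ × ℝ} (hq : q ∈ Str T) :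
    dth f q = dth g q := by
  have : (fun s => f (q.1, s)) =ᶠ[𝓝 q.2] fun s => g (q.1, s) := by
    filter_upwards [isOpen_Ioo.mem_nhds hq.2] with s hs
    exact h (q.1, s) ⟨hq.1, hs⟩
  exact this.deriv_eq

theorem ti_orth {q : ℝ × ℝ} (hq : q ∈ Dop T) :
    P.a q * dti P.a q + P.b q * dti P.b q + P.c q * dti P.c q = 0 := by
  have h1 := (((sm_a (P := P)).smO.hasDerivAt_ti hq).fun_pow 2).add
    (((sm_b (P := P)).smO.hasDerivAt_ti hq).fun_pow 2) |>.add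
    (((sm_c (P := P)).smO.hasDerivAt_ti hq).fun_pow 2)
  have h2 : HasDerivAt (fun s => P.a (s, q.2) ^ 2 + P.b (s, q.2) ^ 2 + P.c (s, q.2) ^ 2) 0 q.1 := by
    refine (hasDerivAt_const q.1 (1 : ℝ)).congr_of_eventuallyEq ?_
    filter_upwards [isOpen_Ioo.mem_nhds hq.1] with s hs
    exact abc_sq (Dop_sub T ⟨hs, mem_univ _⟩)
  have h3 := h1.unique h2
  have e21 : (2 : ℕ) - 1 = 1 := rfl
  rw [e21] at h3
  push_cast at h3
  linear_combination h3 / 2

/-- The product rule for the time derivative of `dth f = v * g`. -/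
theorem ti_prod {f g : ℝ × ℝ → ℝ} (hg : SmO T g)
    (hfg : ∀ q ∈ Dom T, dth f q = P.v q * g q) {q : ℝ × ℝ} (hq : q ∈ Dop T) :
    dti (dth f) q = dti P.v q * g q + P.v q * dti g q := by
  have h1 := ((sm_v (P := P)).smO.hasDerivAt_ti hq).mul (hg.hasDerivAt_ti hq)
  have h2 : (fun s => dth f (s, q.2)) =ᶠ[𝓝 q.1] fun s => P.v (s, q.2) * g (s, q.2) := by
    filter_upwards [isOpen_Ioo.mem_nhds hq.1] with s hs
    exact hfg _ (Dop_sub T ⟨hs, mem_univ _⟩)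
  exact (h1.congr_of_eventuallyEq h2).deriv

theorem dn2_eq {q : ℝ × ℝ} (hq : q ∈ Dom T) : dth P.n2 q = -P.k q * P.b q := by
  have h1 := (((sm_c (P := P)).hasDerivAt hq).mul (P.hr.hasDerivAt hq)).sub
    (((sm_a (P := P)).hasDerivAt hq).mul (P.hy.hasDerivAt hq))
  have h2 : dth P.n2 q = _ := h1.deriv
  have h3 := (fr (P := P) hq).rot.n_cross_g
  rw [h2, dr_eq hq, dy_eq hq, da_eq hq, dc_eq hq]
  simp only [Prod.mk.eta]
  rw [← n1, ← n3] at h3
  linear_combination P.k q * h3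

section Flow

variable (hP : P.IsFlow)
include hP

theorem mixed {f n : ℝ × ℝ → ℝ} (hf : Sm T f) (hn : Sm T n)
    (he : ∀ q ∈ Str T, dti f q = P.h q * n q) {q : ℝ × ℝ} (hq : q ∈ Str T) :
    dti (dth f) q = dth P.h q * n q + P.h q * dth n q := by
  have hq' := str_sub hq
  rw [hf.smO.comm hq', dth_congr he hq]
  exact (hasDerivAt_prod (smO_h (P := P)) hn.smO hq').deriv

theorem sys {q : ℝ × ℝ} (hq : q ∈ Str T) :
    dti P.v q = -P.h q * P.k q ∧
    P.v q * dti P.a q = dth P.h q * P.n1 q ∧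
    P.v q * dti P.b q = dth P.h q * P.n2 q ∧
    P.v q * dti P.c q = dth P.h q * P.n3 q := by
  have hq' := str_sub hq
  have hq'' := str_dom hq
  have m1 := mixed hP P.hr sm_n1 hP.e1 hq
  have m2 := mixed hP P.hx sm_n2 hP.e2 hq
  have m3 := mixed hP P.hy sm_n3 hP.e3 hq
  rw [ti_prod (P := P) sm_a.smO (fun q hq => dr_eq hq) hq', dn1_eq hq''] at m1
  rw [ti_prod (P := P) sm_b.smO (fun q hq => dx_eq hq) hq', dn2_eq hq''] at m2
  rw [ti_prod (P := P) sm_c.smO (fun q hq => dy_eq hq) hq', dn3_eq hq''] at m3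
  have o1 := ti_orth (P := P) hq'
  have o2 := abc_sq (P := P) hq''
  have o3 : P.a q * P.n1 q + P.b q * P.n2 q + P.c q * P.n3 q = 0 := cr_orth
  have hv : dti P.v q = -P.h q * P.k q := by
    linear_combination P.a q * m1 + P.b q * m2 + P.c q * m3 - P.v q * o1 +
      dth P.h q * o3 - (P.h q * P.k q + dti P.v q) * o2
  refine ⟨hv, ?_, ?_, ?_⟩
  · linear_combination m1 - P.a q * hv
  · linear_combination m2 - P.b q * hv
  · linear_combination m3 - P.c q * hv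

theorem dti_n1 {q : ℝ × ℝ} (hq : q ∈ Str T) :
    P.v q * dti P.n1 q = -dth P.h q * P.a q - P.v q * P.h q * P.r q := by
  have hq' := str_sub hq
  have hq'' := str_dom hq
  obtain ⟨-, s1, s2, s3⟩ := sys hP hq
  have h1 := (((sm_b (P := P)).smO.hasDerivAt_ti hq').mul (P.hy.smO.hasDerivAt_ti hq')).sub
    (((sm_c (P := P)).smO.hasDerivAt_ti hq').mul (P.hx.smO.hasDerivAt_ti hq'))
  have h2 : dti P.n1 q = _ := h1.deriv
  simp only [Prod.mk.eta] at h2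
  have h3 := (fr (P := P) hq'').n_cross_g
  have h4 := (fr (P := P) hq'').t_cross_n
  rw [← n2, ← n3] at h3 h4
  rw [h2, hP.e2 q hq, hP.e3 q hq]
  linear_combination P.y q * s2 - P.x q * s3 + dth P.h q * h3 + P.v q * P.h q * h4

theorem dti_n3 {q : ℝ × ℝ} (hq : q ∈ Str T) :
    P.v q * dti P.n3 q = -dth P.h q * P.c q - P.v q * P.h q * P.y q := by
  have hq' := str_sub hq
  have hq'' := str_dom hq
  obtain ⟨-, s1, s2, s3⟩ := sys hP hq
  have h1 := (((sm_a (P := P)).smO.hasDerivAt_ti hq').mul (P.hx.smO.hasDerivAt_ti hq')).sub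
    (((sm_b (P := P)).smO.hasDerivAt_ti hq').mul (P.hr.smO.hasDerivAt_ti hq'))
  have h2 : dti P.n3 q = _ := h1.deriv
  simp only [Prod.mk.eta] at h2
  have h3 := (fr (P := P) hq'').rot.rot.n_cross_g
  have h4 := (fr (P := P) hq'').rot.rot.t_cross_n
  rw [← n1, ← n2] at h3 h4
  rw [h2, hP.e1 q hq, hP.e2 q hq]
  linear_combination P.x q * s1 - P.r q * s2 + dth P.h q * h3 + P.v q * P.h q * h4

end Flow

end Prof

end Pool.Agent.Helper608.SphMCF
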