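import Mathlib
import Pool.Agent.Helper608.KProf

/-! The area, excess and turning functionals of an evolving profile curve. -/

open Set Filter Topology
open scoped ContDiff

namespace Pool.Agent.Helper608.SphMCF

namespace Prof

variable {T : ℝ} (P : Prof T)

/-- `1 - y²`. -/
noncomputable def s (q : ℝ × ℝ) : ℝ := P.n3 q ^ 2 + P.c q ^ 2
/-- The square of the sine of the tangent angle. -/
noncomputable def g (q : ℝ × ℝ) : ℝ := P.c q ^ 2 / P.s q
/-- The spatial component of the closed form. -/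
noncomputable def om (q : ℝ × ℝ) : ℝ :=
  P.c q ^ 2 * (P.n3 q * dth P.c q - P.c q * dth P.n3 q) / P.s q ^ 2
/-- The time component of the closed form. -/
noncomputable def omt (q : ℝ × ℝ) : ℝ :=
  P.c q ^ 2 * (P.n3 q * dti P.c q - P.c q * dti P.n3 q) / P.s q ^ 2
/-- Area density. -/
noncomputable def fA (q : ℝ × ℝ) : ℝ := P.r q * P.v q
/-- Energy density. -/
noncomputable def fD (q : ℝ × ℝ) : ℝ := P.h q ^ 2 * (P.r q * P.v q)
/-- Excess density. -/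
noncomputable def fE (q : ℝ × ℝ) : ℝ := (1 - P.n3 q) * (P.r q * P.v q)
/-- Turning density. -/
noncomputable def fQ (q : ℝ × ℝ) : ℝ := P.r q ^ 3 * P.om q

variable {P}

theorem s_eq {q : ℝ × ℝ} (hq : q ∈ Dom T) : P.s q = 1 - P.y q ^ 2 := by
  have h := (fr (P := P) hq).yy
  rw [← n3] at h
  rw [s]
  linarith

theorem s_pos {q : ℝ × ℝ} (hq : q ∈ Dom T) (hy : |P.y q| ≤ 1 / 10) : 0 < P.s q := by
  rw [s_eq hq]
  nlinarith [abs_nonneg (P.y q), sq_abs (P.y q)]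

theorem s_lower {q : ℝ × ℝ} (hq : q ∈ Dom T) (hy : |P.y q| ≤ 1 / 10) : 99 / 100 ≤ P.s q := by
  rw [s_eq hq]
  nlinarith [abs_nonneg (P.y q), sq_abs (P.y q)]

section

variable (hy : ∀ q ∈ Dom T, |P.y q| ≤ 1 / 10)
include hy

theorem sm_s : Sm T P.s := (sm_n3.pow 2).add (sm_c.pow 2)

theorem sm_g : Sm T P.g := (sm_c.pow 2).div (sm_s hy) (fun _ hq => (s_pos hq (hy _ hq)).ne')

theorem sm_om : Sm T P.om :=
  ((sm_c.pow 2).mul ((sm_n3.mul sm_c.dth).sub (sm_c.mul sm_n3.dth))).div ((sm_s hy).pow 2)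
    (fun _ hq => pow_ne_zero _ (s_pos hq (hy _ hq)).ne')

theorem smO_omt : SmO T P.omt :=
  ((sm_c.smO.pow 2).mul ((sm_n3.smO.mul sm_c.smO.dti).sub (sm_c.smO.mul sm_n3.smO.dti))).div
    ((sm_s hy).smO.pow 2)
    (fun _ hq => pow_ne_zero _ (s_pos (Dop_sub T hq) (hy _ (Dop_sub T hq))).ne')

end

theorem sm_fA : Sm T P.fA := P.hr.mul sm_v
theorem sm_fE : Sm T P.fE := (contDiffOn_const.sub sm_n3).mul (P.hr.mul sm_v)
theorem smO_fD : SmO T P.fD := (smO_h.pow 2).mul (P.hr.smO.mul sm_v.smO)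

theorem hasDerivAt_form {Pf Pg Pa Pb : ℝ → ℝ} {f' g' a' b' t : ℝ} (hf : HasDerivAt Pf f' t)
    (hg : HasDerivAt Pg g' t) (ha : HasDerivAt Pa a' t) (hb : HasDerivAt Pb b' t)
    (h0 : Pf t ^ 2 + Pg t ^ 2 ≠ 0) :
    HasDerivAt (fun t => Pg t ^ 2 * (Pf t * Pb t - Pg t * Pa t) / (Pf t ^ 2 + Pg t ^ 2) ^ 2)
      ((2 * Pg t * g' * (Pf t * Pb t - Pg t * Pa t) +
        Pg t ^ 2 * (f' * Pb t + Pf t * b' - g' * Pa t - Pg t * a')) / (Pf t ^ 2 + Pg t ^ 2) ^ 2 -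
        4 * Pg t ^ 2 * (Pf t * Pb t - Pg t * Pa t) * (Pf t * f' + Pg t * g') /
          (Pf t ^ 2 + Pg t ^ 2) ^ 3) t := by
  have h1 := ((hg.fun_pow 2).mul ((hf.mul hb).sub (hg.mul ha))).div
    (((hf.fun_pow 2).add (hg.fun_pow 2)).fun_pow 2) (pow_ne_zero 2 h0)
  refine h1.congr_deriv ?_
  have e21 : (2 : ℕ) - 1 = 1 := rfl
  simp only [Pi.mul_apply, Pi.sub_apply, Pi.add_apply, e21]
  push_cast
  field_simp
  ring

/-- The form is closed. -/
theorem closed (hy : ∀ q ∈ Dom T, |P.y q| ≤ 1 / 10) {q : ℝ × ℝ} (hq : q ∈ Dop T) :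
    dti P.om q = dth P.omt q := by
  have hq' := Dop_sub T hq
  have h0 : P.n3 q ^ 2 + P.c q ^ 2 ≠ 0 := (s_pos hq' (hy q hq')).ne'
  have k1 := (sm_n3 (P := P)).smO
  have k2 := (sm_c (P := P)).smO
  have h1 := hasDerivAt_form (k1.hasDerivAt_ti hq) (k2.hasDerivAt_ti hq)
    (k1.dth.hasDerivAt_ti hq) (k2.dth.hasDerivAt_ti hq) h0
  have h2 := hasDerivAt_form (k1.hasDerivAt_th hq) (k2.hasDerivAt_th hq)
    (k1.dti.hasDerivAt_th hq) (k2.dti.hasDerivAt_th hq) h0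
  have h3 : dti P.om q = _ := h1.deriv
  have h4 : dth P.omt q = _ := h2.deriv
  simp only [Prod.mk.eta] at h3 h4
  rw [h3, h4, k1.comm hq, k2.comm hq]
  field_simp
  ring

section Flow

variable (hP : P.IsFlow)
include hP

theorem dti_fA {q : ℝ × ℝ} (hq : q ∈ Str T) : dti P.fA q = -P.fD q := by
  have hq' := str_sub hq
  have h1 := (P.hr.smO.hasDerivAt_ti hq').mul ((sm_v (P := P)).smO.hasDerivAt_ti hq')
  have h2 : dti P.fA q = _ := h1.deriv
  simp only [Prod.mk.eta] at h2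
  obtain ⟨s0, -, -, -⟩ := sys hP hq
  rw [h2, hP.e1 q hq, s0, fD]
  linear_combination -P.h q * hP.ek q hq

theorem dti_fE {q : ℝ × ℝ} (hq : q ∈ Str T) :
    dti P.fE q = -P.fD q + 3 * P.h q * P.y q * (P.r q * P.v q) +
      dth (fun q => P.h q * P.c q * P.r q) q := by
  have hq' := str_sub hq
  have hq'' := str_dom hq
  have h1 := (((sm_n3 (P := P)).smO.hasDerivAt_ti hq').const_sub 1).mul
    ((sm_fA (P := P)).smO.hasDerivAt_ti hq')
  have h2 : dti P.fE q = _ := h1.deriv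
  have h3 := (((smO_h (P := P)).hasDerivAt_th hq').mul ((sm_c (P := P)).smO.hasDerivAt_th hq')).mul
    (P.hr.smO.hasDerivAt_th hq')
  have h4 : dth (fun q => P.h q * P.c q * P.r q) q = _ := h3.deriv
  simp only [Prod.mk.eta] at h2
  simp only [Prod.mk.eta, Pi.mul_apply] at h4
  have h5 := dti_n3 hP hq
  have h6 := (fr (P := P) hq'').ry
  rw [← n1, ← n3] at h6
  rw [h2, h4, dti_fA hP hq, dr_eq hq'', dc_eq hq'', fD, fA]
  linear_combination -P.r q * h5 - P.h q * P.v q * h6 - P.h q * P.n3 q * hP.ek q hq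

/-- The factor in the evolution of the turning. -/
noncomputable def _root_.Pool.Agent.Helper608.SphMCF.Prof.Z {T : ℝ} (P : Prof T)
    (q : ℝ × ℝ) : ℝ :=
  3 * P.r q ^ 2 * P.n1 q * P.g q * P.k q +
  3 * P.r q ^ 3 * (P.c q ^ 2 / P.s q ^ 2) * P.v q * P.y q ^ 2 +
  6 * P.r q * P.v q * P.a q ^ 2 * P.g q +
  3 * P.r q ^ 2 * P.a q * (2 * P.c q * P.n3 q * P.k q / P.s q -
    2 * P.v q * P.y q * P.c q * P.n3 q ^ 2 / P.s q ^ 2) +
  3 * P.r q ^ 2 * P.g q * (-P.v q * P.r q + P.k q * P.n1 q)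

omit hP in
theorem dth_g (hy : ∀ q ∈ Dom T, |P.y q| ≤ 1 / 10) {q : ℝ × ℝ} (hq : q ∈ Dom T) :
    HasDerivAt (fun s => P.g (q.1, s)) (2 * P.c q * P.n3 q * P.k q / P.s q -
    2 * P.v q * P.y q * P.c q * P.n3 q ^ 2 / P.s q ^ 2) q.2 := by
  have h0 : P.n3 q ^ 2 + P.c q ^ 2 ≠ 0 := (s_pos hq (hy q hq)).ne'
  have h1 := (((sm_c (P := P)).hasDerivAt hq).fun_pow 2).div
    ((((sm_n3 (P := P)).hasDerivAt hq).fun_pow 2).add (((sm_c (P := P)).hasDerivAt hq).fun_pow 2))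
    h0
  refine h1.congr_deriv ?_
  have e21 : (2 : ℕ) - 1 = 1 := rfl
  simp only [Pi.add_apply, e21, Prod.mk.eta]
  rw [dc_eq hq, dn3_eq hq, s]
  push_cast
  field_simp
  ring

theorem dti_fQ (hy : ∀ q ∈ Dom T, |P.y q| ≤ 1 / 10) {q : ℝ × ℝ} (hq : q ∈ Str T) :
    dti P.fQ q = dth (fun q => P.r q ^ 3 * P.omt q - 3 * P.r q ^ 2 * P.g q * P.a q * P.h q) q +
      P.h q * P.Z q := by
  have hq' := str_sub hq
  have hq'' := str_dom hq
  have hs := s_pos hq'' (hy q hq'')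
  have h1 := ((P.hr.smO.hasDerivAt_ti hq').fun_pow 3).mul ((sm_om hy).smO.hasDerivAt_ti hq')
  have h2 : dti P.fQ q = _ := h1.deriv
  have h3 := (((P.hr.smO.hasDerivAt_th hq').fun_pow 3).mul ((smO_omt hy).hasDerivAt_th hq')).sub
    ((((((P.hr.smO.hasDerivAt_th hq').fun_pow 2).const_mul 3).mul (dth_g hy hq'')).mul
      ((sm_a (P := P)).smO.hasDerivAt_th hq')).mul ((smO_h (P := P)).hasDerivAt_th hq'))
  have h4 : dth (fun q => P.r q ^ 3 * P.omt q - 3 * P.r q ^ 2 * P.g q * P.a q * P.h q) q = _ :=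
    h3.deriv
  simp only [Prod.mk.eta] at h2
  simp only [Prod.mk.eta, Pi.mul_apply] at h4
  have e31 : (3 : ℕ) - 1 = 2 := rfl
  have e21 : (2 : ℕ) - 1 = 1 := rfl
  rw [e31] at h2
  rw [e31, e21] at h4
  rw [h2, h4, closed hy hq', hP.e1 q hq, dr_eq hq'', da_eq hq'']
  push_cast
  have hry := (fr (P := P) hq'').ry
  rw [← n1, ← n3] at hry
  -- the two components of the form
  have hom : P.om q = P.g q * P.k q - P.c q ^ 2 / P.s q ^ 2 * (P.v q * P.y q * P.n3 q) := by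
    rw [om, dc_eq hq'', dn3_eq hq'', g]
    have : P.n3 q ^ 2 = P.s q - P.c q ^ 2 := by rw [s]; ring
    field_simp
    linear_combination (P.c q ^ 2 * P.k q) * this
  have homt : P.v q * P.omt q =
      P.g q * dth P.h q + P.c q ^ 2 / P.s q ^ 2 * (P.v q * P.h q * P.c q * P.y q) := by
    obtain ⟨-, -, -, s3⟩ := sys hP hq
    have s4 := dti_n3 hP hq
    have e : P.n3 q * (P.v q * dti P.c q) - P.c q * (P.v q * dti P.n3 q) =
        P.s q * dth P.h q + P.v q * P.h q * P.c q * P.y q := by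
      rw [s3, s4, s]
      ring
    have e2 : P.v q * P.omt q = P.c q ^ 2 *
        (P.n3 q * (P.v q * dti P.c q) - P.c q * (P.v q * dti P.n3 q)) / P.s q ^ 2 := by
      rw [omt]
      ring
    rw [e2, e, g]
    field_simp
  rw [hom, Z]
  linear_combination (-3 * P.r q ^ 2 * P.a q) * homt -
    3 * P.r q ^ 2 * (P.c q ^ 2 / P.s q ^ 2) * P.v q * P.y q * P.h q * hry

end Flow

end Prof

end Pool.Agent.Helper608.SphMCF
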