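import Mathlib
import Pool.Agent.Helper608.KFunc

/-! Differential inequalities for the functionals. -/

open Set Filter Topology
open scoped ContDiff

namespace Pool.Agent.Helper608.SphMCF

/-- The integral over a time slice. -/
noncomputable def II (f : ℝ × ℝ → ℝ) (t : ℝ) : ℝ := ∫ θ in (0 : ℝ)..Real.pi, f (t, θ)

variable {T : ℝ}

theorem SmO.slice {f : ℝ × ℝ → ℝ} (hf : SmO T f) {t : ℝ} (ht : t ∈ Ioo 0 T) :
    Continuous (fun θ => f (t, θ)) :=
  (ContDiffOn.continuousOn hf).comp_continuous (by fun_prop) (fun θ => ⟨ht, mem_univ _⟩)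

theorem Sm.slice {f : ℝ × ℝ → ℝ} (hf : Sm T f) {t : ℝ} (ht : t ∈ Ico 0 T) :
    Continuous (fun θ => f (t, θ)) :=
  (ContDiffOn.continuousOn hf).comp_continuous (by fun_prop) (fun θ => ⟨ht, mem_univ _⟩)

theorem II_mono {f g : ℝ × ℝ → ℝ} {t : ℝ} (hf : Continuous (fun θ => f (t, θ)))
    (hg : Continuous (fun θ => g (t, θ))) (h : ∀ θ ∈ Ioo 0 Real.pi, f (t, θ) ≤ g (t, θ)) :
    II f t ≤ II g t :=
  intervalIntegral.integral_mono_on_of_le_Ioo Real.pi_pos.le (hf.intervalIntegrable _ _)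
    (hg.intervalIntegrable _ _) h

theorem II_congr {f g : ℝ × ℝ → ℝ} {t : ℝ} (h : ∀ θ ∈ Ioo 0 Real.pi, f (t, θ) = g (t, θ)) :
    II f t = II g t :=
  intervalIntegral.integral_congr_Ioo_of_le Real.pi_pos.le h

theorem II_add {f g : ℝ × ℝ → ℝ} {t : ℝ} (hf : Continuous (fun θ => f (t, θ)))
    (hg : Continuous (fun θ => g (t, θ))) : II (fun q => f q + g q) t = II f t + II g t :=
  intervalIntegral.integral_add (hf.intervalIntegrable _ _) (hg.intervalIntegrable _ _)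

theorem II_const_mul (f : ℝ × ℝ → ℝ) (t c : ℝ) : II (fun q => c * f q) t = c * II f t :=
  intervalIntegral.integral_const_mul _ _

theorem II_neg (f : ℝ × ℝ → ℝ) (t : ℝ) : II (fun q => - f q) t = - II f t :=
  intervalIntegral.integral_neg

theorem II_nonneg {f : ℝ × ℝ → ℝ} {t : ℝ} (hf : Continuous (fun θ => f (t, θ)))
    (h : ∀ θ ∈ Ioo 0 Real.pi, 0 ≤ f (t, θ)) : 0 ≤ II f t := by
  have h1 := II_mono (f := fun _ => (0 : ℝ)) (t := t) continuous_const hf h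
  have h2 : II (fun _ => (0 : ℝ)) t = 0 := by simp [II]
  rwa [h2] at h1

/-- The fundamental theorem of calculus on a slice. -/
theorem II_dth {f : ℝ × ℝ → ℝ} (hf : SmO T f) {t : ℝ} (ht : t ∈ Ioo 0 T) :
    II (dth f) t = f (t, Real.pi) - f (t, 0) := by
  refine intervalIntegral.integral_eq_sub_of_hasDerivAt (f := fun θ => f (t, θ)) ?_ ?_
  · intro θ _
    exact hf.hasDerivAt_th (q := (t, θ)) ⟨ht, mem_univ _⟩
  · exact (hf.dth.slice ht).intervalIntegrable _ _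

namespace Prof

variable {P : Prof T}

theorem g_nonneg (hy : ∀ q ∈ Dom T, |P.y q| ≤ 1 / 10) {q : ℝ × ℝ} (hq : q ∈ Dom T) :
    0 ≤ P.g q := div_nonneg (sq_nonneg _) (s_pos hq (hy q hq)).le

theorem g_le_one (hy : ∀ q ∈ Dom T, |P.y q| ≤ 1 / 10) {q : ℝ × ℝ} (hq : q ∈ Dom T) :
    P.g q ≤ 1 := by
  rw [g, div_le_one (s_pos hq (hy q hq)), s]
  nlinarith [sq_nonneg (P.n3 q)]

theorem g_le (hy : ∀ q ∈ Dom T, |P.y q| ≤ 1 / 10) {q : ℝ × ℝ} (hq : q ∈ Dom T) :
    P.g q ≤ 200 / 99 * (1 - P.n3 q) := by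
  have h1 := s_lower hq (hy q hq)
  have h2 := (fr (P := P) hq).yy
  rw [← n3] at h2
  have h3 : P.n3 q ≤ 1 := by
    nlinarith [sq_nonneg (P.y q), sq_nonneg (P.c q), sq_nonneg (P.n3 q - 1)]
  have h3' : -1 ≤ P.n3 q := by
    nlinarith [sq_nonneg (P.y q), sq_nonneg (P.c q), sq_nonneg (P.n3 q + 1)]
  rw [g, div_le_iff₀ (by linarith)]
  have h4 : P.c q ^ 2 ≤ 2 * (1 - P.n3 q) := by nlinarith [sq_nonneg (P.y q)]
  nlinarith

theorem om_eq (hy : ∀ q ∈ Dom T, |P.y q| ≤ 1 / 10) {q : ℝ × ℝ} (hq : q ∈ Dom T) :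
    P.om q = P.g q * P.k q - P.c q ^ 2 / P.s q ^ 2 * (P.v q * P.y q * P.n3 q) := by
  have hs := s_pos hq (hy q hq)
  rw [om, dc_eq hq, dn3_eq hq, g]
  have : P.n3 q ^ 2 = P.s q - P.c q ^ 2 := by rw [s]; ring
  field_simp
  linear_combination (P.c q ^ 2 * P.k q) * this

section Flow

variable (hP : P.IsFlow) (hy : ∀ q ∈ Dom T, |P.y q| ≤ 1 / 10)
include hP hy

theorem rk_bound {q : ℝ × ℝ} (hq : q ∈ Str T) :
    |P.k q| * P.r q ≤ P.v q * (|P.h q| + 1) := by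
  have hq'' := str_dom hq
  have hr := hP.rpos q hq'' hq.2.1 hq.2.2
  have hv := v_pos (P := P) hq''
  have hr1 : P.r q ≤ 1 := (abs_le.1 (fr (P := P) hq'').abs_r).2
  have hn : |P.n1 q| ≤ 1 := (fr (P := P) hq'').abs_n
  have h1 : |P.k q| * P.r q = |P.v q * (P.h q * P.r q + P.n1 q)| := by
    rw [← hP.ek q hq, abs_mul, abs_of_pos hr, mul_comm]
  rw [h1, abs_mul, abs_of_pos hv]
  apply mul_le_mul_of_nonneg_left _ hv.le
  calc |P.h q * P.r q + P.n1 q| ≤ |P.h q * P.r q| + |P.n1 q| := abs_add_le _ _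
    _ ≤ |P.h q| + 1 := by
      rw [abs_mul, abs_of_pos hr]
      have := abs_nonneg (P.h q)
      nlinarith

theorem Z_bound {q : ℝ × ℝ} (hq : q ∈ Str T) :
    |P.Z q| ≤ P.r q * P.v q * (9 * |P.h q| + 19) := by
  have hq'' := str_dom hq
  have hr := hP.rpos q hq'' hq.2.1 hq.2.2
  have hv := v_pos (P := P) hq''
  have F := fr (P := P) hq''
  have hr1 : P.r q ≤ 1 := (abs_le.1 F.abs_r).2
  have hn1 : |P.n1 q| ≤ 1 := F.abs_n
  have ha : |P.a q| ≤ 1 := F.abs_a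
  have hc : |P.c q| ≤ 1 := F.rot.rot.abs_a
  have hn3 : |P.n3 q| ≤ 1 := F.rot.rot.abs_n
  have hg0 := g_nonneg hy hq''
  have hg1 := g_le_one hy hq''
  have hs := s_lower hq'' (hy q hq'')
  have hs0 : 0 < P.s q := by linarith
  have hyq := hy q hq''
  have hk := rk_bound hP hy hq
  have hy2 : P.y q ^ 2 ≤ 1 / 100 := by
    rw [← sq_abs]
    nlinarith [abs_nonneg (P.y q)]
  have hk0 := abs_nonneg (P.k q)
  have hh0 := abs_nonneg (P.h q)
  have hR2 : P.r q ^ 2 ≤ P.r q := by nlinarith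
  have hR3 : P.r q ^ 3 ≤ P.r q := by nlinarith
  -- auxiliary bounds
  have hgg : P.c q ^ 2 / P.s q ^ 2 ≤ 100 / 99 := by
    rw [div_le_iff₀ (by positivity)]
    have : P.c q ^ 2 ≤ P.s q := by rw [s]; nlinarith [sq_nonneg (P.n3 q)]
    nlinarith
  have hgg0 : 0 ≤ P.c q ^ 2 / P.s q ^ 2 := by positivity
  have hcn : |2 * P.c q * P.n3 q * P.k q / P.s q| ≤ |P.k q| := by
    rw [abs_div, abs_of_pos hs0, div_le_iff₀ hs0, abs_mul]
    have h1 : |2 * P.c q * P.n3 q| ≤ P.s q := by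
      rw [abs_le, s]
      constructor
      · nlinarith [sq_nonneg (P.c q + P.n3 q)]
      · nlinarith [sq_nonneg (P.c q - P.n3 q)]
    nlinarith
  have hcn2 : |2 * P.v q * P.y q * P.c q * P.n3 q ^ 2 / P.s q ^ 2| ≤ 21 / 100 * P.v q := by
    rw [abs_div, abs_of_pos (show 0 < P.s q ^ 2 by positivity), div_le_iff₀ (by positivity)]
    have h1 : |2 * P.v q * P.y q * P.c q * P.n3 q ^ 2| =
        2 * P.v q * (|P.y q| * |P.c q|) * P.n3 q ^ 2 := by
      rw [abs_mul, abs_mul, abs_mul, abs_mul, abs_of_pos hv, abs_two,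
        abs_of_nonneg (sq_nonneg (P.n3 q))]
      ring
    rw [h1]
    have h2 : P.n3 q ^ 2 ≤ P.s q := by rw [s]; nlinarith [sq_nonneg (P.c q)]
    have h3 : |P.y q| * |P.c q| ≤ 1 / 10 := by
      calc |P.y q| * |P.c q| ≤ 1 / 10 * 1 :=
            mul_le_mul hyq hc (abs_nonneg _) (by norm_num)
        _ = 1 / 10 := by norm_num
    have h4 : P.n3 q ^ 2 * (|P.y q| * |P.c q|) ≤ P.s q * (1 / 10) :=
      mul_le_mul h2 h3 (by positivity) hs0.le
    have h5 : 2 * P.v q * (|P.y q| * |P.c q|) * P.n3 q ^ 2 ≤ 2 * P.v q * (P.s q * (1 / 10)) := by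
      calc 2 * P.v q * (|P.y q| * |P.c q|) * P.n3 q ^ 2 =
            2 * P.v q * (P.n3 q ^ 2 * (|P.y q| * |P.c q|)) := by ring
        _ ≤ _ := mul_le_mul_of_nonneg_left h4 (by positivity)
    have h6 : P.s q * (1 / 10) ≤ 21 / 200 * P.s q ^ 2 := by nlinarith
    nlinarith
  have t1 : |3 * P.r q ^ 2 * P.n1 q * P.g q * P.k q| ≤ 3 * P.r q ^ 2 * |P.k q| := by
    rw [abs_mul, abs_mul, abs_mul, abs_of_nonneg hg0,
      abs_of_nonneg (show (0 : ℝ) ≤ 3 * P.r q ^ 2 by positivity)]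
    have : |P.n1 q| * P.g q ≤ 1 := by
      have := abs_nonneg (P.n1 q)
      nlinarith
    calc 3 * P.r q ^ 2 * |P.n1 q| * P.g q * |P.k q| =
          3 * P.r q ^ 2 * |P.k q| * (|P.n1 q| * P.g q) := by ring
      _ ≤ 3 * P.r q ^ 2 * |P.k q| * 1 := mul_le_mul_of_nonneg_left this (by positivity)
      _ = _ := by ring
  have t2 : |3 * P.r q ^ 3 * (P.c q ^ 2 / P.s q ^ 2) * P.v q * P.y q ^ 2| ≤
      4 / 100 * (P.r q * P.v q) := by
    rw [abs_of_nonneg (by positivity)]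
    calc 3 * P.r q ^ 3 * (P.c q ^ 2 / P.s q ^ 2) * P.v q * P.y q ^ 2 =
          3 * P.v q * (P.r q ^ 3 * ((P.c q ^ 2 / P.s q ^ 2) * P.y q ^ 2)) := by ring
      _ ≤ 3 * P.v q * (P.r q * (100 / 99 * (1 / 100))) := by
          apply mul_le_mul_of_nonneg_left _ (by positivity)
          exact mul_le_mul hR3 (mul_le_mul hgg hy2 (sq_nonneg _) (by norm_num)) (by positivity)
            hr.le
      _ ≤ _ := by
          have : 0 < P.r q * P.v q := by positivity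
          nlinarith
  have t3 : |6 * P.r q * P.v q * P.a q ^ 2 * P.g q| ≤ 6 * (P.r q * P.v q) := by
    rw [abs_of_nonneg (by positivity)]
    have ha2 : P.a q ^ 2 ≤ 1 := by
      rw [← sq_abs]
      nlinarith [abs_nonneg (P.a q)]
    have : P.a q ^ 2 * P.g q ≤ 1 := by nlinarith [sq_nonneg (P.a q)]
    calc 6 * P.r q * P.v q * P.a q ^ 2 * P.g q = 6 * (P.r q * P.v q) * (P.a q ^ 2 * P.g q) := by
          ring
      _ ≤ 6 * (P.r q * P.v q) * 1 := mul_le_mul_of_nonneg_left this (by positivity)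
      _ = _ := by ring
  have t4 : |3 * P.r q ^ 2 * P.a q * (2 * P.c q * P.n3 q * P.k q / P.s q -
      2 * P.v q * P.y q * P.c q * P.n3 q ^ 2 / P.s q ^ 2)| ≤
      3 * P.r q ^ 2 * |P.k q| + 63 / 100 * (P.r q * P.v q) := by
    rw [abs_mul, abs_mul, abs_of_nonneg (show (0 : ℝ) ≤ 3 * P.r q ^ 2 by positivity)]
    have h1 : |2 * P.c q * P.n3 q * P.k q / P.s q -
      2 * P.v q * P.y q * P.c q * P.n3 q ^ 2 / P.s q ^ 2| ≤ |P.k q| + 21 / 100 * P.v q :=
      (abs_sub _ _).trans (add_le_add hcn hcn2)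
    have h2 : |P.a q| * |2 * P.c q * P.n3 q * P.k q / P.s q -
      2 * P.v q * P.y q * P.c q * P.n3 q ^ 2 / P.s q ^ 2| ≤ 1 * (|P.k q| + 21 / 100 * P.v q) :=
      mul_le_mul ha h1 (abs_nonneg _) (by norm_num)
    calc 3 * P.r q ^ 2 * |P.a q| * |2 * P.c q * P.n3 q * P.k q / P.s q -
          2 * P.v q * P.y q * P.c q * P.n3 q ^ 2 / P.s q ^ 2| =
          3 * P.r q ^ 2 * (|P.a q| * |2 * P.c q * P.n3 q * P.k q / P.s q -
          2 * P.v q * P.y q * P.c q * P.n3 q ^ 2 / P.s q ^ 2|) := by ring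
      _ ≤ 3 * P.r q ^ 2 * (1 * (|P.k q| + 21 / 100 * P.v q)) :=
          mul_le_mul_of_nonneg_left h2 (by positivity)
      _ = 3 * P.r q ^ 2 * |P.k q| + 63 / 100 * (P.r q ^ 2 * P.v q) := by ring
      _ ≤ _ := by nlinarith
  have t5 : |3 * P.r q ^ 2 * P.g q * (-P.v q * P.r q + P.k q * P.n1 q)| ≤
      3 * (P.r q * P.v q) + 3 * P.r q ^ 2 * |P.k q| := by
    rw [abs_mul, abs_of_nonneg (show (0 : ℝ) ≤ 3 * P.r q ^ 2 * P.g q by positivity)]
    have h1 : |-P.v q * P.r q + P.k q * P.n1 q| ≤ P.v q + |P.k q| := by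
      refine (abs_add_le _ _).trans (add_le_add ?_ ?_)
      · rw [abs_mul, abs_neg, abs_of_pos hv, abs_of_pos hr]
        nlinarith
      · rw [abs_mul]
        nlinarith
    have h2 : P.g q * |-P.v q * P.r q + P.k q * P.n1 q| ≤ 1 * (P.v q + |P.k q|) :=
      mul_le_mul hg1 h1 (abs_nonneg _) (by norm_num)
    calc 3 * P.r q ^ 2 * P.g q * |-P.v q * P.r q + P.k q * P.n1 q| =
          3 * P.r q ^ 2 * (P.g q * |-P.v q * P.r q + P.k q * P.n1 q|) := by ring
      _ ≤ 3 * P.r q ^ 2 * (1 * (P.v q + |P.k q|)) :=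
          mul_le_mul_of_nonneg_left h2 (by positivity)
      _ = 3 * (P.r q ^ 2 * P.v q) + 3 * P.r q ^ 2 * |P.k q| := by ring
      _ ≤ _ := by nlinarith
  have hsum : |P.Z q| ≤ 9 * P.r q ^ 2 * |P.k q| + 967 / 100 * (P.r q * P.v q) := by
    rw [Z]
    refine (abs_add_le _ _).trans ?_
    refine (add_le_add ((abs_add_le _ _).trans (add_le_add ((abs_add_le _ _).trans
      (add_le_add ((abs_add_le _ _).trans (add_le_add t1 t2)) t3)) t4)) t5).trans ?_
    linarith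
  have h9 : P.r q ^ 2 * |P.k q| ≤ P.r q * (P.v q * (|P.h q| + 1)) := by
    calc P.r q ^ 2 * |P.k q| = P.r q * (|P.k q| * P.r q) := by ring
      _ ≤ _ := mul_le_mul_of_nonneg_left hk hr.le
  have h10 : 0 < P.r q * P.v q := by positivity
  nlinarith

theorem hZ_bound {q : ℝ × ℝ} (hq : q ∈ Str T) :
    |P.h q * P.Z q| ≤ 37 / 2 * P.fD q + 19 / 2 * P.fA q := by
  have hq'' := str_dom hq
  have hr := hP.rpos q hq'' hq.2.1 hq.2.2
  have hv := v_pos (P := P) hq''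
  have h1 := Z_bound hP hy hq
  rw [abs_mul, fD, fA, ← sq_abs (P.h q)]
  have h0 := abs_nonneg (P.h q)
  calc |P.h q| * |P.Z q| ≤ |P.h q| * (P.r q * P.v q * (9 * |P.h q| + 19)) :=
        mul_le_mul_of_nonneg_left h1 h0
    _ = P.r q * P.v q * (9 * |P.h q| ^ 2 + 19 * |P.h q|) := by ring
    _ ≤ P.r q * P.v q * (37 / 2 * |P.h q| ^ 2 + 19 / 2) := by
        apply mul_le_mul_of_nonneg_left _ (by positivity)
        nlinarith [sq_nonneg (|P.h q| - 1)]
    _ = _ := by ring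

theorem fQ_bound {q : ℝ × ℝ} (hq : q ∈ Str T) {μ : ℝ} (hμ : 0 < μ) :
    P.fQ q ≤ μ / 2 * P.fD q + (102 / 100 / μ + 226 / 100) * P.fE q := by
  have hq'' := str_dom hq
  have hr := hP.rpos q hq'' hq.2.1 hq.2.2
  have hv := v_pos (P := P) hq''
  have F := fr (P := P) hq''
  have hr1 : P.r q ≤ 1 := (abs_le.1 F.abs_r).2
  have hn3 : |P.n3 q| ≤ 1 := F.rot.rot.abs_n
  have hg0 := g_nonneg hy hq''
  have hg1 := g_le_one hy hq''
  have hg2 := g_le hy hq''
  have hs := s_lower hq'' (hy q hq'')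
  have hs0 : 0 < P.s q := by linarith
  have hyq := hy q hq''
  have hk := rk_bound hP hy hq
  have hk0 := abs_nonneg (P.k q)
  have hh0 := abs_nonneg (P.h q)
  have e1 : P.c q ^ 2 / P.s q ^ 2 = P.g q / P.s q := by
    rw [g]
    field_simp
  have h1 : P.g q * P.k q ≤ P.g q * |P.k q| := mul_le_mul_of_nonneg_left (le_abs_self _) hg0
  have h2 : -(P.c q ^ 2 / P.s q ^ 2 * (P.v q * P.y q * P.n3 q)) ≤ 11 / 100 * (P.g q * P.v q) := by
    rw [e1]
    have h3 : -(P.y q * P.n3 q) ≤ 1 / 10 := by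
      have : |P.y q * P.n3 q| ≤ 1 / 10 * 1 := by
        rw [abs_mul]
        exact mul_le_mul hyq hn3 (abs_nonneg _) (by norm_num)
      have := (abs_le.1 this).1
      linarith
    have h4 : P.g q / P.s q ≤ 100 / 99 * P.g q := by
      rw [div_le_iff₀ hs0]
      nlinarith
    have h5 : 0 ≤ P.g q / P.s q := by positivity
    calc -(P.g q / P.s q * (P.v q * P.y q * P.n3 q)) =
          P.g q / P.s q * P.v q * (-(P.y q * P.n3 q)) := by ring
      _ ≤ P.g q / P.s q * P.v q * (1 / 10) := mul_le_mul_of_nonneg_left h3 (by positivity)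
      _ ≤ 100 / 99 * P.g q * P.v q * (1 / 10) := by
          apply mul_le_mul_of_nonneg_right _ (by norm_num)
          exact mul_le_mul_of_nonneg_right h4 hv.le
      _ ≤ _ := by
          have : 0 ≤ P.g q * P.v q := by positivity
          linarith
  have h3 : P.om q ≤ P.g q * |P.k q| + 11 / 100 * (P.g q * P.v q) := by
    rw [om_eq hy hq'']
    linarith
  have hR2 : P.r q ^ 2 ≤ P.r q := by nlinarith
  have hR3 : P.r q ^ 3 ≤ P.r q := by nlinarith
  have h4 : P.r q ^ 3 * (P.g q * |P.k q|) ≤ P.r q * P.v q * (P.g q * (|P.h q| + 1)) := by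
    calc P.r q ^ 3 * (P.g q * |P.k q|) = P.r q * (P.r q * P.g q * (|P.k q| * P.r q)) := by ring
      _ ≤ P.r q * (1 * P.g q * (P.v q * (|P.h q| + 1))) := by
          apply mul_le_mul_of_nonneg_left _ hr.le
          exact mul_le_mul (mul_le_mul_of_nonneg_right hr1 hg0) hk (by positivity) (by positivity)
      _ = _ := by ring
  have h5 : P.r q ^ 3 * (11 / 100 * (P.g q * P.v q)) ≤ P.r q * P.v q * (P.g q * (11 / 100)) := by
    calc P.r q ^ 3 * (11 / 100 * (P.g q * P.v q)) ≤ P.r q * (11 / 100 * (P.g q * P.v q)) :=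
          mul_le_mul_of_nonneg_right hR3 (by positivity)
      _ = _ := by ring
  have h6 : P.fQ q ≤ P.r q * P.v q * (P.g q * (|P.h q| + 111 / 100)) := by
    rw [fQ]
    calc P.r q ^ 3 * P.om q ≤ P.r q ^ 3 * (P.g q * |P.k q| + 11 / 100 * (P.g q * P.v q)) :=
          mul_le_mul_of_nonneg_left h3 (by positivity)
      _ = P.r q ^ 3 * (P.g q * |P.k q|) + P.r q ^ 3 * (11 / 100 * (P.g q * P.v q)) := by ring
      _ ≤ _ := by linarith
  have h7 : P.g q * |P.h q| ≤ μ / 2 * P.h q ^ 2 + P.g q / (2 * μ) := by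
    have h8 : P.g q * |P.h q| ≤ μ / 2 * |P.h q| ^ 2 + P.g q ^ 2 / (2 * μ) := by
      have : 0 ≤ (μ * |P.h q| - P.g q) ^ 2 / (2 * μ) := by positivity
      have e : (μ * |P.h q| - P.g q) ^ 2 / (2 * μ) =
          μ / 2 * |P.h q| ^ 2 + P.g q ^ 2 / (2 * μ) - P.g q * |P.h q| := by
        field_simp
        ring
      linarith
    rw [sq_abs] at h8
    have h9 : P.g q ^ 2 / (2 * μ) ≤ P.g q / (2 * μ) := by
      apply div_le_div_of_nonneg_right _ (by positivity)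
      nlinarith
    linarith
  have h8 : P.g q * (|P.h q| + 111 / 100) ≤
      μ / 2 * P.h q ^ 2 + (102 / 100 / μ + 226 / 100) * (1 - P.n3 q) := by
    have h9 : P.g q / (2 * μ) ≤ 102 / 100 / μ * (1 - P.n3 q) := by
      have : P.g q / (2 * μ) = 1 / (2 * μ) * P.g q := by ring
      rw [this]
      have h10 : 1 / (2 * μ) * P.g q ≤ 1 / (2 * μ) * (200 / 99 * (1 - P.n3 q)) :=
        mul_le_mul_of_nonneg_left hg2 (by positivity)
      have h11 : 0 ≤ 1 - P.n3 q := by linarith [(abs_le.1 hn3).2]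
      have h12 : 1 / (2 * μ) * (200 / 99 * (1 - P.n3 q)) = 100 / 99 * ((1 - P.n3 q) / μ) := by
        field_simp
        ring
      have h13 : 102 / 100 / μ * (1 - P.n3 q) = 102 / 100 * ((1 - P.n3 q) / μ) := by
        field_simp
      have h14 : 0 ≤ (1 - P.n3 q) / μ := by positivity
      rw [h13]
      rw [h12] at h10
      linarith
    have h11 : 0 ≤ 1 - P.n3 q := by linarith [(abs_le.1 hn3).2]
    nlinarith
  calc P.fQ q ≤ P.r q * P.v q * (P.g q * (|P.h q| + 111 / 100)) := h6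
    _ ≤ P.r q * P.v q * (μ / 2 * P.h q ^ 2 + (102 / 100 / μ + 226 / 100) * (1 - P.n3 q)) :=
        mul_le_mul_of_nonneg_left h8 (by positivity)
    _ = _ := by
        rw [fD, fE]
        ring

end Flow

end Prof

end Pool.Agent.Helper608.SphMCF
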