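import Mathlib
import Pool.Agent.Helper608.KEst

/-! The life span of an evolving profile curve with a loop. -/

open Set Filter Topology
open scoped ContDiff

namespace Pool.Agent.Helper608.SphMCF

namespace Prof

variable {T : ℝ} {P : Prof T}

theorem mem_str {t θ : ℝ} (ht : t ∈ Ioo 0 T) (hθ : θ ∈ Ioo 0 Real.pi) : ((t, θ) : ℝ × ℝ) ∈ Str T :=
  ⟨ht, hθ⟩

section Flow

variable (hP : P.IsFlow) (hy : ∀ q ∈ Dom T, |P.y q| ≤ 1 / 200)
include hP

theorem fD_nonneg {q : ℝ × ℝ} (hq : q ∈ Str T) : 0 ≤ P.fD q := by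
  have hr := hP.rpos q (str_dom hq) hq.2.1 hq.2.2
  have hv := v_pos (P := P) (str_dom hq)
  rw [fD]
  positivity

theorem II_fD_nonneg {t : ℝ} (ht : t ∈ Ioo 0 T) : 0 ≤ II P.fD t :=
  II_nonneg (smO_fD.slice ht) (fun _ hθ => fD_nonneg hP (mem_str ht hθ))

theorem II_fE_nonneg {t : ℝ} (ht : t ∈ Ico 0 T) : 0 ≤ II P.fE t := by
  refine II_nonneg (sm_fE.slice ht) (fun θ hθ => ?_)
  have hq : ((t, θ) : ℝ × ℝ) ∈ Dom T := ⟨ht, mem_univ _⟩
  have hr := hP.rpos (t, θ) hq hθ.1 hθ.2
  have hv := v_pos (P := P) hq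
  have hn3 : |P.n3 (t, θ)| ≤ 1 := (fr (P := P) hq).rot.rot.abs_n
  have h11 : 0 ≤ 1 - P.n3 (t, θ) := by linarith [(abs_le.1 hn3).2]
  rw [fE]
  positivity

theorem deriv_A {t : ℝ} (ht : t ∈ Ioo 0 T) : HasDerivAt (II P.fA) (-II P.fD t) t := by
  have h1 := (sm_fA (P := P)).smO.hasDerivAt_integral ht
  have h2 : II (dti P.fA) t = -II P.fD t := by
    rw [← II_neg]
    exact II_congr (fun θ hθ => dti_fA hP (mem_str ht hθ))
  rw [← h2]
  exact h1

theorem E_ineq (hy : ∀ q ∈ Dom T, |P.y q| ≤ 1 / 200) {t : ℝ} (ht : t ∈ Ioo 0 T) :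
    II (dti P.fE) t ≤ -(1 / 2) * II P.fD t + 9 / 80000 * II P.fA t := by
  have hB : SmO T (fun q => P.h q * P.c q * P.r q) := (smO_h.mul sm_c.smO).mul P.hr.smO
  have h1 : II (dth (fun q => P.h q * P.c q * P.r q)) t = 0 := by
    rw [II_dth hB ht, hP.rpi t (Ioo_subset_Ico_self ht), hP.r0 t (Ioo_subset_Ico_self ht)]
    ring
  have h2 : II (dti P.fE) t ≤
      II (fun q => (-(1 / 2) * P.fD q + 9 / 80000 * P.fA q) +
        dth (fun q => P.h q * P.c q * P.r q) q) t := by
    refine II_mono ((sm_fE.smO.dti).slice ht) ?_ ?_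
    · exact ((continuous_const.mul (smO_fD.slice ht)).add
        (continuous_const.mul (sm_fA.smO.slice ht))).add (hB.dth.slice ht)
    · intro θ hθ
      have hq := mem_str ht hθ
      have hr := hP.rpos (t, θ) (str_dom hq) hθ.1 hθ.2
      have hv := v_pos (P := P) (str_dom hq)
      rw [dti_fE hP hq]
      have h3 : 3 * P.h (t, θ) * P.y (t, θ) ≤ 1 / 2 * P.h (t, θ) ^ 2 + 9 / 80000 := by
        have h4 := hy (t, θ) (str_dom hq)
        have h5 : P.y (t, θ) ^ 2 ≤ 1 / 40000 := by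
          rw [← sq_abs]
          nlinarith [abs_nonneg (P.y (t, θ))]
        nlinarith [sq_nonneg (P.h (t, θ) - 3 * P.y (t, θ))]
      have h6 : 0 < P.r (t, θ) * P.v (t, θ) := by positivity
      have h7 := mul_le_mul_of_nonneg_right h3 h6.le
      rw [fD, fA]
      linarith
  refine h2.trans (le_of_eq ?_)
  rw [II_add, II_add, II_const_mul, II_const_mul, h1, add_zero]
  · exact continuous_const.mul (smO_fD.slice ht)
  · exact continuous_const.mul (sm_fA.smO.slice ht)
  · exact (continuous_const.mul (smO_fD.slice ht)).add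
        (continuous_const.mul (sm_fA.smO.slice ht))
  · exact hB.dth.slice ht

theorem Q_ineq (hy : ∀ q ∈ Dom T, |P.y q| ≤ 1 / 10) {t : ℝ} (ht : t ∈ Ioo 0 T) :
    -(37 / 2 * II P.fD t + 19 / 2 * II P.fA t) ≤ II (dti P.fQ) t := by
  have hB : SmO T (fun q => P.r q ^ 3 * P.omt q - 3 * P.r q ^ 2 * P.g q * P.a q * P.h q) :=
    ((P.hr.smO.pow 3).mul (smO_omt hy)).sub
      ((((contDiffOn_const.mul (P.hr.smO.pow 2)).mul (sm_g hy).smO).mul sm_a.smO).mul smO_h)
  have h1 : II (dth (fun q => P.r q ^ 3 * P.omt q -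
      3 * P.r q ^ 2 * P.g q * P.a q * P.h q)) t = 0 := by
    rw [II_dth hB ht, hP.rpi t (Ioo_subset_Ico_self ht), hP.r0 t (Ioo_subset_Ico_self ht)]
    ring
  have hfQ : SmO T P.fQ := (P.hr.smO.pow 3).mul (sm_om hy).smO
  have h2 : II (fun q => (-(37 / 2) * P.fD q + (-(19 / 2)) * P.fA q) +
        dth (fun q => P.r q ^ 3 * P.omt q - 3 * P.r q ^ 2 * P.g q * P.a q * P.h q) q) t ≤
      II (dti P.fQ) t := by
    refine II_mono ?_ (hfQ.dti.slice ht) ?_
    · exact ((continuous_const.mul (smO_fD.slice ht)).add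
        (continuous_const.mul (sm_fA.smO.slice ht))).add (hB.dth.slice ht)
    · intro θ hθ
      have hq := mem_str ht hθ
      rw [dti_fQ hP hy hq]
      have h3 := (abs_le.1 (hZ_bound hP hy hq)).1
      linarith
  refine le_trans (le_of_eq ?_) h2
  rw [II_add, II_add, II_const_mul, II_const_mul, h1]
  · ring
  · exact continuous_const.mul (smO_fD.slice ht)
  · exact continuous_const.mul (sm_fA.smO.slice ht)
  · exact (continuous_const.mul (smO_fD.slice ht)).add
        (continuous_const.mul (sm_fA.smO.slice ht))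
  · exact hB.dth.slice ht

theorem Q_le (hy : ∀ q ∈ Dom T, |P.y q| ≤ 1 / 10) {t : ℝ} (ht : t ∈ Ioo 0 T) {μ : ℝ}
    (hμ : 0 < μ) :
    II P.fQ t ≤ μ / 2 * II P.fD t + (102 / 100 / μ + 226 / 100) * II P.fE t := by
  have hfQ : SmO T P.fQ := (P.hr.smO.pow 3).mul (sm_om hy).smO
  have h2 : II P.fQ t ≤
      II (fun q => μ / 2 * P.fD q + (102 / 100 / μ + 226 / 100) * P.fE q) t := by
    refine II_mono (hfQ.slice ht) ?_ ?_
    · exact (continuous_const.mul (smO_fD.slice ht)).add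
        (continuous_const.mul (sm_fE.smO.slice ht))
    · intro θ hθ
      exact fQ_bound hP hy (mem_str ht hθ) hμ
  refine h2.trans (le_of_eq ?_)
  rw [II_add, II_const_mul, II_const_mul]
  · exact continuous_const.mul (smO_fD.slice ht)
  · exact continuous_const.mul (sm_fE.smO.slice ht)

/-- A bound for the life span. -/
theorem life (hy : ∀ q ∈ Dom T, |P.y q| ≤ 1 / 200) (hA0 : II P.fA 0 ≤ 3)
    (hE0 : II P.fE 0 ≤ 1 / 2000) (hQ0 : 12 / 10 ≤ II P.fQ 0) : T ≤ 1 / 100 := by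
  by_contra hcon
  push Not at hcon
  have hy' : ∀ q ∈ Dom T, |P.y q| ≤ 1 / 10 := fun q hq => (hy q hq).trans (by norm_num)
  set t₁ : ℝ := 1 / 100 with ht₁
  have hsub : Icc 0 t₁ ⊆ Ico 0 T := fun s hs => ⟨hs.1, hs.2.trans_lt hcon⟩
  have hsub' : ∀ s ∈ Ioo 0 t₁, s ∈ Ioo 0 T := fun s hs => ⟨hs.1, hs.2.trans hcon⟩
  have hfQ : Sm T P.fQ := (P.hr.pow 3).mul (sm_om hy')
  have cA : ContinuousOn (II P.fA) (Icc 0 t₁) :=
    (integral_continuousOn (ContDiffOn.continuousOn sm_fA)).mono hsub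
  have cE : ContinuousOn (II P.fE) (Icc 0 t₁) :=
    (integral_continuousOn (ContDiffOn.continuousOn sm_fE)).mono hsub
  have cQ : ContinuousOn (II P.fQ) (Icc 0 t₁) :=
    (integral_continuousOn (ContDiffOn.continuousOn hfQ)).mono hsub
  have dA : ∀ t ∈ Ioo 0 t₁, HasDerivAt (II P.fA) (-II P.fD t) t := fun t ht =>
    deriv_A hP (hsub' t ht)
  have dE : ∀ t ∈ Ioo 0 t₁, HasDerivAt (II P.fE) (II (dti P.fE) t) t := fun t ht =>
    (sm_fE (P := P)).smO.hasDerivAt_integral (hsub' t ht)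
  have dQ : ∀ t ∈ Ioo 0 t₁, HasDerivAt (II P.fQ) (II (dti P.fQ) t) t := fun t ht =>
    hfQ.smO.hasDerivAt_integral (hsub' t ht)
  have hD0 : ∀ t ∈ Ioo 0 t₁, 0 ≤ II P.fD t := fun t ht => II_fD_nonneg hP (hsub' t ht)
  have hint : interior (Icc 0 t₁) = Ioo 0 t₁ := interior_Icc
  have ht₁0 : (0 : ℝ) ≤ t₁ := by norm_num [ht₁]
  -- the area is nonincreasing
  have hA : ∀ t ∈ Icc 0 t₁, II P.fA t ≤ 3 := by
    intro t ht
    have anti : AntitoneOn (II P.fA) (Icc 0 t₁) := by
      refine antitoneOn_of_deriv_nonpos (convex_Icc _ _) cA ?_ ?_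
      · rw [hint]
        exact fun s hs => (dA s hs).differentiableAt.differentiableWithinAt
      · rw [hint]
        intro s hs
        rw [(dA s hs).deriv]
        linarith [hD0 s hs]
    exact (anti ⟨le_rfl, ht₁0⟩ ht ht.1).trans hA0
  have hEd : ∀ t ∈ Ioo 0 t₁, II (dti P.fE) t ≤ -(1 / 2) * II P.fD t + 1 / 2000 := by
    intro t ht
    have h1 := E_ineq hP hy (hsub' t ht)
    have h2 := hA t (Ioo_subset_Icc_self ht)
    linarith
  have hQd : ∀ t ∈ Ioo 0 t₁, -(37 / 2) * II P.fD t - 57 / 2 ≤ II (dti P.fQ) t := by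
    intro t ht
    have h1 := Q_ineq hP hy' (hsub' t ht)
    have h2 := hA t (Ioo_subset_Icc_self ht)
    linarith
  -- the excess stays small
  have hE : ∀ t ∈ Icc 0 t₁, II P.fE t ≤ 1 / 1000 := by
    intro t ht
    have anti : AntitoneOn (fun t => II P.fE t - 1 / 2000 * t) (Icc 0 t₁) := by
      refine antitoneOn_of_deriv_nonpos (convex_Icc _ _) (cE.sub (by fun_prop)) ?_ ?_
      · rw [hint]
        intro s hs
        have := (dE s hs).sub ((hasDerivAt_id s).const_mul (1 / 2000))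
        exact this.differentiableAt.differentiableWithinAt
      · rw [hint]
        intro s hs
        have h1 : HasDerivAt (fun t => II P.fE t - 1 / 2000 * t)
            (II (dti P.fE) s - 1 / 2000 * 1) s :=
          (dE s hs).sub ((hasDerivAt_id s).const_mul (1 / 2000))
        rw [h1.deriv]
        linarith [hEd s hs, hD0 s hs]
    have h1 := anti ⟨le_rfl, ht₁0⟩ ht ht.1
    simp only [mul_zero, sub_zero] at h1
    have h2 := ht.2
    rw [ht₁] at h2
    linarith
  have hEnn : ∀ t ∈ Icc 0 t₁, 0 ≤ II P.fE t := fun t ht => II_fE_nonneg hP (hsub ht)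
  -- the turning stays large
  have hQ : ∀ t ∈ Icc 0 t₁, 86 / 100 ≤ II P.fQ t := by
    intro t ht
    have mono : MonotoneOn (fun t => (II P.fQ t - 37 * II P.fE t) + 30 * t) (Icc 0 t₁) := by
      have hd : ∀ s ∈ Ioo 0 t₁, HasDerivAt (fun t => (II P.fQ t - 37 * II P.fE t) + 30 * t)
            ((II (dti P.fQ) s - 37 * II (dti P.fE) s) + 30 * 1) s := fun s hs =>
          ((dQ s hs).sub ((dE s hs).const_mul 37)).add ((hasDerivAt_id s).const_mul 30)
      refine monotoneOn_of_deriv_nonneg (convex_Icc _ _)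
        ((cQ.sub (continuousOn_const.mul cE)).add (by fun_prop)) ?_ ?_
      · rw [hint]
        exact fun s hs => (hd s hs).differentiableAt.differentiableWithinAt
      · rw [hint]
        intro s hs
        rw [(hd s hs).deriv]
        linarith [hEd s hs, hQd s hs, hD0 s hs]
    have h1 := mono ⟨le_rfl, ht₁0⟩ ht ht.1
    simp only [mul_zero, add_zero] at h1
    have h2 := ht.2
    rw [ht₁] at h2
    have h3 := hEnn t ht
    linarith
  -- lower bound for the dissipation
  have hED : ∀ t ∈ Ioo 0 t₁, 3 / 10 ≤ II P.fE t * II P.fD t := by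
    intro t ht
    have h1 := hQ t (Ioo_subset_Icc_self ht)
    have h2 := hE t (Ioo_subset_Icc_self ht)
    have h3 := hEnn t (Ioo_subset_Icc_self ht)
    have h4 := hD0 t ht
    rcases h3.eq_or_lt with h0 | h0
    · exfalso
      have h5 := Q_le hP hy' (hsub' t ht) (μ := 1 / (II P.fD t + 1)) (by positivity)
      rw [← h0, mul_zero, add_zero] at h5
      have h6 : 1 / (II P.fD t + 1) / 2 * II P.fD t ≤ 1 / 2 := by
        rw [div_div, div_mul_eq_mul_div, one_mul, div_le_iff₀ (by positivity)]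
        linarith
      linarith
    · have h5 := Q_le hP hy' (hsub' t ht) (μ := 2 * II P.fE t) (by positivity)
      have h6 : (102 / 100 / (2 * II P.fE t) + 226 / 100) * II P.fE t =
          51 / 100 + 226 / 100 * II P.fE t := by
        field_simp
        ring
      rw [h6] at h5
      have h7 : 2 * II P.fE t / 2 * II P.fD t = II P.fE t * II P.fD t := by ring
      rw [h7] at h5
      linarith
  have hd : ∀ s ∈ Ioo 0 t₁, HasDerivAt (fun t => II P.fE t ^ 2 + 1 / 4 * t)
      (2 * II P.fE s * II (dti P.fE) s + 1 / 4 * 1) s := by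
    intro s hs
    have h1 := ((dE s hs).fun_pow 2).add ((hasDerivAt_id s).const_mul (1 / 4))
    refine h1.congr_deriv ?_
    have e21 : (2 : ℕ) - 1 = 1 := rfl
    rw [e21]
    push_cast
    ring
  have anti : AntitoneOn (fun t => II P.fE t ^ 2 + 1 / 4 * t) (Icc 0 t₁) := by
    refine antitoneOn_of_deriv_nonpos (convex_Icc _ _) ((cE.pow 2).add (by fun_prop)) ?_ ?_
    · rw [hint]
      exact fun s hs => (hd s hs).differentiableAt.differentiableWithinAt
    · rw [hint]
      intro s hs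
      rw [(hd s hs).deriv]
      have h1 := hED s hs
      have h2 := hE s (Ioo_subset_Icc_self hs)
      have h3 := hEnn s (Ioo_subset_Icc_self hs)
      have h4 := mul_le_mul_of_nonneg_left (hEd s hs) h3
      nlinarith
  have h1 := anti ⟨le_rfl, ht₁0⟩ ⟨ht₁0, le_rfl⟩ ht₁0
  simp only [mul_zero, add_zero] at h1
  have h2 := hEnn 0 ⟨le_rfl, ht₁0⟩
  have h3 := sq_nonneg (II P.fE t₁)
  rw [ht₁] at h1 h3
  nlinarith

end Flow

end Prof

end Pool.Agent.Helper608.SphMCF
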