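import Mathlib
import Pool.Agent.Helper608.KGeo
import Pool.Agent.Helper608.KOde

/-! The profile curve of a rotationally symmetric mean curvature flow. -/

open Set Metric Filter Topology
open scoped ContDiff

namespace Pool.Agent.Helper608.SphMCF

theorem Time_coe (T : ℝ) : Time (T : EReal) = Ico 0 T := by
  ext t
  simp [Time, EReal.coe_lt_coe_iff]

theorem IsMCF.restrict {F₀ : S → V} {T : EReal} {F : ℝ → S → V} (h : IsMCF F₀ T F) {T' : EReal}
    (h0 : 0 < T') (hT : T' ≤ T) : IsMCF F₀ T' F := by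
  have hsub : Time T' ⊆ Time T := fun t ht => ⟨ht.1, ht.2.trans_le hT⟩
  exact ⟨h0, h.smooth.mono (prod_mono hsub subset_rfl), h.init, fun t ht => h.mem t (hsub ht),
    fun t ht => h.imm t (hsub ht),
    fun t ht x e he => (h.flow t (hsub ht) x e he).mono hsub⟩

section

variable {F₀ : S → V} {T : ℝ} {F : ℝ → S → V} (h : IsMCF F₀ (T : EReal) F)
include h

theorem IsMCF.sm_coord (i : Fin 4) : Sm T (fun q => F q.1 (merS q.2) i) := by
  have h0 : ContDiffOn ℝ ∞ (fun q : ℝ × ℝ => ((q.1, mer q.2) : ℝ × E)) (Dom T) :=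
    contDiffOn_fst.prodMk (contDiff_mer.comp_contDiffOn contDiffOn_snd)
  have h1 := h.smooth.comp h0 (fun q hq => ⟨by rw [Time_coe]; exact hq.1, mer_ne q.2⟩)
  have h2 : ContDiffOn ℝ ∞ (fun q : ℝ × ℝ => F q.1 (merS q.2)) (Dom T) :=
    h1.congr (fun q _ => by simp only [Function.comp, proj_mer])
  exact (contDiffOn_euclidean.1 h2) i

theorem IsMCF.isSmooth' {t : ℝ} (ht : t ∈ Ico 0 T) : IsSmooth (F t) :=
  h.isSmooth (by rw [Time_coe]; exact ht)

theorem IsMCF.dth_coord (i : Fin 4) {q : ℝ × ℝ} (hq : q ∈ Dom T) :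
    dth (fun q => F q.1 (merS q.2) i) q = D (F q.1) (mer q.2) (tau q.2) i :=
  (hasDerivAt_coord (hasDerivAt_prof (h.isSmooth' hq.1) q.2) i).deriv

theorem IsMCF.dth2_coord (i : Fin 4) {q : ℝ × ℝ} (hq : q ∈ Dom T) :
    dth (dth (fun q => F q.1 (merS q.2) i)) q =
      D2 (F q.1) (mer q.2) (tau q.2) (tau q.2) i := by
  have h1 := hasDerivAt_coord (hasDerivAt_prof2 (h.isSmooth' hq.1) q.2) i
  have h2 : (fun s => dth (fun q => F q.1 (merS q.2) i) (q.1, s)) =
      fun s => D (F q.1) (mer s) (tau s) i := by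
    funext s
    exact h.dth_coord i (q := (q.1, s)) ⟨hq.1, mem_univ _⟩
  show deriv (fun s => dth (fun q => F q.1 (merS q.2) i) (q.1, s)) q.2 = _
  rw [h2, h1.deriv]

variable (hS : ∀ t ∈ Ico 0 T, Sym (F t))
include hS

theorem IsMCF.prof_eq {q : ℝ × ℝ} (hq : q ∈ Dom T) :
    F q.1 (merS q.2) =
      !₂[F q.1 (merS q.2) 0, 0, F q.1 (merS q.2) 2, F q.1 (merS q.2) 3] := by
  ext i
  fin_cases i
  · simp
  · simpa using (hS q.1 hq.1).mer_one q.2
  · simp
  · simp

theorem IsMCF.dth_one {q : ℝ × ℝ} (hq : q ∈ Dom T) :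
    D (F q.1) (mer q.2) (tau q.2) 1 = 0 := by
  have h1 := hasDerivAt_coord (hasDerivAt_prof (h.isSmooth' hq.1) q.2) 1
  simp only [(hS q.1 hq.1).mer_one] at h1
  exact h1.unique (hasDerivAt_const q.2 0)

theorem IsMCF.dth2_one {q : ℝ × ℝ} (hq : q ∈ Dom T) :
    D2 (F q.1) (mer q.2) (tau q.2) (tau q.2) 1 = 0 := by
  have h1 := hasDerivAt_coord (hasDerivAt_prof2 (h.isSmooth' hq.1) q.2) 1
  have h2 : (fun s => D (F q.1) (mer s) (tau s) 1) = fun _ => 0 := by
    funext s
    exact h.dth_one hS (q := (q.1, s)) ⟨hq.1, mem_univ _⟩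
  rw [h2] at h1
  exact h1.unique (hasDerivAt_const q.2 0)

/-- The profile curve. -/
noncomputable def IsMCF.prof : Prof T where
  r q := F q.1 (merS q.2) 0
  x q := F q.1 (merS q.2) 2
  y q := F q.1 (merS q.2) 3
  hr := h.sm_coord 0
  hx := h.sm_coord 2
  hy := h.sm_coord 3
  sph q hq := by
    have h1 := h.mem q.1 (by rw [Time_coe]; exact hq.1) (merS q.2)
    have h2 : inner ℝ (F q.1 (merS q.2)) (F q.1 (merS q.2)) = 1 := by
      rw [real_inner_self_eq_norm_sq, h1, one_pow]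
    rw [inner_four, (hS q.1 hq.1).mer_one] at h2
    linarith
  imm q hq := by
    rw [h.dth_coord 0 hq, h.dth_coord 2 hq, h.dth_coord 3 hq]
    by_contra hcon
    push Not at hcon
    have h0 : D (F q.1) (mer q.2) (tau q.2) 0 = 0 := by
      nlinarith [sq_nonneg (D (F q.1) (mer q.2) (tau q.2) 0),
        sq_nonneg (D (F q.1) (mer q.2) (tau q.2) 2), sq_nonneg (D (F q.1) (mer q.2) (tau q.2) 3)]
    have h2 : D (F q.1) (mer q.2) (tau q.2) 2 = 0 := by
      nlinarith [sq_nonneg (D (F q.1) (mer q.2) (tau q.2) 0),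
        sq_nonneg (D (F q.1) (mer q.2) (tau q.2) 2), sq_nonneg (D (F q.1) (mer q.2) (tau q.2) 3)]
    have h3 : D (F q.1) (mer q.2) (tau q.2) 3 = 0 := by
      nlinarith [sq_nonneg (D (F q.1) (mer q.2) (tau q.2) 0),
        sq_nonneg (D (F q.1) (mer q.2) (tau q.2) 2), sq_nonneg (D (F q.1) (mer q.2) (tau q.2) 3)]
    have h1 := h.dth_one hS hq
    have h4 : D (F q.1) (merS q.2 : E) (tau q.2) = 0 := by
      rw [merS_coe]
      ext i
      fin_cases i
      · exact h0
      · exact h1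
      · exact h2
      · exact h3
    have h5 := h.imm q.1 (by rw [Time_coe]; exact hq.1) (merS q.2) (tau q.2)
      (by rw [merS_coe]; exact inner_mer_tau q.2) h4
    have e0 := congrArg (fun u : E => u 0) h5
    have e2 := congrArg (fun u : E => u 2) h5
    simp [tau] at e0 e2
    have := Real.sin_sq_add_cos_sq q.2
    rw [e0, e2] at this
    norm_num at this

theorem IsMCF.r_ne {q : ℝ × ℝ} (hq : q ∈ Dom T) (h1 : 0 < q.2) (h2 : q.2 < Real.pi) :
    (h.prof hS).r q ≠ 0 := by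
  intro h0
  have hs : 0 < Real.sin q.2 := Real.sin_pos_of_pos_of_lt_pi h1 h2
  have h3 := (hS q.1 hq.1).D_eta (h.isSmooth' hq.1) q.2
  have h0' : F q.1 (merS q.2) 0 = 0 := h0
  rw [h0'] at h3
  have h4 : D (F q.1) (merS q.2 : E) eta1 = 0 := by
    have h5 : Real.sin q.2 • D (F q.1) (mer q.2) eta1 = 0 := by
      rw [h3]
      ext i
      fin_cases i <;> simp
    exact (smul_eq_zero.1 h5).resolve_left hs.ne'
  have h5 := h.imm q.1 (by rw [Time_coe]; exact hq.1) (merS q.2) eta1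
      (by rw [merS_coe]; exact inner_mer_eta q.2) h4
  have e1 := congrArg (fun u : E => u 1) h5
  simp [eta1] at e1

theorem IsMCF.r_pos (h0 : ∀ θ, 0 < θ → θ < Real.pi → 0 < F₀ (merS θ) 0) {q : ℝ × ℝ}
    (hq : q ∈ Dom T) (h1 : 0 < q.2) (h2 : q.2 < Real.pi) : 0 < (h.prof hS).r q := by
  have hpre : IsPreconnected (Ico 0 T ×ˢ Ioo 0 Real.pi) :=
    isPreconnected_Ico.prod isPreconnected_Ioo
  have hc : ContinuousOn (h.prof hS).r (Ico 0 T ×ˢ Ioo 0 Real.pi) :=
    (ContDiffOn.continuousOn (h.prof hS).hr).mono (prod_mono subset_rfl (subset_univ _))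
  by_contra hcon
  push Not at hcon
  have hT : 0 < T := by
    have := hq.1
    exact this.1.trans_lt this.2
  have hp : ((0, Real.pi / 2) : ℝ × ℝ) ∈ Ico 0 T ×ˢ Ioo 0 Real.pi :=
    ⟨⟨le_rfl, hT⟩, by constructor <;> linarith [Real.pi_pos]⟩
  have hq' : q ∈ Ico 0 T ×ˢ Ioo 0 Real.pi := ⟨hq.1, h1, h2⟩
  have hpos : 0 < (h.prof hS).r (0, Real.pi / 2) := by
    show 0 < F 0 (merS (Real.pi / 2)) 0
    rw [h.init]
    exact h0 _ (by linarith [Real.pi_pos]) (by linarith [Real.pi_pos])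
  obtain ⟨z, hz, hz0⟩ := hpre.intermediate_value hq' hp hc ⟨hcon, hpos.le⟩
  exact h.r_ne hS ⟨hz.1, mem_univ _⟩ hz.2.1 hz.2.2 hz0

theorem IsMCF.at (h0 : ∀ θ, 0 < θ → θ < Real.pi → 0 < F₀ (merS θ) 0) {q : ℝ × ℝ}
    (hq : q ∈ Dom T) (h1 : 0 < q.2) (h2 : q.2 < Real.pi) :
    At (F q.1) q.2 ((h.prof hS).r q) ((h.prof hS).x q) ((h.prof hS).y q) ((h.prof hS).a q)
      ((h.prof hS).b q) ((h.prof hS).c q) ((h.prof hS).v q)
      (dth (dth (h.prof hS).r) q) (dth (dth (h.prof hS).x) q) (dth (dth (h.prof hS).y) q) where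
  g := h.prof_eq hS hq
  d1 := by
    rw [← Prof.dr_eq hq, ← Prof.dx_eq hq, ← Prof.dy_eq hq]
    have e0 := h.dth_coord 0 hq
    have e2 := h.dth_coord 2 hq
    have e3 := h.dth_coord 3 hq
    ext i
    fin_cases i
    · exact e0.symm
    · exact h.dth_one hS hq
    · exact e2.symm
    · exact e3.symm
  d2 := by
    have e0 := h.dth2_coord 0 hq
    have e2 := h.dth2_coord 2 hq
    have e3 := h.dth2_coord 3 hq
    ext i
    fin_cases i
    · exact e0.symm
    · exact h.dth2_one hS hq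
    · exact e2.symm
    · exact e3.symm
  fr := Prof.fr hq
  hv := Prof.v_pos hq
  hr := h.r_pos hS h0 hq h1 h2
  hs := Real.sin_pos_of_pos_of_lt_pi h1 h2

theorem IsMCF.isFlow (h0 : ∀ θ, 0 < θ → θ < Real.pi → 0 < F₀ (merS θ) 0) :
    (h.prof hS).IsFlow := by
  set P := h.prof hS with hPdef
  have main : ∀ q ∈ Str T, ∃ H : ℝ, dti P.r q = H * P.n1 q ∧ dti P.x q = H * P.n2 q ∧
      dti P.y q = H * P.n3 q ∧
      H = (dth (dth P.r) q * P.n1 q + dth (dth P.x) q * P.n2 q + dth (dth P.y) q * P.n3 q) /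
        P.v q ^ 2 - P.n1 q / P.r q := by
    intro q hq
    have hq'' := Prof.str_dom hq
    have A := h.at hS h0 hq'' hq.2.1 hq.2.2
    have hsm := h.isSmooth' hq''.1
    have hfl := h.flow q.1 (by rw [Time_coe]; exact hq''.1) (merS q.2) _
      (A.frame (hS q.1 hq''.1) hsm)
    rw [A.meanCurv_eq (hS q.1 hq''.1) hsm, Time_coe] at hfl
    have hfl' := hfl.hasDerivAt (Ico_mem_nhds hq.1.1 hq.1.2)
    refine ⟨_, ?_, ?_, ?_, rfl⟩
    · have := (hasDerivAt_coord hfl' 0).deriv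
      simp at this
      exact this
    · have := (hasDerivAt_coord hfl' 2).deriv
      simp at this
      exact this
    · have := (hasDerivAt_coord hfl' 3).deriv
      simp at this
      exact this
  have hH : ∀ q ∈ Str T, dti P.r q = P.h q * P.n1 q ∧ dti P.x q = P.h q * P.n2 q ∧
      dti P.y q = P.h q * P.n3 q ∧
      P.h q = (dth (dth P.r) q * P.n1 q + dth (dth P.x) q * P.n2 q + dth (dth P.y) q * P.n3 q) /
        P.v q ^ 2 - P.n1 q / P.r q := by
    intro q hq
    have hq'' := Prof.str_dom hq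
    obtain ⟨H, a1, a2, a3, a4⟩ := main q hq
    have hnn := (Prof.fr (P := P) hq'').nn
    have : P.h q = H := by
      rw [Prof.h, a1, a2, a3]
      have : P.n1 q ^ 2 + P.n2 q ^ 2 + P.n3 q ^ 2 = 1 := hnn
      linear_combination H * this
    rw [this]
    exact ⟨a1, a2, a3, a4⟩
  refine ⟨fun q hq h1 h2 => h.r_pos hS h0 hq h1 h2, ?_, ?_, fun q hq => (hH q hq).1,
    fun q hq => (hH q hq).2.1, fun q hq => (hH q hq).2.2.1, ?_⟩
  · intro t ht
    exact (hS t ht).mer_zero (by simp)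
  · intro t ht
    exact (hS t ht).mer_zero (by simp)
  · intro q hq
    have hq'' := Prof.str_dom hq
    have a4 := (hH q hq).2.2.2
    have hr : 0 < P.r q := h.r_pos hS h0 hq'' hq.2.1 hq.2.2
    have hv : 0 < P.v q := Prof.v_pos hq''
    have d1 : dth (dth P.r) q = dth P.v q * P.a q + P.v q * dth P.a q := by
      have k := ((Prof.sm_v (P := P)).hasDerivAt hq'').mul ((Prof.sm_a (P := P)).hasDerivAt hq'')
      have e : (fun s => dth P.r (q.1, s)) = fun s => P.v (q.1, s) * P.a (q.1, s) :=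
        funext (fun s => Prof.dr_eq (q := (q.1, s)) ⟨hq''.1, mem_univ _⟩)
      show deriv (fun s => dth P.r (q.1, s)) q.2 = _
      rw [e]
      exact k.deriv
    have d2 : dth (dth P.x) q = dth P.v q * P.b q + P.v q * dth P.b q := by
      have k := ((Prof.sm_v (P := P)).hasDerivAt hq'').mul ((Prof.sm_b (P := P)).hasDerivAt hq'')
      have e : (fun s => dth P.x (q.1, s)) = fun s => P.v (q.1, s) * P.b (q.1, s) :=
        funext (fun s => Prof.dx_eq (q := (q.1, s)) ⟨hq''.1, mem_univ _⟩)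
      show deriv (fun s => dth P.x (q.1, s)) q.2 = _
      rw [e]
      exact k.deriv
    have d3 : dth (dth P.y) q = dth P.v q * P.c q + P.v q * dth P.c q := by
      have k := ((Prof.sm_v (P := P)).hasDerivAt hq'').mul ((Prof.sm_c (P := P)).hasDerivAt hq'')
      have e : (fun s => dth P.y (q.1, s)) = fun s => P.v (q.1, s) * P.c (q.1, s) :=
        funext (fun s => Prof.dy_eq (q := (q.1, s)) ⟨hq''.1, mem_univ _⟩)
      show deriv (fun s => dth P.y (q.1, s)) q.2 = _
      rw [e]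
      exact k.deriv
    have o : P.a q * P.n1 q + P.b q * P.n2 q + P.c q * P.n3 q = 0 := cr_orth
    have hk : dth (dth P.r) q * P.n1 q + dth (dth P.x) q * P.n2 q + dth (dth P.y) q * P.n3 q =
        P.v q * P.k q := by
      rw [d1, d2, d3, Prof.k]
      linear_combination (dth P.v q) * o
    rw [hk] at a4
    rw [a4]
    field_simp
    ring

end

end Pool.Agent.Helper608.SphMCF
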