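import Mathlib
import Pool.Agent.Helper608.KLink
import Pool.Agent.Helper608.HMax
import Pool.Agent.Helper608.HGeo

/-! Linear barriers for the mean curvature flow in `S³`. -/

open Set Metric Filter Topology
open scoped ContDiff

namespace Pool.Agent.Helper608.SphMCF

variable {F : S → V}

theorem inner_D_self (hF : IsSmooth F) (hn : ∀ x, ‖F x‖ = 1) {y : E} (hy : y ≠ 0) (u : E) :
    inner ℝ (D F y u) (F (proj y)) = 0 := by
  have h1 := (hF.hasDerivAt (y := y) u 0 (by simpa using hy)).norm_sq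
  simp only [hn, one_pow, zero_smul, add_zero] at h1
  have h2 := h1.unique (hasDerivAt_const (0 : ℝ) (1 : ℝ))
  rw [real_inner_comm]
  linarith

theorem inner_D2_self (hF : IsSmooth F) (hn : ∀ x, ‖F x‖ = 1) {x : S} {u : E}
    (hu : inner ℝ (x : E) u = 0) :
    inner ℝ (D2 F x u u) (F x) = -‖D F x u‖ ^ 2 := by
  have h1 := (hF.hasDerivAt_D (y := (x : E)) u u 0 (line_ne_zero x hu 0)).inner ℝ
    (hF.hasDerivAt (y := (x : E)) u 0 (line_ne_zero x hu 0))
  have h2 : (fun s : ℝ => inner ℝ (D F ((x : E) + s • u) u) (F (proj ((x : E) + s • u)))) =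
      fun _ => (0 : ℝ) := by
    funext s
    exact inner_D_self hF hn (line_ne_zero x hu s) u
  rw [h2] at h1
  have h3 := h1.unique (hasDerivAt_const (0 : ℝ) (0 : ℝ))
  simp only [zero_smul, add_zero, proj_coe, real_inner_self_eq_norm_sq] at h3
  linarith

theorem test_linear (hF : IsSmooth F) {x : S} (v : V)
    (hx : ∀ y, inner ℝ v (F y) ≤ inner ℝ v (F x)) {u : E} (hu : inner ℝ (x : E) u = 0) :
    inner ℝ v (D F x u) = 0 ∧ inner ℝ v (D2 F x u u) ≤ 0 := by
  have h1 : ∀ s : ℝ, HasDerivAt (fun s : ℝ => inner ℝ v (F (proj ((x : E) + s • u))))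
      (inner ℝ v (D F ((x : E) + s • u) u)) s := by
    intro s
    have := (hasDerivAt_const s v).inner ℝ (hF.hasDerivAt u s (line_ne_zero x hu s))
    simpa using this
  have h2 : HasDerivAt (fun s : ℝ => inner ℝ v (D F ((x : E) + s • u) u))
      (inner ℝ v (D2 F x u u)) 0 := by
    have := (hasDerivAt_const (0 : ℝ) v).inner ℝ (hF.hasDerivAt_D u u 0 (line_ne_zero x hu 0))
    simpa using this
  have h3 := HypMCF.second_test h1 h2 (fun s => by
    simp only [zero_smul, add_zero, proj_coe]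
    exact hx _)
  simpa using h3

theorem inner_meanCurv (hF : IsSmooth F) (hn : ∀ x, ‖F x‖ = 1) {x : S} {e : Fin 2 → E}
    (he : IsFrame F x e) {v : V} (hv : ∀ i, inner ℝ v (D F x (e i)) = 0) :
    inner ℝ v (meanCurv F x e) =
      inner ℝ v (D2 F x (e 0) (e 0)) + inner ℝ v (D2 F x (e 1) (e 1)) + 2 * inner ℝ v (F x) := by
  have h0 := inner_D2_self hF hn (he.1 0)
  have h1 := inner_D2_self hF hn (he.1 1)
  have n0 : ‖D F x (e 0)‖ = 1 := he.2.1 0
  have n1 : ‖D F x (e 1)‖ = 1 := he.2.1 1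
  rw [n0] at h0
  rw [n1] at h1
  simp only [meanCurv, sff, nor, Fin.sum_univ_two, inner_add_right, inner_sub_right,
    real_inner_smul_right, hv, h0, h1]
  ring

theorem IsMCF.continuousOn {F₀ : S → V} {T : ℝ} {F : ℝ → S → V} (h : IsMCF F₀ (T : EReal) F) :
    ContinuousOn (fun q : ℝ × S => F q.1 q.2) (Ico 0 T ×ˢ univ) := by
  have h1 : ContinuousOn (fun q : ℝ × S => ((q.1, (q.2 : E)) : ℝ × E)) (Ico 0 T ×ˢ univ) := by
    fun_prop
  have h2 := h.smooth.continuousOn.comp h1
    (fun q hq => ⟨by rw [Time_coe]; exact hq.1, coe_ne_zero q.2⟩)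
  refine h2.congr (fun q hq => ?_)
  simp only [Function.comp, proj_coe]

/-- The barrier by a great sphere. -/
theorem linear_barrier {F₀ : S → V} {T : ℝ} {F : ℝ → S → V} (h : IsMCF F₀ (T : EReal) F) (v : V)
    {M : ℝ} (h0 : ∀ x, inner ℝ v (F₀ x) ≤ M) :
    ∀ t ∈ Ico 0 T, ∀ x, inner ℝ v (F t x) ≤ M * Real.exp (2 * t) := by
  classical
  have hf : ∀ t, ∀ x : S, ∃ e, t ∈ Ico 0 T → IsFrame (F t) x e := by
    intro t x
    by_cases ht : t ∈ Ico 0 T
    · obtain ⟨e, he⟩ := exists_frame (h.imm t (by rw [Time_coe]; exact ht)) x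
      exact ⟨e, fun _ => he⟩
    · exact ⟨fun _ => 0, fun h => absurd h ht⟩
  choose e he using hf
  have key := HypMCF.max_principle (T := T) (M := M)
    (fun t x => Real.exp (-2 * t) * inner ℝ v (F t x))
    (fun t x => Real.exp (-2 * t) * (-2 * inner ℝ v (F t x) +
      inner ℝ v (meanCurv (F t) x (e t x))))
    ?_ ?_ ?_ ?_
  · intro t ht x
    have h1 := key t ht x
    have h2 : 0 < Real.exp (-2 * t) := Real.exp_pos _
    have h3 : Real.exp (2 * t) = (Real.exp (-2 * t))⁻¹ := by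
      rw [← Real.exp_neg]
      congr 1
      ring
    rw [h3, ← div_eq_mul_inv, le_div_iff₀ h2]
    linarith
  · have h1 := h.continuousOn
    exact ContinuousOn.mul (by fun_prop) (continuousOn_const.inner h1)
  · intro t ht x
    have h1 := h.flow t (by rw [Time_coe]; exact ht) x _ (he t x ht)
    rw [Time_coe] at h1
    have h2 : HasDerivWithinAt (fun s => inner ℝ v (F s x))
        (inner ℝ v (meanCurv (F t) x (e t x))) (Ico 0 T) t := by
      have := (hasDerivWithinAt_const t (Ico 0 T) v).inner ℝ h1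
      simpa using this
    have h6 : HasDerivAt (fun s : ℝ => Real.exp (-2 * s)) (Real.exp (-2 * t) * (-2)) t := by
      have := ((hasDerivAt_id t).const_mul (-2 : ℝ)).exp
      simpa using this
    have h7 := h6.hasDerivWithinAt (s := Ico 0 T) |>.mul h2
    refine h7.congr_deriv ?_
    ring
  · intro x
    rw [h.init]
    simp only [mul_zero, Real.exp_zero, one_mul]
    exact h0 x
  · intro t ht x hx _
    have h2 : 0 < Real.exp (-2 * t) := Real.exp_pos _
    have hsm := h.isSmooth' ht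
    have hn := h.mem t (by rw [Time_coe]; exact ht)
    have hx' : ∀ y, inner ℝ v (F t y) ≤ inner ℝ v (F t x) := fun y =>
      le_of_mul_le_mul_left (hx y) h2
    have t0 := test_linear hsm v hx' ((he t x ht).1 0)
    have t1 := test_linear hsm v hx' ((he t x ht).1 1)
    have h3 := inner_meanCurv hsm hn (he t x ht) (v := v)
      (fun i => (test_linear hsm v hx' ((he t x ht).1 i)).1)
    refine mul_nonpos_of_nonneg_of_nonpos h2.le ?_
    rw [h3]
    linarith [t0.2, t1.2]

/-- The slab estimate for the last coordinate. -/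
theorem slab {F₀ : S → V} {T : ℝ} {F : ℝ → S → V} (h : IsMCF F₀ (T : EReal) F)
    {M : ℝ} (h0 : ∀ x, |F₀ x 3| ≤ M) :
    ∀ t ∈ Ico 0 T, ∀ x, |F t x 3| ≤ M * Real.exp (2 * t) := by
  intro t ht x
  rw [abs_le]
  have h1 := linear_barrier h (EuclideanSpace.single 3 1) (M := M) (fun x => by
    rw [EuclideanSpace.inner_single_left]
    simpa using (abs_le.1 (h0 x)).2) t ht x
  have h2 := linear_barrier h (EuclideanSpace.single 3 (-1)) (M := M) (fun x => by
    rw [EuclideanSpace.inner_single_left]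
    have := (abs_le.1 (h0 x)).1
    simp
    linarith) t ht x
  rw [EuclideanSpace.inner_single_left] at h1 h2
  simp at h1 h2
  exact ⟨by linarith, h1⟩

/-- The images of the two poles stay apart. -/
theorem poles_apart {F₀ : S → V} {T : ℝ} {F : ℝ → S → V} (h : IsMCF F₀ (T : EReal) F)
    (hS : ∀ t ∈ Ico 0 T, Sym (F t)) (hy : ∀ t ∈ Ico 0 T, ∀ x, |F t x 3| ≤ 1 / 2)
    (h0 : 0 < F₀ (merS 0) 2) (h1 : F₀ (merS Real.pi) 2 < 0) :
    ∀ t ∈ Ico 0 T, 1 / 2 < F t (merS 0) 2 ∧ F t (merS Real.pi) 2 < -(1 / 2) := by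
  have hsq : ∀ θ, Real.sin θ = 0 → ∀ t ∈ Ico 0 T, 3 / 4 ≤ F t (merS θ) 2 ^ 2 := by
    intro θ hθ t ht
    have e1 := h.mem t (by rw [Time_coe]; exact ht) (merS θ)
    have e2 : inner ℝ (F t (merS θ)) (F t (merS θ)) = 1 := by
      rw [real_inner_self_eq_norm_sq, e1, one_pow]
    rw [inner_four, (hS t ht).mer_one, (hS t ht).mer_zero hθ] at e2
    have e3 := hy t ht (merS θ)
    have e4 : F t (merS θ) 3 ^ 2 ≤ 1 / 4 := by
      rw [← sq_abs]
      nlinarith [abs_nonneg (F t (merS θ) 3)]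
    nlinarith
  have hc : ∀ θ, ContinuousOn (fun t => F t (merS θ) 2) (Ico 0 T) := by
    intro θ
    have c1 : ContinuousOn (fun q : ℝ × ℝ => F q.1 (merS q.2) 2) (Dom T) :=
      ContDiffOn.continuousOn (h.sm_coord 2)
    exact c1.comp (f := fun t : ℝ => ((t, θ) : ℝ × ℝ)) (by fun_prop)
      (fun t ht => ⟨ht, mem_univ _⟩)
  intro t ht
  have hT : 0 < T := ht.1.trans_lt ht.2
  have h00 : (0 : ℝ) ∈ Ico 0 T := ⟨le_rfl, hT⟩
  constructor
  · have e1 := hsq 0 (by simp)
    have pos : 0 < F t (merS 0) 2 := by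
      by_contra hcon
      push Not at hcon
      obtain ⟨z, hz, hz0⟩ := isPreconnected_Ico.intermediate_value (f := fun t => F t (merS 0) 2)
        ht h00 (hc 0) (show (0 : ℝ) ∈ Icc (F t (merS 0) 2) (F 0 (merS 0) 2) from
          ⟨hcon, by rw [h.init]; exact h0.le⟩)
      have := e1 z hz
      simp only at hz0
      rw [hz0] at this
      norm_num at this
    have := e1 t ht
    nlinarith
  · have e1 := hsq Real.pi (by simp)
    have neg : F t (merS Real.pi) 2 < 0 := by
      by_contra hcon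
      push Not at hcon
      obtain ⟨z, hz, hz0⟩ := isPreconnected_Ico.intermediate_value
        (f := fun t => F t (merS Real.pi) 2)
        h00 ht (hc Real.pi) (show (0 : ℝ) ∈ Icc (F 0 (merS Real.pi) 2) (F t (merS Real.pi) 2) from
          ⟨by rw [h.init]; exact h1.le, hcon⟩)
      have := e1 z hz
      simp only at hz0
      rw [hz0] at this
      norm_num at this
    have := e1 t ht
    nlinarith

end Pool.Agent.Helper608.SphMCF
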