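import Mathlib
import Pool.Agent.Helper608.KCalc

/-! Calculus in space-time. -/

open Set Metric Filter Topology
open scoped ContDiff

namespace Pool.Agent.Helper608.SphMCF

/-- The space-time domain. -/
def QT (T : ℝ) : Set (ℝ × E) := Ico 0 T ×ˢ {0}ᶜ

/-- The open space-time domain. -/
def QO (T : ℝ) : Set (ℝ × E) := Ioo 0 T ×ˢ {0}ᶜ

theorem QO_sub (T : ℝ) : QO T ⊆ QT T := prod_mono Ioo_subset_Ico_self subset_rfl

theorem isOpen_QO (T : ℝ) : IsOpen (QO T) := isOpen_Ioo.prod isOpen_ne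

theorem uniqueDiffOn_QT (T : ℝ) : UniqueDiffOn ℝ (QT T) :=
  (uniqueDiffOn_Ico 0 T).prod isOpen_ne.uniqueDiffOn

variable {W : Type*} [NormedAddCommGroup W] [NormedSpace ℝ W] {T : ℝ}

/-- The derivative in the direction `a`. -/
noncomputable def da (a : ℝ × E) (Φ : ℝ × E → W) (q : ℝ × E) : W := fderiv ℝ Φ q a

/-- The spatial derivative in the direction `v`. -/
noncomputable def dv (v : E) (Φ : ℝ × E → W) (q : ℝ × E) : W :=
  fderiv ℝ (fun y : E => Φ (q.1, y)) q.2 v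

/-- Smooth up to the initial time. -/
def CQ (T : ℝ) (Φ : ℝ × E → W) : Prop := ContDiffOn ℝ ∞ Φ (QT T)

/-- Smooth at positive times. -/
def CO (T : ℝ) (Φ : ℝ × E → W) : Prop := ContDiffOn ℝ ∞ Φ (QO T)

variable {Φ Ψ : ℝ × E → W} {q : ℝ × E}

theorem CQ.co (h : CQ T Φ) : CO T Φ := ContDiffOn.mono h (QO_sub T)

theorem CQ.hasFDerivAt_y (h : CQ T Φ) (hq : q ∈ QT T) :
    HasFDerivAt (fun y : E => Φ (q.1, y))
      ((fderivWithin ℝ Φ (QT T) q).comp (ContinuousLinearMap.inr ℝ ℝ E)) q.2 := by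
  have h1 : HasFDerivWithinAt Φ (fderivWithin ℝ Φ (QT T) q) (QT T) q :=
    ((ContDiffOn.differentiableOn h (by simp)) q hq).hasFDerivWithinAt
  have h2 : HasFDerivWithinAt (fun y : E => ((q.1, y) : ℝ × E)) (ContinuousLinearMap.inr ℝ ℝ E)
      {0}ᶜ q.2 := (hasFDerivAt_prodMk_right q.1 q.2).hasFDerivWithinAt
  have hm : MapsTo (fun y : E => ((q.1, y) : ℝ × E)) {0}ᶜ (QT T) := fun y hy => ⟨hq.1, hy⟩
  have h3 : HasFDerivWithinAt (fun y : E => Φ (q.1, y))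
      ((fderivWithin ℝ Φ (QT T) q).comp (ContinuousLinearMap.inr ℝ ℝ E)) {0}ᶜ q.2 :=
    HasFDerivWithinAt.comp (g := Φ) (t := QT T) q.2 h1 h2 hm
  exact h3.hasFDerivAt (isOpen_ne.mem_nhds hq.2)

theorem CQ.dv_eq (h : CQ T Φ) (hq : q ∈ QT T) (v : E) :
    dv v Φ q = fderivWithin ℝ Φ (QT T) q (0, v) := by
  rw [dv, (h.hasFDerivAt_y hq).fderiv]
  rfl

theorem CQ.dv (h : CQ T Φ) (v : E) : CQ T (dv v Φ) := by
  have h1 : ContDiffOn ℝ ∞ (fderivWithin ℝ Φ (QT T)) (QT T) :=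
    ContDiffOn.fderivWithin h (uniqueDiffOn_QT T) (by simp)
  have h2 : ContDiffOn ℝ ∞ (fun q => fderivWithin ℝ Φ (QT T) q (0, v)) (QT T) :=
    h1.clm_apply contDiffOn_const
  exact h2.congr (fun q hq => h.dv_eq hq v)

theorem CO.contDiffAt (h : CO T Φ) (hq : q ∈ QO T) : ContDiffAt ℝ ∞ Φ q :=
  ContDiffOn.contDiffAt h ((isOpen_QO T).mem_nhds hq)

theorem CO.hasFDerivAt (h : CO T Φ) (hq : q ∈ QO T) : HasFDerivAt Φ (fderiv ℝ Φ q) q :=
  ((h.contDiffAt hq).differentiableAt (by simp)).hasFDerivAt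

theorem CO.fderiv (h : CO T Φ) : ContDiffOn ℝ ∞ (fderiv ℝ Φ) (QO T) :=
  ContDiffOn.fderiv_of_isOpen h (isOpen_QO T) (by simp)

theorem CO.da (h : CO T Φ) (a : ℝ × E) : CO T (da a Φ) :=
  h.fderiv.clm_apply contDiffOn_const

theorem CO.dv_eq (h : CO T Φ) (hq : q ∈ QO T) (v : E) : dv v Φ q = SphMCF.da (0, v) Φ q := by
  have h1 := h.hasFDerivAt hq
  have h2 : HasFDerivAt (fun y : E => ((q.1, y) : ℝ × E)) (ContinuousLinearMap.inr ℝ ℝ E) q.2 :=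
    hasFDerivAt_prodMk_right q.1 q.2
  have h3 := HasFDerivAt.comp (g := Φ) q.2 h1 h2
  have h4 : HasFDerivAt (fun y : E => Φ (q.1, y))
      ((_root_.fderiv ℝ Φ q).comp (ContinuousLinearMap.inr ℝ ℝ E)) q.2 := h3
  rw [SphMCF.dv, h4.fderiv]
  rfl

/-- The derivative along a line in space. -/
theorem CO.hasDerivAt_line (h : CO T Φ) {t : ℝ} {y v : E} {s : ℝ} (hq : (t, y + s • v) ∈ QO T) :
    HasDerivAt (fun s : ℝ => Φ (t, y + s • v)) (SphMCF.da (0, v) Φ (t, y + s • v)) s := by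
  have h1 := h.hasFDerivAt hq
  have h2 : HasDerivAt (fun s : ℝ => ((t, y + s • v) : ℝ × E)) (0, v) s :=
    (hasDerivAt_const s t).prodMk (HypMCF.hasDerivAt_line (n := 2) y v s)
  exact HasFDerivAt.comp_hasDerivAt (l := Φ) s h1 h2

/-- The derivative in time. -/
theorem CO.hasDerivAt_time (h : CO T Φ) (hq : q ∈ QO T) :
    HasDerivAt (fun s : ℝ => Φ (s, q.2)) (SphMCF.da (1, 0) Φ q) q.1 := by
  have h1 := h.hasFDerivAt hq
  have h2 : HasDerivAt (fun s : ℝ => ((s, q.2) : ℝ × E)) (1, 0) q.1 :=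
    (hasDerivAt_id q.1).prodMk (hasDerivAt_const q.1 q.2)
  exact HasFDerivAt.comp_hasDerivAt (l := Φ) q.1 h1 h2

theorem da_congr (h : ∀ p ∈ QO T, Φ p = Ψ p) (hq : q ∈ QO T) (a : ℝ × E) :
    da a Φ q = da a Ψ q := by
  have : Φ =ᶠ[𝓝 q] Ψ := by
    filter_upwards [(isOpen_QO T).mem_nhds hq] with p hp using h p hp
  rw [da, da, this.fderiv_eq]

theorem da_const (c : W) (a : ℝ × E) (q : ℝ × E) : da a (fun _ => c) q = 0 := by
  rw [da]
  simp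

theorem da_add_dir (a b : ℝ × E) (Φ : ℝ × E → W) (q : ℝ × E) :
    da (a + b) Φ q = da a Φ q + da b Φ q := by
  simp only [da, map_add]

theorem da_smul_dir (c : ℝ) (a : ℝ × E) (Φ : ℝ × E → W) (q : ℝ × E) :
    da (c • a) Φ q = c • da a Φ q := by
  simp only [da, map_smul]

/-- The derivatives commute. -/
theorem CO.comm (h : CO T Φ) (hq : q ∈ QO T) (a b : ℝ × E) :
    SphMCF.da a (SphMCF.da b Φ) q = SphMCF.da b (SphMCF.da a Φ) q := by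
  have h1 : DifferentiableAt ℝ (_root_.fderiv ℝ Φ) q :=
    (h.fderiv.contDiffAt ((isOpen_QO T).mem_nhds hq)).differentiableAt (by simp)
  have h2 : ∀ a b : ℝ × E, SphMCF.da a (SphMCF.da b Φ) q =
      _root_.fderiv ℝ (_root_.fderiv ℝ Φ) q a b := by
    intro a b
    have h3 : HasFDerivAt (fun q => _root_.fderiv ℝ Φ q b)
        ((ContinuousLinearMap.apply ℝ W b).comp (_root_.fderiv ℝ (_root_.fderiv ℝ Φ) q)) q :=
      (ContinuousLinearMap.apply ℝ W b).hasFDerivAt.comp q h1.hasFDerivAt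
    show _root_.fderiv ℝ (fun q => _root_.fderiv ℝ Φ q b) q a = _
    rw [h3.fderiv]
    rfl
  rw [h2, h2]
  exact ((h.contDiffAt hq).isSymmSndFDerivAt (by
    rw [minSmoothness_of_isRCLikeNormedField]
    exact WithTop.coe_le_coe.2 (le_top (a := (2 : ℕ∞))))) a b

theorem CO.inner {Φ Ψ : ℝ × E → V} (h1 : CO T Φ) (h2 : CO T Ψ) :
    CO T (fun q => inner ℝ (Φ q) (Ψ q)) := ContDiffOn.inner ℝ h1 h2

theorem CO.da_inner {Φ Ψ : ℝ × E → V} (h1 : CO T Φ) (h2 : CO T Ψ) (hq : q ∈ QO T) (a : ℝ × E) :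
    SphMCF.da a (fun q => Inner.inner ℝ (Φ q) (Ψ q)) q =
      Inner.inner ℝ (SphMCF.da a Φ q) (Ψ q) + Inner.inner ℝ (Φ q) (SphMCF.da a Ψ q) := by
  have h3 := fderiv_inner_apply ℝ (h1.hasFDerivAt hq).differentiableAt
    (h2.hasFDerivAt hq).differentiableAt a
  rw [SphMCF.da, h3, add_comm]
  rfl

/-- A constant inner product. -/
theorem CO.da_inner_const {Φ Ψ : ℝ × E → V} {c : ℝ} (h1 : CO T Φ) (h2 : CO T Ψ)
    (hc : ∀ q ∈ QO T, Inner.inner ℝ (Φ q) (Ψ q) = c) (hq : q ∈ QO T) (a : ℝ × E) :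
    Inner.inner ℝ (SphMCF.da a Φ q) (Ψ q) + Inner.inner ℝ (Φ q) (SphMCF.da a Ψ q) = 0 := by
  rw [← h1.da_inner h2 hq a, da_congr (Ψ := fun _ => c) hc hq, da_const]

theorem CO.mul {f g : ℝ × E → ℝ} (h1 : CO T f) (h2 : CO T g) :
    CO T (fun q => f q * g q) := ContDiffOn.mul h1 h2

theorem CO.da_mul {f g : ℝ × E → ℝ} (h1 : CO T f) (h2 : CO T g) (hq : q ∈ QO T) (a : ℝ × E) :
    SphMCF.da a (fun q => f q * g q) q = SphMCF.da a f q * g q + f q * SphMCF.da a g q := by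
  have h3 := (h1.hasFDerivAt hq).mul (h2.hasFDerivAt hq)
  have h4 : HasFDerivAt (fun q => f q * g q) (f q • _root_.fderiv ℝ g q + g q •
    _root_.fderiv ℝ f q) q := h3
  rw [SphMCF.da, h4.fderiv]
  simp only [SphMCF.da, add_apply, smul_apply,
    smul_eq_mul]
  ring

theorem CO.da_add {Φ Ψ : ℝ × E → W} (h1 : CO T Φ) (h2 : CO T Ψ) (hq : q ∈ QO T) (a : ℝ × E) :
    SphMCF.da a (fun q => Φ q + Ψ q) q = SphMCF.da a Φ q + SphMCF.da a Ψ q := by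
  have h4 : HasFDerivAt (fun q => Φ q + Ψ q) (_root_.fderiv ℝ Φ q + _root_.fderiv ℝ Ψ q) q :=
    (h1.hasFDerivAt hq).add (h2.hasFDerivAt hq)
  rw [SphMCF.da, h4.fderiv]
  rfl

theorem CO.da_sub {Φ Ψ : ℝ × E → W} (h1 : CO T Φ) (h2 : CO T Ψ) (hq : q ∈ QO T) (a : ℝ × E) :
    SphMCF.da a (fun q => Φ q - Ψ q) q = SphMCF.da a Φ q - SphMCF.da a Ψ q := by
  have h4 : HasFDerivAt (fun q => Φ q - Ψ q) (_root_.fderiv ℝ Φ q - _root_.fderiv ℝ Ψ q) q :=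
    (h1.hasFDerivAt hq).sub (h2.hasFDerivAt hq)
  rw [SphMCF.da, h4.fderiv]
  rfl

theorem CO.add {Φ Ψ : ℝ × E → W} (h1 : CO T Φ) (h2 : CO T Ψ) : CO T (fun q => Φ q + Ψ q) :=
  ContDiffOn.add h1 h2

theorem CO.sub {Φ Ψ : ℝ × E → W} (h1 : CO T Φ) (h2 : CO T Ψ) : CO T (fun q => Φ q - Ψ q) :=
  ContDiffOn.sub h1 h2

theorem CO.clm {W' : Type*} [NormedAddCommGroup W'] [NormedSpace ℝ W'] (h : CO T Φ)
    (B : W →L[ℝ] W') : CO T (fun q => B (Φ q)) := B.contDiff.comp_contDiffOn h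

theorem CO.da_clm {W' : Type*} [NormedAddCommGroup W'] [NormedSpace ℝ W'] (h : CO T Φ)
    (B : W →L[ℝ] W') (hq : q ∈ QO T) (a : ℝ × E) :
    SphMCF.da a (fun q => B (Φ q)) q = B (SphMCF.da a Φ q) := by
  have h4 : HasFDerivAt (fun q => B (Φ q)) (B.comp (_root_.fderiv ℝ Φ q)) q :=
    B.hasFDerivAt.comp q (h.hasFDerivAt hq)
  rw [SphMCF.da, h4.fderiv]
  rfl

end Pool.Agent.Helper608.SphMCF
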