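import Mathlib
import Pool.Agent.Helper608.KSp
import Pool.Agent.Helper608.KSlab

/-! The unit normal field of an evolving surface. -/

open Set Metric Filter Topology
open scoped ContDiff

namespace Pool.Agent.Helper608.SphMCF

/-- A `3 × 3` determinant. -/
def d3 (x1 x2 x3 y1 y2 y3 z1 z2 z3 : ℝ) : ℝ :=
  x1 * (y2 * z3 - y3 * z2) - x2 * (y1 * z3 - y3 * z1) + x3 * (y1 * z2 - y2 * z1)

/-- The triple cross product in `ℝ⁴`. -/
noncomputable def cross4 (a b c : V) : V :=
  !₂[d3 (a 1) (a 2) (a 3) (b 1) (b 2) (b 3) (c 1) (c 2) (c 3),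
    -d3 (a 0) (a 2) (a 3) (b 0) (b 2) (b 3) (c 0) (c 2) (c 3),
    d3 (a 0) (a 1) (a 3) (b 0) (b 1) (b 3) (c 0) (c 1) (c 3),
    -d3 (a 0) (a 1) (a 2) (b 0) (b 1) (b 2) (c 0) (c 1) (c 2)]

theorem inner_cross4 (a b c d : V) : inner ℝ (cross4 a b c) d =
    d3 (a 1) (a 2) (a 3) (b 1) (b 2) (b 3) (c 1) (c 2) (c 3) * d 0 -
    d3 (a 0) (a 2) (a 3) (b 0) (b 2) (b 3) (c 0) (c 2) (c 3) * d 1 +
    d3 (a 0) (a 1) (a 3) (b 0) (b 1) (b 3) (c 0) (c 1) (c 3) * d 2 -
    d3 (a 0) (a 1) (a 2) (b 0) (b 1) (b 2) (c 0) (c 1) (c 2) * d 3 := by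
  rw [inner_four, cross4]
  simp
  ring

theorem cross4_left (a b c : V) : inner ℝ (cross4 a b c) a = 0 := by
  rw [inner_cross4]
  unfold d3
  ring

theorem cross4_mid (a b c : V) : inner ℝ (cross4 a b c) b = 0 := by
  rw [inner_cross4]
  unfold d3
  ring

theorem cross4_right (a b c : V) : inner ℝ (cross4 a b c) c = 0 := by
  rw [inner_cross4]
  unfold d3
  ring

theorem cross4_cyc (a b c d : V) : inner ℝ (cross4 a c d) b = inner ℝ (cross4 a b c) d := by
  rw [inner_cross4, inner_cross4]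
  unfold d3
  ring

theorem cross4_gram (a b c : V) : inner ℝ (cross4 a b c) (cross4 a b c) =
    d3 (inner ℝ a a) (inner ℝ a b) (inner ℝ a c) (inner ℝ a b) (inner ℝ b b) (inner ℝ b c)
      (inner ℝ a c) (inner ℝ b c) (inner ℝ c c) := by
  rw [inner_cross4, cross4]
  simp only [inner_four]
  simp
  unfold d3
  ring

theorem cross4_smul (a b c : V) (s t : ℝ) : cross4 a (s • b) (t • c) = (s * t) • cross4 a b c := by
  unfold cross4 d3
  ext i
  fin_cases i <;> simp <;> ring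

/-- The standard basis of `ℝ³`. -/
noncomputable def ep (i : Fin 3) : E := EuclideanSpace.single i 1

theorem ep_expand (v : E) : v = v 0 • ep 0 + v 1 • ep 1 + v 2 • ep 2 := by
  ext i
  fin_cases i <;> simp [ep]

/-! ### Homogeneity -/

section hom

variable {F : S → V}

theorem frame_inner' {x : S} {e : Fin 2 → E} (he : IsFrame F x e) :
    inner ℝ (D F x (e 0)) (D F x (e 0)) = 1 ∧ inner ℝ (D F x (e 1)) (D F x (e 1)) = 1 ∧
      inner ℝ (D F x (e 0)) (D F x (e 1)) = 0 := by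
  have h := he.2
  rw [orthonormal_iff_ite] at h
  have h00 := h 0 0
  have h11 := h 1 1
  have h01 := h 0 1
  simp only [if_true] at h00 h11
  rw [if_neg (by decide)] at h01
  exact ⟨h00, h11, h01⟩

theorem D_scale (hF : IsSmooth F) {y : E} (hy : y ≠ 0) {c : ℝ} (hc : 0 < c) (v : E) :
    D F y v = c • D F (c • y) v := by
  have hcy : c • y ≠ 0 := smul_ne_zero hc.ne' hy
  have h1 := hF.hasFDerivAt hcy
  have h0 : HasFDerivAt (fun y : E => c • y) (c • ContinuousLinearMap.id ℝ E) y :=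
    (hasFDerivAt_id y).const_smul c
  have h2 : HasFDerivAt (fun y : E => F (proj (c • y)))
      ((fderiv ℝ (fun y : E => F (proj y)) (c • y)).comp (c • ContinuousLinearMap.id ℝ E)) y :=
    HasFDerivAt.comp (g := fun y : E => F (proj y)) y h1 h0
  have h4 : (fun y : E => F (proj y)) =ᶠ[𝓝 y] fun y : E => F (proj (c • y)) := by
    filter_upwards [isOpen_ne.mem_nhds hy] with z hz
    rw [proj_smul hz hc]
  rw [D, h4.fderiv_eq, h2.fderiv]
  simp [D]

theorem D2_scale (hF : IsSmooth F) {y : E} (hy : y ≠ 0) {c : ℝ} (hc : 0 < c) (u v : E) :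
    D2 F y u v = (c * c) • D2 F (c • y) u v := by
  have hcy : c • y ≠ 0 := smul_ne_zero hc.ne' hy
  have hd : ContDiffAt ℝ ∞ (fun y : E => D F y v) (c • y) :=
    (hF.contDiffOn_D v).contDiffAt (isOpen_ne.mem_nhds hcy)
  have h1 := (hd.differentiableAt (by simp)).hasFDerivAt
  have h0 : HasFDerivAt (fun y : E => c • y) (c • ContinuousLinearMap.id ℝ E) y :=
    (hasFDerivAt_id y).const_smul c
  have h2 : HasFDerivAt (fun y : E => D F (c • y) v)
      ((fderiv ℝ (fun y : E => D F y v) (c • y)).comp (c • ContinuousLinearMap.id ℝ E)) y :=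
    HasFDerivAt.comp (g := fun y : E => D F y v) y h1 h0
  have h3 := h2.const_smul c
  have h4 : (fun y : E => D F y v) =ᶠ[𝓝 y] fun y : E => c • D F (c • y) v := by
    filter_upwards [isOpen_ne.mem_nhds hy] with z hz
    exact D_scale hF hz hc v
  have h5 : HasFDerivAt (fun y : E => c • D F (c • y) v)
      (c • ((fderiv ℝ (fun y : E => D F y v) (c • y)).comp (c • ContinuousLinearMap.id ℝ E))) y :=
    h3
  rw [D2, h4.fderiv_eq, h5.fderiv]
  simp [D2, smul_smul]

theorem D_hom (hF : IsSmooth F) {y : E} (hy : y ≠ 0) (v : E) :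
    D F y v = ‖y‖⁻¹ • D F (proj y : E) v := by
  rw [coe_proj hy]
  exact D_scale hF hy (inv_pos.2 (norm_pos_iff.2 hy)) v

theorem D2_hom (hF : IsSmooth F) {y : E} (hy : y ≠ 0) (u v : E) :
    D2 F y u v = (‖y‖⁻¹ * ‖y‖⁻¹) • D2 F (proj y : E) u v := by
  rw [coe_proj hy]
  exact D2_scale hF hy (inv_pos.2 (norm_pos_iff.2 hy)) u v

/-- Every vector is a combination of the position and the frame. -/
theorem frame_expand {x : S} {e : Fin 2 → E} (he : IsFrame F x e) (v : E) :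
    ∃ c p0 p1 : ℝ, v = c • (x : E) + p0 • e 0 + p1 • e 1 := by
  have hli : LinearIndependent ℝ ![(x : E), e 0, e 1] := by
    rw [Fintype.linearIndependent_iff]
    intro g hg
    rw [Fin.sum_univ_three] at hg
    simp only [Matrix.cons_val_zero, Matrix.cons_val_one, Matrix.cons_val] at hg
    have h0 : g 0 = 0 := by
      have := congrArg (fun w => inner ℝ (x : E) w) hg
      simp only [inner_add_right, real_inner_smul_right, he.1, inner_zero_right,
        real_inner_self_eq_norm_sq] at this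
      simpa using this
    rw [h0, zero_smul, zero_add] at hg
    have h1 : g 1 • D F x (e 0) + g 2 • D F x (e 1) = 0 := by
      rw [← D_smul, ← D_smul, ← D_add, hg, D_zero]
    have hor := he.2
    rw [orthonormal_iff_ite] at hor
    have k00 := hor 0 0
    have k01 := hor 0 1
    have k11 := hor 1 1
    have k10 := hor 1 0
    simp only [if_true] at k00 k11
    rw [if_neg (by decide)] at k01 k10
    have e1 := congrArg (fun w => inner ℝ (D F x (e 0)) w) h1
    have e2 := congrArg (fun w => inner ℝ (D F x (e 1)) w) h1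
    simp only [inner_add_right, real_inner_smul_right, inner_zero_right, k00, k01, k11, k10,
      mul_one, mul_zero, add_zero, zero_add] at e1 e2
    intro i
    fin_cases i
    · exact h0
    · exact e1
    · exact e2
  have hcard : Fintype.card (Fin 3) = Module.finrank ℝ E := by simp
  let b := basisOfLinearIndependentOfCardEqFinrank hli hcard
  have hb := b.sum_repr v
  rw [Fin.sum_univ_three] at hb
  refine ⟨b.repr v 0, b.repr v 1, b.repr v 2, ?_⟩
  have hbi : ∀ i, b i = ![(x : E), e 0, e 1] i := fun i => by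
    simp [b]
  rw [hbi, hbi, hbi] at hb
  simpa using hb.symm

end hom

/-! ### The normal field -/

section normal

variable {F₀ : S → V} {T : ℝ} {F : ℝ → S → V}

/-- The flow as a function on space-time. -/
noncomputable def GG4 (F : ℝ → S → V) (q : ℝ × E) : V := F q.1 (proj q.2)

/-- The components of the non-normalised normal. -/
noncomputable def W4 (F : ℝ → S → V) (q : ℝ × E) : V :=
  q.2 0 • cross4 (GG4 F q) (dv (ep 1) (GG4 F) q) (dv (ep 2) (GG4 F) q) +
  q.2 1 • cross4 (GG4 F q) (dv (ep 2) (GG4 F) q) (dv (ep 0) (GG4 F) q) +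
  q.2 2 • cross4 (GG4 F q) (dv (ep 0) (GG4 F) q) (dv (ep 1) (GG4 F) q)

/-- The unit normal field. -/
noncomputable def NN (F : ℝ → S → V) (q : ℝ × E) : V := ‖W4 F q‖⁻¹ • W4 F q

theorem dv_GG4 (F : ℝ → S → V) (v : E) (q : ℝ × E) : dv v (GG4 F) q = D (F q.1) q.2 v := rfl

theorem dv_expand {W : Type*} [NormedAddCommGroup W] [NormedSpace ℝ W] (Φ : ℝ × E → W) (v : E)
    (q : ℝ × E) :
    dv v Φ q = v 0 • dv (ep 0) Φ q + v 1 • dv (ep 1) Φ q + v 2 • dv (ep 2) Φ q := by
  conv_lhs => rw [ep_expand v]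
  simp only [dv, map_add, map_smul]

variable (h : IsMCF F₀ (T : EReal) F)
include h

theorem IsMCF.cq : CQ T (GG4 F) := by
  have h1 := h.smooth
  rw [Time_coe] at h1
  exact h1

theorem IsMCF.sm {q : ℝ × E} (hq : q ∈ QT T) : IsSmooth (F q.1) := h.isSmooth' hq.1

theorem IsMCF.inner_G {q : ℝ × E} (hq : q ∈ QT T) : inner ℝ (GG4 F q) (GG4 F q) = 1 := by
  rw [real_inner_self_eq_norm_sq, GG4, h.mem q.1 (by rw [Time_coe]; exact hq.1), one_pow]

theorem IsMCF.dv_self {q : ℝ × E} (hq : q ∈ QT T) :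
    q.2 0 • dv (ep 0) (GG4 F) q + q.2 1 • dv (ep 1) (GG4 F) q + q.2 2 • dv (ep 2) (GG4 F) q = 0 := by
  rw [← dv_expand, dv_GG4]
  exact (h.sm hq).D_self hq.2

theorem IsMCF.W_G {q : ℝ × E} : inner ℝ (W4 F q) (GG4 F q) = 0 := by
  simp only [W4, inner_add_left, real_inner_smul_left, cross4_left]
  ring

theorem IsMCF.W_dv {q : ℝ × E} (hq : q ∈ QT T) (v : E) :
    inner ℝ (W4 F q) (dv v (GG4 F) q) = 0 := by
  have h0 := h.dv_self hq
  set g := GG4 F q
  set g0 := dv (ep 0) (GG4 F) q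
  set g1 := dv (ep 1) (GG4 F) q
  set g2 := dv (ep 2) (GG4 F) q
  set y0 := q.2 0
  set y1 := q.2 1
  set y2 := q.2 2
  set δ := inner ℝ (cross4 g g1 g2) g0 with hδ
  have c1 : inner ℝ (cross4 g g2 g0) g1 = δ := by
    rw [inner_cross4, hδ, inner_cross4]
    unfold d3
    ring
  have c2 : inner ℝ (cross4 g g0 g1) g2 = δ := by
    rw [inner_cross4, hδ, inner_cross4]
    unfold d3
    ring
  have k0 : y0 * δ = 0 := by
    have := congrArg (fun w => inner ℝ (cross4 g g1 g2) w) h0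
    simp only [inner_add_right, real_inner_smul_right, inner_zero_right, cross4_mid,
      cross4_right] at this
    linarith
  have k1 : y1 * δ = 0 := by
    have := congrArg (fun w => inner ℝ (cross4 g g2 g0) w) h0
    simp only [inner_add_right, real_inner_smul_right, inner_zero_right, cross4_mid,
      cross4_right, c1] at this
    linarith
  have k2 : y2 * δ = 0 := by
    have := congrArg (fun w => inner ℝ (cross4 g g0 g1) w) h0
    simp only [inner_add_right, real_inner_smul_right, inner_zero_right, cross4_mid,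
      cross4_right, c2] at this
    linarith
  have hve : dv v (GG4 F) q = v 0 • g0 + v 1 • g1 + v 2 • g2 := dv_expand (GG4 F) v q
  rw [hve]
  have hW : W4 F q = y0 • cross4 g g1 g2 + y1 • cross4 g g2 g0 + y2 • cross4 g g0 g1 := rfl
  rw [hW]
  simp only [inner_add_left, inner_add_right, real_inner_smul_left, real_inner_smul_right,
    cross4_mid, cross4_right, c1, c2, ← hδ]
  linear_combination (v 0) * k0 + (v 1) * k1 + (v 2) * k2

omit h in
theorem cross4_expand (g g0 g1 g2 : V) (u0 u1 u2 v0 v1 v2 : ℝ) :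
    cross4 g (u0 • g0 + u1 • g1 + u2 • g2) (v0 • g0 + v1 • g1 + v2 • g2) =
      (u1 * v2 - u2 * v1) • cross4 g g1 g2 + (u2 * v0 - u0 * v2) • cross4 g g2 g0 +
      (u0 * v1 - u1 * v0) • cross4 g g0 g1 := by
  unfold cross4 d3
  ext i
  fin_cases i <;> simp <;> ring

omit h in
theorem cross_eq {q : ℝ × E} (u v : E) (hu : inner ℝ q.2 u = 0)
    (hv : inner ℝ q.2 v = 0) : (q.2 0 ^ 2 + q.2 1 ^ 2 + q.2 2 ^ 2) •
      cross4 (GG4 F q) (dv u (GG4 F) q) (dv v (GG4 F) q) =
      d3 (q.2 0) (q.2 1) (q.2 2) (u 0) (u 1) (u 2) (v 0) (v 1) (v 2) • W4 F q := by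
  rw [dv_expand (GG4 F) u, dv_expand (GG4 F) v, cross4_expand]
  rw [inner_three] at hu hv
  have e0 : (q.2 0 ^ 2 + q.2 1 ^ 2 + q.2 2 ^ 2) * (u 1 * v 2 - u 2 * v 1) =
      d3 (q.2 0) (q.2 1) (q.2 2) (u 0) (u 1) (u 2) (v 0) (v 1) (v 2) * q.2 0 := by
    unfold d3
    linear_combination (q.2 1 * v 2 - q.2 2 * v 1) * hu - (q.2 1 * u 2 - q.2 2 * u 1) * hv
  have e1 : (q.2 0 ^ 2 + q.2 1 ^ 2 + q.2 2 ^ 2) * (u 2 * v 0 - u 0 * v 2) =
      d3 (q.2 0) (q.2 1) (q.2 2) (u 0) (u 1) (u 2) (v 0) (v 1) (v 2) * q.2 1 := by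
    unfold d3
    linear_combination (q.2 2 * v 0 - q.2 0 * v 2) * hu - (q.2 2 * u 0 - q.2 0 * u 2) * hv
  have e2 : (q.2 0 ^ 2 + q.2 1 ^ 2 + q.2 2 ^ 2) * (u 0 * v 1 - u 1 * v 0) =
      d3 (q.2 0) (q.2 1) (q.2 2) (u 0) (u 1) (u 2) (v 0) (v 1) (v 2) * q.2 2 := by
    unfold d3
    linear_combination (q.2 0 * v 1 - q.2 1 * v 0) * hu - (q.2 0 * u 1 - q.2 1 * u 0) * hv
  rw [W4]
  simp only [smul_add, smul_smul, e0, e1, e2]

theorem IsMCF.W_ne {q : ℝ × E} (hq : q ∈ QT T) : W4 F q ≠ 0 := by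
  intro hW
  have hy : q.2 ≠ 0 := hq.2
  have hsm := h.sm hq
  obtain ⟨e, he⟩ := exists_frame (h.imm q.1 (by rw [Time_coe]; exact hq.1)) (proj q.2)
  obtain ⟨k0, k1, k2⟩ := frame_inner' he
  have hn : 0 < ‖q.2‖ := norm_pos_iff.2 hy
  have hperp : ∀ i, inner ℝ q.2 (e i) = 0 := by
    intro i
    have h1 := he.1 i
    rw [coe_proj hy, real_inner_smul_left] at h1
    exact (mul_eq_zero.1 h1).resolve_left (inv_pos.2 hn).ne'
  have h1 := cross_eq (F := F) (q := q) (e 0) (e 1) (hperp 0) (hperp 1)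
  rw [hW, smul_zero] at h1
  have h2 : q.2 0 ^ 2 + q.2 1 ^ 2 + q.2 2 ^ 2 ≠ 0 := by
    have : inner ℝ q.2 q.2 = ‖q.2‖ ^ 2 := real_inner_self_eq_norm_sq _
    rw [inner_three] at this
    have h3 : 0 < ‖q.2‖ ^ 2 := by positivity
    nlinarith
  have h3 := (smul_eq_zero.1 h1).resolve_left h2
  rw [dv_GG4, dv_GG4, D_hom hsm hy, D_hom hsm hy, cross4_smul] at h3
  have h4 : ‖q.2‖⁻¹ * ‖q.2‖⁻¹ ≠ 0 := by positivity
  have h5 := (smul_eq_zero.1 h3).resolve_left h4
  have h6 := cross4_gram (GG4 F q) (D (F q.1) (proj q.2 : E) (e 0)) (D (F q.1) (proj q.2 : E) (e 1))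
  have h7 : ∀ i, inner ℝ (GG4 F q) (D (F q.1) (proj q.2 : E) (e i)) = 0 := by
    intro i
    rw [real_inner_comm]
    have := inner_D_self (F := F q.1) hsm
      (fun x => h.mem q.1 (by rw [Time_coe]; exact hq.1) x) (coe_ne_zero (proj q.2)) (e i)
    rw [proj_coe] at this
    exact this
  rw [h5, h7, h7, k0, k1, k2, h.inner_G hq] at h6
  simp [d3] at h6

end normal

end Pool.Agent.Helper608.SphMCF
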