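import Mathlib
import Pool.Agent.Helper608.KNor

/-! Smoothness of the unit normal field. -/

open Set Metric Filter Topology
open scoped ContDiff

namespace Pool.Agent.Helper608.SphMCF

theorem cq_coord {T : ℝ} {Φ : ℝ × E → V} (h : CQ T Φ) (i : Fin 4) : CQ T (fun q => Φ q i) :=
  (contDiffOn_euclidean.1 h) i

theorem CQ.cross4 {T : ℝ} {a b c : ℝ × E → V} (ha : CQ T a) (hb : CQ T b) (hc : CQ T c) :
    CQ T (fun q => cross4 (a q) (b q) (c q)) := by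
  have a0 : ContDiffOn ℝ ∞ (fun q => a q 0) (QT T) := cq_coord ha 0
  have a1 : ContDiffOn ℝ ∞ (fun q => a q 1) (QT T) := cq_coord ha 1
  have a2 : ContDiffOn ℝ ∞ (fun q => a q 2) (QT T) := cq_coord ha 2
  have a3 : ContDiffOn ℝ ∞ (fun q => a q 3) (QT T) := cq_coord ha 3
  have b0 : ContDiffOn ℝ ∞ (fun q => b q 0) (QT T) := cq_coord hb 0
  have b1 : ContDiffOn ℝ ∞ (fun q => b q 1) (QT T) := cq_coord hb 1
  have b2 : ContDiffOn ℝ ∞ (fun q => b q 2) (QT T) := cq_coord hb 2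
  have b3 : ContDiffOn ℝ ∞ (fun q => b q 3) (QT T) := cq_coord hb 3
  have c0 : ContDiffOn ℝ ∞ (fun q => c q 0) (QT T) := cq_coord hc 0
  have c1 : ContDiffOn ℝ ∞ (fun q => c q 1) (QT T) := cq_coord hc 1
  have c2 : ContDiffOn ℝ ∞ (fun q => c q 2) (QT T) := cq_coord hc 2
  have c3 : ContDiffOn ℝ ∞ (fun q => c q 3) (QT T) := cq_coord hc 3
  have key : ∀ x1 x2 x3 y1 y2 y3 z1 z2 z3 : ℝ × E → ℝ, ContDiffOn ℝ ∞ x1 (QT T) →
      ContDiffOn ℝ ∞ x2 (QT T) → ContDiffOn ℝ ∞ x3 (QT T) → ContDiffOn ℝ ∞ y1 (QT T) →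
      ContDiffOn ℝ ∞ y2 (QT T) → ContDiffOn ℝ ∞ y3 (QT T) → ContDiffOn ℝ ∞ z1 (QT T) →
      ContDiffOn ℝ ∞ z2 (QT T) → ContDiffOn ℝ ∞ z3 (QT T) → ContDiffOn ℝ ∞
      (fun q => d3 (x1 q) (x2 q) (x3 q) (y1 q) (y2 q) (y3 q) (z1 q) (z2 q) (z3 q)) (QT T) := by
    intro x1 x2 x3 y1 y2 y3 z1 z2 z3 hx1 hx2 hx3 hy1 hy2 hy3 hz1 hz2 hz3
    unfold d3
    exact ((hx1.mul ((hy2.mul hz3).sub (hy3.mul hz2))).sub
      (hx2.mul ((hy1.mul hz3).sub (hy3.mul hz1)))).add (hx3.mul ((hy1.mul hz2).sub (hy2.mul hz1)))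
  refine contDiffOn_euclidean.2 (fun i => ?_)
  fin_cases i
  · exact key _ _ _ _ _ _ _ _ _ a1 a2 a3 b1 b2 b3 c1 c2 c3
  · exact (key _ _ _ _ _ _ _ _ _ a0 a2 a3 b0 b2 b3 c0 c2 c3).neg
  · exact key _ _ _ _ _ _ _ _ _ a0 a1 a3 b0 b1 b3 c0 c1 c3
  · exact (key _ _ _ _ _ _ _ _ _ a0 a1 a2 b0 b1 b2 c0 c1 c2).neg

theorem cq_snd (T : ℝ) (i : Fin 3) : ContDiffOn ℝ ∞ (fun q : ℝ × E => q.2 i) (QT T) := by
  have h : ContDiffOn ℝ ∞ (fun q : ℝ × E => q.2) (QT T) := contDiffOn_snd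
  exact (contDiffOn_euclidean.1 h) i

section

variable {F₀ : S → V} {T : ℝ} {F : ℝ → S → V} (h : IsMCF F₀ (T : EReal) F)
include h

theorem IsMCF.cq_W : CQ T (W4 F) := by
  have hG := h.cq
  exact (((cq_snd T 0).smul (hG.cross4 (hG.dv _) (hG.dv _))).add
    ((cq_snd T 1).smul (hG.cross4 (hG.dv _) (hG.dv _)))).add
    ((cq_snd T 2).smul (hG.cross4 (hG.dv _) (hG.dv _)))

theorem IsMCF.cq_N : CQ T (NN F) := by
  have hW := h.cq_W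
  have h1 : ContDiffOn ℝ ∞ (fun q => ‖W4 F q‖⁻¹) (QT T) :=
    (ContDiffOn.norm ℝ hW (fun q hq => h.W_ne hq)).inv (fun q hq => norm_ne_zero_iff.2 (h.W_ne hq))
  exact h1.smul hW

theorem IsMCF.N_N {q : ℝ × E} (hq : q ∈ QT T) : inner ℝ (NN F q) (NN F q) = 1 := by
  have hW := norm_ne_zero_iff.2 (h.W_ne hq)
  rw [NN, real_inner_smul_left, real_inner_smul_right, real_inner_self_eq_norm_sq]
  field_simp

theorem IsMCF.N_G {q : ℝ × E} : inner ℝ (NN F q) (GG4 F q) = 0 := by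
  rw [NN, real_inner_smul_left, h.W_G, mul_zero]

theorem IsMCF.N_dv {q : ℝ × E} (hq : q ∈ QT T) (v : E) :
    inner ℝ (NN F q) (dv v (GG4 F) q) = 0 := by
  rw [NN, real_inner_smul_left, h.W_dv hq, mul_zero]

theorem IsMCF.W_hom {t : ℝ} {y : E} (hq : (t, y) ∈ QT T) :
    W4 F (t, y) = ‖y‖⁻¹ • W4 F (t, (proj y : E)) := by
  have hy : y ≠ 0 := hq.2
  have hsm := h.sm hq
  have hn : ‖y‖ ≠ 0 := norm_ne_zero_iff.2 hy
  have hG : GG4 F (t, (proj y : E)) = GG4 F (t, y) := by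
    simp only [GG4, proj_coe]
  have hd : ∀ v, dv v (GG4 F) (t, y) = ‖y‖⁻¹ • dv v (GG4 F) (t, (proj y : E)) := by
    intro v
    rw [dv_GG4, dv_GG4]
    exact D_hom hsm hy v
  have hc : ∀ i, y i = ‖y‖ * (proj y : E) i := by
    intro i
    rw [coe_proj hy]
    simp only [PiLp.smul_apply, smul_eq_mul]
    field_simp
  unfold W4
  rw [hd, hd, hd, cross4_smul, cross4_smul, cross4_smul, ← hG]
  simp only [smul_add, smul_smul]
  have e : ∀ i, y i * (‖y‖⁻¹ * ‖y‖⁻¹) = ‖y‖⁻¹ * (proj y : E) i := by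
    intro i
    rw [hc i]
    field_simp
  rw [e, e, e]

theorem IsMCF.N_hom {t : ℝ} {y : E} (hq : (t, y) ∈ QT T) :
    NN F (t, y) = NN F (t, (proj y : E)) := by
  have hy : y ≠ 0 := hq.2
  have hn : 0 < ‖y‖ := norm_pos_iff.2 hy
  have hq' : (t, (proj y : E)) ∈ QT T := ⟨hq.1, coe_ne_zero _⟩
  have hW := norm_ne_zero_iff.2 (h.W_ne hq')
  rw [NN, NN, h.W_hom hq, norm_smul, norm_inv, norm_norm, smul_smul]
  congr 1
  field_simp

end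

end Pool.Agent.Helper608.SphMCF
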