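import Mathlib
import Pool.Agent.Helper608.KNor2

/-! The mean curvature in a general frame. -/

open Set Metric Filter Topology
open scoped ContDiff

namespace Pool.Agent.Helper608.SphMCF

theorem D2_self_right {F : S → V} (hF : IsSmooth F) {y : E} (hy : y ≠ 0) (v : E) :
    D2 F y v y = -D F y v := by
  have hc : HasDerivAt (fun s : ℝ => y + s • v) v 0 := HypMCF.hasDerivAt_line (n := 2) y v 0
  have h1 := hF.hasDerivAt_curve2 hc hc (by simpa using hy)
  have h2 : (fun s : ℝ => D F (y + s • v) (y + s • v)) =ᶠ[𝓝 0] fun _ => (0 : V) := by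
    have hcont : ContinuousAt (fun s : ℝ => y + s • v) 0 := hc.continuousAt
    have hne : ∀ᶠ s in 𝓝 (0 : ℝ), y + s • v ≠ 0 :=
      hcont.eventually_ne (by simpa using hy)
    filter_upwards [hne] with s hs
    exact hF.D_self hs
  have h3 := (h1.congr_of_eventuallyEq h2.symm).unique (hasDerivAt_const (0 : ℝ) (0 : V))
  simp only [zero_smul, add_zero] at h3
  exact eq_neg_of_add_eq_zero_left h3

/-- The polynomial identity behind the change of frame. -/
theorem mcr_alg (a b c d h0 h1 h2 : ℝ) :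
    (c * c + d * d) * (a * a * h0 + 2 * (a * b) * h1 + b * b * h2) -
      2 * (a * c + b * d) * (a * c * h0 + (a * d + b * c) * h1 + b * d * h2) +
      (a * a + b * b) * (c * c * h0 + 2 * (c * d) * h1 + d * d * h2) =
    ((a * a + b * b) * (c * c + d * d) - (a * c + b * d) ^ 2) * (h0 + h2) := by
  ring

/-- The mean curvature of a map in a general frame at a point of the sphere. -/
theorem mcr_point {F : S → V} (hF : IsSmooth F) (hn : ∀ x, ‖F x‖ = 1) {x : S} {e : Fin 2 → E}
    (he : IsFrame F x e) {N : V} (hN : inner ℝ N (F x) = 0) (hN' : ∀ v, inner ℝ N (D F x v) = 0)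
    (u v : E) :
    (inner ℝ (D F x u) (D F x u) * inner ℝ (D F x v) (D F x v) -
      inner ℝ (D F x u) (D F x v) ^ 2) * inner ℝ N (meanCurv F x e) =
    inner ℝ (D F x v) (D F x v) * inner ℝ N (D2 F x u u) -
      2 * inner ℝ (D F x u) (D F x v) * inner ℝ N (D2 F x u v) +
      inner ℝ (D F x u) (D F x u) * inner ℝ N (D2 F x v v) := by
  have hm := inner_meanCurv hF hn he (v := N) (fun i => hN' _)
  rw [hN, mul_zero, add_zero] at hm
  obtain ⟨k0, k1, k2⟩ := frame_inner' he
  obtain ⟨γ, a, b, hu⟩ := frame_expand he u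
  obtain ⟨γ', c, d, hv⟩ := frame_expand he v
  have hx := coe_ne_zero x
  have r1 : ∀ w, inner ℝ N (D2 F x w (x : E)) = 0 := by
    intro w
    rw [D2_self_right hF hx, inner_neg_right, hN', neg_zero]
  have r2 : ∀ w, inner ℝ N (D2 F x (x : E) w) = 0 := by
    intro w
    rw [hF.D2_symm hx, r1]
  have hDu : D F x u = a • D F x (e 0) + b • D F x (e 1) := by
    rw [hu, D_add, D_add, D_smul, D_smul, D_smul, hF.D_self hx, smul_zero, zero_add]
  have hDv : D F x v = c • D F x (e 0) + d • D F x (e 1) := by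
    rw [hv, D_add, D_add, D_smul, D_smul, D_smul, hF.D_self hx, smul_zero, zero_add]
  have hL : ∀ (α β δ : ℝ) (w : E), inner ℝ N (D2 F x (α • (x : E) + β • e 0 + δ • e 1) w) =
      β * inner ℝ N (D2 F x (e 0) w) + δ * inner ℝ N (D2 F x (e 1) w) := by
    intro α β δ w
    rw [IsSmooth.D2_add_left, IsSmooth.D2_add_left, IsSmooth.D2_smul_left, IsSmooth.D2_smul_left,
      IsSmooth.D2_smul_left, inner_add_right, inner_add_right, real_inner_smul_right,
      real_inner_smul_right, real_inner_smul_right, r2]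
    ring
  have hR : ∀ (α β δ : ℝ) (w : E), inner ℝ N (D2 F x w (α • (x : E) + β • e 0 + δ • e 1)) =
      β * inner ℝ N (D2 F x w (e 0)) + δ * inner ℝ N (D2 F x w (e 1)) := by
    intro α β δ w
    rw [hF.D2_symm hx, hL, hF.D2_symm hx (e 0) w, hF.D2_symm hx (e 1) w]
  have hs : D2 F x (e 1) (e 0) = D2 F x (e 0) (e 1) := hF.D2_symm hx _ _
  have guu : inner ℝ (D F x u) (D F x u) = a * a + b * b := by
    rw [hDu]
    simp only [inner_add_left, inner_add_right, real_inner_smul_left, real_inner_smul_right,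
      real_inner_comm (D F x (e 0)) (D F x (e 1)), k0, k1, k2]
    ring
  have gvv : inner ℝ (D F x v) (D F x v) = c * c + d * d := by
    rw [hDv]
    simp only [inner_add_left, inner_add_right, real_inner_smul_left, real_inner_smul_right,
      real_inner_comm (D F x (e 0)) (D F x (e 1)), k0, k1, k2]
    ring
  have guv : inner ℝ (D F x u) (D F x v) = a * c + b * d := by
    rw [hDu, hDv]
    simp only [inner_add_left, inner_add_right, real_inner_smul_left, real_inner_smul_right,
      real_inner_comm (D F x (e 0)) (D F x (e 1)), k0, k1, k2]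
    ring
  have huu : inner ℝ N (D2 F x u u) = a * a * inner ℝ N (D2 F x (e 0) (e 0)) +
      2 * (a * b) * inner ℝ N (D2 F x (e 0) (e 1)) + b * b * inner ℝ N (D2 F x (e 1) (e 1)) := by
    rw [hu, hL, hR, hR, hs]
    ring
  have hvv : inner ℝ N (D2 F x v v) = c * c * inner ℝ N (D2 F x (e 0) (e 0)) +
      2 * (c * d) * inner ℝ N (D2 F x (e 0) (e 1)) + d * d * inner ℝ N (D2 F x (e 1) (e 1)) := by
    rw [hv, hL, hR, hR, hs]
    ring
  have huv : inner ℝ N (D2 F x u v) = a * c * inner ℝ N (D2 F x (e 0) (e 0)) +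
      (a * d + b * c) * inner ℝ N (D2 F x (e 0) (e 1)) +
      b * d * inner ℝ N (D2 F x (e 1) (e 1)) := by
    rw [hu, hv, hL, hR, hR, hs]
    ring
  rw [hm, guu, gvv, guv, huu, hvv, huv]
  ring

section

variable {F₀ : S → V} {T : ℝ} {F : ℝ → S → V} (h : IsMCF F₀ (T : EReal) F)
include h

theorem IsMCF.co : CO T (GG4 F) := h.cq.co

theorem IsMCF.co_N : CO T (NN F) := h.cq_N.co

theorem IsMCF.da_G {q : ℝ × E} (hq : q ∈ QO T) (v : E) :
    da (0, v) (GG4 F) q = D (F q.1) q.2 v := by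
  rw [← h.co.dv_eq hq]
  rfl

theorem IsMCF.da2_G {q : ℝ × E} (hq : q ∈ QO T) (u v : E) :
    da (0, u) (da (0, v) (GG4 F)) q = D2 (F q.1) q.2 u v := by
  have h1 : ∀ p ∈ QO T, da (0, v) (GG4 F) p = dv v (GG4 F) p :=
    fun p hp => (h.co.dv_eq hp v).symm
  rw [da_congr h1 hq, ← ((h.cq.dv v).co).dv_eq hq]
  rfl

theorem IsMCF.dt_G {q : ℝ × E} (hq : q ∈ QO T) {e : Fin 2 → E}
    (he : IsFrame (F q.1) (proj q.2) e) :
    da (1, 0) (GG4 F) q = meanCurv (F q.1) (proj q.2) e := by
  have h1 := h.co.hasDerivAt_time hq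
  have h2 := h.flow q.1 (by rw [Time_coe]; exact (QO_sub T hq).1) (proj q.2) e he
  rw [Time_coe] at h2
  have h3 := h2.hasDerivAt (Ico_mem_nhds hq.1.1 hq.1.2)
  exact h1.unique h3

theorem IsMCF.N_D {q : ℝ × E} (hq : q ∈ QT T) (v : E) :
    inner ℝ (NN F q) (D (F q.1) (proj q.2 : E) v) = 0 := by
  have h1 := h.N_dv hq v
  rw [dv_GG4, D_hom (h.sm hq) hq.2, real_inner_smul_right] at h1
  exact (mul_eq_zero.1 h1).resolve_left (inv_pos.2 (norm_pos_iff.2 hq.2)).ne'

/-- The velocity is normal. -/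
theorem IsMCF.vel {q : ℝ × E} (hq : q ∈ QO T) :
    inner ℝ (da (1, 0) (GG4 F) q) (GG4 F q) = 0 ∧
      ∀ v, inner ℝ (da (1, 0) (GG4 F) q) (da (0, v) (GG4 F) q) = 0 := by
  have hq' := QO_sub T hq
  have hsm := h.sm hq'
  obtain ⟨e, he⟩ := exists_frame (h.imm q.1 (by rw [Time_coe]; exact hq'.1)) (proj q.2)
  obtain ⟨k0, k1, k2⟩ := frame_inner' he
  have hG : inner ℝ (GG4 F q) (GG4 F q) = 1 := h.inner_G hq'
  have hperp : ∀ v, inner ℝ (D (F q.1) (proj q.2 : E) v) (GG4 F q) = 0 := by
    intro v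
    have := inner_D_self (F := F q.1) hsm
      (fun x => h.mem q.1 (by rw [Time_coe]; exact hq'.1) x) (coe_ne_zero (proj q.2)) v
    rw [proj_coe] at this
    exact this
  have hnor : ∀ w, inner ℝ (nor (F q.1) (proj q.2) e w) (GG4 F q) = 0 ∧
      ∀ j, inner ℝ (nor (F q.1) (proj q.2) e w) (D (F q.1) (proj q.2 : E) (e j)) = 0 := by
    intro w
    have hG' : F q.1 (proj q.2) = GG4 F q := rfl
    constructor
    · simp only [nor, Fin.sum_univ_two, inner_sub_left, inner_add_left, real_inner_smul_left,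
        hperp, hG', hG]
      ring
    · intro j
      have hp' : ∀ v, inner ℝ (GG4 F q) (D (F q.1) (proj q.2 : E) v) = 0 := fun v => by
        rw [real_inner_comm, hperp]
      fin_cases j
      · simp only [nor, Fin.sum_univ_two, inner_sub_left, inner_add_left, real_inner_smul_left,
          hp', hG', Fin.zero_eta, k0,
          real_inner_comm (D (F q.1) (proj q.2 : E) (e 0)) (D (F q.1) (proj q.2 : E) (e 1)), k2]
        ring
      · simp only [nor, Fin.sum_univ_two, inner_sub_left, inner_add_left, real_inner_smul_left,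
          hp', hG', Fin.mk_one, k1, k2]
        ring
  rw [h.dt_G hq he]
  constructor
  · rw [meanCurv, Fin.sum_univ_two, inner_add_left, sff, sff, (hnor _).1, (hnor _).1, add_zero]
  · intro v
    rw [h.da_G hq, D_hom hsm hq.2, real_inner_smul_right]
    obtain ⟨c, a, b, hv⟩ := frame_expand he v
    have hDv : D (F q.1) (proj q.2 : E) v = a • D (F q.1) (proj q.2 : E) (e 0) +
        b • D (F q.1) (proj q.2 : E) (e 1) := by
      rw [hv, D_add, D_add, D_smul, D_smul, D_smul, hsm.D_self (coe_ne_zero _), smul_zero,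
        zero_add]
    rw [hDv, meanCurv, Fin.sum_univ_two]
    simp only [sff, inner_add_left, inner_add_right, real_inner_smul_right, (hnor _).2]
    ring

/-- The mean curvature in a general frame. -/
theorem IsMCF.mcr {q : ℝ × E} (hq : q ∈ QO T) (u v : E) :
    (inner ℝ (da (0, u) (GG4 F) q) (da (0, u) (GG4 F) q) *
      inner ℝ (da (0, v) (GG4 F) q) (da (0, v) (GG4 F) q) -
      inner ℝ (da (0, u) (GG4 F) q) (da (0, v) (GG4 F) q) *
      inner ℝ (da (0, u) (GG4 F) q) (da (0, v) (GG4 F) q)) *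
      inner ℝ (NN F q) (da (1, 0) (GG4 F) q) =
    inner ℝ (da (0, v) (GG4 F) q) (da (0, v) (GG4 F) q) *
      inner ℝ (NN F q) (da (0, u) (da (0, u) (GG4 F)) q) -
      2 * (inner ℝ (da (0, u) (GG4 F) q) (da (0, v) (GG4 F) q) *
      inner ℝ (NN F q) (da (0, u) (da (0, v) (GG4 F)) q)) +
      inner ℝ (da (0, u) (GG4 F) q) (da (0, u) (GG4 F) q) *
      inner ℝ (NN F q) (da (0, v) (da (0, v) (GG4 F)) q) := by
  have hq' := QO_sub T hq
  have hsm := h.sm hq'
  obtain ⟨e, he⟩ := exists_frame (h.imm q.1 (by rw [Time_coe]; exact hq'.1)) (proj q.2)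
  have key := mcr_point hsm (fun x => h.mem q.1 (by rw [Time_coe]; exact hq'.1) x) he
    (N := NN F q) h.N_G (fun w => h.N_D hq' w) u v
  rw [← h.dt_G hq he] at key
  rw [h.da_G hq, h.da_G hq, h.da2_G hq, h.da2_G hq, h.da2_G hq, D_hom hsm hq.2 u,
    D_hom hsm hq.2 v, D2_hom hsm hq.2, D2_hom hsm hq.2, D2_hom hsm hq.2]
  simp only [real_inner_smul_left, real_inner_smul_right]
  linear_combination (‖q.2‖⁻¹ ^ 4) * key

end

end Pool.Agent.Helper608.SphMCF
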