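import Mathlib
import Pool.Agent.Helper608.KMcr

/-! The evolution equation of the normal component of a rotation field. -/

open Set Metric Filter Topology
open scoped ContDiff

namespace Pool.Agent.Helper608.SphMCF

/-- Expansion in an orthonormal basis of `ℝ⁴`. -/
theorem basis4 {g a b n : V} (hgg : inner ℝ g g = 1) (haa : inner ℝ a a = 1)
    (hbb : inner ℝ b b = 1) (hnn : inner ℝ n n = 1) (hag : inner ℝ a g = 0)
    (hbg : inner ℝ b g = 0) (hab : inner ℝ a b = 0) (hng : inner ℝ n g = 0)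
    (hna : inner ℝ n a = 0) (hnb : inner ℝ n b = 0) (X Y : V) :
    inner ℝ X Y = inner ℝ X g * inner ℝ Y g + inner ℝ X a * inner ℝ Y a +
      inner ℝ X b * inner ℝ Y b + inner ℝ X n * inner ℝ Y n := by
  have hga : inner ℝ g a = 0 := by rw [real_inner_comm]; exact hag
  have hgb : inner ℝ g b = 0 := by rw [real_inner_comm]; exact hbg
  have hba : inner ℝ b a = 0 := by rw [real_inner_comm]; exact hab
  have hgn : inner ℝ g n = 0 := by rw [real_inner_comm]; exact hng
  have han : inner ℝ a n = 0 := by rw [real_inner_comm]; exact hna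
  have hbn : inner ℝ b n = 0 := by rw [real_inner_comm]; exact hnb
  have hon : Orthonormal ℝ ![g, a, b, n] := by
    rw [orthonormal_iff_ite]
    intro i j
    fin_cases i <;> fin_cases j <;> simp [hgg, haa, hbb, hnn, hag, hbg, hab, hng, hna, hnb, hga,
      hgb, hba, hgn, han, hbn, -inner_self_eq_norm_sq_to_K]
  have hsp : ⊤ ≤ Submodule.span ℝ (Set.range ![g, a, b, n]) :=
    (hon.linearIndependent.span_eq_top_of_card_eq_finrank' (by simp)).ge
  have h1 := (OrthonormalBasis.mk hon hsp).sum_inner_mul_inner X Y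
  rw [Fin.sum_univ_four] at h1
  simp only [OrthonormalBasis.coe_mk, Matrix.cons_val_zero, Matrix.cons_val_one,
    Matrix.cons_val] at h1
  rw [← h1, real_inner_comm g Y, real_inner_comm a Y, real_inner_comm b Y, real_inner_comm n Y]

/-- The generator of the rotations, as a linear map. -/
noncomputable def BLin : V →ₗ[ℝ] V where
  toFun y := !₂[-y 1, y 0, 0, 0]
  map_add' x y := by
    ext i
    fin_cases i <;> simp <;> ring
  map_smul' c x := by
    ext i
    fin_cases i <;> simp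

/-- The generator of the rotations. -/
noncomputable def BB : V →L[ℝ] V := LinearMap.toContinuousLinearMap BLin

theorem BB_apply (y : V) : BB y = !₂[-y 1, y 0, 0, 0] := rfl

theorem BB_skew (x y : V) : inner ℝ (BB x) y = -inner ℝ x (BB y) := by
  rw [BB_apply, BB_apply, inner_four, inner_four]
  simp

theorem BB_self (x : V) : inner ℝ (BB x) x = 0 := by
  have := BB_skew x x
  rw [real_inner_comm] at this
  have h2 := real_inner_comm (BB x) x
  linarith

/-- The normal component of the rotation field. -/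
noncomputable def UU (F : ℝ → S → V) (q : ℝ × E) : ℝ := inner ℝ (BB (GG4 F q)) (NN F q)

section

variable {F₀ : S → V} {T : ℝ} {F : ℝ → S → V} (h : IsMCF F₀ (T : EReal) F)
include h

variable {q : ℝ × E} (hq : q ∈ QO T)
include hq

theorem IsMCF.NdN (a : ℝ × E) : inner ℝ (da a (NN F) q) (NN F q) = 0 := by
  have h1 := h.co_N.da_inner_const h.co_N (fun p hp => h.N_N (QO_sub T hp)) hq a
  rw [real_inner_comm (da a (NN F) q) (NN F q)] at h1
  linarith

theorem IsMCF.GdG (a : ℝ × E) : inner ℝ (da a (GG4 F) q) (GG4 F q) = 0 := by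
  have h1 := h.co.da_inner_const h.co (fun p hp => h.inner_G (QO_sub T hp)) hq a
  rw [real_inner_comm (da a (GG4 F) q) (GG4 F q)] at h1
  linarith

omit hq in
theorem IsMCF.N_da {p : ℝ × E} (hp : p ∈ QO T) (v : E) :
    inner ℝ (NN F p) (da (0, v) (GG4 F) p) = 0 := by
  rw [← h.co.dv_eq hp]
  exact h.N_dv (QO_sub T hp) v

theorem IsMCF.NdG (a : ℝ × E) :
    inner ℝ (da a (NN F) q) (GG4 F q) = -inner ℝ (NN F q) (da a (GG4 F) q) := by
  have h1 := h.co_N.da_inner_const h.co (fun p _ => h.N_G) hq a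
  linarith

theorem IsMCF.NdG' (v : E) : inner ℝ (da (0, v) (NN F) q) (GG4 F q) = 0 := by
  rw [h.NdG hq, h.N_da hq, neg_zero]

theorem IsMCF.NdD (a : ℝ × E) (v : E) :
    inner ℝ (da a (NN F) q) (da (0, v) (GG4 F) q) =
      -inner ℝ (NN F q) (da a (da (0, v) (GG4 F)) q) := by
  have h1 := h.co_N.da_inner_const (h.co.da (0, v)) (fun p hp => h.N_da hp v) hq a
  linarith

theorem IsMCF.NddN (a b : ℝ × E) :
    inner ℝ (da a (da b (NN F)) q) (NN F q) =
      -inner ℝ (da b (NN F) q) (da a (NN F) q) := by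
  have h1 := (h.co_N.da b).da_inner_const h.co_N (fun p hp => h.NdN hp b) hq a
  linarith

theorem IsMCF.GddG (a b : ℝ × E) :
    inner ℝ (da a (da b (GG4 F)) q) (GG4 F q) =
      -inner ℝ (da b (GG4 F) q) (da a (GG4 F) q) := by
  have h1 := (h.co.da b).da_inner_const h.co (fun p hp => h.GdG hp b) hq a
  linarith

theorem IsMCF.NddD (z w v : E) :
    inner ℝ (da (0, z) (da (0, w) (NN F)) q) (da (0, v) (GG4 F) q) =
      -inner ℝ (da (0, w) (NN F) q) (da (0, z) (da (0, v) (GG4 F)) q) -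
      inner ℝ (da (0, z) (NN F) q) (da (0, w) (da (0, v) (GG4 F)) q) -
      inner ℝ (NN F q) (da (0, z) (da (0, w) (da (0, v) (GG4 F))) q) := by
  have c1 := (h.co_N.da (0, w)).da_inner (h.co.da (0, v)) hq (0, z)
  have c2 := h.co_N.da_inner ((h.co.da (0, v)).da (0, w)) hq (0, z)
  have c3 : ∀ p ∈ QO T, inner ℝ (da (0, w) (NN F) p) (da (0, v) (GG4 F) p) +
      inner ℝ (NN F p) (da (0, w) (da (0, v) (GG4 F)) p) = 0 := by
    intro p hp
    rw [h.NdD hp]
    ring
  have c4 := ((h.co_N.da (0, w)).inner (h.co.da (0, v))).da_add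
    (h.co_N.inner ((h.co.da (0, v)).da (0, w))) hq (0, z)
  rw [da_congr (Ψ := fun _ => (0 : ℝ)) c3 hq, da_const, c1, c2] at c4
  linarith

/-- First derivatives of `UU`. -/
theorem IsMCF.da_U (a : ℝ × E) : da a (UU F) q =
    inner ℝ (BB (da a (GG4 F) q)) (NN F q) + inner ℝ (BB (GG4 F q)) (da a (NN F) q) := by
  have h1 := (h.co.clm BB).da_inner h.co_N hq a
  rw [h.co.da_clm BB hq a] at h1
  exact h1

omit hq in
theorem IsMCF.co_U : CO T (UU F) := (h.co.clm BB).inner h.co_N

/-- Second derivatives of `UU`. -/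
theorem IsMCF.da2_U (a b : ℝ × E) : da a (da b (UU F)) q =
    inner ℝ (BB (da a (da b (GG4 F)) q)) (NN F q) +
      inner ℝ (BB (da b (GG4 F) q)) (da a (NN F) q) +
      (inner ℝ (BB (da a (GG4 F) q)) (da b (NN F) q) +
      inner ℝ (BB (GG4 F q)) (da a (da b (NN F)) q)) := by
  have c1 := ((h.co.da b).clm BB).da_inner h.co_N hq a
  have c2 := (h.co.clm BB).da_inner (h.co_N.da b) hq a
  rw [(h.co.da b).da_clm BB hq a] at c1
  rw [h.co.da_clm BB hq a] at c2
  have c3 : ∀ p ∈ QO T, da b (UU F) p = inner ℝ (BB (da b (GG4 F) p)) (NN F p) +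
      inner ℝ (BB (GG4 F p)) (da b (NN F) p) := fun p hp => h.da_U hp b
  have c4 := (((h.co.da b).clm BB).inner h.co_N).da_add
    ((h.co.clm BB).inner (h.co_N.da b)) hq a
  rw [da_congr c3 hq, c4, c1, c2]

/-- The derivative of the relation between the velocity and the second fundamental form. -/
theorem IsMCF.mcr_deriv (u v : E) (a : ℝ × E)
    (huu : inner ℝ (da (0, u) (GG4 F) q) (da (0, u) (GG4 F) q) = 1)
    (hvv : inner ℝ (da (0, v) (GG4 F) q) (da (0, v) (GG4 F) q) = 1)
    (huv : inner ℝ (da (0, u) (GG4 F) q) (da (0, v) (GG4 F) q) = 0) :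
    (2 * inner ℝ (da a (da (0, u) (GG4 F)) q) (da (0, u) (GG4 F) q) +
      2 * inner ℝ (da a (da (0, v) (GG4 F)) q) (da (0, v) (GG4 F) q)) *
      inner ℝ (NN F q) (da (1, 0) (GG4 F) q) +
      (inner ℝ (da a (NN F) q) (da (1, 0) (GG4 F) q) +
        inner ℝ (NN F q) (da a (da (1, 0) (GG4 F)) q)) =
    2 * inner ℝ (da a (da (0, v) (GG4 F)) q) (da (0, v) (GG4 F) q) *
      inner ℝ (NN F q) (da (0, u) (da (0, u) (GG4 F)) q) +
      (inner ℝ (da a (NN F) q) (da (0, u) (da (0, u) (GG4 F)) q) +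
        inner ℝ (NN F q) (da a (da (0, u) (da (0, u) (GG4 F))) q)) -
      2 * ((inner ℝ (da a (da (0, u) (GG4 F)) q) (da (0, v) (GG4 F) q) +
        inner ℝ (da (0, u) (GG4 F) q) (da a (da (0, v) (GG4 F)) q)) *
        inner ℝ (NN F q) (da (0, u) (da (0, v) (GG4 F)) q)) +
      2 * inner ℝ (da a (da (0, u) (GG4 F)) q) (da (0, u) (GG4 F) q) *
      inner ℝ (NN F q) (da (0, v) (da (0, v) (GG4 F)) q) +
      (inner ℝ (da a (NN F) q) (da (0, v) (da (0, v) (GG4 F)) q) +
        inner ℝ (NN F q) (da a (da (0, v) (da (0, v) (GG4 F))) q)) := by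
  have gu := h.co.da (0, u)
  have gv := h.co.da (0, v)
  have guu := gu.da (0, u)
  have guv := gv.da (0, u)
  have gvv := gv.da (0, v)
  have gt := h.co.da (1, 0)
  have n := h.co_N
  have iuu := gu.inner gu
  have ivv := gv.inner gv
  have iuv := gu.inner gv
  have iη := n.inner gt
  have k1 := iuu.mul ivv
  have k2 := iuv.mul iuv
  have k3 := k1.sub k2
  have L := k3.da_mul iη hq a
  rw [k1.da_sub k2 hq a, iuu.da_mul ivv hq a, iuv.da_mul iuv hq a, gu.da_inner gu hq a,
    gv.da_inner gv hq a, gu.da_inner gv hq a, n.da_inner gt hq a] at L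
  have m1 := n.inner guu
  have m2 := n.inner guv
  have m3 := n.inner gvv
  have r1 := ivv.mul m1
  have r2 := iuv.mul m2
  have r3 := iuu.mul m3
  have r2' : CO T (fun q => 2 * (inner ℝ (da (0, u) (GG4 F) q) (da (0, v) (GG4 F) q) *
      inner ℝ (NN F q) (da (0, u) (da (0, v) (GG4 F)) q))) := contDiffOn_const.mul r2
  have hc2 : CO T (fun _ : ℝ × E => (2 : ℝ)) := contDiffOn_const
  have d2 := hc2.da_mul r2 hq a
  rw [da_const] at d2
  have R := (r1.sub r2').da_add r3 hq a
  rw [r1.da_sub r2' hq a, ivv.da_mul m1 hq a, iuu.da_mul m3 hq a, d2, iuv.da_mul m2 hq a,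
    gu.da_inner gu hq a, gv.da_inner gv hq a, gu.da_inner gv hq a, n.da_inner guu hq a,
    n.da_inner guv hq a, n.da_inner gvv hq a] at R
  have E := da_congr (T := T) (fun p hp => h.mcr hp u v) hq a
  rw [L, R] at E
  rw [huu, hvv, huv] at E
  have s1 := real_inner_comm (da (0, u) (GG4 F) q) (da a (da (0, u) (GG4 F)) q)
  have s2 := real_inner_comm (da (0, v) (GG4 F) q) (da a (da (0, v) (GG4 F)) q)
  rw [← s1, ← s2] at E
  linear_combination E

end

end Pool.Agent.Helper608.SphMCF
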