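import Mathlib
import Pool.Agent.Helper608.KJac

/-! The evolution inequality at a critical point. -/

open Set Metric Filter Topology
open scoped ContDiff

namespace Pool.Agent.Helper608.SphMCF

/-- The final algebraic identity. -/
theorem evo_alg {u β0 β1 δ0 δ1 γ h00 h01 h11 P000 P001 P010 P011 P110 P111 T000 T001 T011 T111
    τ0 τ1 : ℝ} (e0 : δ0 = β0 * h00 + β1 * h01) (e1 : δ1 = β0 * h01 + β1 * h11)
    (m0 : (2 * P000 + 2 * P011) * (h00 + h11) + (0 + τ0) =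
      2 * P011 * h00 + (-h00 * P000 - h01 * P001 + T000) -
      2 * ((P001 + P010) * h01) + 2 * P000 * h11 + (-h00 * P110 - h01 * P111 + T011))
    (m1 : (2 * P010 + 2 * P111) * (h00 + h11) + (0 + τ1) =
      2 * P111 * h00 + (-h01 * P000 - h11 * P001 + T001) -
      2 * ((P011 + P110) * h01) + 2 * P010 * h11 + (-h01 * P110 - h11 * P111 + T111)) :
    -(β0 * τ0) - β1 * τ1 =
      ((-u + P000 * δ0 + P001 * δ1) + (-(γ * h01)) + (-(γ * h01) +
        (β0 * (2 * (h00 * P000 + h01 * P001) - T000) +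
          β1 * (2 * (h00 * P010 + h01 * P011) - T001) - u * (h00 ^ 2 + h01 ^ 2)))) +
      ((-u + P110 * δ0 + P111 * δ1) + γ * h01 + (γ * h01 +
        (β0 * (2 * (h01 * P010 + h11 * P011) - T011) +
          β1 * (2 * (h01 * P110 + h11 * P111) - T111) - u * (h01 ^ 2 + h11 ^ 2)))) +
      (2 + (h00 ^ 2 + 2 * h01 ^ 2 + h11 ^ 2)) * u := by
  subst e0 e1
  linear_combination (-β0) * m0 - β1 * m1

section

variable {F₀ : S → V} {T : ℝ} {F : ℝ → S → V} (h : IsMCF F₀ (T : EReal) F)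
include h

theorem IsMCF.evol {t : ℝ} {x : S} (hq : (t, (x : E)) ∈ QO T) {e : Fin 2 → E}
    (he : IsFrame (F t) x e) (hU0 : da (0, e 0) (UU F) (t, (x : E)) = 0)
    (hU1 : da (0, e 1) (UU F) (t, (x : E)) = 0) :
    da (1, 0) (UU F) (t, (x : E)) =
      da (0, e 0) (da (0, e 0) (UU F)) (t, (x : E)) +
      da (0, e 1) (da (0, e 1) (UU F)) (t, (x : E)) +
      (2 + ((inner ℝ (NN F (t, (x : E))) (da (0, e 0) (da (0, e 0) (GG4 F)) (t, (x : E)))) ^ 2 +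
        2 * (inner ℝ (NN F (t, (x : E))) (da (0, e 0) (da (0, e 1) (GG4 F)) (t, (x : E)))) ^ 2 +
        (inner ℝ (NN F (t, (x : E))) (da (0, e 1) (da (0, e 1) (GG4 F)) (t, (x : E)))) ^ 2)) *
      UU F (t, (x : E)) := by
  set q : ℝ × E := (t, (x : E)) with hqdef
  have hq' := QO_sub T hq
  obtain ⟨k0, k1, k2⟩ := frame_inner' he
  have hgg : inner ℝ (GG4 F q) (GG4 F q) = 1 := h.inner_G hq'
  have haa : inner ℝ (da (0, e 0) (GG4 F) q) (da (0, e 0) (GG4 F) q) = 1 := by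
    rw [h.da_G hq]
    exact k0
  have hbb : inner ℝ (da (0, e 1) (GG4 F) q) (da (0, e 1) (GG4 F) q) = 1 := by
    rw [h.da_G hq]
    exact k1
  have hab : inner ℝ (da (0, e 0) (GG4 F) q) (da (0, e 1) (GG4 F) q) = 0 := by
    rw [h.da_G hq, h.da_G hq]
    exact k2
  have hba : inner ℝ (da (0, e 1) (GG4 F) q) (da (0, e 0) (GG4 F) q) = 0 := by
    rw [real_inner_comm]
    exact hab
  have hnn : inner ℝ (NN F q) (NN F q) = 1 := h.N_N hq'
  have hag := h.GdG hq (0, e 0)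
  have hbg := h.GdG hq (0, e 1)
  have hng : inner ℝ (NN F q) (GG4 F q) = 0 := h.N_G
  have hna := h.N_da hq (e 0)
  have hnb := h.N_da hq (e 1)
  have ex := basis4 hgg haa hbb hnn hag hbg hab hng hna hnb
  have hvel := h.vel hq
  have hcomm : da (0, e 1) (da (0, e 0) (GG4 F)) q = da (0, e 0) (da (0, e 1) (GG4 F)) q :=
    h.co.comm hq _ _
  have hcf : ∀ p ∈ QO T, da (0, e 1) (da (0, e 0) (GG4 F)) p =
      da (0, e 0) (da (0, e 1) (GG4 F)) p := fun p hp => h.co.comm hp _ _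
  have hT011 : da (0, e 1) (da (0, e 1) (da (0, e 0) (GG4 F))) q =
      da (0, e 0) (da (0, e 1) (da (0, e 1) (GG4 F))) q := by
    rw [da_congr hcf hq]
    exact (h.co.da _).comm hq _ _
  have hT001 : da (0, e 1) (da (0, e 0) (da (0, e 0) (GG4 F))) q =
      da (0, e 0) (da (0, e 0) (da (0, e 1) (GG4 F))) q := by
    rw [(h.co.da (0, e 0)).comm hq, da_congr hcf hq]
  have hm0 := h.mcr_deriv hq (e 0) (e 1) (0, e 0) haa hbb hab
  have hm1 := h.mcr_deriv hq (e 0) (e 1) (0, e 1) haa hbb hab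
  have hη := h.mcr hq (e 0) (e 1)
  rw [haa, hbb, hab] at hη
  rw [hcomm] at hm1
  rw [hT001] at hm1
  -- the derivatives of the normal
  have n0n := h.NdN hq (0, e 0)
  have n1n := h.NdN hq (0, e 1)
  have n0g := h.NdG' hq (e 0)
  have n1g := h.NdG' hq (e 1)
  have n0a := h.NdD hq (0, e 0) (e 0)
  have n0b := h.NdD hq (0, e 0) (e 1)
  have n1a := h.NdD hq (0, e 1) (e 0)
  have n1b := h.NdD hq (0, e 1) (e 1)
  rw [hcomm] at n1a
  have n00n := h.NddN hq (0, e 0) (0, e 0)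
  have n11n := h.NddN hq (0, e 1) (0, e 1)
  have n00a := h.NddD hq (e 0) (e 0) (e 0)
  have n00b := h.NddD hq (e 0) (e 0) (e 1)
  have n11a := h.NddD hq (e 1) (e 1) (e 0)
  have n11b := h.NddD hq (e 1) (e 1) (e 1)
  rw [hcomm, hT011] at n11a
  have nta := h.NdD hq (1, 0) (e 0)
  have ntb := h.NdD hq (1, 0) (e 1)
  have ntn := h.NdN hq (1, 0)
  rw [h.co.comm hq (1, 0) (0, e 0)] at nta
  rw [h.co.comm hq (1, 0) (0, e 1)] at ntb
  -- second derivatives of the map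
  have g00g := h.GddG hq (0, e 0) (0, e 0)
  have g11g := h.GddG hq (0, e 1) (0, e 1)
  rw [haa] at g00g
  rw [hbb] at g11g
  -- the rotation field
  have hUq : UU F q = inner ℝ (BB (GG4 F q)) (NN F q) := rfl
  have b1 : inner ℝ (BB (NN F q)) (GG4 F q) = -inner ℝ (BB (GG4 F q)) (NN F q) := by
    rw [BB_skew, real_inner_comm]
  have b2 : inner ℝ (BB (NN F q)) (da (0, e 0) (GG4 F) q) =
      -inner ℝ (BB (da (0, e 0) (GG4 F) q)) (NN F q) := by
    rw [BB_skew, real_inner_comm]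
  have b3 : inner ℝ (BB (NN F q)) (da (0, e 1) (GG4 F) q) =
      -inner ℝ (BB (da (0, e 1) (GG4 F) q)) (NN F q) := by
    rw [BB_skew, real_inner_comm]
  have b4 : inner ℝ (BB (da (0, e 1) (GG4 F) q)) (da (0, e 0) (GG4 F) q) =
      -inner ℝ (BB (da (0, e 0) (GG4 F) q)) (da (0, e 1) (GG4 F) q) := by
    rw [BB_skew, real_inner_comm]
  -- expansions
  have x1 : inner ℝ (BB (da (0, e 0) (da (0, e 0) (GG4 F)) q)) (NN F q) =
      -inner ℝ (BB (GG4 F q)) (NN F q) +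
      inner ℝ (da (0, e 0) (da (0, e 0) (GG4 F)) q) (da (0, e 0) (GG4 F) q) *
        inner ℝ (BB (da (0, e 0) (GG4 F) q)) (NN F q) +
      inner ℝ (da (0, e 0) (da (0, e 0) (GG4 F)) q) (da (0, e 1) (GG4 F) q) *
        inner ℝ (BB (da (0, e 1) (GG4 F) q)) (NN F q) := by
    rw [BB_skew, ex (da (0, e 0) (da (0, e 0) (GG4 F)) q) (BB (NN F q)), BB_self, b1, b2, b3, g00g]
    ring
  have x2 : inner ℝ (BB (da (0, e 1) (da (0, e 1) (GG4 F)) q)) (NN F q) =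
      -inner ℝ (BB (GG4 F q)) (NN F q) +
      inner ℝ (da (0, e 1) (da (0, e 1) (GG4 F)) q) (da (0, e 0) (GG4 F) q) *
        inner ℝ (BB (da (0, e 0) (GG4 F) q)) (NN F q) +
      inner ℝ (da (0, e 1) (da (0, e 1) (GG4 F)) q) (da (0, e 1) (GG4 F) q) *
        inner ℝ (BB (da (0, e 1) (GG4 F) q)) (NN F q) := by
    rw [BB_skew, ex (da (0, e 1) (da (0, e 1) (GG4 F)) q) (BB (NN F q)), BB_self, b1, b2, b3, g11g]
    ring
  have x3 : inner ℝ (BB (da (0, e 0) (GG4 F) q)) (da (0, e 0) (NN F) q) =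
      -(inner ℝ (BB (da (0, e 0) (GG4 F) q)) (da (0, e 1) (GG4 F) q) *
        inner ℝ (NN F q) (da (0, e 0) (da (0, e 1) (GG4 F)) q)) := by
    rw [ex (BB (da (0, e 0) (GG4 F) q)) (da (0, e 0) (NN F) q), BB_self, n0n, n0g, n0b]
    ring
  have x4 : inner ℝ (BB (da (0, e 1) (GG4 F) q)) (da (0, e 1) (NN F) q) =
      inner ℝ (BB (da (0, e 0) (GG4 F) q)) (da (0, e 1) (GG4 F) q) *
        inner ℝ (NN F q) (da (0, e 0) (da (0, e 1) (GG4 F)) q) := by
    rw [ex (BB (da (0, e 1) (GG4 F) q)) (da (0, e 1) (NN F) q), BB_self, n1n, n1g, n1a, b4]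
    ring
  have y00 : inner ℝ (da (0, e 0) (NN F) q) (da (0, e 0) (da (0, e 0) (GG4 F)) q) =
      -(inner ℝ (NN F q) (da (0, e 0) (da (0, e 0) (GG4 F)) q)) *
        inner ℝ (da (0, e 0) (da (0, e 0) (GG4 F)) q) (da (0, e 0) (GG4 F) q) -
      inner ℝ (NN F q) (da (0, e 0) (da (0, e 1) (GG4 F)) q) *
        inner ℝ (da (0, e 0) (da (0, e 0) (GG4 F)) q) (da (0, e 1) (GG4 F) q) := by
    rw [ex (da (0, e 0) (NN F) q) (da (0, e 0) (da (0, e 0) (GG4 F)) q), n0n, n0g, n0a, n0b]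
    ring
  have y01 : inner ℝ (da (0, e 0) (NN F) q) (da (0, e 0) (da (0, e 1) (GG4 F)) q) =
      -(inner ℝ (NN F q) (da (0, e 0) (da (0, e 0) (GG4 F)) q)) *
        inner ℝ (da (0, e 0) (da (0, e 1) (GG4 F)) q) (da (0, e 0) (GG4 F) q) -
      inner ℝ (NN F q) (da (0, e 0) (da (0, e 1) (GG4 F)) q) *
        inner ℝ (da (0, e 0) (da (0, e 1) (GG4 F)) q) (da (0, e 1) (GG4 F) q) := by
    rw [ex (da (0, e 0) (NN F) q) (da (0, e 0) (da (0, e 1) (GG4 F)) q), n0n, n0g, n0a, n0b]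
    ring
  have y011 : inner ℝ (da (0, e 0) (NN F) q) (da (0, e 1) (da (0, e 1) (GG4 F)) q) =
      -(inner ℝ (NN F q) (da (0, e 0) (da (0, e 0) (GG4 F)) q)) *
        inner ℝ (da (0, e 1) (da (0, e 1) (GG4 F)) q) (da (0, e 0) (GG4 F) q) -
      inner ℝ (NN F q) (da (0, e 0) (da (0, e 1) (GG4 F)) q) *
        inner ℝ (da (0, e 1) (da (0, e 1) (GG4 F)) q) (da (0, e 1) (GG4 F) q) := by
    rw [ex (da (0, e 0) (NN F) q) (da (0, e 1) (da (0, e 1) (GG4 F)) q), n0n, n0g, n0a, n0b]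
    ring
  have y100 : inner ℝ (da (0, e 1) (NN F) q) (da (0, e 0) (da (0, e 0) (GG4 F)) q) =
      -(inner ℝ (NN F q) (da (0, e 0) (da (0, e 1) (GG4 F)) q)) *
        inner ℝ (da (0, e 0) (da (0, e 0) (GG4 F)) q) (da (0, e 0) (GG4 F) q) -
      inner ℝ (NN F q) (da (0, e 1) (da (0, e 1) (GG4 F)) q) *
        inner ℝ (da (0, e 0) (da (0, e 0) (GG4 F)) q) (da (0, e 1) (GG4 F) q) := by
    rw [ex (da (0, e 1) (NN F) q) (da (0, e 0) (da (0, e 0) (GG4 F)) q), n1n, n1g, n1a, n1b]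
    ring
  have y101 : inner ℝ (da (0, e 1) (NN F) q) (da (0, e 0) (da (0, e 1) (GG4 F)) q) =
      -(inner ℝ (NN F q) (da (0, e 0) (da (0, e 1) (GG4 F)) q)) *
        inner ℝ (da (0, e 0) (da (0, e 1) (GG4 F)) q) (da (0, e 0) (GG4 F) q) -
      inner ℝ (NN F q) (da (0, e 1) (da (0, e 1) (GG4 F)) q) *
        inner ℝ (da (0, e 0) (da (0, e 1) (GG4 F)) q) (da (0, e 1) (GG4 F) q) := by
    rw [ex (da (0, e 1) (NN F) q) (da (0, e 0) (da (0, e 1) (GG4 F)) q), n1n, n1g, n1a, n1b]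
    ring
  have y111 : inner ℝ (da (0, e 1) (NN F) q) (da (0, e 1) (da (0, e 1) (GG4 F)) q) =
      -(inner ℝ (NN F q) (da (0, e 0) (da (0, e 1) (GG4 F)) q)) *
        inner ℝ (da (0, e 1) (da (0, e 1) (GG4 F)) q) (da (0, e 0) (GG4 F) q) -
      inner ℝ (NN F q) (da (0, e 1) (da (0, e 1) (GG4 F)) q) *
        inner ℝ (da (0, e 1) (da (0, e 1) (GG4 F)) q) (da (0, e 1) (GG4 F) q) := by
    rw [ex (da (0, e 1) (NN F) q) (da (0, e 1) (da (0, e 1) (GG4 F)) q), n1n, n1g, n1a, n1b]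
    ring
  have z0 : inner ℝ (da (0, e 0) (NN F) q) (da (0, e 0) (NN F) q) =
      inner ℝ (NN F q) (da (0, e 0) (da (0, e 0) (GG4 F)) q) ^ 2 +
      inner ℝ (NN F q) (da (0, e 0) (da (0, e 1) (GG4 F)) q) ^ 2 := by
    rw [ex (da (0, e 0) (NN F) q) (da (0, e 0) (NN F) q), n0n, n0g, n0a, n0b]
    ring
  have z1 : inner ℝ (da (0, e 1) (NN F) q) (da (0, e 1) (NN F) q) =
      inner ℝ (NN F q) (da (0, e 0) (da (0, e 1) (GG4 F)) q) ^ 2 +
      inner ℝ (NN F q) (da (0, e 1) (da (0, e 1) (GG4 F)) q) ^ 2 := by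
    rw [ex (da (0, e 1) (NN F) q) (da (0, e 1) (NN F) q), n1n, n1g, n1a, n1b]
    ring
  have w0 : inner ℝ (da (0, e 0) (NN F) q) (da (1, 0) (GG4 F) q) = 0 := by
    rw [ex (da (0, e 0) (NN F) q) (da (1, 0) (GG4 F) q), hvel.1, hvel.2, hvel.2, n0n]
    ring
  have w1 : inner ℝ (da (0, e 1) (NN F) q) (da (1, 0) (GG4 F) q) = 0 := by
    rw [ex (da (0, e 1) (NN F) q) (da (1, 0) (GG4 F) q), hvel.1, hvel.2, hvel.2, n1n]
    ring
  have w2 : inner ℝ (BB (da (1, 0) (GG4 F) q)) (NN F q) = 0 := by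
    rw [BB_skew, ex (da (1, 0) (GG4 F) q) (BB (NN F q)), hvel.1, hvel.2, hvel.2, BB_self]
    ring
  have v00 : inner ℝ (BB (GG4 F q)) (da (0, e 0) (da (0, e 0) (NN F)) q) =
      inner ℝ (BB (GG4 F q)) (da (0, e 0) (GG4 F) q) *
        inner ℝ (da (0, e 0) (da (0, e 0) (NN F)) q) (da (0, e 0) (GG4 F) q) +
      inner ℝ (BB (GG4 F q)) (da (0, e 1) (GG4 F) q) *
        inner ℝ (da (0, e 0) (da (0, e 0) (NN F)) q) (da (0, e 1) (GG4 F) q) +
      inner ℝ (BB (GG4 F q)) (NN F q) *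
        inner ℝ (da (0, e 0) (da (0, e 0) (NN F)) q) (NN F q) := by
    rw [ex (BB (GG4 F q)) (da (0, e 0) (da (0, e 0) (NN F)) q), BB_self]
    ring
  have v11 : inner ℝ (BB (GG4 F q)) (da (0, e 1) (da (0, e 1) (NN F)) q) =
      inner ℝ (BB (GG4 F q)) (da (0, e 0) (GG4 F) q) *
        inner ℝ (da (0, e 1) (da (0, e 1) (NN F)) q) (da (0, e 0) (GG4 F) q) +
      inner ℝ (BB (GG4 F q)) (da (0, e 1) (GG4 F) q) *
        inner ℝ (da (0, e 1) (da (0, e 1) (NN F)) q) (da (0, e 1) (GG4 F) q) +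
      inner ℝ (BB (GG4 F q)) (NN F q) *
        inner ℝ (da (0, e 1) (da (0, e 1) (NN F)) q) (NN F q) := by
    rw [ex (BB (GG4 F q)) (da (0, e 1) (da (0, e 1) (NN F)) q), BB_self]
    ring
  have vt : inner ℝ (BB (GG4 F q)) (da (1, 0) (NN F) q) =
      -(inner ℝ (BB (GG4 F q)) (da (0, e 0) (GG4 F) q) *
        inner ℝ (NN F q) (da (0, e 0) (da (1, 0) (GG4 F)) q)) -
      inner ℝ (BB (GG4 F q)) (da (0, e 1) (GG4 F) q) *
        inner ℝ (NN F q) (da (0, e 1) (da (1, 0) (GG4 F)) q) := by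
    rw [ex (BB (GG4 F q)) (da (1, 0) (NN F) q), BB_self, nta, ntb, ntn]
    ring
  have d0 : inner ℝ (BB (da (0, e 0) (GG4 F) q)) (NN F q) =
      inner ℝ (BB (GG4 F q)) (da (0, e 0) (GG4 F) q) *
        inner ℝ (NN F q) (da (0, e 0) (da (0, e 0) (GG4 F)) q) +
      inner ℝ (BB (GG4 F q)) (da (0, e 1) (GG4 F) q) *
        inner ℝ (NN F q) (da (0, e 0) (da (0, e 1) (GG4 F)) q) := by
    have := h.da_U hq (0, e 0)
    rw [hU0, ex (BB (GG4 F q)) (da (0, e 0) (NN F) q), BB_self, n0a, n0b, n0n] at this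
    linarith
  have d1 : inner ℝ (BB (da (0, e 1) (GG4 F) q)) (NN F q) =
      inner ℝ (BB (GG4 F q)) (da (0, e 0) (GG4 F) q) *
        inner ℝ (NN F q) (da (0, e 0) (da (0, e 1) (GG4 F)) q) +
      inner ℝ (BB (GG4 F q)) (da (0, e 1) (GG4 F) q) *
        inner ℝ (NN F q) (da (0, e 1) (da (0, e 1) (GG4 F)) q) := by
    have := h.da_U hq (0, e 1)
    rw [hU1, ex (BB (GG4 F q)) (da (0, e 1) (NN F) q), BB_self, n1a, n1b, n1n] at this
    linarith
  rw [h.da_U hq, h.da2_U hq, h.da2_U hq, w2, vt, x1, x2, x3, x4, v00, v11, n00a, n00b, n00n, n11a,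
    n11b, n11n, y00, y01, y101, y111, z0, z1, hUq]
  rw [w0, y00, y011] at hm0
  rw [w1, y100, y111] at hm1
  have hη' : inner ℝ (NN F q) (da (1, 0) (GG4 F) q) =
      inner ℝ (NN F q) (da (0, e 0) (da (0, e 0) (GG4 F)) q) +
      inner ℝ (NN F q) (da (0, e 1) (da (0, e 1) (GG4 F)) q) := by
    linarith
  rw [hη'] at hm0 hm1
  have key := evo_alg (u := inner ℝ (BB (GG4 F q)) (NN F q))
    (γ := inner ℝ (BB (da (0, e 0) (GG4 F) q)) (da (0, e 1) (GG4 F) q)) d0 d1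
    (by
      rw [real_inner_comm (da (0, e 0) (da (0, e 1) (GG4 F)) q) (da (0, e 0) (GG4 F) q)] at hm0
      exact hm0)
    (by
      rw [real_inner_comm (da (0, e 1) (da (0, e 1) (GG4 F)) q) (da (0, e 0) (GG4 F) q)] at hm1
      exact hm1)
  linear_combination key

end

end Pool.Agent.Helper608.SphMCF
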