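import Mathlib
import Pool.Agent.Helper608.KEvo

/-! Bounds on compact time intervals, and the vanishing of the normal component. -/

open Set Metric Filter Topology
open scoped ContDiff

namespace Pool.Agent.Helper608.SphMCF

theorem D_expand (F : S → V) (y v : E) :
    D F y v = v 0 • D F y (ep 0) + v 1 • D F y (ep 1) + v 2 • D F y (ep 2) := by
  conv_lhs => rw [ep_expand v]
  rw [D_add, D_add, D_smul, D_smul, D_smul]

theorem D2_expand_left (F : S → V) (y u v : E) :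
    D2 F y u v = u 0 • D2 F y (ep 0) v + u 1 • D2 F y (ep 1) v + u 2 • D2 F y (ep 2) v := by
  conv_lhs => rw [ep_expand u]
  rw [IsSmooth.D2_add_left, IsSmooth.D2_add_left, IsSmooth.D2_smul_left, IsSmooth.D2_smul_left,
    IsSmooth.D2_smul_left]

theorem D2_expand_right {F : S → V} (hF : IsSmooth F) {y : E} (hy : y ≠ 0) (u v : E) :
    D2 F y u v = v 0 • D2 F y u (ep 0) + v 1 • D2 F y u (ep 1) + v 2 • D2 F y u (ep 2) := by
  rw [hF.D2_symm hy, D2_expand_left, hF.D2_symm hy u, hF.D2_symm hy u, hF.D2_symm hy u]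

section

variable {F₀ : S → V} {T : ℝ} {F : ℝ → S → V} (h : IsMCF F₀ (T : EReal) F)
include h

theorem IsMCF.cont_D (i : Fin 3) :
    ContinuousOn (fun q : ℝ × E => D (F q.1) q.2 (ep i)) (QT T) :=
  ContDiffOn.continuousOn (h.cq.dv (ep i))

theorem IsMCF.cont_D2 (i j : Fin 3) :
    ContinuousOn (fun q : ℝ × E => D2 (F q.1) q.2 (ep i) (ep j)) (QT T) :=
  ContDiffOn.continuousOn ((h.cq.dv (ep j)).dv (ep i))

theorem IsMCF.lower {T' : ℝ} (hT : T' < T) :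
    ∃ c > 0, ∀ t ∈ Icc 0 T', ∀ x : S, ∀ v : E, inner ℝ (x : E) v = 0 →
      c * ‖v‖ ≤ ‖D (F t) x v‖ := by
  let K : Set (ℝ × (E × E)) := (Icc 0 T' ×ˢ (sphere (0 : E) 1 ×ˢ sphere (0 : E) 1)) ∩
    {p | inner ℝ p.2.1 p.2.2 = 0}
  have hK : IsCompact K := by
    refine (isCompact_Icc.prod ((isCompact_sphere _ _).prod (isCompact_sphere _ _))).inter_right ?_
    exact isClosed_eq (by fun_prop) continuous_const
  have hmaps : MapsTo (fun p : ℝ × (E × E) => ((p.1, p.2.1) : ℝ × E)) K (QT T) := by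
    intro p hp
    have h1 : p.1 ∈ Icc 0 T' := hp.1.1
    have h2 : p.2.1 ∈ sphere (0 : E) 1 := hp.1.2.1
    refine ⟨⟨h1.1, h1.2.trans_lt hT⟩, ?_⟩
    intro h0
    have h0' : p.2.1 = 0 := h0
    rw [h0'] at h2
    simp at h2
  have hc : ∀ i, ContinuousOn (fun p : ℝ × (E × E) => D (F p.1) p.2.1 (ep i)) K := fun i =>
    (h.cont_D i).comp (by fun_prop) hmaps
  have hcont : ContinuousOn (fun p : ℝ × (E × E) => ‖D (F p.1) p.2.1 p.2.2‖) K := by
    have h1 : ContinuousOn (fun p : ℝ × (E × E) => p.2.2 0 • D (F p.1) p.2.1 (ep 0) +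
        p.2.2 1 • D (F p.1) p.2.1 (ep 1) + p.2.2 2 • D (F p.1) p.2.1 (ep 2)) K := by
      have hco : ∀ i : Fin 3, ContinuousOn (fun p : ℝ × (E × E) => p.2.2 i) K := by
        intro i
        fun_prop
      exact (((hco 0).smul (hc 0)).add ((hco 1).smul (hc 1))).add ((hco 2).smul (hc 2))
    refine h1.norm.congr (fun p _ => ?_)
    simp only
    rw [D_expand (F p.1) p.2.1 p.2.2]
  obtain ⟨c, hc0, hc1⟩ := hK.exists_forall_le' hcont (a := 0) (by
    intro p hp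
    have h1 : p.1 ∈ Icc 0 T' := hp.1.1
    have h2 : p.2.1 ∈ sphere (0 : E) 1 := hp.1.2.1
    have h3 : p.2.2 ∈ sphere (0 : E) 1 := hp.1.2.2
    rw [norm_pos_iff]
    intro h4
    have h5 := h.imm p.1 (by rw [Time_coe]; exact ⟨h1.1, h1.2.trans_lt hT⟩) ⟨p.2.1, h2⟩ p.2.2
      hp.2 h4
    rw [h5] at h3
    simp at h3)
  refine ⟨c, hc0, fun t ht x v hv => ?_⟩
  rcases eq_or_ne v 0 with rfl | hv0
  · simp
  · have hn : 0 < ‖v‖ := norm_pos_iff.2 hv0
    have h1 := hc1 (t, ((x : E), ‖v‖⁻¹ • v)) ⟨⟨ht, x.2, by simp [norm_smul, hv0]⟩, by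
      show inner ℝ (x : E) (‖v‖⁻¹ • v) = 0
      rw [real_inner_smul_right, hv, mul_zero]⟩
    simp only at h1
    rw [D_smul, norm_smul, norm_inv, norm_norm, inv_mul_eq_div, le_div_iff₀ hn] at h1
    exact h1

theorem IsMCF.upper {T' : ℝ} (hT : T' < T) (R : ℝ) :
    ∃ C, ∀ t ∈ Icc 0 T', ∀ x : S, ∀ u v : E, ‖u‖ ≤ R → ‖v‖ ≤ R → ‖D2 (F t) x u v‖ ≤ C := by
  let K : Set (ℝ × (E × (E × E))) :=
    Icc 0 T' ×ˢ (sphere (0 : E) 1 ×ˢ (closedBall (0 : E) R ×ˢ closedBall (0 : E) R))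
  have hK : IsCompact K := isCompact_Icc.prod ((isCompact_sphere _ _).prod
    ((isCompact_closedBall _ _).prod (isCompact_closedBall _ _)))
  have hmaps : MapsTo (fun p : ℝ × (E × (E × E)) => ((p.1, p.2.1) : ℝ × E)) K (QT T) := by
    intro p hp
    have h1 : p.1 ∈ Icc 0 T' := hp.1
    have h2 : p.2.1 ∈ sphere (0 : E) 1 := hp.2.1
    refine ⟨⟨h1.1, h1.2.trans_lt hT⟩, ?_⟩
    intro h0
    have h0' : p.2.1 = 0 := h0
    rw [h0'] at h2
    simp at h2
  have hc : ∀ i j, ContinuousOn (fun p : ℝ × (E × (E × E)) => D2 (F p.1) p.2.1 (ep i) (ep j)) K :=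
    fun i j => (h.cont_D2 i j).comp (by fun_prop) hmaps
  have hu : ∀ i : Fin 3, ContinuousOn (fun p : ℝ × (E × (E × E)) => p.2.2.1 i) K := by
    intro i
    fun_prop
  have hv : ∀ i : Fin 3, ContinuousOn (fun p : ℝ × (E × (E × E)) => p.2.2.2 i) K := by
    intro i
    fun_prop
  have h1 : ∀ i, ContinuousOn (fun p : ℝ × (E × (E × E)) => D2 (F p.1) p.2.1 (ep i) p.2.2.2) K := by
    intro i
    have h2 := (((hv 0).smul (hc i 0)).add ((hv 1).smul (hc i 1))).add ((hv 2).smul (hc i 2))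
    refine h2.congr (fun p hp => ?_)
    have h3 := hmaps hp
    exact D2_expand_right (h.sm h3) h3.2 (ep i) p.2.2.2
  have h2 : ContinuousOn (fun p : ℝ × (E × (E × E)) => D2 (F p.1) p.2.1 p.2.2.1 p.2.2.2) K := by
    have h3 := (((hu 0).smul (h1 0)).add ((hu 1).smul (h1 1))).add ((hu 2).smul (h1 2))
    refine h3.congr (fun p hp => ?_)
    exact D2_expand_left (F p.1) p.2.1 p.2.2.1 p.2.2.2
  obtain ⟨C, hC⟩ := hK.exists_bound_of_continuousOn h2
  exact ⟨C, fun t ht x u v hu hv => hC (t, ((x : E), (u, v))) ⟨ht, x.2, by simpa using hu,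
    by simpa using hv⟩⟩

/-- A bound for the second derivatives in a frame. -/
theorem IsMCF.frame_bound {T' : ℝ} (hT : T' < T) :
    ∃ C, 0 ≤ C ∧ ∀ t ∈ Icc 0 T', ∀ x : S, ∀ e, IsFrame (F t) x e → ∀ i j,
      ‖D2 (F t) x (e i) (e j)‖ ≤ C := by
  obtain ⟨c, hc, h1⟩ := h.lower hT
  obtain ⟨C, hC⟩ := h.upper hT c⁻¹
  refine ⟨max C 0, le_max_right _ _, fun t ht x e he i j => ?_⟩
  have hb : ∀ i, ‖e i‖ ≤ c⁻¹ := by
    intro i
    have h2 := h1 t ht x (e i) (he.1 i)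
    have h3 : ‖D (F t) x (e i)‖ = 1 := he.2.1 i
    rw [h3] at h2
    rw [← one_div, le_div_iff₀ hc]
    linarith
  exact (hC t ht x (e i) (e j) (hb i) (hb j)).trans (le_max_left _ _)

end

end Pool.Agent.Helper608.SphMCF
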