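import Mathlib
import Pool.Agent.Helper608.KMer
import Pool.Agent.Helper608.HInit

/-! The initial surface. -/

open Set Metric
open scoped ContDiff

namespace Pool.Agent.Helper608.SphMCF

/-- A parameter close to `1`. -/
noncomputable def lam : ℝ := 3999999 / 4000001

/-- A small parameter. -/
noncomputable def sig : ℝ := 4000 / 4000001

theorem lam_sig : lam ^ 2 + sig ^ 2 = 1 := by norm_num [lam, sig]

theorem lam_pos : 0 < lam := by norm_num [lam]
theorem sig_pos : 0 < sig := by norm_num [sig]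
theorem sig_le : sig ≤ 1 / 1000 := by norm_num [sig]
theorem lam_le : lam ≤ 1 := by norm_num [lam]

/-- The square of the modulus of `λ c - i σ`. -/
noncomputable def aI (c : ℝ) : ℝ := (lam * c) ^ 2 + sig ^ 2

/-- The stretching factor. -/
noncomputable def RI (c : ℝ) : ℝ := lam * √(1 + aI c + aI c ^ 2)

/-- The real part of `(λ c - i σ)³`. -/
noncomputable def XI (c : ℝ) : ℝ := (lam * c) ^ 3 - 3 * sig ^ 2 * (lam * c)

/-- The imaginary part of `(λ c - i σ)³`. -/
noncomputable def YI (c : ℝ) : ℝ := -sig * (3 * (lam * c) ^ 2 - sig ^ 2)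

/-- The initial surface. -/
noncomputable def F0 (x : S) : V :=
  !₂[RI ((x : E) 2) * (x : E) 0, RI ((x : E) 2) * (x : E) 1, XI ((x : E) 2), YI ((x : E) 2)]

theorem aI_pos (c : ℝ) : 0 < aI c := by
  have := sig_pos
  unfold aI
  positivity

theorem aI_ge (c : ℝ) : sig ^ 2 ≤ aI c := by
  unfold aI
  nlinarith [sq_nonneg (lam * c)]

theorem aI_le {c : ℝ} (hc : c ^ 2 ≤ 1) : aI c ≤ 1 := by
  have h1 := lam_sig
  unfold aI
  nlinarith [sq_nonneg lam]

theorem rad_pos (c : ℝ) : 0 < 1 + aI c + aI c ^ 2 := by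
  have := aI_pos c
  positivity

theorem RI_pos (c : ℝ) : 0 < RI c := mul_pos lam_pos (Real.sqrt_pos.2 (rad_pos c))

theorem RI_sq (c : ℝ) : RI c ^ 2 * (1 - c ^ 2) = 1 - aI c ^ 3 := by
  have h1 : RI c ^ 2 = lam ^ 2 * (1 + aI c + aI c ^ 2) := by
    rw [RI, mul_pow, Real.sq_sqrt (rad_pos c).le]
  have h2 : lam ^ 2 * (1 - c ^ 2) = 1 - aI c := by
    unfold aI
    linear_combination lam_sig
  rw [h1]
  linear_combination (1 + aI c + aI c ^ 2) * h2

theorem XY_sq (c : ℝ) : XI c ^ 2 + YI c ^ 2 = aI c ^ 3 := by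
  unfold XI YI aI
  ring

theorem sum_sq (x : S) : (x : E) 0 ^ 2 + (x : E) 1 ^ 2 + (x : E) 2 ^ 2 = 1 := by
  have h : ‖(x : E)‖ = 1 := by simp
  have h1 : inner ℝ (x : E) (x : E) = 1 := by
    rw [real_inner_self_eq_norm_sq, h, one_pow]
  rw [inner_three] at h1
  linarith

theorem F0_norm (x : S) : ‖F0 x‖ = 1 := by
  have h : ‖F0 x‖ ^ 2 = 1 := by
    rw [← real_inner_self_eq_norm_sq, inner_four]
    simp only [F0]
    simp
    linear_combination RI_sq ((x : E) 2) + XY_sq ((x : E) 2) +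
      RI ((x : E) 2) ^ 2 * sum_sq x
  nlinarith [norm_nonneg (F0 x)]

theorem contDiff_aI : ContDiff ℝ ∞ aI := by
  unfold aI
  fun_prop

theorem contDiff_RI : ContDiff ℝ ∞ RI := by
  unfold RI
  exact contDiff_const.mul (((contDiff_const.add contDiff_aI).add (contDiff_aI.pow 2)).sqrt
    (fun c => (rad_pos c).ne'))

theorem contDiff_XI : ContDiff ℝ ∞ XI := by
  unfold XI
  fun_prop

theorem contDiff_YI : ContDiff ℝ ∞ YI := by
  unfold YI
  fun_prop

theorem contDiffOn_normalize : ContDiffOn ℝ ∞ (fun y : E => ‖y‖⁻¹ • y) {0}ᶜ := by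
  have h1 : ContDiffOn ℝ ∞ (fun y : E => ‖y‖⁻¹) {0}ᶜ := by
    intro y hy
    have hy' : y ≠ 0 := hy
    exact ((contDiffAt_norm ℝ hy').inv (norm_ne_zero_iff.2 hy')).contDiffWithinAt
  exact h1.smul contDiffOn_id

theorem F0_smooth : IsSmooth F0 := by
  have hc : ∀ i : Fin 3, ContDiffOn ℝ ∞ (fun y : E => (‖y‖⁻¹ • y) i) {0}ᶜ := fun i =>
    (contDiffOn_euclidean.1 contDiffOn_normalize) i
  have hR := contDiff_RI.comp_contDiffOn (hc 2)
  have hX := contDiff_XI.comp_contDiffOn (hc 2)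
  have hY := contDiff_YI.comp_contDiffOn (hc 2)
  have h : ContDiffOn ℝ ∞ (fun y : E => (!₂[RI ((‖y‖⁻¹ • y) 2) * (‖y‖⁻¹ • y) 0,
      RI ((‖y‖⁻¹ • y) 2) * (‖y‖⁻¹ • y) 1, XI ((‖y‖⁻¹ • y) 2), YI ((‖y‖⁻¹ • y) 2)] : V)) {0}ᶜ := by
    rw [contDiffOn_euclidean]
    intro i
    fin_cases i
    · exact hR.mul (hc 0)
    · exact hR.mul (hc 1)
    · exact hX
    · exact hY
  refine h.congr (fun y hy => ?_)
  simp only [F0, coe_proj (by simpa using hy : y ≠ 0)]

theorem F0_sym : Sym F0 := by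
  constructor
  · intro φ x
    have h2 : (act (rotE φ) x : E) 2 = (x : E) 2 := by simp [act_coe, rotE_apply]
    have h0 : (act (rotE φ) x : E) 0 = Real.cos φ * (x : E) 0 - Real.sin φ * (x : E) 1 := by
      simp [act_coe, rotE_apply]
    have h1 : (act (rotE φ) x : E) 1 = Real.sin φ * (x : E) 0 + Real.cos φ * (x : E) 1 := by
      simp [act_coe, rotE_apply]
    rw [rotV_apply]
    simp only [F0, h0, h1, h2]
    ext i
    fin_cases i
    · simp
      ring
    · simp
      ring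
    · simp
    · simp
  · intro x
    have h2 : (act refE x : E) 2 = (x : E) 2 := by simp [act_coe, refE_apply]
    have h0 : (act refE x : E) 0 = (x : E) 0 := by simp [act_coe, refE_apply]
    have h1 : (act refE x : E) 1 = -(x : E) 1 := by simp [act_coe, refE_apply]
    rw [refV_apply]
    simp only [F0, h0, h1, h2]
    ext i
    fin_cases i <;> simp

theorem hasDerivAt_XI (c : ℝ) : HasDerivAt XI (3 * lam * ((lam * c) ^ 2 - sig ^ 2)) c := by
  have h : HasDerivAt (fun c : ℝ => lam * c) lam c := by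
    simpa using (hasDerivAt_id c).const_mul lam
  have h2 := (h.fun_pow 3).sub (h.const_mul (3 * sig ^ 2))
  refine h2.congr_deriv ?_
  norm_num
  ring

theorem hasDerivAt_YI (c : ℝ) : HasDerivAt YI (-(6 * lam * sig * (lam * c))) c := by
  have h : HasDerivAt (fun c : ℝ => lam * c) lam c := by
    simpa using (hasDerivAt_id c).const_mul lam
  have h2 := (((h.fun_pow 2).const_mul 3).sub_const (sig ^ 2)).const_mul (-sig)
  refine h2.congr_deriv ?_
  norm_num
  ring

theorem F0_imm : IsImmersion F0 := by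
  intro x u hu h
  have h1 := F0_smooth.hasDerivAt (y := (x : E)) u 0 (line_ne_zero x hu 0)
  rw [zero_smul, add_zero, h] at h1
  have hg := HypMCF.hasDerivAt_gc (n := 2) x u 0
  have hp : ∀ s : ℝ, (proj ((x : E) + s • u) : E) = HypMCF.gc (n := 2) x u s := by
    intro s
    rw [coe_proj (line_ne_zero x hu s), HypMCF.norm_line (n := 2) x hu, HypMCF.gc]
  have g0 : HypMCF.gc (n := 2) x u 0 = (x : E) := HypMCF.gc_zero (n := 2) x u
  have g0' : HypMCF.gc' (n := 2) x u 0 = u := HypMCF.gc'_zero (n := 2) x u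
  rw [g0'] at hg
  have hgc : ∀ i : Fin 3, HasDerivAt (fun s => HypMCF.gc (n := 2) x u s i) (u i) 0 :=
    fun i => hasDerivAt_coordE hg i
  have f2 : (fun s : ℝ => F0 (proj ((x : E) + s • u)) 2) =
      fun s => XI (HypMCF.gc (n := 2) x u s 2) := by
    funext s
    simp [F0, hp]
  have f3 : (fun s : ℝ => F0 (proj ((x : E) + s • u)) 3) =
      fun s => YI (HypMCF.gc (n := 2) x u s 2) := by
    funext s
    simp [F0, hp]
  have k2 := hasDerivAt_coord h1 2
  have k3 := hasDerivAt_coord h1 3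
  rw [f2] at k2
  rw [f3] at k3
  have hx2 : HypMCF.gc (n := 2) x u 0 2 = (x : E) 2 := by rw [g0]
  have comp : ∀ (f : ℝ → ℝ) (f' : ℝ), HasDerivAt f f' (HypMCF.gc (n := 2) x u 0 2) →
      HasDerivAt (fun s => f (HypMCF.gc (n := 2) x u s 2)) (f' * u 2) 0 := fun f f' hf =>
    HasDerivAt.comp (h₂ := f) (h := fun s : ℝ => HypMCF.gc (n := 2) x u s 2) (0 : ℝ) hf (hgc 2)
  have l2 := k2.unique (comp _ _ (hasDerivAt_XI (HypMCF.gc (n := 2) x u 0 2)))
  have l3 := k3.unique (comp _ _ (hasDerivAt_YI (HypMCF.gc (n := 2) x u 0 2)))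
  rw [hx2] at l2 l3
  simp only [PiLp.zero_apply] at l2 l3
  have hu2 : u 2 = 0 := by
    by_contra hne
    have e3 : (lam * (x : E) 2) = 0 := by
      have h6 := mul_eq_zero.1 l3.symm
      rcases h6 with h6 | h6
      · have : 6 * lam * sig ≠ 0 := by
          have := lam_pos
          have := sig_pos
          positivity
        have h7 : 6 * lam * sig * (lam * (x : E) 2) = 0 := by linarith
        exact (mul_eq_zero.1 h7).resolve_left this
      · exact absurd h6 hne
    rw [e3] at l2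
    rcases mul_eq_zero.1 l2.symm with h6 | h6
    · have := lam_pos
      have := sig_pos
      have h7 : 3 * lam * sig ^ 2 = 0 := by linarith
      have h8 : 0 < 3 * lam * sig ^ 2 := by positivity
      linarith
    · exact absurd h6 hne
  have key : ∀ i : Fin 3, ∀ j : Fin 4, (∀ y : S, F0 y j = RI ((y : E) 2) * (y : E) i) →
      u i = 0 := by
    intro i j hij
    have kk := hasDerivAt_coord h1 j
    have ff : (fun s : ℝ => F0 (proj ((x : E) + s • u)) j) =
        fun s => RI (HypMCF.gc (n := 2) x u s 2) * HypMCF.gc (n := 2) x u s i := by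
      funext s
      rw [hij, hp]
    rw [ff] at kk
    have hR : HasDerivAt RI (deriv RI (HypMCF.gc (n := 2) x u 0 2))
        (HypMCF.gc (n := 2) x u 0 2) :=
      (contDiff_RI.differentiable (by simp)).differentiableAt.hasDerivAt
    have ll := kk.unique ((comp _ _ hR).mul (hgc i))
    rw [hx2, hu2] at ll
    simp only [PiLp.zero_apply, mul_zero, zero_mul, zero_add] at ll
    exact (mul_eq_zero.1 ll.symm).resolve_left (RI_pos _).ne'
  have hu0 : u 0 = 0 := key 0 0 (fun y => by simp [F0])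
  have hu1 : u 1 = 0 := key 1 1 (fun y => by simp [F0])
  ext i
  fin_cases i
  · exact hu0
  · exact hu1
  · exact hu2

theorem F0_mer (θ : ℝ) : F0 (merS θ) =
    !₂[RI (Real.cos θ) * Real.sin θ, 0, XI (Real.cos θ), YI (Real.cos θ)] := by
  have h0 : (merS θ : E) 0 = Real.sin θ := by simp [merS_coe, mer]
  have h1 : (merS θ : E) 1 = 0 := by simp [merS_coe, mer]
  have h2 : (merS θ : E) 2 = Real.cos θ := by simp [merS_coe, mer]
  simp only [F0, h0, h1, h2, mul_zero]

theorem F0_three (x : S) : |F0 x 3| ≤ 3 / 1000 := by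
  have h1 : F0 x 3 = YI ((x : E) 2) := by simp [F0]
  have h2 : (x : E) 2 ^ 2 ≤ 1 := by
    have := sum_sq x
    nlinarith [sq_nonneg ((x : E) 0), sq_nonneg ((x : E) 1)]
  rw [h1, YI, abs_mul, abs_neg, abs_of_pos sig_pos]
  have h3 := sig_le
  have h4 := sig_pos
  have h5 := lam_pos
  have h6 := lam_le
  have h7 : (lam * (x : E) 2) ^ 2 ≤ 1 := by
    rw [mul_pow]
    have : lam ^ 2 ≤ 1 := by nlinarith
    nlinarith [sq_nonneg ((x : E) 2), sq_nonneg lam]
  have h8 : |3 * (lam * (x : E) 2) ^ 2 - sig ^ 2| ≤ 3 := by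
    rw [abs_le]
    constructor
    · nlinarith [sq_nonneg (lam * (x : E) 2)]
    · nlinarith
  calc sig * |3 * (lam * (x : E) 2) ^ 2 - sig ^ 2| ≤ 1 / 1000 * 3 :=
        mul_le_mul h3 h8 (abs_nonneg _) (by norm_num)
    _ = 3 / 1000 := by norm_num

end Pool.Agent.Helper608.SphMCF
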