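import Mathlib
import Pool.Agent.Helper608.KInit1
import Pool.Agent.Helper608.KOde

/-! The profile curve of the initial surface. -/

open Set Metric Filter Topology
open scoped ContDiff

namespace Pool.Agent.Helper608.SphMCF

/-- The profile curve at time `0` is the one of the initial surface. -/
structure Ini {T : ℝ} (P : Prof T) : Prop where
  hT : 0 < T
  er : ∀ θ, P.r (0, θ) = RI (Real.cos θ) * Real.sin θ
  ex : ∀ θ, P.x (0, θ) = XI (Real.cos θ)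
  ey : ∀ θ, P.y (0, θ) = YI (Real.cos θ)

/-- Square of the modulus along the meridian. -/
noncomputable def am (θ : ℝ) : ℝ := aI (Real.cos θ)

/-- The scaled cosine. -/
noncomputable def Cm (θ : ℝ) : ℝ := lam * Real.cos θ

theorem am_eq (θ : ℝ) : am θ = Cm θ ^ 2 + sig ^ 2 := rfl

theorem am_pos (θ : ℝ) : 0 < am θ := aI_pos _

theorem am_le (θ : ℝ) : am θ ≤ 1 := by
  apply aI_le
  have h1 := Real.sin_sq_add_cos_sq θ
  have h2 := sq_nonneg (Real.sin θ)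
  linarith

theorem hasDerivAt_Cm (θ : ℝ) : HasDerivAt Cm (-(lam * Real.sin θ)) θ := by
  have := (Real.hasDerivAt_cos θ).const_mul lam
  refine this.congr_deriv ?_
  ring

theorem hasDerivAt_am (θ : ℝ) : HasDerivAt am (-(2 * lam * Real.sin θ * Cm θ)) θ := by
  have h : HasDerivAt (fun θ => Cm θ ^ 2 + sig ^ 2) _ θ :=
    ((hasDerivAt_Cm θ).fun_pow 2).add_const (sig ^ 2)
  refine h.congr_deriv ?_
  norm_num
  ring

theorem sig_sq_le : sig ^ 2 ≤ 1 / 1000000 := by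
  have h1 := sig_le
  have h2 := sig_pos
  nlinarith

theorem sig_sq_pos : 0 < sig ^ 2 := pow_pos sig_pos 2

/-- `1 - m a²` is positive. -/
theorem one_sub_pos (θ : ℝ) : 0 < 1 - sig ^ 2 * am θ ^ 2 := by
  have h1 := sig_sq_le
  have h2 := am_le θ
  have h3 := am_pos θ
  have h4 : am θ ^ 2 ≤ 1 := by nlinarith
  have h5 : sig ^ 2 * am θ ^ 2 ≤ 1 / 1000000 * 1 :=
    mul_le_mul h1 h4 (sq_nonneg _) (by norm_num)
  linarith

/-- The function `a √(1 - m a²)`. -/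
noncomputable def Wm (θ : ℝ) : ℝ := am θ * √(1 - sig ^ 2 * am θ ^ 2)

theorem Wm_pos (θ : ℝ) : 0 < Wm θ := mul_pos (am_pos θ) (Real.sqrt_pos.2 (one_sub_pos θ))

theorem Wm_sq (θ : ℝ) : Wm θ ^ 2 = am θ ^ 2 * (1 - sig ^ 2 * am θ ^ 2) := by
  rw [Wm, mul_pow, Real.sq_sqrt (one_sub_pos θ).le]

theorem Wm_le (θ : ℝ) : Wm θ ≤ am θ := by
  have h1 : √(1 - sig ^ 2 * am θ ^ 2) ≤ 1 := by
    rw [Real.sqrt_le_one]
    have : 0 ≤ sig ^ 2 * am θ ^ 2 := by positivity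
    linarith
  have := am_pos θ
  rw [Wm]
  nlinarith

/-- The numerator of the last component of the normal. -/
noncomputable def Pn (θ : ℝ) : ℝ :=
  am θ - 2 * sig ^ 2 - 3 * sig ^ 2 * am θ ^ 3 + 4 * sig ^ 4 * am θ ^ 2

theorem hasDerivAt_Pn (θ : ℝ) : HasDerivAt Pn
    (-(2 * lam * Real.sin θ * Cm θ) * (1 - 9 * sig ^ 2 * am θ ^ 2 + 8 * sig ^ 4 * am θ)) θ := by
  have h := hasDerivAt_am θ
  have h2 := ((h.sub_const (2 * sig ^ 2)).sub ((h.fun_pow 3).const_mul (3 * sig ^ 2))).add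
    ((h.fun_pow 2).const_mul (4 * sig ^ 4))
  refine h2.congr_deriv ?_
  norm_num
  ring

variable {T : ℝ} {P : Prof T}

namespace Ini

variable (hI : Ini P)
include hI

theorem mem (θ : ℝ) : ((0, θ) : ℝ × ℝ) ∈ Dom T := ⟨⟨le_rfl, hI.hT⟩, mem_univ _⟩

theorem r_sq (θ : ℝ) : P.r (0, θ) ^ 2 = 1 - am θ ^ 3 := by
  rw [hI.er, mul_pow]
  have h1 := RI_sq (Real.cos θ)
  have h2 : Real.sin θ ^ 2 = 1 - Real.cos θ ^ 2 := by
    linarith [Real.sin_sq_add_cos_sq θ]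
  rw [h2, am]
  exact h1

theorem r_pos {θ : ℝ} (h1 : 0 < θ) (h2 : θ < Real.pi) : 0 < P.r (0, θ) := by
  rw [hI.er]
  exact mul_pos (RI_pos _) (Real.sin_pos_of_pos_of_lt_pi h1 h2)

theorem r_dr (θ : ℝ) : P.r (0, θ) * dth P.r (0, θ) =
    3 * am θ ^ 2 * (lam * Real.sin θ * Cm θ) := by
  have h1 := (P.hr.hasDerivAt (hI.mem θ)).fun_pow 2
  have h2 : HasDerivAt (fun θ => 1 - am θ ^ 3)
      (-(3 * am θ ^ 2 * (-(2 * lam * Real.sin θ * Cm θ)))) θ := by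
    have := ((hasDerivAt_am θ).fun_pow 3).const_sub 1
    refine this.congr_deriv ?_
    norm_num
  have h3 : (fun s => P.r (0, s) ^ 2) = fun θ => 1 - am θ ^ 3 := funext hI.r_sq
  simp only [h3] at h1
  have h4 := h1.unique h2
  norm_num at h4
  linear_combination h4 / 2

theorem dx (θ : ℝ) : dth P.x (0, θ) = -(3 * lam * Real.sin θ * (Cm θ ^ 2 - sig ^ 2)) := by
  have h1 := P.hx.hasDerivAt (hI.mem θ)
  have h2 : HasDerivAt (fun θ => XI (Real.cos θ))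
      (3 * lam * ((lam * Real.cos θ) ^ 2 - sig ^ 2) * (-Real.sin θ)) θ :=
    HasDerivAt.comp (h₂ := XI) θ (hasDerivAt_XI _) (Real.hasDerivAt_cos θ)
  have h3 : (fun s => P.x (0, s)) = fun θ => XI (Real.cos θ) := funext hI.ex
  simp only [h3] at h1
  rw [h1.unique h2, Cm]
  ring

theorem dy (θ : ℝ) : dth P.y (0, θ) = 6 * lam * sig * Real.sin θ * Cm θ := by
  have h1 := P.hy.hasDerivAt (hI.mem θ)
  have h2 : HasDerivAt (fun θ => YI (Real.cos θ))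
      (-(6 * lam * sig * (lam * Real.cos θ)) * (-Real.sin θ)) θ :=
    HasDerivAt.comp (h₂ := YI) θ (hasDerivAt_YI _) (Real.hasDerivAt_cos θ)
  have h3 : (fun s => P.y (0, s)) = fun θ => YI (Real.cos θ) := funext hI.ey
  simp only [h3] at h1
  rw [h1.unique h2, Cm]
  ring

theorem rv {θ : ℝ} (h1 : 0 < θ) (h2 : θ < Real.pi) :
    P.r (0, θ) * P.v (0, θ) = 3 * lam * Real.sin θ * Wm θ := by
  have hs := Real.sin_pos_of_pos_of_lt_pi h1 h2
  have hr := hI.r_pos h1 h2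
  have hv := Prof.v_pos (P := P) (hI.mem θ)
  have hv2 := Prof.v_sq (P := P) (hI.mem θ)
  have hl := lam_pos
  have hW := Wm_pos θ
  have e : (P.r (0, θ) * P.v (0, θ)) ^ 2 = (3 * lam * Real.sin θ * Wm θ) ^ 2 := by
    have e1 := hI.r_dr θ
    have e2 := hI.r_sq θ
    have e3 := Wm_sq θ
    have e4 := am_eq θ
    rw [hI.dx, hI.dy] at hv2
    have e5 : (P.r (0, θ) * P.v (0, θ)) ^ 2 = (P.r (0, θ) * dth P.r (0, θ)) ^ 2 +
        P.r (0, θ) ^ 2 * ((3 * lam * Real.sin θ * (Cm θ ^ 2 - sig ^ 2)) ^ 2 +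
          (6 * lam * sig * Real.sin θ * Cm θ) ^ 2) := by
      rw [mul_pow, hv2]
      ring
    rw [e5, e1, e2, mul_pow _ (Wm θ), e3]
    have e6 : Cm θ ^ 2 = am θ - sig ^ 2 := by linarith
    have e7 : (3 * lam * Real.sin θ * (Cm θ ^ 2 - sig ^ 2)) ^ 2 +
          (6 * lam * sig * Real.sin θ * Cm θ) ^ 2 = 9 * lam ^ 2 * Real.sin θ ^ 2 * am θ ^ 2 := by
      rw [e4]
      ring
    rw [e7]
    linear_combination (9 * lam ^ 2 * Real.sin θ ^ 2 * am θ ^ 4) * e6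
  exact (sq_eq_sq₀ (by positivity) (by positivity)).1 e

theorem n3rv (θ : ℝ) :
    P.n3 (0, θ) * (P.r (0, θ) * P.v (0, θ)) = 3 * lam * Real.sin θ * Pn θ := by
  have hv := (Prof.v_pos (P := P) (hI.mem θ)).ne'
  have e1 := hI.r_dr θ
  have e2 := hI.r_sq θ
  have e3 : P.n3 (0, θ) * (P.r (0, θ) * P.v (0, θ)) =
      P.r (0, θ) * dth P.r (0, θ) * P.x (0, θ) - dth P.x (0, θ) * P.r (0, θ) ^ 2 := by
    rw [Prof.n3, cr, Prof.a, Prof.b]
    field_simp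
  rw [e3, e1, e2, hI.dx, hI.ex, XI]
  have e4 : Cm θ = lam * Real.cos θ := rfl
  rw [← e4, Pn]
  have e5 : Cm θ ^ 2 = am θ - sig ^ 2 := by linarith [am_eq θ]
  linear_combination (3 * lam * Real.sin θ) * (am θ ^ 2 * (Cm θ ^ 2 + am θ - 4 * sig ^ 2) +
    (1 - am θ ^ 3)) * e5

theorem crv (θ : ℝ) :
    P.c (0, θ) * (P.r (0, θ) * P.v (0, θ)) =
      3 * lam * Real.sin θ * (2 * sig * Cm θ * P.r (0, θ)) := by
  have hv := (Prof.v_pos (P := P) (hI.mem θ)).ne'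
  have e3 : P.c (0, θ) * (P.r (0, θ) * P.v (0, θ)) = dth P.y (0, θ) * P.r (0, θ) := by
    rw [Prof.c]
    field_simp
  rw [e3, hI.dy]
  ring

theorem n3W {θ : ℝ} (h1 : 0 < θ) (h2 : θ < Real.pi) : P.n3 (0, θ) * Wm θ = Pn θ := by
  have hs := Real.sin_pos_of_pos_of_lt_pi h1 h2
  have hl := lam_pos
  have e1 := hI.n3rv θ
  rw [hI.rv h1 h2] at e1
  have : (3 * lam * Real.sin θ) * (P.n3 (0, θ) * Wm θ - Pn θ) = 0 := by linear_combination e1
  have h3 := (mul_eq_zero.1 this).resolve_left (by positivity)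
  linarith

theorem cW {θ : ℝ} (h1 : 0 < θ) (h2 : θ < Real.pi) :
    P.c (0, θ) * Wm θ = 2 * sig * Cm θ * P.r (0, θ) := by
  have hs := Real.sin_pos_of_pos_of_lt_pi h1 h2
  have hl := lam_pos
  have e1 := hI.crv θ
  rw [hI.rv h1 h2] at e1
  have : (3 * lam * Real.sin θ) * (P.c (0, θ) * Wm θ - 2 * sig * Cm θ * P.r (0, θ)) = 0 := by
    linear_combination e1
  have h3 := (mul_eq_zero.1 this).resolve_left (by positivity)
  linarith

/-- Area at time `0`. -/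
theorem area : II P.fA 0 ≤ 3 := by
  have h1 : II P.fA 0 ≤ II (fun q => 3 * Real.sin q.2 * (Real.cos q.2 ^ 2 + sig ^ 2)) 0 := by
    refine II_mono (Prof.sm_fA.slice ⟨le_rfl, hI.hT⟩) (by fun_prop) ?_
    intro θ hθ
    have hs := Real.sin_pos_of_pos_of_lt_pi hθ.1 hθ.2
    rw [Prof.fA, hI.rv hθ.1 hθ.2]
    have e1 := Wm_le θ
    have e2 := lam_le
    have e3 := lam_pos
    have e4 : am θ ≤ Real.cos θ ^ 2 + sig ^ 2 := by
      rw [am, aI, mul_pow]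
      have : lam ^ 2 ≤ 1 := by nlinarith
      nlinarith [sq_nonneg (Real.cos θ)]
    have e5 := Wm_pos θ
    calc 3 * lam * Real.sin θ * Wm θ = 3 * Real.sin θ * (lam * Wm θ) := by ring
      _ ≤ 3 * Real.sin θ * (1 * (Real.cos θ ^ 2 + sig ^ 2)) := by
          apply mul_le_mul_of_nonneg_left _ (by positivity)
          exact mul_le_mul e2 (e1.trans e4) e5.le (by norm_num)
      _ = _ := by ring
  have h2 : II (fun q => 3 * Real.sin q.2 * (Real.cos q.2 ^ 2 + sig ^ 2)) 0 =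
      2 + 6 * sig ^ 2 := by
    have h3 : ∀ θ ∈ uIcc 0 Real.pi, HasDerivAt
        (fun θ => -(Real.cos θ ^ 3) - 3 * sig ^ 2 * Real.cos θ)
        (3 * Real.sin θ * (Real.cos θ ^ 2 + sig ^ 2)) θ := by
      intro θ _
      have := ((Real.hasDerivAt_cos θ).fun_pow 3).neg.sub
        ((Real.hasDerivAt_cos θ).const_mul (3 * sig ^ 2))
      refine this.congr_deriv ?_
      norm_num
      ring
    have h4 := intervalIntegral.integral_eq_sub_of_hasDerivAt h3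
      (Continuous.intervalIntegrable (by fun_prop) _ _)
    rw [II]
    simp only
    rw [h4]
    simp
    ring
  have h5 := sig_sq_le
  rw [h2] at h1
  linarith

/-- Excess at time `0`. -/
theorem excess : II P.fE 0 ≤ 1 / 2000 := by
  have h1 : II P.fE 0 ≤ II (fun _ => 1 / 10000) 0 := by
    refine II_mono (Prof.sm_fE.slice ⟨le_rfl, hI.hT⟩) continuous_const ?_
    intro θ hθ
    have hs := Real.sin_pos_of_pos_of_lt_pi hθ.1 hθ.2
    have hs1 := Real.sin_le_one θ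
    have e1 := Wm_le θ
    have e2 := lam_le
    have e3 := lam_pos
    have e4 : P.fE (0, θ) = 3 * lam * Real.sin θ * (Wm θ - Pn θ) := by
      rw [Prof.fE]
      linear_combination hI.rv hθ.1 hθ.2 - hI.n3rv θ
    rw [e4]
    have e5 : Wm θ - Pn θ ≤ 5 * sig ^ 2 := by
      rw [Pn]
      have h6 := am_le θ
      have h7 := am_pos θ
      have h8 := sig_sq_pos
      have h9 : am θ ^ 3 ≤ 1 := by
        have : am θ ^ 2 ≤ 1 := by nlinarith
        nlinarith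
      have h10 : 0 ≤ sig ^ 4 * am θ ^ 2 := by positivity
      nlinarith
    have e6 := sig_sq_le
    have e7 : 3 * lam * Real.sin θ ≤ 3 := by nlinarith
    have e8 : 0 < 3 * lam * Real.sin θ := by positivity
    have e9 := sig_sq_pos
    calc 3 * lam * Real.sin θ * (Wm θ - Pn θ) ≤ 3 * lam * Real.sin θ * (5 * sig ^ 2) :=
          mul_le_mul_of_nonneg_left e5 e8.le
      _ ≤ 3 * (5 * sig ^ 2) := mul_le_mul_of_nonneg_right e7 (by positivity)
      _ ≤ 1 / 10000 := by linarith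
  have h2 : II (fun _ => (1 / 10000 : ℝ)) 0 = Real.pi * (1 / 10000) := by
    simp [II]
  rw [h2] at h1
  have := Real.pi_lt_four
  linarith

/-- The derivative of the numerator of the last component of the tangent. -/
theorem hasDerivAt_Yn (θ : ℝ) : HasDerivAt (fun θ => 2 * sig * Cm θ * P.r (0, θ))
    (2 * sig * (-(lam * Real.sin θ)) * P.r (0, θ) + 2 * sig * Cm θ * dth P.r (0, θ)) θ := by
  have h1 := P.hr.hasDerivAt (hI.mem θ)
  exact ((hasDerivAt_Cm θ).const_mul (2 * sig)).mul h1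

/-- The Wronskian of numerator functions. -/
theorem wron (θ : ℝ) : P.r (0, θ) * (Pn θ *
    (2 * sig * (-(lam * Real.sin θ)) * P.r (0, θ) + 2 * sig * Cm θ * dth P.r (0, θ)) -
    (2 * sig * Cm θ * P.r (0, θ)) * (-(2 * lam * Real.sin θ * Cm θ) *
      (1 - 9 * sig ^ 2 * am θ ^ 2 + 8 * sig ^ 4 * am θ))) =
    2 * sig * lam * Real.sin θ * (am θ + 2 * am θ ^ 4 - 24 * sig ^ 2 * am θ ^ 3 +
      6 * sig ^ 2 * am θ ^ 6 + 36 * sig ^ 4 * am θ ^ 2 - 9 * sig ^ 4 * am θ ^ 5 -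
      16 * sig ^ 6 * am θ + 4 * sig ^ 6 * am θ ^ 4) := by
  have e1 := hI.r_dr θ
  have e2 := hI.r_sq θ
  have e3 : Cm θ ^ 2 = am θ - sig ^ 2 := by linarith [am_eq θ]
  have e4 : P.r (0, θ) * (Pn θ *
    (2 * sig * (-(lam * Real.sin θ)) * P.r (0, θ) + 2 * sig * Cm θ * dth P.r (0, θ)) -
    (2 * sig * Cm θ * P.r (0, θ)) * (-(2 * lam * Real.sin θ * Cm θ) *
      (1 - 9 * sig ^ 2 * am θ ^ 2 + 8 * sig ^ 4 * am θ))) =
      2 * sig * lam * Real.sin θ * (Pn θ * (3 * am θ ^ 2 * Cm θ ^ 2 - P.r (0, θ) ^ 2) +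
        2 * Cm θ ^ 2 * P.r (0, θ) ^ 2 * (1 - 9 * sig ^ 2 * am θ ^ 2 + 8 * sig ^ 4 * am θ)) := by
    linear_combination (2 * sig * Cm θ * Pn θ) * e1
  rw [e4, e2, e3, Pn]
  ring

/-- The closed form at time `0`. -/
theorem om_eq {θ : ℝ} (h1 : 0 < θ) (h2 : θ < Real.pi) :
    P.om (0, θ) = (2 * sig * Cm θ * P.r (0, θ)) ^ 2 * (Pn θ *
      (2 * sig * (-(lam * Real.sin θ)) * P.r (0, θ) + 2 * sig * Cm θ * dth P.r (0, θ)) -
      (2 * sig * Cm θ * P.r (0, θ)) * (-(2 * lam * Real.sin θ * Cm θ) *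
      (1 - 9 * sig ^ 2 * am θ ^ 2 + 8 * sig ^ 4 * am θ))) /
      (Pn θ ^ 2 + (2 * sig * Cm θ * P.r (0, θ)) ^ 2) ^ 2 := by
  have hm := hI.mem θ
  have hW := Wm_pos θ
  obtain ⟨W', hW'⟩ : ∃ W', HasDerivAt Wm W' θ := by
    have h3 := (hasDerivAt_am θ).mul
      ((((hasDerivAt_am θ).fun_pow 2).const_mul (sig ^ 2)).const_sub 1 |>.sqrt
        (one_sub_pos θ).ne')
    exact ⟨_, h3⟩
  have hn := (Prof.sm_n3 (P := P)).hasDerivAt hm
  have hc := (Prof.sm_c (P := P)).hasDerivAt hm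
  have hev : ∀ᶠ s in 𝓝 θ, s ∈ Ioo 0 Real.pi := isOpen_Ioo.mem_nhds ⟨h1, h2⟩
  have d1 : dth P.n3 (0, θ) * Wm θ + P.n3 (0, θ) * W' = -(2 * lam * Real.sin θ * Cm θ) *
      (1 - 9 * sig ^ 2 * am θ ^ 2 + 8 * sig ^ 4 * am θ) := by
    have h3 := (hn.mul hW').congr_of_eventuallyEq (f₁ := Pn) (by
      filter_upwards [hev] with s hs
      exact (hI.n3W hs.1 hs.2).symm)
    exact h3.unique (hasDerivAt_Pn θ)
  have d2 : dth P.c (0, θ) * Wm θ + P.c (0, θ) * W' =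
      2 * sig * (-(lam * Real.sin θ)) * P.r (0, θ) + 2 * sig * Cm θ * dth P.r (0, θ) := by
    have h3 := (hc.mul hW').congr_of_eventuallyEq (f₁ := fun θ => 2 * sig * Cm θ * P.r (0, θ)) (by
      filter_upwards [hev] with s hs
      exact (hI.cW hs.1 hs.2).symm)
    exact h3.unique (hI.hasDerivAt_Yn θ)
  rw [← d1, ← d2, ← hI.n3W h1 h2, ← hI.cW h1 h2, Prof.om, Prof.s]
  have hs0 : P.n3 (0, θ) ^ 2 + P.c (0, θ) ^ 2 ≠ 0 ∨ P.n3 (0, θ) ^ 2 + P.c (0, θ) ^ 2 = 0 :=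
    ne_or_eq _ _
  have hW0 := hW.ne'
  rcases hs0 with hs0 | hs0
  · field_simp
    ring
  · have e : (P.n3 (0, θ) * Wm θ) ^ 2 + (P.c (0, θ) * Wm θ) ^ 2 = 0 := by
      linear_combination (Wm θ ^ 2) * hs0
    rw [hs0, e]
    simp

theorem S_nonneg (θ : ℝ) : 0 ≤ am θ + 2 * am θ ^ 4 - 24 * sig ^ 2 * am θ ^ 3 +
      6 * sig ^ 2 * am θ ^ 6 + 36 * sig ^ 4 * am θ ^ 2 - 9 * sig ^ 4 * am θ ^ 5 -
      16 * sig ^ 6 * am θ + 4 * sig ^ 6 * am θ ^ 4 := by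
  have h1 := am_pos θ
  have h2 := am_le θ
  have h3 := sig_sq_le
  have h4 := sig_sq_pos
  have h5 : am θ ^ 2 ≤ 1 := by nlinarith
  have h6 : am θ ^ 4 ≤ 1 := by nlinarith [sq_nonneg (am θ ^ 2)]
  have h7 : sig ^ 4 ≤ sig ^ 2 := by nlinarith
  have h8 : sig ^ 6 ≤ sig ^ 2 := by nlinarith [sq_nonneg (sig ^ 2)]
  have e1 : 24 * sig ^ 2 * am θ ^ 3 ≤ 24 * sig ^ 2 * am θ := by
    have : am θ ^ 3 ≤ am θ := by nlinarith
    exact mul_le_mul_of_nonneg_left this (by positivity)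
  have e2 : 9 * sig ^ 4 * am θ ^ 5 ≤ 9 * sig ^ 2 * am θ := by
    have : am θ ^ 5 ≤ am θ := by nlinarith
    exact mul_le_mul (by linarith) this (by positivity) (by positivity)
  have e3 : 16 * sig ^ 6 * am θ ≤ 16 * sig ^ 2 * am θ :=
    mul_le_mul_of_nonneg_right (by linarith) h1.le
  have e4 : 0 ≤ 2 * am θ ^ 4 + 6 * sig ^ 2 * am θ ^ 6 + 36 * sig ^ 4 * am θ ^ 2 +
      4 * sig ^ 6 * am θ ^ 4 := by positivity
  nlinarith

theorem om_nonneg {θ : ℝ} (h1 : 0 < θ) (h2 : θ < Real.pi) : 0 ≤ P.om (0, θ) := by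
  rw [hI.om_eq h1 h2]
  have hr := hI.r_pos h1 h2
  have hs := Real.sin_pos_of_pos_of_lt_pi h1 h2
  have hl := lam_pos
  have hg := sig_pos
  have h3 := hI.wron θ
  have h4 := S_nonneg hI θ
  apply div_nonneg _ (by positivity)
  apply mul_nonneg (sq_nonneg _)
  have h5 : 0 ≤ P.r (0, θ) * (Pn θ *
    (2 * sig * (-(lam * Real.sin θ)) * P.r (0, θ) + 2 * sig * Cm θ * dth P.r (0, θ)) -
    (2 * sig * Cm θ * P.r (0, θ)) * (-(2 * lam * Real.sin θ * Cm θ) *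
      (1 - 9 * sig ^ 2 * am θ ^ 2 + 8 * sig ^ 4 * am θ))) := by
    rw [h3]
    positivity
  exact nonneg_of_mul_nonneg_right h5 hr

end Ini

end Pool.Agent.Helper608.SphMCF
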