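import Mathlib
import Pool.Agent.Helper608.KInit2
import Pool.Agent.Helper608.KGeo

/-! Positivity of the Gauss curvature of the initial surface. -/

open Set Metric Filter Topology
open scoped ContDiff

namespace Pool.Agent.Helper608.SphMCF

variable {F : S → V}

theorem nor_add (x : S) (e : Fin 2 → E) (y z : V) :
    nor F x e (y + z) = nor F x e y + nor F x e z := by
  simp only [nor, inner_add_left, add_smul, Finset.sum_add_distrib]
  abel

theorem nor_smul (x : S) (e : Fin 2 → E) (c : ℝ) (y : V) :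
    nor F x e (c • y) = c • nor F x e y := by
  simp only [nor, real_inner_smul_left, mul_smul, smul_sub, Finset.smul_sum]

theorem gauss_alg (A B C : V) (a b c d : ℝ) :
    inner ℝ ((a * a) • A + (a * b + b * a) • B + (b * b) • C)
      ((c * c) • A + (c * d + d * c) • B + (d * d) • C) -
      ‖(a * c) • A + (a * d + b * c) • B + (b * d) • C‖ ^ 2 =
    (a * d - b * c) ^ 2 * (inner ℝ A C - ‖B‖ ^ 2) := by
  simp only [← real_inner_self_eq_norm_sq, inner_add_left, inner_add_right,
    real_inner_smul_left, real_inner_smul_right]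
  rw [real_inner_comm A B, real_inner_comm A C, real_inner_comm B C]
  ring

/-- Algebra of orthogonal `2 × 2` matrices. -/
theorem orth_alg {a b c d : ℝ} (h1 : a * a + b * b = 1) (h2 : c * c + d * d = 1)
    (h3 : a * c + b * d = 0) :
    (a * d - b * c) ^ 2 = 1 ∧ a * a + c * c = 1 ∧ b * b + d * d = 1 ∧ a * b + c * d = 0 := by
  have hd : d = a * (a * d - b * c) := by linear_combination (-d) * h1 + b * h3
  have hc : c = -(b * (a * d - b * c)) := by linear_combination (-c) * h1 + a * h3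
  set k := a * d - b * c with hk
  have hk2 : k ^ 2 = 1 := by
    have : c * c + d * d = k ^ 2 * (a * a + b * b) := by
      rw [hd, hc]
      ring
    rw [h1, mul_one] at this
    linarith
  refine ⟨hk2, ?_, ?_, ?_⟩
  · rw [hc]
    linear_combination h1 + b * b * hk2
  · rw [hd]
    linear_combination h1 + a * a * hk2
  · rw [hc, hd]
    linear_combination -(a * b) * hk2

section change

variable {x : S} {e e' : Fin 2 → E} {p : Fin 2 → Fin 2 → ℝ}

theorem frame_inner (he : IsFrame F x e) :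
    inner ℝ (D F x (e 0)) (D F x (e 0)) = 1 ∧ inner ℝ (D F x (e 1)) (D F x (e 1)) = 1 ∧
      inner ℝ (D F x (e 0)) (D F x (e 1)) = 0 := by
  have h := he.2
  rw [orthonormal_iff_ite] at h
  have h00 := h 0 0
  have h11 := h 1 1
  have h01 := h 0 1
  simp only [if_true] at h00 h11
  rw [if_neg (by decide)] at h01
  exact ⟨h00, h11, h01⟩

theorem frame_orth (he : IsFrame F x e) (he' : IsFrame F x e')
    (hp : ∀ i, e' i = p i 0 • e 0 + p i 1 • e 1) :
    p 0 0 * p 0 0 + p 0 1 * p 0 1 = 1 ∧ p 1 0 * p 1 0 + p 1 1 * p 1 1 = 1 ∧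
      p 0 0 * p 1 0 + p 0 1 * p 1 1 = 0 := by
  obtain ⟨h0, h1, h2⟩ := frame_inner he
  obtain ⟨k0, k1, k2⟩ := frame_inner he'
  have hD : ∀ i, D F x (e' i) = p i 0 • D F x (e 0) + p i 1 • D F x (e 1) := by
    intro i
    rw [hp, D_add, D_smul, D_smul]
  simp only [hD, inner_add_left, inner_add_right, real_inner_smul_left, real_inner_smul_right,
    real_inner_comm (D F x (e 0)) (D F x (e 1)), h0, h1, h2] at k0 k1 k2
  refine ⟨?_, ?_, ?_⟩
  · linear_combination k0
  · linear_combination k1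
  · linear_combination k2

theorem nor_change (he : IsFrame F x e) (he' : IsFrame F x e')
    (hp : ∀ i, e' i = p i 0 • e 0 + p i 1 • e 1) (y : V) : nor F x e' y = nor F x e y := by
  obtain ⟨k0, k1, k2⟩ := frame_orth he he' hp
  obtain ⟨-, q1, q2, q3⟩ := orth_alg k0 k1 k2
  have hD : ∀ i, D F x (e' i) = p i 0 • D F x (e 0) + p i 1 • D F x (e 1) := by
    intro i
    rw [hp, D_add, D_smul, D_smul]
  rw [nor, nor, Fin.sum_univ_two, Fin.sum_univ_two]
  congr 1
  simp only [hD, inner_add_right, real_inner_smul_right]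
  set u := D F x (e 0)
  set v := D F x (e 1)
  set α := inner ℝ y u
  set β := inner ℝ y v
  have e1 : (p 0 0 * α + p 0 1 * β) • (p 0 0 • u + p 0 1 • v) +
      (p 1 0 * α + p 1 1 * β) • (p 1 0 • u + p 1 1 • v) =
      ((p 0 0 * p 0 0 + p 1 0 * p 1 0) * α + (p 0 0 * p 0 1 + p 1 0 * p 1 1) * β) • u +
      ((p 0 0 * p 0 1 + p 1 0 * p 1 1) * α + (p 0 1 * p 0 1 + p 1 1 * p 1 1) * β) • v := by
    module
  rw [e1, q1, q2, q3]
  simp

theorem sff_change (hF : IsSmooth F) (he : IsFrame F x e) (he' : IsFrame F x e')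
    (hp : ∀ i, e' i = p i 0 • e 0 + p i 1 • e 1) (i j : Fin 2) :
    sff F x e' (e' i) (e' j) = (p i 0 * p j 0) • sff F x e (e 0) (e 0) +
      (p i 0 * p j 1 + p i 1 * p j 0) • sff F x e (e 0) (e 1) +
      (p i 1 * p j 1) • sff F x e (e 1) (e 1) := by
  have h1 : D2 F x (e' i) (e' j) = (p i 0 * p j 0) • D2 F x (e 0) (e 0) +
      (p i 0 * p j 1 + p i 1 * p j 0) • D2 F x (e 0) (e 1) +
      (p i 1 * p j 1) • D2 F x (e 1) (e 1) := by
    rw [hp i, hp j, IsSmooth.D2_add_left, IsSmooth.D2_smul_left, IsSmooth.D2_smul_left,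
      hF.D2_add_right (coe_ne_zero x), hF.D2_add_right (coe_ne_zero x),
      hF.D2_smul_right _ (coe_ne_zero x), hF.D2_smul_right _ (coe_ne_zero x),
      hF.D2_smul_right _ (coe_ne_zero x), hF.D2_smul_right _ (coe_ne_zero x),
      hF.D2_symm (coe_ne_zero x) (e 1) (e 0)]
    module
  rw [sff, nor_change he he' hp, h1, nor_add, nor_add, nor_smul, nor_smul, nor_smul]
  rfl

/-- The Gauss curvature does not depend on the frame. -/
theorem gauss_change (hF : IsSmooth F) (he : IsFrame F x e) (he' : IsFrame F x e')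
    (hp : ∀ i, e' i = p i 0 • e 0 + p i 1 • e 1) : gaussCurv F x e' = gaussCurv F x e := by
  obtain ⟨k0, k1, k2⟩ := frame_orth he he' hp
  obtain ⟨q0, -⟩ := orth_alg k0 k1 k2
  rw [gaussCurv, sff_change hF he he' hp, sff_change hF he he' hp, sff_change hF he he' hp,
    gaussCurv]
  have := gauss_alg (sff F x e (e 0) (e 0)) (sff F x e (e 0) (e 1)) (sff F x e (e 1) (e 1))
    (p 0 0) (p 0 1) (p 1 0) (p 1 1)
  rw [q0] at this
  linarith

end change

theorem expand_mer {θ : ℝ} {u : E} (hu : inner ℝ (mer θ) u = 0) :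
    u = (Real.cos θ * u 0 - Real.sin θ * u 2) • tau θ + (u 1) • eta1 := by
  rw [inner_three] at hu
  simp [mer] at hu
  have := Real.sin_sq_add_cos_sq θ
  ext i
  fin_cases i
  · simp [tau, eta1]
    linear_combination (-(u 0)) * this + Real.sin θ * hu
  · simp [tau, eta1]
  · simp [tau, eta1]
    linear_combination (-(u 2)) * this + Real.cos θ * hu

/-! ### The static profile -/

section static

theorem sm_static (hF : IsSmooth F) (i : Fin 4) : Sm 1 (fun q => F (merS q.2) i) := by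
  have h0 : ContDiffOn ℝ ∞ (fun q : ℝ × ℝ => mer q.2) (Dom 1) :=
    contDiff_mer.comp_contDiffOn contDiffOn_snd
  have h1 := hF.comp h0 (fun q hq => mer_ne q.2)
  have h2 : ContDiffOn ℝ ∞ (fun q : ℝ × ℝ => F (merS q.2)) (Dom 1) :=
    h1.congr (fun q _ => by simp only [Function.comp, proj_mer])
  exact (contDiffOn_euclidean.1 h2) i

theorem dth_static (hF : IsSmooth F) (i : Fin 4) (q : ℝ × ℝ) :
    dth (fun q => F (merS q.2) i) q = D F (mer q.2) (tau q.2) i :=
  (hasDerivAt_coord (hasDerivAt_prof hF q.2) i).deriv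

theorem dth2_static (hF : IsSmooth F) (i : Fin 4) (q : ℝ × ℝ) :
    dth (dth (fun q => F (merS q.2) i)) q = D2 F (mer q.2) (tau q.2) (tau q.2) i := by
  have h1 := hasDerivAt_coord (hasDerivAt_prof2 hF q.2) i
  have h2 : (fun s => dth (fun q => F (merS q.2) i) (q.1, s)) =
      fun s => D F (mer s) (tau s) i := by
    funext s
    exact dth_static hF i (q.1, s)
  show deriv (fun s => dth (fun q => F (merS q.2) i) (q.1, s)) q.2 = _
  rw [h2, h1.deriv]

theorem static_one (hF : IsSmooth F) (hS : Sym F) (θ : ℝ) : D F (mer θ) (tau θ) 1 = 0 := by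
  have h1 := hasDerivAt_coord (hasDerivAt_prof hF θ) 1
  simp only [hS.mer_one] at h1
  exact h1.unique (hasDerivAt_const θ 0)

theorem static2_one (hF : IsSmooth F) (hS : Sym F) (θ : ℝ) :
    D2 F (mer θ) (tau θ) (tau θ) 1 = 0 := by
  have h1 := hasDerivAt_coord (hasDerivAt_prof2 hF θ) 1
  have h2 : (fun s => D F (mer s) (tau s) 1) = fun _ => 0 := by
    funext s
    exact static_one hF hS s
  rw [h2] at h1
  exact h1.unique (hasDerivAt_const θ 0)

/-- The profile curve of a symmetric immersion. -/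
noncomputable def stat (hF : IsSmooth F) (hS : Sym F) (hi : IsImmersion F)
    (hn : ∀ x, ‖F x‖ = 1) : Prof 1 where
  r q := F (merS q.2) 0
  x q := F (merS q.2) 2
  y q := F (merS q.2) 3
  hr := sm_static hF 0
  hx := sm_static hF 2
  hy := sm_static hF 3
  sph q hq := by
    have h1 := hn (merS q.2)
    have h2 : inner ℝ (F (merS q.2)) (F (merS q.2)) = 1 := by
      rw [real_inner_self_eq_norm_sq, h1, one_pow]
    rw [inner_four, hS.mer_one] at h2
    linarith
  imm q hq := by
    rw [dth_static hF 0, dth_static hF 2, dth_static hF 3]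
    by_contra hcon
    push Not at hcon
    have h0 : D F (mer q.2) (tau q.2) 0 = 0 := by
      nlinarith [sq_nonneg (D F (mer q.2) (tau q.2) 0),
        sq_nonneg (D F (mer q.2) (tau q.2) 2), sq_nonneg (D F (mer q.2) (tau q.2) 3)]
    have h2 : D F (mer q.2) (tau q.2) 2 = 0 := by
      nlinarith [sq_nonneg (D F (mer q.2) (tau q.2) 0),
        sq_nonneg (D F (mer q.2) (tau q.2) 2), sq_nonneg (D F (mer q.2) (tau q.2) 3)]
    have h3 : D F (mer q.2) (tau q.2) 3 = 0 := by
      nlinarith [sq_nonneg (D F (mer q.2) (tau q.2) 0),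
        sq_nonneg (D F (mer q.2) (tau q.2) 2), sq_nonneg (D F (mer q.2) (tau q.2) 3)]
    have h1 := static_one hF hS q.2
    have h4 : D F (merS q.2 : E) (tau q.2) = 0 := by
      rw [merS_coe]
      ext i
      fin_cases i
      · exact h0
      · exact h1
      · exact h2
      · exact h3
    have h5 := hi (merS q.2) (tau q.2)
      (by rw [merS_coe]; exact inner_mer_tau q.2) h4
    have e0 := congrArg (fun u : E => u 0) h5
    have e2 := congrArg (fun u : E => u 2) h5
    simp [tau] at e0 e2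
    have := Real.sin_sq_add_cos_sq q.2
    rw [e0, e2] at this
    norm_num at this

theorem stat_at (hF : IsSmooth F) (hS : Sym F) (hi : IsImmersion F)
    (hn : ∀ x, ‖F x‖ = 1) {θ : ℝ} (h1 : 0 < θ) (h2 : θ < Real.pi) (h0 : 0 < F (merS θ) 0) :
    At F θ ((stat hF hS hi hn).r (0, θ)) ((stat hF hS hi hn).x (0, θ))
      ((stat hF hS hi hn).y (0, θ)) ((stat hF hS hi hn).a (0, θ))
      ((stat hF hS hi hn).b (0, θ)) ((stat hF hS hi hn).c (0, θ)) ((stat hF hS hi hn).v (0, θ))
      (dth (dth (stat hF hS hi hn).r) (0, θ)) (dth (dth (stat hF hS hi hn).x) (0, θ))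
      (dth (dth (stat hF hS hi hn).y) (0, θ)) := by
  have hq : ((0, θ) : ℝ × ℝ) ∈ Dom 1 := ⟨⟨le_rfl, one_pos⟩, mem_univ _⟩
  constructor
  · ext i
    fin_cases i
    · rfl
    · exact hS.mer_one θ
    · rfl
    · rfl
  · rw [← Prof.dr_eq hq, ← Prof.dx_eq hq, ← Prof.dy_eq hq]
    ext i
    fin_cases i
    · exact (dth_static hF 0 (0, θ)).symm
    · exact static_one hF hS θ
    · exact (dth_static hF 2 (0, θ)).symm
    · exact (dth_static hF 3 (0, θ)).symm
  · ext i
    fin_cases i
    · exact (dth2_static hF 0 (0, θ)).symm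
    · exact static2_one hF hS θ
    · exact (dth2_static hF 2 (0, θ)).symm
    · exact (dth2_static hF 3 (0, θ)).symm
  · exact Prof.fr hq
  · exact Prof.v_pos hq
  · exact h0
  · exact Real.sin_pos_of_pos_of_lt_pi h1 h2

/-- The Gauss curvature along a meridian. -/
theorem stat_gauss (hF : IsSmooth F) (hS : Sym F) (hi : IsImmersion F)
    (hn : ∀ x, ‖F x‖ = 1) {θ : ℝ} (h1 : 0 < θ) (h2 : θ < Real.pi) (h0 : 0 < F (merS θ) 0)
    {e : Fin 2 → E} (he : IsFrame F (merS θ) e) :
    gaussCurv F (merS θ) e = -dth (stat hF hS hi hn).a (0, θ) /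
      ((stat hF hS hi hn).v (0, θ) * (stat hF hS hi hn).r (0, θ)) := by
  have hq : ((0, θ) : ℝ × ℝ) ∈ Dom 1 := ⟨⟨le_rfl, one_pos⟩, mem_univ _⟩
  have A := stat_at hF hS hi hn h1 h2 h0
  set P := stat hF hS hi hn with hP
  have hr : 0 < P.r (0, θ) := A.hr
  have hv : 0 < P.v (0, θ) := A.hv
  have hs := A.hs
  have hfr := A.frame hS hF
  have hexp : ∀ i, e i =
      (fun i : Fin 2 => ![P.v (0, θ) * (Real.cos θ * e i 0 - Real.sin θ * e i 2),
        P.r (0, θ) / Real.sin θ * e i 1]) i 0 • stdFrame θ (P.r (0, θ)) (P.v (0, θ)) 0 +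
      (fun i : Fin 2 => ![P.v (0, θ) * (Real.cos θ * e i 0 - Real.sin θ * e i 2),
        P.r (0, θ) / Real.sin θ * e i 1]) i 1 • stdFrame θ (P.r (0, θ)) (P.v (0, θ)) 1 := by
    intro i
    have h3 := expand_mer (he.1 i)
    simp only [stdFrame, Matrix.cons_val_zero, Matrix.cons_val_one, smul_smul]
    have e1 : P.v (0, θ) * (Real.cos θ * e i 0 - Real.sin θ * e i 2) * (P.v (0, θ))⁻¹ =
        Real.cos θ * e i 0 - Real.sin θ * e i 2 := by
      field_simp
    have e2 : P.r (0, θ) / Real.sin θ * e i 1 * (Real.sin θ / P.r (0, θ)) = e i 1 := by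
      field_simp
    rw [e1, e2]
    exact h3
  rw [gauss_change hF hfr he hexp, A.gaussCurv_eq hS hF]
  have d1 : dth (dth P.r) (0, θ) = dth P.v (0, θ) * P.a (0, θ) + P.v (0, θ) * dth P.a (0, θ) := by
    have k := ((Prof.sm_v (P := P)).hasDerivAt hq).mul ((Prof.sm_a (P := P)).hasDerivAt hq)
    have e : (fun s => dth P.r (0, s)) = fun s => P.v (0, s) * P.a (0, s) :=
      funext (fun s => Prof.dr_eq (q := (0, s)) ⟨hq.1, mem_univ _⟩)
    show deriv (fun s => dth P.r (0, s)) θ = _
    rw [e]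
    exact k.deriv
  have d2 : dth (dth P.x) (0, θ) = dth P.v (0, θ) * P.b (0, θ) + P.v (0, θ) * dth P.b (0, θ) := by
    have k := ((Prof.sm_v (P := P)).hasDerivAt hq).mul ((Prof.sm_b (P := P)).hasDerivAt hq)
    have e : (fun s => dth P.x (0, s)) = fun s => P.v (0, s) * P.b (0, s) :=
      funext (fun s => Prof.dx_eq (q := (0, s)) ⟨hq.1, mem_univ _⟩)
    show deriv (fun s => dth P.x (0, s)) θ = _
    rw [e]
    exact k.deriv
  have d3 : dth (dth P.y) (0, θ) = dth P.v (0, θ) * P.c (0, θ) + P.v (0, θ) * dth P.c (0, θ) := by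
    have k := ((Prof.sm_v (P := P)).hasDerivAt hq).mul ((Prof.sm_c (P := P)).hasDerivAt hq)
    have e : (fun s => dth P.y (0, s)) = fun s => P.v (0, s) * P.c (0, s) :=
      funext (fun s => Prof.dy_eq (q := (0, s)) ⟨hq.1, mem_univ _⟩)
    show deriv (fun s => dth P.y (0, s)) θ = _
    rw [e]
    exact k.deriv
  have o : P.a (0, θ) * P.n1 (0, θ) + P.b (0, θ) * P.n2 (0, θ) + P.c (0, θ) * P.n3 (0, θ) = 0 :=
    cr_orth
  have hk : dth (dth P.r) (0, θ) * P.n1 (0, θ) + dth (dth P.x) (0, θ) * P.n2 (0, θ) +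
      dth (dth P.y) (0, θ) * P.n3 (0, θ) = P.v (0, θ) * P.k (0, θ) := by
    rw [d1, d2, d3, Prof.k]
    linear_combination (dth P.v (0, θ)) * o
  have hk' : dth (dth P.r) (0, θ) * cr (P.x (0, θ)) (P.y (0, θ)) (P.b (0, θ)) (P.c (0, θ)) +
      dth (dth P.x) (0, θ) * cr (P.y (0, θ)) (P.r (0, θ)) (P.c (0, θ)) (P.a (0, θ)) +
      dth (dth P.y) (0, θ) * cr (P.r (0, θ)) (P.x (0, θ)) (P.a (0, θ)) (P.b (0, θ)) =
      P.v (0, θ) * P.k (0, θ) := hk
  rw [hk']
  have hda := Prof.da_eq (P := P) hq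
  have hn1 : cr (P.x (0, θ)) (P.y (0, θ)) (P.b (0, θ)) (P.c (0, θ)) = P.n1 (0, θ) := rfl
  rw [hn1, hda]
  field_simp
  ring

end static

/-! ### The poles -/

theorem D_conj_self (hF : IsSmooth F) {a : E ≃ₗᵢ[ℝ] E} {b : V ≃ₗᵢ[ℝ] V}
    (h : ∀ x, F (act a x) = b (F x)) {x : S} (hx : a x = x) (u : E) :
    D F x (a u) = b (D F x u) := by
  have h1 : conj a b.symm F = F := by
    funext x
    rw [conj, h, b.symm_apply_apply]
  have h2 := D_conj (a := a) (b := b.symm) hF (coe_ne_zero x) u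
  rw [h1, hx] at h2
  rw [h2, b.apply_symm_apply]

theorem D2_conj_self (hF : IsSmooth F) {a : E ≃ₗᵢ[ℝ] E} {b : V ≃ₗᵢ[ℝ] V}
    (h : ∀ x, F (act a x) = b (F x)) {x : S} (hx : a x = x) (u v : E) :
    D2 F x (a u) (a v) = b (D2 F x u v) := by
  have h1 : conj a b.symm F = F := by
    funext x
    rw [conj, h, b.symm_apply_apply]
  have h2 := D2_conj (a := a) (b := b.symm) hF (coe_ne_zero x) u v
  rw [h1, hx] at h2
  rw [h2, b.apply_symm_apply]

theorem pole_gauss (hF : IsSmooth F) (hS : Sym F) {θ : ℝ} (hθ : Real.sin θ = 0)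
    {e : Fin 2 → E} (he : IsFrame F (merS θ) e) : 0 < gaussCurv F (merS θ) e := by
  have hc : Real.cos θ ^ 2 = 1 := by
    have := Real.sin_sq_add_cos_sq θ
    rw [hθ] at this
    linarith
  have hfixR : ∀ φ, rotE φ (merS θ : E) = (merS θ : E) := by
    intro φ
    rw [rotE_apply, merS_coe]
    ext i
    fin_cases i <;> simp [mer, hθ]
  have hfixE : refE (merS θ : E) = (merS θ : E) := by
    rw [refE_apply, merS_coe]
    ext i
    fin_cases i <;> simp [mer]
  -- first derivatives
  have r1 : rotE (Real.pi / 2) eta0 = eta1 := by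
    rw [rotE_apply]
    ext i
    fin_cases i <;> simp [eta0, eta1]
  have r2 : rotE (Real.pi / 2) eta1 = -eta0 := by
    rw [rotE_apply]
    ext i
    fin_cases i <;> simp [eta0, eta1]
  have r3 : refE eta0 = eta0 := by
    rw [refE_apply]
    ext i
    fin_cases i <;> simp [eta0]
  have r4 : refE eta1 = -eta1 := by
    rw [refE_apply]
    ext i
    fin_cases i <;> simp [eta1]
  have a1 := D_conj_self hF (hS.rot (Real.pi / 2)) (hfixR _) eta0
  have a2 := D_conj_self hF (hS.rot (Real.pi / 2)) (hfixR _) eta1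
  have a3 := D_conj_self hF hS.ref hfixE eta0
  rw [r1] at a1
  rw [r2, D_neg] at a2
  rw [r3] at a3
  set w := D F (merS θ : E) eta0 with hw
  rw [a1, rotV_apply, rotV_apply] at a2
  rw [refV_apply] at a3
  have b1 : w 1 = 0 := by
    have := congrArg (fun u : V => u 1) a3
    simp at this
    linarith
  have b2 : w 2 = 0 := by
    have := congrArg (fun u : V => u 2) a2
    simp at this
    linarith
  have b3 : w 3 = 0 := by
    have := congrArg (fun u : V => u 3) a2
    simp at this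
    linarith
  have hD1 : D F (merS θ : E) eta1 = !₂[0, w 0, 0, 0] := by
    rw [a1, rotV_apply]
    ext i
    fin_cases i <;> simp [b1, b2, b3]
  have hD0 : w = !₂[w 0, 0, 0, 0] := by
    ext i
    fin_cases i <;> simp [b1, b2, b3]
  -- second derivatives
  have c1 := D2_conj_self hF (hS.rot (Real.pi / 2)) (hfixR _) eta0 eta0
  have c2 := D2_conj_self hF (hS.rot (Real.pi / 2)) (hfixR _) eta1 eta1
  have c3 := D2_conj_self hF (hS.rot (Real.pi / 2)) (hfixR _) eta0 eta1
  have c4 := D2_conj_self hF hS.ref hfixE eta0 eta1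
  have neg1 : ∀ u v : E, D2 F (merS θ : E) (-u) v = -D2 F (merS θ : E) u v := by
    intro u v
    have := IsSmooth.D2_smul_left (F := F) (-1) (y := (merS θ : E)) u v
    simpa using this
  have neg2 : ∀ u v : E, D2 F (merS θ : E) u (-v) = -D2 F (merS θ : E) u v := by
    intro u v
    have := hF.D2_smul_right (-1) (y := (merS θ : E)) (coe_ne_zero _) u v
    simpa using this
  rw [r1] at c1
  rw [r2, neg1, neg2, neg_neg] at c2
  rw [r1, r2, neg2, hF.D2_symm (coe_ne_zero _) eta1 eta0] at c3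
  rw [r3, r4, neg2] at c4
  set z := D2 F (merS θ : E) eta0 eta0 with hz
  set m := D2 F (merS θ : E) eta0 eta1 with hm
  rw [c1, rotV_apply, rotV_apply] at c2
  rw [rotV_apply] at c3
  rw [refV_apply] at c4
  have z0 : z 0 = 0 := by
    have := congrArg (fun u : V => u 0) c2
    simp at this
    linarith
  have z1 : z 1 = 0 := by
    have := congrArg (fun u : V => u 1) c2
    simp at this
    linarith
  have hzz : D2 F (merS θ : E) eta1 eta1 = z := by
    rw [c1, rotV_apply]
    ext i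
    fin_cases i <;> simp [z0, z1]
  have m0 : m 0 = 0 := by
    have := congrArg (fun u : V => u 0) c4
    simp at this
    linarith
  have m1 : m 1 = 0 := by
    have := congrArg (fun u : V => u 1) c3
    simp [m0] at this
    linarith
  have m2 : m 2 = 0 := by
    have := congrArg (fun u : V => u 2) c3
    simp at this
    linarith
  have m3 : m 3 = 0 := by
    have := congrArg (fun u : V => u 3) c3
    simp at this
    linarith
  have hm0 : m = 0 := by
    ext i
    fin_cases i
    · exact m0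
    · exact m1
    · exact m2
    · exact m3
  -- the expansion of a tangent vector
  have hexp : ∀ u : E, inner ℝ (merS θ : E) u = 0 → u = u 0 • eta0 + u 1 • eta1 := by
    intro u hu
    rw [merS_coe, inner_three] at hu
    simp [mer, hθ] at hu
    have hu2 : u 2 = 0 := by
      rcases hu with hu | hu
      · rw [hu] at hc
        norm_num at hc
      · exact hu
    ext i
    fin_cases i <;> simp [eta0, eta1, hu2]
  -- `w 0` is not zero
  have hw0 : w 0 ≠ 0 := by
    intro h0
    have k1 := (frame_inner he).1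
    have hz4 : (!₂[0, 0, 0, 0] : V) = 0 := by
      ext i
      fin_cases i <;> simp
    have hw00 : w = 0 := by
      rw [hD0, h0, hz4]
    rw [hexp _ (he.1 0), D_add, D_smul, D_smul, ← hw, hD1, h0, hz4, hw00] at k1
    simp at k1
  set ρ := w 0 with hρ
  let f : Fin 2 → E := ![ρ⁻¹ • eta0, ρ⁻¹ • eta1]
  have f0 : D F (merS θ : E) (f 0) = !₂[1, 0, 0, 0] := by
    show D F (merS θ : E) (ρ⁻¹ • eta0) = _
    rw [D_smul, ← hw, hD0]
    ext i
    fin_cases i <;> simp [hw0]
  have f1 : D F (merS θ : E) (f 1) = !₂[0, 1, 0, 0] := by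
    show D F (merS θ : E) (ρ⁻¹ • eta1) = _
    rw [D_smul, hD1]
    ext i
    fin_cases i <;> simp [hw0]
  have hf : IsFrame F (merS θ) f := by
    constructor
    · intro i
      rw [merS_coe]
      fin_cases i
      · show inner ℝ (mer θ) (ρ⁻¹ • eta0) = 0
        rw [real_inner_smul_right, inner_three]
        simp [mer, eta0, hθ]
      · show inner ℝ (mer θ) (ρ⁻¹ • eta1) = 0
        rw [real_inner_smul_right, inner_mer_eta, mul_zero]
    · rw [orthonormal_iff_ite]
      intro i j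
      fin_cases i <;> fin_cases j
      · simp only [Fin.zero_eta, f0]
        rw [inner_four]
        simp
      · simp only [Fin.zero_eta, Fin.mk_one, f0, f1]
        rw [inner_four]
        simp
      · simp only [Fin.zero_eta, Fin.mk_one, f0, f1]
        rw [inner_four]
        simp
      · simp only [Fin.mk_one, f1]
        rw [inner_four]
        simp
  have hp : ∀ i, e i = (fun i : Fin 2 => ![ρ * e i 0, ρ * e i 1]) i 0 • f 0 +
      (fun i : Fin 2 => ![ρ * e i 0, ρ * e i 1]) i 1 • f 1 := by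
    intro i
    have h3 := hexp _ (he.1 i)
    simp only [f, Matrix.cons_val_zero, Matrix.cons_val_one, smul_smul]
    have e1 : ρ * e i 0 * ρ⁻¹ = e i 0 := by
      field_simp
    have e2 : ρ * e i 1 * ρ⁻¹ = e i 1 := by
      field_simp
    rw [e1, e2]
    exact h3
  rw [gauss_change hF hf he hp]
  have s00 : sff F (merS θ) f (f 0) (f 0) = (ρ⁻¹ * ρ⁻¹) • nor F (merS θ) f z := by
    have : D2 F (merS θ : E) (f 0) (f 0) = (ρ⁻¹ * ρ⁻¹) • z := by
      show D2 F (merS θ : E) (ρ⁻¹ • eta0) (ρ⁻¹ • eta0) = _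
      rw [IsSmooth.D2_smul_left, hF.D2_smul_right _ (coe_ne_zero _), smul_smul]
    rw [sff, this, nor_smul]
  have s11 : sff F (merS θ) f (f 1) (f 1) = (ρ⁻¹ * ρ⁻¹) • nor F (merS θ) f z := by
    have : D2 F (merS θ : E) (f 1) (f 1) = (ρ⁻¹ * ρ⁻¹) • z := by
      show D2 F (merS θ : E) (ρ⁻¹ • eta1) (ρ⁻¹ • eta1) = _
      rw [IsSmooth.D2_smul_left, hF.D2_smul_right _ (coe_ne_zero _), smul_smul, hzz]
    rw [sff, this, nor_smul]
  have s01 : sff F (merS θ) f (f 0) (f 1) = 0 := by
    have : D2 F (merS θ : E) (f 0) (f 1) = 0 := by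
      show D2 F (merS θ : E) (ρ⁻¹ • eta0) (ρ⁻¹ • eta1) = _
      rw [IsSmooth.D2_smul_left, hF.D2_smul_right _ (coe_ne_zero _), ← hm, hm0, smul_zero,
        smul_zero]
    rw [sff, this]
    simp [nor]
  rw [gaussCurv, s00, s11, s01, norm_zero]
  have : 0 ≤ inner ℝ ((ρ⁻¹ * ρ⁻¹) • nor F (merS θ) f z) ((ρ⁻¹ * ρ⁻¹) • nor F (merS θ) f z) :=
    real_inner_self_nonneg
  linarith

/-- Every point of the sphere is a rotated point of a meridian. -/
theorem exists_mer (x : S) : ∃ φ θ, 0 ≤ θ ∧ θ ≤ Real.pi ∧ act (rotE φ) (merS θ) = x := by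
  have hx := sum_sq x
  have hx2 : (x : E) 2 ^ 2 ≤ 1 := by
    nlinarith [sq_nonneg ((x : E) 0), sq_nonneg ((x : E) 1)]
  have habs := abs_le_of_sq_le_sq' (by simpa using hx2) (by norm_num : (0 : ℝ) ≤ 1)
  refine ⟨Complex.arg ⟨(x : E) 0, (x : E) 1⟩, Real.arccos ((x : E) 2), Real.arccos_nonneg _,
    Real.arccos_le_pi _, ?_⟩
  apply Subtype.ext
  rw [act_coe, merS_coe, rot_mer, Real.sin_arccos, Real.cos_arccos habs.1 habs.2]
  have h1 : √(1 - (x : E) 2 ^ 2) = ‖(⟨(x : E) 0, (x : E) 1⟩ : ℂ)‖ := by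
    rw [Complex.norm_eq_sqrt_sq_add_sq]
    congr 1
    linarith
  rw [h1]
  have h2 := Complex.norm_mul_cos_arg (⟨(x : E) 0, (x : E) 1⟩ : ℂ)
  have h3 := Complex.norm_mul_sin_arg (⟨(x : E) 0, (x : E) 1⟩ : ℂ)
  ext i
  fin_cases i
  · simp only [Fin.zero_eta, Matrix.cons_val_zero]
    rw [mul_comm]
    exact h2
  · simp only [Fin.mk_one, Matrix.cons_val_one]
    rw [mul_comm]
    exact h3
  · rfl

theorem rotV_symm (φ : ℝ) (y : V) : (rotV φ).symm y = rotV (-φ) y := by
  rw [LinearIsometryEquiv.symm_apply_eq, rotV_apply, rotV_apply]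
  have := Real.sin_sq_add_cos_sq φ
  ext i
  fin_cases i
  · simp
    linear_combination (-(y 0)) * this
  · simp
    linear_combination (-(y 1)) * this
  · simp
  · simp

/-- Reduction of the positivity of the curvature to the meridian. -/
theorem gauss_all (hF : IsSmooth F) (hS : Sym F)
    (h : ∀ θ, 0 ≤ θ → θ ≤ Real.pi → ∀ e, IsFrame F (merS θ) e → 0 < gaussCurv F (merS θ) e)
    {x : S} {e : Fin 2 → E} (he : IsFrame F x e) : 0 < gaussCurv F x e := by
  obtain ⟨φ, θ, h1, h2, rfl⟩ := exists_mer x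
  have h3 : conj (rotE φ) (rotV φ).symm F = F := by
    funext y
    rw [conj, hS.rot, LinearIsometryEquiv.symm_apply_apply]
  have h4 : (fun i => rotE φ ((rotE φ).symm (e i))) = e := by
    funext i
    simp
  have h5 := (conj_frame (a := rotE φ) (b := (rotV φ).symm) hF (x := merS θ)
    (e := fun i => (rotE φ).symm (e i))).2 (by rw [h4]; exact he)
  have h6 := gaussCurv_conj (a := rotE φ) (b := (rotV φ).symm) hF (merS θ)
    (fun i => (rotE φ).symm (e i))
  rw [h3] at h5 h6
  rw [h4] at h6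
  rw [← h6]
  exact h θ h1 h2 _ h5

end Pool.Agent.Helper608.SphMCF
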