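import Mathlib
import Pool.Agent.Helper608.KInit2

/-! The turning of the profile curve of the initial surface. -/

open Set Metric Filter Topology
open scoped ContDiff

namespace Pool.Agent.Helper608.SphMCF

/-- A primitive of `1 / (1 + u²)²`. -/
noncomputable def GG (u : ℝ) : ℝ := (u / (1 + u ^ 2) + Real.arctan u) / 2

theorem hasDerivAt_GG (u : ℝ) : HasDerivAt GG (1 / (1 + u ^ 2) ^ 2) u := by
  have h0 : (1 + u ^ 2) ≠ 0 := by positivity
  have h1 : HasDerivAt (fun u : ℝ => 1 + u ^ 2) (2 * u) u := by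
    have := ((hasDerivAt_id u).fun_pow 2).const_add 1
    simpa using this
  have h2 := (((hasDerivAt_id u).div h1 h0).add (Real.hasDerivAt_arctan u)).div_const 2
  refine h2.congr_deriv ?_
  simp only [id]
  field_simp
  ring

theorem GG_mono : Monotone GG := by
  refine monotone_of_deriv_nonneg (fun u => (hasDerivAt_GG u).differentiableAt) (fun u => ?_)
  rw [(hasDerivAt_GG u).deriv]
  positivity

theorem GG_one : GG 1 = (1 / 2 + Real.pi / 4) / 2 := by
  rw [GG, Real.arctan_one]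
  norm_num

theorem GG_neg_one : GG (-1) = -((1 / 2 + Real.pi / 4) / 2) := by
  rw [GG, Real.arctan_neg, Real.arctan_one]
  norm_num
  ring

variable {T : ℝ} {P : Prof T}

namespace Ini

variable (hI : Ini P)
include hI

/-- The angle with `λ cos θ = 3 σ`. -/
noncomputable def _root_.Pool.Agent.Helper608.SphMCF.th1 : ℝ := Real.arccos (3 * sig / lam)
/-- The angle with `λ cos θ = σ / 3`. -/
noncomputable def _root_.Pool.Agent.Helper608.SphMCF.th2 : ℝ := Real.arccos (sig / (3 * lam))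

omit hI in
theorem _root_.Pool.Agent.Helper608.SphMCF.Cm_th1 : Cm th1 = 3 * sig := by
  have h1 : Real.cos th1 = 3 * sig / lam := by
    apply Real.cos_arccos
    · norm_num [sig, lam]
    · norm_num [sig, lam]
  rw [Cm, h1]
  have := lam_pos
  field_simp

omit hI in
theorem _root_.Pool.Agent.Helper608.SphMCF.Cm_th2 : Cm th2 = sig / 3 := by
  have h1 : Real.cos th2 = sig / (3 * lam) := by
    apply Real.cos_arccos
    · norm_num [sig, lam]
    · norm_num [sig, lam]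
  rw [Cm, h1]
  have := lam_pos
  field_simp

omit hI in
theorem _root_.Pool.Agent.Helper608.SphMCF.th1_pos : 0 < th1 := by
  rw [th1, Real.arccos_pos]
  norm_num [sig, lam]

omit hI in
theorem _root_.Pool.Agent.Helper608.SphMCF.th12 : th1 < th2 := by
  apply Real.arccos_lt_arccos
  · norm_num [sig, lam]
  · norm_num [sig, lam]
  · norm_num [sig, lam]

omit hI in
theorem _root_.Pool.Agent.Helper608.SphMCF.th2_lt : th2 < Real.pi / 2 := by
  rw [th2, Real.arccos_lt_pi_div_two]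
  norm_num [sig, lam]

omit hI in
theorem _root_.Pool.Agent.Helper608.SphMCF.Cm_bounds {θ : ℝ} (h1 : th1 ≤ θ) (h2 : θ ≤ th2) :
    sig / 3 ≤ Cm θ ∧ Cm θ ≤ 3 * sig := by
  have hl := lam_pos
  have hpi := Real.pi_pos
  have e1 : Real.cos θ ≤ Real.cos th1 :=
    Real.cos_le_cos_of_nonneg_of_le_pi th1_pos.le (by linarith [th2_lt]) h1
  have e2 : Real.cos th2 ≤ Real.cos θ :=
    Real.cos_le_cos_of_nonneg_of_le_pi (by linarith [th1_pos]) (by linarith [th2_lt]) h2
  constructor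
  · rw [← Cm_th2, Cm, Cm]
    exact mul_le_mul_of_nonneg_left e2 hl.le
  · rw [← Cm_th1, Cm, Cm]
    exact mul_le_mul_of_nonneg_left e1 hl.le

omit hI in
theorem _root_.Pool.Agent.Helper608.SphMCF.am_small {θ : ℝ} (h1 : th1 ≤ θ) (h2 : θ ≤ th2) :
    am θ ≤ 1 / 100000 := by
  obtain ⟨e1, e2⟩ := Cm_bounds h1 h2
  have hg := sig_pos
  have h3 := sig_sq_le
  rw [am_eq]
  have : Cm θ ^ 2 ≤ (3 * sig) ^ 2 := by
    apply pow_le_pow_left₀ (by linarith) e2
  nlinarith

theorem r_le (θ : ℝ) : P.r (0, θ) ≤ 1 := (abs_le.1 (Prof.fr (P := P) (hI.mem θ)).abs_r).2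

theorem r_large {θ : ℝ} (h1 : th1 ≤ θ) (h2 : θ ≤ th2) : 999 / 1000 ≤ P.r (0, θ) := by
  have hp : 0 < P.r (0, θ) := hI.r_pos (by linarith [th1_pos])
    (by linarith [th2_lt, Real.pi_pos])
  have e1 := hI.r_sq θ
  have e2 := am_small h1 h2
  have e3 := am_pos θ
  have e4 : am θ ^ 3 ≤ 1 / 10000 := by
    have : am θ ^ 2 ≤ 1 := by nlinarith
    nlinarith
  have e5 := hI.r_le θ
  nlinarith

/-- The primitive of the closed form on the first half. -/
theorem prim {θ : ℝ} (h1 : th1 ≤ θ) (h2 : θ ≤ th2) :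
    HasDerivAt (fun θ => -GG (Pn θ / (2 * sig * Cm θ * P.r (0, θ)))) (P.om (0, θ)) θ := by
  have h3 : 0 < θ := by linarith [th1_pos]
  have h4 : θ < Real.pi := by linarith [th2_lt, Real.pi_pos]
  have hr := hI.r_pos h3 h4
  have hg := sig_pos
  have hC : 0 < Cm θ := by
    have := (Cm_bounds h1 h2).1
    linarith
  have hY : (2 * sig * Cm θ * P.r (0, θ)) ≠ 0 := by positivity
  have hd := (hasDerivAt_Pn θ).div (hI.hasDerivAt_Yn θ) hY
  have h5 := ((hasDerivAt_GG (Pn θ / (2 * sig * Cm θ * P.r (0, θ)))).comp θ hd).neg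
  refine h5.congr_deriv ?_
  rw [hI.om_eq h3 h4]
  have h6 : (Pn θ ^ 2 + (2 * sig * Cm θ * P.r (0, θ)) ^ 2) ≠ 0 := by positivity
  set Y := 2 * sig * Cm θ * P.r (0, θ) with hYdef
  set Y' := 2 * sig * (-(lam * Real.sin θ)) * P.r (0, θ) + 2 * sig * Cm θ * dth P.r (0, θ)
  set Q' := -(2 * lam * Real.sin θ * Cm θ) * (1 - 9 * sig ^ 2 * am θ ^ 2 + 8 * sig ^ 4 * am θ)
  have h7 : (1 + (Pn θ / Y) ^ 2) = (Pn θ ^ 2 + Y ^ 2) / Y ^ 2 := by
    field_simp
    ring
  rw [h7]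
  field_simp
  ring

theorem u1 : 1 ≤ Pn th1 / (2 * sig * Cm th1 * P.r (0, th1)) := by
  have h3 : 0 < th1 := th1_pos
  have h4 : th1 < Real.pi := by linarith [th2_lt, Real.pi_pos, th12]
  have hr := hI.r_pos h3 h4
  have hr1 := hI.r_le th1
  have hg := sig_pos
  have h5 := sig_sq_le
  have h6 := sig_sq_pos
  have ha : am th1 = 10 * sig ^ 2 := by
    rw [am_eq, Cm_th1]
    ring
  rw [Cm_th1, one_le_div (by positivity), Pn, ha]
  have e1 : 2 * sig * (3 * sig) * P.r (0, th1) ≤ 6 * sig ^ 2 := by nlinarith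
  have e2 : 3 * sig ^ 2 * (10 * sig ^ 2) ^ 3 ≤ sig ^ 2 := by
    have : (10 * sig ^ 2) ^ 3 ≤ 1 / 3 := by
      have h7 : 10 * sig ^ 2 ≤ 1 / 10 := by linarith
      calc (10 * sig ^ 2) ^ 3 ≤ (1 / 10) ^ 3 := pow_le_pow_left₀ (by positivity) h7 3
        _ ≤ _ := by norm_num
    nlinarith
  have e3 : 0 ≤ 4 * sig ^ 4 * (10 * sig ^ 2) ^ 2 := by positivity
  linarith

theorem u2 : Pn th2 / (2 * sig * Cm th2 * P.r (0, th2)) ≤ -1 := by
  have h3 : 0 < th2 := by linarith [th1_pos, th12]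
  have h4 : th2 < Real.pi := by linarith [th2_lt, Real.pi_pos]
  have hr := hI.r_pos h3 h4
  have hr1 := hI.r_le th2
  have hg := sig_pos
  have h5 := sig_sq_le
  have h6 := sig_sq_pos
  have ha : am th2 = 10 / 9 * sig ^ 2 := by
    rw [am_eq, Cm_th2]
    ring
  rw [Cm_th2, div_le_iff₀ (by positivity), Pn, ha]
  have e1 : 2 * sig * (sig / 3) * P.r (0, th2) ≤ 2 / 3 * sig ^ 2 := by nlinarith
  have e2 : 4 * sig ^ 4 * (10 / 9 * sig ^ 2) ^ 2 ≤ 1 / 9 * sig ^ 2 := by
    have h7 : sig ^ 4 ≤ 1 / 1000 * sig ^ 2 := by nlinarith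
    have h8 : (10 / 9 * sig ^ 2) ^ 2 ≤ 1 := by
      have h9 : 10 / 9 * sig ^ 2 ≤ 1 := by linarith
      calc (10 / 9 * sig ^ 2) ^ 2 ≤ 1 ^ 2 := pow_le_pow_left₀ (by positivity) h9 2
        _ = 1 := by norm_num
    have h10 : 0 ≤ sig ^ 4 := by positivity
    nlinarith
  have e3 : 0 ≤ 3 * sig ^ 2 * (10 / 9 * sig ^ 2) ^ 3 := by positivity
  linarith

theorem turning (hy : ∀ q ∈ Dom T, |P.y q| ≤ 1 / 10) : 12 / 10 ≤ II P.fQ 0 := by
  have hm : (0 : ℝ) ∈ Ico 0 T := ⟨le_rfl, hI.hT⟩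
  have hcQ : Continuous (fun θ => P.fQ (0, θ)) :=
    Sm.slice (T := T) ((P.hr.pow 3).mul (Prof.sm_om hy)) hm
  have hco : Continuous (fun θ => P.om (0, θ)) := Sm.slice (Prof.sm_om hy) hm
  have h1 : ∫ θ in th1..th2, P.fQ (0, θ) ≤ II P.fQ 0 := by
    refine intervalIntegral.integral_mono_interval th1_pos.le th12.le
      (by linarith [th2_lt, Real.pi_pos]) ?_ (hcQ.intervalIntegrable _ _)
    have hnull : ∀ᵐ θ ∂(MeasureTheory.volume.restrict (Ioc 0 Real.pi) :
        MeasureTheory.Measure ℝ), θ ≠ Real.pi := by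
      refine MeasureTheory.ae_restrict_of_ae ?_
      exact MeasureTheory.Measure.ae_ne MeasureTheory.volume Real.pi
    filter_upwards [MeasureTheory.ae_restrict_mem measurableSet_Ioc, hnull] with θ hθ hne
    have hθ2 : θ < Real.pi := lt_of_le_of_ne hθ.2 hne
    have hr := hI.r_pos hθ.1 hθ2
    have := hI.om_nonneg hθ.1 hθ2
    show 0 ≤ P.fQ (0, θ)
    rw [Prof.fQ]
    positivity
  have h2 : 99 / 100 * ∫ θ in th1..th2, P.om (0, θ) ≤ ∫ θ in th1..th2, P.fQ (0, θ) := by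
    rw [← intervalIntegral.integral_const_mul]
    refine intervalIntegral.integral_mono_on th12.le
      ((continuous_const.mul hco).intervalIntegrable _ _) (hcQ.intervalIntegrable _ _) ?_
    intro θ hθ
    have e1 := hI.r_large hθ.1 hθ.2
    have e2 := hI.om_nonneg (θ := θ) (by linarith [hθ.1, th1_pos])
      (by linarith [hθ.2, th2_lt, Real.pi_pos])
    rw [Prof.fQ]
    apply mul_le_mul_of_nonneg_right _ e2
    calc (99 / 100 : ℝ) ≤ (999 / 1000) ^ 3 := by norm_num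
      _ ≤ _ := pow_le_pow_left₀ (by norm_num) e1 3
  have h3 : ∫ θ in th1..th2, P.om (0, θ) =
      -GG (Pn th2 / (2 * sig * Cm th2 * P.r (0, th2))) -
      -GG (Pn th1 / (2 * sig * Cm th1 * P.r (0, th1))) := by
    refine intervalIntegral.integral_eq_sub_of_hasDerivAt (f := fun θ =>
      -GG (Pn θ / (2 * sig * Cm θ * P.r (0, θ)))) ?_ (hco.intervalIntegrable _ _)
    intro θ hθ
    rw [uIcc_of_le th12.le] at hθ
    exact hI.prim hθ.1 hθ.2
  have h4 := GG_mono hI.u1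
  have h5 := GG_mono hI.u2
  rw [GG_one] at h4
  rw [GG_neg_one] at h5
  have h6 := Real.pi_gt_d2
  rw [h3] at h2
  linarith

end Ini

end Pool.Agent.Helper608.SphMCF
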