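import Mathlib
import Pool.Agent.Helper608.KInit3
import Pool.Agent.Helper608.KSlab

/-! The life span of symmetric solutions. -/

open Set Metric Filter Topology
open scoped ContDiff

namespace Pool.Agent.Helper608.SphMCF

theorem ini_of {T : ℝ} {F : ℝ → S → V} (h : IsMCF F0 (T : EReal) F)
    (hS : ∀ t ∈ Ico 0 T, Sym (F t)) : Ini (h.prof hS) where
  hT := by
    have := h.pos
    exact_mod_cast this
  er θ := by
    show F 0 (merS θ) 0 = _
    rw [h.init, F0_mer]
    simp
  ex θ := by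
    show F 0 (merS θ) 2 = _
    rw [h.init, F0_mer]
    simp
  ey θ := by
    show F 0 (merS θ) 3 = _
    rw [h.init, F0_mer]
    simp

theorem F0_pos (θ : ℝ) (h1 : 0 < θ) (h2 : θ < Real.pi) : 0 < F0 (merS θ) 0 := by
  rw [F0_mer]
  simpa using mul_pos (RI_pos _) (Real.sin_pos_of_pos_of_lt_pi h1 h2)

theorem exp_half_le : Real.exp (1 / 2) ≤ 5 / 3 := by
  have h1 : Real.exp (1 / 2) ^ 2 = Real.exp 1 := by
    rw [← Real.exp_nat_mul]
    norm_num
  have h2 := Real.exp_one_lt_d9
  have h3 := Real.exp_pos (1 / 2)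
  nlinarith

theorem slab_quarter {T : ℝ} (hT : T ≤ 1 / 4) {F : ℝ → S → V} (h : IsMCF F0 (T : EReal) F) :
    ∀ t ∈ Ico 0 T, ∀ x, |F t x 3| ≤ 1 / 200 := by
  intro t ht x
  have h1 := slab h (M := 3 / 1000) F0_three t ht x
  have h2 : Real.exp (2 * t) ≤ Real.exp (1 / 2) := Real.exp_le_exp.2 (by linarith [ht.2])
  have h3 := exp_half_le
  linarith

theorem life_quarter {T : ℝ} (hT : T ≤ 1 / 4) {F : ℝ → S → V} (h : IsMCF F0 (T : EReal) F)
    (hS : ∀ t ∈ Ico 0 T, Sym (F t)) : T ≤ 1 / 100 := by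
  have hy : ∀ q ∈ Dom T, |(h.prof hS).y q| ≤ 1 / 200 := fun q hq =>
    slab_quarter hT h q.1 hq.1 (merS q.2)
  have hI := ini_of h hS
  exact Prof.life (P := h.prof hS) (h.isFlow hS F0_pos) hy hI.area hI.excess
    (hI.turning (fun q hq => (hy q hq).trans (by norm_num)))

/-- A symmetric solution lives at most `1 / 100`. -/
theorem sym_life {T : EReal} {F : ℝ → S → V} (h : IsMCF F0 T F)
    (hS : ∀ t ∈ Time T, Sym (F t)) : T ≤ ((1 / 100 : ℝ) : EReal) := by
  by_contra hcon
  push Not at hcon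
  obtain ⟨q, hq1, hq2⟩ := EReal.lt_iff_exists_real_btwn.1 hcon
  have hq1' : (1 / 100 : ℝ) < q := by exact_mod_cast hq1
  set T' : ℝ := min q (1 / 4) with hT'
  have h1 : (1 / 100 : ℝ) < T' := lt_min hq1' (by norm_num)
  have h2 : (T' : EReal) ≤ T := by
    refine le_trans ?_ hq2.le
    exact_mod_cast min_le_left _ _
  have h3 : IsMCF F0 (T' : EReal) F := h.restrict (by
    have : (0 : ℝ) < T' := by linarith
    exact_mod_cast this) h2
  have h4 := life_quarter (min_le_right _ _) h3 (fun t ht => hS t ⟨ht.1, by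
    have : ((t : ℝ) : EReal) < (T' : EReal) := by exact_mod_cast ht.2
    exact this.trans_le h2⟩)
  linarith

/-- A symmetric solution does not shrink to a point. -/
theorem sym_not_shrinks {T : EReal} {F : ℝ → S → V} (h : IsMCF F0 T F)
    (hS : ∀ t ∈ Time T, Sym (F t)) : ¬ ShrinksToPoint T F := by
  rintro ⟨hT, o, ho⟩
  have hlife := sym_life h hS
  have hbot : T ≠ ⊥ := (lt_of_le_of_lt bot_le h.pos).ne'
  lift T to ℝ using ⟨hT.ne, hbot⟩ with T'
  have hpos : 0 < T' := by
    have := h.pos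
    exact_mod_cast this
  have hl : T' ≤ 1 / 100 := by exact_mod_cast hlife
  have hS' : ∀ t ∈ Ico 0 T', Sym (F t) := fun t ht => hS t (by rw [Time_coe]; exact ht)
  have hy := slab_quarter (T := T') (by linarith) h
  have hp := poles_apart h hS' (fun t ht x => (hy t ht x).trans (by norm_num))
    (by
      rw [F0_mer]
      simp [XI, lam, sig]
      norm_num)
    (by
      rw [F0_mer]
      simp [XI, lam, sig]
      norm_num)
  obtain ⟨δ, hδ, h2⟩ := ho (1 / 4) (by norm_num)
  set t : ℝ := max 0 (T' - δ / 2) with ht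
  have ht0 : t ∈ Ico 0 T' := ⟨le_max_left _ _, max_lt hpos (by linarith)⟩
  have ht1 : (T' : EReal) < ((t + δ : ℝ) : EReal) := by
    have : T' < t + δ := by
      have := le_max_right 0 (T' - δ / 2)
      linarith
    exact_mod_cast this
  have h3 := h2 t (by rw [Time_coe]; exact ht0) ht1
  have h4 := h3 (merS 0)
  have h5 := h3 (merS Real.pi)
  have h6 := hp t ht0
  have h7 : |F t (merS 0) 2 - o 2| < 1 / 4 := by
    refine lt_of_le_of_lt ?_ h4
    have := EuclideanSpace.norm_eq (F t (merS 0) - o)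
    rw [this]
    apply Real.le_sqrt_of_sq_le
    rw [sq_abs]
    have := Finset.single_le_sum (f := fun i => ‖(F t (merS 0) - o) i‖ ^ 2)
      (fun i _ => sq_nonneg _) (Finset.mem_univ (2 : Fin 4))
    simpa using this
  have h8 : |F t (merS Real.pi) 2 - o 2| < 1 / 4 := by
    refine lt_of_le_of_lt ?_ h5
    have := EuclideanSpace.norm_eq (F t (merS Real.pi) - o)
    rw [this]
    apply Real.le_sqrt_of_sq_le
    rw [sq_abs]
    have := Finset.single_le_sum (f := fun i => ‖(F t (merS Real.pi) - o) i‖ ^ 2)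
      (fun i _ => sq_nonneg _) (Finset.mem_univ (2 : Fin 4))
    simpa using this
  rw [abs_lt] at h7 h8
  linarith [h6.1, h6.2, h7.1, h7.2, h8.1, h8.2]

end Pool.Agent.Helper608.SphMCF
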