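import Mathlib
import Pool.Agent.Helper608.KGauss

/-! The initial surface has positive Gauss curvature. -/

open Set Metric Filter Topology
open scoped ContDiff

namespace Pool.Agent.Helper608.SphMCF

/-- The static profile curve of the initial surface. -/
noncomputable def P0 : Prof 1 := stat F0_smooth F0_sym F0_imm F0_norm

theorem ini0 : Ini P0 where
  hT := one_pos
  er θ := by
    show F0 (merS θ) 0 = _
    rw [F0_mer]
    simp
  ex θ := by
    show F0 (merS θ) 2 = _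
    rw [F0_mer]
    simp
  ey θ := by
    show F0 (merS θ) 3 = _
    rw [F0_mer]
    simp

/-- The function `√(1 - m a²)`. -/
noncomputable def Qm (θ : ℝ) : ℝ := √(1 - sig ^ 2 * am θ ^ 2)

theorem Qm_pos (θ : ℝ) : 0 < Qm θ := Real.sqrt_pos.2 (one_sub_pos θ)

theorem hasDerivAt_Qm (θ : ℝ) :
    HasDerivAt Qm (2 * lam * Real.sin θ * sig ^ 2 * am θ * Cm θ / Qm θ) θ := by
  have h := (((hasDerivAt_am θ).fun_pow 2).const_mul (sig ^ 2)).const_sub 1 |>.sqrt
    (one_sub_pos θ).ne'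
  refine h.congr_deriv ?_
  have h1 := (Qm_pos θ).ne'
  change _ / (2 * Qm θ) = _
  field_simp
  norm_num
  ring

theorem aQ {θ : ℝ} (h1 : 0 < θ) (h2 : θ < Real.pi) : P0.a (0, θ) * Qm θ = am θ * Cm θ := by
  have hI := ini0
  have hm := hI.mem θ
  have hs := Real.sin_pos_of_pos_of_lt_pi h1 h2
  have hv := Prof.v_pos (P := P0) hm
  have hl := lam_pos
  have ha := am_pos θ
  have hQ := Qm_pos θ
  have e1 := hI.r_dr θ
  have e2 := hI.rv h1 h2
  have e3 := Prof.dr_eq (P := P0) hm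
  have e4 : Wm θ = am θ * Qm θ := rfl
  rw [e3] at e1
  rw [e4] at e2
  have e5 : (3 * lam * Real.sin θ * am θ) * (P0.a (0, θ) * Qm θ - am θ * Cm θ) = 0 := by
    linear_combination e1 - P0.a (0, θ) * e2
  have e6 := (mul_eq_zero.1 e5).resolve_left (by positivity)
  linarith

theorem da_neg {θ : ℝ} (h1 : 0 < θ) (h2 : θ < Real.pi) : dth P0.a (0, θ) < 0 := by
  have hI := ini0
  have hm := hI.mem θ
  have hs := Real.sin_pos_of_pos_of_lt_pi h1 h2
  have hl := lam_pos
  have ha := am_pos θ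
  have hQ := Qm_pos θ
  have hev : ∀ᶠ s in 𝓝 θ, s ∈ Ioo 0 Real.pi := isOpen_Ioo.mem_nhds ⟨h1, h2⟩
  have d1 := ((Prof.sm_a (P := P0)).hasDerivAt hm).mul (hasDerivAt_Qm θ)
  have d2 := (hasDerivAt_am θ).mul (hasDerivAt_Cm θ)
  have d3 := d1.congr_of_eventuallyEq (f₁ := fun s => am s * Cm s) (by
    filter_upwards [hev] with s hs
    exact (aQ hs.1 hs.2).symm)
  have d4 := d3.unique d2
  have e0 := aQ h1 h2
  simp only at d4
  have e1 : dth P0.a (0, θ) * Qm θ ^ 3 = -(lam * Real.sin θ) *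
      ((2 * Cm θ ^ 2 + am θ) * Qm θ ^ 2 + 2 * sig ^ 2 * am θ ^ 2 * Cm θ ^ 2) := by
    have e2 : dth P0.a (0, θ) * Qm θ = -(lam * Real.sin θ) * (2 * Cm θ ^ 2 + am θ) -
        P0.a (0, θ) * (2 * lam * Real.sin θ * sig ^ 2 * am θ * Cm θ / Qm θ) := by
      linear_combination d4
    have e3 : P0.a (0, θ) * (2 * lam * Real.sin θ * sig ^ 2 * am θ * Cm θ / Qm θ) * Qm θ ^ 2 =
        (2 * lam * Real.sin θ * sig ^ 2 * am θ * Cm θ) * (am θ * Cm θ) := by
      rw [← e0]
      field_simp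
    calc dth P0.a (0, θ) * Qm θ ^ 3 = (dth P0.a (0, θ) * Qm θ) * Qm θ ^ 2 := by ring
      _ = _ := by
        rw [e2, sub_mul, e3]
        ring
  have e4 : 0 < (lam * Real.sin θ) *
      ((2 * Cm θ ^ 2 + am θ) * Qm θ ^ 2 + 2 * sig ^ 2 * am θ ^ 2 * Cm θ ^ 2) := by
    have := sig_pos
    positivity
  have e5 : dth P0.a (0, θ) * Qm θ ^ 3 < 0 := by linarith
  by_contra hcon
  push Not at hcon
  have : 0 ≤ dth P0.a (0, θ) * Qm θ ^ 3 := by positivity
  linarith

/-- The Gauss curvature of the initial surface is positive. -/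
theorem F0_gauss {x : S} {e : Fin 2 → E} (he : IsFrame F0 x e) : 0 < gaussCurv F0 x e := by
  refine gauss_all F0_smooth F0_sym ?_ he
  intro θ h1 h2 e he
  rcases h1.eq_or_lt with h1 | h1
  · exact pole_gauss F0_smooth F0_sym (by rw [← h1]; simp) he
  · rcases h2.eq_or_lt with h2 | h2
    · exact pole_gauss F0_smooth F0_sym (by rw [h2]; simp) he
    · have h0 : 0 < F0 (merS θ) 0 := by
        rw [F0_mer]
        simpa using mul_pos (RI_pos _) (Real.sin_pos_of_pos_of_lt_pi h1 h2)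
      rw [stat_gauss F0_smooth F0_sym F0_imm F0_norm h1 h2 h0 he]
      have k1 : 0 < P0.v (0, θ) := Prof.v_pos (P := P0) (ini0.mem θ)
      have k2 : 0 < P0.r (0, θ) := ini0.r_pos h1 h2
      have k3 := da_neg h1 h2
      exact div_pos (by simpa [P0] using k3) (mul_pos k1 k2)

/-- The pinching `|A|² < 2 + |H|²` is the positivity of the Gauss curvature. -/
theorem pinching_eq {F : S → V} (hF : IsSmooth F) (x : S) (e : Fin 2 → E) :
    2 + ‖meanCurv F x e‖ ^ 2 - normSqA F x e = 2 * gaussCurv F x e := by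
  have h1 : sff F x e (e 1) (e 0) = sff F x e (e 0) (e 1) := by
    rw [sff, sff, hF.D2_symm (coe_ne_zero x)]
  have h2 : ‖meanCurv F x e‖ ^ 2 = ‖sff F x e (e 0) (e 0)‖ ^ 2 +
      2 * inner ℝ (sff F x e (e 0) (e 0)) (sff F x e (e 1) (e 1)) +
      ‖sff F x e (e 1) (e 1)‖ ^ 2 := by
    rw [meanCurv, Fin.sum_univ_two, norm_add_sq_real]
  rw [h2, normSqA, gaussCurv]
  simp only [Fin.sum_univ_two]
  rw [h1]
  ring

end Pool.Agent.Helper608.SphMCF
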