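import Mathlib
import Pool.Agent.Helper608.KDefs

/-! Unique maximal solutions. -/

open Set Metric
open scoped ContDiff

namespace Pool.Agent.Helper608.SphMCF

/-- `F : S² × [0, T) → S³` is the unique maximal smooth mean curvature flow with initial value
`F₀`: it is a mean curvature flow with initial value `F₀`, and every mean curvature flow
`F' : S² × [0, T') → S³` with initial value `F₀` has `T' ≤ T` and agrees with `F` on `[0, T')`. -/
def IsUniqueMaximal (F₀ : S → V) (T : EReal) (F : ℝ → S → V) : Prop :=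
  IsMCF F₀ T F ∧
    ∀ (T' : EReal) (F' : ℝ → S → V), IsMCF F₀ T' F' → T' ≤ T ∧ ∀ t ∈ Time T', F' t = F t

/-- `F : S² → S³` is equivariant for the rotations in the first two coordinates and for the
reflection in the second coordinate. -/
def IsSymmetric (F : S → V) : Prop :=
  (∀ (φ : ℝ) (x y : S), (y : E) 0 = Real.cos φ * (x : E) 0 - Real.sin φ * (x : E) 1 →
    (y : E) 1 = Real.sin φ * (x : E) 0 + Real.cos φ * (x : E) 1 → (y : E) 2 = (x : E) 2 →
    F y 0 = Real.cos φ * F x 0 - Real.sin φ * F x 1 ∧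
    F y 1 = Real.sin φ * F x 0 + Real.cos φ * F x 1 ∧ F y 2 = F x 2 ∧ F y 3 = F x 3) ∧
  (∀ x y : S, (y : E) 0 = (x : E) 0 → (y : E) 1 = -(x : E) 1 → (y : E) 2 = (x : E) 2 →
    F y 0 = F x 0 ∧ F y 1 = -F x 1 ∧ F y 2 = F x 2 ∧ F y 3 = F x 3)

end Pool.Agent.Helper608.SphMCF
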