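import Mathlib
import Pool.Agent.Helper608.KLife
import Pool.Agent.Helper608.KPos
import Pool.Agent.Helper608.KUDefs

/-! Unique maximal solutions are symmetric. -/

open Set Metric Filter Topology
open scoped ContDiff

namespace Pool.Agent.Helper608.SphMCF

theorem conj_self {F₀ : S → V} {a : E ≃ₗᵢ[ℝ] E} {b : V ≃ₗᵢ[ℝ] V}
    (h : ∀ x, F₀ (act a x) = b (F₀ x)) : conj a b.symm F₀ = F₀ := by
  funext x
  rw [conj, h, b.symm_apply_apply]

theorem IsUniqueMaximal.equivariant {F₀ : S → V} {T : EReal} {F : ℝ → S → V}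
    (h : IsUniqueMaximal F₀ T F) {a : E ≃ₗᵢ[ℝ] E} {b : V ≃ₗᵢ[ℝ] V}
    (h0 : ∀ x, F₀ (act a x) = b (F₀ x)) {t : ℝ} (ht : t ∈ Time T) (x : S) :
    F t (act a x) = b (F t x) := by
  have h1 := h.1.conj a b.symm
  rw [conj_self h0] at h1
  have h2 := congrFun ((h.2 T _ h1).2 t ht) x
  simp only [conj] at h2
  rw [← h2, b.apply_symm_apply]

theorem IsUniqueMaximal.sym {F₀ : S → V} {T : EReal} {F : ℝ → S → V}
    (h : IsUniqueMaximal F₀ T F) (h0 : Sym F₀) : ∀ t ∈ Time T, Sym (F t) := fun t ht =>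
  ⟨fun φ x => h.equivariant (h0.rot φ) ht x, fun x => h.equivariant h0.ref ht x⟩

theorem IsSymmetric.sym {F : S → V} (h : IsSymmetric F) : Sym F := by
  constructor
  · intro φ x
    obtain ⟨h0, h1, h2, h3⟩ := h.1 φ x (act (rotE φ) x) (by simp [act_coe, rotE_apply])
      (by simp [act_coe, rotE_apply]) (by simp [act_coe, rotE_apply])
    rw [rotV_apply]
    ext i
    fin_cases i
    · exact h0
    · exact h1
    · exact h2
    · exact h3
  · intro x
    obtain ⟨h0, h1, h2, h3⟩ := h.2 x (act refE x) (by simp [act_coe, refE_apply])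
      (by simp [act_coe, refE_apply]) (by simp [act_coe, refE_apply])
    rw [refV_apply]
    ext i
    fin_cases i
    · exact h0
    · exact h1
    · exact h2
    · exact h3

end Pool.Agent.Helper608.SphMCF
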