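import Mathlib
import Pool.Agent.Helper608.KUniq

/-! The main theorem, with uniqueness as part of the conclusion. -/

open Set Metric Filter Topology
open scoped ContDiff

namespace Pool.Agent.Helper608.SphMCF

/-- No unique maximal flow with initial value `F0` is immortal or shrinks to a point. -/
theorem main_unique (T : EReal) (F : ℝ → S → V) (h : IsUniqueMaximal F0 T F) :
    T ≤ ((1 / 100 : ℝ) : EReal) ∧ ¬ ShrinksToPoint T F :=
  ⟨sym_life h.1 (h.sym F0_sym), sym_not_shrinks h.1 (h.sym F0_sym)⟩

end Pool.Agent.Helper608.SphMCF
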