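import Mathlib
import Pool.Agent.Helper608.KBd

/-! Vanishing of the normal component of the rotation field. -/

open Set Metric Filter Topology
open scoped ContDiff

namespace Pool.Agent.Helper608.SphMCF

/-- The rotation field of `ℝ³`. -/
noncomputable def JJ (x : E) : E := !₂[-x 1, x 0, 0]

theorem hasDerivAt_rotE (x : E) (φ : ℝ) : HasDerivAt (fun φ => rotE φ x) (JJ (rotE φ x)) φ := by
  have hc := Real.hasDerivAt_cos φ
  have hs := Real.hasDerivAt_sin φ
  have h := hasDerivAt_three ((hc.mul_const (x 0)).sub (hs.mul_const (x 1)))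
    ((hs.mul_const (x 0)).add (hc.mul_const (x 1))) (hasDerivAt_const φ (x 2))
  refine (h.congr_deriv ?_)
  rw [JJ, rotE_apply]
  ext i
  fin_cases i
  · simp
    ring
  · simp
    ring
  · simp

theorem hasDerivAt_rotV (x : V) (φ : ℝ) : HasDerivAt (fun φ => rotV φ x) (BB (rotV φ x)) φ := by
  have hc := Real.hasDerivAt_cos φ
  have hs := Real.hasDerivAt_sin φ
  have h := hasDerivAt_four ((hc.mul_const (x 0)).sub (hs.mul_const (x 1)))
    ((hs.mul_const (x 0)).add (hc.mul_const (x 1))) (hasDerivAt_const φ (x 2))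
    (hasDerivAt_const φ (x 3))
  refine (h.congr_deriv ?_)
  rw [BB_apply, rotV_apply]
  ext i
  fin_cases i
  · simp
    ring
  · simp
    ring
  · simp
  · simp

theorem rotE_zero (x : E) : rotE 0 x = x := by
  rw [rotE_apply]
  ext i
  fin_cases i <;> simp

theorem rotV_zero (x : V) : rotV 0 x = x := by
  rw [rotV_apply]
  ext i
  fin_cases i <;> simp

/-- The infinitesimal form of the equivariance. -/
theorem Sym.infin {F : S → V} (hS : Sym F) (hF : IsSmooth F) (x : S) :
    D F x (JJ x) = BB (F x) := by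
  have h1 := hF.hasDerivAt_curve (hasDerivAt_rotE (x : E) 0) (by simpa using coe_ne_zero x)
  rw [rotE_zero] at h1
  have h2 : (fun φ : ℝ => F (proj (rotE φ (x : E)))) = fun φ => rotV φ (F x) := by
    funext φ
    rw [proj_act _ (coe_ne_zero x), proj_coe, hS.rot]
  rw [h2] at h1
  have h3 := hasDerivAt_rotV (F x) 0
  rw [rotV_zero] at h3
  exact h1.unique h3

section

variable {F₀ : S → V} {T : ℝ} {F : ℝ → S → V} (h : IsMCF F₀ (T : EReal) F)
include h

theorem IsMCF.cq_U : CQ T (UU F) := by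
  have h1 : ContDiffOn ℝ ∞ (fun q => BB (GG4 F q)) (QT T) := BB.contDiff.comp_contDiffOn h.cq
  exact ContDiffOn.inner ℝ h1 h.cq_N

theorem IsMCF.U_hom {t : ℝ} {y : E} (hq : (t, y) ∈ QT T) :
    UU F (t, y) = UU F (t, (proj y : E)) := by
  have hG : GG4 F (t, (proj y : E)) = GG4 F (t, y) := by
    simp only [GG4, proj_coe]
  rw [UU, UU, h.N_hom hq, hG]

theorem IsMCF.U_init (hS : Sym F₀) (hT : 0 < T) (x : S) : UU F (0, (x : E)) = 0 := by
  have hq : ((0, (x : E)) : ℝ × E) ∈ QT T := ⟨⟨le_rfl, hT⟩, coe_ne_zero x⟩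
  have hsm := h.sm hq
  have h1 := h.N_dv hq (JJ x)
  rw [dv_GG4] at h1
  simp only [h.init] at h1 hsm
  rw [hS.infin hsm] at h1
  have hG : GG4 F (0, (x : E)) = F₀ x := by
    simp only [GG4, proj_coe, h.init]
  rw [UU, hG, real_inner_comm]
  exact h1

/-- The normal component of the rotation field has a sign. -/
theorem IsMCF.U_le (hS : Sym F₀) {T' : ℝ} (hT : T' < T) {ε : ℝ}
    (hε : ε = 1 ∨ ε = -1) : ∀ t ∈ Ico 0 T', ∀ x : S, ε * UU F (t, (x : E)) ≤ 0 := by
  intro t₀ ht₀ x₀
  have hT'pos : 0 < T' := ht₀.1.trans_lt ht₀.2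
  have hTpos : 0 < T := hT'pos.trans hT
  obtain ⟨C, hC0, hC⟩ := h.frame_bound hT
  set L : ℝ := 2 + 4 * C ^ 2 with hL
  have hcq := h.cq_U
  have hco := h.co_U
  have hsub : ∀ t ∈ Ico 0 T', t ∈ Ico 0 T := fun t ht => ⟨ht.1, ht.2.trans hT⟩
  have hdiff : ∀ x : S, DifferentiableOn ℝ (fun s : ℝ => UU F (s, (x : E))) (Ico 0 T') := by
    intro x
    have h1 : ContDiffOn ℝ ∞ (fun s : ℝ => ((s, (x : E)) : ℝ × E)) (Ico 0 T') := by
      fun_prop
    have h2 : ContDiffOn ℝ ∞ (fun s : ℝ => UU F (s, (x : E))) (Ico 0 T') :=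
      ContDiffOn.comp (g := UU F) hcq h1 (fun s hs => ⟨hsub s hs, coe_ne_zero x⟩)
    exact h2.differentiableOn (by simp)
  have key := HypMCF.max_principle (T := T') (M := 0)
    (fun t (x : S) => Real.exp (-L * t) * (ε * UU F (t, (x : E))))
    (fun t (x : S) => Real.exp (-L * t) * (-L) * (ε * UU F (t, (x : E))) +
      Real.exp (-L * t) * (ε * derivWithin (fun s : ℝ => UU F (s, (x : E))) (Ico 0 T') t))
    ?_ ?_ ?_ ?_
  · have h1 := key t₀ ht₀ x₀
    have h2 : 0 < Real.exp (-L * t₀) := Real.exp_pos _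
    by_contra hcon
    push Not at hcon
    have := mul_pos h2 hcon
    linarith
  · have h1 : ContinuousOn (fun q : ℝ × S => ((q.1, (q.2 : E)) : ℝ × E)) (Ico 0 T' ×ˢ univ) := by
      fun_prop
    have h2 : ContinuousOn (fun q : ℝ × S => UU F (q.1, (q.2 : E))) (Ico 0 T' ×ˢ univ) :=
      ContinuousOn.comp (g := UU F) (ContDiffOn.continuousOn hcq) h1
        (fun q hq => ⟨hsub q.1 hq.1, coe_ne_zero q.2⟩)
    exact ContinuousOn.mul (by fun_prop) (continuousOn_const.mul h2)
  · intro t ht x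
    have h1 := ((hdiff x) t ht).hasDerivWithinAt
    have h6 : HasDerivAt (fun s : ℝ => Real.exp (-L * s)) (Real.exp (-L * t) * (-L)) t := by
      have := ((hasDerivAt_id t).const_mul (-L)).exp
      simpa using this
    exact h6.hasDerivWithinAt.mul (h1.const_mul ε)
  · intro x
    rw [h.U_init hS hTpos]
    simp
  · intro t ht x hmax hpos
    have he0 : 0 < Real.exp (-L * t) := Real.exp_pos _
    have hUpos : 0 < ε * UU F (t, (x : E)) := by
      by_contra hcon
      push Not at hcon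
      have := mul_nonpos_of_nonneg_of_nonpos he0.le hcon
      linarith
    have ht0 : 0 < t := by
      rcases ht.1.eq_or_lt with h1 | h1
      · rw [← h1, h.U_init hS hTpos] at hUpos
        simp at hUpos
      · exact h1
    have hq : (t, (x : E)) ∈ QO T := ⟨⟨ht0, ht.2.trans hT⟩, coe_ne_zero x⟩
    have hder : derivWithin (fun s : ℝ => UU F (s, (x : E))) (Ico 0 T') t =
        da (1, 0) (UU F) (t, (x : E)) := by
      have h1 := hco.hasDerivAt_time hq
      exact (h1.hasDerivWithinAt (s := Ico 0 T')).derivWithin (uniqueDiffOn_Ico 0 T' t ht)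
    obtain ⟨e, he⟩ := exists_frame (h.imm t (by rw [Time_coe]; exact hsub t ht)) x
    -- the second derivative test
    have htest : ∀ i, da (0, e i) (UU F) (t, (x : E)) = 0 ∧
        ε * da (0, e i) (da (0, e i) (UU F)) (t, (x : E)) ≤ 0 := by
      intro i
      have hline : ∀ s : ℝ, (t, (x : E) + s • e i) ∈ QO T := fun s =>
        ⟨hq.1, line_ne_zero x (he.1 i) s⟩
      have h1 : ∀ s : ℝ, HasDerivAt (fun s : ℝ => ε * UU F (t, (x : E) + s • e i))
          (ε * da (0, e i) (UU F) (t, (x : E) + s • e i)) s := fun s =>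
        (hco.hasDerivAt_line (hline s)).const_mul ε
      have h2 : HasDerivAt (fun s : ℝ => ε * da (0, e i) (UU F) (t, (x : E) + s • e i))
          (ε * da (0, e i) (da (0, e i) (UU F)) (t, (x : E))) 0 := by
        have h3 := ((hco.da (0, e i)).hasDerivAt_line (hline 0)).const_mul ε
        simp only [zero_smul, add_zero] at h3
        exact h3
      have h4 := HypMCF.second_test h1 h2 (fun s => by
        simp only [zero_smul, add_zero]
        rw [h.U_hom (QO_sub T (hline s))]
        exact le_of_mul_le_mul_left (hmax (proj ((x : E) + s • e i))) he0)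
      refine ⟨?_, h4.2⟩
      have h5 := h4.1
      simp only [zero_smul, add_zero] at h5
      rcases hε with rfl | rfl
      · linarith
      · linarith
    have hev := h.evol hq he (htest 0).1 (htest 1).1
    have hb : ∀ i j, (inner ℝ (NN F (t, (x : E)))
        (da (0, e i) (da (0, e j) (GG4 F)) (t, (x : E)))) ^ 2 ≤ C ^ 2 := by
      intro i j
      rw [h.da2_G hq, ← sq_abs]
      have h1 := abs_real_inner_le_norm (NN F (t, (x : E))) (D2 (F t) x (e i) (e j))
      have h2 : ‖NN F (t, (x : E))‖ = 1 := by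
        have h3 := h.N_N (QO_sub T hq)
        rw [real_inner_self_eq_norm_sq] at h3
        nlinarith [norm_nonneg (NN F (t, (x : E)))]
      rw [h2, one_mul] at h1
      have h4 := h1.trans (hC t ⟨ht.1, ht.2.le⟩ x e he i j)
      exact pow_le_pow_left₀ (abs_nonneg _) h4 2
    have b00 := hb 0 0
    have b01 := hb 0 1
    have b11 := hb 1 1
    rw [hder]
    have hfin : ε * da (1, 0) (UU F) (t, (x : E)) ≤ L * (ε * UU F (t, (x : E))) := by
      rw [hev]
      have s0 := (htest 0).2
      have s1 := (htest 1).2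
      have hco2 : (2 + ((inner ℝ (NN F (t, (x : E)))
          (da (0, e 0) (da (0, e 0) (GG4 F)) (t, (x : E)))) ^ 2 +
          2 * (inner ℝ (NN F (t, (x : E))) (da (0, e 0) (da (0, e 1) (GG4 F)) (t, (x : E)))) ^ 2 +
          (inner ℝ (NN F (t, (x : E))) (da (0, e 1) (da (0, e 1) (GG4 F)) (t, (x : E)))) ^ 2)) ≤
          L := by
        rw [hL]
        linarith
      have h7 := mul_le_mul_of_nonneg_right hco2 hUpos.le
      nlinarith
    have h8 : Real.exp (-L * t) * (-L) * (ε * UU F (t, (x : E))) +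
        Real.exp (-L * t) * (ε * da (1, 0) (UU F) (t, (x : E))) =
        Real.exp (-L * t) * (ε * da (1, 0) (UU F) (t, (x : E)) - L * (ε * UU F (t, (x : E)))) := by
      ring
    rw [h8]
    exact mul_nonpos_of_nonneg_of_nonpos he0.le (by linarith)

/-- The rotation field is tangent along the flow. -/
theorem IsMCF.U_zero (hS : Sym F₀) {q : ℝ × E} (hq : q ∈ QT T) : UU F q = 0 := by
  obtain ⟨T', hT1, hT2⟩ := exists_between hq.1.2
  have hU := h.U_hom (t := q.1) (y := q.2) hq
  have e : ((q.1, q.2) : ℝ × E) = q := rfl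
  rw [e] at hU
  rw [hU]
  have h1 := h.U_le hS hT2 (Or.inl rfl) q.1 ⟨hq.1.1, hT1⟩ (proj q.2)
  have h2 := h.U_le hS hT2 (Or.inr rfl) q.1 ⟨hq.1.1, hT1⟩ (proj q.2)
  linarith

end

end Pool.Agent.Helper608.SphMCF
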