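import Mathlib
import Pool.Agent.Helper608.KVan

/-! Every solution is symmetric. -/

open Set Metric Filter Topology
open scoped ContDiff

namespace Pool.Agent.Helper608.SphMCF

section

variable {F₀ : S → V} {T : ℝ} {F : ℝ → S → V} (h : IsMCF F₀ (T : EReal) F)
include h

/-- The key estimate for the defect of the equivariance. -/
theorem IsMCF.defect (hS : Sym F₀) {C : ℝ} (hC0 : 0 ≤ C) {t : ℝ} {x : S}
    (hq : (t, (x : E)) ∈ QO T) (w : E)
    (hC : ∀ e, IsFrame (F t) x e → ∀ i j, ‖D2 (F t) x (e i) (e j)‖ ≤ C) :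
    |2 * inner ℝ (BB (GG4 F (t, (x : E))) - da (0, w) (GG4 F) (t, (x : E)))
      (BB (da (1, 0) (GG4 F) (t, (x : E))) - da (0, w) (da (1, 0) (GG4 F)) (t, (x : E)))| ≤
    8 * C ^ 2 * inner ℝ (BB (GG4 F (t, (x : E))) - da (0, w) (GG4 F) (t, (x : E)))
      (BB (GG4 F (t, (x : E))) - da (0, w) (GG4 F) (t, (x : E))) := by
  set q : ℝ × E := (t, (x : E)) with hqdef
  have hq' := QO_sub T hq
  obtain ⟨e, he⟩ := exists_frame (h.imm t (by rw [Time_coe]; exact hq'.1)) x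
  obtain ⟨k0, k1, k2⟩ := frame_inner' he
  have hgg : inner ℝ (GG4 F q) (GG4 F q) = 1 := h.inner_G hq'
  have haa : inner ℝ (da (0, e 0) (GG4 F) q) (da (0, e 0) (GG4 F) q) = 1 := by
    rw [h.da_G hq]
    exact k0
  have hbb : inner ℝ (da (0, e 1) (GG4 F) q) (da (0, e 1) (GG4 F) q) = 1 := by
    rw [h.da_G hq]
    exact k1
  have hab : inner ℝ (da (0, e 0) (GG4 F) q) (da (0, e 1) (GG4 F) q) = 0 := by
    rw [h.da_G hq, h.da_G hq]
    exact k2
  have hnn : inner ℝ (NN F q) (NN F q) = 1 := h.N_N hq'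
  have hag := h.GdG hq (0, e 0)
  have hbg := h.GdG hq (0, e 1)
  have hng : inner ℝ (NN F q) (GG4 F q) = 0 := h.N_G
  have hna := h.N_da hq (e 0)
  have hnb := h.N_da hq (e 1)
  have ex := basis4 hgg haa hbb hnn hag hbg hab hng hna hnb
  have hvel := h.vel hq
  have hcomm : da (0, e 1) (da (0, e 0) (GG4 F)) q = da (0, e 0) (da (0, e 1) (GG4 F)) q :=
    h.co.comm hq _ _
  have hU : ∀ p ∈ QO T, UU F p = 0 := fun p hp => h.U_zero hS (QO_sub T hp)
  have hUd : ∀ a : ℝ × E, da a (UU F) q = 0 := fun a => by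
    rw [da_congr (Ψ := fun _ => (0 : ℝ)) hU hq, da_const]
  have hη := h.mcr hq (e 0) (e 1)
  rw [haa, hbb, hab] at hη
  have hη' : inner ℝ (NN F q) (da (1, 0) (GG4 F) q) =
      inner ℝ (NN F q) (da (0, e 0) (da (0, e 0) (GG4 F)) q) +
      inner ℝ (NN F q) (da (0, e 1) (da (0, e 1) (GG4 F)) q) := by
    linarith
  -- the derivatives of the normal
  have n0n := h.NdN hq (0, e 0)
  have n1n := h.NdN hq (0, e 1)
  have n0g := h.NdG' hq (e 0)
  have n1g := h.NdG' hq (e 1)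
  have n0a := h.NdD hq (0, e 0) (e 0)
  have n0b := h.NdD hq (0, e 0) (e 1)
  have n1a := h.NdD hq (0, e 1) (e 0)
  have n1b := h.NdD hq (0, e 1) (e 1)
  rw [hcomm] at n1a
  have n0w := h.NdD hq (0, e 0) w
  have n1w := h.NdD hq (0, e 1) w
  rw [h.co.comm hq] at n0w n1w
  -- the velocity is normal
  have hv0 : ∀ v : E, inner ℝ (da (0, w) (da (1, 0) (GG4 F)) q) (da (0, v) (GG4 F) q) =
      -inner ℝ (da (1, 0) (GG4 F) q) (da (0, w) (da (0, v) (GG4 F)) q) := by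
    intro v
    have := (h.co.da (1, 0)).da_inner_const (h.co.da (0, v))
      (fun p hp => (h.vel hp).2 v) hq (0, w)
    linarith
  have hGt : ∀ Y : V, inner ℝ (da (1, 0) (GG4 F) q) Y =
      inner ℝ (NN F q) (da (1, 0) (GG4 F) q) * inner ℝ (NN F q) Y := by
    intro Y
    rw [ex (da (1, 0) (GG4 F) q) Y, hvel.1, hvel.2, hvel.2,
      real_inner_comm (NN F q) (da (1, 0) (GG4 F) q), real_inner_comm (NN F q) Y]
    ring
  set X := BB (GG4 F q) - da (0, w) (GG4 F) q with hX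
  set Y := BB (da (1, 0) (GG4 F) q) - da (0, w) (da (1, 0) (GG4 F)) q with hY
  set η := inner ℝ (NN F q) (da (1, 0) (GG4 F) q) with hηd
  set h00 := inner ℝ (NN F q) (da (0, e 0) (da (0, e 0) (GG4 F)) q) with hh00
  set h01 := inner ℝ (NN F q) (da (0, e 0) (da (0, e 1) (GG4 F)) q) with hh01
  set h11 := inner ℝ (NN F q) (da (0, e 1) (da (0, e 1) (GG4 F)) q) with hh11
  have hXg : inner ℝ X (GG4 F q) = 0 := by
    rw [hX, inner_sub_left, BB_self, h.GdG hq, sub_zero]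
  have hXn : inner ℝ X (NN F q) = 0 := by
    rw [hX, inner_sub_left, real_inner_comm (NN F q) (da (0, w) (GG4 F) q), h.N_da hq, sub_zero]
    exact hU q hq
  have hN0X : inner ℝ (da (0, e 0) (NN F) q) X =
      -h00 * inner ℝ X (da (0, e 0) (GG4 F) q) - h01 * inner ℝ X (da (0, e 1) (GG4 F) q) := by
    rw [ex (da (0, e 0) (NN F) q) X, n0n, n0g, n0a, n0b]
    ring
  have hN1X : inner ℝ (da (0, e 1) (NN F) q) X =
      -h01 * inner ℝ X (da (0, e 0) (GG4 F) q) - h11 * inner ℝ X (da (0, e 1) (GG4 F) q) := by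
    rw [ex (da (0, e 1) (NN F) q) X, n1n, n1g, n1a, n1b]
    ring
  have hY0 : inner ℝ Y (da (0, e 0) (GG4 F) q) = η * inner ℝ (da (0, e 0) (NN F) q) X := by
    have h1 := h.da_U hq (0, e 0)
    rw [hUd] at h1
    have h2 : inner ℝ (NN F q) (BB (da (0, e 0) (GG4 F) q)) =
        inner ℝ (BB (da (0, e 0) (GG4 F) q)) (NN F q) := real_inner_comm _ _
    have h3 : inner ℝ (da (0, e 0) (NN F) q) (BB (GG4 F q)) =
        inner ℝ (BB (GG4 F q)) (da (0, e 0) (NN F) q) := real_inner_comm _ _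
    rw [hY, inner_sub_left, BB_skew, hGt, hv0, hGt, hX, inner_sub_right, n0w, h3, h2]
    linear_combination η * h1
  have hY1 : inner ℝ Y (da (0, e 1) (GG4 F) q) = η * inner ℝ (da (0, e 1) (NN F) q) X := by
    have h1 := h.da_U hq (0, e 1)
    rw [hUd] at h1
    have h2 : inner ℝ (NN F q) (BB (da (0, e 1) (GG4 F) q)) =
        inner ℝ (BB (da (0, e 1) (GG4 F) q)) (NN F q) := real_inner_comm _ _
    have h3 : inner ℝ (da (0, e 1) (NN F) q) (BB (GG4 F q)) =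
        inner ℝ (BB (GG4 F q)) (da (0, e 1) (NN F) q) := real_inner_comm _ _
    rw [hY, inner_sub_left, BB_skew, hGt, hv0, hGt, hX, inner_sub_right, n1w, h3, h2]
    linear_combination η * h1
  rw [ex X Y, ex X X, hXg, hXn, hY0, hY1, hN0X, hN1X]
  set ξ0 := inner ℝ X (da (0, e 0) (GG4 F) q)
  set ξ1 := inner ℝ X (da (0, e 1) (GG4 F) q)
  have hb : ∀ i j, |inner ℝ (NN F q) (da (0, e i) (da (0, e j) (GG4 F)) q)| ≤ C := by
    intro i j
    rw [h.da2_G hq]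
    have h1 := abs_real_inner_le_norm (NN F q) (D2 (F t) x (e i) (e j))
    have h2 : ‖NN F q‖ = 1 := by
      rw [real_inner_self_eq_norm_sq] at hnn
      nlinarith [norm_nonneg (NN F q)]
    rw [h2, one_mul] at h1
    exact h1.trans (hC e he i j)
  have b00 : |h00| ≤ C := hb 0 0
  have b01 : |h01| ≤ C := hb 0 1
  have b11 : |h11| ≤ C := hb 1 1
  have bη : |η| ≤ 2 * C := by
    rw [hη']
    exact (abs_add_le _ _).trans (by linarith)
  have e1 : 2 * (0 * inner ℝ Y (GG4 F q) + ξ0 * (η * (-h00 * ξ0 - h01 * ξ1)) +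
      ξ1 * (η * (-h01 * ξ0 - h11 * ξ1)) + 0 * inner ℝ Y (NN F q)) =
      -(2 * η) * (h00 * ξ0 ^ 2 + 2 * h01 * (ξ0 * ξ1) + h11 * ξ1 ^ 2) := by ring
  rw [e1, abs_mul, abs_neg, abs_mul, abs_two]
  have e2 : |h00 * ξ0 ^ 2 + 2 * h01 * (ξ0 * ξ1) + h11 * ξ1 ^ 2| ≤ 2 * C * (ξ0 ^ 2 + ξ1 ^ 2) := by
    have a1 : |h00 * ξ0 ^ 2| ≤ C * ξ0 ^ 2 := by
      rw [abs_mul, abs_of_nonneg (sq_nonneg ξ0)]
      exact mul_le_mul_of_nonneg_right b00 (sq_nonneg _)
    have a2 : |h11 * ξ1 ^ 2| ≤ C * ξ1 ^ 2 := by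
      rw [abs_mul, abs_of_nonneg (sq_nonneg ξ1)]
      exact mul_le_mul_of_nonneg_right b11 (sq_nonneg _)
    have a3 : |2 * h01 * (ξ0 * ξ1)| ≤ C * (ξ0 ^ 2 + ξ1 ^ 2) := by
      have a4 : |2 * h01 * (ξ0 * ξ1)| = |h01| * |2 * (ξ0 * ξ1)| := by
        rw [← abs_mul]
        congr 1
        ring
      rw [a4]
      have a5 : |2 * (ξ0 * ξ1)| ≤ ξ0 ^ 2 + ξ1 ^ 2 := by
        rw [abs_le]
        constructor
        · nlinarith [sq_nonneg (ξ0 + ξ1)]
        · nlinarith [sq_nonneg (ξ0 - ξ1)]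
      exact mul_le_mul b01 a5 (abs_nonneg _) hC0
    calc |h00 * ξ0 ^ 2 + 2 * h01 * (ξ0 * ξ1) + h11 * ξ1 ^ 2| ≤
        |h00 * ξ0 ^ 2| + |2 * h01 * (ξ0 * ξ1)| + |h11 * ξ1 ^ 2| := abs_add_three _ _ _
      _ ≤ 2 * C * (ξ0 ^ 2 + ξ1 ^ 2) := by linarith
  calc 2 * |η| * |h00 * ξ0 ^ 2 + 2 * h01 * (ξ0 * ξ1) + h11 * ξ1 ^ 2| ≤
      (2 * (2 * C)) * (2 * C * (ξ0 ^ 2 + ξ1 ^ 2)) := by
        apply mul_le_mul _ e2 (abs_nonneg _) (by positivity)
        linarith
    _ = 8 * C ^ 2 * (0 * 0 + ξ0 * ξ0 + ξ1 * ξ1 + 0 * 0) := by ring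

/-- The infinitesimal equivariance persists. -/
theorem IsMCF.infin (hS : Sym F₀) {t : ℝ} (ht : t ∈ Ico 0 T) (x : S) :
    D (F t) x (JJ x) = BB (F t x) := by
  obtain ⟨T', hT1, hT2⟩ := exists_between ht.2
  obtain ⟨C, hC0, hC⟩ := h.frame_bound hT2
  have hT'pos : 0 < T' := ht.1.trans_lt hT1
  have hTpos : 0 < T := hT'pos.trans hT2
  set w : E := JJ x with hw
  let Xf : ℝ → V := fun s => BB (GG4 F (s, (x : E))) - dv w (GG4 F) (s, (x : E))
  have hmaps : MapsTo (fun s : ℝ => ((s, (x : E)) : ℝ × E)) (Icc 0 t) (QT T) := fun s hs =>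
    ⟨⟨hs.1, hs.2.trans_lt ht.2⟩, coe_ne_zero x⟩
  have hXc : ContinuousOn Xf (Icc 0 t) := by
    have h1 : ContinuousOn (GG4 F) (QT T) := ContDiffOn.continuousOn h.cq
    have h2 : ContinuousOn (dv w (GG4 F)) (QT T) := ContDiffOn.continuousOn (h.cq.dv w)
    have h3 : ContinuousOn (fun s : ℝ => GG4 F (s, (x : E))) (Icc 0 t) :=
      ContinuousOn.comp (g := GG4 F) h1 (by fun_prop) hmaps
    have h4 : ContinuousOn (fun s : ℝ => dv w (GG4 F) (s, (x : E))) (Icc 0 t) :=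
      ContinuousOn.comp (g := dv w (GG4 F)) h2 (by fun_prop) hmaps
    exact (BB.continuous.comp_continuousOn h3).sub h4
  have hX0 : Xf 0 = 0 := by
    show BB (GG4 F (0, (x : E))) - dv w (GG4 F) (0, (x : E)) = 0
    have hsm : IsSmooth F₀ := by
      have := h.sm (q := (0, (x : E))) ⟨⟨le_rfl, hTpos⟩, coe_ne_zero x⟩
      simpa only [h.init] using this
    rw [dv_GG4, GG4]
    simp only [proj_coe, h.init]
    rw [hw, hS.infin hsm, sub_self]
  let K : ℝ := 8 * C ^ 2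
  let f : ℝ → ℝ := fun s => Real.exp (-K * s) * inner ℝ (Xf s) (Xf s)
  have hder : ∀ s ∈ Ioo 0 t, ∃ d ≤ 0, HasDerivAt f d s := by
    intro s hs
    have hq : (s, (x : E)) ∈ QO T := ⟨⟨hs.1, hs.2.trans ht.2⟩, coe_ne_zero x⟩
    have h1 := h.co.hasDerivAt_time hq
    have h2 := (h.co.da (0, w)).hasDerivAt_time hq
    rw [h.co.comm hq] at h2
    have h3 : HasDerivAt (fun s : ℝ => BB (GG4 F (s, (x : E))) - da (0, w) (GG4 F) (s, (x : E)))
        (BB (da (1, 0) (GG4 F) (s, (x : E))) - da (0, w) (da (1, 0) (GG4 F)) (s, (x : E))) s :=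
      (BB.hasFDerivAt.comp_hasDerivAt s h1).sub h2
    have hev : Xf =ᶠ[𝓝 s]
        fun s : ℝ => BB (GG4 F (s, (x : E))) - da (0, w) (GG4 F) (s, (x : E)) := by
      filter_upwards [Ioo_mem_nhds hs.1 hs.2] with r hr
      show BB (GG4 F (r, (x : E))) - dv w (GG4 F) (r, (x : E)) = _
      rw [h.co.dv_eq (q := (r, (x : E))) ⟨⟨hr.1, hr.2.trans ht.2⟩, coe_ne_zero x⟩]
    have h4 := h3.congr_of_eventuallyEq hev
    have h5 := h4.inner ℝ h4
    have h6 : HasDerivAt (fun s : ℝ => Real.exp (-K * s)) (Real.exp (-K * s) * (-K)) s := by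
      have := ((hasDerivAt_id s).const_mul (-K)).exp
      simpa using this
    refine ⟨_, ?_, h6.mul h5⟩
    have h7 := h.defect hS hC0 hq w (fun e he => hC s ⟨hs.1.le, (hs.2.trans hT1).le⟩ x e he)
    rw [← hev.eq_of_nhds] at h7
    have h8 := (abs_le.1 h7).2
    have h9 : 0 < Real.exp (-K * s) := Real.exp_pos _
    rw [real_inner_comm (Xf s) (BB (da (1, 0) (GG4 F) (s, (x : E))) -
      da (0, w) (da (1, 0) (GG4 F)) (s, (x : E)))]
    have e1 : Real.exp (-K * s) * (-K) * inner ℝ (Xf s) (Xf s) + Real.exp (-K * s) *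
        (inner ℝ (Xf s) (BB (da (1, 0) (GG4 F) (s, (x : E))) -
        da (0, w) (da (1, 0) (GG4 F)) (s, (x : E))) + inner ℝ (Xf s)
        (BB (da (1, 0) (GG4 F) (s, (x : E))) - da (0, w) (da (1, 0) (GG4 F)) (s, (x : E)))) =
        Real.exp (-K * s) * (2 * inner ℝ (Xf s) (BB (da (1, 0) (GG4 F) (s, (x : E))) -
        da (0, w) (da (1, 0) (GG4 F)) (s, (x : E))) - K * inner ℝ (Xf s) (Xf s)) := by
      ring
    rw [e1]
    exact mul_nonpos_of_nonneg_of_nonpos h9.le (by linarith)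
  have hanti : AntitoneOn f (Icc 0 t) := by
    apply antitoneOn_of_deriv_nonpos (convex_Icc 0 t)
    · exact ContinuousOn.mul (by fun_prop) (hXc.inner hXc)
    · intro s hs
      rw [interior_Icc] at hs
      obtain ⟨d, -, hd⟩ := hder s hs
      exact hd.differentiableAt.differentiableWithinAt
    · intro s hs
      rw [interior_Icc] at hs
      obtain ⟨d, hd0, hd⟩ := hder s hs
      rw [hd.deriv]
      exact hd0
  have h1 := hanti ⟨le_rfl, ht.1⟩ ⟨ht.1, le_rfl⟩ ht.1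
  have h2 : f 0 = 0 := by
    simp only [f, hX0]
    simp
  rw [h2] at h1
  have h3 : 0 < Real.exp (-K * t) := Real.exp_pos _
  have h4 : 0 ≤ inner ℝ (Xf t) (Xf t) := real_inner_self_nonneg
  have h5 : inner ℝ (Xf t) (Xf t) = 0 := by
    by_contra hne
    have h6 : 0 < inner ℝ (Xf t) (Xf t) := lt_of_le_of_ne h4 (Ne.symm hne)
    have h7 : 0 < f t := mul_pos h3 h6
    linarith
  have h6 : Xf t = 0 := inner_self_eq_zero.1 h5
  have h7 : BB (GG4 F (t, (x : E))) = dv w (GG4 F) (t, (x : E)) := sub_eq_zero.1 h6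
  rw [dv_GG4, GG4] at h7
  simp only [proj_coe] at h7
  exact h7.symm

/-- The equivariance under rotations persists. -/
theorem IsMCF.rot_sym (hS : Sym F₀) {t : ℝ} (ht : t ∈ Ico 0 T) (φ : ℝ) (x : S) :
    F t (act (rotE φ) x) = rotV φ (F t x) := by
  have hsm := h.isSmooth' ht
  let d : ℝ → V := fun φ => F t (act (rotE φ) x) - rotV φ (F t x)
  have hd : ∀ φ, HasDerivAt d (BB (d φ)) φ := by
    intro φ
    have h1 := hsm.hasDerivAt_curve (hasDerivAt_rotE (x : E) φ) (by simpa using coe_ne_zero x)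
    have h2 : (fun φ : ℝ => F t (proj (rotE φ (x : E)))) = fun φ => F t (act (rotE φ) x) := by
      funext φ
      rw [proj_act _ (coe_ne_zero x), proj_coe]
    rw [h2] at h1
    have h3 := h.infin hS ht (act (rotE φ) x)
    rw [act_coe] at h3
    rw [h3] at h1
    have h4 := h1.sub (hasDerivAt_rotV (F t x) φ)
    have h5 : BB (d φ) = BB (F t (act (rotE φ) x)) - BB (rotV φ (F t x)) := map_sub _ _ _
    rw [h5]
    exact h4
  have hn : ∀ φ, HasDerivAt (fun φ => inner ℝ (d φ) (d φ)) 0 φ := by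
    intro φ
    have h1 := (hd φ).inner ℝ (hd φ)
    refine h1.congr_deriv ?_
    rw [real_inner_comm (BB (d φ)) (d φ), BB_self, add_zero]
  have h1 : inner ℝ (d φ) (d φ) = inner ℝ (d 0) (d 0) :=
    is_const_of_deriv_eq_zero (f := fun φ => inner ℝ (d φ) (d φ))
      (fun φ => (hn φ).differentiableAt) (fun φ => (hn φ).deriv) φ 0
  have h2 : d 0 = 0 := by
    show F t (act (rotE 0) x) - rotV 0 (F t x) = 0
    have : act (rotE 0) x = x := Subtype.ext (by rw [act_coe, rotE_zero])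
    rw [this, rotV_zero, sub_self]
  rw [h2, inner_zero_left] at h1
  have h3 : d φ = 0 := inner_self_eq_zero.1 h1
  exact sub_eq_zero.1 h3

end

end Pool.Agent.Helper608.SphMCF
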