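import Mathlib
import Pool.Agent.Helper608.KSymm
import Pool.Agent.Helper608.KLife
import Pool.Agent.Helper608.KPos

/-! The reflection symmetry of every solution. -/

open Set Metric Filter Topology
open scoped ContDiff

namespace Pool.Agent.Helper608.SphMCF

section

variable {F₀ : S → V} {T : ℝ} {F : ℝ → S → V} (h : IsMCF F₀ (T : EReal) F)
include h

/-- The profile curve stays in the half plane. -/
theorem IsMCF.mer_one (hS : Sym F₀) {θ : ℝ} (hθ : Real.sin θ ≠ 0) (h0 : F₀ (merS θ) 1 = 0)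
    {t : ℝ} (ht : t ∈ Ico 0 T) : F t (merS θ) 1 = 0 := by
  have hmaps : MapsTo (fun s : ℝ => ((s, (merS θ : E)) : ℝ × E)) (Icc 0 t) (QT T) := fun s hs =>
    ⟨⟨hs.1, hs.2.trans_lt ht.2⟩, coe_ne_zero (merS θ)⟩
  have hG : ∀ s, GG4 F (s, (merS θ : E)) = F s (merS θ) := fun s => by
    simp only [GG4, proj_coe]
  have hc : ContinuousOn (fun s : ℝ => F s (merS θ)) (Icc 0 t) := by
    have h1 : ContinuousOn (GG4 F) (QT T) := ContDiffOn.continuousOn h.cq
    have h2 : ContinuousOn (fun s : ℝ => GG4 F (s, (merS θ : E))) (Icc 0 t) :=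
      ContinuousOn.comp (g := GG4 F) h1 (by fun_prop) hmaps
    exact h2.congr (fun s _ => (hG s).symm)
  have hc0 : ContinuousOn (fun s : ℝ => F s (merS θ) 0) (Icc 0 t) := by
    exact (EuclideanSpace.proj (𝕜 := ℝ) (0 : Fin 4)).continuous.comp_continuousOn hc
  have hc1 : ContinuousOn (fun s : ℝ => F s (merS θ) 1) (Icc 0 t) := by
    exact (EuclideanSpace.proj (𝕜 := ℝ) (1 : Fin 4)).continuous.comp_continuousOn hc
  have hpos : ∀ s ∈ Ico 0 T, 0 < F s (merS θ) 0 ^ 2 + F s (merS θ) 1 ^ 2 := by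
    intro s hs
    by_contra hcon
    push Not at hcon
    have e0 : F s (merS θ) 0 = 0 := by
      nlinarith [sq_nonneg (F s (merS θ) 0), sq_nonneg (F s (merS θ) 1)]
    have e1 : F s (merS θ) 1 = 0 := by
      nlinarith [sq_nonneg (F s (merS θ) 0), sq_nonneg (F s (merS θ) 1)]
    have h1 := h.infin hS hs (merS θ)
    have h2 : BB (F s (merS θ)) = 0 := by
      rw [BB_apply, e0, e1]
      ext i
      fin_cases i <;> simp
    rw [h2] at h1
    have h3 := h.imm s (by rw [Time_coe]; exact hs) (merS θ) (JJ (merS θ)) (by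
      rw [inner_three, JJ]
      simp
      ring) h1
    have h4 := congrArg (fun u : E => u 1) h3
    simp [JJ, merS_coe, mer] at h4
    exact hθ h4
  let k : ℝ → ℝ := fun s => F s (merS θ) 1 ^ 2 / (F s (merS θ) 0 ^ 2 + F s (merS θ) 1 ^ 2)
  have hder : ∀ s ∈ Ioo 0 t, HasDerivAt k 0 s := by
    intro s hs
    have hq : (s, (merS θ : E)) ∈ QO T := ⟨⟨hs.1, hs.2.trans ht.2⟩, coe_ne_zero _⟩
    have h1 := h.co.hasDerivAt_time hq
    simp only [hG] at h1
    have d0 := hasDerivAt_coord h1 0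
    have d1 := hasDerivAt_coord h1 1
    have h2 := (h.vel hq).2 (JJ (merS θ))
    rw [h.da_G hq] at h2
    simp only at h2
    rw [h.infin hS ⟨hs.1.le, hs.2.trans ht.2⟩ (merS θ), BB_apply, inner_four] at h2
    simp at h2
    have hp := (hpos s ⟨hs.1.le, hs.2.trans ht.2⟩).ne'
    have h3 := (d1.fun_pow 2).div ((d0.fun_pow 2).add (d1.fun_pow 2)) hp
    refine h3.congr_deriv ?_
    rw [div_eq_zero_iff]
    left
    norm_num
    linear_combination (2 * F s (merS θ) 0 * F s (merS θ) 1) * h2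
  have hanti : AntitoneOn k (Icc 0 t) := by
    apply antitoneOn_of_deriv_nonpos (convex_Icc 0 t)
    · exact ((hc1.pow 2).div ((hc0.pow 2).add (hc1.pow 2))
        (fun s hs => (hpos s ⟨hs.1, hs.2.trans_lt ht.2⟩).ne'))
    · intro s hs
      rw [interior_Icc] at hs
      exact (hder s hs).differentiableAt.differentiableWithinAt
    · intro s hs
      rw [interior_Icc] at hs
      rw [(hder s hs).deriv]
  have h1 := hanti ⟨le_rfl, ht.1⟩ ⟨ht.1, le_rfl⟩ ht.1
  have h2 : k 0 = 0 := by
    simp only [k, h.init, h0]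
    simp
  rw [h2] at h1
  have h3 := hpos t ht
  by_contra hne
  have h4 : 0 < F t (merS θ) 1 ^ 2 := by positivity
  have h5 : 0 < k t := div_pos h4 h3
  linarith

/-- Every solution with symmetric initial value is symmetric. -/
theorem IsMCF.sym (hS : Sym F₀) {t : ℝ} (ht : t ∈ Ico 0 T) : Sym (F t) := by
  refine ⟨fun φ x => h.rot_sym hS ht φ x, ?_⟩
  have hone : ∀ θ, F t (merS θ) 1 = 0 := by
    intro θ
    by_cases hθ : Real.sin θ = 0
    · have h1 := h.rot_sym hS ht Real.pi (merS θ)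
      have h2 : act (rotE Real.pi) (merS θ) = merS θ := by
        apply Subtype.ext
        rw [act_coe, rotE_apply, merS_coe]
        ext i
        fin_cases i <;> simp [mer, hθ]
      rw [h2, rotV_apply] at h1
      have h3 := congrArg (fun v : V => v 1) h1
      simp at h3
      linarith
    · exact h.mer_one hS hθ (hS.mer_one θ) ht
  intro x
  obtain ⟨φ, θ, -, -, rfl⟩ := exists_mer x
  have h1 : act refE (act (rotE φ) (merS θ)) = act (rotE (-φ)) (merS θ) := by
    apply Subtype.ext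
    rw [act_coe, act_coe, act_coe, merS_coe, rot_mer, rot_mer, refE_apply]
    ext i
    fin_cases i <;> simp
  rw [h1, h.rot_sym hS ht, h.rot_sym hS ht, rotV_apply, rotV_apply, refV_apply, hone θ]
  ext i
  fin_cases i <;> simp

end

/-- Every mean curvature flow starting at `F0` lives at most `1 / 100` and does not shrink to a
point. -/
theorem main_all (T : EReal) (F : ℝ → S → V) (h : IsMCF F0 T F) :
    T ≤ ((1 / 100 : ℝ) : EReal) ∧ ¬ ShrinksToPoint T F := by
  have hS : ∀ t ∈ Time T, Sym (F t) := by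
    intro t ht
    obtain ⟨q, hq1, hq2⟩ := EReal.lt_iff_exists_real_btwn.1 ht.2
    have hq1' : t < q := by exact_mod_cast hq1
    have h1 : IsMCF F0 (q : EReal) F := h.restrict (by
      have : (0 : ℝ) < q := ht.1.trans_lt hq1'
      exact_mod_cast this) hq2.le
    exact h1.sym F0_sym ⟨ht.1, hq1'⟩
  exact ⟨sym_life h hS, sym_not_shrinks h hS⟩

end Pool.Agent.Helper608.SphMCF
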