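import Pool.Agent.Helper608.Sys

open Set MeasureTheory Filter Topology
open scoped Manifold ContDiff InnerProductSpace

namespace Pool.Agent.Helper608

/-- radial profile of the test field of the monotonicity argument -/
noncomputable def psi (h ρ q : ℝ) : ℝ := (1 + 4 * h * √q) * pps (1 - q / ρ ^ 2) / q

/-- its derivative -/
noncomputable def dpsi (h ρ q : ℝ) : ℝ :=
  ((4 * h * (1 / (2 * √q))) * pps (1 - q / ρ ^ 2)
    + (1 + 4 * h * √q) * (2 * max 0 (1 - q / ρ ^ 2) * (-(1 / ρ ^ 2)))) / q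
    - (1 + 4 * h * √q) * pps (1 - q / ρ ^ 2) / q ^ 2

lemma hasDerivAt_psi (h ρ : ℝ) {q : ℝ} (hq : 0 < q) :
    HasDerivAt (psi h ρ) (dpsi h ρ q) q := by
  have h1 : HasDerivAt (fun q : ℝ => 1 + 4 * h * √q) (4 * h * (1 / (2 * √q))) q :=
    ((Real.hasDerivAt_sqrt hq.ne').const_mul (4 * h)).const_add 1
  have h2 : HasDerivAt (fun q : ℝ => 1 - q / ρ ^ 2) (-(1 / ρ ^ 2)) q :=
    ((hasDerivAt_id q).div_const (ρ ^ 2)).const_sub 1
  have h3 : HasDerivAt (fun q : ℝ => pps (1 - q / ρ ^ 2))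
      (2 * max 0 (1 - q / ρ ^ 2) * (-(1 / ρ ^ 2))) q :=
    HasDerivAt.comp (h₂ := pps) q (hasDerivAt_pps (1 - q / ρ ^ 2)) h2
  have h4 := (h1.mul h3).div (hasDerivAt_id q) hq.ne'
  refine HasDerivAt.congr_deriv h4 ?_
  simp only [dpsi, id, Pi.mul_apply]
  field_simp

lemma contDiffAt_psi (h ρ : ℝ) {q : ℝ} (hq : 0 < q) : ContDiffAt ℝ 1 (psi h ρ) q := by
  unfold psi
  have h1 : ContDiffAt ℝ 1 (fun q : ℝ => √q) q := Real.contDiffAt_sqrt hq.ne'
  have h3 : ContDiffAt ℝ 1 (fun q : ℝ => pps (1 - q / ρ ^ 2)) q :=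
    ContDiffAt.comp (g := pps) q contDiff_pps.contDiffAt (by fun_prop)
  exact ((contDiffAt_const.add (contDiffAt_const.mul h1)).mul h3).div contDiffAt_id hq.ne'

/-- pointwise inequality behind the monotonicity formula -/
lemma radial_ineq {h ρ s r n H : ℝ} (hh : 0 ≤ h) (hρ : 0 < ρ) (hhρ : 4 * h * ρ ≤ 1)
    (hs : 0 < s) (hsρ : 16 * s ^ 2 ≤ ρ ^ 2) (hr : 0 ≤ r) (hn : |n| ≤ r) (hH : |H| = h) :
    (if r < s then 3 / (16 * s ^ 2) else 0) - (if r < ρ then 4 / ρ ^ 2 else 0) ≤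
      dpsi h ρ (r ^ 2 + s ^ 2) * (r ^ 2 - n ^ 2) + psi h ρ (r ^ 2 + s ^ 2)
        + H * psi h ρ (r ^ 2 + s ^ 2) * n := by
  set q := r ^ 2 + s ^ 2 with hq
  have hqpos : 0 < q := by positivity
  by_cases hcase : ρ ^ 2 ≤ q
  · -- outside the support
    have h0 : 1 - q / ρ ^ 2 ≤ 0 := by
      rw [sub_nonpos, le_div_iff₀ (by positivity)]; linarith
    have h1 : psi h ρ q = 0 := by simp [psi, pps_of_nonpos h0]
    have h2 : dpsi h ρ q = 0 := by simp [dpsi, pps_of_nonpos h0, max_eq_left h0]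
    rw [h1, h2]
    have hrs : ¬ r < s := by
      intro hlt
      have : r ^ 2 < s ^ 2 := by nlinarith
      nlinarith
    rw [if_neg hrs]
    split_ifs
    · have : 0 < 4 / ρ ^ 2 := by positivity
      linarith
    · simp
  · push Not at hcase
    set w := √q with hw
    have hwpos : 0 < w := Real.sqrt_pos.mpr hqpos
    have hw2 : w ^ 2 = q := Real.sq_sqrt hqpos.le
    have hwρ : w < ρ := by nlinarith
    have hrw : r ≤ w := by
      apply Real.le_sqrt_of_sq_le; nlinarith [sq_nonneg s]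
    set θ := 1 - q / ρ ^ 2 with hθ
    have hqρ : q / ρ ^ 2 < 1 := by rw [div_lt_one (by positivity)]; exact hcase
    have hqρ0 : 0 < q / ρ ^ 2 := by positivity
    have hθ0 : 0 < θ := by linarith
    have hθ1 : θ ≤ 1 := by linarith
    have h4 : 4 * h * w ≤ 1 := by nlinarith
    have hhw : 0 ≤ h * w := by positivity
    have hpsi : psi h ρ q = (1 + 4 * h * w) * θ ^ 2 / q := by
      simp only [psi]; rw [← hθ, pps_of_nonneg hθ0.le]
    have hdpsi : dpsi h ρ q = ((4 * h * (1 / (2 * w))) * θ ^ 2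
        + (1 + 4 * h * w) * (2 * θ * (-(1 / ρ ^ 2)))) / q - (1 + 4 * h * w) * θ ^ 2 / q ^ 2 := by
      simp only [dpsi]; rw [← hθ, pps_of_nonneg hθ0.le, max_eq_right hθ0.le]
    have hpsi0 : 0 ≤ psi h ρ q := by rw [hpsi]; positivity
    -- lower bound for `-dpsi`
    have hd1 : θ ^ 2 / q ^ 2 ≤ -dpsi h ρ q := by
      rw [hdpsi]
      have e1 : -(((4 * h * (1 / (2 * w))) * θ ^ 2
        + (1 + 4 * h * w) * (2 * θ * (-(1 / ρ ^ 2)))) / q - (1 + 4 * h * w) * θ ^ 2 / q ^ 2)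
        = (1 + 2 * (h * w)) * θ ^ 2 / q ^ 2 + (1 + 4 * h * w) * (2 * θ) * (1 / ρ ^ 2) / q := by
        rw [← hw2]; field_simp; ring
      rw [e1]
      have e2 : θ ^ 2 / q ^ 2 ≤ (1 + 2 * (h * w)) * θ ^ 2 / q ^ 2 := by
        apply div_le_div_of_nonneg_right _ (by positivity)
        nlinarith [sq_nonneg θ]
      have e3 : 0 ≤ (1 + 4 * h * w) * (2 * θ) * (1 / ρ ^ 2) / q := by positivity
      linarith
    have hd0 : dpsi h ρ q ≤ 0 := by
      have : 0 ≤ θ ^ 2 / q ^ 2 := by positivity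
      linarith
    -- main estimate
    have hHn : -(h * w) ≤ H * n := by
      have : |H * n| ≤ h * w := by
        rw [abs_mul, hH]; exact mul_le_mul_of_nonneg_left (hn.trans hrw) hh
      exact (abs_le.mp this).1
    have hA : dpsi h ρ q * r ^ 2 ≤ dpsi h ρ q * (r ^ 2 - n ^ 2) := by
      nlinarith [sq_nonneg n]
    have hB : psi h ρ q * (1 - h * w) ≤ psi h ρ q + H * psi h ρ q * n := by
      have : psi h ρ q * (-(h * w)) ≤ psi h ρ q * (H * n) := mul_le_mul_of_nonneg_left hHn hpsi0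
      nlinarith
    have hC : dpsi h ρ q * r ^ 2 = dpsi h ρ q * q + (-dpsi h ρ q) * s ^ 2 := by
      rw [hq]; ring
    have hD : dpsi h ρ q * q + psi h ρ q * (1 - h * w)
        = θ ^ 2 * (h * (1 - 4 * h * w)) / w - 2 * (1 + 4 * h * w) * θ / ρ ^ 2 := by
      rw [hpsi, hdpsi, ← hw2]; field_simp; ring
    have hE : -(4 / ρ ^ 2) ≤ dpsi h ρ q * q + psi h ρ q * (1 - h * w) := by
      rw [hD]
      have e1 : 0 ≤ θ ^ 2 * (h * (1 - 4 * h * w)) / w := by
        apply div_nonneg _ hwpos.le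
        apply mul_nonneg (sq_nonneg _)
        apply mul_nonneg hh
        linarith
      have e2 : 2 * (1 + 4 * h * w) * θ / ρ ^ 2 ≤ 4 / ρ ^ 2 := by
        apply div_le_div_of_nonneg_right _ (by positivity)
        nlinarith
      linarith
    have hF : θ ^ 2 / q ^ 2 * s ^ 2 ≤ (-dpsi h ρ q) * s ^ 2 :=
      mul_le_mul_of_nonneg_right hd1 (sq_nonneg s)
    have hrρ : r < ρ := lt_of_le_of_lt hrw hwρ
    rw [if_pos hrρ]
    split_ifs with hrs
    · have hq2 : q ≤ 2 * s ^ 2 := by nlinarith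
      have hθ78 : 7 / 8 ≤ θ := by
        have : q / ρ ^ 2 ≤ 1 / 8 := by
          rw [div_le_div_iff₀ (by positivity) (by norm_num)]; nlinarith
        linarith
      have hG : 3 / (16 * s ^ 2) ≤ θ ^ 2 / q ^ 2 * s ^ 2 := by
        have e1 : θ ^ 2 / q ^ 2 * s ^ 2 = θ ^ 2 * s ^ 2 / q ^ 2 := by ring
        rw [e1, div_le_div_iff₀ (by positivity) (by positivity)]
        have e2 : q ^ 2 ≤ 4 * s ^ 4 := by nlinarith
        have e3 : (49:ℝ) / 64 ≤ θ ^ 2 := by nlinarith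
        have e4 : (0:ℝ) ≤ s ^ 4 := by positivity
        nlinarith
      linarith
    · have hG : 0 ≤ θ ^ 2 / q ^ 2 * s ^ 2 := by positivity
      linarith

end Pool.Agent.Helper608
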