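import Pool.Agent.Helper608.Mono

open Set MeasureTheory Filter Topology
open scoped Manifold ContDiff InnerProductSpace

namespace Pool.Agent.Helper608

/-- coordinate vectors -/
noncomputable def ee (i : Fin 3) : E3 := EuclideanSpace.single i 1

lemma ee_apply (i j : Fin 3) : ee i j = if j = i then 1 else 0 := by
  simp [ee]

lemma inner_ee (x : E3) (i : Fin 3) : ⟪x, ee i⟫_ℝ = x i := by
  fin_cases i <;> simp [inner3, ee_apply]

lemma norm_ee (i : Fin 3) : ‖ee i‖ = 1 := by simp [ee]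

/-- scalar components of the radial field -/
noncomputable def radF (h ρ s : ℝ) (p : E3) (i : Fin 3) (x : E3) : ℝ :=
  psi h ρ (‖x - p‖ ^ 2 + s ^ 2) * (x i - p i)

lemma hasFDerivAt_q (s : ℝ) (p x : E3) :
    HasFDerivAt (fun x : E3 => ‖x - p‖ ^ 2 + s ^ 2) (2 • innerSL ℝ (x - p)) x := by
  have h1 : HasFDerivAt (fun x : E3 => x - p) (ContinuousLinearMap.id ℝ E3) x :=
    (hasFDerivAt_id x).sub_const p
  have h2 := (h1.norm_sq).add_const (s ^ 2)
  simpa using h2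

lemma hasFDerivAt_coord (i : Fin 3) (x : E3) :
    HasFDerivAt (fun x : E3 => x i) (EuclideanSpace.proj i : E3 →L[ℝ] ℝ) x :=
  (EuclideanSpace.proj i : E3 →L[ℝ] ℝ).hasFDerivAt

lemma fderiv_radF (h ρ : ℝ) {s : ℝ} (hs : 0 < s) (p : E3) (i : Fin 3) (x w : E3) :
    fderiv ℝ (radF h ρ s p i) x w =
      dpsi h ρ (‖x - p‖ ^ 2 + s ^ 2) * (2 * ⟪x - p, w⟫_ℝ) * (x i - p i)
        + psi h ρ (‖x - p‖ ^ 2 + s ^ 2) * w i := by
  have hq : 0 < ‖x - p‖ ^ 2 + s ^ 2 := by positivity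
  have h1 : HasFDerivAt (fun x : E3 => psi h ρ (‖x - p‖ ^ 2 + s ^ 2))
      (dpsi h ρ (‖x - p‖ ^ 2 + s ^ 2) • (2 • innerSL ℝ (x - p))) x :=
    HasDerivAt.comp_hasFDerivAt (h₂ := psi h ρ) x (hasDerivAt_psi h ρ hq) (hasFDerivAt_q s p x)
  have h2 : HasFDerivAt (fun x : E3 => x i - p i) (EuclideanSpace.proj i : E3 →L[ℝ] ℝ) x :=
    (hasFDerivAt_coord i x).sub_const (p i)
  have h3 := (h1.mul h2).fderiv
  have : fderiv ℝ (radF h ρ s p i) x = _ := h3
  rw [this]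
  simp [inner_sub_left]
  ring

lemma contDiff_radF (h ρ : ℝ) {s : ℝ} (hs : 0 < s) (p : E3) (i : Fin 3) :
    ContDiff ℝ 1 (radF h ρ s p i) := by
  rw [contDiff_iff_contDiffAt]
  intro x
  have hq : 0 < ‖x - p‖ ^ 2 + s ^ 2 := by positivity
  have h1 : ContDiffAt ℝ 1 (fun x : E3 => psi h ρ (‖x - p‖ ^ 2 + s ^ 2)) x := by
    refine ContDiffAt.comp (g := psi h ρ) x (contDiffAt_psi h ρ hq) ?_
    exact (((contDiff_id.sub contDiff_const).norm_sq ℝ).add contDiff_const).contDiffAt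
  have h2 : ContDiffAt ℝ 1 (fun x : E3 => x i - p i) x := by
    have : ContDiff ℝ 1 (fun x : E3 => x i) :=
      (EuclideanSpace.proj i : E3 →L[ℝ] ℝ).contDiff
    exact (this.sub contDiff_const).contDiffAt
  exact h1.mul h2

variable {M : Type*} [TopologicalSpace M] [CompactSpace M] [MeasurableSpace M] [BorelSpace M]
  {μ : Measure M} [IsFiniteMeasure μ] {f N : M → E3} {H : ℝ} {bd : Set M} {Γ : Set E3} {Λ : ℝ}
  {γ₁ γ₂ : ℝ → E3} {σ₁ σ₂ : ℝ}

/-- the integrand of the first variation formula -/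
noncomputable def fvInt (f N : M → E3) (H : ℝ) (F : E3 → ℝ) (e : E3) (m : M) : ℝ :=
  fderiv ℝ F (f m) e - ⟪N m, e⟫_ℝ * fderiv ℝ F (f m) (N m) + 2 * H * F (f m) * ⟪N m, e⟫_ℝ

omit [CompactSpace M] [MeasurableSpace M] [BorelSpace M] in
lemma continuous_fvInt (hf : Continuous f) (hN : Continuous N) {F : E3 → ℝ}
    (hF : ContDiff ℝ 1 F) (e : E3) : Continuous (fvInt f N H F e) := by
  have h1 : Continuous fun m => fderiv ℝ F (f m) := (hF.continuous_fderiv (by norm_num)).comp hf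
  have h2 : Continuous fun m => fderiv ℝ F (f m) e := h1.clm_apply continuous_const
  have h3 : Continuous fun m => fderiv ℝ F (f m) (N m) := h1.clm_apply hN
  have h4 : Continuous fun m => ⟪N m, e⟫_ℝ := hN.inner continuous_const
  have h5 : Continuous fun m => F (f m) := hF.continuous.comp hf
  unfold fvInt
  exact (h2.sub (h4.mul h3)).add ((continuous_const.mul h5).mul h4)

omit [CompactSpace M] [BorelSpace M] [IsFiniteMeasure μ] in
lemma FluxSys.fv_zero (S : FluxSys μ f N H bd Γ Λ γ₁ γ₂ σ₁ σ₂) {F : E3 → ℝ}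
    (hF : ContDiff ℝ 1 F) (e : E3) (h0 : ∀ x ∈ Γ, F x = 0) :
    ∫ m, fvInt f N H F e m ∂μ = 0 := by
  have := S.fv F hF e 0 (fun x hx => by rw [h0 x hx]; simp)
  rw [mul_zero] at this
  exact abs_nonpos_iff.mp this

omit [TopologicalSpace M] [CompactSpace M] [BorelSpace M] [IsFiniteMeasure μ] in
lemma int3 {a b c : M → ℝ} (ha : Integrable a μ) (hb : Integrable b μ) (hc : Integrable c μ) :
    ∫ m, (a m + b m + c m) ∂μ = ∫ m, a m ∂μ + ∫ m, b m ∂μ + ∫ m, c m ∂μ := by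
  rw [integral_add (f := fun m => a m + b m) (ha.add hb) hc, integral_add ha hb]

/-- Lower area bound in balls not meeting the boundary curves. -/
lemma FluxSys.mono_area (S : FluxSys μ f N H bd Γ Λ γ₁ γ₂ σ₁ σ₂) {m₀ : M} (hm₀ : m₀ ∉ bd)
    {ρ : ℝ} (hρ : 0 < ρ) (hH : 4 * |H| * ρ ≤ 1) (hball : ∀ x ∈ Γ, ρ ≤ dist x (f m₀)) :
    ρ ^ 2 / 128 ≤ μ.real (f ⁻¹' Metric.ball (f m₀) ρ) := by
  set p := f m₀ with hp
  have hev : ∀ᶠ s in 𝓝[>] (0:ℝ), 0 < s ∧ 16 * s ^ 2 ≤ ρ ^ 2 := by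
    have h1 : ∀ᶠ s in 𝓝[>] (0:ℝ), 0 < s := self_mem_nhdsWithin
    have h2 : ∀ᶠ s in 𝓝[>] (0:ℝ), s < ρ / 4 :=
      nhdsWithin_le_nhds (Iio_mem_nhds (by positivity))
    filter_upwards [h1, h2] with s hs1 hs2
    exact ⟨hs1, by nlinarith⟩
  obtain ⟨s, hsd, hs, hsρ⟩ := ((S.dens m₀ hm₀).and hev).exists
  have hh : 0 ≤ |H| := abs_nonneg H
  -- the three scalar fields vanish on the boundary
  have hvan : ∀ i, ∀ x ∈ Γ, radF |H| ρ s p i x = 0 := by
    intro i x hx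
    have h1 : ρ ≤ ‖x - p‖ := by rw [← dist_eq_norm]; exact hball x hx
    have h2 : 1 - (‖x - p‖ ^ 2 + s ^ 2) / ρ ^ 2 ≤ 0 := by
      rw [sub_nonpos, le_div_iff₀ (by positivity)]
      nlinarith [sq_nonneg s]
    simp [radF, psi, pps_of_nonpos h2]
  have hint : ∀ i, Integrable (fvInt f N H (radF |H| ρ s p i) (ee i)) μ := fun i =>
    integrable_of_cont (continuous_fvInt S.cont_f S.cont_N (contDiff_radF _ _ hs p i) _)
  have hzero : ∀ i, ∫ m, fvInt f N H (radF |H| ρ s p i) (ee i) m ∂μ = 0 := fun i =>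
    S.fv_zero (contDiff_radF _ _ hs p i) _ (hvan i)
  have hsum : ∫ m, (fvInt f N H (radF |H| ρ s p 0) (ee 0) m
      + fvInt f N H (radF |H| ρ s p 1) (ee 1) m
      + fvInt f N H (radF |H| ρ s p 2) (ee 2) m) ∂μ = 0 := by
    rw [int3 (hint 0) (hint 1) (hint 2), hzero, hzero, hzero]; simp
  -- pointwise
  have hpt : ∀ m, (if ‖f m - p‖ < s then 3 / (16 * s ^ 2) else 0)
      - (if ‖f m - p‖ < ρ then 4 / ρ ^ 2 else 0) ≤
      (1/2) * (fvInt f N H (radF |H| ρ s p 0) (ee 0) m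
      + fvInt f N H (radF |H| ρ s p 1) (ee 1) m
      + fvInt f N H (radF |H| ρ s p 2) (ee 2) m) := by
    intro m
    have hN := S.norm_N m
    have hNsq : N m 0 ^ 2 + N m 1 ^ 2 + N m 2 ^ 2 = 1 := by
      rw [← normsq3, hN]; norm_num
    have hn : |⟪f m - p, N m⟫_ℝ| ≤ ‖f m - p‖ := by
      have := abs_real_inner_le_norm (f m - p) (N m)
      rwa [hN, mul_one] at this
    have key := radial_ineq hh hρ hH hs hsρ (norm_nonneg (f m - p)) hn rfl
    refine key.trans (le_of_eq ?_)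
    have hr2 : ‖f m - p‖ ^ 2 = (f m 0 - p 0) ^ 2 + (f m 1 - p 1) ^ 2 + (f m 2 - p 2) ^ 2 := by
      rw [normsq3]; simp
    have hin : ⟪f m - p, N m⟫_ℝ = (f m 0 - p 0) * N m 0 + (f m 1 - p 1) * N m 1
        + (f m 2 - p 2) * N m 2 := by
      rw [inner3]; simp
    simp only [fvInt, fderiv_radF _ _ hs, inner_ee, radF]
    simp only [ee_apply, PiLp.sub_apply]
    generalize dpsi |H| ρ (‖f m - p‖ ^ 2 + s ^ 2) = A
    generalize psi |H| ρ (‖f m - p‖ ^ 2 + s ^ 2) = B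
    rw [hin, hr2]
    simp only [if_true]
    linear_combination (-B / 2 * 1) * (hNsq) * (-1)
  have hmeas : ∀ t : ℝ, MeasurableSet (f ⁻¹' Metric.ball p t) := fun t =>
    (Metric.isOpen_ball.preimage S.cont_f).measurableSet
  have hlow : ∀ (t c : ℝ), (fun m => if ‖f m - p‖ < t then c else (0:ℝ))
      = (f ⁻¹' Metric.ball p t).indicator (fun _ => c) := by
    intro t c
    ext m
    simp only [indicator, mem_preimage, Metric.mem_ball, dist_eq_norm]
  have hlowint : ∀ (t c : ℝ), Integrable (fun m => if ‖f m - p‖ < t then c else (0:ℝ)) μ := by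
    intro t c
    rw [hlow]
    exact (integrable_const c).indicator (hmeas t)
  have hlowval : ∀ (t c : ℝ), ∫ m, (if ‖f m - p‖ < t then c else (0:ℝ)) ∂μ
      = μ.real (f ⁻¹' Metric.ball p t) * c := by
    intro t c
    rw [hlow, integral_indicator_const _ (hmeas t)]
    simp
  have hle := integral_mono ((hlowint s (3 / (16 * s ^ 2))).sub (hlowint ρ (4 / ρ ^ 2)))
    ((((hint 0).add (hint 1)).add (hint 2)).const_mul (1/2)) hpt
  have hR : ∫ m, (1/2) * (fvInt f N H (radF |H| ρ s p 0) (ee 0) m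
      + fvInt f N H (radF |H| ρ s p 1) (ee 1) m
      + fvInt f N H (radF |H| ρ s p 2) (ee 2) m) ∂μ = 0 := by
    rw [integral_const_mul, hsum, mul_zero]
  have hL : ∫ m, ((if ‖f m - p‖ < s then 3 / (16 * s ^ 2) else 0)
      - (if ‖f m - p‖ < ρ then 4 / ρ ^ 2 else 0)) ∂μ =
      μ.real (f ⁻¹' Metric.ball p s) * (3 / (16 * s ^ 2))
       - μ.real (f ⁻¹' Metric.ball p ρ) * (4 / ρ ^ 2) := by
    rw [integral_sub (hlowint _ _) (hlowint _ _), hlowval, hlowval]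
  have hfin : μ.real (f ⁻¹' Metric.ball p s) * (3 / (16 * s ^ 2))
       - μ.real (f ⁻¹' Metric.ball p ρ) * (4 / ρ ^ 2) ≤ 0 := by
    rw [← hL]
    refine hle.trans (le_of_eq ?_)
    exact hR
  have h3 : (3:ℝ) / 64 ≤ μ.real (f ⁻¹' Metric.ball p s) * (3 / (16 * s ^ 2)) := by
    have : s ^ 2 / 4 * (3 / (16 * s ^ 2)) = 3 / 64 := by field_simp; norm_num
    rw [← this]
    exact mul_le_mul_of_nonneg_right hsd (by positivity)
  have h4 : (3:ℝ) / 64 ≤ μ.real (f ⁻¹' Metric.ball p ρ) * (4 / ρ ^ 2) := by linarith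
  rw [mul_div_assoc', le_div_iff₀ (by positivity)] at h4
  nlinarith [sq_nonneg ρ]

end Pool.Agent.Helper608
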