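import Pool.Agent.Helper608.Cross
import Pool.Agent.Helper608.Half

open Set MeasureTheory Filter Topology
open scoped ContDiff InnerProductSpace

namespace Pool.Agent.Helper608




lemma cross_cross (a b c : E3) : cross a (cross b c) = ⟪a, c⟫_ℝ • b - ⟪a, b⟫_ℝ • c := by
  apply ext3 <;> simp [inner3] <;> ring

lemma inner_cross_cross (a b c d : E3) :
    ⟪cross a b, cross c d⟫_ℝ = ⟪a, c⟫_ℝ * ⟪b, d⟫_ℝ - ⟪a, d⟫_ℝ * ⟪b, c⟫_ℝ := by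
  simp only [inner3, cross_zero_coord, cross_one_coord, cross_two_coord]; ring

lemma inner_cross_rot (a b c : E3) : ⟪cross a b, c⟫_ℝ = ⟪a, cross b c⟫_ℝ := by
  simp only [inner3, cross_zero_coord, cross_one_coord, cross_two_coord]; ring

lemma cross_smul (a b : E3) (r : ℝ) : cross a (r • b) = r • cross a b := by
  apply ext3 <;> simp <;> ring

/-- a vector whose cross product with the unit vector `n` vanishes is a multiple of `n` -/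
lemma eq_of_cross_zero {n x : E3} (hn : ‖n‖ = 1) (h : cross n x = 0) : x = ⟪n, x⟫_ℝ • n := by
  have h1 : cross n (cross n x) = ⟪n, x⟫_ℝ • n - ⟪n, n⟫_ℝ • x := cross_cross n n x
  rw [h, real_inner_self_eq_norm_sq, hn] at h1
  have h2 : cross n (0 : E3) = 0 := by apply ext3 <;> simp
  rw [h2] at h1
  simp only [one_pow, one_smul] at h1
  exact (sub_eq_zero.mp h1.symm).symm

lemma cross_eq {n p q : E3} (hn : ‖n‖ = 1) (hp : ⟪n, p⟫_ℝ = 0) (hq : ⟪n, q⟫_ℝ = 0) :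
    cross p q = ⟪n, cross p q⟫_ℝ • n := by
  apply eq_of_cross_zero hn
  rw [cross_cross, hp, hq, zero_smul, zero_smul, sub_zero]

lemma e0_ne : e0 ≠ 0 := by
  intro h
  have := congrFun (congrArg (fun v : E2 => (v : Fin 2 → ℝ)) h) 0
  simp [e0] at this

lemma e1_ne : e1 ≠ 0 := by
  intro h
  have := congrFun (congrArg (fun v : E2 => (v : Fin 2 → ℝ)) h) 1
  simp [e1] at this

lemma comb_ne (a : ℝ) (b : ℝ) (ha : a ≠ 0) : a • e0 - b • e1 ≠ 0 := by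
  intro h
  have := congrFun (congrArg (fun v : E2 => (v : Fin 2 → ℝ)) h) 0
  simp [e0, e1] at this
  exact ha this

lemma j_sq {n p q : E3} (hn : ‖n‖ = 1) (hp : ⟪n, p⟫_ℝ = 0) (hq : ⟪n, q⟫_ℝ = 0) :
    ⟪n, cross p q⟫_ℝ ^ 2 = ‖p‖ ^ 2 * ‖q‖ ^ 2 - ⟪p, q⟫_ℝ ^ 2 := by
  rw [← normsq_cross]
  conv_rhs => rw [cross_eq hn hp hq]
  rw [norm_smul, hn, mul_one, Real.norm_eq_abs, sq_abs]

lemma j_ne (Lf : E2 →L[ℝ] E3) (hinj : Function.Injective Lf) (n : E3) (hn : ‖n‖ = 1)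
    (hnf : ∀ v, ⟪n, Lf v⟫_ℝ = 0) : ⟪n, cross (Lf e0) (Lf e1)⟫_ℝ ≠ 0 := by
  intro h
  have h1 := j_sq hn (hnf e0) (hnf e1)
  rw [h] at h1
  set p := Lf e0 with hp
  set q := Lf e1 with hq
  have hq0 : ‖q‖ ^ 2 ≠ 0 := by
    intro h2
    have h3 : q = 0 := by simpa using h2
    have h4 : Lf e1 = Lf 0 := by rw [map_zero]; exact h3
    exact e1_ne (hinj h4)
  have h5 : Lf (‖q‖ ^ 2 • e0 - ⟪p, q⟫_ℝ • e1) = 0 := by
    rw [map_sub, map_smul, map_smul, ← hp, ← hq]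
    have h6 : ‖‖q‖ ^ 2 • p - ⟪p, q⟫_ℝ • q‖ ^ 2 = 0 := by
      rw [← real_inner_self_eq_norm_sq, inner_sub_left, inner_sub_right, inner_sub_right]
      simp only [real_inner_smul_left, real_inner_smul_right]
      rw [real_inner_self_eq_norm_sq, real_inner_self_eq_norm_sq, real_inner_comm p q]
      nlinarith [h1]
    simpa using h6
  have h7 : ‖q‖ ^ 2 • e0 - ⟪p, q⟫_ℝ • e1 = 0 := hinj (by rw [h5, map_zero])
  exact comb_ne _ _ hq0 h7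

/-- TARGET 1 -/
theorem omega_st (Lf : E2 →L[ℝ] E3) (hinj : Function.Injective Lf) (n : E3) (hn : ‖n‖ = 1)
    (hnf : ∀ v, ⟪n, Lf v⟫_ℝ = 0) (B : E3 →L[ℝ] ℝ) (e : E3) :
    ⟪n, cross (Lf e0) (Lf e1)⟫_ℝ ≠ 0 ∧
    (⟪B (Lf e0) • e, Lf e1⟫_ℝ - ⟪B (Lf e1) • e, Lf e0⟫_ℝ) / ⟪n, cross (Lf e0) (Lf e1)⟫_ℝ
      = B (cross e n) := by
  have hj := j_ne Lf hinj n hn hnf
  refine ⟨hj, ?_⟩
  rw [div_eq_iff hj]
  have h1 : cross e (cross (Lf e0) (Lf e1)) = ⟪n, cross (Lf e0) (Lf e1)⟫_ℝ • cross e n := by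
    conv_lhs => rw [cross_eq hn (hnf e0) (hnf e1)]
    rw [cross_smul]
  rw [cross_cross] at h1
  have h2 := congrArg B h1
  simp only [map_sub, map_smul, smul_eq_mul] at h2
  simp only [real_inner_smul_left]
  linarith

lemma numer (p q n e : E3) (hn : ‖n‖ = 1) (hp : ⟪n, p⟫_ℝ = 0) (hq : ⟪n, q⟫_ℝ = 0)
    (B : E3 →L[ℝ] ℝ) :
    B p * ⟪cross e n, q⟫_ℝ - B q * ⟪cross e n, p⟫_ℝ =
      ⟪n, cross p q⟫_ℝ * (⟪n, e⟫_ℝ * B n - B e) := by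
  have h1 : cross (cross e n) (cross p q) = ⟪n, cross p q⟫_ℝ • cross (cross e n) n := by
    conv_lhs => rw [cross_eq hn hp hq]
    rw [cross_smul]
  have h2 : cross (cross e n) n = ⟪n, e⟫_ℝ • n - e := by
    have h3 : cross (cross e n) n = ⟪n, e⟫_ℝ • n - ⟪n, n⟫_ℝ • e := by
      apply ext3 <;> simp only [PiLp.sub_apply, PiLp.smul_apply, smul_eq_mul, cross_zero_coord,
        cross_one_coord, cross_two_coord, inner3] <;> ring
    rw [h3, real_inner_self_eq_norm_sq, hn]; simp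
  rw [h2, cross_cross] at h1
  have h4 := congrArg B h1
  simp only [map_sub, map_smul, smul_eq_mul] at h4
  linarith

/-- TARGET 2 -/
theorem omega_fv (Lf LN : E2 →L[ℝ] E3) (hinj : Function.Injective Lf) (n : E3) (hn : ‖n‖ = 1)
    (hnf : ∀ v, ⟪n, Lf v⟫_ℝ = 0) (hnN : ∀ v, ⟪n, LN v⟫_ℝ = 0) (H : ℝ)
    (hH : ∀ v w : E2, ‖Lf v‖ = 1 → ‖Lf w‖ = 1 → ⟪Lf v, Lf w⟫_ℝ = 0 →
      -(⟪LN v, Lf v⟫_ℝ + ⟪LN w, Lf w⟫_ℝ) / 2 = H)
    (B : E3 →L[ℝ] ℝ) (F : ℝ) (e : E3) :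
    (⟪B (Lf e0) • cross e n + F • cross e (LN e0), Lf e1⟫_ℝ
      - ⟪B (Lf e1) • cross e n + F • cross e (LN e1), Lf e0⟫_ℝ)
      / ⟪n, cross (Lf e0) (Lf e1)⟫_ℝ
      = -(B e - ⟪n, e⟫_ℝ * B n + 2 * H * F * ⟪n, e⟫_ℝ) := by
  have hj := j_ne Lf hinj n hn hnf
  have hjsq := j_sq hn (hnf e0) (hnf e1)
  set p := Lf e0 with hp
  set q := Lf e1 with hq
  set j := ⟪n, cross p q⟫_ℝ with hjdef
  set Np := LN e0 with hNp
  set Nq := LN e1 with hNq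
  have hnp : ⟪n, p⟫_ℝ = 0 := hnf e0
  have hnq : ⟪n, q⟫_ℝ = 0 := hnf e1
  have hnNp : ⟪n, Np⟫_ℝ = 0 := hnN e0
  have hnNq : ⟪n, Nq⟫_ℝ = 0 := hnN e1
  have hpn : 0 < ‖p‖ := by
    rw [norm_pos_iff]
    intro h
    have h4 : Lf e0 = Lf 0 := by rw [map_zero]; exact h
    exact e0_ne (hinj h4)
  have hp2 : 0 < ‖p‖ ^ 2 := by positivity
  set g := ⟪p, q⟫_ℝ with hg
  -- the orthogonal vector
  set r := q - (g / ‖p‖ ^ 2) • p with hr
  have hpr : ⟪p, r⟫_ℝ = 0 := by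
    rw [hr, inner_sub_right, real_inner_smul_right, real_inner_self_eq_norm_sq, ← hg]
    field_simp
    ring
  have hr2 : ‖r‖ ^ 2 = j ^ 2 / ‖p‖ ^ 2 := by
    rw [hjsq, ← real_inner_self_eq_norm_sq r]
    conv_lhs => rw [hr]
    rw [inner_sub_left, inner_sub_right, inner_sub_right]
    simp only [real_inner_smul_left, real_inner_smul_right]
    rw [real_inner_self_eq_norm_sq, real_inner_self_eq_norm_sq, real_inner_comm p q, ← hg]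
    field_simp
    ring
  have hj2 : 0 < j ^ 2 := by positivity
  have hr2pos : 0 < ‖r‖ ^ 2 := by rw [hr2]; positivity
  have hrn : 0 < ‖r‖ := by
    by_contra hcon
    have h0 : ‖r‖ = 0 := le_antisymm (not_lt.mp hcon) (norm_nonneg _)
    rw [h0] at hr2pos
    simp at hr2pos
  have hLfv : Lf (‖p‖⁻¹ • e0) = ‖p‖⁻¹ • p := by rw [map_smul]
  have hLfw : Lf (‖r‖⁻¹ • (e1 - (g / ‖p‖ ^ 2) • e0)) = ‖r‖⁻¹ • r := by
    rw [map_smul, map_sub, map_smul]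
  have hLNv : LN (‖p‖⁻¹ • e0) = ‖p‖⁻¹ • Np := by rw [map_smul]
  have hLNw : LN (‖r‖⁻¹ • (e1 - (g / ‖p‖ ^ 2) • e0)) =
      ‖r‖⁻¹ • (Nq - (g / ‖p‖ ^ 2) • Np) := by
    rw [map_smul, map_sub, map_smul]
  have hH1 := hH (‖p‖⁻¹ • e0) (‖r‖⁻¹ • (e1 - (g / ‖p‖ ^ 2) • e0))
    (by rw [hLfv, norm_smul, norm_inv, norm_norm]; exact inv_mul_cancel₀ hpn.ne')
    (by rw [hLfw, norm_smul, norm_inv, norm_norm]; exact inv_mul_cancel₀ hrn.ne')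
    (by rw [hLfv, hLfw, real_inner_smul_left, real_inner_smul_right, hpr]; ring)
  rw [hLfv, hLfw, hLNv, hLNw] at hH1
  simp only [real_inner_smul_left, real_inner_smul_right] at hH1
  have e1' : ‖p‖⁻¹ * (‖p‖⁻¹ * ⟪Np, p⟫_ℝ) = ⟪Np, p⟫_ℝ / ‖p‖ ^ 2 := by
    field_simp
  have e2' : ‖r‖⁻¹ * (‖r‖⁻¹ * ⟪Nq - (g / ‖p‖ ^ 2) • Np, r⟫_ℝ) =
      ⟪Nq - (g / ‖p‖ ^ 2) • Np, r⟫_ℝ / ‖r‖ ^ 2 := by
    field_simp
  rw [e1', e2', hr2] at hH1
  have e3' : ⟪Nq - (g / ‖p‖ ^ 2) • Np, r⟫_ℝ =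
      ⟪Nq, q⟫_ℝ - (g / ‖p‖ ^ 2) * (⟪Nq, p⟫_ℝ + ⟪Np, q⟫_ℝ) + (g / ‖p‖ ^ 2) ^ 2 * ⟪Np, p⟫_ℝ := by
    rw [hr, inner_sub_left, inner_sub_right, inner_sub_right]
    simp only [real_inner_smul_left, real_inner_smul_right]
    ring
  rw [e3'] at hH1
  have key : -(2 * H) * j ^ 2 = ‖q‖ ^ 2 * ⟪Np, p⟫_ℝ + ‖p‖ ^ 2 * ⟪Nq, q⟫_ℝ
      - g * (⟪Nq, p⟫_ℝ + ⟪Np, q⟫_ℝ) := by
    rw [← hH1]
    have hj2' : j ^ 2 ≠ 0 := hj2.ne'
    have hp2' : ‖p‖ ^ 2 ≠ 0 := hp2.ne'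
    have hpne : ‖p‖ ≠ 0 := hpn.ne'
    have hjne : j ≠ 0 := hj
    field_simp
    linear_combination (⟪Np, p⟫_ℝ) * hjsq
  -- the normal component
  have hM : ⟪n, cross Np q - cross Nq p⟫_ℝ * j = -(2 * H) * j ^ 2 := by
    have h1 : j * ⟪n, cross Np q - cross Nq p⟫_ℝ = ⟪cross p q, cross Np q - cross Nq p⟫_ℝ := by
      conv_rhs => rw [cross_eq hn hnp hnq]
      rw [real_inner_smul_left]
    rw [mul_comm, h1, inner_sub_right, inner_cross_cross, inner_cross_cross, key]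
    rw [real_inner_self_eq_norm_sq, real_inner_self_eq_norm_sq, real_inner_comm p q,
      real_inner_comm Np p, real_inner_comm Np q, real_inner_comm Nq p, real_inner_comm Nq q]
    ring
  have hM1 : ⟪n, cross Np q - cross Nq p⟫_ℝ = -(2 * H) * j := by
    have : (⟪n, cross Np q - cross Nq p⟫_ℝ - (-(2 * H) * j)) * j = 0 := by
      rw [sub_mul, hM]; ring
    rcases mul_eq_zero.mp this with h | h
    · linarith
    · exact absurd h hj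
  have hM2 : cross Np q - cross Nq p = (-(2 * H) * j) • n := by
    rw [← hM1]
    have h1 := cross_eq hn hnNp hnq
    have h2 := cross_eq hn hnNq hnp
    conv_lhs => rw [h1, h2]
    rw [← sub_smul, ← inner_sub_right]
  have hM3 : ⟪cross e Np, q⟫_ℝ - ⟪cross e Nq, p⟫_ℝ = -(2 * H) * j * ⟪n, e⟫_ℝ := by
    rw [inner_cross_rot, inner_cross_rot, ← inner_sub_right, hM2, real_inner_smul_right,
      real_inner_comm]
  rw [div_eq_iff hj]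
  simp only [inner_add_left, real_inner_smul_left]
  have h5 := numer p q n e hn hnp hnq B
  rw [← hjdef] at h5
  linear_combination h5 + F * hM3

end Pool.Agent.Helper608
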