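import Pool.Agent.Helper608.Defs

open Set Filter Topology
open scoped ContDiff InnerProductSpace

namespace Pool.Agent.Helper608

/-- unit circle, period one -/
noncomputable def ecirc (t : ℝ) : E2 := !₂[Real.cos (2 * Real.pi * t), Real.sin (2 * Real.pi * t)]

theorem ecirc_zero (t : ℝ) : ecirc t 0 = Real.cos (2 * Real.pi * t) := rfl
theorem ecirc_one (t : ℝ) : ecirc t 1 = Real.sin (2 * Real.pi * t) := rfl

theorem norm_ecirc (t : ℝ) : ‖ecirc t‖ = 1 := by
  rw [EuclideanSpace.norm_eq, Fin.sum_univ_two, ecirc_zero, ecirc_one]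
  simp

theorem ecirc_ne_zero (t : ℝ) : ecirc t ≠ 0 := by
  intro h
  have := norm_ecirc t
  rw [h, norm_zero] at this
  exact zero_ne_one this

theorem continuous_ecirc : Continuous ecirc := by
  unfold ecirc
  fun_prop

theorem ecirc_periodic : Function.Periodic ecirc 1 := by
  intro t
  unfold ecirc
  have h : 2 * Real.pi * (t + 1) = 2 * Real.pi * t + 2 * Real.pi := by ring
  rw [h, Real.cos_add_two_pi, Real.sin_add_two_pi]

theorem exists_ecirc (v : E2) : ∃ t, v = ‖v‖ • ecirc t := by
  set z : ℂ := ⟨v 0, v 1⟩ with hz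
  have hn : ‖z‖ = ‖v‖ := by
    rw [EuclideanSpace.norm_eq, Fin.sum_univ_two, Complex.norm_def, Complex.normSq_apply]
    congr 1
    simp only [hz, Real.norm_eq_abs, sq_abs]
    ring
  refine ⟨Complex.arg z / (2 * Real.pi), ?_⟩
  have hpi : 2 * Real.pi * (Complex.arg z / (2 * Real.pi)) = Complex.arg z := by
    have := Real.pi_ne_zero
    field_simp
  ext i
  fin_cases i
  · show v 0 = ‖v‖ * ecirc _ 0
    rw [ecirc_zero, hpi, ← hn, Complex.norm_mul_cos_arg]
  · show v 1 = ‖v‖ * ecirc _ 1
    rw [ecirc_one, hpi, ← hn, Complex.norm_mul_sin_arg]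

/-- Polar parametrisation of the boundary of a bounded open convex set. -/
theorem exists_polar {D : Set E2} (hO : IsOpen D) (hc : Convex ℝ D)
    (hb : Bornology.IsBounded D) {q : E2} (hq : q ∈ D) :
    ∃ ρ : ℝ → ℝ, Continuous ρ ∧ (∀ t, 0 < ρ t) ∧ Function.Periodic ρ 1 ∧
      range (fun t => q + ρ t • ecirc t) = frontier D := by
  set S : Set E2 := (fun v => q + v) ⁻¹' D with hS
  have hSO : IsOpen S := hO.preimage (by fun_prop)
  have hSc : Convex ℝ S := by
    have := hc.translate_preimage_right q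
    exact this
  have h0 : (0 : E2) ∈ S := by simpa [hS] using hq
  have hS0 : S ∈ 𝓝 (0 : E2) := hSO.mem_nhds h0
  have hSb : Bornology.IsBounded S := by
    have h1 : S = (fun v => -q + v) '' D := by
      ext v
      simp only [hS, mem_preimage, mem_image]
      constructor
      · intro h
        exact ⟨q + v, h, by abel⟩
      · rintro ⟨w, hw, rfl⟩
        have : q + (-q + w) = w := by abel
        rwa [this]
    rw [h1]
    exact (isometry_add_left (-q)).lipschitz.isBounded_image hb
  have hgc : Continuous (gauge S) := continuous_gauge hSc hS0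
  have hpos : ∀ t, 0 < gauge S (ecirc t) := by
    intro t
    rw [gauge_pos (absorbent_nhds_zero hS0) (NormedSpace.isVonNBounded_iff ℝ |>.2 hSb)]
    exact ecirc_ne_zero t
  have hfr : ∀ v, q + v ∈ frontier D ↔ gauge S v = 1 := by
    intro v
    rw [gauge_eq_one_iff_mem_frontier hSc hS0]
    have := (Homeomorph.addLeft q).preimage_frontier D
    have h2 : S = (Homeomorph.addLeft q) ⁻¹' D := rfl
    rw [h2, ← this]
    rfl
  refine ⟨fun t => (gauge S (ecirc t))⁻¹, ?_, fun t => inv_pos.2 (hpos t), ?_, ?_⟩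
  · exact (hgc.comp continuous_ecirc).inv₀ (fun t => (hpos t).ne')
  · intro t
    simp only [ecirc_periodic t]
  · ext x
    constructor
    · rintro ⟨t, rfl⟩
      rw [hfr, gauge_smul_of_nonneg (inv_pos.2 (hpos t)).le, smul_eq_mul,
        inv_mul_cancel₀ (hpos t).ne']
    · intro hx
      obtain ⟨t, ht⟩ := exists_ecirc (x - q)
      have hx' : q + (x - q) ∈ frontier D := by
        have : q + (x - q) = x := by abel
        rwa [this]
      rw [hfr, ht, gauge_smul_of_nonneg (norm_nonneg _), smul_eq_mul] at hx'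
      refine ⟨t, ?_⟩
      have h3 : (gauge S (ecirc t))⁻¹ = ‖x - q‖ :=
        (eq_inv_of_mul_eq_one_left hx').symm
      show q + (gauge S (ecirc t))⁻¹ • ecirc t = x
      rw [h3, ← ht]
      abel

/-- Injectivity of a polar curve. -/
theorem polar_injOn {ρ : ℝ → ℝ} (hρ : ∀ t, 0 < ρ t) (q : E2) :
    InjOn (fun t => q + ρ t • ecirc t) (Ico 0 1) := by
  intro t ht s hs h
  have h1 : ρ t • ecirc t = ρ s • ecirc s := add_left_cancel h
  have h2 : ρ t = ρ s := by
    have := congrArg norm h1
    rwa [norm_smul, norm_smul, norm_ecirc, norm_ecirc, mul_one, mul_one, Real.norm_of_nonneg (hρ t).le,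
      Real.norm_of_nonneg (hρ s).le] at this
  rw [h2] at h1
  have h3 : ecirc t = ecirc s := by
    have := congrArg (fun v => (ρ s)⁻¹ • v) h1
    simpa [smul_smul, inv_mul_cancel₀ (hρ s).ne'] using this
  have hcos : Real.cos (2 * Real.pi * t) = Real.cos (2 * Real.pi * s) := by
    rw [← ecirc_zero, ← ecirc_zero, h3]
  have hsin : Real.sin (2 * Real.pi * t) = Real.sin (2 * Real.pi * s) := by
    rw [← ecirc_one, ← ecirc_one, h3]
  have h4 := Real.Angle.cos_sin_inj hcos hsin
  rw [Real.Angle.angle_eq_iff_two_pi_dvd_sub] at h4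
  obtain ⟨k, hk⟩ := h4
  have hpi := Real.pi_pos
  have h5 : t - s = k := by
    have : 2 * Real.pi * (t - s) = 2 * Real.pi * k := by linarith
    exact mul_left_cancel₀ (by positivity) this
  have h6 : k = 0 := by
    have a1 : (-1 : ℝ) < k := by rw [← h5]; linarith [ht.1, hs.2]
    have a2 : (k : ℝ) < 1 := by rw [← h5]; linarith [ht.2, hs.1]
    have b1 : -1 < k := by exact_mod_cast a1
    have b2 : k < 1 := by exact_mod_cast a2
    omega
  rw [h6, Int.cast_zero] at h5
  linarith

end Pool.Agent.Helper608
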