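import Pool.Agent.Helper608.Bdry2
import Pool.Agent.Helper608.Omega

open Set MeasureTheory Filter Topology
open scoped Manifold ContDiff InnerProductSpace

set_option linter.unusedSectionVars false

namespace Pool.Agent.Helper608

variable {M : Type*} [TopologicalSpace M] [ChartedSpace (EuclideanHalfSpace 2) M]
  [IsManifold (𝓡∂ 2) ∞ M]
  {f N : M → E3} {H : ℝ} {γ₁ γ₂ : ℝ → E3} {β₁ β₂ : ℝ → M}

/-- differentiation at a point in the preferred chart -/
lemma dd_of_hasFDerivWithinAt {a : M → E3} (ha : ContMDiff (𝓡∂ 2) 𝓘(ℝ, E3) 1 a) {m : M}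
    {L : E2 →L[ℝ] E3}
    (hL : HasFDerivWithinAt (a ∘ inv (chartAt (EuclideanHalfSpace 2) m)) L HP
      ((chartAt (EuclideanHalfSpace 2) m).extend (𝓡∂ 2) m)) : dd a m = L := by
  have h1 : dd a m = cd (chartAt (EuclideanHalfSpace 2) m) a (extChartAt (𝓡∂ 2) m m) :=
    dmap_eq ha m
  rw [h1]
  exact hL.fderivWithin (uniqueDiffOn_HP _ (tgt_subset (ext_mem (mem_chart_source _ m))))

lemma hasFDerivWithinAt_dd {a : M → E3} (ha : ContMDiff (𝓡∂ 2) 𝓘(ℝ, E3) 1 a) (m : M) :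
    HasFDerivWithinAt (a ∘ inv (chartAt (EuclideanHalfSpace 2) m)) (dd a m) HP
      ((chartAt (EuclideanHalfSpace 2) m).extend (𝓡∂ 2) m) := by
  have h1 : dd a m = cd (chartAt (EuclideanHalfSpace 2) m) a (extChartAt (𝓡∂ 2) m m) :=
    dmap_eq ha m
  rw [h1]
  exact hasFDerivWithinAt_cd (chart_mem_atlas _ m) ha (ext_mem (mem_chart_source _ m))

lemma inv_ext_self (m : M) :
    inv (chartAt (EuclideanHalfSpace 2) m) ((chartAt (EuclideanHalfSpace 2) m).extend (𝓡∂ 2) m) = m :=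
  inv_ext (mem_chart_source _ m)

lemma dd_sum {ι : Type*} (s : Finset ι) {b : ι → M → E3}
    (hb : ∀ i, ContMDiff (𝓡∂ 2) 𝓘(ℝ, E3) 1 (b i)) {a : M → E3}
    (ha : ContMDiff (𝓡∂ 2) 𝓘(ℝ, E3) 1 a) (hab : ∀ m, a m = ∑ i ∈ s, b i m) (m : M) :
    dd a m = ∑ i ∈ s, dd (b i) m := by
  apply dd_of_hasFDerivWithinAt ha
  have h1 := HasFDerivWithinAt.fun_sum (u := s) (fun i _ => hasFDerivWithinAt_dd (hb i) m)
  refine h1.congr ?_ ?_
  · intro z _; exact hab _
  · exact hab _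

lemma omg_sum {ι : Type*} (s : Finset ι) {b : ι → M → E3}
    (hb : ∀ i, ContMDiff (𝓡∂ 2) 𝓘(ℝ, E3) 1 (b i)) {a : M → E3}
    (ha : ContMDiff (𝓡∂ 2) 𝓘(ℝ, E3) 1 a) (hab : ∀ m, a m = ∑ i ∈ s, b i m) (m : M) :
    omg f N a m = ∑ i ∈ s, omg f N (b i) m := by
  unfold omg
  rw [dd_sum s hb ha hab, ← Finset.sum_div]
  congr 1
  rw [Finset.sum_sub_distrib]
  simp only [sum_apply, sum_inner]

variable [MeasurableSpace M] [BorelSpace M] [CompactSpace M] [T2Space M]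

/-- Stokes' theorem on the surface. -/
theorem BdPair.stokes (P : BdPair f γ₁ γ₂ β₁ β₂) (h : IsCMCImmersion f N H)
    {μ : Measure M} (hμ : IsAreaMeasure f μ) {a : M → E3}
    (ha : ContMDiff (𝓡∂ 2) 𝓘(ℝ, E3) 1 a) :
    Integrable (omg f N a) μ ∧
      ∫ m, omg f N a m ∂μ =
        -sgn (tau f N γ₁ β₁ 0) * (∫ t in Ico (0:ℝ) 1, ⟪a (β₁ t), deriv γ₁ t⟫_ℝ) +
        -sgn (tau f N γ₂ β₂ 0) * (∫ t in Ico (0:ℝ) 1, ⟪a (β₂ t), deriv γ₂ t⟫_ℝ) := by
  classical
  obtain ⟨s, hs⟩ := CompactSpace.elim_nhds_subcover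
    (fun x : M => (chartAt (EuclideanHalfSpace 2) x).source)
    (fun x => (chartAt (EuclideanHalfSpace 2) x).open_source.mem_nhds (mem_chart_source _ x))
  obtain ⟨ρ, hρ⟩ := SmoothPartitionOfUnity.exists_isSubordinate (𝓡∂ 2) (M := M)
    (isClosed_univ) (fun i : s => (chartAt (EuclideanHalfSpace 2) (i : M)).source)
    (fun i => (chartAt (EuclideanHalfSpace 2) (i : M)).open_source)
    (by
      intro x _
      have : x ∈ (⋃ x ∈ s, (chartAt (EuclideanHalfSpace 2) x).source) := by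
        rw [hs]; trivial
      simp only [mem_iUnion] at this ⊢
      obtain ⟨y, hy, hxy⟩ := this
      exact ⟨⟨y, hy⟩, hxy⟩)
  set b : s → M → E3 := fun i m => ρ i m • a m with hb
  have hρ1 : ∀ i, ContMDiff (𝓡∂ 2) 𝓘(ℝ, ℝ) 1 (ρ i) := fun i =>
    (ρ i).contMDiff.of_le one_le_inf
  have hb1 : ∀ i, ContMDiff (𝓡∂ 2) 𝓘(ℝ, E3) 1 (b i) := fun i => (hρ1 i).smul ha
  have hbs : ∀ i : s, tsupport (b i) ⊆ (chartAt (EuclideanHalfSpace 2) (i : M)).source := fun i =>
    (tsupport_smul_subset_left _ _).trans (hρ i)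
  have hsum1 : ∀ m, ∑ i, ρ i m = 1 := by
    intro m
    rw [← finsum_eq_sum_of_fintype]
    exact ρ.sum_eq_one (mem_univ m)
  have hab : ∀ m, a m = ∑ i, b i m := by
    intro m
    simp only [hb]
    rw [← Finset.sum_smul, hsum1, one_smul]
  have hch : ∀ i : s, _ := fun i =>
    P.stokes_chart h (chart_mem_atlas (EuclideanHalfSpace 2) (i : M)) hμ (hb1 i) (hbs i)
  have hom : omg f N a = fun m => ∑ i, omg f N (b i) m := by
    ext m
    exact omg_sum Finset.univ hb1 ha hab m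
  have hi : ∀ i ∈ (Finset.univ : Finset s), Integrable (omg f N (b i)) μ := fun i _ => (hch i).1
  constructor
  · rw [hom]
    exact integrable_finsetSum _ hi
  · rw [hom, integral_finsetSum _ hi]
    rw [Finset.sum_congr rfl (fun i _ => (hch i).2), Finset.sum_add_distrib,
      ← Finset.mul_sum, ← Finset.mul_sum]
    -- the boundary integrals
    have hbd : ∀ (γ : ℝ → E3) (β : ℝ → M), BdCurve f γ β →
        ∑ i, (∫ t in Ico (0:ℝ) 1, ⟪b i (β t), deriv γ t⟫_ℝ) =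
          ∫ t in Ico (0:ℝ) 1, ⟪a (β t), deriv γ t⟫_ℝ := by
      intro γ β C
      rw [← integral_finsetSum]
      · congr 1
        ext t
        rw [hab (β t), sum_inner]
      · intro i _
        have hc : Continuous (fun t => ⟪b i (β t), deriv γ t⟫_ℝ) :=
          ((hb1 i).continuous.comp C.cont).inner (C.smooth.continuous_deriv (by simp))
        exact (hc.integrableOn_Icc).mono_set Ico_subset_Icc_self
    rw [hbd γ₁ β₁ P.c₁, hbd γ₂ β₂ P.c₂]

end Pool.Agent.Helper608
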