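import Pool.Agent.Helper608.Cross

open Set MeasureTheory Filter Topology
open scoped Manifold ContDiff InnerProductSpace

namespace Pool.Agent.Helper608

/-- Integral identities of a compact constant mean curvature surface, in abstract form. -/
structure FluxSys {M : Type*} [TopologicalSpace M] [MeasurableSpace M]
    (μ : Measure M) (f N : M → E3) (H : ℝ) (bd : Set M) (Γ : Set E3) (Λ : ℝ)
    (γ₁ γ₂ : ℝ → E3) (σ₁ σ₂ : ℝ) : Prop where
  cont_f : Continuous f
  cont_N : Continuous N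
  norm_N : ∀ m, ‖N m‖ = 1
  image_bd : f '' bd = Γ
  sg₁ : σ₁ = 1 ∨ σ₁ = -1
  sg₂ : σ₂ = 1 ∨ σ₂ = -1
  fv : ∀ (F : E3 → ℝ), ContDiff ℝ 1 F → ∀ (e : E3) (B : ℝ), (∀ x ∈ Γ, |F x| * ‖e‖ ≤ B) →
    |∫ m, (fderiv ℝ F (f m) e - ⟪N m, e⟫_ℝ * fderiv ℝ F (f m) (N m)
      + 2 * H * F (f m) * ⟪N m, e⟫_ℝ) ∂μ| ≤ Λ * B
  st : ∀ (F : E3 → ℝ), ContDiff ℝ 1 F → ∀ e : E3,
    ∫ m, fderiv ℝ F (f m) (cross e (N m)) ∂μ =
      σ₁ * (∫ t in (0:ℝ)..1, F (γ₁ t) * ⟪e, deriv γ₁ t⟫_ℝ) +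
      σ₂ * (∫ t in (0:ℝ)..1, F (γ₂ t) * ⟪e, deriv γ₂ t⟫_ℝ)
  dens : ∀ m ∉ bd, ∀ᶠ s in 𝓝[>] (0:ℝ), s ^ 2 / 4 ≤ μ.real (f ⁻¹' Metric.ball (f m) s)

lemma integrable_of_cont {M : Type*} [TopologicalSpace M] [CompactSpace M] [MeasurableSpace M]
    [BorelSpace M] {μ : Measure M} [IsFiniteMeasure μ] {g : M → ℝ} (hg : Continuous g) :
    Integrable g μ :=
  hg.integrable_of_hasCompactSupport (HasCompactSupport.of_compactSpace g)

/-- square of the positive part -/
noncomputable def pps (y : ℝ) : ℝ := (max 0 y) ^ 2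

lemma pps_of_nonneg {y : ℝ} (h : 0 ≤ y) : pps y = y ^ 2 := by simp [pps, h]
lemma pps_of_nonpos {y : ℝ} (h : y ≤ 0) : pps y = 0 := by simp [pps, h]
lemma pps_nonneg (y : ℝ) : 0 ≤ pps y := by unfold pps; positivity

lemma hasDerivAt_pps (y : ℝ) : HasDerivAt pps (2 * max 0 y) y := by
  rcases lt_trichotomy y 0 with h | h | h
  · have h1 : pps =ᶠ[𝓝 y] fun _ => (0:ℝ) := by
      filter_upwards [Iio_mem_nhds h] with z hz
      exact pps_of_nonpos (le_of_lt hz)
    have h2 : max 0 y = 0 := max_eq_left h.le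
    rw [h2, mul_zero]
    exact (hasDerivAt_const y (0:ℝ)).congr_of_eventuallyEq h1
  · subst h
    simp only [max_self, mul_zero]
    rw [hasDerivAt_iff_isLittleO_nhds_zero]
    have h0 : (fun h : ℝ => pps (0 + h) - pps 0 - h • (0:ℝ)) =O[𝓝 0] fun h : ℝ => h ^ 2 := by
      apply Asymptotics.IsBigO.of_bound 1
      filter_upwards with h
      have : pps 0 = 0 := pps_of_nonpos le_rfl
      rw [this, zero_add, smul_zero, sub_zero, sub_zero, one_mul, Real.norm_eq_abs,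
        Real.norm_eq_abs, abs_of_nonneg (pps_nonneg h), abs_of_nonneg (sq_nonneg h)]
      rcases le_total 0 h with h' | h'
      · rw [pps_of_nonneg h']
      · rw [pps_of_nonpos h']; positivity
    refine h0.trans_isLittleO ?_
    have := Asymptotics.isLittleO_pow_id (𝕜 := ℝ) (n := 2) (by norm_num)
    simpa using this
  · have h1 : pps =ᶠ[𝓝 y] fun z => z ^ 2 := by
      filter_upwards [Ioi_mem_nhds h] with z hz
      exact pps_of_nonneg (le_of_lt hz)
    have h2 : max 0 y = y := max_eq_right h.le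
    rw [h2]
    have := (hasDerivAt_pow 2 y).congr_of_eventuallyEq h1
    simpa using this

lemma contDiff_pps : ContDiff ℝ 1 pps := by
  rw [contDiff_one_iff_deriv]
  refine ⟨fun y => (hasDerivAt_pps y).differentiableAt, ?_⟩
  have : deriv pps = fun y => 2 * max 0 y := funext fun y => (hasDerivAt_pps y).deriv
  rw [this]
  fun_prop

end Pool.Agent.Helper608
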