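import Mathlib

/-! Mean curvature flow of immersed spheres in `ℝ³`. -/

open Set Metric MeasureTheory
open scoped ContDiff

namespace Pool.Agent.Helper608.WillMCF

/-- The Euclidean space `ℝ³`. -/
abbrev E := EuclideanSpace ℝ (Fin 3)

/-- The unit sphere `S² ⊂ ℝ³`. -/
abbrev S := sphere (0 : E) 1

/-- The point `(1, 0, 0)` of `S²`. -/
noncomputable def pole : S := ⟨EuclideanSpace.single 0 1, by simp⟩

open Classical in
/-- The radial projection `x ↦ x / ‖x‖` of `ℝ³ ∖ {0}` onto `S²` (with an arbitrary value at `0`,
never used). -/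
noncomputable def proj (x : E) : S :=
  if h : x = 0 then pole else ⟨‖x‖⁻¹ • x, by simp [norm_smul, h]⟩

/-- A map `S² → ℝ³` is smooth if its degree `0` homogeneous extension `x ↦ F (x / ‖x‖)` is smooth
on `ℝ³ ∖ {0}`. -/
def IsSmooth (F : S → E) : Prop := ContDiffOn ℝ ∞ (fun y : E => F (proj y)) {0}ᶜ

/-- The derivative at `x` in direction `u` of (the degree `0` homogeneous extension of) `F`.
For `x ∈ S²` and `u ⟂ x` this is the differential of `F` at `x` applied to the tangent vector `u`
of `S²`. -/
noncomputable def D (F : S → E) (x u : E) : E := fderiv ℝ (fun y : E => F (proj y)) x u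

/-- The second derivative of (the degree `0` homogeneous extension of) `F` at `x` in the
directions `u`, `v`. For `x ∈ S²` and `u ⟂ x` the vector `D2 F x u u` is the acceleration at `x` of
the image under `F` of the geodesic of `S²` with initial velocity `u`. -/
noncomputable def D2 (F : S → E) (x u v : E) : E := fderiv ℝ (fun y : E => D F y v) x u

/-- `F` is an immersion. -/
def IsImmersion (F : S → E) : Prop :=
  ∀ (x : S) (u : E), inner ℝ (x : E) u = 0 → D F x u = 0 → u = 0

/-- `e` is an orthonormal basis of `T_x S²` for the metric induced by `F`. -/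
def IsFrame (F : S → E) (x : S) (e : Fin 2 → E) : Prop :=
  (∀ i, inner ℝ (x : E) (e i) = 0) ∧ Orthonormal ℝ (fun i => D F x (e i))

/-- The component of `y` normal to the surface at `F x`, for a frame `e` of `F` at `x`. -/
noncomputable def nor (F : S → E) (x : S) (e : Fin 2 → E) (y : E) : E :=
  y - ∑ j, inner ℝ y (D F x (e j)) • D F x (e j)

/-- The mean curvature vector `H`, the trace of the second fundamental form `A`, where
`A(u, u)` is the normal component of `D2 F x u u`. -/
noncomputable def meanCurv (F : S → E) (x : S) (e : Fin 2 → E) : E :=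
  ∑ i, nor F x e (D2 F x (e i) (e i))

/-- `b` is an orthonormal basis of `T_x S²` for the round metric. -/
def IsONB (x : S) (b : Fin 2 → E) : Prop := (∀ i, inner ℝ (x : E) (b i) = 0) ∧ Orthonormal ℝ b

/-- The density at `x` of the area measure of the metric induced by `F` with respect to the area
measure of the round sphere, computed with a basis `b` of `T_x S²` which is orthonormal for the
round metric. -/
noncomputable def areaDensity (F : S → E) (x : S) (b : Fin 2 → E) : ℝ :=
  √(Matrix.det (Matrix.of fun i j => inner ℝ (D F x (b i)) (D F x (b j))))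

/-- The integral over `M = S²` of `|H|²` with respect to the area measure of the metric induced
by `F`; `volume.toSphere` is the area measure of the round unit sphere. Here `e x` is any frame of
`F` at `x` and `b x` any orthonormal basis of `T_x S²`. -/
noncomputable def energy (F : S → E) (e b : S → Fin 2 → E) : ENNReal :=
  ∫⁻ x : S, ENNReal.ofReal (‖meanCurv F x (e x)‖ ^ 2 * areaDensity F x (b x))
    ∂(volume : Measure E).toSphere

/-- `F` is a smooth mean curvature flow `S² × [0, T) → ℝ³` with initial value `F₀`: a smooth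
family of immersions with `∂F/∂t = H` and `F(·, 0) = F₀`. -/
structure IsMCF (F₀ : S → E) (T : ℝ) (F : ℝ → S → E) : Prop where
  pos : 0 < T
  smooth : ContDiffOn ℝ ∞ (fun q : ℝ × E => F q.1 (proj q.2)) (Ico 0 T ×ˢ {0}ᶜ)
  init : F 0 = F₀
  imm : ∀ t ∈ Ico 0 T, IsImmersion (F t)
  flow : ∀ t ∈ Ico 0 T, ∀ x e, IsFrame (F t) x e →
    HasDerivWithinAt (fun s => F s x) (meanCurv (F t) x e) (Ico 0 T) t

/-- The surfaces `M_t = F(S², t)` shrink to a single point as `t → T`. -/
def ShrinksToPoint (T : ℝ) (F : ℝ → S → E) : Prop :=
  ∃ o : E, ∀ ε > 0, ∃ δ > 0, ∀ t ∈ Ico 0 T, T - δ < t → ∀ x, ‖F t x - o‖ < ε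

end Pool.Agent.Helper608.WillMCF
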