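import Mathlib
import Pool.Agent.Helper608.WDefs
import Pool.Agent.Helper608.HGeo

/-! Calculus of maps of the sphere to `ℝ³`. -/

open Set Metric
open scoped ContDiff

namespace Pool.Agent.Helper608.WillMCF

theorem coe_ne_zero (x : S) : (x : E) ≠ 0 := HypMCF.coe_ne_zero (n := 2) x

theorem isOpen_ne : IsOpen ({0}ᶜ : Set E) := isOpen_compl_singleton

theorem proj_coe (x : S) : proj (x : E) = x := by
  have hx : ‖(x : E)‖ = 1 := by simp
  apply Subtype.ext
  simp [proj, coe_ne_zero x, hx]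

theorem coe_proj {x : E} (hx : x ≠ 0) : (proj x : E) = ‖x‖⁻¹ • x := by
  simp [proj, hx]

theorem line_ne_zero (x : S) {u : E} (hu : inner ℝ (x : E) u = 0) (s : ℝ) :
    (x : E) + s • u ≠ 0 := HypMCF.line_ne_zero (n := 2) x hu s

theorem IsSmooth.hasFDerivAt {F : S → E} (hF : IsSmooth F) {y : E} (hy : y ≠ 0) :
    HasFDerivAt (fun y : E => F (proj y)) (fderiv ℝ (fun y : E => F (proj y)) y) y := by
  have h1 : ContDiffAt ℝ ∞ (fun y : E => F (proj y)) y := hF.contDiffAt (isOpen_ne.mem_nhds hy)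
  exact (h1.differentiableAt (by simp)).hasFDerivAt

theorem IsSmooth.hasDerivAt {F : S → E} (hF : IsSmooth F) {y : E} (u : E) (s : ℝ)
    (hy : y + s • u ≠ 0) :
    HasDerivAt (fun s : ℝ => F (proj (y + s • u))) (D F (y + s • u) u) s := by
  have h := (hF.hasFDerivAt hy).comp_hasDerivAt s (HypMCF.hasDerivAt_line (n := 2) y u s)
  exact h

theorem IsSmooth.contDiffOn_D {F : S → E} (hF : IsSmooth F) (u : E) :
    ContDiffOn ℝ ∞ (fun y : E => D F y u) {0}ᶜ := by
  have h1 : ContDiffOn ℝ ∞ (fderiv ℝ (fun y : E => F (proj y))) {0}ᶜ :=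
    hF.fderiv_of_isOpen isOpen_ne (by simp)
  exact h1.clm_apply contDiffOn_const

theorem IsSmooth.hasDerivAt_D {F : S → E} (hF : IsSmooth F) {y : E} (u v : E) (s : ℝ)
    (hy : y + s • u ≠ 0) :
    HasDerivAt (fun s : ℝ => D F (y + s • u) v) (D2 F (y + s • u) u v) s := by
  have h1 : ContDiffAt ℝ ∞ (fun y : E => D F y v) (y + s • u) :=
    (hF.contDiffOn_D v).contDiffAt (isOpen_ne.mem_nhds hy)
  have h2 := (h1.differentiableAt (by simp)).hasFDerivAt
  exact h2.comp_hasDerivAt s (HypMCF.hasDerivAt_line (n := 2) y u s)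

theorem D_add (F : S → E) (x u v : E) : D F x (u + v) = D F x u + D F x v := by
  simp only [D, map_add]

theorem D_smul (F : S → E) (x : E) (c : ℝ) (u : E) : D F x (c • u) = c • D F x u := by
  simp only [D, map_smul]

/-- The induced metric as a bilinear form. -/
noncomputable def gform (F : S → E) (x : S) : LinearMap.BilinForm ℝ E :=
  LinearMap.mk₂ ℝ (fun u v => inner ℝ (D F x u) (D F x v))
    (fun u v w => by rw [D_add, inner_add_left])
    (fun c u v => by rw [D_smul, real_inner_smul_left, smul_eq_mul])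
    (fun u v w => by rw [D_add, inner_add_right])
    (fun c u v => by rw [D_smul, real_inner_smul_right, smul_eq_mul])

theorem exists_frame {F : S → E} (hi : IsImmersion F) (x : S) : ∃ e, IsFrame F x e := by
  let W := (Submodule.span ℝ {(x : E)})ᗮ
  have hW : Module.finrank ℝ W = 2 := by
    have : Fact (Module.finrank ℝ E = 2 + 1) := ⟨by simp⟩
    exact Submodule.finrank_orthogonal_span_singleton (coe_ne_zero x)
  let B : LinearMap.BilinForm ℝ W := (gform F x).restrict W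
  have hB : ∀ u v : W, B u v = inner ℝ (D F x u) (D F x v) := fun u v => rfl
  have hsymm : LinearMap.IsSymm B := ⟨fun u v => by
    rw [hB, hB, real_inner_comm]
    rfl⟩
  obtain ⟨v, hv⟩ := LinearMap.BilinForm.exists_orthogonal_basis hsymm
  have hperp : ∀ w : W, inner ℝ (x : E) (w : E) = 0 := fun w =>
    Submodule.mem_orthogonal_singleton_iff_inner_right.1 w.2
  have hpos : ∀ i, 0 < B (v i) (v i) := by
    intro i
    rw [hB, real_inner_self_eq_norm_sq]
    have : D F x (v i : E) ≠ 0 := by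
      intro h
      have h3 := hi x _ (hperp _) h
      exact v.ne_zero i (Subtype.ext h3)
    positivity
  have hvo : ∀ i j, i ≠ j → B (v i) (v j) = 0 := fun i j hij => hv hij
  refine ⟨fun i => (√(B (v (Fin.cast hW.symm i)) (v (Fin.cast hW.symm i))))⁻¹ •
    (v (Fin.cast hW.symm i) : E), fun i => ?_, ?_⟩
  · rw [inner_smul_right, hperp, mul_zero]
  · rw [orthonormal_iff_ite]
    intro i j
    rw [D_smul, D_smul, real_inner_smul_left, real_inner_smul_right, ← hB]
    split_ifs with hij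
    · subst hij
      have h1 := hpos (Fin.cast hW.symm i)
      have h2 : √(B (v (Fin.cast hW.symm i)) (v (Fin.cast hW.symm i))) ≠ 0 :=
        (Real.sqrt_pos.2 h1).ne'
      field_simp
      rw [Real.sq_sqrt h1.le]
    · rw [hvo (Fin.cast hW.symm i) (Fin.cast hW.symm j)
        (fun h => hij (Fin.cast_injective hW.symm h))]
      simp

/-- Evaluating a linear functional which is critical at the point on the mean curvature. -/
theorem meanCurv_apply {F : S → E} {x : S} {e : Fin 2 → E} (L : E →ₗ[ℝ] ℝ)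
    (hL : ∀ i, L (D F x (e i)) = 0) :
    L (meanCurv F x e) = ∑ i, L (D2 F x (e i) (e i)) := by
  simp only [meanCurv, nor, map_sum, map_sub, map_smul, hL]
  simp

/-- Parseval's identity for the last coordinate. -/
theorem parseval {v : Fin 2 → E} (hv : Orthonormal ℝ v) {N : E} (hN : ∀ i, inner ℝ N (v i) = 0) :
    (v 0 2 ^ 2 + v 1 2 ^ 2) * ‖N‖ ^ 2 = ‖N‖ ^ 2 - N 2 ^ 2 := by
  by_cases h0 : N = 0
  · simp [h0]
  have hn : ‖N‖ ≠ 0 := norm_ne_zero_iff.2 h0
  have hin : ∀ x y : E, inner ℝ x y = x 0 * y 0 + x 1 * y 1 + x 2 * y 2 := by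
    intro x y
    rw [PiLp.inner_apply, Fin.sum_univ_three]
    simp
    ring
  have hNsq : ‖N‖ ^ 2 = N 0 * N 0 + N 1 * N 1 + N 2 * N 2 := by
    rw [← real_inner_self_eq_norm_sq, hin]
  let M : Matrix (Fin 3) (Fin 3) ℝ :=
    !![v 0 0, v 0 1, v 0 2; v 1 0, v 1 1, v 1 2; N 0 / ‖N‖, N 1 / ‖N‖, N 2 / ‖N‖]
  have hv' := orthonormal_iff_ite.1 hv
  have h00 := hv' 0 0
  have h01 := hv' 0 1
  have h10 := hv' 1 0
  have h11 := hv' 1 1
  have hN0 := hN 0
  have hN1 := hN 1
  rw [hin] at h00 h01 h10 h11 hN0 hN1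
  simp at h00 h01 h10 h11
  have hM : M * M.transpose = 1 := by
    ext i j
    fin_cases i <;> fin_cases j <;>
      simp [M, Matrix.mul_apply, Fin.sum_univ_three]
    · exact h00
    · exact h01
    · have : v 0 0 * (N 0 / ‖N‖) + v 0 1 * (N 1 / ‖N‖) + v 0 2 * (N 2 / ‖N‖) =
          (N 0 * v 0 0 + N 1 * v 0 1 + N 2 * v 0 2) / ‖N‖ := by ring
      rw [this, hN0, zero_div]
    · exact h10
    · exact h11
    · have : v 1 0 * (N 0 / ‖N‖) + v 1 1 * (N 1 / ‖N‖) + v 1 2 * (N 2 / ‖N‖) =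
          (N 0 * v 1 0 + N 1 * v 1 1 + N 2 * v 1 2) / ‖N‖ := by ring
      rw [this, hN1, zero_div]
    · have : N 0 / ‖N‖ * v 0 0 + N 1 / ‖N‖ * v 0 1 + N 2 / ‖N‖ * v 0 2 =
          (N 0 * v 0 0 + N 1 * v 0 1 + N 2 * v 0 2) / ‖N‖ := by ring
      rw [this, hN0, zero_div]
    · have : N 0 / ‖N‖ * v 1 0 + N 1 / ‖N‖ * v 1 1 + N 2 / ‖N‖ * v 1 2 =
          (N 0 * v 1 0 + N 1 * v 1 1 + N 2 * v 1 2) / ‖N‖ := by ring
      rw [this, hN1, zero_div]
    · have : N 0 / ‖N‖ * (N 0 / ‖N‖) + N 1 / ‖N‖ * (N 1 / ‖N‖) + N 2 / ‖N‖ * (N 2 / ‖N‖) =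
          (N 0 * N 0 + N 1 * N 1 + N 2 * N 2) / ‖N‖ ^ 2 := by ring
      rw [this, ← hNsq, div_self (by positivity)]
  have hM' : M.transpose * M = 1 := mul_eq_one_comm.1 hM
  have h22 := congrFun (congrFun hM' 2) 2
  simp [M, Matrix.mul_apply, Fin.sum_univ_three] at h22
  field_simp at h22
  linarith

end Pool.Agent.Helper608.WillMCF
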