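import Mathlib
import Pool.Agent.Helper608.WCalc

/-! Barriers of revolution for mean curvature flow in `ℝ³`. -/

open Set Metric
open scoped ContDiff

namespace Pool.Agent.Helper608.WillMCF

/-- First touching lemma. -/
theorem strict_barrier {K : Type*} [TopologicalSpace K] [CompactSpace K] {T t₀ t₁ : ℝ}
    (ht₀ : 0 ≤ t₀)
    (ψ ψ' : ℝ → K → ℝ)
    (hc : ContinuousOn (fun q : ℝ × K => ψ q.1 q.2) (Ico 0 T ×ˢ univ))
    (hd : ∀ t ∈ Ico 0 T, ∀ x, HasDerivWithinAt (fun s => ψ s x) (ψ' t x) (Ico 0 T) t)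
    (h0 : ∀ x, ψ t₀ x < 0)
    (hm : ∀ t ∈ Ico 0 T, t₀ ≤ t → t ≤ t₁ → ∀ x, (∀ y, ψ t y ≤ ψ t x) → ψ t x = 0 →
      ψ' t x < 0) :
    ∀ t ∈ Ico 0 T, t₀ ≤ t → t ≤ t₁ → ∀ x, ψ t x < 0 := by
  intro t ht htt₀ htt₁ x
  by_contra hcon
  push Not at hcon
  -- the set of bad times
  have hsub : Icc t₀ t ×ˢ (univ : Set K) ⊆ Ico 0 T ×ˢ univ :=
    prod_mono (fun s hs => ⟨ht₀.trans hs.1, hs.2.trans_lt ht.2⟩) subset_rfl
  have hcomp : IsCompact (Icc t₀ t ×ˢ (univ : Set K)) := isCompact_Icc.prod isCompact_univ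
  have hcl : IsCompact ((Icc t₀ t ×ˢ (univ : Set K)) ∩ {q | 0 ≤ ψ q.1 q.2}) := by
    have hclosed : IsClosed ((Icc t₀ t ×ˢ (univ : Set K)) ∩ {q | 0 ≤ ψ q.1 q.2}) :=
      (hc.mono hsub).preimage_isClosed_of_isClosed
        (isClosed_Icc.prod isClosed_univ) isClosed_Ici
    exact hcomp.of_isClosed_subset hclosed inter_subset_left
  obtain ⟨⟨τ, z⟩, hq, hmin⟩ := hcl.exists_isMinOn (f := fun q : ℝ × K => q.1)
    ⟨(t, x), ⟨⟨⟨htt₀, le_rfl⟩, mem_univ _⟩, hcon⟩⟩ (by fun_prop)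
  have hτ : τ ∈ Icc t₀ t := hq.1.1
  have hz0 : 0 ≤ ψ τ z := hq.2
  have hτT : τ ∈ Ico 0 T := ⟨ht₀.trans hτ.1, hτ.2.trans_lt ht.2⟩
  have hbefore : ∀ s, t₀ ≤ s → s < τ → ∀ y, ψ s y < 0 := by
    intro s hs1 hs2 y
    by_contra hy
    push Not at hy
    have := hmin (show (s, y) ∈ _ from ⟨⟨⟨hs1, hs2.le.trans hτ.2⟩, mem_univ _⟩, hy⟩)
    simp only [mem_ofPred_eq] at this
    linarith
  have hτt₀ : t₀ < τ := by
    rcases hτ.1.lt_or_eq with h | h
    · exact h
    · exfalso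
      rw [← h] at hz0
      exact absurd (h0 z) (not_lt.2 hz0)
  have hτ0 : 0 < τ := ht₀.trans_lt hτt₀
  have hder : ∀ y, HasDerivAt (fun s => ψ s y) (ψ' τ y) τ := fun y =>
    (hd τ hτT y).hasDerivAt (Ico_mem_nhds hτ0 hτT.2)
  have hle : ∀ y, ψ τ y ≤ 0 := by
    intro y
    have h1 : Filter.Tendsto (fun s => ψ s y) (nhdsWithin τ (Iio τ)) (nhds (ψ τ y)) :=
      (hder y).continuousAt.continuousWithinAt
    refine le_of_tendsto h1 ?_
    filter_upwards [Ioo_mem_nhdsLT hτt₀] with s hs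
    exact (hbefore s hs.1.le hs.2 y).le
  have hz : ψ τ z = 0 := le_antisymm (hle z) hz0
  have hneg : ψ' τ z < 0 :=
    hm τ hτT hτt₀.le (hτ.2.trans htt₁) z (fun y => by rw [hz]; exact hle y) hz
  have hlt : ∀ᶠ s in nhdsWithin τ (Iio τ), ψ τ z < ψ s z := by
    have h1 := (hder z).hasDerivWithinAt (s := Iio τ)
    rw [hasDerivWithinAt_iff_tendsto_slope' (by simp)] at h1
    have h2 := h1.eventually (gt_mem_nhds hneg)
    filter_upwards [h2, self_mem_nhdsWithin] with s hs hs2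
    have hs2' : s < τ := hs2
    rw [slope_def_field, div_neg_iff] at hs
    rcases hs with hs | hs
    · linarith [hs.1]
    · linarith [hs.2]
  obtain ⟨s, hs1, hs2⟩ := (hlt.and (Ioo_mem_nhdsLT hτt₀)).exists
  have := hbefore s hs2.1.le hs2.2 z
  linarith

/-- The square of the distance to the axis. -/
def rho2 (p : E) : ℝ := p 0 ^ 2 + p 1 ^ 2

theorem hasDerivAt_coord {c : ℝ → E} {c' : E} {s : ℝ} (h : HasDerivAt c c' s) (i : Fin 3) :
    HasDerivAt (fun s => c s i) (c' i) s :=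
  (EuclideanSpace.proj (𝕜 := ℝ) i).hasFDerivAt.comp_hasDerivAt s h

theorem hasDerivWithinAt_coord {c : ℝ → E} {c' : E} {s : ℝ} {A : Set ℝ}
    (h : HasDerivWithinAt c c' A s) (i : Fin 3) :
    HasDerivWithinAt (fun s => c s i) (c' i) A s :=
  (EuclideanSpace.proj (𝕜 := ℝ) i).hasFDerivAt.comp_hasDerivWithinAt s h

/-- First and second derivative tests at a spatial maximum. -/
theorem touch_test {F : S → E} (hF : IsSmooth F) {x : S} {σ : ℝ} {G G' : ℝ → ℝ} {G'' : ℝ}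
    (hG : ∀ z, HasDerivAt G (G' z) z) (hG2 : HasDerivAt G' G'' (F x 2))
    (hx : ∀ y, σ * (rho2 (F y) - G (F y 2)) ≤ σ * (rho2 (F x) - G (F x 2))) {u : E}
    (hu : inner ℝ (x : E) u = 0) :
    σ * (2 * (F x 0 * D F x u 0 + F x 1 * D F x u 1) - G' (F x 2) * D F x u 2) = 0 ∧
    σ * (2 * (D F x u 0 ^ 2 + D F x u 1 ^ 2) - G'' * D F x u 2 ^ 2 +
      (2 * (F x 0 * D2 F x u u 0 + F x 1 * D2 F x u u 1) - G' (F x 2) * D2 F x u u 2)) ≤ 0 := by
  have h1 : ∀ s : ℝ, HasDerivAt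
      (fun s : ℝ => σ * (rho2 (F (proj ((x : E) + s • u))) - G (F (proj ((x : E) + s • u)) 2)))
      (σ * (2 * (F (proj ((x : E) + s • u)) 0 * D F ((x : E) + s • u) u 0 +
        F (proj ((x : E) + s • u)) 1 * D F ((x : E) + s • u) u 1) -
        G' (F (proj ((x : E) + s • u)) 2) * D F ((x : E) + s • u) u 2)) s := by
    intro s
    have h := hF.hasDerivAt u s (line_ne_zero x hu s)
    have h0 := hasDerivAt_coord h 0
    have h1 := hasDerivAt_coord h 1
    have h2 := hasDerivAt_coord h 2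
    have h3 := ((((h0.fun_pow 2).add (h1.fun_pow 2))).sub ((hG _).comp s h2)).const_mul σ
    refine h3.congr_deriv ?_
    have e21 : (2 : ℕ) - 1 = 1 := rfl
    rw [e21]
    push_cast
    ring
  have h2 : HasDerivAt
      (fun s : ℝ => σ * (2 * (F (proj ((x : E) + s • u)) 0 * D F ((x : E) + s • u) u 0 +
        F (proj ((x : E) + s • u)) 1 * D F ((x : E) + s • u) u 1) -
        G' (F (proj ((x : E) + s • u)) 2) * D F ((x : E) + s • u) u 2))
      (σ * (2 * (D F x u 0 ^ 2 + D F x u 1 ^ 2) - G'' * D F x u 2 ^ 2 +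
      (2 * (F x 0 * D2 F x u u 0 + F x 1 * D2 F x u u 1) - G' (F x 2) * D2 F x u u 2))) 0 := by
    have h := hF.hasDerivAt u 0 (line_ne_zero x hu 0)
    have h' := hF.hasDerivAt_D u u 0 (line_ne_zero x hu 0)
    have h0 := hasDerivAt_coord h 0
    have h1 := hasDerivAt_coord h 1
    have h2 := hasDerivAt_coord h 2
    have k0 := hasDerivAt_coord h' 0
    have k1 := hasDerivAt_coord h' 1
    have k2 := hasDerivAt_coord h' 2
    have hG2' : HasDerivAt G' G'' (F (proj ((x : E) + (0 : ℝ) • u)) 2) := by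
      simpa [proj_coe] using hG2
    have h3 := ((((h0.mul k0).add (h1.mul k1)).const_mul 2).sub
      ((hG2'.comp (0 : ℝ) h2).mul k2)).const_mul σ
    refine h3.congr_deriv ?_
    simp only [zero_smul, add_zero, proj_coe, Function.comp]
    ring
  have h3 := HypMCF.second_test h1 h2 (fun s => by
    simp only [zero_smul, add_zero, proj_coe]
    exact hx _)
  simp only [zero_smul, add_zero, proj_coe] at h3
  exact h3

/-- The gradient of `ρ² - G(z)`. -/
noncomputable def grad (p : E) (g' : ℝ) : E := !₂[2 * p 0, 2 * p 1, -g']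

theorem inner_grad (p : E) (g' : ℝ) (w : E) :
    inner ℝ (grad p g') w = 2 * (p 0 * w 0 + p 1 * w 1) - g' * w 2 := by
  rw [PiLp.inner_apply, Fin.sum_univ_three]
  simp [grad]
  ring

theorem norm_grad_sq (p : E) (g' : ℝ) : ‖grad p g'‖ ^ 2 = 4 * rho2 p + g' ^ 2 := by
  rw [← real_inner_self_eq_norm_sq, inner_grad, rho2]
  simp [grad]
  ring

theorem norm_sq_three (w : E) : ‖w‖ ^ 2 = w 0 ^ 2 + w 1 ^ 2 + w 2 ^ 2 := by
  rw [EuclideanSpace.norm_sq_eq, Fin.sum_univ_three]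
  simp

/-- The information at a spatial maximum of `σ (ρ² - G(z))`. -/
theorem touch_trace {F : S → E} (hF : IsSmooth F) {x : S} {σ : ℝ} (hσ : σ ≠ 0)
    {G G' : ℝ → ℝ} {G'' : ℝ}
    (hG : ∀ z, HasDerivAt G (G' z) z) (hG2 : HasDerivAt G' G'' (F x 2))
    (hx : ∀ y, σ * (rho2 (F y) - G (F y 2)) ≤ σ * (rho2 (F x) - G (F x 2)))
    {e : Fin 2 → E} (he : IsFrame F x e) :
    ∃ k : ℝ, 0 ≤ k ∧ k ≤ 1 ∧ k * (4 * rho2 (F x) + G' (F x 2) ^ 2) = 4 * rho2 (F x) ∧
      σ * inner ℝ (grad (F x) (G' (F x 2))) (meanCurv F x e) ≤ - (σ * (4 - (2 + G'') * k)) := by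
  refine ⟨D F x (e 0) 2 ^ 2 + D F x (e 1) 2 ^ 2, by positivity, ?_, ?_, ?_⟩
  · have h1 := he.2.sum_inner_products_le (x := (EuclideanSpace.single 2 (1 : ℝ) : E))
      (s := Finset.univ)
    simpa [Fin.sum_univ_two, EuclideanSpace.inner_single_right] using h1
  · have hN : ∀ i, inner ℝ (grad (F x) (G' (F x 2))) (D F x (e i)) = 0 := by
      intro i
      have := (touch_test hF hG hG2 hx (he.1 i)).1
      rw [inner_grad]
      exact (mul_eq_zero.1 this).resolve_left hσ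
    have h1 := parseval he.2 hN
    have h2 := norm_grad_sq (F x) (G' (F x 2))
    rw [h2] at h1
    rw [h1]
    simp [grad]
  · have hN : ∀ i, inner ℝ (grad (F x) (G' (F x 2))) (D F x (e i)) = 0 := by
      intro i
      have := (touch_test hF hG hG2 hx (he.1 i)).1
      rw [inner_grad]
      exact (mul_eq_zero.1 this).resolve_left hσ
    have h1 := meanCurv_apply (F := F) (x := x) (e := e)
      (innerSL ℝ (grad (F x) (G' (F x 2)))).toLinearMap (fun i => hN i)
    simp only [ContinuousLinearMap.coe_coe, innerSL_apply_apply, Fin.sum_univ_two] at h1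
    rw [h1, inner_grad, inner_grad]
    have t0 := (touch_test hF hG hG2 hx (he.1 0)).2
    have t1 := (touch_test hF hG hG2 hx (he.1 1)).2
    have n0 : ‖D F x (e 0)‖ ^ 2 = 1 := by rw [he.2.1 0]; norm_num
    have n1 : ‖D F x (e 1)‖ ^ 2 = 1 := by rw [he.2.1 1]; norm_num
    rw [norm_sq_three] at n0 n1
    have m0 : D F x (e 0) 0 ^ 2 + D F x (e 0) 1 ^ 2 = 1 - D F x (e 0) 2 ^ 2 := by linarith
    have m1 : D F x (e 1) 0 ^ 2 + D F x (e 1) 1 ^ 2 = 1 - D F x (e 1) 2 ^ 2 := by linarith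
    rw [m0] at t0
    rw [m1] at t1
    nlinarith [t0, t1]

/-- Outer barrier: derivative at a touching point. -/
theorem touch_outer {F : S → E} (hF : IsSmooth F) {x : S} {G G' : ℝ → ℝ} {G'' gt κ : ℝ}
    (hG : ∀ z, HasDerivAt G (G' z) z) (hG2 : HasDerivAt G' G'' (F x 2))
    (hx : ∀ y, rho2 (F y) - G (F y 2) ≤ rho2 (F x) - G (F x 2))
    (h0 : rho2 (F x) = G (F x 2)) {e : Fin 2 → E} (he : IsFrame F x e) (hκ : 0 < κ)
    (hG'' : G'' < 2)
    (hP : κ * (G (F x 2) + G' (F x 2) ^ 2 / 4) ≤ gt * (G (F x 2) + G' (F x 2) ^ 2 / 4) +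
      2 * G (F x 2) + G' (F x 2) ^ 2 - G (F x 2) * G'') :
    inner ℝ (grad (F x) (G' (F x 2))) (meanCurv F x e) - gt < 0 := by
  obtain ⟨k, hk0, hk1, hk2, hk3⟩ := touch_trace (σ := 1) hF one_ne_zero hG hG2
    (by simpa using hx) he
  set q := G (F x 2) with hq
  set g' := G' (F x 2) with hg'
  rw [h0] at hk2
  have hq0 : 0 ≤ q := by
    rw [← h0, rho2]
    positivity
  have hs0 : 0 ≤ q + g' ^ 2 / 4 := by positivity
  rcases hs0.lt_or_eq with hs | hs
  · have hk : k * (q + g' ^ 2 / 4) = q := by linarith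
    have h1 : (inner ℝ (grad (F x) g') (meanCurv F x e) - gt) * (q + g' ^ 2 / 4) ≤
        - κ * (q + g' ^ 2 / 4) := by
      have h2 : (inner ℝ (grad (F x) g') (meanCurv F x e)) * (q + g' ^ 2 / 4) ≤
          -(4 - (2 + G'') * k) * (q + g' ^ 2 / 4) := by
        apply mul_le_mul_of_nonneg_right _ hs.le
        linarith
      have h3 : -(4 - (2 + G'') * k) * (q + g' ^ 2 / 4) =
          -4 * (q + g' ^ 2 / 4) + (2 + G'') * q := by
        linear_combination (2 + G'') * hk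
      rw [h3] at h2
      linarith
    have h4 := le_of_mul_le_mul_right h1 hs
    linarith
  · exfalso
    have hq' : q = 0 := by nlinarith [sq_nonneg g']
    have hg0 : g' = 0 := by
      rw [hq'] at hs
      nlinarith
    have hN : grad (F x) g' = 0 := by
      have h1 := norm_grad_sq (F x) g'
      rw [h0, hq', hg0] at h1
      rw [hg0]
      have : ‖grad (F x) 0‖ ^ 2 = 0 := by rw [h1]; ring
      exact norm_eq_zero.1 (pow_eq_zero_iff two_ne_zero |>.1 this)
    rw [hN, inner_zero_left] at hk3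
    have k1 : 0 ≤ (2 - G'') * k := mul_nonneg (by linarith) hk0
    have k2 : k = 1 := by linarith
    rw [k2] at hk3
    linarith

/-- Inner barrier: derivative at a touching point. -/
theorem touch_inner {F : S → E} (hF : IsSmooth F) {x : S} {G G' : ℝ → ℝ} {G'' gt κ : ℝ}
    (hG : ∀ z, HasDerivAt G (G' z) z) (hG2 : HasDerivAt G' G'' (F x 2))
    (hx : ∀ y, G (F y 2) - rho2 (F y) ≤ G (F x 2) - rho2 (F x))
    (h0 : rho2 (F x) = G (F x 2)) {e : Fin 2 → E} (he : IsFrame F x e) (hκ : 0 < κ)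
    (hgt : gt < 0)
    (hP : gt * (G (F x 2) + G' (F x 2) ^ 2 / 4) +
      2 * G (F x 2) + G' (F x 2) ^ 2 - G (F x 2) * G'' ≤
      - (κ * (G (F x 2) + G' (F x 2) ^ 2 / 4))) :
    gt - inner ℝ (grad (F x) (G' (F x 2))) (meanCurv F x e) < 0 := by
  obtain ⟨k, hk0, hk1, hk2, hk3⟩ := touch_trace (σ := -1) hF (by norm_num) hG hG2
    (fun y => by linarith [hx y]) he
  set q := G (F x 2) with hq
  set g' := G' (F x 2) with hg'
  rw [h0] at hk2
  have hq0 : 0 ≤ q := by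
    rw [← h0, rho2]
    positivity
  have hs0 : 0 ≤ q + g' ^ 2 / 4 := by positivity
  rcases hs0.lt_or_eq with hs | hs
  · have hk : k * (q + g' ^ 2 / 4) = q := by linarith
    have h1 : (gt - inner ℝ (grad (F x) g') (meanCurv F x e)) * (q + g' ^ 2 / 4) ≤
        - κ * (q + g' ^ 2 / 4) := by
      have h2 : (-inner ℝ (grad (F x) g') (meanCurv F x e)) * (q + g' ^ 2 / 4) ≤
          (4 - (2 + G'') * k) * (q + g' ^ 2 / 4) := by
        apply mul_le_mul_of_nonneg_right _ hs.le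
        linarith
      have h3 : (4 - (2 + G'') * k) * (q + g' ^ 2 / 4) =
          4 * (q + g' ^ 2 / 4) - (2 + G'') * q := by
        linear_combination (-(2 + G'')) * hk
      rw [h3] at h2
      linarith
    have h4 := le_of_mul_le_mul_right h1 hs
    linarith
  · have hq' : q = 0 := by nlinarith [sq_nonneg g']
    have hg0 : g' = 0 := by
      rw [hq'] at hs
      nlinarith
    have hN : grad (F x) g' = 0 := by
      have h1 := norm_grad_sq (F x) g'
      rw [h0, hq', hg0] at h1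
      rw [hg0]
      have : ‖grad (F x) 0‖ ^ 2 = 0 := by rw [h1]; ring
      exact norm_eq_zero.1 (pow_eq_zero_iff two_ne_zero |>.1 this)
    rw [hN, inner_zero_left]
    linarith

end Pool.Agent.Helper608.WillMCF
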