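import Mathlib

/-! Positivity certificates (generated). -/

namespace Pool.Agent.Helper608.WillMCF

/-- An upper bound of `s ^ (-1 / 2)`. -/
noncomputable def pA (u : ℝ) : ℝ :=
      (4227 / 1000) + (-2929 / 100) * u + (349527 / 1000) * u ^ 2 + (-403791 / 125) * u ^ 3 +
      (4368483 / 200) * u ^ 4 + (-104750809 / 1000) * u ^ 5 + (17800249 / 50) * u ^ 6 +
      (-215443821 / 250) * u ^ 7 + (1486395437 / 1000) * u ^ 8 + (-361962291 / 200) * u ^ 9 +
      (1517989143 / 1000) * u ^ 10 + (-833890191 / 1000) * u ^ 11 + (6747844 / 25) * u ^ 12 +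
      (-19504577 / 500) * u ^ 13

/-- An upper bound of the energy density. -/
noncomputable def pU (u : ℝ) : ℝ :=
      (241 / 250) + (44749 / 1000) * u + (-411869 / 1000) * u ^ 2 + (346103 / 100) * u ^ 3 +
      (-9274063 / 500) * u ^ 4 + (8507256 / 125) * u ^ 5 + (-171836651 / 1000) * u ^ 6 +
      (73967101 / 250) * u ^ 7 + (-344857339 / 1000) * u ^ 8 + (133627741 / 500) * u ^ 9 +
      (-2631673 / 20) * u ^ 10 + (7411189 / 200) * u ^ 11 + (-449507 / 100) * u ^ 12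

theorem certA0_box0 (u : ℝ) (h1 : 0 ≤ u) (h2 : u ≤ (1 / 2)) :
    0 ≤
      (4227 / 1000) + (-2929 / 100) * u + (349527 / 1000) * u ^ 2 + (-403791 / 125) * u ^ 3 +
      (4368483 / 200) * u ^ 4 + (-104750809 / 1000) * u ^ 5 + (17800249 / 50) * u ^ 6 +
      (-215443821 / 250) * u ^ 7 + (1486395437 / 1000) * u ^ 8 + (-361962291 / 200) * u ^ 9 +
      (1517989143 / 1000) * u ^ 10 + (-833890191 / 1000) * u ^ 11 + (6747844 / 25) * u ^ 12 +
      (-19504577 / 500) * u ^ 13 := by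
  have a1 : 0 ≤ u := by linarith
  have a2 : 0 ≤ ((1 / 2) - u) := by linarith
  have e :
      (4227 / 1000) + (-2929 / 100) * u + (349527 / 1000) * u ^ 2 + (-403791 / 125) * u ^ 3 +
      (4368483 / 200) * u ^ 4 + (-104750809 / 1000) * u ^ 5 + (17800249 / 50) * u ^ 6 +
      (-215443821 / 250) * u ^ 7 + (1486395437 / 1000) * u ^ 8 + (-361962291 / 200) * u ^ 9 +
      (1517989143 / 1000) * u ^ 10 + (-833890191 / 1000) * u ^ 11 + (6747844 / 25) * u ^ 12 +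
      (-19504577 / 500) * u ^ 13 =
      (4328448 / 125) * (((1 / 2) - u) ^ 13) + (41273344 / 125) * (u * ((1 / 2) - u) ^ 12) +
      (247140096 / 125) * (u ^ 2 * ((1 / 2) - u) ^ 11) + (818954496 / 125) * (u ^ 3 * ((1 / 2)
      - u) ^ 10) + (79201984 / 5) * (u ^ 4 * ((1 / 2) - u) ^ 9) + (3533991328 / 125) * (u ^ 5 *
      ((1 / 2) - u) ^ 8) + (4665404224 / 125) * (u ^ 6 * ((1 / 2) - u) ^ 7) + (4625363616 /
      125) * (u ^ 7 * ((1 / 2) - u) ^ 6) + (691424804 / 25) * (u ^ 8 * ((1 / 2) - u) ^ 5) +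
      (384373998 / 25) * (u ^ 9 * ((1 / 2) - u) ^ 4) + (770324583 / 125) * (u ^ 10 * ((1 / 2) -
      u) ^ 3) + (420885987 / 250) * (u ^ 11 * ((1 / 2) - u) ^ 2) + (35101098 / 125) * (u ^ 12 *
      ((1 / 2) - u)) + (10800629 / 500) * (u ^ 13) := by ring
  rw [e]; positivity

theorem certA0_box1 (u : ℝ) (h1 : (1 / 2) ≤ u) (h2 : u ≤ 1) :
    0 ≤
      (4227 / 1000) + (-2929 / 100) * u + (349527 / 1000) * u ^ 2 + (-403791 / 125) * u ^ 3 +
      (4368483 / 200) * u ^ 4 + (-104750809 / 1000) * u ^ 5 + (17800249 / 50) * u ^ 6 +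
      (-215443821 / 250) * u ^ 7 + (1486395437 / 1000) * u ^ 8 + (-361962291 / 200) * u ^ 9 +
      (1517989143 / 1000) * u ^ 10 + (-833890191 / 1000) * u ^ 11 + (6747844 / 25) * u ^ 12 +
      (-19504577 / 500) * u ^ 13 := by
  have a1 : 0 ≤ (u - (1 / 2)) := by linarith
  have a2 : 0 ≤ (1 - u) := by linarith
  have e :
      (4227 / 1000) + (-2929 / 100) * u + (349527 / 1000) * u ^ 2 + (-403791 / 125) * u ^ 3 +
      (4368483 / 200) * u ^ 4 + (-104750809 / 1000) * u ^ 5 + (17800249 / 50) * u ^ 6 +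
      (-215443821 / 250) * u ^ 7 + (1486395437 / 1000) * u ^ 8 + (-361962291 / 200) * u ^ 9 +
      (1517989143 / 1000) * u ^ 10 + (-833890191 / 1000) * u ^ 11 + (6747844 / 25) * u ^ 12 +
      (-19504577 / 500) * u ^ 13 =
      (10800629 / 500) * ((1 - u) ^ 13) + (70205981 / 250) * ((u - (1 / 2)) * (1 - u) ^ 12) +
      (420931407 / 250) * ((u - (1 / 2)) ^ 2 * (1 - u) ^ 11) + (154138238 / 25) * ((u - (1 /
      2)) ^ 3 * (1 - u) ^ 10) + (384940672 / 25) * ((u - (1 / 2)) ^ 4 * (1 - u) ^ 9) +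
      (3465442304 / 125) * ((u - (1 / 2)) ^ 5 * (1 - u) ^ 8) + (4627905968 / 125) * ((u - (1 /
      2)) ^ 6 * (1 - u) ^ 7) + (4632654784 / 125) * ((u - (1 / 2)) ^ 7 * (1 - u) ^ 6) +
      (3476316384 / 125) * ((u - (1 / 2)) ^ 8 * (1 - u) ^ 5) + (390079488 / 25) * ((u - (1 /
      2)) ^ 9 * (1 - u) ^ 4) + (160321408 / 25) * ((u - (1 / 2)) ^ 10 * (1 - u) ^ 3) +
      (219522304 / 125) * ((u - (1 / 2)) ^ 11 * (1 - u) ^ 2) + (38038016 / 125) * ((u - (1 /
      2)) ^ 12 * (1 - u)) + (3049472 / 125) * ((u - (1 / 2)) ^ 13) := by ring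
  rw [e]; positivity

theorem certA0 (u : ℝ) (h1 : 0 ≤ u) (h2 : u ≤ 1) :
    0 ≤
      (4227 / 1000) + (-2929 / 100) * u + (349527 / 1000) * u ^ 2 + (-403791 / 125) * u ^ 3 +
      (4368483 / 200) * u ^ 4 + (-104750809 / 1000) * u ^ 5 + (17800249 / 50) * u ^ 6 +
      (-215443821 / 250) * u ^ 7 + (1486395437 / 1000) * u ^ 8 + (-361962291 / 200) * u ^ 9 +
      (1517989143 / 1000) * u ^ 10 + (-833890191 / 1000) * u ^ 11 + (6747844 / 25) * u ^ 12 +
      (-19504577 / 500) * u ^ 13 := by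
  rcases le_total u (1 / 2) with c0 | c0
  · exact certA0_box0 u h1 c0
  exact certA0_box1 u c0 h2

end Pool.Agent.Helper608.WillMCF
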