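import Mathlib

/-! Positivity certificates (generated). -/

namespace Pool.Agent.Helper608.WillMCF

theorem ball_p_box0 (z : ℝ) (h1 : (-1) ≤ z) (h2 : z ≤ 0) :
    0 ≤
      (7749 / 40000) + (-93 / 100) * z + (121969 / 100000) * z ^ 2 + (-6721 / 12500) * z ^ 4 +
      (276 / 3125) * z ^ 6 := by
  have a1 : 0 ≤ (z - (-1)) := by linarith
  have a2 : 0 ≤ (0 - z) := by linarith
  have e :
      (7749 / 40000) + (-93 / 100) * z + (121969 / 100000) * z ^ 2 + (-6721 / 12500) * z ^ 4 +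
      (276 / 3125) * z ^ 6 =
      (378811 / 200000) * ((0 - z) ^ 6) + (38463 / 4000) * ((z - (-1)) * (0 - z) ^ 5) +
      (3797267 / 200000) * ((z - (-1)) ^ 2 * (0 - z) ^ 4) + (902663 / 50000) * ((z - (-1)) ^ 3
      * (0 - z) ^ 3) + (1755113 / 200000) * ((z - (-1)) ^ 4 * (0 - z) ^ 2) + (41847 / 20000) *
      ((z - (-1)) ^ 5 * (0 - z)) + (7749 / 40000) * ((z - (-1)) ^ 6) := by ring
  rw [e]; positivity

theorem ball_p_box1 (z : ℝ) (h1 : 0 ≤ z) (h2 : z ≤ (1 / 4)) :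
    0 ≤
      (7749 / 40000) + (-93 / 100) * z + (121969 / 100000) * z ^ 2 + (-6721 / 12500) * z ^ 4 +
      (276 / 3125) * z ^ 6 := by
  have a1 : 0 ≤ z := by linarith
  have a2 : 0 ≤ ((1 / 4) - z) := by linarith
  have e :
      (7749 / 40000) + (-93 / 100) * z + (121969 / 100000) * z ^ 2 + (-6721 / 12500) * z ^ 4 +
      (276 / 3125) * z ^ 6 =
      (495936 / 625) * (((1 / 4) - z) ^ 6) + (2380416 / 625) * (z * ((1 / 4) - z) ^ 5) +
      (23290952 / 3125) * (z ^ 2 * ((1 / 4) - z) ^ 4) + (23736608 / 3125) * (z ^ 3 * ((1 / 4) -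
      z) ^ 3) + (13262828 / 3125) * (z ^ 4 * ((1 / 4) - z) ^ 2) + (769464 / 625) * (z ^ 5 * ((1
      / 4) - z)) + (452824 / 3125) * (z ^ 6) := by ring
  rw [e]; positivity

theorem ball_p_box2 (z : ℝ) (h1 : (1 / 4) ≤ z) (h2 : z ≤ (3 / 8)) :
    0 ≤
      (7749 / 40000) + (-93 / 100) * z + (121969 / 100000) * z ^ 2 + (-6721 / 12500) * z ^ 4 +
      (276 / 3125) * z ^ 6 := by
  have a1 : 0 ≤ (z - (1 / 4)) := by linarith
  have a2 : 0 ≤ ((3 / 8) - z) := by linarith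
  have e :
      (7749 / 40000) + (-93 / 100) * z + (121969 / 100000) * z ^ 2 + (-6721 / 12500) * z ^ 4 +
      (276 / 3125) * z ^ 6 =
      (28980736 / 3125) * (((3 / 8) - z) ^ 6) + (137712384 / 3125) * ((z - (1 / 4)) * ((3 / 8)
      - z) ^ 5) + (266948288 / 3125) * ((z - (1 / 4)) ^ 2 * ((3 / 8) - z) ^ 4) + (269467904 /
      3125) * ((z - (1 / 4)) ^ 3 * ((3 / 8) - z) ^ 3) + (149035808 / 3125) * ((z - (1 / 4)) ^ 4
      * ((3 / 8) - z) ^ 2) + (42786864 / 3125) * ((z - (1 / 4)) ^ 5 * ((3 / 8) - z)) + (5002596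
      / 3125) * ((z - (1 / 4)) ^ 6) := by ring
  rw [e]; positivity

theorem ball_p_box3 (z : ℝ) (h1 : (3 / 8) ≤ z) (h2 : z ≤ (1 / 2)) :
    0 ≤
      (7749 / 40000) + (-93 / 100) * z + (121969 / 100000) * z ^ 2 + (-6721 / 12500) * z ^ 4 +
      (276 / 3125) * z ^ 6 := by
  have a1 : 0 ≤ (z - (3 / 8)) := by linarith
  have a2 : 0 ≤ ((1 / 2) - z) := by linarith
  have e :
      (7749 / 40000) + (-93 / 100) * z + (121969 / 100000) * z ^ 2 + (-6721 / 12500) * z ^ 4 +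
      (276 / 3125) * z ^ 6 =
      (5002596 / 3125) * (((1 / 2) - z) ^ 6) + (17244288 / 3125) * ((z - (3 / 8)) * ((1 / 2) -
      z) ^ 5) + (21322928 / 3125) * ((z - (3 / 8)) ^ 2 * ((1 / 2) - z) ^ 4) + (2351872 / 625) *
      ((z - (3 / 8)) ^ 3 * ((1 / 2) - z) ^ 3) + (4674176 / 3125) * ((z - (3 / 8)) ^ 4 * ((1 /
      2) - z) ^ 2) + (3161088 / 3125) * ((z - (3 / 8)) ^ 5 * ((1 / 2) - z)) + (1165312 / 3125)
      * ((z - (3 / 8)) ^ 6) := by ring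
  rw [e]; positivity

theorem ball_p_box4 (z : ℝ) (h1 : (1 / 2) ≤ z) (h2 : z ≤ 1) :
    0 ≤
      (7749 / 40000) + (-93 / 100) * z + (121969 / 100000) * z ^ 2 + (-6721 / 12500) * z ^ 4 +
      (276 / 3125) * z ^ 6 := by
  have a1 : 0 ≤ (z - (1 / 2)) := by linarith
  have a2 : 0 ≤ (1 - z) := by linarith
  have e :
      (7749 / 40000) + (-93 / 100) * z + (121969 / 100000) * z ^ 2 + (-6721 / 12500) * z ^ 4 +
      (276 / 3125) * z ^ 6 =
      (569 / 6250) * ((1 - z) ^ 6) + (5448 / 3125) * ((z - (1 / 2)) * (1 - z) ^ 5) + (47771 /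
      3125) * ((z - (1 / 2)) ^ 2 * (1 - z) ^ 4) + (24186 / 625) * ((z - (1 / 2)) ^ 3 * (1 - z)
      ^ 3) + (247591 / 6250) * ((z - (1 / 2)) ^ 4 * (1 - z) ^ 2) + (52008 / 3125) * ((z - (1 /
      2)) ^ 5 * (1 - z)) + (6811 / 3125) * ((z - (1 / 2)) ^ 6) := by ring
  rw [e]; positivity

theorem ball_p (z : ℝ) (h1 : (-1) ≤ z) (h2 : z ≤ 1) :
    0 ≤
      (7749 / 40000) + (-93 / 100) * z + (121969 / 100000) * z ^ 2 + (-6721 / 12500) * z ^ 4 +
      (276 / 3125) * z ^ 6 := by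
  rcases le_total z 0 with c0 | c0
  · exact ball_p_box0 z h1 c0
  rcases le_total z (1 / 4) with c1 | c1
  · exact ball_p_box1 z c0 c1
  rcases le_total z (3 / 8) with c2 | c2
  · exact ball_p_box2 z c1 c2
  rcases le_total z (1 / 2) with c3 | c3
  · exact ball_p_box3 z c2 c3
  exact ball_p_box4 z c3 h2

theorem ball_m_box0 (z : ℝ) (h1 : (-1) ≤ z) (h2 : z ≤ (-1 / 2)) :
    0 ≤
      (7749 / 40000) + (93 / 100) * z + (121969 / 100000) * z ^ 2 + (-6721 / 12500) * z ^ 4 +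
      (276 / 3125) * z ^ 6 := by
  have a1 : 0 ≤ (z - (-1)) := by linarith
  have a2 : 0 ≤ ((-1 / 2) - z) := by linarith
  have e :
      (7749 / 40000) + (93 / 100) * z + (121969 / 100000) * z ^ 2 + (-6721 / 12500) * z ^ 4 +
      (276 / 3125) * z ^ 6 =
      (6811 / 3125) * (((-1 / 2) - z) ^ 6) + (52008 / 3125) * ((z - (-1)) * ((-1 / 2) - z) ^ 5)
      + (247591 / 6250) * ((z - (-1)) ^ 2 * ((-1 / 2) - z) ^ 4) + (24186 / 625) * ((z - (-1)) ^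
      3 * ((-1 / 2) - z) ^ 3) + (47771 / 3125) * ((z - (-1)) ^ 4 * ((-1 / 2) - z) ^ 2) + (5448
      / 3125) * ((z - (-1)) ^ 5 * ((-1 / 2) - z)) + (569 / 6250) * ((z - (-1)) ^ 6) := by ring
  rw [e]; positivity

theorem ball_m_box1 (z : ℝ) (h1 : (-1 / 2) ≤ z) (h2 : z ≤ (-3 / 8)) :
    0 ≤
      (7749 / 40000) + (93 / 100) * z + (121969 / 100000) * z ^ 2 + (-6721 / 12500) * z ^ 4 +
      (276 / 3125) * z ^ 6 := by
  have a1 : 0 ≤ (z - (-1 / 2)) := by linarith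
  have a2 : 0 ≤ ((-3 / 8) - z) := by linarith
  have e :
      (7749 / 40000) + (93 / 100) * z + (121969 / 100000) * z ^ 2 + (-6721 / 12500) * z ^ 4 +
      (276 / 3125) * z ^ 6 =
      (1165312 / 3125) * (((-3 / 8) - z) ^ 6) + (3161088 / 3125) * ((z - (-1 / 2)) * ((-3 / 8)
      - z) ^ 5) + (4674176 / 3125) * ((z - (-1 / 2)) ^ 2 * ((-3 / 8) - z) ^ 4) + (2351872 /
      625) * ((z - (-1 / 2)) ^ 3 * ((-3 / 8) - z) ^ 3) + (21322928 / 3125) * ((z - (-1 / 2)) ^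
      4 * ((-3 / 8) - z) ^ 2) + (17244288 / 3125) * ((z - (-1 / 2)) ^ 5 * ((-3 / 8) - z)) +
      (5002596 / 3125) * ((z - (-1 / 2)) ^ 6) := by ring
  rw [e]; positivity

theorem ball_m_box2 (z : ℝ) (h1 : (-3 / 8) ≤ z) (h2 : z ≤ (-1 / 4)) :
    0 ≤
      (7749 / 40000) + (93 / 100) * z + (121969 / 100000) * z ^ 2 + (-6721 / 12500) * z ^ 4 +
      (276 / 3125) * z ^ 6 := by
  have a1 : 0 ≤ (z - (-3 / 8)) := by linarith
  have a2 : 0 ≤ ((-1 / 4) - z) := by linarith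
  have e :
      (7749 / 40000) + (93 / 100) * z + (121969 / 100000) * z ^ 2 + (-6721 / 12500) * z ^ 4 +
      (276 / 3125) * z ^ 6 =
      (5002596 / 3125) * (((-1 / 4) - z) ^ 6) + (42786864 / 3125) * ((z - (-3 / 8)) * ((-1 / 4)
      - z) ^ 5) + (149035808 / 3125) * ((z - (-3 / 8)) ^ 2 * ((-1 / 4) - z) ^ 4) + (269467904 /
      3125) * ((z - (-3 / 8)) ^ 3 * ((-1 / 4) - z) ^ 3) + (266948288 / 3125) * ((z - (-3 / 8))
      ^ 4 * ((-1 / 4) - z) ^ 2) + (137712384 / 3125) * ((z - (-3 / 8)) ^ 5 * ((-1 / 4) - z)) +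
      (28980736 / 3125) * ((z - (-3 / 8)) ^ 6) := by ring
  rw [e]; positivity

theorem ball_m_box3 (z : ℝ) (h1 : (-1 / 4) ≤ z) (h2 : z ≤ 0) :
    0 ≤
      (7749 / 40000) + (93 / 100) * z + (121969 / 100000) * z ^ 2 + (-6721 / 12500) * z ^ 4 +
      (276 / 3125) * z ^ 6 := by
  have a1 : 0 ≤ (z - (-1 / 4)) := by linarith
  have a2 : 0 ≤ (0 - z) := by linarith
  have e :
      (7749 / 40000) + (93 / 100) * z + (121969 / 100000) * z ^ 2 + (-6721 / 12500) * z ^ 4 +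
      (276 / 3125) * z ^ 6 =
      (452824 / 3125) * ((0 - z) ^ 6) + (769464 / 625) * ((z - (-1 / 4)) * (0 - z) ^ 5) +
      (13262828 / 3125) * ((z - (-1 / 4)) ^ 2 * (0 - z) ^ 4) + (23736608 / 3125) * ((z - (-1 /
      4)) ^ 3 * (0 - z) ^ 3) + (23290952 / 3125) * ((z - (-1 / 4)) ^ 4 * (0 - z) ^ 2) +
      (2380416 / 625) * ((z - (-1 / 4)) ^ 5 * (0 - z)) + (495936 / 625) * ((z - (-1 / 4)) ^ 6) := by ring
  rw [e]; positivity

theorem ball_m_box4 (z : ℝ) (h1 : 0 ≤ z) (h2 : z ≤ 1) :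
    0 ≤
      (7749 / 40000) + (93 / 100) * z + (121969 / 100000) * z ^ 2 + (-6721 / 12500) * z ^ 4 +
      (276 / 3125) * z ^ 6 := by
  have a1 : 0 ≤ z := by linarith
  have a2 : 0 ≤ (1 - z) := by linarith
  have e :
      (7749 / 40000) + (93 / 100) * z + (121969 / 100000) * z ^ 2 + (-6721 / 12500) * z ^ 4 +
      (276 / 3125) * z ^ 6 =
      (7749 / 40000) * ((1 - z) ^ 6) + (41847 / 20000) * (z * (1 - z) ^ 5) + (1755113 / 200000)
      * (z ^ 2 * (1 - z) ^ 4) + (902663 / 50000) * (z ^ 3 * (1 - z) ^ 3) + (3797267 / 200000) *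
      (z ^ 4 * (1 - z) ^ 2) + (38463 / 4000) * (z ^ 5 * (1 - z)) + (378811 / 200000) * (z ^ 6) := by ring
  rw [e]; positivity

theorem ball_m (z : ℝ) (h1 : (-1) ≤ z) (h2 : z ≤ 1) :
    0 ≤
      (7749 / 40000) + (93 / 100) * z + (121969 / 100000) * z ^ 2 + (-6721 / 12500) * z ^ 4 +
      (276 / 3125) * z ^ 6 := by
  rcases le_total z (-1 / 2) with c0 | c0
  · exact ball_m_box0 z h1 c0
  rcases le_total z (-3 / 8) with c1 | c1
  · exact ball_m_box1 z c0 c1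
  rcases le_total z (-1 / 4) with c2 | c2
  · exact ball_m_box2 z c1 c2
  rcases le_total z 0 with c3 | c3
  · exact ball_m_box3 z c2 c3
  exact ball_m_box4 z c3 h2

end Pool.Agent.Helper608.WillMCF
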