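import Mathlib

/-! Positivity certificate (generated). -/

namespace Pool.Agent.Helper608.WillMCF

/-- A polynomial of the barrier certificate. -/
noncomputable def Rti1 (τ u : ℝ) : ℝ :=
  (89 / 12500) + (229 / 50000) * τ + (1669 / 20000) * u + (-739 / 12500) * u * τ + (-15769 /
  100000) * u ^ 2 + (51 / 200) * u ^ 2 * τ + (19899 / 100000) * u ^ 3 + (-846 / 3125) * u ^ 3 *
  τ

theorem Rti1_box0 (τ u : ℝ) (h1 : 0 ≤ τ) (h2 : τ ≤ 1) (h3 : 0 ≤ u) (h4 : u ≤ 1) :
    0 ≤ Rti1 τ u := by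
  have a1 : 0 ≤ u := by linarith
  have a2 : 0 ≤ (1 - u) := by linarith
  have a3 : 0 ≤ τ := by linarith
  have a4 : 0 ≤ (1 - τ) := by linarith
  have b0 : 0 ≤
      (89 / 12500) + (1669 / 20000) * u + (-15769 / 100000) * u ^ 2 + (19899 / 100000) * u ^ 3 := by
    have e :
      (89 / 12500) + (1669 / 20000) * u + (-15769 / 100000) * u ^ 2 + (19899 / 100000) * u ^ 3 =
      (89 / 12500) * ((1 - u) ^ 3) + (10481 / 100000) * (u * (1 - u) ^ 2) + (3057 / 100000) *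
      (u ^ 2 * (1 - u)) + (13187 / 100000) * (u ^ 3) := by ring
    rw [e]; positivity
  have b1 : 0 ≤
      (117 / 10000) + (2433 / 100000) * u + (9731 / 100000) * u ^ 2 + (-7173 / 100000) * u ^ 3 := by
    have e :
      (117 / 10000) + (2433 / 100000) * u + (9731 / 100000) * u ^ 2 + (-7173 / 100000) * u ^ 3 =
      (117 / 10000) * ((1 - u) ^ 3) + (5943 / 100000) * (u * (1 - u) ^ 2) + (18107 / 100000) *
      (u ^ 2 * (1 - u)) + (6161 / 100000) * (u ^ 3) := by ring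
    rw [e]; positivity
  have e : Rti1 τ u =
      ((89 / 12500) + (1669 / 20000) * u + (-15769 / 100000) * u ^ 2 + (19899 / 100000) * u ^
      3) * ((1 - τ)) + ((117 / 10000) + (2433 / 100000) * u + (9731 / 100000) * u ^ 2 + (-7173
      / 100000) * u ^ 3) * (τ) := by
    unfold Rti1; ring
  rw [e]
  exact add_nonneg (mul_nonneg b0 (by positivity)) (mul_nonneg b1 (by positivity))

theorem Rti1_nonneg (τ u : ℝ) (hτ0 : 0 ≤ τ) (hτ1 : τ ≤ 1) (hu0 : 0 ≤ u) (hu1 : u ≤ 1) :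
    0 ≤ Rti1 τ u := by
  exact Rti1_box0 τ u hτ0 hτ1 hu0 hu1

end Pool.Agent.Helper608.WillMCF
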