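import Mathlib

/-! Positivity certificate (generated). -/

namespace Pool.Agent.Helper608.WillMCF

/-- A polynomial of the barrier certificate. -/
noncomputable def Rzo0 (τ u : ℝ) : ℝ :=
  (213 / 250) + (26331 / 50000) * τ + (-5599 / 50000) * τ ^ 2 + (264 / 25) * u + (-36939 /
  5000) * u * τ + (25683 / 25000) * u * τ ^ 2 + (-9) * u ^ 2 + (60909 / 5000) * u ^ 2 * τ +
  (-756 / 625) * u ^ 2 * τ ^ 2

theorem Rzo0_box0 (τ u : ℝ) (h1 : 0 ≤ τ) (h2 : τ ≤ 1) (h3 : 0 ≤ u) (h4 : u ≤ 1) :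
    0 ≤ Rzo0 τ u := by
  have a1 : 0 ≤ u := by linarith
  have a2 : 0 ≤ (1 - u) := by linarith
  have a3 : 0 ≤ τ := by linarith
  have a4 : 0 ≤ (1 - τ) := by linarith
  have b0 : 0 ≤
      (213 / 250) + (264 / 25) * u + (-9) * u ^ 2 := by
    have e :
      (213 / 250) + (264 / 25) * u + (-9) * u ^ 2 =
      (213 / 250) * ((1 - u) ^ 2) + (1533 / 125) * (u * (1 - u)) + (603 / 250) * (u ^ 2) := by ring
    rw [e]; positivity
  have b1 : 0 ≤
      (111531 / 50000) + (68661 / 5000) * u + (-29091 / 5000) * u ^ 2 := by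
    have e :
      (111531 / 50000) + (68661 / 5000) * u + (-29091 / 5000) * u ^ 2 =
      (111531 / 50000) * ((1 - u) ^ 2) + (113709 / 6250) * (u * (1 - u)) + (507231 / 50000) *
      (u ^ 2) := by ring
    rw [e]; positivity
  have b2 : 0 ≤
      (15833 / 12500) + (26247 / 6250) * u + (9861 / 5000) * u ^ 2 := by
    have e :
      (15833 / 12500) + (26247 / 6250) * u + (9861 / 5000) * u ^ 2 =
      (15833 / 12500) * ((1 - u) ^ 2) + (4208 / 625) * (u * (1 - u)) + (185959 / 25000) * (u ^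
      2) := by ring
    rw [e]; positivity
  have e : Rzo0 τ u =
      ((213 / 250) + (264 / 25) * u + (-9) * u ^ 2) * ((1 - τ) ^ 2) + ((111531 / 50000) +
      (68661 / 5000) * u + (-29091 / 5000) * u ^ 2) * (τ * (1 - τ)) + ((15833 / 12500) + (26247
      / 6250) * u + (9861 / 5000) * u ^ 2) * (τ ^ 2) := by
    unfold Rzo0; ring
  rw [e]
  exact add_nonneg (add_nonneg (mul_nonneg b0 (by positivity)) (mul_nonneg b1 (by positivity))) (mul_nonneg b2 (by positivity))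

theorem Rzo0_nonneg (τ u : ℝ) (hτ0 : 0 ≤ τ) (hτ1 : τ ≤ 1) (hu0 : 0 ≤ u) (hu1 : u ≤ 1) :
    0 ≤ Rzo0 τ u := by
  exact Rzo0_box0 τ u hτ0 hτ1 hu0 hu1

end Pool.Agent.Helper608.WillMCF
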