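import Mathlib

/-! Positivity certificate (generated). -/

namespace Pool.Agent.Helper608.WillMCF

/-- A polynomial of the barrier certificate. -/
noncomputable def Rzo1 (τ u : ℝ) : ℝ :=
  (15833 / 12500) + (3871 / 10000) * τ + (-4319 / 50000) * τ ^ 2 + (26247 / 6250) * u + (-36543
  / 6250) * u * τ + (-76131 / 25000) * u * τ ^ 2 + (9861 / 5000) * u ^ 2 + (9999 / 1000) * u ^
  2 * τ + (84933 / 10000) * u ^ 2 * τ ^ 2

theorem Rzo1_box0 (τ u : ℝ) (h1 : 0 ≤ τ) (h2 : τ ≤ 1) (h3 : 0 ≤ u) (h4 : u ≤ (1 / 2)) :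
    0 ≤ Rzo1 τ u := by
  have a1 : 0 ≤ u := by linarith
  have a2 : 0 ≤ ((1 / 2) - u) := by linarith
  have a3 : 0 ≤ τ := by linarith
  have a4 : 0 ≤ (1 - τ) := by linarith
  have b0 : 0 ≤
      (15833 / 12500) + (26247 / 6250) * u + (9861 / 5000) * u ^ 2 := by
    have e :
      (15833 / 12500) + (26247 / 6250) * u + (9861 / 5000) * u ^ 2 =
      (15833 / 3125) * (((1 / 2) - u) ^ 2) + (57913 / 3125) * (u * ((1 / 2) - u)) + (77189 /
      5000) * (u ^ 2) := by ring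
    rw [e]; positivity
  have b1 : 0 ≤
      (146019 / 50000) + (15951 / 6250) * u + (69717 / 5000) * u ^ 2 := by
    have e :
      (146019 / 50000) + (15951 / 6250) * u + (69717 / 5000) * u ^ 2 =
      (146019 / 12500) * (((1 / 2) - u) ^ 2) + (177921 / 6250) * (u * ((1 / 2) - u)) + (768231
      / 25000) * (u ^ 2) := by ring
    rw [e]; positivity
  have b2 : 0 ≤
      (4898 / 3125) + (-23463 / 5000) * u + (40929 / 2000) * u ^ 2 := by
    have e :
      (4898 / 3125) + (-23463 / 5000) * u + (40929 / 2000) * u ^ 2 =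
      (19592 / 3125) * (((1 / 2) - u) ^ 2) + (39421 / 12500) * (u * ((1 / 2) - u)) + (867437 /
      50000) * (u ^ 2) := by ring
    rw [e]; positivity
  have e : Rzo1 τ u =
      ((15833 / 12500) + (26247 / 6250) * u + (9861 / 5000) * u ^ 2) * ((1 - τ) ^ 2) + ((146019
      / 50000) + (15951 / 6250) * u + (69717 / 5000) * u ^ 2) * (τ * (1 - τ)) + ((4898 / 3125)
      + (-23463 / 5000) * u + (40929 / 2000) * u ^ 2) * (τ ^ 2) := by
    unfold Rzo1; ring
  rw [e]
  exact add_nonneg (add_nonneg (mul_nonneg b0 (by positivity)) (mul_nonneg b1 (by positivity))) (mul_nonneg b2 (by positivity))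

theorem Rzo1_box1 (τ u : ℝ) (h1 : 0 ≤ τ) (h2 : τ ≤ 1) (h3 : (1 / 2) ≤ u) (h4 : u ≤ 1) :
    0 ≤ Rzo1 τ u := by
  have a1 : 0 ≤ (u - (1 / 2)) := by linarith
  have a2 : 0 ≤ (1 - u) := by linarith
  have a3 : 0 ≤ τ := by linarith
  have a4 : 0 ≤ (1 - τ) := by linarith
  have b0 : 0 ≤
      (15833 / 12500) + (26247 / 6250) * u + (9861 / 5000) * u ^ 2 := by
    have e :
      (15833 / 12500) + (26247 / 6250) * u + (9861 / 5000) * u ^ 2 =
      (77189 / 5000) * ((1 - u) ^ 2) + (270119 / 6250) * ((u - (1 / 2)) * (1 - u)) + (185959 /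
      6250) * ((u - (1 / 2)) ^ 2) := by ring
    rw [e]; positivity
  have b1 : 0 ≤
      (146019 / 50000) + (15951 / 6250) * u + (69717 / 5000) * u ^ 2 := by
    have e :
      (146019 / 50000) + (15951 / 6250) * u + (69717 / 5000) * u ^ 2 =
      (768231 / 25000) * ((1 - u) ^ 2) + (59031 / 625) * ((u - (1 / 2)) * (1 - u)) + (970797 /
      12500) * ((u - (1 / 2)) ^ 2) := by ring
    rw [e]; positivity
  have b2 : 0 ≤
      (4898 / 3125) + (-23463 / 5000) * u + (40929 / 2000) * u ^ 2 := by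
    have e :
      (4898 / 3125) + (-23463 / 5000) * u + (40929 / 2000) * u ^ 2 =
      (867437 / 50000) * ((1 - u) ^ 2) + (207004 / 3125) * ((u - (1 / 2)) * (1 - u)) + (866963
      / 12500) * ((u - (1 / 2)) ^ 2) := by ring
    rw [e]; positivity
  have e : Rzo1 τ u =
      ((15833 / 12500) + (26247 / 6250) * u + (9861 / 5000) * u ^ 2) * ((1 - τ) ^ 2) + ((146019
      / 50000) + (15951 / 6250) * u + (69717 / 5000) * u ^ 2) * (τ * (1 - τ)) + ((4898 / 3125)
      + (-23463 / 5000) * u + (40929 / 2000) * u ^ 2) * (τ ^ 2) := by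
    unfold Rzo1; ring
  rw [e]
  exact add_nonneg (add_nonneg (mul_nonneg b0 (by positivity)) (mul_nonneg b1 (by positivity))) (mul_nonneg b2 (by positivity))

theorem Rzo1_nonneg (τ u : ℝ) (hτ0 : 0 ≤ τ) (hτ1 : τ ≤ 1) (hu0 : 0 ≤ u) (hu1 : u ≤ 1) :
    0 ≤ Rzo1 τ u := by
  rcases le_total u (1 / 2) with hc1 | hc1
  · exact Rzo1_box0 τ u hτ0 hτ1 hu0 hc1
  · exact Rzo1_box1 τ u hτ0 hτ1 hc1 hu1

end Pool.Agent.Helper608.WillMCF
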