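import Mathlib
import Pool.Agent.Helper608.WBar

/-! Polynomial barriers. -/

open Set Metric
open scoped ContDiff

namespace Pool.Agent.Helper608.WillMCF

/-- Coefficients of a barrier: the coefficient of `u ^ i` is `a i + b i * τ + c i * τ ^ 2`. -/
structure Cf where
  (a0 b0 c0 a1 b1 c1 a2 b2 c2 a3 b3 c3 : ℝ)

namespace Cf

variable (C : Cf)

/-- coefficient of `u ^ 0` -/
def A0 (τ : ℝ) : ℝ := C.a0 + C.b0 * τ + C.c0 * τ ^ 2
/-- coefficient of `u ^ 1` -/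
def A1 (τ : ℝ) : ℝ := C.a1 + C.b1 * τ + C.c1 * τ ^ 2
/-- coefficient of `u ^ 2` -/
def A2 (τ : ℝ) : ℝ := C.a2 + C.b2 * τ + C.c2 * τ ^ 2
/-- coefficient of `u ^ 3` -/
def A3 (τ : ℝ) : ℝ := C.a3 + C.b3 * τ + C.c3 * τ ^ 2

/-- The barrier. -/
def pg (τ u : ℝ) : ℝ := C.A0 τ + C.A1 τ * u + C.A2 τ * u ^ 2 + C.A3 τ * u ^ 3
/-- Its derivative with respect to `u`. -/
def pu (τ u : ℝ) : ℝ := C.A1 τ + 2 * C.A2 τ * u + 3 * C.A3 τ * u ^ 2
/-- The second derivative with respect to `z`, `u = z ^ 2`. -/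
def pzz (τ u : ℝ) : ℝ := 2 * C.A1 τ + 12 * C.A2 τ * u + 30 * C.A3 τ * u ^ 2
/-- Its derivative with respect to `τ`. -/
def pt (τ u : ℝ) : ℝ := (C.b0 + 2 * C.c0 * τ) + (C.b1 + 2 * C.c1 * τ) * u +
  (C.b2 + 2 * C.c2 * τ) * u ^ 2 + (C.b3 + 2 * C.c3 * τ) * u ^ 3

/-- The quantity `s`. -/
def ps (τ u : ℝ) : ℝ := C.pg τ u + u * C.pu τ u ^ 2

/-- `h P`. -/
def pP (h τ u : ℝ) : ℝ := C.pt τ u * C.ps τ u +
  h * (2 * C.pg τ u + 4 * u * C.pu τ u ^ 2 - C.pg τ u * C.pzz τ u)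

end Cf

theorem hasDerivAt_g (C : Cf) (τ z : ℝ) :
    HasDerivAt (fun z => C.pg τ (z ^ 2)) (2 * z * C.pu τ (z ^ 2)) z := by
  have h1 : HasDerivAt (fun z : ℝ => z ^ 2) (2 * z) z := by
    simpa using hasDerivAt_pow 2 z
  have h2 : HasDerivAt (fun u => C.pg τ u) (C.pu τ (z ^ 2)) (z ^ 2) := by
    have e := (((hasDerivAt_const (z ^ 2) (C.A0 τ)).add
      ((hasDerivAt_id (z ^ 2)).const_mul (C.A1 τ))).add
      ((hasDerivAt_pow 2 (z ^ 2)).const_mul (C.A2 τ))).add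
      ((hasDerivAt_pow 3 (z ^ 2)).const_mul (C.A3 τ))
    refine e.congr_deriv ?_
    rw [Cf.pu]
    norm_num
    ring
  have h3 : HasDerivAt (fun z => C.pg τ (z ^ 2)) (C.pu τ (z ^ 2) * (2 * z)) z :=
    HasDerivAt.comp (h₂ := fun u => C.pg τ u) (h := fun z : ℝ => z ^ 2) z h2 h1
  refine h3.congr_deriv ?_
  ring

theorem hasDerivAt_gz (C : Cf) (τ z : ℝ) :
    HasDerivAt (fun z => 2 * z * C.pu τ (z ^ 2)) (C.pzz τ (z ^ 2)) z := by
  have e := (((hasDerivAt_id z).const_mul (2 * C.A1 τ)).add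
      ((hasDerivAt_pow 3 z).const_mul (4 * C.A2 τ))).add
      ((hasDerivAt_pow 5 z).const_mul (6 * C.A3 τ))
  have h : (fun z => 2 * z * C.pu τ (z ^ 2)) =
      (((fun y => 2 * C.A1 τ * id y) + fun y => 4 * C.A2 τ * y ^ 3) +
        fun y => 6 * C.A3 τ * y ^ 5) := by
    funext y
    simp only [Pi.add_apply, id, Cf.pu]
    ring
  rw [h]
  refine e.congr_deriv ?_
  rw [Cf.pzz]
  norm_num
  ring

/-- The total time derivative. -/
theorem hasDerivWithinAt_g (C : Cf) {t₀ h : ℝ} {c : ℝ → ℝ} {c' t : ℝ} {A : Set ℝ}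
    (hc : HasDerivWithinAt c c' A t) :
    HasDerivWithinAt (fun s => C.pg ((s - t₀) / h) (c s ^ 2))
      (h⁻¹ * C.pt ((t - t₀) / h) (c t ^ 2) +
        2 * c t * C.pu ((t - t₀) / h) (c t ^ 2) * c') A t := by
  have hτ : HasDerivWithinAt (fun s : ℝ => (s - t₀) / h) (h⁻¹) A t := by
    have := (((hasDerivAt_id t).sub_const t₀).div_const h).hasDerivWithinAt (s := A)
    simpa using this
  have hu := hc.fun_pow 2
  have hτ2 := hτ.fun_pow 2
  have e0 := ((hasDerivWithinAt_const t A C.a0).add (hτ.const_mul C.b0)).add (hτ2.const_mul C.c0)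
  have e1 := ((hasDerivWithinAt_const t A C.a1).add (hτ.const_mul C.b1)).add (hτ2.const_mul C.c1)
  have e2 := ((hasDerivWithinAt_const t A C.a2).add (hτ.const_mul C.b2)).add (hτ2.const_mul C.c2)
  have e3 := ((hasDerivWithinAt_const t A C.a3).add (hτ.const_mul C.b3)).add (hτ2.const_mul C.c3)
  have e := ((e0.add (e1.mul hu)).add (e2.mul (hu.fun_pow 2))).add (e3.mul (hu.fun_pow 3))
  refine e.congr_deriv ?_
  have e21 : (2 : ℕ) - 1 = 1 := rfl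
  have e31 : (3 : ℕ) - 1 = 2 := rfl
  simp only [Cf.pt, Cf.pu, Cf.A1, Cf.A2, Cf.A3, Pi.add_apply, e21, e31]
  push_cast
  ring

end Pool.Agent.Helper608.WillMCF
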