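import Mathlib
import Pool.Agent.Helper608.WPoly

/-! Barriers along mean curvature flow in `ℝ³`. -/

open Set Metric
open scoped ContDiff

namespace Pool.Agent.Helper608.WillMCF

theorem IsMCF.isSmooth {F₀ : S → E} {T : ℝ} {F : ℝ → S → E} (h : IsMCF F₀ T F) {t : ℝ}
    (ht : t ∈ Ico 0 T) : IsSmooth (F t) := by
  have h1 : ContDiffOn ℝ ∞ (fun y : E => ((t, y) : ℝ × E)) {0}ᶜ :=
    contDiffOn_const.prodMk contDiffOn_id
  exact h.smooth.comp h1 (fun y hy => ⟨ht, hy⟩)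

theorem IsMCF.continuousOn {F₀ : S → E} {T : ℝ} {F : ℝ → S → E} (h : IsMCF F₀ T F) :
    ContinuousOn (fun q : ℝ × S => F q.1 q.2) (Ico 0 T ×ˢ univ) := by
  have h1 : ContinuousOn (fun q : ℝ × S => ((q.1, (q.2 : E)) : ℝ × E)) (Ico 0 T ×ˢ univ) := by
    fun_prop
  have h2 := h.smooth.continuousOn.comp h1 (fun q hq => ⟨hq.1, coe_ne_zero q.2⟩)
  refine h2.congr (fun q hq => ?_)
  simp only [Function.comp, proj_coe]

/-- A choice of frames. -/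
theorem IsMCF.frames {F₀ : S → E} {T : ℝ} {F : ℝ → S → E} (h : IsMCF F₀ T F) :
    ∃ e : ℝ → S → Fin 2 → E, ∀ t ∈ Ico 0 T, ∀ x, IsFrame (F t) x (e t x) := by
  classical
  have hf : ∀ t, ∀ x : S, ∃ e, t ∈ Ico 0 T → IsFrame (F t) x e := by
    intro t x
    by_cases ht : t ∈ Ico 0 T
    · obtain ⟨e, he⟩ := exists_frame (h.imm t ht) x
      exact ⟨e, fun _ => he⟩
    · exact ⟨fun _ => 0, fun h => absurd h ht⟩
  choose e he using hf
  exact ⟨e, fun t ht x => he t x ht⟩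

theorem test_linear {F : S → E} (hF : IsSmooth F) {x : S} (v : E)
    (hx : ∀ y, inner ℝ v (F y) ≤ inner ℝ v (F x)) {u : E} (hu : inner ℝ (x : E) u = 0) :
    inner ℝ v (D F x u) = 0 ∧ inner ℝ v (D2 F x u u) ≤ 0 := by
  have h1 : ∀ s : ℝ, HasDerivAt (fun s : ℝ => inner ℝ v (F (proj ((x : E) + s • u))))
      (inner ℝ v (D F ((x : E) + s • u) u)) s := by
    intro s
    have := (hasDerivAt_const s v).inner ℝ (hF.hasDerivAt u s (line_ne_zero x hu s))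
    simpa using this
  have h2 : HasDerivAt (fun s : ℝ => inner ℝ v (D F ((x : E) + s • u) u))
      (inner ℝ v (D2 F x u u)) 0 := by
    have := (hasDerivAt_const (0 : ℝ) v).inner ℝ (hF.hasDerivAt_D u u 0 (line_ne_zero x hu 0))
    simpa using this
  have h3 := HypMCF.second_test h1 h2 (fun s => by
    simp only [zero_smul, add_zero, proj_coe]
    exact hx _)
  simpa using h3

theorem linear_barrier {F₀ : S → E} {T : ℝ} {F : ℝ → S → E} (h : IsMCF F₀ T F) (v : E) {M : ℝ}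
    (h0 : ∀ x, inner ℝ v (F₀ x) ≤ M) : ∀ t ∈ Ico 0 T, ∀ x, inner ℝ v (F t x) ≤ M := by
  obtain ⟨e, he⟩ := h.frames
  refine HypMCF.max_principle (T := T) (M := M) (fun t x => inner ℝ v (F t x))
    (fun t x => inner ℝ v (meanCurv (F t) x (e t x))) ?_ ?_ ?_ ?_
  · exact continuousOn_const.inner h.continuousOn
  · intro t ht x
    have := (hasDerivWithinAt_const t (Ico 0 T) v).inner ℝ (h.flow t ht x _ (he t ht x))
    simpa using this
  · intro x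
    rw [h.init]
    exact h0 x
  · intro t ht x hx _
    have h1 := meanCurv_apply (F := F t) (x := x) (e := e t x)
      (innerSL ℝ v).toLinearMap
      (fun i => (test_linear (h.isSmooth ht) v hx ((he t ht x).1 i)).1)
    simp only [ContinuousLinearMap.coe_coe, innerSL_apply_apply, Fin.sum_univ_two] at h1
    show inner ℝ v (meanCurv (F t) x (e t x)) ≤ 0
    rw [h1]
    have t0 := (test_linear (h.isSmooth ht) v hx ((he t ht x).1 0)).2
    have t1 := (test_linear (h.isSmooth ht) v hx ((he t ht x).1 1)).2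
    linarith

theorem slab {F₀ : S → E} {T : ℝ} {F : ℝ → S → E} (h : IsMCF F₀ T F)
    (h0 : ∀ x, |F₀ x 2| ≤ 1) : ∀ t ∈ Ico 0 T, ∀ x, |F t x 2| ≤ 1 := by
  intro t ht x
  rw [abs_le]
  have h1 := linear_barrier h (EuclideanSpace.single 2 1) (M := 1) (fun x => by
    rw [EuclideanSpace.inner_single_left]
    simpa using (abs_le.1 (h0 x)).2) t ht x
  have h2 := linear_barrier h (EuclideanSpace.single 2 (-1)) (M := 1) (fun x => by
    rw [EuclideanSpace.inner_single_left]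
    have := (abs_le.1 (h0 x)).1
    simp
    linarith) t ht x
  rw [EuclideanSpace.inner_single_left] at h1 h2
  simp at h1 h2
  exact ⟨by linarith, h1⟩

theorem test_ball {F : S → E} (hF : IsSmooth F) {x : S} (p : E)
    (hx : ∀ y, -‖F y - p‖ ^ 2 ≤ -‖F x - p‖ ^ 2) {u : E} (hu : inner ℝ (x : E) u = 0) :
    inner ℝ (F x - p) (D F x u) = 0 ∧
      -(‖D F x u‖ ^ 2 + inner ℝ (F x - p) (D2 F x u u)) ≤ 0 := by
  have h1 : ∀ s : ℝ, HasDerivAt (fun s : ℝ => -‖F (proj ((x : E) + s • u)) - p‖ ^ 2)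
      (-(2 * inner ℝ (F (proj ((x : E) + s • u)) - p) (D F ((x : E) + s • u) u))) s := by
    intro s
    have h := (hF.hasDerivAt u s (line_ne_zero x hu s)).sub_const p
    exact (h.norm_sq).neg
  have h2 : HasDerivAt (fun s : ℝ =>
      -(2 * inner ℝ (F (proj ((x : E) + s • u)) - p) (D F ((x : E) + s • u) u)))
      (-(2 * (‖D F x u‖ ^ 2 + inner ℝ (F x - p) (D2 F x u u)))) 0 := by
    have h := (hF.hasDerivAt u 0 (line_ne_zero x hu 0)).sub_const p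
    have h' := hF.hasDerivAt_D u u 0 (line_ne_zero x hu 0)
    have := ((h.inner ℝ h').const_mul 2).neg
    refine this.congr_deriv ?_
    simp only [zero_smul, add_zero, proj_coe]
    rw [real_inner_self_eq_norm_sq]
    ring
  have h3 := HypMCF.second_test h1 h2 (fun s => by
    simp only [zero_smul, add_zero, proj_coe]
    exact hx _)
  simp only [zero_smul, add_zero, proj_coe] at h3
  constructor
  · linarith [h3.1]
  · linarith [h3.2]

theorem ball_step {F₀ : S → E} {T : ℝ} {F : ℝ → S → E} (h : IsMCF F₀ T F) (p : E) {t₀ t₁ R : ℝ}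
    (ht₀ : 0 ≤ t₀) (h0 : t₀ < T → ∀ x, R < ‖F t₀ x - p‖ ^ 2) :
    ∀ t ∈ Ico 0 T, t₀ ≤ t → t ≤ t₁ → ∀ x, R - 9 / 2 * (t - t₀) < ‖F t x - p‖ ^ 2 := by
  intro t ht htt₀ htt₁ x
  obtain ⟨e, he⟩ := h.frames
  have key := strict_barrier (T := T) (t₁ := t₁) ht₀
    (fun t x => R - 9 / 2 * (t - t₀) - ‖F t x - p‖ ^ 2)
    (fun t x => - (9 / 2) - 2 * inner ℝ (F t x - p) (meanCurv (F t) x (e t x))) ?_ ?_ ?_ ?_
    t ht htt₀ htt₁ x
  · linarith [key]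
  · have h1 : ContinuousOn (fun q : ℝ × S => ‖F q.1 q.2 - p‖ ^ 2) (Ico 0 T ×ˢ univ) :=
      ((h.continuousOn.sub continuousOn_const).norm).pow 2
    exact ContinuousOn.sub (by fun_prop) h1
  · intro t ht x
    have h1 := (h.flow t ht x _ (he t ht x)).sub_const p
    have h2 : HasDerivWithinAt (fun s => ‖F s x - p‖ ^ 2)
        (2 * inner ℝ (F t x - p) (meanCurv (F t) x (e t x))) (Ico 0 T) t := h1.norm_sq
    have h3 : HasDerivWithinAt (fun s : ℝ => R - 9 / 2 * (s - t₀)) (-(9 / 2)) (Ico 0 T) t := by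
      have := ((((hasDerivAt_id t).sub_const t₀).const_mul (9 / 2)).const_sub R).hasDerivWithinAt
        (s := Ico 0 T)
      simpa using this
    exact h3.sub h2
  · intro x
    have := h0 (htt₀.trans_lt ht.2) x
    simp only [sub_self, mul_zero, sub_zero]
    linarith
  · intro t ht _ _ x hx _
    have hx' : ∀ y, -‖F t y - p‖ ^ 2 ≤ -‖F t x - p‖ ^ 2 := fun y => by
      have := hx y
      linarith
    have h1 := meanCurv_apply (F := F t) (x := x) (e := e t x)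
      (innerSL ℝ (F t x - p)).toLinearMap
      (fun i => (test_ball (h.isSmooth ht) p hx' ((he t ht x).1 i)).1)
    simp only [ContinuousLinearMap.coe_coe, innerSL_apply_apply, Fin.sum_univ_two] at h1
    have t0 := (test_ball (h.isSmooth ht) p hx' ((he t ht x).1 0)).2
    have t1 := (test_ball (h.isSmooth ht) p hx' ((he t ht x).1 1)).2
    have n0 : ‖D (F t) x (e t x 0)‖ ^ 2 = 1 := by rw [(he t ht x).2.1 0]; norm_num
    have n1 : ‖D (F t) x (e t x 1)‖ ^ 2 = 1 := by rw [(he t ht x).2.1 1]; norm_num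
    rw [n0] at t0
    rw [n1] at t1
    show -(9 / 2) - 2 * inner ℝ (F t x - p) (meanCurv (F t) x (e t x)) < 0
    rw [h1]
    linarith

theorem continuous_pg (C : Cf) {t₀ h : ℝ} :
    Continuous (fun q : ℝ × ℝ => C.pg ((q.1 - t₀) / h) (q.2 ^ 2)) := by
  unfold Cf.pg Cf.A0 Cf.A1 Cf.A2 Cf.A3
  fun_prop

theorem continuous_psi (C : Cf) (t₀ h : ℝ) :
    Continuous (fun r : ℝ × E => rho2 r.2 - C.pg ((r.1 - t₀) / h) (r.2 2 ^ 2)) := by
  unfold rho2 Cf.pg Cf.A0 Cf.A1 Cf.A2 Cf.A3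
  fun_prop

theorem psi_continuousOn {F₀ : S → E} {T : ℝ} {F : ℝ → S → E} (hF : IsMCF F₀ T F) (C : Cf)
    {t₀ h : ℝ} :
    ContinuousOn (fun q : ℝ × S => rho2 (F q.1 q.2) -
      C.pg ((q.1 - t₀) / h) (F q.1 q.2 2 ^ 2)) (Ico 0 T ×ˢ univ) := by
  have h1 : ContinuousOn (fun q : ℝ × S => ((q.1, F q.1 q.2) : ℝ × E)) (Ico 0 T ×ˢ univ) :=
    continuousOn_fst.prodMk hF.continuousOn
  exact (continuous_psi C t₀ h).comp_continuousOn h1

theorem psi_hasDeriv {F₀ : S → E} {T : ℝ} {F : ℝ → S → E} (hF : IsMCF F₀ T F) (C : Cf)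
    {t₀ h : ℝ} {e : ℝ → S → Fin 2 → E} (he : ∀ t ∈ Ico 0 T, ∀ x, IsFrame (F t) x (e t x))
    {t : ℝ} (ht : t ∈ Ico 0 T) (x : S) :
    HasDerivWithinAt (fun s => rho2 (F s x) - C.pg ((s - t₀) / h) (F s x 2 ^ 2))
      (inner ℝ (grad (F t x) (2 * F t x 2 * C.pu ((t - t₀) / h) (F t x 2 ^ 2)))
        (meanCurv (F t) x (e t x)) - h⁻¹ * C.pt ((t - t₀) / h) (F t x 2 ^ 2)) (Ico 0 T) t := by
  have h1 := hF.flow t ht x _ (he t ht x)
  have c0 := hasDerivWithinAt_coord h1 0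
  have c1 := hasDerivWithinAt_coord h1 1
  have c2 := hasDerivWithinAt_coord h1 2
  have h2 := ((c0.fun_pow 2).add (c1.fun_pow 2)).sub
    (hasDerivWithinAt_g C (t₀ := t₀) (h := h) c2)
  refine h2.congr_deriv ?_
  rw [inner_grad]
  have e21 : (2 : ℕ) - 1 = 1 := rfl
  rw [e21]
  push_cast
  ring

theorem sq_le_one {a : ℝ} (h : |a| ≤ 1) : a ^ 2 ≤ 1 := by
  rw [← sq_abs]
  have := abs_nonneg a
  nlinarith

theorem outer_step {F₀ : S → E} {T : ℝ} {F : ℝ → S → E} (hF : IsMCF F₀ T F)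
    (hz : ∀ t ∈ Ico 0 T, ∀ x, |F t x 2| ≤ 1) (C : Cf) {t₀ h κ : ℝ} (ht₀ : 0 ≤ t₀) (hh : 0 < h)
    (hκ : 0 < κ)
    (hP : ∀ τ u, 0 ≤ τ → τ ≤ 1 → 0 ≤ u → u ≤ 1 → 0 ≤ C.pP h τ u - h * κ * C.ps τ u)
    (hzz : ∀ τ u, 0 ≤ τ → τ ≤ 1 → 0 ≤ u → u ≤ 1 → C.pzz τ u < 2)
    (h0 : t₀ < T → ∀ x, rho2 (F t₀ x) < C.pg 0 (F t₀ x 2 ^ 2)) :
    ∀ t ∈ Ico 0 T, t₀ ≤ t → t ≤ t₀ + h → ∀ x,
      rho2 (F t x) < C.pg ((t - t₀) / h) (F t x 2 ^ 2) := by
  intro t ht htt₀ htt₁ x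
  obtain ⟨e, he⟩ := hF.frames
  have key := strict_barrier (T := T) (t₁ := t₀ + h) ht₀
    (fun t x => rho2 (F t x) - C.pg ((t - t₀) / h) (F t x 2 ^ 2)) _
    (psi_continuousOn hF C) (fun t ht x => psi_hasDeriv hF C he ht x) ?_ ?_ t ht htt₀ htt₁ x
  · linarith [key]
  · intro x
    have := h0 (htt₀.trans_lt ht.2) x
    simp only [sub_self, zero_div]
    linarith
  · intro t ht h1 h2 x hx h3
    have hτ0 : 0 ≤ (t - t₀) / h := div_nonneg (by linarith) hh.le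
    have hτ1 : (t - t₀) / h ≤ 1 := by
      rw [div_le_one hh]
      linarith
    have hu0 : 0 ≤ F t x 2 ^ 2 := sq_nonneg _
    have hu1 := sq_le_one (hz t ht x)
    refine touch_outer (hF.isSmooth ht) (G := fun z => C.pg ((t - t₀) / h) (z ^ 2))
      (G' := fun z => 2 * z * C.pu ((t - t₀) / h) (z ^ 2))
      (G'' := C.pzz ((t - t₀) / h) (F t x 2 ^ 2)) (κ := κ) (hasDerivAt_g C _)
      (hasDerivAt_gz C _ _) hx (by linarith) (he t ht x) hκ (hzz _ _ hτ0 hτ1 hu0 hu1) ?_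
    have h4 := hP _ _ hτ0 hτ1 hu0 hu1
    have h5 : 0 ≤ h⁻¹ * (C.pP h ((t - t₀) / h) (F t x 2 ^ 2) -
        h * κ * C.ps ((t - t₀) / h) (F t x 2 ^ 2)) := mul_nonneg (inv_nonneg.2 hh.le) h4
    have h6 : h⁻¹ * (C.pP h ((t - t₀) / h) (F t x 2 ^ 2) -
        h * κ * C.ps ((t - t₀) / h) (F t x 2 ^ 2)) =
        h⁻¹ * C.pt ((t - t₀) / h) (F t x 2 ^ 2) * C.ps ((t - t₀) / h) (F t x 2 ^ 2) +
        (2 * C.pg ((t - t₀) / h) (F t x 2 ^ 2) +
          4 * F t x 2 ^ 2 * C.pu ((t - t₀) / h) (F t x 2 ^ 2) ^ 2 -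
          C.pg ((t - t₀) / h) (F t x 2 ^ 2) * C.pzz ((t - t₀) / h) (F t x 2 ^ 2)) -
        κ * C.ps ((t - t₀) / h) (F t x 2 ^ 2) := by
      rw [Cf.pP]
      field_simp
    rw [h6, Cf.ps] at h5
    simp only
    linarith

theorem inner_step {F₀ : S → E} {T : ℝ} {F : ℝ → S → E} (hF : IsMCF F₀ T F)
    (hz : ∀ t ∈ Ico 0 T, ∀ x, |F t x 2| ≤ 1) (C : Cf) {t₀ h κ : ℝ} (ht₀ : 0 ≤ t₀) (hh : 0 < h)
    (hκ : 0 < κ)
    (hP : ∀ τ u, 0 ≤ τ → τ ≤ 1 → 0 ≤ u → u ≤ 1 → 0 ≤ -C.pP h τ u - h * κ * C.ps τ u)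
    (hpt : ∀ τ u, 0 ≤ τ → τ ≤ 1 → 0 ≤ u → u ≤ 1 → C.pt τ u < 0)
    (h0 : t₀ < T → ∀ x, C.pg 0 (F t₀ x 2 ^ 2) < rho2 (F t₀ x)) :
    ∀ t ∈ Ico 0 T, t₀ ≤ t → t ≤ t₀ + h → ∀ x,
      C.pg ((t - t₀) / h) (F t x 2 ^ 2) < rho2 (F t x) := by
  intro t ht htt₀ htt₁ x
  obtain ⟨e, he⟩ := hF.frames
  have key := strict_barrier (T := T) (t₁ := t₀ + h) ht₀
    (fun t x => -(rho2 (F t x) - C.pg ((t - t₀) / h) (F t x 2 ^ 2))) _
    (psi_continuousOn hF C).neg (fun t ht x => (psi_hasDeriv hF C he ht x).neg) ?_ ?_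
    t ht htt₀ htt₁ x
  · linarith [key]
  · intro x
    have := h0 (htt₀.trans_lt ht.2) x
    simp only [sub_self, zero_div]
    linarith
  · intro t ht h1 h2 x hx h3
    have hτ0 : 0 ≤ (t - t₀) / h := div_nonneg (by linarith) hh.le
    have hτ1 : (t - t₀) / h ≤ 1 := by
      rw [div_le_one hh]
      linarith
    have hu0 : 0 ≤ F t x 2 ^ 2 := sq_nonneg _
    have hu1 := sq_le_one (hz t ht x)
    have hneg : h⁻¹ * C.pt ((t - t₀) / h) (F t x 2 ^ 2) < 0 :=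
      mul_neg_of_pos_of_neg (inv_pos.2 hh) (hpt _ _ hτ0 hτ1 hu0 hu1)
    have := touch_inner (hF.isSmooth ht) (G := fun z => C.pg ((t - t₀) / h) (z ^ 2))
      (G' := fun z => 2 * z * C.pu ((t - t₀) / h) (z ^ 2))
      (G'' := C.pzz ((t - t₀) / h) (F t x 2 ^ 2)) (κ := κ)
      (gt := h⁻¹ * C.pt ((t - t₀) / h) (F t x 2 ^ 2)) (hasDerivAt_g C _)
      (hasDerivAt_gz C _ _) (fun y => by linarith [hx y]) (by linarith) (he t ht x) hκ hneg ?_
    · linarith [this]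
    have h4 := hP _ _ hτ0 hτ1 hu0 hu1
    have h5 : 0 ≤ h⁻¹ * (-C.pP h ((t - t₀) / h) (F t x 2 ^ 2) -
        h * κ * C.ps ((t - t₀) / h) (F t x 2 ^ 2)) := mul_nonneg (inv_nonneg.2 hh.le) h4
    have h6 : h⁻¹ * (-C.pP h ((t - t₀) / h) (F t x 2 ^ 2) -
        h * κ * C.ps ((t - t₀) / h) (F t x 2 ^ 2)) =
        -(h⁻¹ * C.pt ((t - t₀) / h) (F t x 2 ^ 2) * C.ps ((t - t₀) / h) (F t x 2 ^ 2) +
        (2 * C.pg ((t - t₀) / h) (F t x 2 ^ 2) +
          4 * F t x 2 ^ 2 * C.pu ((t - t₀) / h) (F t x 2 ^ 2) ^ 2 -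
          C.pg ((t - t₀) / h) (F t x 2 ^ 2) * C.pzz ((t - t₀) / h) (F t x 2 ^ 2))) -
        κ * C.ps ((t - t₀) / h) (F t x 2 ^ 2) := by
      rw [Cf.pP]
      field_simp
    rw [h6, Cf.ps] at h5
    simp only
    linarith

end Pool.Agent.Helper608.WillMCF
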