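import Mathlib
import Pool.Agent.Helper608.WFlow
import Pool.Agent.Helper608.HInit

/-! The initial surface. -/

open Set Metric
open scoped ContDiff

namespace Pool.Agent.Helper608.WillMCF

/-- The square of the stretching factor. -/
noncomputable def w (v : ℝ) : ℝ := 7 / 125 + 29 / 50 * v - 3 / 10 * v ^ 2

/-- The derivative of `w`. -/
noncomputable def w' (v : ℝ) : ℝ := 29 / 50 - 3 / 5 * v

theorem w_pos {v : ℝ} (h0 : 0 ≤ v) (h1 : v ≤ 1) : 0 < w v := by
  unfold w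
  nlinarith

theorem hasDerivAt_w (v : ℝ) : HasDerivAt w (w' v) v := by
  have h := (((hasDerivAt_id v).const_mul (29 / 50)).const_add (7 / 125)).sub
    ((hasDerivAt_pow 2 v).const_mul (3 / 10))
  refine h.congr_deriv ?_
  rw [w']
  norm_num
  ring

/-- The stretching factor. -/
noncomputable def eta (v : ℝ) : ℝ := √(w v)

theorem eta_pos {v : ℝ} (h0 : 0 ≤ v) (h1 : v ≤ 1) : 0 < eta v := Real.sqrt_pos.2 (w_pos h0 h1)

theorem eta_sq {v : ℝ} (h0 : 0 ≤ v) (h1 : v ≤ 1) : eta v ^ 2 = w v := Real.sq_sqrt (w_pos h0 h1).le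

/-- The unit vector in the direction of the axis. -/
noncomputable def ez : E := EuclideanSpace.single 2 1

theorem ez_zero : ez 0 = 0 := by simp [ez]
theorem ez_one : ez 1 = 0 := by simp [ez]
theorem ez_two : ez 2 = 1 := by simp [ez]

/-- The initial surface. -/
noncomputable def F0 (x : S) : E :=
  eta ((x : E) 2 ^ 2) • (x : E) + ((1 - eta ((x : E) 2 ^ 2)) * (x : E) 2) • ez

theorem F0_zero (x : S) : F0 x 0 = eta ((x : E) 2 ^ 2) * (x : E) 0 := by simp [F0, ez_zero]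
theorem F0_one (x : S) : F0 x 1 = eta ((x : E) 2 ^ 2) * (x : E) 1 := by simp [F0, ez_one]
theorem F0_two (x : S) : F0 x 2 = (x : E) 2 := by
  simp [F0, ez_two]
  ring

theorem sum_sq (x : S) : (x : E) 0 ^ 2 + (x : E) 1 ^ 2 + (x : E) 2 ^ 2 = 1 := by
  rw [← norm_sq_three]
  simp

theorem coord_sq_le (x : S) : (x : E) 2 ^ 2 ≤ 1 := by
  have := sum_sq x
  nlinarith [sq_nonneg ((x : E) 0), sq_nonneg ((x : E) 1)]

theorem abs_coord_le (x : S) : |(x : E) 2| ≤ 1 := by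
  rw [← sq_le_one_iff_abs_le_one]
  exact coord_sq_le x

/-- The coefficients of the profile of the initial surface. -/
noncomputable def Cg0 : Cf := ⟨7 / 125, 0, 0, 131 / 250, 0, 0, -22 / 25, 0, 0, 3 / 10, 0, 0⟩

theorem rho2_F0 (x : S) : rho2 (F0 x) = Cg0.pg 0 (F0 x 2 ^ 2) := by
  have h1 := sum_sq x
  have h2 := eta_sq (sq_nonneg ((x : E) 2)) (coord_sq_le x)
  have h3 : rho2 (F0 x) = w ((x : E) 2 ^ 2) * (1 - (x : E) 2 ^ 2) := by
    rw [rho2, F0_zero, F0_one, ← h2]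
    linear_combination (eta ((x : E) 2 ^ 2) ^ 2) * h1
  rw [h3, F0_two, w, Cf.pg, Cf.A0, Cf.A1, Cf.A2, Cf.A3, Cg0]
  ring

theorem contDiffOn_normalize : ContDiffOn ℝ ∞ (fun y : E => ‖y‖⁻¹ • y) {0}ᶜ := by
  have h1 : ContDiffOn ℝ ∞ (fun y : E => ‖y‖⁻¹) {0}ᶜ := by
    intro y hy
    have hy' : y ≠ 0 := hy
    exact ((contDiffAt_norm ℝ hy').inv (norm_ne_zero_iff.2 hy')).contDiffWithinAt
  exact h1.smul contDiffOn_id

theorem F0_smooth : IsSmooth F0 := by
  have h2 := contDiffOn_normalize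
  have h4 : ContDiffOn ℝ ∞ (fun y : E => (‖y‖⁻¹ • y) 2) {0}ᶜ :=
    (EuclideanSpace.proj (𝕜 := ℝ) (2 : Fin 3)).contDiff.comp_contDiffOn h2
  have h3 : ContDiffOn ℝ ∞ (fun y : E => (‖y‖⁻¹ • y) 2 ^ 2) {0}ᶜ := h4.pow 2
  have hle : ∀ y ∈ ({0}ᶜ : Set E), (‖y‖⁻¹ • y) 2 ^ 2 ≤ 1 := by
    intro y hy
    have := coord_sq_le (proj y)
    rwa [coe_proj (by simpa using hy)] at this
  have h5 : ContDiffOn ℝ ∞ (fun y : E => eta ((‖y‖⁻¹ • y) 2 ^ 2)) {0}ᶜ := by
    unfold eta w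
    apply ContDiffOn.sqrt
    · exact (contDiffOn_const.add (contDiffOn_const.mul h3)).sub (contDiffOn_const.mul (h3.pow 2))
    · intro y hy
      exact (w_pos (sq_nonneg _) (hle y hy)).ne'
  have h6 : ContDiffOn ℝ ∞ (fun y : E => eta ((‖y‖⁻¹ • y) 2 ^ 2) • (‖y‖⁻¹ • y) +
      ((1 - eta ((‖y‖⁻¹ • y) 2 ^ 2)) * (‖y‖⁻¹ • y) 2) • ez) {0}ᶜ :=
    (h5.smul h2).add (((contDiffOn_const.sub h5).mul h4).smul contDiffOn_const)
  refine h6.congr (fun y hy => ?_)
  simp only [F0, coe_proj (by simpa using hy : y ≠ 0)]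

theorem hasDerivAt_eta {v : ℝ} (h0 : 0 ≤ v) (h1 : v ≤ 1) :
    HasDerivAt eta (w' v / (2 * eta v)) v :=
  (hasDerivAt_w v).sqrt (w_pos h0 h1).ne'

/-- The factor `k`. -/
noncomputable def kk (x : S) : ℝ := w' ((x : E) 2 ^ 2) * (x : E) 2 / eta ((x : E) 2 ^ 2)

theorem D_F0_coord (x : S) {u : E} (hu : inner ℝ (x : E) u = 0) :
    D F0 (x : E) u 0 = eta ((x : E) 2 ^ 2) * u 0 + kk x * u 2 * (x : E) 0 ∧
    D F0 (x : E) u 1 = eta ((x : E) 2 ^ 2) * u 1 + kk x * u 2 * (x : E) 1 ∧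
    D F0 (x : E) u 2 = u 2 := by
  have h1 := F0_smooth.hasDerivAt (y := (x : E)) u 0 (line_ne_zero x hu 0)
  have hg := HypMCF.hasDerivAt_gc (n := 2) x u 0
  have hp : ∀ s : ℝ, (proj ((x : E) + s • u) : E) = HypMCF.gc (n := 2) x u s := by
    intro s
    rw [coe_proj (line_ne_zero x hu s), HypMCF.norm_line (n := 2) x hu, HypMCF.gc]
  have g0 : HypMCF.gc (n := 2) x u 0 = (x : E) := HypMCF.gc_zero (n := 2) x u
  have g0' : HypMCF.gc' (n := 2) x u 0 = u := HypMCF.gc'_zero (n := 2) x u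
  rw [g0'] at hg
  have hg2 := hasDerivAt_coord hg 2
  have he : HasDerivAt (fun s => eta (HypMCF.gc (n := 2) x u s 2 ^ 2)) (kk x * u 2) 0 := by
    have h2 := hg2.fun_pow 2
    have h3 : HasDerivAt eta (w' (HypMCF.gc (n := 2) x u 0 2 ^ 2) /
        (2 * eta (HypMCF.gc (n := 2) x u 0 2 ^ 2))) (HypMCF.gc (n := 2) x u 0 2 ^ 2) := by
      rw [g0]
      exact hasDerivAt_eta (sq_nonneg _) (coord_sq_le x)
    have h4 := h3.comp (0 : ℝ) h2
    refine h4.congr_deriv ?_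
    rw [g0, kk]
    have hη := eta_pos (sq_nonneg ((x : E) 2)) (coord_sq_le x)
    have e21 : (2 : ℕ) - 1 = 1 := rfl
    rw [e21]
    push_cast
    field_simp
  have key : ∀ i : Fin 3, (i = 0 ∨ i = 1) → D F0 (x : E) u i =
      eta ((x : E) 2 ^ 2) * u i + kk x * u 2 * (x : E) i := by
    intro i hi
    have h2 := hasDerivAt_coord h1 i
    have h3 : (fun s : ℝ => F0 (proj ((x : E) + s • u)) i) =
        fun s => eta (HypMCF.gc (n := 2) x u s 2 ^ 2) * HypMCF.gc (n := 2) x u s i := by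
      funext s
      rcases hi with rfl | rfl
      · rw [F0_zero, hp]
      · rw [F0_one, hp]
    rw [h3] at h2
    have h4 := he.mul (hasDerivAt_coord hg i)
    have h5 := h2.unique h4
    rw [zero_smul, add_zero] at h5
    rw [h5, g0]
    ring
  refine ⟨key 0 (Or.inl rfl), key 1 (Or.inr rfl), ?_⟩
  have h2 := hasDerivAt_coord h1 2
  have h3 : (fun s : ℝ => F0 (proj ((x : E) + s • u)) 2) =
      fun s => HypMCF.gc (n := 2) x u s 2 := by
    funext s
    rw [F0_two, hp]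
  rw [h3] at h2
  have h5 := h2.unique hg2
  rwa [zero_smul, add_zero] at h5

theorem F0_imm : IsImmersion F0 := by
  intro x u hu h
  obtain ⟨h0, h1, h2⟩ := D_F0_coord x hu
  rw [h] at h0 h1 h2
  have hη := eta_pos (sq_nonneg ((x : E) 2)) (coord_sq_le x)
  simp only [PiLp.zero_apply] at h0 h1 h2
  rw [← h2] at h0 h1
  simp only [mul_zero, zero_mul, add_zero] at h0 h1
  have k0 : u 0 = 0 := (mul_eq_zero.1 h0.symm).resolve_left hη.ne'
  have k1 : u 1 = 0 := (mul_eq_zero.1 h1.symm).resolve_left hη.ne'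
  ext i
  fin_cases i
  · exact k0
  · exact k1
  · exact h2.symm

theorem F0_inj : Function.Injective F0 := by
  intro x y hxy
  have h2 : (x : E) 2 = (y : E) 2 := by
    rw [← F0_two, ← F0_two, hxy]
  have hη := eta_pos (sq_nonneg ((x : E) 2)) (coord_sq_le x)
  have h0 : F0 x 0 = F0 y 0 := by rw [hxy]
  have h1 : F0 x 1 = F0 y 1 := by rw [hxy]
  rw [F0_zero, F0_zero, ← h2] at h0
  rw [F0_one, F0_one, ← h2] at h1
  apply Subtype.ext
  ext i
  fin_cases i
  · exact mul_left_cancel₀ hη.ne' h0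
  · exact mul_left_cancel₀ hη.ne' h1
  · exact h2

theorem F0_cont : Continuous F0 := by
  have h1 : Continuous (fun x : S => (x : E)) := continuous_subtype_val
  have h2 := F0_smooth.continuousOn.comp_continuous h1 (fun x => coe_ne_zero x)
  have h3 : (fun y : E => F0 (proj y)) ∘ (fun x : S => (x : E)) = F0 := by
    funext x
    simp only [Function.comp, proj_coe]
  rwa [h3] at h2

end Pool.Agent.Helper608.WillMCF
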