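import Mathlib
import Pool.Agent.Helper608.WSurf
import Pool.Agent.Helper608.WCert_A0
import Pool.Agent.Helper608.WCert_A
import Pool.Agent.Helper608.WCert_U

/-! The energy density of the initial surface. -/

open Set Metric
open scoped ContDiff

namespace Pool.Agent.Helper608.WillMCF

theorem parseval_gen {v : Fin 2 → E} (hv : Orthonormal ℝ v) {N : E}
    (hN : ∀ i, inner ℝ N (v i) = 0) (hN1 : ‖N‖ = 1) (y z : E) :
    inner ℝ y z = inner ℝ y (v 0) * inner ℝ (v 0) z + inner ℝ y (v 1) * inner ℝ (v 1) z +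
      inner ℝ y N * inner ℝ N z := by
  have hv' := orthonormal_iff_ite.1 hv
  have h00 := hv' 0 0
  have h01 := hv' 0 1
  have h10 := hv' 1 0
  have h11 := hv' 1 1
  simp only [if_true, Fin.isValue, zero_ne_one, one_ne_zero, if_false] at h00 h01 h10 h11
  have hN' : ∀ i, inner ℝ (v i) N = 0 := fun i => by rw [real_inner_comm, hN]
  have hon : Orthonormal ℝ ![v 0, v 1, N] := by
    rw [orthonormal_iff_ite]
    intro i j
    fin_cases i <;> fin_cases j <;> simp [hN, hN', hN1, h01, h10, hv.1 0, hv.1 1]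
  have hsp : ⊤ ≤ Submodule.span ℝ (range ![v 0, v 1, N]) :=
    (hon.linearIndependent.span_eq_top_of_card_eq_finrank (by simp)).ge
  have h := (OrthonormalBasis.mk hon hsp).sum_inner_mul_inner y z
  rw [Fin.sum_univ_three] at h
  simp only [OrthonormalBasis.coe_mk, Matrix.cons_val_zero, Matrix.cons_val_one,
    Matrix.cons_val] at h
  exact h.symm

theorem normal_parallel {v : Fin 2 → E} (hv : Orthonormal ℝ v) {N H : E}
    (hN : ∀ i, inner ℝ N (v i) = 0) (hH : ∀ i, inner ℝ H (v i) = 0) (hN0 : N ≠ 0) :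
    inner ℝ N H ^ 2 = ‖N‖ ^ 2 * ‖H‖ ^ 2 := by
  have hn : ‖N‖ ≠ 0 := norm_ne_zero_iff.2 hN0
  have h := parseval_gen hv (N := ‖N‖⁻¹ • N) (fun i => by
    rw [real_inner_smul_left, hN, mul_zero]) (by
    rw [norm_smul, norm_inv, norm_norm, inv_mul_cancel₀ hn]) H H
  rw [hH, hH, real_inner_self_eq_norm_sq, real_inner_smul_right, real_inner_smul_left,
    real_inner_comm] at h
  rw [h, real_inner_comm]
  field_simp
  ring

theorem nor_orth {F : S → E} {x : S} {e : Fin 2 → E} (he : IsFrame F x e) (y : E) (i : Fin 2) :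
    inner ℝ (nor F x e y) (D F x (e i)) = 0 := by
  have hv' := orthonormal_iff_ite.1 he.2
  rw [nor, inner_sub_left, sum_inner]
  simp only [real_inner_smul_left]
  have : ∀ j, inner ℝ y (D F x (e j)) * inner ℝ (D F x (e j)) (D F x (e i)) =
      if j = i then inner ℝ y (D F x (e j)) else 0 := by
    intro j
    rw [hv' j i]
    split_ifs <;> simp
  simp only [this, Finset.sum_ite_eq', Finset.mem_univ, if_true, sub_self]

theorem meanCurv_orth {F : S → E} {x : S} {e : Fin 2 → E} (he : IsFrame F x e) (i : Fin 2) :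
    inner ℝ (meanCurv F x e) (D F x (e i)) = 0 := by
  rw [meanCurv, sum_inner]
  exact Finset.sum_eq_zero (fun j _ => nor_orth he _ _)

theorem pA_nonneg {u : ℝ} (h0 : 0 ≤ u) (h1 : u ≤ 1) : 0 ≤ pA u := by
  have := certA0 u h0 h1
  unfold pA
  linarith

theorem pA_sq {u : ℝ} (h0 : 0 ≤ u) (h1 : u ≤ 1) : 1 ≤ pA u ^ 2 * Cg0.ps 0 u := by
  have h := certA u h0 h1
  have e : pA u ^ 2 * Cg0.ps 0 u - 1 =
      pA u ^ 2 * Cg0.ps 0 u - 1 := rfl
  rw [← sub_nonneg]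
  convert h using 1
  simp only [pA, Cf.ps, Cf.pg, Cf.pu, Cf.A0, Cf.A1, Cf.A2, Cf.A3, Cg0]
  ring

/-- The numerator of the energy density. -/
noncomputable def pN (u : ℝ) : ℝ := 2 * Cg0.ps 0 u - Cg0.pg 0 u * (1 + Cg0.pzz 0 u / 2)

theorem pU_le {u : ℝ} (h0 : 0 ≤ u) (h1 : u ≤ 1) :
    pN u ^ 2 * pA u ≤ pU u * Cg0.ps 0 u ^ 2 := by
  have h := certU u h0 h1
  rw [← sub_nonneg]
  convert h using 1
  simp only [pN, pU, pA, Cf.ps, Cf.pg, Cf.pu, Cf.pzz, Cf.A0, Cf.A1, Cf.A2, Cf.A3, Cg0]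
  ring

theorem s_pos {u : ℝ} (h0 : 0 ≤ u) (h1 : u ≤ 1) : 0 < Cg0.ps 0 u := by
  have h := pA_sq h0 h1
  by_contra hcon
  push Not at hcon
  have := mul_nonneg (sq_nonneg (pA u)) (neg_nonneg.2 hcon)
  linarith

theorem norm_H {x : S} {e : Fin 2 → E} (he : IsFrame F0 x e) :
    ‖meanCurv F0 x e‖ ^ 2 * Cg0.ps 0 ((x : E) 2 ^ 2) ^ 3 = pN ((x : E) 2 ^ 2) ^ 2 := by
  have hs := s_pos (sq_nonneg ((x : E) 2)) (coord_sq_le x)
  have hr := rho2_F0 x
  obtain ⟨k, -, -, hk, hle⟩ := touch_trace (σ := 1) F0_smooth one_ne_zero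
    (G := fun z => Cg0.pg 0 (z ^ 2)) (hasDerivAt_g Cg0 0) (hasDerivAt_gz Cg0 0 (F0 x 2))
    (fun y => by simp only [rho2_F0, sub_self, le_refl]) he
  obtain ⟨k', -, -, hk', hge⟩ := touch_trace (σ := -1) F0_smooth (by norm_num)
    (G := fun z => Cg0.pg 0 (z ^ 2)) (hasDerivAt_g Cg0 0) (hasDerivAt_gz Cg0 0 (F0 x 2))
    (fun y => by simp only [rho2_F0, sub_self, le_refl]) he
  have h4s : 4 * rho2 (F0 x) + (2 * F0 x 2 * Cg0.pu 0 (F0 x 2 ^ 2)) ^ 2 =
      4 * Cg0.ps 0 (F0 x 2 ^ 2) := by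
    rw [hr, Cf.ps]
    ring
  rw [h4s] at hk hk'
  rw [hr, F0_two] at hk hk'
  have hN0 : grad (F0 x) (2 * F0 x 2 * Cg0.pu 0 (F0 x 2 ^ 2)) ≠ 0 := by
    intro hcon
    have h1 := norm_grad_sq (F0 x) (2 * F0 x 2 * Cg0.pu 0 (F0 x 2 ^ 2))
    rw [hcon, norm_zero, h4s, F0_two] at h1
    linarith
  have hNe : ∀ i, inner ℝ (grad (F0 x) (2 * F0 x 2 * Cg0.pu 0 (F0 x 2 ^ 2)))
      (D F0 x (e i)) = 0 := by
    intro i
    have := (touch_test (σ := 1) F0_smooth (G := fun z => Cg0.pg 0 (z ^ 2)) (hasDerivAt_g Cg0 0)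
      (hasDerivAt_gz Cg0 0 (F0 x 2)) (fun y => by simp only [rho2_F0, sub_self, le_refl]) (he.1 i)).1
    rw [inner_grad]
    linarith
  have hpar := normal_parallel he.2 hNe (fun i => meanCurv_orth he i) hN0
  rw [norm_grad_sq, h4s] at hpar
  set I := inner ℝ (grad (F0 x) (2 * F0 x 2 * Cg0.pu 0 (F0 x 2 ^ 2))) (meanCurv F0 x e) with hI
  rw [F0_two] at hle hge hpar
  set u := (x : E) 2 ^ 2 with hu
  set s := Cg0.ps 0 u with hsdef
  set g := Cg0.pg 0 u with hgdef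
  have hkk : k = k' := by
    have : k * (4 * s) = k' * (4 * s) := by rw [hk, hk']
    exact mul_right_cancel₀ (by positivity) this
  rw [← hkk] at hge
  have hIeq : I = -(4 - (2 + Cg0.pzz 0 u) * k) := by linarith
  have hks : k * s = g := by linarith
  have h5 : I * s = -2 * pN u := by
    rw [hIeq, pN, ← hsdef, ← hgdef]
    linear_combination (2 + Cg0.pzz 0 u) * hks
  have h6 : (I * s) ^ 2 = 4 * (‖meanCurv F0 x e‖ ^ 2 * s ^ 3) := by
    rw [mul_pow, hpar]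
    ring
  rw [h5] at h6
  linarith

theorem cross_onb {x : S} {b : Fin 2 → E} (hb : IsONB x b) :
    ∃ d : ℝ, d ^ 2 = 1 ∧ b 0 1 * b 1 2 - b 0 2 * b 1 1 = d * (x : E) 0 ∧
      b 0 2 * b 1 0 - b 0 0 * b 1 2 = d * (x : E) 1 ∧
      b 0 0 * b 1 1 - b 0 1 * b 1 0 = d * (x : E) 2 := by
  have hin : ∀ x y : E, inner ℝ x y = x 0 * y 0 + x 1 * y 1 + x 2 * y 2 := by
    intro x y
    rw [PiLp.inner_apply, Fin.sum_univ_three]
    simp
    ring
  set c : E := !₂[b 0 1 * b 1 2 - b 0 2 * b 1 1, b 0 2 * b 1 0 - b 0 0 * b 1 2,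
    b 0 0 * b 1 1 - b 0 1 * b 1 0] with hc
  have hv' := orthonormal_iff_ite.1 hb.2
  have h00 := hv' 0 0
  have h01 := hv' 0 1
  have h11 := hv' 1 1
  simp only [if_true, Fin.isValue, zero_ne_one, if_false] at h00 h01 h11
  rw [hin] at h00 h01 h11
  have hc0 : c 0 = b 0 1 * b 1 2 - b 0 2 * b 1 1 := by simp [hc]
  have hc1 : c 1 = b 0 2 * b 1 0 - b 0 0 * b 1 2 := by simp [hc]
  have hc2 : c 2 = b 0 0 * b 1 1 - b 0 1 * b 1 0 := by simp [hc]
  have hcb0 : inner ℝ c (b 0) = 0 := by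
    rw [hin, hc0, hc1, hc2]
    ring
  have hcb1 : inner ℝ c (b 1) = 0 := by
    rw [hin, hc0, hc1, hc2]
    ring
  have key : ∀ z : E, inner ℝ c z = inner ℝ c (x : E) * inner ℝ (x : E) z := by
    intro z
    have h := parseval_gen hb.2 (N := (x : E)) hb.1 (by simp) c z
    rw [hcb0, hcb1] at h
    linarith
  have hcc : inner ℝ c c = 1 := by
    rw [hin, hc0, hc1, hc2]
    linear_combination (b 1 0 * b 1 0 + b 1 1 * b 1 1 + b 1 2 * b 1 2) * h00 + h11 -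
      (b 0 0 * b 1 0 + b 0 1 * b 1 1 + b 0 2 * b 1 2) * h01
  refine ⟨inner ℝ c (x : E), ?_, ?_, ?_, ?_⟩
  · have h1 := key c
    rw [hcc, real_inner_comm] at h1
    rw [real_inner_comm, sq]
    exact h1.symm
  · have h1 := key (EuclideanSpace.single 0 1)
    rw [EuclideanSpace.inner_single_right, EuclideanSpace.inner_single_right] at h1
    simpa [hc0] using h1
  · have h1 := key (EuclideanSpace.single 1 1)
    rw [EuclideanSpace.inner_single_right, EuclideanSpace.inner_single_right] at h1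
    simpa [hc1] using h1
  · have h1 := key (EuclideanSpace.single 2 1)
    rw [EuclideanSpace.inner_single_right, EuclideanSpace.inner_single_right] at h1
    simpa [hc2] using h1

theorem areaDensity_F0 {x : S} {b : Fin 2 → E} (hb : IsONB x b) :
    areaDensity F0 x b = √(Cg0.ps 0 ((x : E) 2 ^ 2)) := by
  have hin : ∀ x y : E, inner ℝ x y = x 0 * y 0 + x 1 * y 1 + x 2 * y 2 := by
    intro x y
    rw [PiLp.inner_apply, Fin.sum_univ_three]
    simp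
    ring
  obtain ⟨d, hd, k0, k1, k2⟩ := cross_onb hb
  obtain ⟨p0, p1, p2⟩ := D_F0_coord x (hb.1 0)
  obtain ⟨q0, q1, q2⟩ := D_F0_coord x (hb.1 1)
  have hη := eta_pos (sq_nonneg ((x : E) 2)) (coord_sq_le x)
  have hη2 := eta_sq (sq_nonneg ((x : E) 2)) (coord_sq_le x)
  have hk : eta ((x : E) 2 ^ 2) * kk x = w' ((x : E) 2 ^ 2) * (x : E) 2 := by
    rw [kk]
    field_simp
  have hsum := sum_sq x
  rw [areaDensity, Matrix.det_fin_two]
  congr 1
  simp only [Matrix.of_apply, hin, p0, p1, p2, q0, q1, q2]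
  set η := eta ((x : E) 2 ^ 2) with hηdef
  set k := kk x with hkdef
  have e1 : (Cg0.ps 0 ((x : E) 2 ^ 2)) = w ((x : E) 2 ^ 2) * (1 - (x : E) 2 ^ 2) +
      (w ((x : E) 2 ^ 2) * (x : E) 2 -
        w' ((x : E) 2 ^ 2) * (x : E) 2 * (1 - (x : E) 2 ^ 2)) ^ 2 := by
    simp only [w, w', Cf.ps, Cf.pg, Cf.pu, Cf.A0, Cf.A1, Cf.A2, Cf.A3, Cg0]
    ring
  have e2 : 1 - (x : E) 2 ^ 2 = (x : E) 0 ^ 2 + (x : E) 1 ^ 2 := by linarith
  rw [e1, e2, ← hη2, ← hk]
  have e3 : η ^ 2 * ((x : E) 0 ^ 2 + (x : E) 1 ^ 2) +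
      (η ^ 2 * (x : E) 2 - η * k * ((x : E) 0 ^ 2 + (x : E) 1 ^ 2)) ^ 2 =
      (η * (d * (x : E) 0)) ^ 2 + (η * (d * (x : E) 1)) ^ 2 +
      (η ^ 2 * (d * (x : E) 2) - η * k * ((x : E) 0 * (d * (x : E) 0) +
        (x : E) 1 * (d * (x : E) 1))) ^ 2 := by
    linear_combination (-(η ^ 2 * ((x : E) 0 ^ 2 + (x : E) 1 ^ 2) +
      (η ^ 2 * (x : E) 2 - η * k * ((x : E) 0 ^ 2 + (x : E) 1 ^ 2)) ^ 2)) * hd
  rw [e3, ← k0, ← k1, ← k2]
  ring

theorem density_le {x : S} {e b : Fin 2 → E} (he : IsFrame F0 x e) (hb : IsONB x b) :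
    ‖meanCurv F0 x e‖ ^ 2 * areaDensity F0 x b ≤ pU ((x : E) 2 ^ 2) := by
  have hs := s_pos (sq_nonneg ((x : E) 2)) (coord_sq_le x)
  have h1 := norm_H he
  have h2 := pA_sq (sq_nonneg ((x : E) 2)) (coord_sq_le x)
  have h3 := pU_le (sq_nonneg ((x : E) 2)) (coord_sq_le x)
  have h4 := pA_nonneg (sq_nonneg ((x : E) 2)) (coord_sq_le x)
  rw [areaDensity_F0 hb]
  set u := (x : E) 2 ^ 2 with hu
  set s := Cg0.ps 0 u with hsdef
  have hr : √s ^ 2 = s := Real.sq_sqrt hs.le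
  have hr0 : 0 < √s := Real.sqrt_pos.2 hs
  have h5 : 1 ≤ pA u * √s := by
    have : 1 ≤ (pA u * √s) ^ 2 := by
      rw [mul_pow, hr]
      exact h2
    have h6 : 0 ≤ pA u * √s := by positivity
    nlinarith
  have h6 : √s ≤ pA u * s := by
    calc √s = √s * 1 := by ring
      _ ≤ √s * (pA u * √s) := mul_le_mul_of_nonneg_left h5 hr0.le
      _ = pA u * s := by rw [← hr]; ring_nf; rw [Real.sq_sqrt (by positivity)]
  have h7 : ‖meanCurv F0 x e‖ ^ 2 * √s * s ^ 3 ≤ pU u * s ^ 3 := by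
    calc ‖meanCurv F0 x e‖ ^ 2 * √s * s ^ 3 = pN u ^ 2 * √s := by rw [← h1]; ring
      _ ≤ pN u ^ 2 * (pA u * s) := mul_le_mul_of_nonneg_left h6 (sq_nonneg _)
      _ = pN u ^ 2 * pA u * s := by ring
      _ ≤ pU u * s ^ 2 * s := mul_le_mul_of_nonneg_right h3 hs.le
      _ = pU u * s ^ 3 := by ring
  exact le_of_mul_le_mul_right h7 (by positivity)

end Pool.Agent.Helper608.WillMCF
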