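import Mathlib
import Pool.Agent.Helper608.WSurf
import Pool.Agent.Helper608.HTop
import Pool.Agent.Helper608.HAbs

/-! The topological part of the argument. -/

open Set Metric
open scoped ContDiff

namespace Pool.Agent.Helper608.WillMCF

/-- Homotopy of maps of the sphere into the punctured space. -/
abbrev Hom (f g : S → E) : Prop := HypMCF.Hom (n := 2) f g

theorem coord_ne (x : S) (h0 : (x : E) 0 = 0) (h1 : (x : E) 1 = 0) (h2 : (x : E) 2 ^ 2 < 1) :
    False := by
  have := sum_sq x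
  rw [h0, h1] at this
  linarith

theorem hom_id_F0 : Hom (fun x : S => (x : E)) F0 := by
  have h := HypMCF.Hom.of (n := 2) (zero_le_one (α := ℝ))
    (fun s (x : S) => (1 - s) • (x : E) + s • F0 x) ?_ ?_
  · simp only [sub_zero, one_smul, zero_smul, add_zero, sub_self, zero_add] at h
    exact h
  · have := F0_cont
    apply Continuous.continuousOn
    fun_prop
  · intro s hs x hcon
    have hη := eta_pos (sq_nonneg ((x : E) 2)) (coord_sq_le x)
    have e0 := congrArg (fun y : E => y 0) hcon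
    have e1 := congrArg (fun y : E => y 1) hcon
    have e2 := congrArg (fun y : E => y 2) hcon
    simp only [PiLp.add_apply, PiLp.smul_apply, F0_zero, F0_one, F0_two, smul_eq_mul,
      PiLp.zero_apply] at e0 e1 e2
    have hf : 0 < (1 - s) + s * eta ((x : E) 2 ^ 2) := by
      rcases hs.1.lt_or_eq with h | h
      · have := mul_pos h hη
        linarith [hs.2]
      · rw [← h]
        norm_num
    have k0 : (x : E) 0 = 0 := by
      have : ((1 - s) + s * eta ((x : E) 2 ^ 2)) * (x : E) 0 = 0 := by linarith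
      exact (mul_eq_zero.1 this).resolve_left hf.ne'
    have k1 : (x : E) 1 = 0 := by
      have : ((1 - s) + s * eta ((x : E) 2 ^ 2)) * (x : E) 1 = 0 := by linarith
      exact (mul_eq_zero.1 this).resolve_left hf.ne'
    have k2 : (x : E) 2 = 0 := by linarith
    exact coord_ne x k0 k1 (by rw [k2]; norm_num)

theorem hom_F0_sub {c : ℝ} (hc : |c| < 1) : Hom F0 (fun x => F0 x - c • ez) := by
  have h := HypMCF.Hom.of (n := 2) (zero_le_one (α := ℝ))
    (fun s (x : S) => F0 x - s • (c • ez)) ?_ ?_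
  · simp only [zero_smul, sub_zero, one_smul] at h
    exact h
  · have := F0_cont
    apply Continuous.continuousOn
    fun_prop
  · intro s hs x hcon
    have hη := eta_pos (sq_nonneg ((x : E) 2)) (coord_sq_le x)
    have e0 := congrArg (fun y : E => y 0) hcon
    have e1 := congrArg (fun y : E => y 1) hcon
    have e2 := congrArg (fun y : E => y 2) hcon
    simp only [PiLp.sub_apply, PiLp.smul_apply, F0_zero, F0_one, F0_two, smul_eq_mul,
      PiLp.zero_apply, ez_zero, ez_one, ez_two, mul_zero, sub_zero, mul_one] at e0 e1 e2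
    have k0 : (x : E) 0 = 0 := (mul_eq_zero.1 e0).resolve_left hη.ne'
    have k1 : (x : E) 1 = 0 := (mul_eq_zero.1 e1).resolve_left hη.ne'
    have k2 : (x : E) 2 = s * c := by linarith
    refine coord_ne x k0 k1 ?_
    rw [k2, sq_lt_one_iff_abs_lt_one, abs_mul, abs_of_nonneg hs.1]
    calc s * |c| ≤ 1 * |c| := mul_le_mul_of_nonneg_right hs.2 (abs_nonneg _)
      _ < 1 := by linarith

theorem hom_flow {F₀ : S → E} {T : ℝ} {F : ℝ → S → E} (h : IsMCF F₀ T F) (p : E)
    {t : ℝ} (ht : t ∈ Ico 0 T) (hm : ∀ s ∈ Icc 0 t, ∀ x, F s x ≠ p) :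
    Hom (fun x => F₀ x - p) (fun x => F t x - p) := by
  have h1 := HypMCF.Hom.of (n := 2) ht.1 (fun s x => F s x - p) ?_ ?_
  · rw [h.init] at h1
    exact h1
  · have h2 : ContinuousOn (fun q : ℝ × S => F q.1 q.2) (Icc 0 t ×ˢ univ) :=
      h.continuousOn.mono (prod_mono (fun s hs => ⟨hs.1, hs.2.trans_lt ht.2⟩) subset_rfl)
    exact h2.sub continuousOn_const
  · intro s hs x hcon
    exact hm s hs x (sub_eq_zero.1 hcon)

theorem cont_t {F₀ : S → E} {T : ℝ} {F : ℝ → S → E} (h : IsMCF F₀ T F) {t : ℝ}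
    (ht : t ∈ Ico 0 T) : Continuous (F t) :=
  h.continuousOn.comp_continuous (f := fun x : S => (t, x)) (by fun_prop)
    (fun x => ⟨ht, mem_univ _⟩)

/-- The limit point of a shrinking flow satisfies closed conditions. -/
theorem limit_ge {T : ℝ} {F : ℝ → S → E} (hT : 0 < T) {o : E}
    (hlim : ∀ ε > 0, ∃ δ > 0, ∀ t ∈ Ico 0 T, T - δ < t → ∀ x, ‖F t x - o‖ < ε)
    (Ψ : ℝ × E → ℝ) (hΨ : Continuous Ψ) {t₀ : ℝ} (ht₀ : t₀ < T)
    (h : ∀ t ∈ Ico 0 T, t₀ ≤ t → ∀ x, 0 ≤ Ψ (t, F t x)) : 0 ≤ Ψ (T, o) := by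
  by_contra hcon
  push Not at hcon
  have hev : ∀ᶠ p in nhds (T, o), Ψ p < 0 := hΨ.continuousAt.eventually_lt_const hcon
  obtain ⟨ε, hε, hε2⟩ := Metric.eventually_nhds_iff.1 hev
  obtain ⟨δ, hδ, hδ2⟩ := hlim ε hε
  set t := max (max 0 t₀) (max (T - δ / 2) (T - ε / 2)) with ht
  have h1 : 0 ≤ t := (le_max_left _ _).trans (le_max_left _ _)
  have h2 : t₀ ≤ t := (le_max_right _ _).trans (le_max_left _ _)
  have h3 : T - δ / 2 ≤ t := (le_max_left _ _).trans (le_max_right _ _)
  have h4 : T - ε / 2 ≤ t := (le_max_right _ _).trans (le_max_right _ _)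
  have h5 : t < T := max_lt (max_lt hT ht₀) (max_lt (by linarith) (by linarith))
  have h6 := hδ2 t ⟨h1, h5⟩ (by linarith) pole
  have h7 := h t ⟨h1, h5⟩ h2 pole
  have h8 := hε2 (y := (t, F t pole)) (by
    rw [Prod.dist_eq]
    apply max_lt
    · rw [Real.dist_eq, abs_lt]
      constructor <;> linarith
    · rwa [dist_eq_norm])
  linarith

theorem shrink_contra {F₀ : S → E} {T : ℝ} {F : ℝ → S → E} (h : IsMCF F₀ T F) {p o : E}
    (hlim : ∀ ε > 0, ∃ δ > 0, ∀ t ∈ Ico 0 T, T - δ < t → ∀ x, ‖F t x - o‖ < ε)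
    (hop : o ≠ p) (hm : ∀ s ∈ Ico 0 T, ∀ x, F s x ≠ p)
    (hh : Hom (fun x : S => (x : E)) (fun x => F₀ x - p)) : False := by
  have h3 : 0 < ‖o - p‖ := norm_pos_iff.2 (sub_ne_zero.2 hop)
  obtain ⟨δ, hδ, hδ2⟩ := hlim _ h3
  have hT := h.pos
  have hs : max 0 (T - δ / 2) ∈ Ico 0 T := ⟨le_max_left _ _, max_lt hT (by linarith)⟩
  have hs2 : T - δ < max 0 (T - δ / 2) := lt_of_lt_of_le (by linarith) (le_max_right _ _)
  set t := max 0 (T - δ / 2) with htdef
  have h4 := hδ2 t hs hs2
  have h5 : Hom (fun x => F₀ x - p) (fun x => F t x - p) :=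
    hom_flow h p hs (fun s hs' x => hm s ⟨hs'.1, hs'.2.trans_lt hs.2⟩ x)
  have h6 : Hom (fun x => F t x - p) (fun _ => o - p) := by
    have h7 := HypMCF.Hom.of (n := 2) zero_le_one
      (fun s x => (o - p) + (1 - s) • (F t x - o)) ?_ ?_
    · have e1 : (fun x : S => (o - p) + (1 - (0 : ℝ)) • (F t x - o)) =
          fun x => F t x - p := by
        funext x
        rw [sub_zero, one_smul]
        abel
      have e2 : (fun x : S => (o - p) + (1 - (1 : ℝ)) • (F t x - o)) =
          fun x => o - p := by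
        funext x
        rw [sub_self, zero_smul, add_zero]
      rw [e1, e2] at h7
      exact h7
    · have h8 := cont_t h hs
      apply Continuous.continuousOn
      exact continuous_const.add ((continuous_const.sub continuous_fst).smul
        ((h8.comp continuous_snd).sub continuous_const))
    · intro s hs' x hcon
      have h8 : ‖(1 - s) • (F t x - o)‖ < ‖o - p‖ := by
        rw [norm_smul]
        have h10 : ‖(1 : ℝ) - s‖ ≤ 1 := by
          rw [Real.norm_eq_abs, abs_le]
          constructor <;> linarith [hs'.1, hs'.2]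
        calc ‖(1 : ℝ) - s‖ * ‖F t x - o‖ ≤ 1 * ‖F t x - o‖ := by
              apply mul_le_mul h10 le_rfl (norm_nonneg _) zero_le_one
          _ < _ := by
              rw [one_mul]
              exact h4 x
      have h9 : o - p = - ((1 - s) • (F t x - o)) := eq_neg_of_add_eq_zero_left hcon
      rw [h9, norm_neg] at h8
      exact lt_irrefl _ h8
  exact HypMCF.not_hom_const (n := 2) _ (hh.trans (h5.trans h6))

/-- If all the points of the image lie on the other side of `{z = 0}` than `p`, the map is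
null-homotopic in the complement of `p`. -/
theorem hom_side {G : S → E} (hG : Continuous G) {p : E} {c : ℝ} (hc : c ≠ 0)
    (hside : ∀ x, 0 < c * (G x 2 - p 2)) :
    Hom (fun x => G x - p) (fun _ => c • ez) := by
  have h7 := HypMCF.Hom.of (n := 2) zero_le_one
    (fun s (x : S) => (1 - s) • (G x - p) + s • (c • ez)) ?_ ?_
  · simp only [sub_zero, one_smul, zero_smul, add_zero, sub_self, zero_add] at h7
    exact h7
  · apply Continuous.continuousOn
    fun_prop
  · intro s hs x hcon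
    have h1 := congrArg (fun y : E => y 2) hcon
    simp only [PiLp.add_apply, PiLp.smul_apply, PiLp.sub_apply, ez_two,
      PiLp.zero_apply, smul_eq_mul, mul_one] at h1
    have h2 := hside x
    have h3 : c * ((1 - s) * (G x 2 - p 2) + s * c) = 0 := by rw [h1, mul_zero]
    have h4 : 0 < c ^ 2 := by positivity
    rcases hs.1.lt_or_eq with h | h
    · nlinarith [mul_nonneg (sub_nonneg.2 hs.2) h2.le, mul_pos h h4]
    · rw [← h] at h3
      nlinarith

theorem time_contra {F₀ : S → E} {T : ℝ} {F : ℝ → S → E}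
    (h : IsMCF F₀ T F) {p₁ p₂ : E} (hz₁ : 0 < p₁ 2) (hz₂ : p₂ 2 < 0) {t : ℝ}
    (ht : t ∈ Ico 0 T)
    (hm₁ : ∀ s ∈ Icc 0 t, ∀ x, F s x ≠ p₁)
    (hm₂ : ∀ s ∈ Icc 0 t, ∀ x, F s x ≠ p₂)
    (hq : ∀ x, F t x 2 ≠ 0)
    (hh₁ : Hom (fun x : S => (x : E)) (fun x => F₀ x - p₁))
    (hh₂ : Hom (fun x : S => (x : E)) (fun x => F₀ x - p₂)) : False := by
  have hG := cont_t h ht
  have hc : Continuous (fun x : S => F t x 2) := by fun_prop
  have := HypMCF.sphere_connected (n := 2) (by norm_num)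
  have hsign : (∀ x, 0 < F t x 2) ∨ (∀ x, F t x 2 < 0) := by
    by_contra hcon
    push Not at hcon
    obtain ⟨⟨x, hx⟩, ⟨y, hy⟩⟩ := hcon
    have h1 : (0 : ℝ) ∈ range (fun x : S => F t x 2) :=
      mem_range_of_exists_le_of_exists_ge hc ⟨x, hx⟩ ⟨y, hy⟩
    obtain ⟨w, hw⟩ := h1
    exact hq w hw
  rcases hsign with hs | hs
  · exact HypMCF.not_hom_const (n := 2) _ (hh₂.trans ((hom_flow h p₂ ht hm₂).trans
      (hom_side hG (p := p₂) one_ne_zero (fun x => by linarith [hs x]))))
  · exact HypMCF.not_hom_const (n := 2) _ (hh₁.trans ((hom_flow h p₁ ht hm₁).trans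
      (hom_side hG (p := p₁) (c := -1) (by norm_num) (fun x => by linarith [hs x]))))

end Pool.Agent.Helper608.WillMCF
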