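import Mathlib
import Pool.Agent.Helper608.WTop
import Pool.Agent.Helper608.WCert_o0
import Pool.Agent.Helper608.WCert_o1
import Pool.Agent.Helper608.WCert_i0
import Pool.Agent.Helper608.WCert_i1
import Pool.Agent.Helper608.WCert_zo0
import Pool.Agent.Helper608.WCert_zo1
import Pool.Agent.Helper608.WCert_ti0
import Pool.Agent.Helper608.WCert_ti1
import Pool.Agent.Helper608.WCert_ball

/-! The mean curvature flow of the initial surface does not shrink to a point. -/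

open Set Metric
open scoped ContDiff

namespace Pool.Agent.Helper608.WillMCF

/-- First outer barrier. -/
noncomputable def Co0 : Cf := ⟨561 / 10000, -1649 / 100000, -366 / 100000,
  524 / 1000, -26331 / 100000, 5599 / 100000,
  -88 / 100, 61565 / 100000, -8561 / 100000,
  3 / 10, -40606 / 100000, 4032 / 100000⟩

/-- Second outer barrier. -/
noncomputable def Co1 : Cf := ⟨3595 / 100000, -3224 / 100000, -371 / 100000,
  31668 / 100000, -19355 / 100000, 4319 / 100000,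
  -34996 / 100000, 48724 / 100000, 25377 / 100000,
  -6574 / 100000, -3333 / 10000, -28311 / 100000⟩

/-- First inner barrier. -/
noncomputable def Ci0 : Cf := ⟨559 / 10000, -3105 / 100000, -544 / 100000,
  524 / 1000, -31116 / 100000, 6074 / 100000,
  -88 / 100, 43334 / 100000, -12121 / 100000,
  3 / 10, -209 / 1000, 6095 / 100000⟩

/-- Second inner barrier. -/
noncomputable def Ci1 : Cf := ⟨1941 / 100000, -1712 / 100000, -229 / 100000,
  27358 / 100000, -8345 / 100000, 2956 / 100000,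
  -56787 / 100000, 15769 / 100000, -1275 / 10000,
  15195 / 100000, -19899 / 100000, 13536 / 100000⟩

theorem cert_o0 (τ u : ℝ) (h1 : 0 ≤ τ) (h2 : τ ≤ 1) (h3 : 0 ≤ u) (h4 : u ≤ 1) :
    0 ≤ Co0.pP (177 / 10000) τ u - 177 / 10000 * (1 / 500) * Co0.ps τ u := by
  have h := Ro0_nonneg τ u h1 h2 h3 h4
  have e : Co0.pP (177 / 10000) τ u - 177 / 10000 * (1 / 500) * Co0.ps τ u = Ro0 τ u := by
    simp only [Cf.pP, Cf.ps, Cf.pt, Cf.pg, Cf.pu, Cf.pzz, Cf.A0, Cf.A1, Cf.A2, Cf.A3, Co0, Ro0]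
    ring
  rwa [e]

theorem cert_o1 (τ u : ℝ) (h1 : 0 ≤ τ) (h2 : τ ≤ 1) (h3 : 0 ≤ u) (h4 : u ≤ 1) :
    0 ≤ Co1.pP (239 / 10000) τ u - 239 / 10000 * (1 / 500) * Co1.ps τ u := by
  have h := Ro1_nonneg τ u h1 h2 h3 h4
  have e : Co1.pP (239 / 10000) τ u - 239 / 10000 * (1 / 500) * Co1.ps τ u = Ro1 τ u := by
    simp only [Cf.pP, Cf.ps, Cf.pt, Cf.pg, Cf.pu, Cf.pzz, Cf.A0, Cf.A1, Cf.A2, Cf.A3, Co1, Ro1]
    ring
  rwa [e]

theorem cert_i0 (τ u : ℝ) (h1 : 0 ≤ τ) (h2 : τ ≤ 1) (h3 : 0 ≤ u) (h4 : u ≤ 1) :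
    0 ≤ -Ci0.pP (261 / 10000) τ u - 261 / 10000 * (1 / 500) * Ci0.ps τ u := by
  have h := Ri0_nonneg τ u h1 h2 h3 h4
  have e : -Ci0.pP (261 / 10000) τ u - 261 / 10000 * (1 / 500) * Ci0.ps τ u = Ri0 τ u := by
    simp only [Cf.pP, Cf.ps, Cf.pt, Cf.pg, Cf.pu, Cf.pzz, Cf.A0, Cf.A1, Cf.A2, Cf.A3, Ci0, Ri0]
    ring
  rwa [e]

theorem cert_i1 (τ u : ℝ) (h1 : 0 ≤ τ) (h2 : τ ≤ 1) (h3 : 0 ≤ u) (h4 : u ≤ 1) :
    0 ≤ -Ci1.pP (107 / 10000) τ u - 107 / 10000 * (1 / 500) * Ci1.ps τ u := by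
  have h := Ri1_nonneg τ u h1 h2 h3 h4
  have e : -Ci1.pP (107 / 10000) τ u - 107 / 10000 * (1 / 500) * Ci1.ps τ u = Ri1 τ u := by
    simp only [Cf.pP, Cf.ps, Cf.pt, Cf.pg, Cf.pu, Cf.pzz, Cf.A0, Cf.A1, Cf.A2, Cf.A3, Ci1, Ri1]
    ring
  rwa [e]

theorem cert_zo0 (τ u : ℝ) (h1 : 0 ≤ τ) (h2 : τ ≤ 1) (h3 : 0 ≤ u) (h4 : u ≤ 1) :
    Co0.pzz τ u < 2 := by
  have h := Rzo0_nonneg τ u h1 h2 h3 h4
  have e : 19 / 10 - Co0.pzz τ u = Rzo0 τ u := by
    simp only [Cf.pzz, Cf.A1, Cf.A2, Cf.A3, Co0, Rzo0]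
    ring
  linarith

theorem cert_zo1 (τ u : ℝ) (h1 : 0 ≤ τ) (h2 : τ ≤ 1) (h3 : 0 ≤ u) (h4 : u ≤ 1) :
    Co1.pzz τ u < 2 := by
  have h := Rzo1_nonneg τ u h1 h2 h3 h4
  have e : 19 / 10 - Co1.pzz τ u = Rzo1 τ u := by
    simp only [Cf.pzz, Cf.A1, Cf.A2, Cf.A3, Co1, Rzo1]
    ring
  linarith

theorem cert_ti0 (τ u : ℝ) (h1 : 0 ≤ τ) (h2 : τ ≤ 1) (h3 : 0 ≤ u) (h4 : u ≤ 1) :
    Ci0.pt τ u < 0 := by
  have h := Rti0_nonneg τ u h1 h2 h3 h4
  have e : -Ci0.pt τ u - 1 / 100 = Rti0 τ u := by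
    simp only [Cf.pt, Ci0, Rti0]
    ring
  linarith

theorem cert_ti1 (τ u : ℝ) (h1 : 0 ≤ τ) (h2 : τ ≤ 1) (h3 : 0 ≤ u) (h4 : u ≤ 1) :
    Ci1.pt τ u < 0 := by
  have h := Rti1_nonneg τ u h1 h2 h3 h4
  have e : -Ci1.pt τ u - 1 / 100 = Rti1 τ u := by
    simp only [Cf.pt, Ci1, Rti1]
    ring
  linarith

theorem match_o (u : ℝ) : Co0.pg 1 u = Co1.pg 0 u := by
  simp only [Cf.pg, Cf.A0, Cf.A1, Cf.A2, Cf.A3, Co0, Co1]
  ring

theorem match_i (u : ℝ) : Ci0.pg 1 u = Ci1.pg 0 u := by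
  simp only [Cf.pg, Cf.A0, Cf.A1, Cf.A2, Cf.A3, Ci0, Ci1]
  ring

theorem match_o0 (u : ℝ) : Cg0.pg 0 u < Co0.pg 0 u := by
  have : Co0.pg 0 u - Cg0.pg 0 u = 1 / 10000 := by
    simp only [Cf.pg, Cf.A0, Cf.A1, Cf.A2, Cf.A3, Co0, Cg0]
    ring
  linarith

theorem match_i0 (u : ℝ) : Ci0.pg 0 u < Cg0.pg 0 u := by
  have : Cg0.pg 0 u - Ci0.pg 0 u = 1 / 10000 := by
    simp only [Cf.pg, Cf.A0, Cf.A1, Cf.A2, Cf.A3, Ci0, Cg0]
    ring
  linarith

theorem end_o : Co1.pg 1 0 = 0 := by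
  simp only [Cf.pg, Cf.A0, Cf.A1, Cf.A2, Cf.A3, Co1]
  norm_num

theorem pos_i0 {τ : ℝ} (h1 : 0 ≤ τ) (h2 : τ ≤ 1) : 0 < Ci0.pg τ ((93 / 200) ^ 2) := by
  simp only [Cf.pg, Cf.A0, Cf.A1, Cf.A2, Cf.A3, Ci0]
  nlinarith [mul_nonneg h1 (sub_nonneg.2 h2)]

theorem pos_i1 {τ : ℝ} (h1 : 0 ≤ τ) (h2 : τ ≤ 1) : 0 < Ci1.pg τ ((93 / 200) ^ 2) := by
  simp only [Cf.pg, Cf.A0, Cf.A1, Cf.A2, Cf.A3, Ci1]
  nlinarith [mul_nonneg h1 (sub_nonneg.2 h2)]

theorem norm_sub_ez (q : E) (c : ℝ) : ‖q - c • ez‖ ^ 2 = rho2 q + (q 2 - c) ^ 2 := by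
  rw [norm_sq_three, rho2]
  simp [ez_zero, ez_one, ez_two]

section

variable {T : ℝ} {F : ℝ → S → E}

theorem step_slab (h : IsMCF F0 T F) : ∀ t ∈ Ico 0 T, ∀ x, |F t x 2| ≤ 1 :=
  slab h (fun x => by rw [F0_two]; exact abs_coord_le x)

theorem step_o0 (h : IsMCF F0 T F) : ∀ t ∈ Ico 0 T, 0 ≤ t → t ≤ 0 + 177 / 10000 → ∀ x,
    rho2 (F t x) < Co0.pg ((t - 0) / (177 / 10000)) (F t x 2 ^ 2) :=
  outer_step h (step_slab h) Co0 (κ := 1 / 500) le_rfl (by norm_num) (by norm_num) cert_o0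
    cert_zo0 (fun _ x => by
      rw [h.init, rho2_F0]
      exact match_o0 _)

theorem step_o1 (h : IsMCF F0 T F) : ∀ t ∈ Ico 0 T, 177 / 10000 ≤ t →
    t ≤ 177 / 10000 + 239 / 10000 → ∀ x,
    rho2 (F t x) < Co1.pg ((t - 177 / 10000) / (239 / 10000)) (F t x 2 ^ 2) :=
  outer_step h (step_slab h) Co1 (κ := 1 / 500) (by norm_num) (by norm_num) (by norm_num) cert_o1
    cert_zo1 (fun hT x => by
      have h1 := step_o0 h (177 / 10000) ⟨by norm_num, hT⟩ (by norm_num) (by norm_num) x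
      have e : ((177 / 10000 : ℝ) - 0) / (177 / 10000) = 1 := by norm_num
      rw [e, match_o] at h1
      exact h1)

theorem step_i0 (h : IsMCF F0 T F) : ∀ t ∈ Ico 0 T, 0 ≤ t → t ≤ 0 + 261 / 10000 → ∀ x,
    Ci0.pg ((t - 0) / (261 / 10000)) (F t x 2 ^ 2) < rho2 (F t x) :=
  inner_step h (step_slab h) Ci0 (κ := 1 / 500) le_rfl (by norm_num) (by norm_num) cert_i0
    cert_ti0 (fun _ x => by
      rw [h.init, rho2_F0]
      exact match_i0 _)

theorem step_i1 (h : IsMCF F0 T F) : ∀ t ∈ Ico 0 T, 261 / 10000 ≤ t →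
    t ≤ 261 / 10000 + 107 / 10000 → ∀ x,
    Ci1.pg ((t - 261 / 10000) / (107 / 10000)) (F t x 2 ^ 2) < rho2 (F t x) :=
  inner_step h (step_slab h) Ci1 (κ := 1 / 500) (by norm_num) (by norm_num) (by norm_num) cert_i1
    cert_ti1 (fun hT x => by
      have h1 := step_i0 h (261 / 10000) ⟨by norm_num, hT⟩ (by norm_num) (by norm_num) x
      have e : ((261 / 10000 : ℝ) - 0) / (261 / 10000) = 1 := by norm_num
      rw [e, match_i] at h1
      exact h1)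

theorem ball_start (q : E) (hz : |q 2| ≤ 1) (hq : Ci1.pg 1 (q 2 ^ 2) < rho2 q) {c : ℝ}
    (hc : c = 93 / 200 ∨ c = -(93 / 200)) : 9 / 400 < ‖q - c • ez‖ ^ 2 := by
  rw [norm_sub_ez]
  simp only [Cf.pg, Cf.A0, Cf.A1, Cf.A2, Cf.A3, Ci1] at hq
  have h1 := (abs_le.1 hz).1
  have h2 := (abs_le.1 hz).2
  rcases hc with rfl | rfl
  · have := ball_p (q 2) h1 h2
    linarith
  · have := ball_m (q 2) h1 h2
    linarith

theorem step_ball (h : IsMCF F0 T F) {c : ℝ} (hc : c = 93 / 200 ∨ c = -(93 / 200)) :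
    ∀ t ∈ Ico 0 T, 368 / 10000 ≤ t → t ≤ 416 / 10000 → ∀ x,
    9 / 400 - 9 / 2 * (t - 368 / 10000) < ‖F t x - c • ez‖ ^ 2 :=
  ball_step h (c • ez) (by norm_num) (fun hT x => by
    have h0 : (368 / 10000 : ℝ) ∈ Ico 0 T := ⟨by norm_num, hT⟩
    have h1 := step_i1 h (368 / 10000) h0 (by norm_num) (by norm_num) x
    have e : ((368 / 10000 : ℝ) - 261 / 10000) / (107 / 10000) = 1 := by norm_num
    rw [e] at h1
    exact ball_start _ (step_slab h _ h0 x) h1 hc)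

theorem rho2_pt (c : ℝ) : rho2 (c • ez) = 0 := by simp [rho2, ez_zero, ez_one]

theorem pt_two (c : ℝ) : (c • ez) 2 = c := by simp [ez_two]

theorem pt_sq {c : ℝ} (hc : c = 93 / 200 ∨ c = -(93 / 200)) : c ^ 2 = (93 / 200) ^ 2 := by
  rcases hc with rfl | rfl
  · rfl
  · ring

theorem avoid (h : IsMCF F0 T F) {c : ℝ} (hc : c = 93 / 200 ∨ c = -(93 / 200)) :
    ∀ t ∈ Ico 0 T, t ≤ 416 / 10000 → ∀ x, F t x ≠ c • ez := by
  intro t ht ht2 x hcon
  rcases le_total t (261 / 10000) with h1 | h1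
  · have h2 := step_i0 h t ht ht.1 (by linarith) x
    rw [hcon, rho2_pt, pt_two, pt_sq hc] at h2
    have h3 := pos_i0 (τ := (t - 0) / (261 / 10000)) (by
      have := ht.1
      rw [sub_zero]
      positivity) (by
      rw [div_le_one (by norm_num)]
      linarith)
    linarith
  · rcases le_total t (368 / 10000) with h2 | h2
    · have h3 := step_i1 h t ht h1 (by linarith) x
      rw [hcon, rho2_pt, pt_two, pt_sq hc] at h3
      have h4 := pos_i1 (τ := (t - 261 / 10000) / (107 / 10000)) (by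
        apply div_nonneg
        · linarith
        · norm_num) (by
        rw [div_le_one (by norm_num)]
        linarith)
      linarith
    · have h3 := step_ball h hc t ht h2 ht2 x
      rw [hcon, sub_self, norm_zero] at h3
      linarith

theorem avoid_limit (h : IsMCF F0 T F) (hT : T ≤ 416 / 10000) {c : ℝ}
    (hc : c = 93 / 200 ∨ c = -(93 / 200)) {o : E}
    (hlim : ∀ ε > 0, ∃ δ > 0, ∀ t ∈ Ico 0 T, T - δ < t → ∀ x, ‖F t x - o‖ < ε) :
    o ≠ c • ez := by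
  intro hcon
  have hT0 := h.pos
  rcases le_or_gt T (261 / 10000) with h1 | h1
  · have h2 := limit_ge hT0 hlim _ (continuous_psi Ci0 0 (261 / 10000)) hT0
      (fun t ht _ x => by
        have := step_i0 h t ht ht.1 (by linarith [ht.2]) x
        simp only
        linarith)
    simp only at h2
    rw [hcon, rho2_pt, pt_two, pt_sq hc] at h2
    have h3 := pos_i0 (τ := (T - 0) / (261 / 10000)) (by
      rw [sub_zero]
      positivity) (by
      rw [div_le_one (by norm_num)]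
      linarith)
    linarith
  · rcases le_or_gt T (368 / 10000) with h1' | h1'
    · have h2 := limit_ge hT0 hlim _ (continuous_psi Ci1 (261 / 10000) (107 / 10000)) h1
        (fun t ht ht2 x => by
          have := step_i1 h t ht ht2 (by linarith [ht.2]) x
          simp only
          linarith)
      simp only at h2
      rw [hcon, rho2_pt, pt_two, pt_sq hc] at h2
      have h3 := pos_i1 (τ := (T - 261 / 10000) / (107 / 10000)) (by
        apply div_nonneg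
        · linarith
        · norm_num) (by
        rw [div_le_one (by norm_num)]
        linarith)
      linarith
    · have h2 := limit_ge hT0 hlim
        (fun r : ℝ × E => ‖r.2 - c • ez‖ ^ 2 - (9 / 400 - 9 / 2 * (r.1 - 368 / 10000)))
        (by fun_prop) h1' (fun t ht ht2 x => by
          have := step_ball h hc t ht ht2 (by linarith [ht.2]) x
          simp only
          linarith)
      simp only at h2
      rw [hcon, sub_self, norm_zero] at h2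
      linarith

theorem flow_main (h : IsMCF F0 T F) : T ≤ 416 / 10000 ∧ ¬ ShrinksToPoint T F := by
  have hp : |(93 / 200 : ℝ)| < 1 := by
    rw [abs_of_pos (by norm_num)]
    norm_num
  have hm : |(-(93 / 200) : ℝ)| < 1 := by
    rw [abs_neg]
    exact hp
  have hT : T ≤ 416 / 10000 := by
    by_contra hcon
    push Not at hcon
    have ht : (416 / 10000 : ℝ) ∈ Ico 0 T := ⟨by norm_num, hcon⟩
    refine time_contra h (p₁ := (93 / 200 : ℝ) • ez) (p₂ := (-(93 / 200) : ℝ) • ez) ?_ ?_ ht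
      ?_ ?_ ?_ (hom_id_F0.trans (hom_F0_sub hp)) (hom_id_F0.trans (hom_F0_sub hm))
    · rw [pt_two]
      norm_num
    · rw [pt_two]
      norm_num
    · intro s hs x
      exact avoid h (Or.inl rfl) s ⟨hs.1, hs.2.trans_lt hcon⟩ hs.2 x
    · intro s hs x
      exact avoid h (Or.inr rfl) s ⟨hs.1, hs.2.trans_lt hcon⟩ hs.2 x
    · intro x hx
      have h1 := step_o1 h (416 / 10000) ht (by norm_num) (by norm_num) x
      have e : ((416 / 10000 : ℝ) - 177 / 10000) / (239 / 10000) = 1 := by norm_num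
      rw [e, hx] at h1
      have e2 : (0 : ℝ) ^ 2 = 0 := by norm_num
      rw [e2, end_o, rho2] at h1
      nlinarith [sq_nonneg (F (416 / 10000) x 0), sq_nonneg (F (416 / 10000) x 1)]
  refine ⟨hT, ?_⟩
  rintro ⟨o, hlim⟩
  exact shrink_contra h hlim (avoid_limit h hT (Or.inl rfl) hlim)
    (fun s hs x => avoid h (Or.inl rfl) s hs (hs.2.le.trans hT) x)
    (hom_id_F0.trans (hom_F0_sub hp))

end

end Pool.Agent.Helper608.WillMCF
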