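import Mathlib
import Pool.Agent.Helper608.WBar

/-! Even moments of a coordinate on the sphere. -/

open Set Metric MeasureTheory MeasureTheory.Measure
open scoped Real

namespace Pool.Agent.Helper608.WillMCF

/-- The one-dimensional integrals. -/
theorem gamma_int (k : ℕ) : ∫ t in Ioi (0 : ℝ), (t ^ 2) ^ k * Real.exp (-t ^ 2) =
    1 / 2 * Real.Gamma (k + 1 / 2) := by
  have h := integral_rpow_mul_exp_neg_rpow (p := 2) (q := 2 * k) (by norm_num)
    (by have : (0 : ℝ) ≤ k := Nat.cast_nonneg _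
        linarith)
  have e : ((2 * (k : ℝ) + 1) / 2) = k + 1 / 2 := by ring
  rw [e] at h
  rw [← h]
  refine setIntegral_congr_fun measurableSet_Ioi (fun t ht => ?_)
  have h1 : t ^ (2 : ℝ) = t ^ 2 := by
    rw [← Real.rpow_natCast]
    norm_num
  have h2 : t ^ (2 * (k : ℝ)) = (t ^ 2) ^ k := by
    rw [← pow_mul, ← Real.rpow_natCast]
    push_cast
    rfl
  simp only [h1, h2]

theorem gamma_int_line (k : ℕ) : ∫ t : ℝ, (t ^ 2) ^ k * Real.exp (-t ^ 2) =
    Real.Gamma (k + 1 / 2) := by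
  have h := integral_comp_abs (f := fun t : ℝ => (t ^ 2) ^ k * Real.exp (-t ^ 2))
  simp only [sq_abs] at h
  rw [h, gamma_int]
  ring

theorem gauss_cart (k : ℕ) : ∫ y : E, (y 2 ^ 2) ^ k * Real.exp (-‖y‖ ^ 2) =
    π * Real.Gamma (k + 1 / 2) := by
  rw [← (PiLp.volume_preserving_toLp (Fin 3)).integral_comp
    (MeasurableEquiv.toLp 2 _).measurableEmbedding]
  have h1 : ∀ x : Fin 3 → ℝ, ((WithLp.toLp 2 x : E) 2 ^ 2) ^ k *
      Real.exp (-‖(WithLp.toLp 2 x : E)‖ ^ 2) =
      ∏ i, (fun (i : Fin 3) (t : ℝ) => (t ^ 2) ^ (if i = 2 then k else 0) * Real.exp (-t ^ 2))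
        i (x i) := by
    intro x
    rw [Fin.prod_univ_three, norm_sq_three]
    simp only [Fin.isValue]
    have e : Real.exp (-(x 0 ^ 2 + x 1 ^ 2 + x 2 ^ 2)) =
        Real.exp (-x 0 ^ 2) * Real.exp (-x 1 ^ 2) * Real.exp (-x 2 ^ 2) := by
      rw [← Real.exp_add, ← Real.exp_add]
      congr 1
      ring
    rw [e]
    simp
    ring
  have h4 := integral_fintype_prod_volume_eq_prod (ι := Fin 3) (E := fun _ => ℝ)
    (fun (i : Fin 3) (t : ℝ) => (t ^ 2) ^ (if i = 2 then k else 0) * Real.exp (-t ^ 2))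
  refine ((integral_congr_ae (Filter.Eventually.of_forall h1)).trans h4).trans ?_
  rw [Fin.prod_univ_three]
  simp only [gamma_int_line]
  have hG : Real.Gamma 2⁻¹ = √π := by
    rw [← one_div]
    exact Real.Gamma_one_half_eq
  have h2 : Real.Gamma (((if (0 : Fin 3) = 2 then k else 0 : ℕ) : ℝ) + 1 / 2) = √π := by
    simp [hG]
  have h3 : Real.Gamma (((if (1 : Fin 3) = 2 then k else 0 : ℕ) : ℝ) + 1 / 2) = √π := by
    simp [hG]
  rw [h2, h3, Real.mul_self_sqrt Real.pi_pos.le]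
  simp

theorem gauss_polar (k : ℕ) : ∫ y : E, (y 2 ^ 2) ^ k * Real.exp (-‖y‖ ^ 2) =
    (∫ x : S, ((x : E) 2 ^ 2) ^ k ∂(volume : Measure E).toSphere) *
      ∫ r in Ioi (0 : ℝ), (r ^ 2) ^ (k + 1) * Real.exp (-r ^ 2) := by
  have hdim : Module.finrank ℝ E - 1 = 2 := by simp
  calc ∫ y : E, (y 2 ^ 2) ^ k * Real.exp (-‖y‖ ^ 2)
      = ∫ y : ({(0)}ᶜ : Set E), ((y : E) 2 ^ 2) ^ k * Real.exp (-‖(y : E)‖ ^ 2)
        ∂((volume : Measure E).comap ((↑) : ({(0)}ᶜ : Set E) → E)) := by
        rw [integral_subtype_comap (measurableSet_singleton _).compl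
          fun y : E => (y 2 ^ 2) ^ k * Real.exp (-‖y‖ ^ 2), restrict_compl_singleton]
    _ = ∫ p : S × Ioi (0 : ℝ), ((p.1 : E) 2 ^ 2) ^ k * (((p.2 : ℝ) ^ 2) ^ k *
        Real.exp (-(p.2 : ℝ) ^ 2))
        ∂((volume : Measure E).toSphere.prod (.volumeIoiPow (Module.finrank ℝ E - 1))) := by
        rw [← (volume : Measure E).measurePreserving_homeomorphUnitSphereProd.integral_comp
          (Homeomorph.measurableEmbedding _)]
        refine integral_congr_ae (Filter.Eventually.of_forall fun y => ?_)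
        have hy : ‖(y : E)‖ ≠ 0 := norm_ne_zero_iff.2 y.2
        have h1 : ((homeomorphUnitSphereProd E y).1 : E) = ‖(y : E)‖⁻¹ • (y : E) := by
          simp
        have h2 : ((homeomorphUnitSphereProd E y).2 : ℝ) = ‖(y : E)‖ := by
          simp
        simp only [h1, h2, PiLp.smul_apply, smul_eq_mul]
        rw [← mul_assoc, ← mul_pow]
        congr 2
        field_simp
    _ = (∫ x : S, ((x : E) 2 ^ 2) ^ k ∂(volume : Measure E).toSphere) *
        ∫ r : Ioi (0 : ℝ), (((r : ℝ) ^ 2) ^ k * Real.exp (-(r : ℝ) ^ 2))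
        ∂(.volumeIoiPow (Module.finrank ℝ E - 1)) := by
        exact integral_prod_mul (fun x : S => ((x : E) 2 ^ 2) ^ k)
          (fun r : Ioi (0 : ℝ) => (((r : ℝ) ^ 2) ^ k * Real.exp (-(r : ℝ) ^ 2)))
    _ = _ := by
        rw [hdim]
        congr 1
        simp only [Measure.volumeIoiPow, ENNReal.ofReal]
        rw [integral_withDensity_eq_integral_smul
          ((measurable_subtype_coe.pow_const _).real_toNNReal),
          integral_subtype_comap measurableSet_Ioi fun a : ℝ => Real.toNNReal (a ^ 2) •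
            ((a ^ 2) ^ k * Real.exp (-a ^ 2))]
        refine setIntegral_congr_fun measurableSet_Ioi fun r hr => ?_
        simp only [NNReal.smul_def, smul_eq_mul]
        rw [Real.coe_toNNReal _ (sq_nonneg _)]
        ring

/-- The even moments of a coordinate on the sphere. -/
theorem moment (k : ℕ) : ∫ x : S, ((x : E) 2 ^ 2) ^ k ∂(volume : Measure E).toSphere =
    4 * π / (2 * k + 1) := by
  have h1 := gauss_polar k
  rw [gauss_cart, gamma_int] at h1
  have h2 : Real.Gamma (((k + 1 : ℕ) : ℝ) + 1 / 2) = (k + 1 / 2) * Real.Gamma (k + 1 / 2) := by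
    rw [← Real.Gamma_add_one (by positivity)]
    congr 1
    push_cast
    ring
  rw [h2] at h1
  have h3 : 0 < Real.Gamma ((k : ℝ) + 1 / 2) := Real.Gamma_pos_of_pos (by positivity)
  have h4 : π = (∫ x : S, ((x : E) 2 ^ 2) ^ k ∂(volume : Measure E).toSphere) *
      (1 / 2 * (k + 1 / 2)) := by
    apply mul_right_cancel₀ h3.ne'
    rw [h1]
    ring
  rw [eq_div_iff (by positivity)]
  linear_combination (-4) * h4

end Pool.Agent.Helper608.WillMCF
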