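import Mathlib
import Pool.Agent.Helper608.WMain
import Pool.Agent.Helper608.WDens
import Pool.Agent.Helper608.WMoment

/-! Final theorem: small Willmore energy does not imply convergence of the mean curvature flow to
a round point. -/

open Set Metric MeasureTheory
open scoped ContDiff Real

namespace Pool.Agent.Helper608.WillMCF

/-- The coefficients of `pU`. -/
noncomputable def cU : Fin 13 → ℝ := ![241 / 250, 44749 / 1000, -411869 / 1000, 346103 / 100,
  -9274063 / 500, 8507256 / 125, -171836651 / 1000, 73967101 / 250, -344857339 / 1000,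
  133627741 / 500, -2631673 / 20, 7411189 / 200, -449507 / 100]

theorem pU_eq (u : ℝ) : pU u = ∑ i : Fin 13, cU i * u ^ (i : ℕ) := by
  simp only [pU, cU, Fin.sum_univ_succ, Fin.sum_univ_zero, Matrix.cons_val_zero,
    Matrix.cons_val_succ, Fin.val_zero, Fin.val_succ]
  ring

theorem continuous_pow_coord (k : ℕ) : Continuous (fun x : S => ((x : E) 2 ^ 2) ^ k) := by
  fun_prop

theorem integrable_pow_coord (k : ℕ) :
    Integrable (fun x : S => ((x : E) 2 ^ 2) ^ k) (volume : Measure E).toSphere :=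
  (continuous_pow_coord k).integrable_of_hasCompactSupport (HasCompactSupport.of_compactSpace _)

theorem integrable_pU :
    Integrable (fun x : S => pU ((x : E) 2 ^ 2)) (volume : Measure E).toSphere := by
  simp only [pU_eq]
  exact integrable_finsetSum _ (fun (i : Fin 13) _ => (integrable_pow_coord i).const_mul _)

theorem integral_pU : ∫ x : S, pU ((x : E) 2 ^ 2) ∂(volume : Measure E).toSphere =
    4 * π * (22112410883 / 3522519000) := by
  simp only [pU_eq]
  rw [integral_finsetSum _ (fun (i : Fin 13) _ => (integrable_pow_coord (i : ℕ)).const_mul (cU i))]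
  simp only [integral_const_mul, moment]
  simp only [cU, Fin.sum_univ_succ, Fin.sum_univ_zero, Matrix.cons_val_zero,
    Matrix.cons_val_succ, Fin.val_zero, Fin.val_succ]
  push_cast
  ring

theorem pU_nonneg {u : ℝ} (h0 : 0 ≤ u) (h1 : u ≤ 1) : 0 ≤ pU u := by
  have h := pU_le h0 h1
  have h2 := s_pos h0 h1
  have h3 := mul_nonneg (sq_nonneg (pN u)) (pA_nonneg h0 h1)
  by_contra hcon
  push Not at hcon
  have := mul_neg_of_neg_of_pos hcon (pow_pos h2 2)
  linarith

theorem energy_F0 {e b : S → Fin 2 → E} (h : ∀ x, IsFrame F0 x (e x) ∧ IsONB x (b x)) :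
    energy F0 e b < ENNReal.ofReal (8 * π ^ 2) := by
  have h1 : energy F0 e b ≤ ∫⁻ x : S, ENNReal.ofReal (pU ((x : E) 2 ^ 2))
      ∂(volume : Measure E).toSphere := by
    apply lintegral_mono
    intro x
    exact ENNReal.ofReal_le_ofReal (density_le (h x).1 (h x).2)
  refine h1.trans_lt ?_
  rw [← ofReal_integral_eq_lintegral_ofReal integrable_pU
    (Filter.Eventually.of_forall fun x => pU_nonneg (sq_nonneg _) (coord_sq_le x)), integral_pU]
  rw [ENNReal.ofReal_lt_ofReal_iff (by positivity)]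
  have hpi := Real.pi_gt_d4
  have hpi0 := Real.pi_pos
  nlinarith

theorem exists_onb (x : S) : ∃ b, IsONB x b := by
  let W := (Submodule.span ℝ {(x : E)})ᗮ
  have hW : Module.finrank ℝ W = 2 := by
    have : Fact (Module.finrank ℝ E = 2 + 1) := ⟨by simp⟩
    exact Submodule.finrank_orthogonal_span_singleton (coe_ne_zero x)
  have hperp : ∀ w : W, inner ℝ (x : E) (w : E) = 0 := fun w =>
    Submodule.mem_orthogonal_singleton_iff_inner_right.1 w.2
  let v := stdOrthonormalBasis ℝ W
  refine ⟨fun i => (v (Fin.cast hW.symm i) : E), fun i => hperp _, ?_⟩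
  have h1 : Orthonormal ℝ (fun i => (v i : E)) := v.orthonormal.comp_linearIsometry W.subtypeₗᵢ
  exact h1.comp _ (Fin.cast_injective hW.symm)

theorem final :
    ∃ F₀ : S → E,
      IsSmooth F₀ ∧ IsImmersion F₀ ∧ Function.Injective F₀ ∧
      (∃ e b : S → Fin 2 → E, ∀ x, IsFrame F₀ x (e x) ∧ IsONB x (b x)) ∧
      (∀ e b : S → Fin 2 → E, (∀ x, IsFrame F₀ x (e x) ∧ IsONB x (b x)) →
        energy F₀ e b < ENNReal.ofReal (8 * π ^ 2)) ∧
      ∃ T₀ : ℝ, ∀ (T : ℝ) (F : ℝ → S → E), IsMCF F₀ T F → T ≤ T₀ ∧ ¬ ShrinksToPoint T F := by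
  refine ⟨F0, F0_smooth, F0_imm, F0_inj, ?_, fun e b h => energy_F0 h,
    416 / 10000, fun T F h => flow_main h⟩
  choose e he using fun x : S => exists_frame F0_imm x
  choose b hb using fun x : S => exists_onb x
  exact ⟨e, b, fun x => ⟨he x, hb x⟩⟩

end Pool.Agent.Helper608.WillMCF
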