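import Mathlib
import Pool.Agent.Helper608.WFinal

/-! A sharper energy bound for the dumbbell. -/

open Set Metric MeasureTheory
open scoped ContDiff Real

namespace Pool.Agent.Helper608.WillMCF

theorem energy_F0' {e b : S → Fin 2 → E} (h : ∀ x, IsFrame F0 x (e x) ∧ IsONB x (b x)) :
    energy F0 e b < ENNReal.ofReal (16 * π + 2863 / 100) := by
  have h1 : energy F0 e b ≤ ∫⁻ x : S, ENNReal.ofReal (pU ((x : E) 2 ^ 2))
      ∂(volume : Measure E).toSphere := by
    apply lintegral_mono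
    intro x
    exact ENNReal.ofReal_le_ofReal (density_le (h x).1 (h x).2)
  refine h1.trans_lt ?_
  rw [← ofReal_integral_eq_lintegral_ofReal integrable_pU
    (Filter.Eventually.of_forall fun x => pU_nonneg (sq_nonneg _) (coord_sq_le x)), integral_pU]
  rw [ENNReal.ofReal_lt_ofReal_iff (by positivity)]
  have hpi := Real.pi_lt_d4
  have hpi0 := Real.pi_pos
  nlinarith

theorem threshold :
    (2863 / 100 : ℝ) < 8 * π ^ 2 - 16 * π ∧
    ∃ F₀ : S → E,
      IsSmooth F₀ ∧ IsImmersion F₀ ∧ Function.Injective F₀ ∧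
      (∃ e b : S → Fin 2 → E, ∀ x, IsFrame F₀ x (e x) ∧ IsONB x (b x)) ∧
      (∀ e b : S → Fin 2 → E, (∀ x, IsFrame F₀ x (e x) ∧ IsONB x (b x)) →
        energy F₀ e b < ENNReal.ofReal (16 * π + 2863 / 100)) ∧
      ∃ T₀ : ℝ, ∀ (T : ℝ) (F : ℝ → S → E), IsMCF F₀ T F → T ≤ T₀ ∧ ¬ ShrinksToPoint T F := by
  refine ⟨?_, F0, F0_smooth, F0_imm, F0_inj, ?_, fun e b h => energy_F0' h,
    416 / 10000, fun T F h => flow_main h⟩
  · have hpi := Real.pi_gt_d4
    nlinarith
  choose e he using fun x : S => exists_frame F0_imm x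
  choose b hb using fun x : S => exists_onb x
  exact ⟨e, b, fun x => ⟨he x, hb x⟩⟩

end Pool.Agent.Helper608.WillMCF
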